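import Mathlib

/-!
# Continuous one-cocycles with values in the points of a Weierstrass curve, and local triviality
-/

set_option autoImplicit false

namespace Pool.Agent.Work.MP_787500_nt

open WeierstrassCurve WeierstrassCurve.Affine

open scoped Classical in
/-- The natural action of an automorphism `σ` of the algebraic closure of `K` over `K` on the
points of `W` over the algebraic closure. -/
noncomputable def gact {K : Type*} [Field K] (W : WeierstrassCurve.Affine K)
    (σ : AlgebraicClosure K ≃ₐ[K] AlgebraicClosure K) :
    (W⁄(AlgebraicClosure K)).Point →+ (W⁄(AlgebraicClosure K)).Point :=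
  Point.map (σ : AlgebraicClosure K →ₐ[K] AlgebraicClosure K)

open scoped Classical in
/-- `c` is a continuous 1-cocycle of the absolute Galois group of `K` (Krull topology) with values
in the discrete module of points of `W` over the algebraic closure of `K`. -/
structure IsCocycle {K : Type*} [Field K] (W : WeierstrassCurve.Affine K)
    (c : (AlgebraicClosure K ≃ₐ[K] AlgebraicClosure K) → (W⁄(AlgebraicClosure K)).Point) :
    Prop where
  cont : IsLocallyConstant c
  mul : ∀ σ τ, c (σ * τ) = c σ + gact W σ (c τ)

open scoped Classical in
/-- `c` is a 1-coboundary. -/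
def IsCobdry {K : Type*} [Field K] (W : WeierstrassCurve.Affine K)
    (c : (AlgebraicClosure K ≃ₐ[K] AlgebraicClosure K) → (W⁄(AlgebraicClosure K)).Point) :
    Prop :=
  ∃ P : (W⁄(AlgebraicClosure K)).Point, ∀ σ, c σ = gact W σ P - P

open scoped Classical in
/-- The class of `c` becomes trivial over the extension field `F` of `K`: for some embedding `ι` of
the algebraic closure of `K` into the algebraic closure of `F`, the pull back of `c` to the
absolute Galois group of `F` is a coboundary with values in the points over the algebraic closure
of `F`. -/
def LocTriv {K : Type*} [Field K] (W : WeierstrassCurve.Affine K) (F : Type*) [Field F]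
    [Algebra K F]
    (c : (AlgebraicClosure K ≃ₐ[K] AlgebraicClosure K) → (W⁄(AlgebraicClosure K)).Point) :
    Prop :=
  ∃ (ι : AlgebraicClosure K →ₐ[K] AlgebraicClosure F)
    (P : (W⁄(AlgebraicClosure F)).Point),
    ∀ (τ : AlgebraicClosure F ≃ₐ[F] AlgebraicClosure F)
      (σ : AlgebraicClosure K ≃ₐ[K] AlgebraicClosure K), (∀ x, τ (ι x) = ι (σ x)) →
      Point.map (W' := W) ι (c σ) =
        Point.map (W' := W) (τ : AlgebraicClosure F →ₐ[F] AlgebraicClosure F) P - P

end Pool.Agent.Work.MP_787500_nt
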