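import Mathlib
import Pool.Agent.Work.MP_787500_nt.H9_Sha

/-!
Definitions used in the statement.
-/

set_option autoImplicit false

namespace Pool.Agent.Work.MP_787500_nt

open WithZero IsDedekindDomain NumberField WeierstrassCurve WeierstrassCurve.Affine

universe u

/-- The number field `F` is contained in a finite Galois extension `L` of the number field `K`, of
degree a power of 2, in which every prime not containing 2 is unramified over `K`. -/
def InTwoTower (K F : Type u) [Field K] [NumberField K] [Field F] [NumberField F]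
    [Algebra K F] : Prop :=
  ∃ (L : Type u) (_ : Field L) (_ : NumberField L) (_ : Algebra K L) (_ : Algebra F L)
    (_ : IsScalarTower K F L), IsGalois K L ∧ (∃ m : ℕ, Module.finrank K L = 2 ^ m) ∧
    ∀ Q : HeightOneSpectrum (𝓞 L), (2 : 𝓞 L) ∉ Q.asIdeal → Algebra.IsUnramifiedAt (𝓞 K) Q.asIdeal

variable {F : Type u} [Field F] [NumberField F]

/-- The curve `y^2 = (x - e1) (x - e2) (x - e3)`. -/
def legendre (e1 e2 e3 : F) : WeierstrassCurve.Affine F where
  a₁ := 0
  a₂ := -(e1 + e2 + e3)
  a₃ := 0
  a₄ := e1 * e2 + e2 * e3 + e3 * e1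
  a₆ := -(e1 * e2 * e3)

/-- The maximum of the valuations at `v` of the differences of `e1`, `e2`, `e3`. -/
noncomputable def diffVal (e1 e2 e3 : F) (v : HeightOneSpectrum (𝓞 F)) : ℤᵐ⁰ :=
  max (v.valuation F (e1 - e2)) (max (v.valuation F (e2 - e3)) (v.valuation F (e3 - e1)))

/-- The finite places of `F` not above 2 at which the maximum of the valuations of the differences of
`e1`, `e2`, `e3` is a square, but these valuations are not all equal: the places of multiplicative
reduction of the curve `y^2 = (x - e1) (x - e2) (x - e3)`. -/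
def multPlaces (e1 e2 e3 : F) : Set (HeightOneSpectrum (𝓞 F)) :=
  {v | (2 : 𝓞 F) ∉ v.asIdeal ∧ IsSquare (diffVal e1 e2 e3 v) ∧
    ¬ (v.valuation F (e1 - e2) = v.valuation F (e2 - e3) ∧
      v.valuation F (e2 - e3) = v.valuation F (e3 - e1))}

/-- The finite places of `F` not above 2 at which the maximum of the valuations of the differences of
`e1`, `e2`, `e3` is not a square: the places of additive reduction of the curve
`y^2 = (x - e1) (x - e2) (x - e3)`. -/
def addPlaces (e1 e2 e3 : F) : Set (HeightOneSpectrum (𝓞 F)) :=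
  {v | (2 : 𝓞 F) ∉ v.asIdeal ∧ ¬ IsSquare (diffVal e1 e2 e3 v)}

/-- The number of places of multiplicative reduction plus twice the number of places of additive
reduction, among the places not above 2: the exponent of the conductor away from 2. -/
noncomputable def condExp (e1 e2 e3 : F) : ℕ :=
  (multPlaces e1 e2 e3).ncard + 2 * (addPlaces e1 e2 e3).ncard

open scoped Classical in
/-- A continuous cocycle with values in the points over the algebraic closure, which becomes
trivial at every finite place and a `2 ^ k`-multiple of which is a coboundary, is a coboundary. -/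
def ShaTwoTrivial (W : WeierstrassCurve.Affine F) : Prop :=
  ∀ c : (AlgebraicClosure F ≃ₐ[F] AlgebraicClosure F) → (W⁄(AlgebraicClosure F)).Point,
    IsCocycle W c → (∀ v : HeightOneSpectrum (𝓞 F), LocTriv W (v.adicCompletion F) c) →
    (∃ k : ℕ, IsCobdry W (fun σ => (2 ^ k) • c σ)) → IsCobdry W c

open scoped Classical in
/-- The group of points of `W` over `F` is finitely generated, of rank at most `N`, and if the rank
is `N` then the 2-primary part of the Tate-Shafarevich group is trivial. -/
def RankShaBound (W : WeierstrassCurve.Affine F) (N : ℕ) : Prop :=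
  AddGroup.FG W.Point ∧ Module.finrank ℤ W.Point ≤ N ∧
    (Module.finrank ℤ W.Point = N → ShaTwoTrivial W)

/-- `K` is a quadratic field, `s ^ 2 = -q` in `K`, and `q` is a prime congruent to 7 modulo 16. -/
def IsBase (K : Type u) [Field K] [NumberField K] (q : ℕ) (s : K) : Prop :=
  Module.finrank ℚ K = 2 ∧ s ^ 2 = -(q : K) ∧ q.Prime ∧ q % 16 = 7

/-- There are places `w` and `w'` above 2 with `e3 - e1` divisible by `16 (e3 - e2)` at `w`, and
`e2 - e1` divisible by `16 (e2 - e3)` at `w'`. -/
def DyadicCond (e1 e2 e3 : F) : Prop :=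
  (∃ w : HeightOneSpectrum (𝓞 F), (2 : 𝓞 F) ∈ w.asIdeal ∧
    w.valuation F (e3 - e1) ≤ w.valuation F (16 * (e3 - e2))) ∧
  (∃ w' : HeightOneSpectrum (𝓞 F), (2 : 𝓞 F) ∈ w'.asIdeal ∧
    w'.valuation F (e2 - e1) ≤ w'.valuation F (16 * (e2 - e3)))

/-- For all curves with full two-torsion over `F` that satisfy the dyadic condition, the exponent of
the conductor away from 2 bounds the rank, with trivial 2-primary Tate-Shafarevich group in case of
equality. -/
def MainBound (F : Type u) [Field F] [NumberField F] : Prop :=
  ∀ e1 e2 e3 : F, e1 ≠ e2 → e2 ≠ e3 → e3 ≠ e1 → DyadicCond e1 e2 e3 →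
    (multPlaces e1 e2 e3 ∪ addPlaces e1 e2 e3).Finite ∧
      RankShaBound (legendre e1 e2 e3) (condExp e1 e2 e3)

/-- The finite places of `F` not above 2 at which `D` has odd valuation. -/
def oddPlaces (D : F) : Set (HeightOneSpectrum (𝓞 F)) :=
  {v | (2 : 𝓞 F) ∉ v.asIdeal ∧ ¬ IsSquare (v.valuation F D)}

/-- The curve `y ^ 2 = x (x - D (3 s + 1) / 2) (x - D (3 s - 1) / 2)`. When `s ^ 2 = -7` this is
the curve `y ^ 2 = x ^ 3 - 3 s D x ^ 2 - 16 D ^ 2 x`, whose `j`-invariant is `-3375`. -/
def cmCurve (s D : F) : WeierstrassCurve.Affine F :=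
  legendre 0 (D * (3 * s + 1) / 2) (D * (3 * s - 1) / 2)

/-- The bound for the curves `cmCurve s D`. -/
def CMBound (s : F) : Prop :=
  ∀ D : F, D ≠ 0 → (oddPlaces D).Finite ∧ RankShaBound (cmCurve s D) (2 * (oddPlaces D).ncard)

open scoped Classical in
/-- If `D` has odd valuation at at most one place not above 2, then the curve `cmCurve s D` has rank
exactly 2 and trivial 2-primary Tate-Shafarevich group. -/
def RankTwo (s D : F) : Prop :=
  (oddPlaces D).ncard ≤ 1 →
    Module.finrank ℤ (cmCurve s D).Point = 2 ∧ ShaTwoTrivial (cmCurve s D)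

end Pool.Agent.Work.MP_787500_nt
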