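import Mathlib

/-!
Definitions for the statement on representations that are residually sums of the trivial and the
cyclotomic character.
-/

set_option autoImplicit false

namespace Pool.Agent.Work.MP_787500_nt.OddP

open IsDedekindDomain NumberField
open scoped Pointwise

universe u

/-- The absolute Galois group of `F`, with its Krull topology. -/
abbrev AbsGal (F : Type u) [Field F] : Type u := AlgebraicClosure F ≃ₐ[F] AlgebraicClosure F

/-- The number field `F` is contained in a finite Galois extension `L` of the number field `K`, of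
degree a power of `p`, in which every prime not containing `p` is unramified over `K`. -/
def InPTower (p : ℕ) (K F : Type u) [Field K] [NumberField K] [Field F] [NumberField F]
    [Algebra K F] : Prop :=
  ∃ (L : Type u) (_ : Field L) (_ : NumberField L) (_ : Algebra K L) (_ : Algebra F L)
    (_ : IsScalarTower K F L), IsGalois K L ∧ (∃ m : ℕ, Module.finrank K L = p ^ m) ∧
    ∀ Q : HeightOneSpectrum (𝓞 L), (p : 𝓞 L) ∉ Q.asIdeal → Algebra.IsUnramifiedAt (𝓞 K) Q.asIdeal

/-- `K` is an imaginary quadratic field with class number prime to the odd prime `p`; `p` is the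
product of two different prime ideals `P` and `P'` of `K`; the power `P ^ m` is generated by `a`,
the power `P' ^ m'` is generated by `a'`, with `m` and `m'` prime to `p`, and `a ^ (p - 1)` is not
congruent to 1 modulo `P' ^ 2` and `a' ^ (p - 1)` is not congruent to 1 modulo `P ^ 2`. -/
structure IsBase (p : ℕ) (K : Type u) [Field K] [NumberField K] : Prop where
  prime : p.Prime
  odd : p ≠ 2
  deg : Module.finrank ℚ K = 2
  cplx : IsTotallyComplex K
  cls : ¬ p ∣ classNumber K
  gold : ∃ (P P' : Ideal (𝓞 K)) (a a' : 𝓞 K) (m m' : ℕ), P.IsPrime ∧ P'.IsPrime ∧ P ≠ P' ∧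
    P * P' = Ideal.span {(p : 𝓞 K)} ∧ ¬ p ∣ m ∧ ¬ p ∣ m' ∧ Ideal.span {a} = P ^ m ∧
    Ideal.span {a'} = P' ^ m' ∧ a ^ (p - 1) - 1 ∉ P' ^ 2 ∧ a' ^ (p - 1) - 1 ∉ P ^ 2

variable {p : ℕ} [Fact p.Prime] {F : Type u} [Field F] {n : ℕ}

/-- The linear map of `Q_p ^ n` given by a matrix over the `p`-adic integers. -/
noncomputable def actLin (M : Matrix (Fin n) (Fin n) ℤ_[p]) :
    (Fin n → ℚ_[p]) →ₗ[ℚ_[p]] (Fin n → ℚ_[p]) where
  toFun x := fun i => ∑ j, (M i j : ℚ_[p]) * x j
  map_add' x y := by
    ext i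
    simp [mul_add, Finset.sum_add_distrib]
  map_smul' a x := by
    ext i
    simp only [Pi.smul_apply, smul_eq_mul, Finset.mul_sum, RingHom.id_apply]
    exact Finset.sum_congr rfl (fun j _ => by ring)

/-- The coboundary attached to a vector, as a linear map to functions on the Galois group. -/
noncomputable def cobLin (ρ : AbsGal F →* Matrix (Fin n) (Fin n) ℤ_[p]) :
    (Fin n → ℚ_[p]) →ₗ[ℚ_[p]] (AbsGal F → Fin n → ℚ_[p]) :=
  LinearMap.pi (fun σ => actLin (ρ σ) - LinearMap.id)

/-- The vectors fixed by the inertia group of the ideal `Q`. -/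
noncomputable def inertiaInv (ρ : AbsGal F →* Matrix (Fin n) (Fin n) ℤ_[p])
    (Q : Ideal (𝓞 (AlgebraicClosure F))) : Submodule ℚ_[p] (Fin n → ℚ_[p]) :=
  ⨅ σ : Q.inertia (AbsGal F), LinearMap.ker (actLin (ρ σ) - LinearMap.id)

/-- The functions on the Galois group vanishing on the subgroup `D`. -/
def zeroOn (D : Subgroup (AbsGal F)) : Submodule ℚ_[p] (AbsGal F → Fin n → ℚ_[p]) where
  carrier := {c | ∀ σ ∈ D, c σ = 0}
  add_mem' := fun ha hb σ hσ => by simp [ha σ hσ, hb σ hσ]
  zero_mem' := fun _ _ => rfl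
  smul_mem' := fun a c hc σ hσ => by simp [hc σ hσ]

/-- The functions whose restriction to the subgroup `D` agrees with a coboundary. -/
noncomputable def locally (ρ : AbsGal F →* Matrix (Fin n) (Fin n) ℤ_[p])
    (D : Subgroup (AbsGal F)) : Submodule ℚ_[p] (AbsGal F → Fin n → ℚ_[p]) :=
  LinearMap.range (cobLin ρ) ⊔ zeroOn D

/-- The continuous 1-cocycles. -/
noncomputable def cocycles (ρ : AbsGal F →* Matrix (Fin n) (Fin n) ℤ_[p]) :
    Submodule ℚ_[p] (AbsGal F → Fin n → ℚ_[p]) where
  carrier := {c | Continuous c ∧ ∀ σ τ, c (σ * τ) = c σ + actLin (ρ σ) (c τ)}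
  add_mem' := fun {a b} ha hb => ⟨ha.1.add hb.1, fun σ τ => by
    simp only [Pi.add_apply, ha.2 σ τ, hb.2 σ τ, map_add]
    abel⟩
  zero_mem' := ⟨continuous_const, fun σ τ => by simp⟩
  smul_mem' := fun a c hc => ⟨hc.1.const_smul a, fun σ τ => by
    simp only [Pi.smul_apply, hc.2 σ τ, map_smul, smul_add]⟩

/-- The Selmer space with the strict condition at `P`: continuous cocycles that become coboundaries
on the decomposition group (the stabilizer) of the ideal `P` of the ring of algebraic integers, and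
on the inertia groups of all primes of the ring of algebraic integers not containing `p`. -/
noncomputable def selmer (ρ : AbsGal F →* Matrix (Fin n) (Fin n) ℤ_[p])
    (P : Ideal (𝓞 (AlgebraicClosure F))) : Submodule ℚ_[p] (AbsGal F → Fin n → ℚ_[p]) :=
  cocycles ρ ⊓ locally ρ (MulAction.stabilizer (AbsGal F) P) ⊓
    ⨅ (Q : Ideal (𝓞 (AlgebraicClosure F))) (_ : Q.IsPrime) (_ : (p : 𝓞 (AlgebraicClosure F)) ∉ Q),
      locally ρ (Q.inertia (AbsGal F))

/-- The dimension of the Selmer space modulo coboundaries. -/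
noncomputable def selmerDim (ρ : AbsGal F →* Matrix (Fin n) (Fin n) ℤ_[p])
    (P : Ideal (𝓞 (AlgebraicClosure F))) : Cardinal :=
  Module.rank ℚ_[p] (selmer ρ P ⧸ (LinearMap.range (cobLin ρ)).submoduleOf (selmer ρ P))

/-- `Q` chooses a prime `Q v` of the ring of all algebraic integers above each finite place `v` of
`F`, and `T` is a finite set of places not above `p` such that `ρ` is trivial on the inertia group
of `Q v` if `v` is neither in `T` nor above `p`. -/
structure IsRamSet (ρ : AbsGal F →* Matrix (Fin n) (Fin n) ℤ_[p])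
    (Q : HeightOneSpectrum (𝓞 F) → Ideal (𝓞 (AlgebraicClosure F)))
    (T : Finset (HeightOneSpectrum (𝓞 F))) : Prop where
  prime : ∀ v, (Q v).IsPrime
  above : ∀ v, (Q v).comap (algebraMap (𝓞 F) (𝓞 (AlgebraicClosure F))) = v.asIdeal
  off : ∀ v ∈ T, (p : 𝓞 F) ∉ v.asIdeal
  unram : ∀ v ∉ T, (p : 𝓞 F) ∉ v.asIdeal → ∀ σ ∈ (Q v).inertia (AbsGal F), ρ σ = 1

/-- The continuous representation `ρ` is modulo `p` upper triangular and unramified away from `p`,
and each diagonal entry modulo `p` is the trivial character or the cyclotomic character (the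
character describing the action on the `p`-th roots of unity). -/
structure IsResid (ρ : AbsGal F →* Matrix (Fin n) (Fin n) ℤ_[p]) : Prop where
  cont : Continuous ρ
  upper : ∀ σ, ∀ i j, j < i → (p : ℤ_[p]) ∣ ρ σ i j
  diag : ∀ i, (∀ σ, (p : ℤ_[p]) ∣ ρ σ i i - 1) ∨
    (∀ σ, ∃ m : ℕ, (p : ℤ_[p]) ∣ ρ σ i i - m ∧
      ∀ z : AlgebraicClosure F, z ^ p = 1 → σ z = z ^ m)
  unram : ∀ Q : Ideal (𝓞 (AlgebraicClosure F)), Q.IsPrime → (p : 𝓞 (AlgebraicClosure F)) ∉ Q →
    ∀ σ ∈ Q.inertia (AbsGal F), ∀ i j, (p : ℤ_[p]) ∣ (ρ σ - 1) i j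

end Pool.Agent.Work.MP_787500_nt.OddP
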