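import Mathlib

/-!
# Algebra of curves with full rational two-torsion
-/

set_option autoImplicit false

namespace Pool.Agent.Work.MP_787500_nt

open WeierstrassCurve WeierstrassCurve.Affine

variable {F : Type*} [Field F]

/-- `W` is the curve `y^2 = (x-e1)(x-e2)(x-e3)` with `e1, e2, e3` pairwise distinct. -/
structure TwoTors {R : Type*} [CommRing R] (W : WeierstrassCurve.Affine R) (e1 e2 e3 : R) :
    Prop where
  a1 : W.a₁ = 0
  a3 : W.a₃ = 0
  a2 : W.a₂ = -(e1 + e2 + e3)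
  a4 : W.a₄ = e1 * e2 + e2 * e3 + e3 * e1
  a6 : W.a₆ = -(e1 * e2 * e3)
  h12 : e1 ≠ e2
  h23 : e2 ≠ e3
  h31 : e3 ≠ e1

namespace TwoTors

variable {W : WeierstrassCurve.Affine F} {e1 e2 e3 : F}

lemma rot (h : TwoTors W e1 e2 e3) : TwoTors W e2 e3 e1 where
  a1 := h.a1
  a3 := h.a3
  a2 := by rw [h.a2]; ring
  a4 := by rw [h.a4]; ring
  a6 := by rw [h.a6]; ring
  h12 := h.h23
  h23 := h.h31
  h31 := h.h12

lemma swap (h : TwoTors W e1 e2 e3) : TwoTors W e1 e3 e2 where
  a1 := h.a1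
  a3 := h.a3
  a2 := by rw [h.a2]; ring
  a4 := by rw [h.a4]; ring
  a6 := by rw [h.a6]; ring
  h12 := h.h31.symm
  h23 := h.h23.symm
  h31 := h.h12.symm

lemma equation_iff' (h : TwoTors W e1 e2 e3) (x y : F) :
    W.Equation x y ↔ y ^ 2 = (x - e1) * (x - e2) * (x - e3) := by
  rw [equation_iff, h.a1, h.a2, h.a3, h.a4, h.a6]
  constructor <;> intro hh <;> linear_combination hh

lemma nonsingular_of_eq [NeZero (2 : F)] (h : TwoTors W e1 e2 e3) {x y : F}
    (hxy : y ^ 2 = (x - e1) * (x - e2) * (x - e3)) : W.Nonsingular x y := by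
  rw [nonsingular_iff']
  refine ⟨(h.equation_iff' x y).2 hxy, ?_⟩
  rw [h.a1, h.a2, h.a3, h.a4]
  by_cases hy : y = 0
  · left
    intro h0
    have h0' : 3 * x ^ 2 - 2 * (e1 + e2 + e3) * x + (e1 * e2 + e2 * e3 + e3 * e1) = 0 := by
      linear_combination -h0
    have hf : (x - e1) * (x - e2) * (x - e3) = 0 := by rw [← hxy, hy]; ring
    rcases mul_eq_zero.1 hf with hf | hf
    · rcases mul_eq_zero.1 hf with hf | hf
      · have hx : x = e1 := sub_eq_zero.1 hf
        subst hx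
        have : (x - e2) * (x - e3) = 0 := by linear_combination h0'
        rcases mul_eq_zero.1 this with h1 | h1
        · exact h.h12 (sub_eq_zero.1 h1)
        · exact h.h31 (sub_eq_zero.1 h1).symm
      · have hx : x = e2 := sub_eq_zero.1 hf
        subst hx
        have : (x - e1) * (x - e3) = 0 := by linear_combination h0'
        rcases mul_eq_zero.1 this with h1 | h1
        · exact h.h12 (sub_eq_zero.1 h1).symm
        · exact h.h23 (sub_eq_zero.1 h1)
    · have hx : x = e3 := sub_eq_zero.1 hf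
      subst hx
      have : (x - e1) * (x - e2) = 0 := by linear_combination h0'
      rcases mul_eq_zero.1 this with h1 | h1
      · exact h.h31 (sub_eq_zero.1 h1)
      · exact h.h23 (sub_eq_zero.1 h1).symm
  · right
    have : (2 : F) * y ≠ 0 := mul_ne_zero (NeZero.ne _) hy
    simpa using this

lemma eq_of_nonsingular (h : TwoTors W e1 e2 e3) {x y : F} (hn : W.Nonsingular x y) :
    y ^ 2 = (x - e1) * (x - e2) * (x - e3) := (h.equation_iff' x y).1 hn.1

lemma negY_eq (h : TwoTors W e1 e2 e3) (x y : F) : W.negY x y = -y := by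
  simp [negY, h.a1, h.a3]

end TwoTors

section

variable {W : WeierstrassCurve.Affine F} {e1 e2 e3 : F}

/-- The two-torsion point `(e1, 0)`. -/
noncomputable def tor [NeZero (2 : F)] (h : TwoTors W e1 e2 e3) : W.Point :=
  .some e1 0 (h.nonsingular_of_eq (by ring))

/-- the function `R_1` on non-two-torsion points, with `R_1(P)^2 = x(2P) - e1`. -/
noncomputable def rFun (e1 e2 e3 : F) : W.Point → F
  | .zero => 0
  | .some x y _ => ((x - e1) ^ 2 - (e1 - e2) * (e1 - e3)) / (2 * y)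

lemma halfPt_nonsingular [NeZero (2 : F)] (h : TwoTors W e1 e2 e3) {x r1 r2 r3 : F}
    (h1 : r1 ^ 2 = x - e1) (h2 : r2 ^ 2 = x - e2) (h3 : r3 ^ 2 = x - e3) :
    W.Nonsingular (x + r1 * r2 + r2 * r3 + r3 * r1) ((r1 + r2) * (r2 + r3) * (r3 + r1)) :=
  h.nonsingular_of_eq (by
    have e1' : e1 = x - r1 ^ 2 := by rw [h1]; ring
    have e2' : e2 = x - r2 ^ 2 := by rw [h2]; ring
    have e3' : e3 = x - r3 ^ 2 := by rw [h3]; ring
    rw [e1', e2', e3']; ring)

/-- the point obtained by halving -/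
noncomputable def halfPt [NeZero (2 : F)] (h : TwoTors W e1 e2 e3) {x r1 r2 r3 : F}
    (h1 : r1 ^ 2 = x - e1) (h2 : r2 ^ 2 = x - e2) (h3 : r3 ^ 2 = x - e3) : W.Point :=
  .some (x + r1 * r2 + r2 * r3 + r3 * r1) ((r1 + r2) * (r2 + r3) * (r3 + r1))
    (halfPt_nonsingular h h1 h2 h3)

lemma halfPt_y_ne [NeZero (2 : F)] (h : TwoTors W e1 e2 e3) {x r1 r2 r3 : F}
    (h1 : r1 ^ 2 = x - e1) (h2 : r2 ^ 2 = x - e2) (h3 : r3 ^ 2 = x - e3) :
    (r1 + r2) * (r2 + r3) * (r3 + r1) ≠ 0 := by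
  have g12 : r1 + r2 ≠ 0 := by
    intro hh
    apply h.h12
    have : (r1 + r2) * (r1 - r2) = e2 - e1 := by linear_combination h1 - h2
    rw [hh, zero_mul] at this
    exact (sub_eq_zero.1 this.symm).symm
  have g23 : r2 + r3 ≠ 0 := by
    intro hh
    apply h.h23
    have : (r2 + r3) * (r2 - r3) = e3 - e2 := by linear_combination h2 - h3
    rw [hh, zero_mul] at this
    exact (sub_eq_zero.1 this.symm).symm
  have g31 : r3 + r1 ≠ 0 := by
    intro hh
    apply h.h31
    have : (r3 + r1) * (r3 - r1) = e1 - e3 := by linear_combination h3 - h1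
    rw [hh, zero_mul] at this
    exact (sub_eq_zero.1 this.symm).symm
  exact mul_ne_zero (mul_ne_zero g12 g23) g31

lemma rFun_some {x y : F} (hn : W.Nonsingular x y) :
    rFun e1 e2 e3 (.some x y hn : W.Point) = ((x - e1) ^ 2 - (e1 - e2) * (e1 - e3)) / (2 * y) := rfl

lemma rFun_halfPt [NeZero (2 : F)] (h : TwoTors W e1 e2 e3) {x r1 r2 r3 : F}
    (h1 : r1 ^ 2 = x - e1) (h2 : r2 ^ 2 = x - e2) (h3 : r3 ^ 2 = x - e3) :
    rFun e1 e2 e3 (halfPt h h1 h2 h3) = r1 := by
  have hy := halfPt_y_ne h h1 h2 h3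
  have h2' : (2 : F) ≠ 0 := NeZero.ne _
  rw [halfPt, rFun_some, div_eq_iff (mul_ne_zero h2' hy)]
  have e1' : e1 = x - r1 ^ 2 := by rw [h1]; ring
  have e2' : e2 = x - r2 ^ 2 := by rw [h2]; ring
  have e3' : e3 = x - r3 ^ 2 := by rw [h3]; ring
  rw [e1', e2', e3']; ring

variable [DecidableEq F]

/-- doubling formula -/
lemma add_self_some (h : TwoTors W e1 e2 e3) [NeZero (2 : F)] {x y : F}
    (hn : W.Nonsingular x y) (hy : y ≠ 0) :
    ∃ (X Y : F) (hn' : W.Nonsingular X Y),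
      (Point.some x y hn : W.Point) + Point.some x y hn = Point.some X Y hn' ∧
      X - e1 = (((x - e1) ^ 2 - (e1 - e2) * (e1 - e3)) / (2 * y)) ^ 2 ∧
      Y = (((x - e1) ^ 2 - (e1 - e2) * (e1 - e3)) / (2 * y)) *
        (((x - e2) ^ 2 - (e2 - e3) * (e2 - e1)) / (2 * y)) *
        (((x - e3) ^ 2 - (e3 - e1) * (e3 - e2)) / (2 * y)) := by
  have h2' : (2 : F) ≠ 0 := NeZero.ne _
  have h2y : (2 : F) * y ≠ 0 := mul_ne_zero h2' hy
  have hyn : y ≠ W.negY x y := by
    rw [h.negY_eq]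
    intro hh
    apply hy
    have : (2 : F) * y = 0 := by linear_combination hh
    exact (mul_eq_zero.1 this).resolve_left h2'
  have heq := h.eq_of_nonsingular hn
  have hs : W.slope x x y y * (2 * y) =
      3 * x ^ 2 - 2 * (e1 + e2 + e3) * x + (e1 * e2 + e2 * e3 + e3 * e1) := by
    rw [slope_of_Y_ne rfl hyn, h.negY_eq, h.a1, h.a2, h.a4]
    have : y - -y = 2 * y := by ring
    rw [this, div_mul_cancel₀ _ h2y]
    ring
  refine ⟨_, _, _, Point.add_self_of_Y_ne hyn, ?_, ?_⟩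
  · rw [div_pow, eq_div_iff (pow_ne_zero 2 h2y), addX, h.a1, h.a2]
    linear_combination (W.slope x x y y * (2 * y) +
      (3 * x ^ 2 - 2 * (e1 + e2 + e3) * x + (e1 * e2 + e2 * e3 + e3 * e1))) * hs +
      (4 * e2 + 4 * e3 - 8 * x) * heq
  · rw [div_mul_div_comm, div_mul_div_comm, eq_div_iff
      (mul_ne_zero (mul_ne_zero h2y h2y) h2y), addY, negAddY, addX, h.negY_eq, h.a1, h.a2]
    linear_combination (-((W.slope x x y y * (2 * y)) ^ 2 + (W.slope x x y y * (2 * y)) *
      (3 * x ^ 2 - 2 * (e1 + e2 + e3) * x + (e1 * e2 + e2 * e3 + e3 * e1)) +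
      (3 * x ^ 2 - 2 * (e1 + e2 + e3) * x + (e1 * e2 + e2 * e3 + e3 * e1)) ^ 2 -
      (3 * x - (e1 + e2 + e3)) * 4 * y ^ 2)) * hs -
      (8 * (y ^ 2 + (x - e1) * (x - e2) * (x - e3)) - 4 * (3 * x - (e1 + e2 + e3)) *
      (3 * x ^ 2 - 2 * (e1 + e2 + e3) * x + (e1 * e2 + e2 * e3 + e3 * e1))) * heq

/-- a point is killed by two iff it is `0` or has `y = 0` -/
lemma add_self_eq_zero_iff (h : TwoTors W e1 e2 e3) [NeZero (2 : F)] {x y : F}
    (hn : W.Nonsingular x y) :
    (Point.some x y hn : W.Point) + Point.some x y hn = 0 ↔ y = 0 := by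
  constructor
  · intro h0
    by_contra hy
    obtain ⟨X, Y, hn', hadd, -⟩ := add_self_some h hn hy
    rw [hadd] at h0
    exact Point.some_ne_zero _ h0
  · intro hy
    apply Point.add_self_of_Y_eq
    rw [h.negY_eq, hy, neg_zero]

lemma tor_add_tor (h : TwoTors W e1 e2 e3) [NeZero (2 : F)] : tor h + tor h = 0 := by
  rw [tor, add_self_eq_zero_iff h]

/-- the two-torsion points -/
lemma two_torsion_cases (h : TwoTors W e1 e2 e3) [NeZero (2 : F)] {P : W.Point}
    (hP : P + P = 0) : P = 0 ∨ P = tor h ∨ P = tor h.rot ∨ P = tor h.rot.rot := by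
  rcases P with _ | ⟨x, y, hn⟩
  · left; rfl
  · right
    rw [add_self_eq_zero_iff h] at hP
    subst hP
    have heq := h.eq_of_nonsingular hn
    have : (x - e1) * (x - e2) * (x - e3) = 0 := by rw [← heq]; ring
    rcases mul_eq_zero.1 this with h1 | h1
    · rcases mul_eq_zero.1 h1 with h1 | h1
      · left
        simp only [tor, Point.some.injEq, and_true]
        exact sub_eq_zero.1 h1
      · right; left
        simp only [tor, Point.some.injEq, and_true]
        exact sub_eq_zero.1 h1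
    · right; right
      simp only [tor, Point.some.injEq, and_true]
      exact sub_eq_zero.1 h1

/-- doubling the half point -/
lemma halfPt_add_self [NeZero (2 : F)] (h : TwoTors W e1 e2 e3) {x y r1 r2 r3 : F}
    (h1 : r1 ^ 2 = x - e1) (h2 : r2 ^ 2 = x - e2) (h3 : r3 ^ 2 = x - e3)
    (hn : W.Nonsingular x y) (hy : y = r1 * r2 * r3) :
    halfPt h h1 h2 h3 + halfPt h h1 h2 h3 = Point.some x y hn := by
  have hy0 := halfPt_y_ne h h1 h2 h3
  have h2' : (2 : F) ≠ 0 := NeZero.ne _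
  obtain ⟨X, Y, hn', hadd, hX, hY⟩ := add_self_some h (halfPt_nonsingular h h1 h2 h3) hy0
  have e1' : e1 = x - r1 ^ 2 := by rw [h1]; ring
  have e2' : e2 = x - r2 ^ 2 := by rw [h2]; ring
  have e3' : e3 = x - r3 ^ 2 := by rw [h3]; ring
  have k1 : ((x + r1 * r2 + r2 * r3 + r3 * r1 - e1) ^ 2 - (e1 - e2) * (e1 - e3)) /
      (2 * ((r1 + r2) * (r2 + r3) * (r3 + r1))) = r1 := by
    rw [div_eq_iff (mul_ne_zero h2' hy0), e1', e2', e3']; ring
  have k2 : ((x + r1 * r2 + r2 * r3 + r3 * r1 - e2) ^ 2 - (e2 - e3) * (e2 - e1)) /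
      (2 * ((r1 + r2) * (r2 + r3) * (r3 + r1))) = r2 := by
    rw [div_eq_iff (mul_ne_zero h2' hy0), e1', e2', e3']; ring
  have k3 : ((x + r1 * r2 + r2 * r3 + r3 * r1 - e3) ^ 2 - (e3 - e1) * (e3 - e2)) /
      (2 * ((r1 + r2) * (r2 + r3) * (r3 + r1))) = r3 := by
    rw [div_eq_iff (mul_ne_zero h2' hy0), e1', e2', e3']; ring
  rw [k1] at hX
  rw [k1, k2, k3] at hY
  have hXx : X = x := by linear_combination hX + h1
  unfold halfPt
  rw [hadd]
  simp only [Point.some.injEq]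
  exact ⟨hXx, by rw [hY, hy]⟩

/-- `R_1(P)^2 = x(2P) - e1` -/
lemma rFun_sq [NeZero (2 : F)] (h : TwoTors W e1 e2 e3) {P : W.Point} {X Y : F}
    {hn : W.Nonsingular X Y} (hP : P + P = .some X Y hn) :
    (rFun e1 e2 e3 P) ^ 2 = X - e1 := by
  rcases P with _ | ⟨x, y, hxy⟩
  · exact absurd hP.symm (by
      have : (Point.zero : W.Point) + Point.zero = 0 := by
        rw [← Point.zero_def, add_zero]
      rw [this]; exact Point.some_ne_zero hn)
  · by_cases hy : y = 0
    · rw [(add_self_eq_zero_iff h hxy).2 hy] at hP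
      exact absurd hP.symm (Point.some_ne_zero hn)
    · obtain ⟨X', Y', hn', hadd, hX, hY⟩ := add_self_some h hxy hy
      rw [hadd] at hP
      simp only [Point.some.injEq] at hP
      rw [rFun_some, ← hX, hP.1]

/-- `R_1(P)R_2(P)R_3(P) = y(2P)` -/
lemma rFun_mul [NeZero (2 : F)] (h : TwoTors W e1 e2 e3) {P : W.Point} {X Y : F}
    {hn : W.Nonsingular X Y} (hP : P + P = .some X Y hn) :
    rFun e1 e2 e3 P * rFun e2 e3 e1 P * rFun e3 e1 e2 P = Y := by
  rcases P with _ | ⟨x, y, hxy⟩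
  · exact absurd hP.symm (by
      have : (Point.zero : W.Point) + Point.zero = 0 := by
        rw [← Point.zero_def, add_zero]
      rw [this]; exact Point.some_ne_zero hn)
  · by_cases hy : y = 0
    · rw [(add_self_eq_zero_iff h hxy).2 hy] at hP
      exact absurd hP.symm (Point.some_ne_zero hn)
    · obtain ⟨X', Y', hn', hadd, hX, hY⟩ := add_self_some h hxy hy
      rw [hadd] at hP
      simp only [Point.some.injEq] at hP
      rw [rFun_some, rFun_some, rFun_some, ← hP.2, hY]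

/-- translation by `(e1,0)` -/
lemma some_add_tor [NeZero (2 : F)] (h : TwoTors W e1 e2 e3) {x y : F}
    (hxy : W.Nonsingular x y) (hx : x ≠ e1) :
    ∃ (X Y : F) (hn : W.Nonsingular X Y),
      (Point.some x y hxy : W.Point) + tor h = .some X Y hn ∧
      (X - e1) * (x - e1) = (e1 - e2) * (e1 - e3) ∧
      Y * (x - e1) ^ 2 = - y * ((e1 - e2) * (e1 - e3)) := by
  have heq := h.eq_of_nonsingular hxy
  have hs : W.slope x e1 y 0 * (x - e1) = y := by
    rw [slope_of_X_ne hx, sub_zero, div_mul_cancel₀ _ (sub_ne_zero.2 hx)]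
  have hx' : x - e1 ≠ 0 := sub_ne_zero.2 hx
  refine ⟨_, _, _, Point.add_of_X_ne hx, ?_, ?_⟩
  · rw [addX, h.a1, h.a2]
    have : (W.slope x e1 y 0 ^ 2) * (x - e1) = (x - e2) * (x - e3) := by
      apply mul_right_cancel₀ hx'
      linear_combination (W.slope x e1 y 0 * (x - e1) + y) * hs + heq
    linear_combination this
  · rw [addY, negAddY, addX, h.negY_eq, h.a1, h.a2]
    have h3 : (W.slope x e1 y 0 ^ 2) * (x - e1) = (x - e2) * (x - e3) := by
      apply mul_right_cancel₀ hx'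
      linear_combination (W.slope x e1 y 0 * (x - e1) + y) * hs + heq
    linear_combination (-(W.slope x e1 y 0 * (x - e1))) * h3 -
      ((x - e2) * (x - e3) + (e2 + e3 - 2 * x) * (x - e1)) * hs

/-- `R_1` is invariant under translation by `(e1,0)` -/
lemma rFun_add_tor [NeZero (2 : F)] (h : TwoTors W e1 e2 e3) {P : W.Point}
    (hP : P + P ≠ 0) : rFun e1 e2 e3 (P + tor h) = rFun e1 e2 e3 P := by
  have h2' : (2 : F) ≠ 0 := NeZero.ne _
  rcases P with _ | ⟨x, y, hxy⟩
  · exact absurd (by rw [← Point.zero_def, add_zero]) hP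
  · have hy : y ≠ 0 := fun h0 => hP ((add_self_eq_zero_iff h hxy).2 h0)
    have heq := h.eq_of_nonsingular hxy
    have hx : x ≠ e1 := by
      rintro rfl
      apply hy
      have : y ^ 2 = 0 := by rw [heq]; ring
      exact pow_eq_zero_iff (two_ne_zero) |>.1 this
    have hx' : x - e1 ≠ 0 := sub_ne_zero.2 hx
    obtain ⟨X, Y, hn, hadd, hX, hY⟩ := some_add_tor h hxy hx
    have hd : (e1 - e2) * (e1 - e3) ≠ 0 :=
      mul_ne_zero (sub_ne_zero.2 h.h12) (sub_ne_zero.2 h.h31.symm)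
    have hY0 : Y ≠ 0 := by
      rintro rfl
      rw [zero_mul] at hY
      exact (mul_ne_zero (neg_ne_zero.2 hy) hd) hY.symm
    rw [hadd, rFun_some, rFun_some, div_eq_div_iff (mul_ne_zero h2' hY0) (mul_ne_zero h2' hy)]
    apply mul_right_cancel₀ (pow_ne_zero 2 hx')
    linear_combination (2 * y * ((X - e1) * (x - e1) + (e1 - e2) * (e1 - e3))) * hX -
      (2 * ((x - e1) ^ 2 - (e1 - e2) * (e1 - e3))) * hY

/-- `R_2` changes sign under translation by `(e1,0)` -/
lemma rFun_add_tor' [NeZero (2 : F)] (h : TwoTors W e1 e2 e3) {P : W.Point}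
    (hP : P + P ≠ 0) : rFun e2 e3 e1 (P + tor h) = - rFun e2 e3 e1 P := by
  have h2' : (2 : F) ≠ 0 := NeZero.ne _
  rcases P with _ | ⟨x, y, hxy⟩
  · exact absurd (by rw [← Point.zero_def, add_zero]) hP
  · have hy : y ≠ 0 := fun h0 => hP ((add_self_eq_zero_iff h hxy).2 h0)
    have heq := h.eq_of_nonsingular hxy
    have hx : x ≠ e1 := by
      rintro rfl
      apply hy
      have : y ^ 2 = 0 := by rw [heq]; ring
      exact pow_eq_zero_iff (two_ne_zero) |>.1 this
    have hx' : x - e1 ≠ 0 := sub_ne_zero.2 hx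
    obtain ⟨X, Y, hn, hadd, hX, hY⟩ := some_add_tor h hxy hx
    have hd : (e1 - e2) * (e1 - e3) ≠ 0 :=
      mul_ne_zero (sub_ne_zero.2 h.h12) (sub_ne_zero.2 h.h31.symm)
    have hY0 : Y ≠ 0 := by
      rintro rfl
      rw [zero_mul] at hY
      exact (mul_ne_zero (neg_ne_zero.2 hy) hd) hY.symm
    rw [hadd, rFun_some, rFun_some, ← neg_div,
      div_eq_div_iff (mul_ne_zero h2' hY0) (mul_ne_zero h2' hy)]
    apply mul_right_cancel₀ (pow_ne_zero 2 hx')
    have hX2 : (X - e2) * (x - e1) = (e1 - e2) * (x - e3) := by linear_combination hX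
    linear_combination (2 * y * ((X - e2) * (x - e1) + (e1 - e2) * (x - e3))) * hX2 +
      (2 * ((x - e2) ^ 2 - (e2 - e3) * (e2 - e1))) * hY

omit [DecidableEq F] in
lemma rFun_comm (P : W.Point) : rFun e1 e3 e2 P = rFun e1 e2 e3 P := by
  rcases P with _ | ⟨x, y, hxy⟩
  · rfl
  · rw [rFun_some, rFun_some, mul_comm (e1 - e3)]

/-- `R_3` changes sign under translation by `(e1,0)` -/
lemma rFun_add_tor'' [NeZero (2 : F)] (h : TwoTors W e1 e2 e3) {P : W.Point}
    (hP : P + P ≠ 0) : rFun e3 e1 e2 (P + tor h) = - rFun e3 e1 e2 P := by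
  have := rFun_add_tor' h.swap hP
  rw [rFun_comm (e1 := e3) (e2 := e1) (e3 := e2), rFun_comm (e1 := e3) (e2 := e1) (e3 := e2)] at this
  exact this

end

end Pool.Agent.Work.MP_787500_nt
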