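import Mathlib

/-!
# Kummer theory for quadratic characters
-/

set_option autoImplicit false

namespace Pool.Agent.Work.MP_787500_nt

variable {K L : Type*} [Field K] [Field L] [Algebra K L]

/-- A quadratic character (given as a predicate `A`, the elements where it is `1`) of the Galois
group of `L / K` is given by a square root. -/
theorem exists_sqrt_of_char [IsGalois K L] (A : (L ≃ₐ[K] L) → Prop)
    (hmul : ∀ σ τ, A (σ * τ) ↔ (A σ ↔ A τ)) (hopen : IsOpen {σ | A σ}) :
    ∃ s : L, s ≠ 0 ∧ (∀ σ, A σ → σ s = s) ∧ (∀ σ, ¬ A σ → σ s = - s) := by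
  classical
  have h1 : A 1 := by
    have := hmul 1 1
    rw [mul_one] at this
    tauto
  have hinv : ∀ σ, A σ⁻¹ ↔ A σ := by
    intro σ
    have := hmul σ σ⁻¹
    rw [mul_inv_cancel] at this
    tauto
  let H : Subgroup (L ≃ₐ[K] L) :=
    { carrier := {σ | A σ}
      mul_mem' := fun {a b} ha hb => (hmul a b).2 (iff_of_true ha hb)
      one_mem' := h1
      inv_mem' := fun {a} ha => (hinv a).2 ha }
  have hmem : ∀ σ, σ ∈ H ↔ A σ := fun σ => Iff.rfl
  by_cases hall : ∀ σ, A σ
  · exact ⟨1, one_ne_zero, fun σ _ => map_one σ, fun σ h => absurd (hall σ) h⟩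
  push Not at hall
  obtain ⟨σ₀, hσ₀⟩ := hall
  have hcl : IsClosed (H : Set (L ≃ₐ[K] L)) := Subgroup.isClosed_of_isOpen H hopen
  have hfix := InfiniteGalois.fixingSubgroup_fixedField (k := K) (K := L) ⟨H, hcl⟩
  have hnot : σ₀ ∉ (IntermediateField.fixedField (F := K) (E := L) H).fixingSubgroup := by
    intro hh
    have : σ₀ ∈ H := by
      have h2 : (IntermediateField.fixedField (F := K) (E := L) H).fixingSubgroup = H := hfix
      rw [h2] at hh
      exact hh
    exact hσ₀ this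
  rw [IntermediateField.mem_fixingSubgroup_iff] at hnot
  push Not at hnot
  obtain ⟨z, hz, hzne⟩ := hnot
  rw [IntermediateField.mem_fixedField_iff] at hz
  have key : ∀ σ, A σ → σ (σ₀ z) = σ₀ z := by
    intro σ hσ
    have h3 : A (σ₀⁻¹ * (σ * σ₀)) := by
      rw [hmul, hmul, hinv]
      tauto
    have h4 := hz _ ((hmem _).2 h3)
    have h5 : σ₀ ((σ₀⁻¹ * (σ * σ₀)) z) = σ₀ z := by rw [h4]
    rw [← AlgEquiv.mul_apply, ← mul_assoc, mul_inv_cancel, one_mul, AlgEquiv.mul_apply] at h5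
    exact h5
  have key2 : ∀ σ, ¬ A σ → σ z = σ₀ z := by
    intro σ hσ
    have h3 : A (σ₀⁻¹ * σ) := by
      rw [hmul, hinv]; tauto
    have h4 := hz _ ((hmem _).2 h3)
    have h5 : σ₀ ((σ₀⁻¹ * σ) z) = σ₀ z := by rw [h4]
    rw [← AlgEquiv.mul_apply, ← mul_assoc, mul_inv_cancel, one_mul] at h5
    exact h5
  have key3 : ∀ σ, ¬ A σ → σ (σ₀ z) = z := by
    intro σ hσ
    have h3 : A (σ * σ₀) := by rw [hmul]; tauto
    have h4 := hz _ ((hmem _).2 h3)
    rw [AlgEquiv.mul_apply] at h4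
    exact h4
  refine ⟨z - σ₀ z, sub_ne_zero.2 (fun h => hzne h.symm), ?_, ?_⟩
  · intro σ hσ
    rw [map_sub, key σ hσ, hz σ ((hmem σ).2 hσ)]
  · intro σ hσ
    rw [map_sub, key3 σ hσ, key2 σ hσ]
    ring

/-- restriction of automorphisms along an embedding of algebraic closures -/
theorem exists_restrict {K F : Type*} [Field K] [Field F] [Algebra K F]
    (ι : AlgebraicClosure K →ₐ[K] AlgebraicClosure F)
    (τ : AlgebraicClosure F ≃ₐ[F] AlgebraicClosure F) :
    ∃ σ : AlgebraicClosure K ≃ₐ[K] AlgebraicClosure K, ∀ x, τ (ι x) = ι (σ x) := by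
  let _ : Algebra (AlgebraicClosure K) (AlgebraicClosure F) := ι.toRingHom.toAlgebra
  have : IsScalarTower K (AlgebraicClosure K) (AlgebraicClosure F) :=
    IsScalarTower.of_algebraMap_eq (fun x => (ι.commutes x).symm)
  refine ⟨AlgEquiv.restrictNormal (τ.restrictScalars K) (AlgebraicClosure K), fun x => ?_⟩
  exact (AlgEquiv.restrictNormal_commutes (τ.restrictScalars K) (AlgebraicClosure K) x).symm

end Pool.Agent.Work.MP_787500_nt
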