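import Mathlib
import Pool.Agent.Work.MP_787500_nt.H9_Alg
import Pool.Agent.Work.MP_787500_nt.H9_Sha
import Pool.Agent.Work.MP_787500_nt.H9_Kummer

/-!
# Complete two-descent, cohomological form
-/

set_option autoImplicit false
set_option linter.unusedSectionVars false
set_option linter.unusedSimpArgs false

namespace Pool.Agent.Work.MP_787500_nt

open WeierstrassCurve WeierstrassCurve.Affine

section torsion

variable {F : Type*} [Field F] [DecidableEq F] [NeZero (2 : F)]
variable {W : WeierstrassCurve.Affine F} {e1 e2 e3 : F}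

lemma tor_ne_zero (h : TwoTors W e1 e2 e3) : tor h ≠ 0 := Point.some_ne_zero _

lemma tor_rot3 (h : TwoTors W e1 e2 e3) : tor h.rot.rot.rot = tor h := rfl

lemma tor_ne_rot (h : TwoTors W e1 e2 e3) : tor h ≠ tor h.rot := by
  intro hh
  simp only [tor, Point.some.injEq, and_true] at hh
  exact h.h12 hh

lemma tor_ne_rot2 (h : TwoTors W e1 e2 e3) : tor h ≠ tor h.rot.rot := by
  intro hh
  simp only [tor, Point.some.injEq, and_true] at hh
  exact h.h31 hh.symm

lemma tor_add_rot (h : TwoTors W e1 e2 e3) : tor h + tor h.rot = tor h.rot.rot := by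
  have h2 : (tor h + tor h.rot) + (tor h + tor h.rot) = 0 := by
    rw [add_add_add_comm, tor_add_tor, tor_add_tor, add_zero]
  rcases two_torsion_cases h h2 with h3 | h3 | h3 | h3
  · exfalso
    apply tor_ne_rot h
    have h4 : tor h = - tor h.rot := eq_neg_of_add_eq_zero_left h3
    rw [h4, neg_eq_iff_add_eq_zero, tor_add_tor]
  · exact absurd (add_eq_left.1 h3) (tor_ne_zero h.rot)
  · exact absurd (add_eq_right.1 h3) (tor_ne_zero h)
  · exact h3

/-- `T` pairs trivially with `(e1,0)` -/
def inA (h : TwoTors W e1 e2 e3) (T : W.Point) : Prop := T = 0 ∨ T = tor h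

lemma inA_zero (h : TwoTors W e1 e2 e3) : inA h 0 := Or.inl rfl

lemma inA_tor (h : TwoTors W e1 e2 e3) : inA h (tor h) := Or.inr rfl

lemma not_inA_rot (h : TwoTors W e1 e2 e3) : ¬ inA h (tor h.rot) := by
  rintro (hh | hh)
  · exact tor_ne_zero h.rot hh
  · exact tor_ne_rot h hh.symm

lemma not_inA_rot2 (h : TwoTors W e1 e2 e3) : ¬ inA h (tor h.rot.rot) := by
  rintro (hh | hh)
  · exact tor_ne_zero h.rot.rot hh
  · exact tor_ne_rot2 h hh.symm

lemma inA_add_iff (h : TwoTors W e1 e2 e3) {S T : W.Point} (hS : S + S = 0) (hT : T + T = 0) :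
    inA h (S + T) ↔ (inA h S ↔ inA h T) := by
  have n1 := inA_zero h
  have n2 := inA_tor h
  have n3 := not_inA_rot h
  have n4 := not_inA_rot2 h
  have a12 := tor_add_rot h
  have a23 : tor h.rot + tor h.rot.rot = tor h := tor_add_rot h.rot
  have a31 : tor h.rot.rot + tor h = tor h.rot := tor_add_rot h.rot.rot
  have a21 : tor h.rot + tor h = tor h.rot.rot := by rw [add_comm, a12]
  have a32 : tor h.rot.rot + tor h.rot = tor h := by rw [add_comm, a23]
  have a13 : tor h + tor h.rot.rot = tor h.rot := by rw [add_comm, a31]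
  rcases two_torsion_cases h hS with rfl | rfl | rfl | rfl <;>
  rcases two_torsion_cases h hT with rfl | rfl | rfl | rfl <;>
  simp only [zero_add, add_zero, tor_add_tor, a12, a23, a31, a21, a32, a13, n1, n2, n3, n4,
    iff_true, iff_false, true_iff, false_iff, not_true, not_false_iff, not_false_eq_true]

lemma inA_eq (h : TwoTors W e1 e2 e3) {S T : W.Point} (hS : S + S = 0) (hT : T + T = 0)
    (h1 : inA h S ↔ inA h T) (h2 : inA h.rot S ↔ inA h.rot T) : S = T := by
  have h3 : (S + T) + (S + T) = 0 := by rw [add_add_add_comm, hS, hT, add_zero]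
  have h4 := (inA_add_iff h hS hT).2 h1
  have h5 := (inA_add_iff h.rot hS hT).2 h2
  have h6 : S + T = 0 := by
    rcases h4 with h4 | h4
    · exact h4
    · rcases h5 with h5 | h5
      · exact h5
      · rw [h4] at h5
        exact absurd h5 (tor_ne_rot h)
  rw [eq_neg_of_add_eq_zero_left h6, neg_eq_iff_add_eq_zero, hT]

lemma rFun_add_of_inA (h : TwoTors W e1 e2 e3) {P T : W.Point} (hP : P + P ≠ 0)
    (hA : inA h T) : rFun e1 e2 e3 (P + T) = rFun e1 e2 e3 P := by
  rcases hA with rfl | rfl
  · rw [add_zero]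
  · exact rFun_add_tor h hP

lemma rFun_add_of_not_inA (h : TwoTors W e1 e2 e3) {P T : W.Point} (hP : P + P ≠ 0)
    (hT : T + T = 0) (hA : ¬ inA h T) : rFun e1 e2 e3 (P + T) = - rFun e1 e2 e3 P := by
  rcases two_torsion_cases h hT with rfl | rfl | rfl | rfl
  · exact absurd (inA_zero h) hA
  · exact absurd (inA_tor h) hA
  · exact rFun_add_tor'' h.rot hP
  · exact rFun_add_tor' h.rot.rot hP

end torsion

section bc

variable {K : Type*} [Field K] {W : WeierstrassCurve.Affine K} {e1 e2 e3 : K}

lemma TwoTors.bc (h : TwoTors W e1 e2 e3) (L : Type*) [Field L] [Algebra K L] :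
    TwoTors (W⁄L) (algebraMap K L e1) (algebraMap K L e2) (algebraMap K L e3) where
  a1 := by simp [h.a1]
  a3 := by simp [h.a3]
  a2 := by simp [h.a2]
  a4 := by simp [h.a4]
  a6 := by simp [h.a6]
  h12 := fun hh => h.h12 ((algebraMap K L).injective hh)
  h23 := fun hh => h.h23 ((algebraMap K L).injective hh)
  h31 := fun hh => h.h31 ((algebraMap K L).injective hh)

variable {S L M : Type*} [CommRing S] [Field L] [Field M] [Algebra K S] [Algebra K L]
  [Algebra K M] [Algebra S L] [Algebra S M] [IsScalarTower K S L] [IsScalarTower K S M]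
  [DecidableEq L] [DecidableEq M] (f : L →ₐ[S] M)

omit [DecidableEq L] [DecidableEq M] in
lemma algHom_algebraMap (x : K) : f (algebraMap K L x) = algebraMap K M x := by
  rw [IsScalarTower.algebraMap_apply K S L, f.commutes, ← IsScalarTower.algebraMap_apply K S M]

lemma map_tor [NeZero (2 : L)] [NeZero (2 : M)] (h : TwoTors W e1 e2 e3) :
    Point.map (W' := W) f (tor (h.bc L)) = tor (h.bc M) := by
  rw [tor, tor, Point.map_some]
  simp only [Point.some.injEq]
  exact ⟨algHom_algebraMap f e1, map_zero f⟩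

lemma map_rFun (P : (W⁄L).Point) :
    rFun (algebraMap K M e1) (algebraMap K M e2) (algebraMap K M e3) (Point.map (W' := W) f P) =
      f (rFun (algebraMap K L e1) (algebraMap K L e2) (algebraMap K L e3) P) := by
  rcases P with _ | ⟨x, y, hxy⟩
  · have : Point.map (W' := W) f Point.zero = 0 := Point.map_zero f
    rw [this, rFun.eq_def, rFun.eq_def, map_zero]
  · rw [Point.map_some, rFun_some, rFun_some]
    simp only [map_div₀, map_sub, map_pow, map_mul, map_ofNat, algHom_algebraMap]

end bc

/-- The two-covering of `y^2 = (x-e1)(x-e2)(x-e3)` given by `(d1, d2, d3)` has a point over `F`. -/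
def HomSol {K : Type*} [Field K] (e1 e2 e3 d1 d2 d3 : K) (F : Type*) [Field F] [Algebra K F] :
    Prop :=
  ∃ X w z1 z2 z3 : F, (w ≠ 0 ∨ X ≠ 0) ∧
    algebraMap K F d1 * z1 ^ 2 = X - algebraMap K F e1 * w ^ 2 ∧
    algebraMap K F d2 * z2 ^ 2 = X - algebraMap K F e2 * w ^ 2 ∧
    algebraMap K F d3 * z3 ^ 2 = X - algebraMap K F e3 * w ^ 2

lemma HomSol.rot {K : Type*} [Field K] {e1 e2 e3 d1 d2 d3 : K} {F : Type*} [Field F]
    [Algebra K F] (h : HomSol e1 e2 e3 d1 d2 d3 F) : HomSol e2 e3 e1 d2 d3 d1 F := by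
  obtain ⟨X, w, z1, z2, z3, h0, h1, h2, h3⟩ := h
  exact ⟨X, w, z2, z3, z1, h0, h2, h3, h1⟩

section halving

variable {L : Type*} [Field L] [IsAlgClosed L] [DecidableEq L] [NeZero (2 : L)]
variable {W : WeierstrassCurve.Affine L} {e1 e2 e3 : L}

/-- over an algebraically closed field every point is divisible by two -/
lemma exists_half (h : TwoTors W e1 e2 e3) (P : W.Point) : ∃ Q : W.Point, Q + Q = P := by
  rcases P with _ | ⟨x, y, hxy⟩
  · exact ⟨0, by rw [add_zero, Point.zero_def]⟩
  · have heq := h.eq_of_nonsingular hxy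
    obtain ⟨r1, h1⟩ := IsAlgClosed.exists_pow_nat_eq (x - e1) (n := 2) (by norm_num)
    obtain ⟨r2, h2⟩ := IsAlgClosed.exists_pow_nat_eq (x - e2) (n := 2) (by norm_num)
    obtain ⟨r3, h3⟩ := IsAlgClosed.exists_pow_nat_eq (x - e3) (n := 2) (by norm_num)
    have hsq : y ^ 2 = (r1 * r2 * r3) ^ 2 := by rw [heq, ← h1, ← h2, ← h3]; ring
    rcases sq_eq_sq_iff_eq_or_eq_neg.1 hsq with hy | hy
    · exact ⟨halfPt h h1 h2 h3, halfPt_add_self h h1 h2 h3 hxy hy⟩
    · have h3' : (-r3) ^ 2 = x - e3 := by rw [neg_sq, h3]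
      exact ⟨halfPt h h1 h2 h3', halfPt_add_self h h1 h2 h3' hxy (by rw [hy]; ring)⟩

end halving

section fixed

open scoped Classical in
/-- Galois-fixed points are rational -/
lemma exists_of_fixed {K F : Type*} [Field K] [Field F] [CharZero F] [Algebra K F]
    {W : WeierstrassCurve.Affine K} {X Y : AlgebraicClosure F}
    {hn : (W⁄(AlgebraicClosure F)).Nonsingular X Y}
    (hfix : ∀ τ : AlgebraicClosure F ≃ₐ[F] AlgebraicClosure F,
      Point.map (W' := W) (τ : AlgebraicClosure F →ₐ[F] AlgebraicClosure F)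
        (Point.some X Y hn) = Point.some X Y hn) :
    (∃ x : F, algebraMap F (AlgebraicClosure F) x = X) ∧
    (∃ y : F, algebraMap F (AlgebraicClosure F) y = Y) := by
  constructor
  · apply (InfiniteGalois.mem_range_algebraMap_iff_fixed X).2
    intro τ
    have := hfix τ
    rw [Point.map_some] at this
    simp only [Point.some.injEq] at this
    exact this.1
  · apply (InfiniteGalois.mem_range_algebraMap_iff_fixed Y).2
    intro τ
    have := hfix τ
    rw [Point.map_some] at this
    simp only [Point.some.injEq] at this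
    exact this.2

end fixed

end Pool.Agent.Work.MP_787500_nt
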