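import Mathlib
import Pool.Agent.Work.MP_787500_nt.H9_Descent

/-!
# Complete two-descent: the main lemma
-/

set_option autoImplicit false
set_option linter.unusedSectionVars false
set_option linter.unusedSimpArgs false

namespace Pool.Agent.Work.MP_787500_nt

open WeierstrassCurve WeierstrassCurve.Affine

section prelim

variable {F : Type*} [Field F] [DecidableEq F] [NeZero (2 : F)]
variable {W : WeierstrassCurve.Affine F} {e1 e2 e3 : F}

lemma inA_cases (h : TwoTors W e1 e2 e3) {T : W.Point} (hT : T + T = 0) :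
    (inA h T ∧ inA h.rot T ∧ inA h.rot.rot T) ∨
    (inA h T ∧ ¬ inA h.rot T ∧ ¬ inA h.rot.rot T) ∨
    (¬ inA h T ∧ inA h.rot T ∧ ¬ inA h.rot.rot T) ∨
    (¬ inA h T ∧ ¬ inA h.rot T ∧ inA h.rot.rot T) := by
  rcases two_torsion_cases h hT with rfl | rfl | rfl | rfl
  · exact Or.inl ⟨inA_zero h, inA_zero h.rot, inA_zero h.rot.rot⟩
  · exact Or.inr (Or.inl ⟨inA_tor h, not_inA_rot2 h.rot, not_inA_rot h.rot.rot⟩)
  · exact Or.inr (Or.inr (Or.inl ⟨not_inA_rot h, inA_tor h.rot, not_inA_rot2 h.rot.rot⟩))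
  · exact Or.inr (Or.inr (Or.inr ⟨not_inA_rot2 h, not_inA_rot h.rot, inA_tor h.rot.rot⟩))

end prelim

section gal

variable {K : Type*} [Field K] [CharZero K] {W : WeierstrassCurve.Affine K}

open scoped Classical in
lemma gact_mul (σ τ : AlgebraicClosure K ≃ₐ[K] AlgebraicClosure K)
    (P : (W⁄(AlgebraicClosure K)).Point) : gact W (σ * τ) P = gact W σ (gact W τ P) := by
  rw [gact, gact, gact, Point.map_map]
  rfl

open scoped Classical in
/-- the orbit map of a point is locally constant -/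
lemma isLocallyConstant_gact (P : (W⁄(AlgebraicClosure K)).Point) :
    IsLocallyConstant (fun σ => gact W σ P) := by
  rcases P with _ | ⟨x, y, hxy⟩
  · have : (fun σ => gact W σ (Point.zero : (W⁄(AlgebraicClosure K)).Point)) = fun _ => 0 := by
      funext σ
      rw [← Point.zero_def, map_zero]
    rw [this]
    exact IsLocallyConstant.const 0
  · rw [IsLocallyConstant.iff_exists_open]
    intro σ
    let E : IntermediateField K (AlgebraicClosure K) := IntermediateField.adjoin K {x, y}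
    have hfin : FiniteDimensional K E := by
      apply IntermediateField.finiteDimensional_adjoin
      intro z _
      exact (Algebra.IsAlgebraic.isAlgebraic z).isIntegral
    have hopen : IsOpen (E.fixingSubgroup : Set (AlgebraicClosure K ≃ₐ[K] AlgebraicClosure K)) :=
      IntermediateField.fixingSubgroup_isOpen E
    refine ⟨(fun τ => σ⁻¹ * τ) ⁻¹'
      (E.fixingSubgroup : Set (AlgebraicClosure K ≃ₐ[K] AlgebraicClosure K)),
      hopen.preimage (continuous_const_mul σ⁻¹), ?_, ?_⟩
    · simp [E.fixingSubgroup.one_mem]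
    · intro τ hτ
      have hτ' : σ⁻¹ * τ ∈ E.fixingSubgroup := hτ
      rw [IntermediateField.mem_fixingSubgroup_iff] at hτ'
      have hx : τ x = σ x := by
        have h1 := hτ' x (IntermediateField.subset_adjoin K _ (by simp))
        have h2 : σ ((σ⁻¹ * τ) x) = σ x := by rw [h1]
        rw [← AlgEquiv.mul_apply, ← mul_assoc, mul_inv_cancel, one_mul] at h2
        exact h2
      have hy : τ y = σ y := by
        have h1 := hτ' y (IntermediateField.subset_adjoin K _ (by simp))
        have h2 : σ ((σ⁻¹ * τ) y) = σ y := by rw [h1]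
        rw [← AlgEquiv.mul_apply, ← mul_assoc, mul_inv_cancel, one_mul] at h2
        exact h2
      simp only [gact]
      rw [Point.map_some, Point.map_some]
      simp only [Point.some.injEq]
      exact ⟨hx, hy⟩

open scoped Classical in
lemma gact_tor {e1 e2 e3 : K} (h : TwoTors W e1 e2 e3)
    (σ : AlgebraicClosure K ≃ₐ[K] AlgebraicClosure K) :
    gact W σ (tor (h.bc (AlgebraicClosure K))) = tor (h.bc (AlgebraicClosure K)) :=
  map_tor (S := K) (σ : AlgebraicClosure K →ₐ[K] AlgebraicClosure K) h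

open scoped Classical in
lemma map_of_two_torsion {S L M : Type*} [CommRing S] [Field L] [Field M] [Algebra K S]
    [Algebra K L] [Algebra K M] [Algebra S L] [Algebra S M] [IsScalarTower K S L]
    [IsScalarTower K S M] [NeZero (2 : L)] [NeZero (2 : M)]
    (f : L →ₐ[S] M) {e1 e2 e3 : K} (h : TwoTors W e1 e2 e3) {T : (W⁄L).Point}
    (hT : T + T = 0) :
    inA (h.bc M) (Point.map (W' := W) f T) ↔ inA (h.bc L) T := by
  constructor
  · rintro (hh | hh)
    · left
      exact Point.map_injective f (by rw [hh, Point.map_zero])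
    · right
      exact Point.map_injective f (by rw [hh, map_tor f h])
  · rintro (rfl | rfl)
    · left; rw [map_zero]
    · right; rw [map_tor f h]

open scoped Classical in
lemma gact_two_torsion {e1 e2 e3 : K} (h : TwoTors W e1 e2 e3)
    (σ : AlgebraicClosure K ≃ₐ[K] AlgebraicClosure K) {T : (W⁄(AlgebraicClosure K)).Point}
    (hT : T + T = 0) : gact W σ T = T := by
  rcases two_torsion_cases (h.bc (AlgebraicClosure K)) hT with rfl | rfl | rfl | rfl
  · rw [map_zero]
  · exact gact_tor h σ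
  · exact gact_tor h.rot σ
  · exact gact_tor h.rot.rot σ

open scoped Classical in
/-- one coordinate of the local computation -/
lemma local_component {F : Type*} [Field F] [CharZero F] [Algebra K F] {e1 e2 e3 : K}
    (h : TwoTors W e1 e2 e3) (ι : AlgebraicClosure K →ₐ[K] AlgebraicClosure F)
    {b : (AlgebraicClosure K ≃ₐ[K] AlgebraicClosure K) → (W⁄(AlgebraicClosure K)).Point}
    (hb2 : ∀ σ, b σ + b σ = 0)
    {P : (W⁄(AlgebraicClosure F)).Point}
    (hP : ∀ (τ : AlgebraicClosure F ≃ₐ[F] AlgebraicClosure F)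
      (σ : AlgebraicClosure K ≃ₐ[K] AlgebraicClosure K), (∀ x, τ (ι x) = ι (σ x)) →
      Point.map (W' := W) ι (b σ) =
        Point.map (W' := W) (τ : AlgebraicClosure F →ₐ[F] AlgebraicClosure F) P - P)
    {s : AlgebraicClosure K} (hs0 : s ≠ 0)
    (hs1 : ∀ σ, inA (h.bc (AlgebraicClosure K)) (b σ) → σ s = s)
    (hs2 : ∀ σ, ¬ inA (h.bc (AlgebraicClosure K)) (b σ) → σ s = -s) :
    (P + P ≠ 0 → ∃ z : F, algebraMap F (AlgebraicClosure F) z * ι s =
      rFun (algebraMap K (AlgebraicClosure F) e1) (algebraMap K (AlgebraicClosure F) e2)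
        (algebraMap K (AlgebraicClosure F) e3) P) ∧
    (P + P = 0 → ∃ z : F, algebraMap F (AlgebraicClosure F) z * ι s = 1) := by
  have hιs : ι s ≠ 0 := by
    rw [Ne, map_eq_zero]; exact hs0
  constructor
  · intro hPP
    set r := rFun (algebraMap K (AlgebraicClosure F) e1) (algebraMap K (AlgebraicClosure F) e2)
        (algebraMap K (AlgebraicClosure F) e3) P with hr
    have hfix : ∀ τ : AlgebraicClosure F ≃ₐ[F] AlgebraicClosure F, τ (r / ι s) = r / ι s := by
      intro τ
      obtain ⟨σ, hσ⟩ := exists_restrict ι τ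
      have h1 := hP τ σ hσ
      have h2 : Point.map (W' := W) (τ : AlgebraicClosure F →ₐ[F] AlgebraicClosure F) P =
          P + Point.map (W' := W) ι (b σ) := by rw [h1]; abel
      have h3 := map_rFun (K := K) (W := W) (e1 := e1) (e2 := e2) (e3 := e3)
        (τ : AlgebraicClosure F →ₐ[F] AlgebraicClosure F) P
      rw [h2] at h3
      have hmT : Point.map (W' := W) ι (b σ) + Point.map (W' := W) ι (b σ) = 0 := by
        rw [← map_add, hb2, map_zero]
      have h4 : τ r = rFun (algebraMap K (AlgebraicClosure F) e1)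
          (algebraMap K (AlgebraicClosure F) e2) (algebraMap K (AlgebraicClosure F) e3)
          (P + Point.map (W' := W) ι (b σ)) := h3.symm
      rw [map_div₀, hσ]
      by_cases hA : inA (h.bc (AlgebraicClosure K)) (b σ)
      · have hA' := (map_of_two_torsion (K := K) (W := W) ι h (hb2 σ)).2 hA
        rw [h4, rFun_add_of_inA (h.bc (AlgebraicClosure F)) hPP hA', hs1 σ hA]
      · have hA' : ¬ inA (h.bc (AlgebraicClosure F)) (Point.map (W' := W) ι (b σ)) :=
          fun hh => hA ((map_of_two_torsion (K := K) (W := W) ι h (hb2 σ)).1 hh)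
        rw [h4, rFun_add_of_not_inA (h.bc (AlgebraicClosure F)) hPP hmT hA', hs2 σ hA, map_neg,
          neg_div_neg_eq]
    obtain ⟨z, hz⟩ := (InfiniteGalois.mem_range_algebraMap_iff_fixed _).2 hfix
    exact ⟨z, by rw [hz, div_mul_cancel₀ _ hιs]⟩
  · intro hPP
    have hfix : ∀ τ : AlgebraicClosure F ≃ₐ[F] AlgebraicClosure F, τ ((ι s)⁻¹) = (ι s)⁻¹ := by
      intro τ
      obtain ⟨σ, hσ⟩ := exists_restrict ι τ
      have h1 := hP τ σ hσ
      have h2 : Point.map (W' := W) (τ : AlgebraicClosure F →ₐ[F] AlgebraicClosure F) P = P := by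
        rcases two_torsion_cases (h.bc (AlgebraicClosure F)) hPP with rfl | rfl | rfl | rfl
        · rw [map_zero]
        · exact map_tor _ h
        · exact map_tor _ h.rot
        · exact map_tor _ h.rot.rot
      rw [h2, sub_self] at h1
      have h3 : b σ = 0 := Point.map_injective ι (by rw [h1, map_zero])
      rw [map_inv₀, hσ, hs1 σ (Or.inl h3)]
    obtain ⟨z, hz⟩ := (InfiniteGalois.mem_range_algebraMap_iff_fixed _).2 hfix
    exact ⟨z, by rw [hz, inv_mul_cancel₀ hιs]⟩

open scoped Classical in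
/-- Kummer data of a homomorphism `b` from the Galois group to the two-torsion: square roots
`s_i` of `d_i` on which the Galois group acts through the `i`-th component of `b`. -/
structure KData {e1 e2 e3 : K} (h : TwoTors W e1 e2 e3)
    (b : (AlgebraicClosure K ≃ₐ[K] AlgebraicClosure K) → (W⁄(AlgebraicClosure K)).Point)
    (d1 d2 d3 : K) (s1 s2 s3 : AlgebraicClosure K) : Prop where
  two : ∀ σ, b σ + b σ = 0
  ne1 : s1 ≠ 0
  ne2 : s2 ≠ 0
  ne3 : s3 ≠ 0
  sq1 : algebraMap K (AlgebraicClosure K) d1 = s1 ^ 2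
  sq2 : algebraMap K (AlgebraicClosure K) d2 = s2 ^ 2
  sq3 : algebraMap K (AlgebraicClosure K) d3 = s3 ^ 2
  pos1 : ∀ σ, inA (h.bc (AlgebraicClosure K)) (b σ) → σ s1 = s1
  pos2 : ∀ σ, inA (h.rot.bc (AlgebraicClosure K)) (b σ) → σ s2 = s2
  pos3 : ∀ σ, inA (h.rot.rot.bc (AlgebraicClosure K)) (b σ) → σ s3 = s3
  neg1 : ∀ σ, ¬ inA (h.bc (AlgebraicClosure K)) (b σ) → σ s1 = - s1
  neg2 : ∀ σ, ¬ inA (h.rot.bc (AlgebraicClosure K)) (b σ) → σ s2 = - s2
  neg3 : ∀ σ, ¬ inA (h.rot.rot.bc (AlgebraicClosure K)) (b σ) → σ s3 = - s3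
  prod : ∃ t : K, algebraMap K (AlgebraicClosure K) t = s1 * s2 * s3

open scoped Classical in
theorem exists_kdata {e1 e2 e3 : K} (h : TwoTors W e1 e2 e3)
    {b : (AlgebraicClosure K ≃ₐ[K] AlgebraicClosure K) → (W⁄(AlgebraicClosure K)).Point}
    (hb2 : ∀ σ, b σ + b σ = 0) (hbmul : ∀ σ τ, b (σ * τ) = b σ + b τ)
    (hbloc : IsLocallyConstant b) :
    ∃ (d1 d2 d3 : K) (s1 s2 s3 : AlgebraicClosure K), KData h b d1 d2 d3 s1 s2 s3 := by
  set hb := h.bc (AlgebraicClosure K) with hbdef
  have hsq : ∀ {f1 f2 f3 : K} (g : TwoTors W f1 f2 f3),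
      ∃ s : AlgebraicClosure K, s ≠ 0 ∧
        (∀ σ : AlgebraicClosure K ≃ₐ[K] AlgebraicClosure K,
          inA (g.bc (AlgebraicClosure K)) (b σ) → σ s = s) ∧
        (∀ σ : AlgebraicClosure K ≃ₐ[K] AlgebraicClosure K,
          ¬ inA (g.bc (AlgebraicClosure K)) (b σ) → σ s = - s) := by
    intro f1 f2 f3 g
    apply exists_sqrt_of_char (fun σ => inA (g.bc (AlgebraicClosure K)) (b σ))
    · intro σ τ
      rw [hbmul]
      exact inA_add_iff _ (hb2 σ) (hb2 τ)
    · exact hbloc {T | inA (g.bc (AlgebraicClosure K)) T}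
  obtain ⟨s1, hs10, hs1a, hs1b⟩ := hsq h
  obtain ⟨s2, hs20, hs2a, hs2b⟩ := hsq h.rot
  obtain ⟨s3, hs30, hs3a, hs3b⟩ := hsq h.rot.rot
  -- the product is rational
  have hprod : ∀ σ : AlgebraicClosure K ≃ₐ[K] AlgebraicClosure K,
      σ (s1 * s2 * s3) = s1 * s2 * s3 := by
    intro σ
    rw [map_mul, map_mul]
    rcases inA_cases hb (hb2 σ) with ⟨g1, g2, g3⟩ | ⟨g1, g2, g3⟩ | ⟨g1, g2, g3⟩ | ⟨g1, g2, g3⟩
    · rw [hs1a σ g1, hs2a σ g2, hs3a σ g3]
    · rw [hs1a σ g1, hs2b σ g2, hs3b σ g3]; ring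
    · rw [hs1b σ g1, hs2a σ g2, hs3b σ g3]; ring
    · rw [hs1b σ g1, hs2b σ g2, hs3a σ g3]; ring
  obtain ⟨t, ht⟩ := (InfiniteGalois.mem_range_algebraMap_iff_fixed _).2 hprod
  have hsquare : ∀ {s : AlgebraicClosure K} {f1 f2 f3 : K} (g : TwoTors W f1 f2 f3),
      (∀ σ : AlgebraicClosure K ≃ₐ[K] AlgebraicClosure K,
        inA (g.bc (AlgebraicClosure K)) (b σ) → σ s = s) →
      (∀ σ : AlgebraicClosure K ≃ₐ[K] AlgebraicClosure K,
        ¬ inA (g.bc (AlgebraicClosure K)) (b σ) → σ s = - s) →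
      ∃ d : K, algebraMap K (AlgebraicClosure K) d = s ^ 2 := by
    intro s f1 f2 f3 g ha hb'
    apply (InfiniteGalois.mem_range_algebraMap_iff_fixed _).2
    intro σ
    rw [map_pow]
    by_cases hA : inA (g.bc (AlgebraicClosure K)) (b σ)
    · rw [ha σ hA]
    · rw [hb' σ hA, neg_sq]
  obtain ⟨d1, hd1⟩ := hsquare h hs1a hs1b
  obtain ⟨d2, hd2⟩ := hsquare h.rot hs2a hs2b
  obtain ⟨d3, hd3⟩ := hsquare h.rot.rot hs3a hs3b
  exact ⟨d1, d2, d3, s1, s2, s3, hb2, hs10, hs20, hs30, hd1, hd2, hd3, hs1a, hs2a, hs3a,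
    hs1b, hs2b, hs3b, ⟨t, ht⟩⟩

namespace KData

variable {e1 e2 e3 : K} {h : TwoTors W e1 e2 e3}
  {b : (AlgebraicClosure K ≃ₐ[K] AlgebraicClosure K) → (W⁄(AlgebraicClosure K)).Point}
  {d1 d2 d3 : K} {s1 s2 s3 : AlgebraicClosure K}

omit [CharZero K] in
private lemma ne_aux {s : AlgebraicClosure K} {d : K} (hs : s ≠ 0)
    (hd : algebraMap K (AlgebraicClosure K) d = s ^ 2) : d ≠ 0 := by
  intro h0
  rw [h0, map_zero] at hd
  exact pow_ne_zero 2 hs hd.symm

lemma d1_ne (D : KData h b d1 d2 d3 s1 s2 s3) : d1 ≠ 0 := ne_aux D.ne1 D.sq1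
lemma d2_ne (D : KData h b d1 d2 d3 s1 s2 s3) : d2 ≠ 0 := ne_aux D.ne2 D.sq2
lemma d3_ne (D : KData h b d1 d2 d3 s1 s2 s3) : d3 ≠ 0 := ne_aux D.ne3 D.sq3

lemma isSquare (D : KData h b d1 d2 d3 s1 s2 s3) : IsSquare (d1 * d2 * d3) := by
  obtain ⟨t, ht⟩ := D.prod
  refine ⟨t, ?_⟩
  apply (algebraMap K (AlgebraicClosure K)).injective
  rw [map_mul, map_mul, map_mul, D.sq1, D.sq2, D.sq3, ht]
  ring

open scoped Classical in
theorem homSol (D : KData h b d1 d2 d3 s1 s2 s3) {F : Type*} [Field F] [Algebra K F]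
    (hloc : LocTriv W F b) : HomSol e1 e2 e3 d1 d2 d3 F := by
  have : CharZero F := charZero_of_injective_algebraMap (algebraMap K F).injective
  obtain ⟨ι, P', hP'2⟩ := hloc
  have c1 := local_component h ι D.two hP'2 D.ne1 D.pos1 D.neg1
  have c2 := local_component h.rot ι D.two hP'2 D.ne2 D.pos2 D.neg2
  have c3 := local_component h.rot.rot ι D.two hP'2 D.ne3 D.pos3 D.neg3
  have hinj : Function.Injective (algebraMap F (AlgebraicClosure F)) :=
    (algebraMap F (AlgebraicClosure F)).injective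
  have hιd : ∀ {s : AlgebraicClosure K} {d : K}, algebraMap K (AlgebraicClosure K) d = s ^ 2 →
      algebraMap F (AlgebraicClosure F) (algebraMap K F d) = (ι s) ^ 2 := by
    intro s d hd
    rw [← IsScalarTower.algebraMap_apply K F (AlgebraicClosure F), ← map_pow, ← hd,
      AlgHom.commutes]
  by_cases hPP : P' + P' = 0
  · obtain ⟨z1, hz1⟩ := c1.2 hPP
    obtain ⟨z2, hz2⟩ := c2.2 hPP
    obtain ⟨z3, hz3⟩ := c3.2 hPP
    refine ⟨1, 0, z1, z2, z3, Or.inr one_ne_zero, ?_, ?_, ?_⟩ <;>
    apply hinj <;>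
    simp only [map_mul, map_pow, map_sub, map_one, map_zero]
    · rw [hιd D.sq1]; linear_combination (algebraMap F (AlgebraicClosure F) z1 * ι s1 + 1) * hz1
    · rw [hιd D.sq2]; linear_combination (algebraMap F (AlgebraicClosure F) z2 * ι s2 + 1) * hz2
    · rw [hιd D.sq3]; linear_combination (algebraMap F (AlgebraicClosure F) z3 * ι s3 + 1) * hz3
  · obtain ⟨z1, hz1⟩ := c1.1 hPP
    obtain ⟨z2, hz2⟩ := c2.1 hPP
    obtain ⟨z3, hz3⟩ := c3.1 hPP
    rcases hQ : P' + P' with _ | ⟨X, Y, hXY⟩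
    · exact absurd hQ hPP
    · have hfix : ∀ τ : AlgebraicClosure F ≃ₐ[F] AlgebraicClosure F,
          Point.map (W' := W) (τ : AlgebraicClosure F →ₐ[F] AlgebraicClosure F)
            (Point.some X Y hXY) = Point.some X Y hXY := by
        intro τ
        obtain ⟨σ, hσ⟩ := exists_restrict ι τ
        have h1 := hP'2 τ σ hσ
        have h3 : Point.map (W' := W) (τ : AlgebraicClosure F →ₐ[F] AlgebraicClosure F) P' =
          P' + Point.map (W' := W) ι (b σ) := by rw [h1]; abel
        rw [← hQ, map_add, h3, add_add_add_comm, ← map_add, D.two, map_zero, add_zero]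
      obtain ⟨⟨x, hx⟩, -⟩ := exists_of_fixed hfix
      have k1 := rFun_sq (h.bc (AlgebraicClosure F)) hQ
      have k2 := rFun_sq (h.rot.bc (AlgebraicClosure F)) hQ
      have k3 := rFun_sq (h.rot.rot.bc (AlgebraicClosure F)) hQ
      rw [← hz1] at k1
      rw [← hz2] at k2
      rw [← hz3] at k3
      refine ⟨x, 1, z1, z2, z3, Or.inl one_ne_zero, ?_, ?_, ?_⟩ <;>
      apply hinj <;>
      simp only [map_mul, map_pow, map_sub, map_one, one_pow, mul_one]
      · rw [hιd D.sq1, hx, ← IsScalarTower.algebraMap_apply K F (AlgebraicClosure F), ← k1]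
        ring
      · rw [hιd D.sq2, hx, ← IsScalarTower.algebraMap_apply K F (AlgebraicClosure F), ← k2]
        ring
      · rw [hιd D.sq3, hx, ← IsScalarTower.algebraMap_apply K F (AlgebraicClosure F), ← k3]
        ring

open scoped Classical in
theorem cobdry (D : KData h b d1 d2 d3 s1 s2 s3) (hs : HomSol e1 e2 e3 d1 d2 d3 K) :
    IsCobdry W b := by
  obtain ⟨t, ht⟩ := D.prod
  have hb2 := D.two
  set hb := h.bc (AlgebraicClosure K) with hbdef
  have hdt : d1 * d2 * d3 = t * t := by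
    apply (algebraMap K (AlgebraicClosure K)).injective
    rw [map_mul, map_mul, map_mul, D.sq1, D.sq2, D.sq3, ht]
    ring
  have hself : ∀ {s : AlgebraicClosure K}, s = - s → s = 0 := by
    intro s hs
    have h7 : (2 : AlgebraicClosure K) * s = 0 := by linear_combination hs
    exact (mul_eq_zero.1 h7).resolve_left two_ne_zero
  obtain ⟨X, w, z1, z2, z3, h0, g1, g2, g3⟩ := hs
  simp only [Algebra.algebraMap_self, RingHom.id_apply] at g1 g2 g3
  by_cases hw : w = 0
  · subst hw
    have hX : X ≠ 0 := h0.resolve_left (fun hh => hh rfl)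
    have hz : ∀ {d e z : K}, d * z ^ 2 = X - e * 0 ^ 2 → z ≠ 0 := by
      rintro d e z hh rfl
      apply hX
      linear_combination -hh
    have hz1 := hz g1
    have hz2 := hz g2
    have hz3 := hz g3
    have hu : (t * z1 * z2 * z3 / X) ^ 2 = X := by
      rw [div_pow, div_eq_iff (pow_ne_zero 2 hX)]
      have h4 : X * X ^ 2 = (d1 * z1 ^ 2) * (d2 * z2 ^ 2) * (d3 * z3 ^ 2) := by
        rw [g1, g2, g3]; ring
      rw [h4]
      linear_combination (-(z1 * z2 * z3) ^ 2) * hdt
    have hfixs : ∀ {s : AlgebraicClosure K} {d e z : K}, z ≠ 0 →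
        algebraMap K (AlgebraicClosure K) d = s ^ 2 → d * z ^ 2 = X - e * 0 ^ 2 →
        ∀ σ : AlgebraicClosure K ≃ₐ[K] AlgebraicClosure K, σ s = s := by
      intro s d e z hz hd hh σ
      have h5 : s ^ 2 = (algebraMap K (AlgebraicClosure K) (t * z1 * z2 * z3 / X / z)) ^ 2 := by
        rw [← hd, ← map_pow]
        congr 1
        rw [div_pow, hu, eq_div_iff (pow_ne_zero 2 hz)]
        linear_combination hh
      rcases sq_eq_sq_iff_eq_or_eq_neg.1 h5 with h6 | h6
      · rw [h6, AlgEquiv.commutes]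
      · rw [h6, map_neg, AlgEquiv.commutes]
    have hf1 := hfixs hz1 D.sq1 g1
    have hf2 := hfixs hz2 D.sq2 g2
    refine ⟨0, fun σ => ?_⟩
    rw [map_zero, sub_zero]
    rcases inA_cases hb (hb2 σ) with ⟨k1, k2, k3⟩ | ⟨k1, k2, k3⟩ | ⟨k1, k2, k3⟩ |
      ⟨k1, k2, k3⟩
    · exact inA_eq hb (hb2 σ) (add_zero 0) (iff_of_true k1 (inA_zero _))
        (iff_of_true k2 (inA_zero _))
    · exact absurd (hself ((hf2 σ).symm.trans (D.neg2 σ k2))) D.ne2
    · exact absurd (hself ((hf1 σ).symm.trans (D.neg1 σ k1))) D.ne1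
    · exact absurd (hself ((hf1 σ).symm.trans (D.neg1 σ k1))) D.ne1
  · have hz : ∀ {d e z : K}, d * z ^ 2 = X - e * w ^ 2 →
        d * (z / w) ^ 2 = X / w ^ 2 - e := by
      intro d e z hh
      field_simp
      linear_combination hh
    have k1 := hz g1
    have k2 := hz g2
    have k3 := hz g3
    set x := X / w ^ 2 with hx
    set v1 := z1 / w with hv1
    set v2 := z2 / w with hv2
    set v3 := z3 / w with hv3
    have hr : ∀ {s : AlgebraicClosure K} {d e v : K},
        algebraMap K (AlgebraicClosure K) d = s ^ 2 → d * v ^ 2 = x - e →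
        (s * algebraMap K (AlgebraicClosure K) v) ^ 2 =
          algebraMap K (AlgebraicClosure K) x - algebraMap K (AlgebraicClosure K) e := by
      intro s d e v hd hh
      rw [mul_pow, ← hd, ← map_pow, ← map_mul, ← map_sub, hh]
    have q1 := hr D.sq1 k1
    have q2 := hr D.sq2 k2
    have q3 := hr D.sq3 k3
    have hy : algebraMap K (AlgebraicClosure K) (t * v1 * v2 * v3) =
        (s1 * algebraMap K (AlgebraicClosure K) v1) *
        (s2 * algebraMap K (AlgebraicClosure K) v2) *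
        (s3 * algebraMap K (AlgebraicClosure K) v3) := by
      rw [map_mul, map_mul, map_mul, ht]; ring
    have hns : (W⁄(AlgebraicClosure K)).Nonsingular (algebraMap K (AlgebraicClosure K) x)
        (algebraMap K (AlgebraicClosure K) (t * v1 * v2 * v3)) := by
      apply hb.nonsingular_of_eq
      rw [hy, ← q1, ← q2, ← q3]
      ring
    have hdbl := halfPt_add_self hb q1 q2 q3 hns hy
    have hr1 := rFun_halfPt hb q1 q2 q3
    have hr2 := rFun_halfPt hb.rot q2 q3 q1
    have hr3 := rFun_halfPt hb.rot.rot q3 q1 q2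
    have hP2 : halfPt hb.rot q2 q3 q1 = halfPt hb q1 q2 q3 := by
      rw [halfPt, halfPt]
      simp only [Point.some.injEq]
      constructor <;> ring
    have hP3 : halfPt hb.rot.rot q3 q1 q2 = halfPt hb q1 q2 q3 := by
      rw [halfPt, halfPt]
      simp only [Point.some.injEq]
      constructor <;> ring
    rw [hP2] at hr2
    rw [hP3] at hr3
    set P' := halfPt hb q1 q2 q3 with hP'
    have hPP : P' + P' ≠ 0 := by
      rw [hdbl]; exact Point.some_ne_zero _
    refine ⟨P', fun σ => ?_⟩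
    set T := gact W σ P' - P' with hT
    have hT2 : T + T = 0 := by
      have h5 : gact W σ (P' + P') = P' + P' := by
        rw [hdbl, gact, Point.map_some]
        simp only [Point.some.injEq]
        exact ⟨AlgEquiv.commutes σ _, AlgEquiv.commutes σ _⟩
      have h6 : T + T = gact W σ (P' + P') - (P' + P') := by
        rw [hT, map_add]; abel
      rw [h6, h5, sub_self]
    have hgP : gact W σ P' = P' + T := by rw [hT]; abel
    have hiff : ∀ {s : AlgebraicClosure K} {f1 f2 f3 v : K} (g : TwoTors W f1 f2 f3),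
        (∀ σ : AlgebraicClosure K ≃ₐ[K] AlgebraicClosure K,
          inA (g.bc (AlgebraicClosure K)) (b σ) → σ s = s) →
        (∀ σ : AlgebraicClosure K ≃ₐ[K] AlgebraicClosure K,
          ¬ inA (g.bc (AlgebraicClosure K)) (b σ) → σ s = - s) →
        rFun (algebraMap K (AlgebraicClosure K) f1) (algebraMap K (AlgebraicClosure K) f2)
          (algebraMap K (AlgebraicClosure K) f3) P' =
            s * algebraMap K (AlgebraicClosure K) v →
        s * algebraMap K (AlgebraicClosure K) v ≠ 0 →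
        (inA (g.bc (AlgebraicClosure K)) T ↔ inA (g.bc (AlgebraicClosure K)) (b σ)) := by
      intro s f1 f2 f3 v g ha hb' hrf hne0
      have h8 := map_rFun (K := K) (W := W) (e1 := f1) (e2 := f2) (e3 := f3)
        (σ : AlgebraicClosure K →ₐ[K] AlgebraicClosure K) P'
      have h9 : rFun (algebraMap K (AlgebraicClosure K) f1)
          (algebraMap K (AlgebraicClosure K) f2)
          (algebraMap K (AlgebraicClosure K) f3) (P' + T) =
            σ (s * algebraMap K (AlgebraicClosure K) v) := by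
        rw [← hgP, ← hrf]; exact h8
      rw [map_mul, AlgEquiv.commutes] at h9
      by_cases hA : inA (g.bc (AlgebraicClosure K)) (b σ)
      · by_cases hA' : inA (g.bc (AlgebraicClosure K)) T
        · exact iff_of_true hA' hA
        · exfalso
          rw [rFun_add_of_not_inA _ hPP hT2 hA', ha σ hA, hrf] at h9
          exact hne0 (hself h9.symm)
      · by_cases hA' : inA (g.bc (AlgebraicClosure K)) T
        · exfalso
          rw [rFun_add_of_inA _ hPP hA', hb' σ hA, hrf, neg_mul] at h9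
          exact hne0 (hself h9)
        · exact iff_of_false hA' hA
    have i1 := hiff h D.pos1 D.neg1 hr1
    have i2 := hiff h.rot D.pos2 D.neg2 hr2
    have i3 := hiff h.rot.rot D.pos3 D.neg3 hr3
    symm
    by_cases z1' : s1 * algebraMap K (AlgebraicClosure K) v1 = 0
    · have z2' : s2 * algebraMap K (AlgebraicClosure K) v2 ≠ 0 := by
        intro hh
        rw [z1'] at q1
        rw [hh] at q2
        exact hb.h12 (by linear_combination q1 - q2)
      have z3' : s3 * algebraMap K (AlgebraicClosure K) v3 ≠ 0 := by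
        intro hh
        rw [z1'] at q1
        rw [hh] at q3
        exact hb.h31 (by linear_combination q3 - q1)
      exact inA_eq hb.rot hT2 (hb2 σ) (i2 z2') (i3 z3')
    · by_cases z2' : s2 * algebraMap K (AlgebraicClosure K) v2 = 0
      · have z3' : s3 * algebraMap K (AlgebraicClosure K) v3 ≠ 0 := by
          intro hh
          rw [z2'] at q2
          rw [hh] at q3
          exact hb.h23 (by linear_combination q2 - q3)
        exact inA_eq hb.rot.rot hT2 (hb2 σ) (i3 z3') (i1 z1')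
      · exact inA_eq hb hT2 (hb2 σ) (i1 z1') (i2 z2')

/-- the square classes determine `b` -/
theorem inj (D : KData h b d1 d2 d3 s1 s2 s3)
    {b' : (AlgebraicClosure K ≃ₐ[K] AlgebraicClosure K) → (W⁄(AlgebraicClosure K)).Point}
    {d1' d2' d3' : K} {s1' s2' s3' : AlgebraicClosure K}
    (D' : KData h b' d1' d2' d3' s1' s2' s3') (h1 : IsSquare (d1 * d1'))
    (h2 : IsSquare (d2 * d2')) : b = b' := by
  classical
  have hself : ∀ {s : AlgebraicClosure K}, s = - s → s = 0 := by
    intro s hs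
    have h7 : (2 : AlgebraicClosure K) * s = 0 := by linear_combination hs
    exact (mul_eq_zero.1 h7).resolve_left two_ne_zero
  have key : ∀ {f1 f2 f3 d d' : K} {s s' : AlgebraicClosure K} (g : TwoTors W f1 f2 f3),
      s ≠ 0 → s' ≠ 0 → algebraMap K (AlgebraicClosure K) d = s ^ 2 →
      algebraMap K (AlgebraicClosure K) d' = s' ^ 2 → IsSquare (d * d') →
      (∀ σ : AlgebraicClosure K ≃ₐ[K] AlgebraicClosure K,
          inA (g.bc (AlgebraicClosure K)) (b σ) → σ s = s) →
      (∀ σ : AlgebraicClosure K ≃ₐ[K] AlgebraicClosure K,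
          ¬ inA (g.bc (AlgebraicClosure K)) (b σ) → σ s = - s) →
      (∀ σ : AlgebraicClosure K ≃ₐ[K] AlgebraicClosure K,
          inA (g.bc (AlgebraicClosure K)) (b' σ) → σ s' = s') →
      (∀ σ : AlgebraicClosure K ≃ₐ[K] AlgebraicClosure K,
          ¬ inA (g.bc (AlgebraicClosure K)) (b' σ) → σ s' = - s') →
      ∀ σ : AlgebraicClosure K ≃ₐ[K] AlgebraicClosure K,
        (inA (g.bc (AlgebraicClosure K)) (b σ) ↔ inA (g.bc (AlgebraicClosure K)) (b' σ)) := by
    intro f1 f2 f3 d d' s s' g hs hs' hd hd' hsq p n p' n' σ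
    obtain ⟨u, hu⟩ := hsq
    have h5 : (s * s') ^ 2 = (algebraMap K (AlgebraicClosure K) u) ^ 2 := by
      rw [mul_pow, ← hd, ← hd', ← map_mul, hu, map_mul, sq]
    have hfix : σ (s * s') = s * s' := by
      rcases sq_eq_sq_iff_eq_or_eq_neg.1 h5 with h6 | h6
      · rw [h6, AlgEquiv.commutes]
      · rw [h6, map_neg, AlgEquiv.commutes]
    rw [map_mul] at hfix
    have hss : s * s' ≠ 0 := mul_ne_zero hs hs'
    by_cases hA : inA (g.bc (AlgebraicClosure K)) (b σ)
    · by_cases hA' : inA (g.bc (AlgebraicClosure K)) (b' σ)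
      · exact iff_of_true hA hA'
      · exfalso
        rw [p σ hA, n' σ hA', mul_neg] at hfix
        exact hss (hself hfix.symm)
    · by_cases hA' : inA (g.bc (AlgebraicClosure K)) (b' σ)
      · exfalso
        rw [n σ hA, p' σ hA', neg_mul] at hfix
        exact hss (hself hfix.symm)
      · exact iff_of_false hA hA'
  funext σ
  exact inA_eq (h.bc (AlgebraicClosure K)) (D.two σ) (D'.two σ)
    (key h D.ne1 D'.ne1 D.sq1 D'.sq1 h1 D.pos1 D.neg1 D'.pos1 D'.neg1 σ)
    (key h.rot D.ne2 D'.ne2 D.sq2 D'.sq2 h2 D.pos2 D.neg2 D'.pos2 D'.neg2 σ)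

end KData

open scoped Classical in
/-- the Kummer cocycle of a half `Q` of a rational point -/
theorem kummer_hom {e1 e2 e3 : K} (h : TwoTors W e1 e2 e3) {Q : (W⁄(AlgebraicClosure K)).Point}
    (hQ : ∀ σ, gact W σ (Q + Q) = Q + Q) :
    (∀ σ, (gact W σ Q - Q) + (gact W σ Q - Q) = 0) ∧
    (∀ σ τ, gact W (σ * τ) Q - Q = (gact W σ Q - Q) + (gact W τ Q - Q)) ∧
    IsLocallyConstant (fun σ => gact W σ Q - Q) ∧
    LocTriv W K (fun σ => gact W σ Q - Q) := by
  have h2 : ∀ σ, (gact W σ Q - Q) + (gact W σ Q - Q) = 0 := by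
    intro σ
    have h6 : (gact W σ Q - Q) + (gact W σ Q - Q) = gact W σ (Q + Q) - (Q + Q) := by
      rw [map_add]; abel
    rw [h6, hQ σ, sub_self]
  refine ⟨h2, ?_, ?_, ?_⟩
  · intro σ τ
    have h3 := gact_two_torsion h σ (h2 τ)
    rw [map_sub, ← gact_mul] at h3
    have h4 : gact W (σ * τ) Q = gact W σ Q + (gact W τ Q - Q) := by
      rw [← h3]; abel
    rw [h4]; abel
  · exact (isLocallyConstant_gact Q).sub (IsLocallyConstant.const Q)
  · refine ⟨AlgHom.id K _, Q, fun τ σ hτσ => ?_⟩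
    have h5 : τ = σ := AlgEquiv.ext hτσ
    subst h5
    have h6 : Point.map (W' := W) (AlgHom.id K (AlgebraicClosure K)) (gact W τ Q - Q) =
        gact W τ Q - Q := Point.map_id _
    rw [h6]
    rfl

open scoped Classical in
lemma LocTriv.sub_cobdry {F : Type*} [Field F] [Algebra K F]
    {c : (AlgebraicClosure K ≃ₐ[K] AlgebraicClosure K) → (W⁄(AlgebraicClosure K)).Point}
    (hc : LocTriv W F c) (N : (W⁄(AlgebraicClosure K)).Point) :
    LocTriv W F (fun σ => c σ - (gact W σ N - N)) := by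
  obtain ⟨ι, P, hP⟩ := hc
  refine ⟨ι, P - Point.map (W' := W) ι N, fun τ σ hστ => ?_⟩
  have h1 := hP τ σ hστ
  have h3 : Point.map (W' := W) (τ : AlgebraicClosure F →ₐ[F] AlgebraicClosure F)
      (Point.map (W' := W) ι N) = Point.map (W' := W) ι (gact W σ N) := by
    rcases N with _ | ⟨x, y, hxy⟩
    · rfl
    · rw [gact, Point.map_some, Point.map_some, Point.map_some, Point.map_some]
      simp only [Point.some.injEq]
      exact ⟨hστ x, hστ y⟩
  rw [map_sub, map_sub, map_sub, h1, h3]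
  abel

open scoped Classical in
/-- **Main lemma of the complete two-descent.** -/
theorem kummer_data.{v} {e1 e2 e3 : K} (h : TwoTors W e1 e2 e3)
    {c : (AlgebraicClosure K ≃ₐ[K] AlgebraicClosure K) → (W⁄(AlgebraicClosure K)).Point}
    (hc : IsCocycle W c) (h2 : IsCobdry W (fun σ => c σ + c σ)) :
    ∃ d1 d2 d3 : K, d1 ≠ 0 ∧ d2 ≠ 0 ∧ d3 ≠ 0 ∧ IsSquare (d1 * d2 * d3) ∧
      (∀ (F : Type v) [Field F] [Algebra K F], LocTriv W F c → HomSol e1 e2 e3 d1 d2 d3 F) ∧
      (HomSol e1 e2 e3 d1 d2 d3 K → IsCobdry W c) := by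
  obtain ⟨M, hM⟩ := h2
  obtain ⟨N, hN⟩ := exists_half (h.bc (AlgebraicClosure K)) M
  set b : (AlgebraicClosure K ≃ₐ[K] AlgebraicClosure K) → (W⁄(AlgebraicClosure K)).Point :=
    fun σ => c σ - (gact W σ N - N) with hbd
  have hb2 : ∀ σ, b σ + b σ = 0 := by
    intro σ
    have h1 := hM σ
    rw [← hN, map_add] at h1
    have h1' : c σ + c σ = gact W σ N + gact W σ N - (N + N) := h1
    simp only [hbd]
    have : c σ - (gact W σ N - N) + (c σ - (gact W σ N - N)) =
      (c σ + c σ) - (gact W σ N + gact W σ N - (N + N)) := by abel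
    rw [this, h1', sub_self]
  have hbmul : ∀ σ τ, b (σ * τ) = b σ + b τ := by
    intro σ τ
    have h1 : b (σ * τ) = b σ + gact W σ (b τ) := by
      simp only [hbd, hc.mul, gact_mul, map_sub]
      abel
    rw [h1, gact_two_torsion h σ (hb2 τ)]
  have hbloc : IsLocallyConstant b := by
    have h1 := hc.cont
    have h3 := isLocallyConstant_gact (K := K) (W := W) N
    exact h1.sub (h3.sub (IsLocallyConstant.const N))
  obtain ⟨d1, d2, d3, s1, s2, s3, D⟩ := exists_kdata h hb2 hbmul hbloc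
  refine ⟨d1, d2, d3, D.d1_ne, D.d2_ne, D.d3_ne, D.isSquare, ?_, ?_⟩
  · intro F _ _ hloc
    exact D.homSol (hloc.sub_cobdry N)
  · intro hs
    obtain ⟨P, hP⟩ := D.cobdry hs
    refine ⟨P + N, fun σ => ?_⟩
    have h10 : c σ = b σ + (gact W σ N - N) := by
      simp only [hbd]; abel
    rw [h10, hP, map_add]
    abel

open scoped Classical in
lemma IsCocycle.nsmul {c : (AlgebraicClosure K ≃ₐ[K] AlgebraicClosure K) →
    (W⁄(AlgebraicClosure K)).Point} (hc : IsCocycle W c) (n : ℕ) :
    IsCocycle W (fun σ => n • c σ) where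
  cont := hc.cont.comp (fun P => n • P)
  mul σ τ := by
    show n • c (σ * τ) = n • c σ + gact W σ (n • c τ)
    rw [hc.mul, nsmul_add, map_nsmul]

open scoped Classical in
lemma LocTriv.nsmul {F : Type*} [Field F] [Algebra K F]
    {c : (AlgebraicClosure K ≃ₐ[K] AlgebraicClosure K) →
    (W⁄(AlgebraicClosure K)).Point} (hc : LocTriv W F c) (n : ℕ) :
    LocTriv W F (fun σ => n • c σ) := by
  obtain ⟨ι, P, hP⟩ := hc
  refine ⟨ι, n • P, fun τ σ h => ?_⟩
  have h1 := hP τ σ h
  rw [map_nsmul, h1, map_nsmul, nsmul_sub]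

open scoped Classical in
/-- If a family of local conditions `Loc` is stable under multiples and a locally trivial cocycle
whose double is a coboundary is a coboundary, then a locally trivial cocycle with some
`2 ^ k`-multiple a coboundary is a coboundary. -/
theorem cobdry_of_two_pow
    (Loc : ((AlgebraicClosure K ≃ₐ[K] AlgebraicClosure K) →
      (W⁄(AlgebraicClosure K)).Point) → Prop)
    (hLoc : ∀ c (n : ℕ), Loc c → Loc (fun σ => n • c σ))
    (hbase : ∀ c, IsCocycle W c → Loc c → IsCobdry W (fun σ => c σ + c σ) → IsCobdry W c)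
    (k : ℕ) : ∀ c, IsCocycle W c → Loc c → IsCobdry W (fun σ => (2 ^ k) • c σ) →
      IsCobdry W c := by
  induction k with
  | zero =>
    intro c _ _ h
    simpa using h
  | succ k ih =>
    intro c hc hl h
    apply ih c hc hl
    apply hbase _ (hc.nsmul _) (hLoc c _ hl)
    obtain ⟨P, hP⟩ := h
    refine ⟨P, fun σ => ?_⟩
    have h1 := hP σ
    simp only [pow_succ, mul_two, add_nsmul] at h1
    exact h1

end gal

end Pool.Agent.Work.MP_787500_nt
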