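import Mathlib
import Pool.Agent.Work.MP_787500_nt.H9_Main

/-!
The Kummer classes of rational points on a curve with rational two-torsion.
-/

set_option autoImplicit false
set_option linter.unusedSectionVars false
set_option linter.unusedSimpArgs false

namespace Pool.Agent.Work.MP_787500_nt

open WeierstrassCurve WeierstrassCurve.Affine

variable {K : Type*} [Field K] [CharZero K] {W : WeierstrassCurve.Affine K} {e1 e2 e3 : K}

open scoped Classical in
/-- inclusion of rational points -/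
noncomputable def incl (W : WeierstrassCurve.Affine K) :
    (W⁄K).Point →+ (W⁄(AlgebraicClosure K)).Point :=
  Point.map (W' := W) (Algebra.ofId K (AlgebraicClosure K))

open scoped Classical in
theorem gact_incl (σ : AlgebraicClosure K ≃ₐ[K] AlgebraicClosure K) (P : (W⁄K).Point) :
    gact W σ (incl W P) = incl W P := by
  rw [gact, incl, Point.map_map]
  congr 1
  congr 1
  ext

open scoped Classical in
/-- one coordinate of the Kummer class -/
structure KumS (h : TwoTors W e1 e2 e3) (Q : (W⁄(AlgebraicClosure K)).Point)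
    (s : AlgebraicClosure K) (d : K) : Prop where
  ne : s ≠ 0
  sq : algebraMap K (AlgebraicClosure K) d = s ^ 2
  pos : ∀ σ : AlgebraicClosure K ≃ₐ[K] AlgebraicClosure K,
    inA (h.bc (AlgebraicClosure K)) (gact W σ Q - Q) → σ s = s
  neg : ∀ σ : AlgebraicClosure K ≃ₐ[K] AlgebraicClosure K,
    ¬ inA (h.bc (AlgebraicClosure K)) (gact W σ Q - Q) → σ s = -s

open scoped Classical in
/-- `(d1, d2, d3)` is the Kummer class of `P`. -/
def KumRel (h : TwoTors W e1 e2 e3) (P : (W⁄K).Point) (d1 d2 d3 : K) : Prop :=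
  ∃ (Q : (W⁄(AlgebraicClosure K)).Point) (s1 s2 s3 : AlgebraicClosure K),
    Q + Q = incl W P ∧ KumS h Q s1 d1 ∧ KumS h.rot Q s2 d2 ∧ KumS h.rot.rot Q s3 d3

open scoped Classical in
theorem KumS.ne' {h : TwoTors W e1 e2 e3} {Q : (W⁄(AlgebraicClosure K)).Point}
    {s : AlgebraicClosure K} {d : K} (H : KumS h Q s d) : d ≠ 0 := by
  rintro rfl
  have := H.sq
  rw [map_zero] at this
  exact pow_ne_zero 2 H.ne this.symm

open scoped Classical in
theorem exists_kumRel (h : TwoTors W e1 e2 e3) (P : (W⁄K).Point) :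
    ∃ d1 d2 d3 : K, d1 ≠ 0 ∧ d2 ≠ 0 ∧ d3 ≠ 0 ∧ IsSquare (d1 * d2 * d3) ∧
      HomSol e1 e2 e3 d1 d2 d3 K ∧ KumRel h P d1 d2 d3 := by
  set hb := h.bc (AlgebraicClosure K) with hbdef
  obtain ⟨Q, hQ⟩ := exists_half hb (incl W P)
  set b : (AlgebraicClosure K ≃ₐ[K] AlgebraicClosure K) → (W⁄(AlgebraicClosure K)).Point :=
    fun σ => gact W σ Q - Q with hbd
  have hb2 : ∀ σ, b σ + b σ = 0 := by
    intro σ
    have h1 : gact W σ (Q + Q) = Q + Q := by rw [hQ]; exact gact_incl σ P
    rw [map_add] at h1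
    simp only [hbd]
    have : gact W σ Q - Q + (gact W σ Q - Q) = (gact W σ Q + gact W σ Q) - (Q + Q) := by abel
    rw [this, h1, sub_self]
  have hbmul : ∀ σ τ, b (σ * τ) = b σ + b τ := by
    intro σ τ
    have h1 : b (σ * τ) = b σ + gact W σ (b τ) := by
      simp only [hbd, gact_mul, map_sub]
      abel
    rw [h1, gact_two_torsion h σ (hb2 τ)]
  have hbloc : IsLocallyConstant b :=
    (isLocallyConstant_gact (K := K) (W := W) Q).sub (IsLocallyConstant.const Q)
  have hsq : ∀ {f1 f2 f3 : K} (g : TwoTors W f1 f2 f3),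
      ∃ (s : AlgebraicClosure K) (d : K), KumS g Q s d := by
    intro f1 f2 f3 g
    obtain ⟨s, hs0, ha, hb'⟩ := exists_sqrt_of_char
      (fun σ => inA (g.bc (AlgebraicClosure K)) (b σ)) (fun σ τ => by
        rw [hbmul]
        exact inA_add_iff _ (hb2 σ) (hb2 τ))
      (hbloc {T | inA (g.bc (AlgebraicClosure K)) T})
    have : ∃ d : K, algebraMap K (AlgebraicClosure K) d = s ^ 2 := by
      apply (InfiniteGalois.mem_range_algebraMap_iff_fixed _).2
      intro σ
      rw [map_pow]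
      by_cases hA : inA (g.bc (AlgebraicClosure K)) (b σ)
      · rw [ha σ hA]
      · rw [hb' σ hA, neg_sq]
    obtain ⟨d, hd⟩ := this
    exact ⟨s, d, hs0, hd, ha, hb'⟩
  obtain ⟨s1, d1, k1⟩ := hsq h
  obtain ⟨s2, d2, k2⟩ := hsq h.rot
  obtain ⟨s3, d3, k3⟩ := hsq h.rot.rot
  have hprod : ∀ σ : AlgebraicClosure K ≃ₐ[K] AlgebraicClosure K,
      σ (s1 * s2 * s3) = s1 * s2 * s3 := by
    intro σ
    rw [map_mul, map_mul]
    rcases inA_cases hb (hb2 σ) with ⟨g1, g2, g3⟩ | ⟨g1, g2, g3⟩ | ⟨g1, g2, g3⟩ | ⟨g1, g2, g3⟩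
    · rw [k1.pos σ g1, k2.pos σ g2, k3.pos σ g3]
    · rw [k1.pos σ g1, k2.neg σ g2, k3.neg σ g3]; ring
    · rw [k1.neg σ g1, k2.pos σ g2, k3.neg σ g3]; ring
    · rw [k1.neg σ g1, k2.neg σ g2, k3.pos σ g3]; ring
  obtain ⟨t, ht⟩ := (InfiniteGalois.mem_range_algebraMap_iff_fixed _).2 hprod
  have hdt : d1 * d2 * d3 = t * t := by
    apply (algebraMap K (AlgebraicClosure K)).injective
    rw [map_mul, map_mul, map_mul, k1.sq, k2.sq, k3.sq, ht]
    ring
  refine ⟨d1, d2, d3, k1.ne', k2.ne', k3.ne', ⟨t, hdt⟩, ?_, Q, s1, s2, s3, hQ, k1, k2, k3⟩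
  -- the rational point on the covering
  have hloc : ∀ (τ : AlgebraicClosure K ≃ₐ[K] AlgebraicClosure K)
      (σ : AlgebraicClosure K ≃ₐ[K] AlgebraicClosure K),
      (∀ x, τ ((AlgHom.id K (AlgebraicClosure K)) x) = (AlgHom.id K (AlgebraicClosure K)) (σ x)) →
      Point.map (W' := W) (AlgHom.id K (AlgebraicClosure K)) (b σ) =
        Point.map (W' := W) (τ : AlgebraicClosure K →ₐ[K] AlgebraicClosure K) Q - Q := by
    intro τ σ hστ
    have : τ = σ := AlgEquiv.ext hστ
    subst this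
    have hid : ∀ R : (W⁄(AlgebraicClosure K)).Point,
        Point.map (W' := W) (AlgHom.id K (AlgebraicClosure K)) R = R := by
      intro R
      rcases R with _ | ⟨x, y, hxy⟩
      · rfl
      · rw [Point.map_some]
        simp
    rw [hid]
    rfl
  have c1 := local_component h (AlgHom.id K (AlgebraicClosure K)) hb2 hloc k1.ne k1.pos k1.neg
  have c2 := local_component h.rot (AlgHom.id K (AlgebraicClosure K)) hb2 hloc k2.ne k2.pos k2.neg
  have c3 := local_component h.rot.rot (AlgHom.id K (AlgebraicClosure K)) hb2 hloc k3.ne k3.pos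
    k3.neg
  have hinj : Function.Injective (algebraMap K (AlgebraicClosure K)) :=
    (algebraMap K (AlgebraicClosure K)).injective
  by_cases hPP : Q + Q = 0
  · obtain ⟨z1, hz1⟩ := c1.2 hPP
    obtain ⟨z2, hz2⟩ := c2.2 hPP
    obtain ⟨z3, hz3⟩ := c3.2 hPP
    rw [AlgHom.id_apply] at hz1 hz2 hz3
    refine ⟨1, 0, z1, z2, z3, Or.inr one_ne_zero, ?_, ?_, ?_⟩ <;>
    apply hinj <;>
    simp only [Algebra.algebraMap_self, RingHom.id_apply, map_mul, map_pow, map_sub, map_one,
      map_zero]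
    · rw [k1.sq]; linear_combination (algebraMap K (AlgebraicClosure K) z1 * s1 + 1) * hz1
    · rw [k2.sq]; linear_combination (algebraMap K (AlgebraicClosure K) z2 * s2 + 1) * hz2
    · rw [k3.sq]; linear_combination (algebraMap K (AlgebraicClosure K) z3 * s3 + 1) * hz3
  · obtain ⟨z1, hz1⟩ := c1.1 hPP
    obtain ⟨z2, hz2⟩ := c2.1 hPP
    obtain ⟨z3, hz3⟩ := c3.1 hPP
    rw [AlgHom.id_apply] at hz1 hz2 hz3
    rcases P with _ | ⟨x, y, hxy⟩
    · exfalso
      apply hPP
      rw [hQ, ← Point.zero_def, map_zero]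
    · have hQ' := hQ
      rw [incl, Point.map_some] at hQ'
      have q1 := rFun_sq (h.bc (AlgebraicClosure K)) hQ'
      have q2 := rFun_sq (h.rot.bc (AlgebraicClosure K)) hQ'
      have q3 := rFun_sq (h.rot.rot.bc (AlgebraicClosure K)) hQ'
      rw [← hz1] at q1
      rw [← hz2] at q2
      rw [← hz3] at q3
      simp only [Algebra.ofId_apply] at q1 q2 q3
      refine ⟨x, 1, z1, z2, z3, Or.inl one_ne_zero, ?_, ?_, ?_⟩ <;>
      apply hinj <;>
      simp only [Algebra.algebraMap_self, RingHom.id_apply, map_mul, map_pow, map_sub, map_one,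
        one_pow, mul_one]
      · rw [k1.sq, ← q1]; ring
      · rw [k2.sq, ← q2]; ring
      · rw [k3.sq, ← q3]; ring

open scoped Classical in
theorem KumS.inA_iff {h : TwoTors W e1 e2 e3} {Q Q' : (W⁄(AlgebraicClosure K)).Point}
    {s s' : AlgebraicClosure K} {d d' : K} (H : KumS h Q s d) (H' : KumS h Q' s' d')
    (hsq : IsSquare (d * d')) (σ : AlgebraicClosure K ≃ₐ[K] AlgebraicClosure K) :
    inA (h.bc (AlgebraicClosure K)) (gact W σ Q - Q) ↔
      inA (h.bc (AlgebraicClosure K)) (gact W σ Q' - Q') := by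
  obtain ⟨u, hu⟩ := hsq
  have h1 : (s * s') ^ 2 = (algebraMap K (AlgebraicClosure K) u) ^ 2 := by
    rw [mul_pow, ← H.sq, ← H'.sq, ← map_mul, hu, map_mul, pow_two]
  have hfix : σ (s * s') = s * s' := by
    rcases sq_eq_sq_iff_eq_or_eq_neg.1 h1 with h2 | h2
    · rw [h2, AlgEquiv.commutes]
    · rw [h2, map_neg, AlgEquiv.commutes]
  have hne : s * s' ≠ 0 := mul_ne_zero H.ne H'.ne
  have hself : ∀ {s : AlgebraicClosure K}, -s = s → s = 0 := by
    intro s hs
    have h7 : (2 : AlgebraicClosure K) * s = 0 := by linear_combination -hs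
    exact (mul_eq_zero.1 h7).resolve_left two_ne_zero
  rw [map_mul] at hfix
  by_cases a : inA (h.bc (AlgebraicClosure K)) (gact W σ Q - Q) <;>
  by_cases a' : inA (h.bc (AlgebraicClosure K)) (gact W σ Q' - Q')
  · exact iff_of_true a a'
  · exfalso
    rw [H.pos σ a, H'.neg σ a', mul_neg] at hfix
    exact hne (hself hfix)
  · exfalso
    rw [H.neg σ a, H'.pos σ a', neg_mul] at hfix
    exact hne (hself hfix)
  · exact iff_of_false a a'

open scoped Classical in
theorem exists_double_of_kumRel (h : TwoTors W e1 e2 e3) {P P' : (W⁄K).Point}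
    {d1 d2 d3 d1' d2' d3' : K} (H : KumRel h P d1 d2 d3) (H' : KumRel h P' d1' d2' d3')
    (h2 : IsSquare (d2 * d2')) (h3 : IsSquare (d3 * d3')) :
    ∃ R : (W⁄K).Point, P - P' = R + R := by
  obtain ⟨Q, s1, s2, s3, hQ, -, k2, k3⟩ := H
  obtain ⟨Q', s1', s2', s3', hQ', -, k2', k3'⟩ := H'
  have hfix : ∀ (Q : (W⁄(AlgebraicClosure K)).Point) (P : (W⁄K).Point), Q + Q = incl W P →
      ∀ σ, (gact W σ Q - Q) + (gact W σ Q - Q) = 0 := by
    intro Q P hQ σ
    have h1 : gact W σ (Q + Q) = Q + Q := by rw [hQ]; exact gact_incl σ P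
    rw [map_add] at h1
    have : gact W σ Q - Q + (gact W σ Q - Q) = (gact W σ Q + gact W σ Q) - (Q + Q) := by abel
    rw [this, h1, sub_self]
  have heq : ∀ σ, gact W σ Q - Q = gact W σ Q' - Q' := fun σ =>
    inA_eq (h.rot.bc (AlgebraicClosure K)) (hfix Q P hQ σ) (hfix Q' P' hQ' σ)
      (k2.inA_iff k2' h2 σ) (k3.inA_iff k3' h3 σ)
  have hR : ∀ σ, gact W σ (Q - Q') = Q - Q' := by
    intro σ
    have := heq σ
    rw [map_sub]
    calc gact W σ Q - gact W σ Q' = (gact W σ Q - Q) - (gact W σ Q' - Q') + (Q - Q') := by abel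
      _ = Q - Q' := by rw [this, sub_self, zero_add]
  have : ∃ R : (W⁄K).Point, incl W R = Q - Q' := by
    rcases hRR : Q - Q' with _ | ⟨x, y, hxy⟩
    · exact ⟨0, by rw [map_zero]; rfl⟩
    · rw [hRR] at hR
      obtain ⟨⟨x0, hx0⟩, ⟨y0, hy0⟩⟩ := exists_of_fixed (K := K) (F := K) (W := W) hR
      have hns : (W⁄K).Nonsingular x0 y0 := by
        have : ((W⁄K)⁄(AlgebraicClosure K)).Nonsingular (algebraMap K (AlgebraicClosure K) x0)
          (algebraMap K (AlgebraicClosure K) y0) := by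
          rw [hx0, hy0]
          exact hxy
        exact ((W⁄K).map_nonsingular (algebraMap K (AlgebraicClosure K)).injective x0 y0).1 this
      refine ⟨Point.some x0 y0 hns, ?_⟩
      rw [incl, Point.map_some]
      simp only [Point.some.injEq]
      exact ⟨hx0, hy0⟩
  obtain ⟨R, hR'⟩ := this
  refine ⟨R, ?_⟩
  apply Point.map_injective (W' := W) (Algebra.ofId K (AlgebraicClosure K))
  show incl W (P - P') = incl W (R + R)
  rw [map_sub, map_add, hR', ← hQ, ← hQ']
  abel

end Pool.Agent.Work.MP_787500_nt
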