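import Mathlib

/-!
Definitions for the statement on Galois representations.
-/

set_option autoImplicit false

namespace Pool.Agent.Work.MP_787500_nt

open IsDedekindDomain NumberField

universe u

/-- The absolute Galois group of `F`, with its Krull topology. -/
abbrev AbsGal (F : Type u) [Field F] : Type u := AlgebraicClosure F ≃ₐ[F] AlgebraicClosure F

section decomp

variable {F : Type*} [Field F] {E : Type*} [Field E] [Algebra F E]

/-- The decomposition group of an embedding `ι` of the algebraic closure of `F` into the algebraic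
closure of the extension field `E` of `F`: the image of the absolute Galois group of `E` in the
absolute Galois group of `F` under restriction along `ι`. -/
def decomp (ι : AlgebraicClosure F →ₐ[F] AlgebraicClosure E) :
    Subgroup (AlgebraicClosure F ≃ₐ[F] AlgebraicClosure F) where
  carrier := {σ | ∃ τ : AlgebraicClosure E ≃ₐ[E] AlgebraicClosure E, ∀ x, τ (ι x) = ι (σ x)}
  mul_mem' := by
    rintro a b ⟨τ, hτ⟩ ⟨τ', hτ'⟩
    exact ⟨τ * τ', fun x => by rw [AlgEquiv.mul_apply, hτ', hτ, AlgEquiv.mul_apply]⟩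
  one_mem' := ⟨1, fun x => rfl⟩
  inv_mem' := by
    rintro a ⟨τ, hτ⟩
    refine ⟨τ⁻¹, fun x => ?_⟩
    apply τ.injective
    rw [hτ, ← AlgEquiv.mul_apply, ← AlgEquiv.mul_apply, mul_inv_cancel, mul_inv_cancel]
    rfl

end decomp

variable {F : Type u} [Field F] {n : ℕ}

/-- The action of a matrix over the 2-adic integers on vectors over the 2-adic numbers. -/
noncomputable def act (M : Matrix (Fin n) (Fin n) ℤ_[2]) (x : Fin n → ℚ_[2]) : Fin n → ℚ_[2] :=
  fun i => ∑ j, (M i j : ℚ_[2]) * x j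

/-- The action of a matrix as a linear map. -/
noncomputable def actLin (M : Matrix (Fin n) (Fin n) ℤ_[2]) :
    (Fin n → ℚ_[2]) →ₗ[ℚ_[2]] (Fin n → ℚ_[2]) where
  toFun := act M
  map_add' x y := by
    ext i
    simp [act, mul_add, Finset.sum_add_distrib]
  map_smul' a x := by
    ext i
    simp only [act, Pi.smul_apply, smul_eq_mul, Finset.mul_sum, RingHom.id_apply]
    exact Finset.sum_congr rfl (fun j _ => by ring)

/-- The coboundary attached to a vector, as a linear map to functions on the Galois group. -/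
noncomputable def cobLin (ρ : AbsGal F →* Matrix (Fin n) (Fin n) ℤ_[2]) :
    (Fin n → ℚ_[2]) →ₗ[ℚ_[2]] (AbsGal F → Fin n → ℚ_[2]) :=
  LinearMap.pi (fun σ => actLin (ρ σ) - LinearMap.id)

/-- The vectors fixed by the inertia group of the ideal `Q`. -/
noncomputable def inertiaInv (ρ : AbsGal F →* Matrix (Fin n) (Fin n) ℤ_[2])
    (Q : Ideal (𝓞 (AlgebraicClosure F))) : Submodule ℚ_[2] (Fin n → ℚ_[2]) :=
  ⨅ σ : Q.inertia (AbsGal F), LinearMap.ker (actLin (ρ σ) - LinearMap.id)

/-- The functions `c` vanishing on the subgroup `D` in all coordinates outside `S`. -/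
def zeroOn (D : Subgroup (AbsGal F)) (S : Set (Fin n)) :
    Submodule ℚ_[2] (AbsGal F → Fin n → ℚ_[2]) where
  carrier := {c | ∀ σ ∈ D, ∀ i ∉ S, c σ i = 0}
  add_mem' := fun ha hb σ hσ i hi => by simp [ha σ hσ i hi, hb σ hσ i hi]
  zero_mem' := fun _ _ _ _ => rfl
  smul_mem' := fun a c hc σ hσ i hi => by simp [hc σ hσ i hi]

/-- The functions `c` whose restriction to the subgroup `D` agrees with a coboundary in all
coordinates outside `S`. -/
noncomputable def locally (ρ : AbsGal F →* Matrix (Fin n) (Fin n) ℤ_[2]) (D : Subgroup (AbsGal F))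
    (S : Set (Fin n)) : Submodule ℚ_[2] (AbsGal F → Fin n → ℚ_[2]) :=
  LinearMap.range (cobLin ρ) ⊔ zeroOn D S

/-- The continuous 1-cocycles. -/
noncomputable def cocycles (ρ : AbsGal F →* Matrix (Fin n) (Fin n) ℤ_[2]) :
    Submodule ℚ_[2] (AbsGal F → Fin n → ℚ_[2]) where
  carrier := {c | Continuous c ∧ ∀ σ τ, c (σ * τ) = c σ + actLin (ρ σ) (c τ)}
  add_mem' := fun {a b} ha hb => ⟨ha.1.add hb.1, fun σ τ => by
    simp only [Pi.add_apply, ha.2 σ τ, hb.2 σ τ, map_add]
    abel⟩
  zero_mem' := ⟨continuous_const, fun σ τ => by simp⟩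
  smul_mem' := fun a c hc => ⟨hc.1.const_smul a, fun σ τ => by
    simp only [Pi.smul_apply, hc.2 σ τ, map_smul, smul_add]⟩

/-- The Selmer space: continuous cocycles that become coboundaries on the inertia groups of all
primes of the ring of algebraic integers not containing 2, on the group `D` become coboundaries in
the coordinates outside `S`, and on the group `D'` become coboundaries in the coordinates in `S`. -/
noncomputable def selmer (ρ : AbsGal F →* Matrix (Fin n) (Fin n) ℤ_[2])
    (D D' : Subgroup (AbsGal F)) (S : Set (Fin n)) :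
    Submodule ℚ_[2] (AbsGal F → Fin n → ℚ_[2]) :=
  cocycles ρ ⊓ locally ρ D S ⊓ locally ρ D' Sᶜ ⊓
    ⨅ (Q : Ideal (𝓞 (AlgebraicClosure F))) (_ : Q.IsPrime) (_ : (2 : 𝓞 (AlgebraicClosure F)) ∉ Q),
      locally ρ (Q.inertia (AbsGal F)) ∅

/-- The dimension of the Selmer space modulo coboundaries. -/
noncomputable def selmerDim (ρ : AbsGal F →* Matrix (Fin n) (Fin n) ℤ_[2])
    (D D' : Subgroup (AbsGal F)) (S : Set (Fin n)) : Cardinal :=
  Module.rank ℚ_[2] (selmer ρ D D' S ⧸
    (LinearMap.range (cobLin ρ)).submoduleOf (selmer ρ D D' S))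

/-- `Q` chooses a prime `Q v` of the ring of all algebraic integers above each finite place `v` of
`F`, and `T` is a finite set of places not above 2 such that `ρ` is trivial on the inertia group of
`Q v` if `v` is neither in `T` nor above 2. -/
structure IsRamSet (ρ : AbsGal F →* Matrix (Fin n) (Fin n) ℤ_[2])
    (Q : HeightOneSpectrum (𝓞 F) → Ideal (𝓞 (AlgebraicClosure F)))
    (T : Finset (HeightOneSpectrum (𝓞 F))) : Prop where
  prime : ∀ v, (Q v).IsPrime
  above : ∀ v, (Q v).comap (algebraMap (𝓞 F) (𝓞 (AlgebraicClosure F))) = v.asIdeal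
  off : ∀ v ∈ T, (2 : 𝓞 F) ∉ v.asIdeal
  unram : ∀ v ∉ T, (2 : 𝓞 F) ∉ v.asIdeal → ∀ σ ∈ (Q v).inertia (AbsGal F), ρ σ = 1

/-- The continuous representation `ρ` is modulo 2 a representation of a 2-group and unramified away
from 2, and preserves the span of the coordinate vectors with index in `S` on `D`, and the span of
the coordinate vectors with index outside `S` on `D'`. -/
structure IsOrdinary (ρ : AbsGal F →* Matrix (Fin n) (Fin n) ℤ_[2])
    (D D' : Subgroup (AbsGal F)) (S : Set (Fin n)) : Prop where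
  cont : Continuous ρ
  resid : ∀ σ, ∃ k : ℕ, ∀ i j, (2 : ℤ_[2]) ∣ (ρ (σ ^ (2 ^ k)) - 1) i j
  unram : ∀ Q : Ideal (𝓞 (AlgebraicClosure F)), Q.IsPrime → (2 : 𝓞 (AlgebraicClosure F)) ∉ Q →
    ∀ σ ∈ Q.inertia (AbsGal F), ∀ i j, (2 : ℤ_[2]) ∣ (ρ σ - 1) i j
  left : ∀ σ ∈ D, ∀ i ∉ S, ∀ j ∈ S, ρ σ i j = 0
  right : ∀ σ ∈ D', ∀ i ∈ S, ∀ j ∉ S, ρ σ i j = 0

end Pool.Agent.Work.MP_787500_nt
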