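import Mathlib

/-!
Approximation by squares in a field with a discrete valuation.
-/

namespace Pool.Agent.Work.MP_787500_nt

open WithZero

section LocSq

variable {K : Type*} [Field K] (v : Valuation K ℤᵐ⁰)

/-- `z` can be approximated by squares, arbitrarily closely for the valuation `v`. -/
def LocSq (z : K) : Prop := ∀ γ : ℤᵐ⁰, γ ≠ 0 → ∃ y : K, v (z - y ^ 2) < γ

variable {v}

theorem LocSq.of_isSquare {z : K} (h : IsSquare z) : LocSq v z := by
  obtain ⟨y, rfl⟩ := h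
  intro γ hγ
  refine ⟨y, ?_⟩
  rw [show y * y - y ^ 2 = 0 by ring, map_zero]
  exact zero_lt_iff.mpr hγ

theorem exists_lt_of_ne_zero {a γ : ℤᵐ⁰} (hγ : γ ≠ 0) : ∃ δ : ℤᵐ⁰, δ ≠ 0 ∧ ∀ t, t < δ → a * t < γ := by
  by_cases ha : a = 0
  · refine ⟨1, one_ne_zero, fun t _ => ?_⟩
    rw [ha, zero_mul]
    exact zero_lt_iff.mpr hγ
  · refine ⟨a⁻¹ * γ, mul_ne_zero (inv_ne_zero ha) hγ, fun t ht => ?_⟩
    have h1 : a * t < a * (a⁻¹ * γ) := by
      exact (mul_lt_mul_iff_right₀ (zero_lt_iff.mpr ha)).mpr ht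
    rwa [mul_inv_cancel_left₀ ha] at h1

theorem LocSq.mul {a b : K} (ha : LocSq v a) (hb : LocSq v b) : LocSq v (a * b) := by
  intro γ hγ
  obtain ⟨δ1, hδ1, h1⟩ := exists_lt_of_ne_zero (a := v a) hγ
  obtain ⟨w, hw⟩ := hb δ1 hδ1
  obtain ⟨δ2, hδ2, h2⟩ := exists_lt_of_ne_zero (a := v (w ^ 2)) hγ
  obtain ⟨y, hy⟩ := ha δ2 hδ2
  refine ⟨y * w, ?_⟩
  have e : a * b - (y * w) ^ 2 = a * (b - w ^ 2) + w ^ 2 * (a - y ^ 2) := by ring
  rw [e]
  refine lt_of_le_of_lt (v.map_add _ _) (max_lt ?_ ?_)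
  · rw [map_mul]; exact h1 _ hw
  · rw [map_mul]; exact h2 _ hy

theorem LocSq.mul_sq_iff {a s : K} (hs : s ≠ 0) : LocSq v (a * s ^ 2) ↔ LocSq v a := by
  constructor
  · intro h
    have h2 : LocSq v (a * s ^ 2 * (s⁻¹) ^ 2) := h.mul (LocSq.of_isSquare (IsSquare.sq _))
    have e : a * s ^ 2 * (s⁻¹) ^ 2 = a := by field_simp
    rwa [e] at h2
  · intro h
    exact h.mul (LocSq.of_isSquare (IsSquare.sq _))

theorem LocSq.inv {a : K} (ha : a ≠ 0) (h : LocSq v a) : LocSq v a⁻¹ := by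
  have e : a = a⁻¹ * a ^ 2 := by field_simp
  rw [e] at h
  exact (LocSq.mul_sq_iff ha).mp h

theorem LocSq.of_mul_right {a b : K} (hb : b ≠ 0) (h1 : LocSq v (a * b)) (h2 : LocSq v b) :
    LocSq v a := by
  have h3 := h1.mul h2
  rw [show a * b * b = a * b ^ 2 by ring] at h3
  exact (LocSq.mul_sq_iff hb).mp h3

/-- Newton iteration: `1 + 4 x` is a local square when `x` is small. -/
theorem LocSq.one_add_four_mul (h2 : (2 : K) ≠ 0) {x : K} (hx : v x < 1) (h4 : v (2 : K) ≤ 1) :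
    LocSq v (1 + 4 * x) := by
  -- quadratic convergence: for all n there is y with v y = 1 and v (1+4x-y^2) ≤ v 4 * v x ^ (n+1)
  have key : ∀ n : ℕ, ∃ y : K, v y = 1 ∧ v (1 + 4 * x - y ^ 2) ≤ v (4 : K) * (v x) ^ (n + 1) := by
    intro n
    induction n with
    | zero =>
      refine ⟨1, map_one v, ?_⟩
      rw [show 1 + 4 * x - 1 ^ 2 = 4 * x by ring, map_mul, zero_add, pow_one]
    | succ n ih =>
      obtain ⟨y, hy1, hy2⟩ := ih
      have hy0 : y ≠ 0 := by
        intro h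
        rw [h, map_zero] at hy1
        exact zero_ne_one hy1
      have h4' : (4 : K) ≠ 0 := by
        have : (4 : K) = 2 * 2 := by norm_num
        rw [this]
        exact mul_ne_zero h2 h2
      set E := 1 + 4 * x - y ^ 2 with hE
      have hE4 : v (E / (2 * y)) ≤ v (2 : K) * (v x) ^ (n + 1) := by
        rw [map_div₀, map_mul, hy1, mul_one, div_le_iff₀ (zero_lt_iff.mpr ((v.ne_zero_iff).mpr h2))]
        calc v E ≤ v (4 : K) * (v x) ^ (n + 1) := hy2
          _ = v (2 : K) * (v x) ^ (n + 1) * v 2 := by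
            rw [show (4 : K) = 2 * 2 by norm_num, map_mul]; ac_rfl
      refine ⟨y + E / (2 * y), ?_, ?_⟩
      · have : v (E / (2 * y)) < v y := by
          rw [hy1]
          refine lt_of_le_of_lt hE4 ?_
          calc v (2 : K) * (v x) ^ (n + 1) ≤ 1 * (v x) ^ (n + 1) := by gcongr
            _ = (v x) ^ (n + 1) := one_mul _
            _ < 1 := pow_lt_one₀ zero_le hx (Nat.succ_ne_zero _)
        rw [Valuation.map_add_eq_of_lt_left v this, hy1]
      · have e : 1 + 4 * x - (y + E / (2 * y)) ^ 2 = -(E / (2 * y)) ^ 2 := by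
          have : 1 + 4 * x = y ^ 2 + E := by rw [hE]; ring
          rw [this]
          field_simp
          ring
        rw [e, Valuation.map_neg, map_pow]
        calc (v (E / (2 * y))) ^ 2 ≤ (v (2 : K) * (v x) ^ (n + 1)) ^ 2 := by gcongr
          _ = v (4 : K) * ((v x) ^ (n + 1) * (v x) ^ (n + 1)) := by
            rw [show (4 : K) = 2 * 2 by norm_num, map_mul, sq]; ac_rfl
          _ ≤ v (4 : K) * ((v x) ^ (n + 1) * (v x) ^ 1) := by
            gcongr v (4 : K) * (_ * ?_)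
            exact pow_le_pow_right_of_le_one' hx.le (by omega)
          _ = v (4 : K) * (v x) ^ (n + 1 + 1) := by rw [← pow_add]
  intro γ hγ
  by_cases hx0 : v x = 0
  · obtain ⟨y, -, hy⟩ := key 0
    refine ⟨y, lt_of_le_of_lt hy ?_⟩
    rw [hx0]
    simpa using zero_lt_iff.mpr hγ
  · obtain ⟨m, hm⟩ : ∃ m : ℤ, v x = exp m := ⟨_, (exp_log hx0).symm⟩
    obtain ⟨g, hg⟩ : ∃ g : ℤ, γ = exp g := ⟨_, (exp_log hγ).symm⟩
    have hm0 : m < 0 := by
      rw [hm, ← exp_zero, exp_lt_exp] at hx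
      exact hx
    have h41 : v (4 : K) ≤ 1 := by
      rw [show (4 : K) = 2 * 2 by norm_num, map_mul]
      exact mul_le_one' h4 h4
    obtain ⟨y, -, hy⟩ := key (g.natAbs)
    refine ⟨y, lt_of_le_of_lt hy ?_⟩
    calc v (4 : K) * (v x) ^ (g.natAbs + 1) ≤ 1 * (v x) ^ (g.natAbs + 1) := by gcongr
      _ = (exp m) ^ (g.natAbs + 1) := by rw [one_mul, hm]
      _ = exp ((g.natAbs + 1 : ℤ) * m) := by
        rw [← exp_nsmul]; simp
      _ < exp g := by
        rw [exp_lt_exp]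
        have : (g.natAbs : ℤ) = |g| := Int.natCast_natAbs g
        rw [this]
        have h1 : -|g| ≤ g := neg_abs_le g
        have h2 : 0 ≤ |g| := abs_nonneg g
        nlinarith
      _ = γ := hg.symm

/-- The residue field condition: the map `x ↦ x^2 + x` has image of index two. -/
def ASProp (v : Valuation K ℤᵐ⁰) : Prop :=
  ∀ ε ε' : K, v ε ≤ 1 → v ε' ≤ 1 → (∀ x, v x ≤ 1 → v (x ^ 2 + x - ε) = 1) →
    (∀ x, v x ≤ 1 → v (x ^ 2 + x - ε') = 1) → ∃ x, v x ≤ 1 ∧ v (x ^ 2 + x - (ε + ε')) < 1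

theorem val_one_add_of_lt {x : K} (hx : v x < 1) : v (1 + x) = 1 := by
  have := Valuation.map_add_eq_of_lt_left v (x := 1) (y := x) (by rwa [map_one])
  rw [this, map_one]

theorem four_eq : (4 : K) = 2 * 2 := by norm_num

theorem locSq_of_artinSchreier (h2 : (2 : K) ≠ 0) (hv2 : v (2 : K) < 1) {ε x : K}
    (hx : v x ≤ 1) (hxe : v (x ^ 2 + x - ε) < 1) : LocSq v (1 + 4 * ε) := by
  have h1 : v (1 + 2 * x) = 1 := by
    apply val_one_add_of_lt
    rw [map_mul]
    exact mul_lt_one_of_lt_of_le hv2 hx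
  have h0 : (1 + 2 * x) ≠ 0 := by
    intro h
    rw [h, map_zero] at h1
    exact zero_ne_one h1
  have e : 1 + 4 * ε = (1 + 4 * (-(x ^ 2 + x - ε) / (1 + 2 * x) ^ 2)) * (1 + 2 * x) ^ 2 := by
    have e1 : ∀ A B : K, B ≠ 0 → (1 + 4 * (A / B ^ 2)) * B ^ 2 = B ^ 2 + 4 * A := by
      intro A B hB
      field_simp
    rw [e1 _ _ h0]
    ring
  rw [e]
  refine (LocSq.mul_sq_iff h0).mpr (LocSq.one_add_four_mul h2 ?_ hv2.le)
  rw [map_div₀, Valuation.map_neg, map_pow, h1, one_pow, div_one]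
  exact hxe

/-- `z` is a square times an element of `1 + 4 O`. -/
def U4 (v : Valuation K ℤᵐ⁰) (z : K) : Prop := ∃ ε s : K, v ε ≤ 1 ∧ s ≠ 0 ∧ z = (1 + 4 * ε) * s ^ 2

theorem v4_lt (hv2 : v (2 : K) < 1) : v (4 : K) < 1 := by
  rw [four_eq, map_mul]
  exact mul_lt_one_of_lt_of_le hv2 hv2.le

theorem one_add_four_mul_ne_zero (hv2 : v (2 : K) < 1) {ε : K} (he : v ε ≤ 1) :
    (1 + 4 * ε) ≠ 0 := by
  intro h
  have h1 : v (1 + 4 * ε) = 1 := by
    apply val_one_add_of_lt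
    rw [map_mul]
    exact mul_lt_one_of_lt_of_le (v4_lt hv2) he
  rw [h, map_zero] at h1
  exact zero_ne_one h1

theorem U4.ne_zero (hv2 : v (2 : K) < 1) {z : K} (h : U4 v z) : z ≠ 0 := by
  obtain ⟨ε, s, he, hs, rfl⟩ := h
  exact mul_ne_zero (one_add_four_mul_ne_zero hv2 he) (pow_ne_zero _ hs)

theorem U4.mul (hv2 : v (2 : K) < 1) {z w : K} (hz : U4 v z) (hw : U4 v w) : U4 v (z * w) := by
  obtain ⟨ε, s, he, hs, rfl⟩ := hz
  obtain ⟨ε', s', he', hs', rfl⟩ := hw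
  refine ⟨ε + ε' + 4 * (ε * ε'), s * s', ?_, mul_ne_zero hs hs', by ring⟩
  refine (v.map_add _ _).trans (max_le ((v.map_add _ _).trans (max_le he he')) ?_)
  rw [map_mul, map_mul]
  exact mul_le_one' (v4_lt hv2).le (mul_le_one' he he')

theorem val_eq_one_of_not_lt {x : K} (h1 : v x ≤ 1) (h2 : ¬ v x < 1) : v x = 1 :=
  le_antisymm h1 (not_lt.mp h2)

theorem U4.locSq_mul (hAS : ASProp v) (h2 : (2 : K) ≠ 0) (hv2 : v (2 : K) < 1) {z w : K}
    (hz : U4 v z) (hw : U4 v w) (hz' : ¬ LocSq v z) (hw' : ¬ LocSq v w) : LocSq v (z * w) := by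
  obtain ⟨ε, s, he, hs, rfl⟩ := hz
  obtain ⟨ε', s', he', hs', rfl⟩ := hw
  rw [LocSq.mul_sq_iff hs] at hz'
  rw [LocSq.mul_sq_iff hs'] at hw'
  have int : ∀ x, v x ≤ 1 → ∀ ε, v ε ≤ 1 → v (x ^ 2 + x - ε) ≤ 1 := by
    intro x hx ε he
    refine (v.map_sub _ _).trans (max_le ((v.map_add _ _).trans (max_le ?_ hx)) he)
    rw [map_pow]
    exact pow_le_one₀ zero_le hx
  obtain ⟨x, hx, hx'⟩ := hAS ε ε' he he'
    (fun x hx => val_eq_one_of_not_lt (int x hx ε he)
      (fun h => hz' (locSq_of_artinSchreier h2 hv2 hx h)))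
    (fun x hx => val_eq_one_of_not_lt (int x hx ε' he')
      (fun h => hw' (locSq_of_artinSchreier h2 hv2 hx h)))
  have e : (1 + 4 * ε) * s ^ 2 * ((1 + 4 * ε') * s' ^ 2) =
      (1 + 4 * (ε + ε' + 4 * (ε * ε'))) * (s * s') ^ 2 := by ring
  rw [e, LocSq.mul_sq_iff (mul_ne_zero hs hs')]
  refine locSq_of_artinSchreier h2 hv2 hx ?_
  rw [show x ^ 2 + x - (ε + ε' + 4 * (ε * ε')) = (x ^ 2 + x - (ε + ε')) - 4 * (ε * ε') by ring]
  refine lt_of_le_of_lt (v.map_sub _ _) (max_lt hx' ?_)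
  rw [map_mul, map_mul]
  exact mul_lt_one_of_lt_of_le (v4_lt hv2) (mul_le_one' he he')

/-- The possible classes of the coordinate of the far point. -/
def FarClass (v : Valuation K ℤᵐ⁰) (b d : K) : Prop :=
  LocSq v d ∨ LocSq v (d * b) ∨ (U4 v d ∧ U4 v b)

theorem FarClass.locSq_mul (hAS : ASProp v) (h2 : (2 : K) ≠ 0) (hv2 : v (2 : K) < 1) {b d d' : K}
    (hb : b ≠ 0) (hd : FarClass v b d) (hd' : FarClass v b d')
    (h : ¬ LocSq v d) (h' : ¬ LocSq v d') : LocSq v (d * d') := by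
  have two : ∀ {p q : K}, LocSq v (p * b) → LocSq v (q * b) → LocSq v (p * q) := by
    intro p q hp hq
    have := hp.mul hq
    rw [show p * b * (q * b) = p * q * b ^ 2 by ring] at this
    exact (LocSq.mul_sq_iff hb).mp this
  have nb : ∀ {p : K}, LocSq v (p * b) → ¬ LocSq v p → ¬ LocSq v b := fun hp hnp hb' =>
    hnp (hp.of_mul_right hb hb')
  rcases hd with hd | hd | ⟨hd, hbU⟩
  · exact absurd hd h
  · rcases hd' with hd' | hd' | ⟨hd', hbU⟩
    · exact absurd hd' h'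
    · exact two hd hd'
    · have := hd'.locSq_mul hAS h2 hv2 hbU h' (nb hd h)
      exact two hd this
  · rcases hd' with hd' | hd' | ⟨hd', -⟩
    · exact absurd hd' h'
    · have := hd.locSq_mul hAS h2 hv2 hbU h (nb hd' h')
      exact two this hd'
    · exact hd.locSq_mul hAS h2 hv2 hd' h h'

/-- The dyadic local condition for the coordinate of the far point. -/
theorem farClass_of_sol (h2 : (2 : K) ≠ 0) (hv2 : v (2 : K) < 1) {b c d1 d2 d3 B w z1 z2 z3 : K}
    (hb : b ≠ 0) (hd2 : d2 ≠ 0)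
    (hsq : IsSquare (d1 * d2 * d3)) (hc : v c ≤ v (16 * b)) (h0 : w ≠ 0 ∨ B ≠ 0)
    (e1 : d1 * z1 ^ 2 = B + c * w ^ 2) (e2 : d2 * z2 ^ 2 = B + b * w ^ 2)
    (e3 : d3 * z3 ^ 2 = B) : FarClass v b d2 := by
  have h4 : (4 : K) ≠ 0 := by rw [four_eq]; exact mul_ne_zero h2 h2
  obtain ⟨q, hq⟩ := hsq
  -- the product relation
  have hprod : d2 * (B * (B + c * w ^ 2)) = (q * z1 * z3) ^ 2 := by
    rw [← e1]
    calc d2 * (B * (d1 * z1 ^ 2)) = d2 * ((d3 * z3 ^ 2) * (d1 * z1 ^ 2)) := by rw [e3]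
      _ = (d1 * d2 * d3) * (z1 * z3) ^ 2 := by ring
      _ = (q * z1 * z3) ^ 2 := by rw [hq]; ring
  by_cases hlt : v (c * w ^ 2) < v (4 * B)
  · -- d2 is a square
    left
    have hB : B ≠ 0 := by
      rintro rfl
      rw [mul_zero, map_zero] at hlt
      exact not_lt_bot hlt
    have hx : v (c * w ^ 2 / (4 * B)) < 1 := by
      rw [map_div₀]
      exact (div_lt_one₀ (zero_lt_iff.mpr ((v.ne_zero_iff).mpr (mul_ne_zero h4 hB)))).mpr hlt
    have hl : LocSq v (1 + 4 * (c * w ^ 2 / (4 * B))) := LocSq.one_add_four_mul h2 hx hv2.le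
    have hne : (1 + 4 * (c * w ^ 2 / (4 * B))) ≠ 0 := one_add_four_mul_ne_zero hv2 hx.le
    have e : d2 * (B * (B + c * w ^ 2)) = d2 * (1 + 4 * (c * w ^ 2 / (4 * B))) * B ^ 2 := by
      field_simp
    have : LocSq v (d2 * (1 + 4 * (c * w ^ 2 / (4 * B))) * B ^ 2) := by
      rw [← e, hprod]
      exact LocSq.of_isSquare (IsSquare.sq _)
    rw [LocSq.mul_sq_iff hB] at this
    exact this.of_mul_right hne hl
  · rw [not_lt] at hlt
    have hbw : v B ≤ v (4 * b * w ^ 2) := by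
      have h5 : v (4 * B) ≤ v (4 * (4 * b * w ^ 2)) := by
        refine hlt.trans ?_
        rw [map_mul]
        calc v c * v (w ^ 2) ≤ v (16 * b) * v (w ^ 2) := by gcongr
          _ = v (4 * (4 * b * w ^ 2)) := by rw [← map_mul]; congr 1; ring
      rw [map_mul v 4 B, map_mul v 4 (4 * b * w ^ 2)] at h5
      exact (mul_le_mul_iff_right₀ (zero_lt_iff.mpr ((v.ne_zero_iff).mpr h4))).mp h5
    have hw : w ≠ 0 := by
      rcases h0 with h0 | h0
      · exact h0
      · rintro rfl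
        apply h0
        have : v B ≤ 0 := by simpa using hbw
        exact (v.zero_iff).mp (le_zero_iff.mp this)
    have hbw0 : 4 * b * w ^ 2 ≠ 0 := mul_ne_zero (mul_ne_zero h4 hb) (pow_ne_zero _ hw)
    set ε := B / (4 * b * w ^ 2) with hε
    have hε1 : v ε ≤ 1 := by
      rw [hε, map_div₀]
      exact (div_le_one₀ (zero_lt_iff.mpr ((v.ne_zero_iff).mpr hbw0))).mpr hbw
    have hBε : B = 4 * b * w ^ 2 * ε := by
      rw [hε]; field_simp
    have hz2 : z2 ≠ 0 := by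
      rintro rfl
      have h6 : (1 + 4 * ε) * (b * w ^ 2) = 0 := by
        rw [hBε] at e2
        calc (1 + 4 * ε) * (b * w ^ 2) = 4 * b * w ^ 2 * ε + b * w ^ 2 := by ring
          _ = 0 := by rw [← e2]; ring
      exact mul_ne_zero (one_add_four_mul_ne_zero hv2 hε1)
        (mul_ne_zero hb (pow_ne_zero _ hw)) h6
    have hd2b : d2 * b = (1 + 4 * ε) * (b * w / z2) ^ 2 := by
      have : d2 = (B + b * w ^ 2) / z2 ^ 2 := by
        rw [← e2]; field_simp
      rw [this, hBε]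
      field_simp
      ring
    have hs : b * w / z2 ≠ 0 := div_ne_zero (mul_ne_zero hb hw) hz2
    by_cases hL : LocSq v (1 + 4 * ε)
    · right; left
      rw [hd2b]
      exact (LocSq.mul_sq_iff hs).mpr hL
    · right; right
      have hε2 : v ε = 1 := by
        refine val_eq_one_of_not_lt hε1 (fun h => hL ?_)
        exact LocSq.one_add_four_mul h2 h hv2.le
      have hB : B ≠ 0 := by
        rw [hBε]
        refine mul_ne_zero hbw0 ?_
        intro h
        rw [h, map_zero] at hε2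
        exact zero_ne_one hε2
      have hvB : v B = v (4 * b * w ^ 2) := by
        rw [hBε, map_mul, hε2, mul_one]
      set ε' := c * w ^ 2 / (4 * B) with hε'
      have hε'1 : v ε' ≤ 1 := by
        rw [hε', map_div₀]
        refine (div_le_one₀ (zero_lt_iff.mpr ((v.ne_zero_iff).mpr (mul_ne_zero h4 hB)))).mpr ?_
        rw [map_mul v 4 B, hvB, ← map_mul, map_mul]
        calc v c * v (w ^ 2) ≤ v (16 * b) * v (w ^ 2) := by gcongr
          _ = v (4 * (4 * b * w ^ 2)) := by rw [← map_mul]; congr 1; ring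
      have e : d2 * (B * (B + c * w ^ 2)) = d2 * (1 + 4 * ε') * B ^ 2 := by
        rw [hε']; field_simp
      have hne : (1 + 4 * ε') ≠ 0 := one_add_four_mul_ne_zero hv2 hε'1
      have hr : q * z1 * z3 ≠ 0 := by
        intro h
        rw [hprod, h] at e
        have : d2 * (1 + 4 * ε') * B ^ 2 ≠ 0 :=
          mul_ne_zero (mul_ne_zero hd2 hne) (pow_ne_zero _ hB)
        exact this (by rw [← e]; ring)
      have hU : U4 v d2 := by
        refine ⟨ε', q * z1 * z3 / (B * (1 + 4 * ε')), hε'1, div_ne_zero hr (mul_ne_zero hB hne), ?_⟩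
        have h7 : d2 * (1 + 4 * ε') * B ^ 2 = (q * z1 * z3) ^ 2 := by rw [← e, hprod]
        field_simp
        linear_combination h7
      refine ⟨hU, ?_⟩
      have hU2 : U4 v (d2 * b) := ⟨ε, _, hε1, hs, hd2b⟩
      have := hU.mul hv2 hU2
      obtain ⟨ε'', s, h8, h9, h10⟩ := this
      refine ⟨ε'', s / d2, h8, div_ne_zero h9 hd2, ?_⟩
      field_simp
      linear_combination h10

end LocSq

end Pool.Agent.Work.MP_787500_nt
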