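import Mathlib
import Pool.Agent.Work.MP_787500_nt.H10_LocSq

/-!
Passage between a number field and its completions.
-/

set_option autoImplicit false

namespace Pool.Agent.Work.MP_787500_nt

open WithZero IsDedekindDomain NumberField

section dense

variable {F C : Type*} [Field F] [Field C] (ι : F →+* C) (V : Valuation C ℤᵐ⁰)
  (w : Valuation F ℤᵐ⁰)

theorem LocSq.of_dense (hV : ∀ k, V (ι k) = w k)
    (hd : ∀ (x : C) (γ : ℤᵐ⁰), γ ≠ 0 → ∃ k : F, V (ι k - x) < γ) {z : F}
    (h : LocSq V (ι z)) : LocSq w z := by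
  intro γ hγ
  obtain ⟨y, hy⟩ := h γ hγ
  obtain ⟨δ, hδ, h1⟩ := exists_lt_of_ne_zero (a := max (V y) 1) hγ
  obtain ⟨k, hk⟩ := hd y (min δ 1) (by
    rcases min_choice δ 1 with h | h <;> rw [h]
    · exact hδ
    · exact one_ne_zero)
  refine ⟨k, ?_⟩
  rw [← hV]
  have e : ι (z - k ^ 2) = (ι z - y ^ 2) - (ι k + y) * (ι k - y) := by
    rw [map_sub, map_pow]; ring
  rw [e]
  refine lt_of_le_of_lt (V.map_sub _ _) (max_lt hy ?_)
  rw [map_mul]
  have h2 : V (ι k + y) ≤ max (V y) 1 := by
    have : ι k + y = (ι k - y) + 2 * y := by ring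
    rw [this]
    refine (V.map_add _ _).trans (max_le ?_ ?_)
    · exact (hk.le.trans (min_le_right _ _)).trans (le_max_right _ _)
    · rw [map_mul]
      have : V 2 ≤ 1 := by
        rw [show (2 : C) = 1 + 1 by norm_num]
        refine (V.map_add _ _).trans ?_
        rw [map_one, max_self]
      exact (mul_le_mul' this le_rfl).trans ((one_mul _).le.trans (le_max_left _ _))
  calc V (ι k + y) * V (ι k - y) ≤ max (V y) 1 * V (ι k - y) := mul_le_mul' h2 le_rfl
    _ < γ := h1 _ (lt_of_lt_of_le hk (min_le_left _ _))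

/-- In a finite field of characteristic two, the sum of two elements not of the form `x^2+x` is
of this form. -/
theorem artinSchreier_finite {k : Type*} [Field k] [Finite k] (h2 : (2 : k) = 0) {a b : k}
    (ha : ∀ x : k, x ^ 2 + x ≠ a) (hb : ∀ x : k, x ^ 2 + x ≠ b) : ∃ x : k, x ^ 2 + x = a + b := by
  let f : k →+ k :=
    { toFun := fun x => x ^ 2 + x
      map_zero' := by ring
      map_add' := fun x y => by linear_combination (x * y) * h2 }
  have hker : Nat.card f.ker = 2 := by
    have : (f.ker : Set k) = {0, 1} := by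
      ext x
      simp only [SetLike.mem_coe, AddMonoidHom.mem_ker, Set.mem_insert_iff, Set.mem_singleton_iff]
      change x ^ 2 + x = 0 ↔ _
      constructor
      · intro h
        have : x * (x - 1) = 0 := by linear_combination h - x * h2
        rcases mul_eq_zero.1 this with h | h
        · left; exact h
        · right; exact sub_eq_zero.1 h
      · rintro (rfl | rfl)
        · ring
        · linear_combination h2
    have h3 : Nat.card f.ker = Nat.card ({0, 1} : Set k) := by
      rw [← this]; rfl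
    rw [h3, Nat.card_coe_set_eq, Set.ncard_pair zero_ne_one]
  have hidx : f.range.index = 2 := by
    rw [AddSubgroup.index_range, hker]
  have := (AddSubgroup.add_mem_iff_of_index_two hidx (a := a) (b := b)).2 (iff_of_false
    (fun ⟨x, hx⟩ => ha x hx) (fun ⟨x, hx⟩ => hb x hx))
  exact this

theorem ASProp.of_quot {R : Type*} [CommRing R] (I : Ideal R) [I.IsMaximal] [Finite (R ⧸ I)]
    (h2 : (2 : R) ∈ I) (ι : R →+* C) (hlt : ∀ r, V (ι r) < 1 ↔ r ∈ I) (hle : ∀ r, V (ι r) ≤ 1)
    (hd : ∀ x : C, V x ≤ 1 → ∃ r : R, V (ι r - x) < 1) : ASProp V := by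
  intro ε ε' hε hε' hno hno'
  obtain ⟨r, hr⟩ := hd ε hε
  obtain ⟨r', hr'⟩ := hd ε' hε'
  let _ : Field (R ⧸ I) := Ideal.Quotient.field I
  have h20 : (2 : R ⧸ I) = 0 := by
    have := (Ideal.Quotient.eq_zero_iff_mem (I := I) (a := (2 : R))).2 h2
    rwa [map_ofNat] at this
  have main : ∀ (r : R) (ε : C), V (ι r - ε) < 1 →
      (∀ x, V x ≤ 1 → V (x ^ 2 + x - ε) = 1) →
      ∀ x : R ⧸ I, x ^ 2 + x ≠ Ideal.Quotient.mk I r := by
    intro r ε hr hno x hx
    obtain ⟨s, rfl⟩ := Ideal.Quotient.mk_surjective x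
    rw [← map_pow, ← map_add, Ideal.Quotient.eq] at hx
    have h3 := hno (ι s) (hle s)
    have h4 : V (ι (s ^ 2 + s - r)) < 1 := (hlt _).2 hx
    have e : ι s ^ 2 + ι s - ε = ι (s ^ 2 + s - r) + (ι r - ε) := by
      rw [map_sub, map_add, map_pow]; ring
    rw [e] at h3
    exact absurd h3 (ne_of_lt (lt_of_le_of_lt (V.map_add _ _) (max_lt h4 hr)))
  obtain ⟨x, hx⟩ := artinSchreier_finite h20 (main r ε hr hno) (main r' ε' hr' hno')
  obtain ⟨s, rfl⟩ := Ideal.Quotient.mk_surjective x
  rw [← map_pow, ← map_add, ← map_add, Ideal.Quotient.eq] at hx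
  refine ⟨ι s, hle s, ?_⟩
  have h4 : V (ι (s ^ 2 + s - (r + r'))) < 1 := (hlt _).2 hx
  have e : ι s ^ 2 + ι s - (ε + ε') = ι (s ^ 2 + s - (r + r')) + ((ι r - ε) + (ι r' - ε')) := by
    rw [map_sub, map_add, map_pow, map_add]; ring
  rw [e]
  exact lt_of_le_of_lt (V.map_add _ _) (max_lt h4
    (lt_of_le_of_lt (V.map_add _ _) (max_lt hr hr')))

end dense

section completion

variable {F : Type*} [Field F] [NumberField F] (v : HeightOneSpectrum (𝓞 F))

/-- the valuation of the completion -/
noncomputable abbrev VC : Valuation (v.adicCompletion F) ℤᵐ⁰ := Valued.v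

theorem VC_algebraMap (k : F) : VC v (algebraMap F (v.adicCompletion F) k) = v.valuation F k :=
  HeightOneSpectrum.valuedAdicCompletion_eq_valuation' (v := v) k

theorem exists_close (x : v.adicCompletion F) (γ : ℤᵐ⁰) (hγ : γ ≠ 0) :
    ∃ k : F, VC v (algebraMap F (v.adicCompletion F) k - x) < γ := by
  obtain ⟨g, hg⟩ := v.valuedAdicCompletion_surjective F γ
  have hdense : DenseRange (algebraMap F (v.adicCompletion F)) :=
    HeightOneSpectrum.denseRange_algebraMap F v
  have hne : (VC v).restrict g ≠ 0 := by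
    intro h
    have h2 := (Valuation.restrict_le_iff (v := VC v) (x := g) (y := 0)).1 (by
      rw [h]; exact zero_le)
    rw [map_zero] at h2
    have h3 : VC v g = γ := hg
    rw [h3, le_zero_iff] at h2
    exact hγ h2
  have hmem : {y : v.adicCompletion F | VC v (y - x) < γ} ∈ nhds x := by
    rw [Valued.mem_nhds]
    refine ⟨Units.mk0 _ hne, fun y hy => ?_⟩
    have hy' : (VC v).restrict (y - x) < (VC v).restrict g := hy
    have h3 : VC v g = γ := hg
    have h4 : VC v (y - x) < VC v g := (Valuation.restrict_lt_iff (VC v)).1 hy'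
    rw [h3] at h4
    exact h4
  obtain ⟨k, hk⟩ := hdense.exists_mem_open isOpen_interior ⟨x, mem_interior_iff_mem_nhds.2 hmem⟩
  exact ⟨k, interior_subset (s := {y : v.adicCompletion F | VC v (y - x) < γ}) hk⟩

theorem locSq_of_completion {z : F}
    (h : LocSq (VC v) (algebraMap F (v.adicCompletion F) z)) : LocSq (v.valuation F) z :=
  LocSq.of_dense _ _ _ (VC_algebraMap v) (exists_close v) h

/-- approximation of integral elements of the completion by integers. -/
theorem exists_int_close (x : v.adicCompletion F) (hx : VC v x ≤ 1) :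
    ∃ r : 𝓞 F, VC v ((algebraMap F (v.adicCompletion F)).comp (algebraMap (𝓞 F) F) r - x) < 1 := by
  obtain ⟨k, hk⟩ := exists_close v x 1 one_ne_zero
  have hk1 : v.valuation F k ≤ 1 := by
    rw [← VC_algebraMap]
    have : algebraMap F (v.adicCompletion F) k = (algebraMap F (v.adicCompletion F) k - x) + x := by
      ring
    rw [this]
    exact ((VC v).map_add _ _).trans (max_le hk.le hx)
  obtain ⟨r, hr⟩ := HeightOneSpectrum.exists_valuation_sub_lt_of_integer v hk1 1
  refine ⟨r, ?_⟩
  have e : (algebraMap F (v.adicCompletion F)).comp (algebraMap (𝓞 F) F) r - x =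
      algebraMap F (v.adicCompletion F) (algebraMap (𝓞 F) F r - k) +
      (algebraMap F (v.adicCompletion F) k - x) := by
    rw [map_sub, RingHom.comp_apply]; ring
  rw [e]
  refine lt_of_le_of_lt ((VC v).map_add _ _) (max_lt ?_ hk)
  rw [VC_algebraMap]
  exact hr

theorem asProp_completion (h2 : (2 : 𝓞 F) ∈ v.asIdeal) : ASProp (VC v) := by
  have : v.asIdeal.IsMaximal := v.isMaximal
  have hfin : Finite (𝓞 F ⧸ v.asIdeal) := Ring.HasFiniteQuotients.finiteQuotient v.ne_bot
  refine ASProp.of_quot (VC v) v.asIdeal h2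
    ((algebraMap F (v.adicCompletion F)).comp (algebraMap (𝓞 F) F)) ?_ ?_ (exists_int_close v)
  · intro r
    rw [RingHom.comp_apply, VC_algebraMap, HeightOneSpectrum.valuation_lt_one_iff_mem]
  · intro r
    rw [RingHom.comp_apply, VC_algebraMap]
    exact HeightOneSpectrum.valuation_le_one v r

end completion

end Pool.Agent.Work.MP_787500_nt
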