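import Mathlib
import Pool.Agent.Work.MP_787500_nt.H10_LocSq

/-!
Auxiliary facts on adic valuations of number fields.
-/

namespace Pool.Agent.Work.MP_787500_nt

open WithZero IsDedekindDomain NumberField

theorem eq_of_forall_le_exp {a b : ℤᵐ⁰} (ha : a ≤ 1) (hb : b ≤ 1)
    (h : ∀ n : ℕ, a ≤ exp (-(n : ℤ)) ↔ b ≤ exp (-(n : ℤ))) : a = b := by
  have aux : ∀ {a b : ℤᵐ⁰}, a ≤ 1 → b ≤ 1 → (∀ n : ℕ, a ≤ exp (-(n : ℤ)) ↔ b ≤ exp (-(n : ℤ))) →
      a ≤ b := by
    intro a b ha hb h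
    by_cases hb0 : b = 0
    · subst hb0
      by_contra hcon
      rw [le_zero_iff] at hcon
      obtain ⟨m, rfl⟩ : ∃ m : ℤ, a = exp m := ⟨_, (exp_log hcon).symm⟩
      have := (h (m.natAbs + 1)).mpr zero_le
      rw [exp_le_exp] at this
      simp only [Nat.cast_add, Nat.cast_one] at this
      omega
    · obtain ⟨m, rfl⟩ : ∃ m : ℤ, b = exp m := ⟨_, (exp_log hb0).symm⟩
      rw [← exp_zero, exp_le_exp] at hb
      have := (h m.natAbs).mpr (by rw [exp_le_exp]; omega)
      refine this.trans ?_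
      rw [exp_le_exp]; omega
  exact le_antisymm (aux ha hb h) (aux hb ha (fun n => (h n).symm))

theorem intValuation_comap {R S : Type*} [CommRing R] [IsDedekindDomain R] [CommRing S]
    [IsDedekindDomain S] (e : R ≃+* S) (v : HeightOneSpectrum S) (r : R) :
    (v.comap (e : R →+* S) (show Function.Surjective (e : R →+* S) from e.surjective)).intValuation r
      = v.intValuation (e r) := by
  refine eq_of_forall_le_exp (HeightOneSpectrum.intValuation_le_one _ _)
    (HeightOneSpectrum.intValuation_le_one _ _) (fun n => ?_)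
  rw [HeightOneSpectrum.intValuation_le_pow_iff_mem, HeightOneSpectrum.intValuation_le_pow_iff_mem]
  have h1 : (Ideal.comap (e : R →+* S) v.asIdeal) ^ n =
      Ideal.comap (e : R →+* S) (v.asIdeal ^ n) := by
    have h2 : ∀ I : Ideal S, Ideal.comap (e : R →+* S) I = Ideal.map (e.symm : S →+* R) I := by
      intro I
      exact (Ideal.map_symm e).symm
    rw [h2, h2, Ideal.map_pow]
  change r ∈ (Ideal.comap (e : R →+* S) v.asIdeal) ^ n ↔ _
  rw [h1, Ideal.mem_comap]
  rfl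

variable {L : Type*} [Field L]

/-- conjugate of a prime by a field automorphism. -/
noncomputable def conjPrime (σ : L ≃+* L) (Q : HeightOneSpectrum (𝓞 L)) : HeightOneSpectrum (𝓞 L) :=
  Q.comap ((RingOfIntegers.mapRingEquiv σ : 𝓞 L ≃+* 𝓞 L) : 𝓞 L →+* 𝓞 L)
    (show Function.Surjective ((RingOfIntegers.mapRingEquiv σ : 𝓞 L ≃+* 𝓞 L) : 𝓞 L →+* 𝓞 L) from
      (RingOfIntegers.mapRingEquiv σ).surjective)

theorem mem_conjPrime (σ : L ≃+* L) (Q : HeightOneSpectrum (𝓞 L)) (x : 𝓞 L) :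
    x ∈ (conjPrime σ Q).asIdeal ↔ RingOfIntegers.mapRingEquiv σ x ∈ Q.asIdeal := Iff.rfl

theorem two_mem_conjPrime (σ : L ≃+* L) (Q : HeightOneSpectrum (𝓞 L)) :
    (2 : 𝓞 L) ∈ (conjPrime σ Q).asIdeal ↔ (2 : 𝓞 L) ∈ Q.asIdeal := by
  rw [mem_conjPrime]
  have : (RingOfIntegers.mapRingEquiv σ) (2 : 𝓞 L) = 2 := map_ofNat _ 2
  rw [this]

theorem valuation_conjPrime [NumberField L] (σ : L ≃+* L) (Q : HeightOneSpectrum (𝓞 L)) (x : L) :
    (conjPrime σ Q).valuation L x = Q.valuation L (σ x) := by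
  obtain ⟨a, b, hb, rfl⟩ := IsFractionRing.div_surjective (A := 𝓞 L) x
  have hi : ∀ r : 𝓞 L, (conjPrime σ Q).valuation L (algebraMap (𝓞 L) L r) =
      Q.valuation L (σ (algebraMap (𝓞 L) L r)) := by
    intro r
    have h1 : σ (algebraMap (𝓞 L) L r) = algebraMap (𝓞 L) L (RingOfIntegers.mapRingEquiv σ r) := rfl
    rw [h1, HeightOneSpectrum.valuation_of_algebraMap, HeightOneSpectrum.valuation_of_algebraMap]
    exact intValuation_comap _ _ _
  rw [map_div₀, map_div₀, map_div₀, hi, hi]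

variable [NumberField L] {K : Type*} [Field K] [NumberField K] [Algebra K L]

/-- the prime below -/
noncomputable abbrev below (K : Type*) [Field K] [NumberField K] [Algebra K L]
    (Q : HeightOneSpectrum (𝓞 L)) : HeightOneSpectrum (𝓞 K) := Q.under (𝓞 K)

theorem exists_valuation_below (Q : HeightOneSpectrum (𝓞 L)) :
    ∃ e : ℕ, e ≠ 0 ∧ ∀ x : K, (below K Q).valuation K x ^ e = Q.valuation L (algebraMap K L x) := by
  have : Q.asIdeal.LiesOver (below K Q).asIdeal := ⟨rfl⟩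
  refine ⟨(below K Q).asIdeal.ramificationIdx' Q.asIdeal, ?_, fun x => ?_⟩
  · exact Ideal.IsDedekindDomain.ramificationIdx'_ne_zero_of_liesOver _ (below K Q).ne_bot
  · exact HeightOneSpectrum.valuation_liesOver L (below K Q) Q x

end Pool.Agent.Work.MP_787500_nt
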