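import Mathlib
import Pool.Agent.Work.MP_787500_nt.H10_Val

/-!
The local-global square property is inherited by quadratic extensions unramified outside 2.
-/

namespace Pool.Agent.Work.MP_787500_nt

open WithZero IsDedekindDomain NumberField

variable {K L : Type*} [Field K] [NumberField K] [Field L] [NumberField L] [Algebra K L]

/-- even valuation at all primes not above 2 -/
def EvenOff2 (z : L) : Prop :=
  ∀ Q : HeightOneSpectrum (𝓞 L), (2 : 𝓞 L) ∉ Q.asIdeal → IsSquare (Q.valuation L z)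

/-- local squares (at one dyadic place) which are even away from 2 are squares, for the
intermediate field `M`, valuations being taken in `L`. -/
def PP (M : IntermediateField K L) : Prop :=
  ∀ P : HeightOneSpectrum (𝓞 L), (2 : 𝓞 L) ∈ P.asIdeal → ∀ z ∈ M, z ≠ 0 → EvenOff2 z →
    (∀ γ : ℤᵐ⁰, γ ≠ 0 → ∃ y ∈ M, P.valuation L (z - y ^ 2) < γ) → ∃ y ∈ M, z = y ^ 2

theorem EvenOff2.mul {z w : L} (hz : EvenOff2 z) (hw : EvenOff2 w) : EvenOff2 (z * w) := by
  intro Q hQ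
  rw [map_mul]
  exact (hz Q hQ).mul (hw Q hQ)

theorem EvenOff2.sq (z : L) : EvenOff2 (z ^ 2) := by
  intro Q _
  rw [map_pow]
  exact IsSquare.sq _

theorem EvenOff2.conj {z : L} (hz : EvenOff2 z) (σ : L ≃+* L) : EvenOff2 (σ z) := by
  intro Q hQ
  rw [← valuation_conjPrime]
  exact hz _ (fun h => hQ ((two_mem_conjPrime σ Q).mp h))

theorem EvenOff2.of_mul_sq {z s : L} (hs : s ≠ 0) (h : EvenOff2 (z * s ^ 2)) : EvenOff2 z := by
  have h2 := h.mul (EvenOff2.sq s⁻¹)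
  rwa [show z * s ^ 2 * s⁻¹ ^ 2 = z by field_simp] at h2

theorem exists_exp_neg_lt {γ : ℤᵐ⁰} (hγ : γ ≠ 0) : ∃ N : ℕ, exp (-(N : ℤ)) < γ := by
  obtain ⟨m, rfl⟩ : ∃ m : ℤ, γ = exp m := ⟨_, (exp_log hγ).symm⟩
  exact ⟨m.natAbs + 1, by rw [exp_lt_exp, Nat.cast_add, Nat.cast_one]; omega⟩

theorem val_two_le_one (P : HeightOneSpectrum (𝓞 L)) : P.valuation L (2 : L) ≤ 1 := by
  have : P.valuation L (algebraMap (𝓞 L) L 2) ≤ 1 :=
    HeightOneSpectrum.valuation_le_one (K := L) P (2 : 𝓞 L)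
  rwa [map_ofNat] at this

theorem valuation_le_of_mem_pow {F : Type*} [Field F] [NumberField F]
    (p : HeightOneSpectrum (𝓞 F)) {N : ℕ} {a : 𝓞 F} (ha : a ∈ p.asIdeal ^ N) :
    p.valuation F (algebraMap (𝓞 F) F a) ≤ exp (-(N : ℤ)) := by
  rw [HeightOneSpectrum.valuation_of_algebraMap]
  exact (HeightOneSpectrum.intValuation_le_pow_iff_mem p a N).mpr ha

theorem exp_pow_le {N e : ℕ} (he : e ≠ 0) {x : ℤᵐ⁰} (hx : x ≤ exp (-(N : ℤ))) :
    x ^ e ≤ exp (-(N : ℤ)) := by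
  have h1 : x ≤ 1 := hx.trans (by rw [← exp_zero, exp_le_exp]; omega)
  calc x ^ e ≤ x ^ 1 := pow_le_pow_right_of_le_one' h1 (by omega)
    _ ≤ _ := by rwa [pow_one]

/-- closeness to zero is preserved by `σ`, when the prime does not split. -/
theorem close_of_below_eq {M : IntermediateField K L} (σ : L ≃+* L)
    {P : HeightOneSpectrum (𝓞 L)} (h : below M P = below M (conjPrime σ P)) :
    ∀ γ : ℤᵐ⁰, γ ≠ 0 → ∃ γ' : ℤᵐ⁰, γ' ≠ 0 ∧ ∀ x ∈ M, P.valuation L x < γ' →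
      P.valuation L (σ x) < γ := by
  intro γ hγ
  obtain ⟨e1, he1, h1⟩ := exists_valuation_below (K := M) P
  obtain ⟨e2, he2, h2⟩ := exists_valuation_below (K := M) (conjPrime σ P)
  have hm : min γ 1 ≠ 0 := by
    rcases min_choice γ 1 with h | h <;> rw [h]
    · exact hγ
    · exact one_ne_zero
  refine ⟨(min γ 1) ^ e1, pow_ne_zero _ hm, fun x hx hlt => ?_⟩
  have h1x := h1 ⟨x, hx⟩
  have h2x := h2 ⟨x, hx⟩
  rw [← h] at h2x
  have ex : algebraMap M L ⟨x, hx⟩ = x := rfl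
  rw [ex] at h1x h2x
  rw [valuation_conjPrime] at h2x
  rw [← h1x] at hlt
  have hlt' : (below M P).valuation M ⟨x, hx⟩ < min γ 1 := lt_of_pow_lt_pow_left₀ _ zero_le hlt
  rw [← h2x]
  calc (below M P).valuation M ⟨x, hx⟩ ^ e2 ≤ (below M P).valuation M ⟨x, hx⟩ ^ 1 :=
        pow_le_pow_right_of_le_one' (hlt'.le.trans (min_le_right _ _)) (by omega)
    _ < γ := by rw [pow_one]; exact lt_of_lt_of_le hlt' (min_le_left _ _)

/-- weak approximation when the prime splits. -/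
theorem exists_idempotent_approx {M : IntermediateField K L} (σ : L ≃+* L)
    {P : HeightOneSpectrum (𝓞 L)} (h : below M P ≠ below M (conjPrime σ P)) (N : ℕ) :
    ∃ b ∈ M, P.valuation L (b - 1) ≤ exp (-(N : ℤ)) ∧ P.valuation L (σ b) ≤ exp (-(N : ℤ)) := by
  obtain ⟨e1, he1, h1⟩ := exists_valuation_below (K := M) P
  obtain ⟨e2, he2, h2⟩ := exists_valuation_below (K := M) (conjPrime σ P)
  have hcop := HeightOneSpectrum.isCoprime_pow_of_ne _ _ h N N
  rw [Ideal.isCoprime_iff_exists] at hcop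
  obtain ⟨a, ha, b, hb, hab⟩ := hcop
  refine ⟨algebraMap M L (algebraMap (𝓞 M) M b), (algebraMap (𝓞 M) M b).2, ?_, ?_⟩
  · have e : algebraMap M L (algebraMap (𝓞 M) M b) - 1 =
        - algebraMap M L (algebraMap (𝓞 M) M a) := by
      have : algebraMap M L (algebraMap (𝓞 M) M a) + algebraMap M L (algebraMap (𝓞 M) M b) = 1 := by
        rw [← map_add, ← map_add, hab, map_one, map_one]
      linear_combination this
    rw [e, Valuation.map_neg, ← h1]
    exact exp_pow_le he1 (valuation_le_of_mem_pow _ ha)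
  · rw [← valuation_conjPrime, ← h2]
    exact exp_pow_le he2 (valuation_le_of_mem_pow _ hb)

theorem mul_lt_of_lt_div {a b c : ℤᵐ⁰} (hb : b ≠ 0) (h : a < c * b⁻¹) : b * a < c := by
  have := (mul_lt_mul_iff_right₀ (zero_lt_iff.mpr hb)).mpr h
  rwa [mul_comm c, mul_inv_cancel_left₀ hb] at this

theorem step {M0 M : IntermediateField K L} (h0 : PP M0) (σ : L ≃+* L)
    (hM : ∀ x ∈ M, σ x ∈ M) (h2 : ∀ x ∈ M, σ (σ x) = x) (hle : M0 ≤ M)
    (hfix : ∀ x ∈ M, σ x = x → x ∈ M0) (hfix' : ∀ x ∈ M0, σ x = x) : PP M := by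
  by_cases hA : ∀ x ∈ M, σ x = x
  · have : M = M0 := le_antisymm (fun x hx => hfix x hx (hA x hx)) hle
    rw [this]; exact h0
  push Not at hA
  obtain ⟨x0, hx0, hx0'⟩ := hA
  intro P hP z hz hz0 hze hzl
  set V := P.valuation L with hV
  set δ := x0 - σ x0 with hδ
  have hδM : δ ∈ M := sub_mem hx0 (hM _ hx0)
  have hδ0 : δ ≠ 0 := fun h => hx0' (sub_eq_zero.mp h).symm
  have hσδ : σ δ = -δ := by
    rw [hδ, map_sub, h2 _ hx0]; ring
  have h2L : (2 : L) ≠ 0 := two_ne_zero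
  have hdM0 : δ ^ 2 ∈ M0 := hfix _ (pow_mem hδM 2) (by rw [map_pow, hσδ]; ring)
  have hδnot : δ ∉ M0 := by
    intro h
    have := hfix' _ h
    rw [hσδ] at this
    have h3 : (2 : L) * δ = 0 := by linear_combination -this
    exact (mul_ne_zero h2L hδ0) h3
  -- closeness
  have hclose : ∀ γ : ℤᵐ⁰, γ ≠ 0 → ∃ γ' : ℤᵐ⁰, γ' ≠ 0 ∧ ∀ x ∈ M, V x < γ' → V (σ x) < γ := by
    by_cases hb : below M P = below M (conjPrime σ P)
    · exact close_of_below_eq σ hb
    · exfalso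
      obtain ⟨y, hy, hy2⟩ := h0 P hP (δ ^ 2) hdM0 (pow_ne_zero _ hδ0) (EvenOff2.sq δ) (by
        intro γ hγ
        have hVδ : V δ ≠ 0 := (V.ne_zero_iff).mpr hδ0
        obtain ⟨N, hN⟩ := exists_exp_neg_lt (γ := γ * (V δ * V δ)⁻¹)
          (mul_ne_zero hγ (inv_ne_zero (mul_ne_zero hVδ hVδ)))
        obtain ⟨b, hbM, hb1, hb2⟩ := exists_idempotent_approx σ hb N
        refine ⟨b * δ + σ (b * δ), ?_, ?_⟩
        · refine hfix _ (add_mem (mul_mem hbM hδM) (hM _ (mul_mem hbM hδM))) ?_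
          rw [map_add, h2 _ (mul_mem hbM hδM), add_comm]
        · have hy : b * δ + σ (b * δ) = δ + ((b - 1) - σ b) * δ := by
            rw [map_mul, hσδ]; ring
          rw [hy]
          have hsm : V ((b - 1) - σ b) ≤ exp (-(N : ℤ)) :=
            (V.map_sub _ _).trans (max_le hb1 hb2)
          have hsm1 : V ((b - 1) - σ b) ≤ 1 :=
            hsm.trans (by rw [← exp_zero, exp_le_exp]; omega)
          have e : δ ^ 2 - (δ + ((b - 1) - σ b) * δ) ^ 2 =
              -(((b - 1) - σ b) * (2 + ((b - 1) - σ b)) * (δ * δ)) := by ring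
          rw [e, Valuation.map_neg, map_mul, map_mul, map_mul V δ δ, mul_comm]
          have h21 : V (2 + ((b - 1) - σ b)) ≤ 1 := by
            exact (V.map_add _ _).trans (max_le (val_two_le_one P) hsm1)
          have h3 : V ((b - 1) - σ b) * V (2 + ((b - 1) - σ b)) < γ * (V δ * V δ)⁻¹ := by
            calc V ((b - 1) - σ b) * V (2 + ((b - 1) - σ b)) ≤ exp (-(N : ℤ)) * 1 :=
                  mul_le_mul' hsm h21
              _ < γ * (V δ * V δ)⁻¹ := by rwa [mul_one]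
          exact mul_lt_of_lt_div (mul_ne_zero hVδ hVδ) h3)
      have : (δ - y) * (δ + y) = 0 := by linear_combination hy2
      rcases mul_eq_zero.mp this with h | h
      · exact hδnot (by rw [sub_eq_zero.mp h]; exact hy)
      · exact hδnot (by rw [eq_neg_of_add_eq_zero_left h]; exact neg_mem hy)
  -- the norm of z is a square in M0
  obtain ⟨n, hn, hn2⟩ := h0 P hP (z * σ z) (hfix _ (mul_mem hz (hM _ hz)) (by
      rw [map_mul, h2 _ hz, mul_comm])) (mul_ne_zero hz0 ((map_ne_zero σ).mpr hz0))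
    (hze.mul (hze.conj σ)) (by
      intro γ hγ
      obtain ⟨γ1, hγ1, hc1⟩ := exists_lt_of_ne_zero (a := V (σ z)) hγ
      obtain ⟨γ2, hγ2, hc2⟩ := exists_lt_of_ne_zero (a := max (V z) 1) hγ
      obtain ⟨γ3, hγ3, hc3⟩ := hclose γ2 hγ2
      obtain ⟨y, hy, hy2⟩ := hzl (min (min γ1 γ3) 1) (by
        rcases min_choice (min γ1 γ3) 1 with h | h <;> rw [h]
        · rcases min_choice γ1 γ3 with h | h <;> rw [h] <;> assumption
        · exact one_ne_zero)
      have hy1 : V (z - y ^ 2) < γ1 := lt_of_lt_of_le hy2 ((min_le_left _ _).trans (min_le_left _ _))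
      have hy3 : V (z - y ^ 2) < γ3 := lt_of_lt_of_le hy2 ((min_le_left _ _).trans (min_le_right _ _))
      have hy4 : V (z - y ^ 2) < 1 := lt_of_lt_of_le hy2 (min_le_right _ _)
      have hMz : z - y ^ 2 ∈ M := sub_mem hz (pow_mem hy 2)
      have hσ := hc3 _ hMz hy3
      have hVy : V (y ^ 2) ≤ max (V z) 1 := by
        have : y ^ 2 = z - (z - y ^ 2) := by ring
        rw [this]
        exact (V.map_sub _ _).trans (max_le_max le_rfl hy4.le)
      refine ⟨y * σ y, hfix _ (mul_mem hy (hM _ hy)) (by rw [map_mul, h2 _ hy, mul_comm]), ?_⟩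
      have e : z * σ z - (y * σ y) ^ 2 = σ z * (z - y ^ 2) + y ^ 2 * σ (z - y ^ 2) := by
        rw [map_sub, map_pow]; ring
      rw [e]
      refine lt_of_le_of_lt (V.map_add _ _) (max_lt ?_ ?_)
      · rw [map_mul]; exact hc1 _ hy1
      · rw [map_mul]
        exact lt_of_le_of_lt (mul_le_mul_left hVy _) (hc2 _ hσ))
  -- z is t times a square
  obtain ⟨t, ht, s, hs, hs0, hts⟩ : ∃ t ∈ M0, ∃ s ∈ M, s ≠ 0 ∧ z = t * s ^ 2 := by
    by_cases hzn : z + n = 0
    · refine ⟨z, ?_, 1, one_mem _, one_ne_zero, by ring⟩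
      rw [eq_neg_of_add_eq_zero_left hzn]
      exact neg_mem hn
    · have key : (z + n) ^ 2 = z * (z + σ z + 2 * n) := by linear_combination -hn2
      have ht0 : z + σ z + 2 * n ≠ 0 := by
        intro h
        rw [h, mul_zero] at key
        exact (pow_ne_zero 2 hzn) key
      refine ⟨z + σ z + 2 * n, ?_, (z + n) / (z + σ z + 2 * n), ?_, div_ne_zero hzn ht0, ?_⟩
      · have h2M : (2 : L) ∈ M := ofNat_mem M 2
        refine hfix _ (add_mem (add_mem hz (hM _ hz)) (mul_mem h2M (hle hn))) ?_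
        rw [map_add, map_add, map_mul, h2 _ hz, hfix' _ hn, map_ofNat]; ring
      · have h2M : (2 : L) ∈ M := ofNat_mem M 2
        exact div_mem (add_mem hz (hle hn))
          (add_mem (add_mem hz (hM _ hz)) (mul_mem h2M (hle hn)))
      · field_simp
        linear_combination -key
  have ht0 : t ≠ 0 := by
    rintro rfl
    exact hz0 (by rw [hts]; ring)
  have hte : EvenOff2 t := by
    refine EvenOff2.of_mul_sq hs0 ?_
    rwa [← hts]
  have htl : ∀ γ : ℤᵐ⁰, γ ≠ 0 → ∃ y ∈ M, V (t - y ^ 2) < γ := by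
    intro γ hγ
    have hVs : V (s ^ 2) ≠ 0 := (V.ne_zero_iff).mpr (pow_ne_zero 2 hs0)
    obtain ⟨y, hy, hy2⟩ := hzl (V (s ^ 2) * γ) (mul_ne_zero hVs hγ)
    refine ⟨y / s, div_mem hy hs, ?_⟩
    have e : z - y ^ 2 = s ^ 2 * (t - (y / s) ^ 2) := by
      rw [hts]; field_simp
    rw [e, map_mul] at hy2
    exact (mul_lt_mul_iff_right₀ (zero_lt_iff.mpr hVs)).mp hy2
  -- dichotomy
  have hdich : ∀ γ : ℤᵐ⁰, γ ≠ 0 → (∃ a ∈ M0, V (t - a ^ 2) < γ) ∨
      (∃ b ∈ M0, V (t - b ^ 2 * δ ^ 2) < γ) := by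
    intro γ hγ
    have hV4 : V 4 ≠ 0 := (V.ne_zero_iff).mpr (by norm_num)
    have hV2 : V 2 ≤ 1 := val_two_le_one P
    have hV41 : V 4 ≤ 1 := by
      rw [show (4 : L) = 2 * 2 by norm_num, map_mul]
      exact mul_le_one' hV2 hV2
    obtain ⟨γ3, hγ3, hc3⟩ := hclose (V 4 * γ) (mul_ne_zero hV4 hγ)
    obtain ⟨y, hy, hy2⟩ := htl (min (V 4 * γ) γ3) (by
      rcases min_choice (V 4 * γ) γ3 with h | h <;> rw [h]
      · exact mul_ne_zero hV4 hγ
      · exact hγ3)
    have hy3 : V (t - y ^ 2) < V 4 * γ := lt_of_lt_of_le hy2 (min_le_left _ _)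
    have hy4 : V (σ (t - y ^ 2)) < V 4 * γ :=
      hc3 _ (sub_mem (hle ht) (pow_mem hy 2)) (lt_of_lt_of_le hy2 (min_le_right _ _))
    rw [map_sub, map_pow, hfix' _ ht] at hy4
    have h2M : (2 : L) ∈ M := ofNat_mem M 2
    set a := (y + σ y) / 2 with ha
    set b := (y - σ y) / (2 * δ) with hb
    have haM0 : a ∈ M0 := hfix _ (div_mem (add_mem hy (hM _ hy)) h2M) (by
      rw [ha, map_div₀, map_add, h2 _ hy, map_ofNat, add_comm])
    have hbM0 : b ∈ M0 := hfix _ (div_mem (sub_mem hy (hM _ hy)) (mul_mem h2M hδM)) (by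
      rw [hb, map_div₀, map_sub, h2 _ hy, map_mul, map_ofNat, hσδ]
      field_simp
      ring)
    have hyab : y = a + b * δ := by rw [ha, hb]; field_simp; ring
    have hσab : σ y = a - b * δ := by rw [ha, hb]; field_simp; ring
    have h4 : V (4 * (a * (b * δ))) < V 4 * γ := by
      have e : 4 * (a * (b * δ)) = (t - (σ y) ^ 2) - (t - y ^ 2) := by
        rw [hσab, hyab]; ring
      rw [e]
      exact lt_of_le_of_lt (V.map_sub _ _) (max_lt hy4 hy3)
    have h5 : V (a * (b * δ)) < γ := by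
      rw [map_mul V 4] at h4
      exact (mul_lt_mul_iff_right₀ (zero_lt_iff.mpr hV4)).mp h4
    have h6 : V (t - y ^ 2) < γ := lt_of_lt_of_le hy3 (by
      calc V 4 * γ ≤ 1 * γ := mul_le_mul_left hV41 _
        _ = γ := one_mul _)
    have h7 : V (2 * (a * (b * δ))) < γ := by
      rw [map_mul]
      calc V 2 * V (a * (b * δ)) ≤ 1 * V (a * (b * δ)) := mul_le_mul_left hV2 _
        _ < γ := by rwa [one_mul]
    rcases lt_or_ge (V (a ^ 2)) γ with h8 | h8
    · right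
      refine ⟨b, hbM0, ?_⟩
      have e : t - b ^ 2 * δ ^ 2 = (t - y ^ 2) + 2 * (a * (b * δ)) + a ^ 2 := by
        rw [hyab]; ring
      rw [e]
      exact lt_of_le_of_lt (V.map_add _ _) (max_lt (lt_of_le_of_lt (V.map_add _ _)
        (max_lt h6 h7)) h8)
    · left
      refine ⟨a, haM0, ?_⟩
      have h9 : V (b ^ 2 * δ ^ 2) < γ := by
        by_contra h10
        rw [not_lt] at h10
        have h11 : γ * γ ≤ V (a ^ 2) * V (b ^ 2 * δ ^ 2) := mul_le_mul' h8 h10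
        rw [← map_mul, show a ^ 2 * (b ^ 2 * δ ^ 2) = (a * (b * δ)) * (a * (b * δ)) by ring,
          map_mul] at h11
        exact absurd h11 (not_le.mpr (mul_lt_mul'' h5 h5 zero_le zero_le))
      have e : t - a ^ 2 = (t - y ^ 2) + 2 * (a * (b * δ)) + b ^ 2 * δ ^ 2 := by
        rw [hyab]; ring
      rw [e]
      exact lt_of_le_of_lt (V.map_add _ _) (max_lt (lt_of_le_of_lt (V.map_add _ _)
        (max_lt h6 h7)) h9)
  by_cases hfirst : ∀ γ : ℤᵐ⁰, γ ≠ 0 → ∃ a ∈ M0, V (t - a ^ 2) < γ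
  · obtain ⟨y, hy, hy2⟩ := h0 P hP t ht ht0 hte hfirst
    exact ⟨y * s, mul_mem (hle hy) hs, by rw [hts, hy2]; ring⟩
  · push Not at hfirst
    obtain ⟨γ0, hγ0, hno⟩ := hfirst
    have hsecond : ∀ γ : ℤᵐ⁰, γ ≠ 0 → ∃ b ∈ M0, V (t - b ^ 2 * δ ^ 2) < γ := by
      intro γ hγ
      rcases hdich (min γ γ0) (by rcases min_choice γ γ0 with h | h <;> rw [h] <;> assumption) with
        ⟨a, ha, h⟩ | ⟨b, hb, h⟩
      · exact absurd (lt_of_lt_of_le h (min_le_right _ _)) (not_lt.mpr (hno a ha))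
      · exact ⟨b, hb, lt_of_lt_of_le h (min_le_left _ _)⟩
    obtain ⟨y, hy, hy2⟩ := h0 P hP (t * δ ^ 2) (mul_mem ht hdM0)
      (mul_ne_zero ht0 (pow_ne_zero _ hδ0)) (hte.mul (EvenOff2.sq δ)) (by
        intro γ hγ
        obtain ⟨γ1, hγ1, hc1⟩ := exists_lt_of_ne_zero (a := V (δ ^ 2)) hγ
        obtain ⟨b, hb, hb2⟩ := hsecond γ1 hγ1
        refine ⟨b * δ ^ 2, mul_mem hb hdM0, ?_⟩
        rw [show t * δ ^ 2 - (b * δ ^ 2) ^ 2 = δ ^ 2 * (t - b ^ 2 * δ ^ 2) by ring, map_mul]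
        exact hc1 _ hb2)
    refine ⟨y / δ * s, mul_mem (div_mem (hle hy) hδM) hs, ?_⟩
    rw [hts]
    have : t = y ^ 2 / δ ^ 2 := by
      field_simp
      exact hy2
    rw [this]
    field_simp

end Pool.Agent.Work.MP_787500_nt
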