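import Mathlib
import Pool.Agent.Work.MP_787500_nt.H10_Step

/-!
The local-global square property climbs a 2-power Galois extension.
-/

set_option autoImplicit false
set_option linter.unusedSectionVars false

namespace Pool.Agent.Work.MP_787500_nt

open WithZero IsDedekindDomain NumberField IntermediateField

variable {K L : Type*} [Field K] [NumberField K] [Field L] [NumberField L] [Algebra K L]

theorem mul_mem_iff_of_card {G : Type*} [Group G] [Finite G] {H H' : Subgroup G} (hle : H ≤ H')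
    {n : ℕ} (h1 : Nat.card H = 2 ^ n) (h2 : Nat.card H' = 2 ^ (n + 1)) {a b : G} (ha : a ∈ H')
    (hb : b ∈ H') : a * b ∈ H ↔ (a ∈ H ↔ b ∈ H) := by
  have hidx : (H.subgroupOf H').index = 2 := by
    have h3 := (H.subgroupOf H').card_mul_index
    rw [h2, Nat.card_congr (Subgroup.subgroupOfEquivOfLe hle).toEquiv, h1, pow_succ] at h3
    exact Nat.eq_of_mul_eq_mul_left (by positivity) h3
  have := Subgroup.mul_mem_iff_of_index_two hidx (a := ⟨a, ha⟩) (b := ⟨b, hb⟩)
  simpa [Subgroup.mem_subgroupOf] using this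

theorem pp_fixedField [IsGalois K L] {m : ℕ} (hm : Module.finrank K L = 2 ^ m)
    (h0 : PP (⊥ : IntermediateField K L)) (j : ℕ) : ∀ (n : ℕ) (H : Subgroup (L ≃ₐ[K] L)),
    n + j = m → Nat.card H = 2 ^ n → PP (fixedField H) := by
  have hcard : Nat.card (L ≃ₐ[K] L) = 2 ^ m := by
    rw [IsGalois.card_aut_eq_finrank, hm]
  induction j with
  | zero =>
    intro n H hn hH
    rw [add_zero] at hn
    subst hn
    have : H = ⊤ := by
      rw [← Subgroup.card_eq_iff_eq_top, hH, hcard]
    rw [this]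
    have h1 : fixedField (⊤ : Subgroup (L ≃ₐ[K] L)) = ⊥ := by
      rw [← IsGalois.fixedField_top]
    rw [h1]
    exact h0
  | succ j ih =>
    intro n H hn hH
    have : Fact (Nat.Prime 2) := ⟨Nat.prime_two⟩
    obtain ⟨H', hH', hle⟩ := Sylow.exists_subgroup_card_pow_succ (p := 2) (n := n) (H := H) (by
      rw [hcard]
      exact pow_dvd_pow 2 (by omega)) hH
    have hPP := ih (n + 1) H' (by omega) hH'
    have key := fun {a b : L ≃ₐ[K] L} (ha : a ∈ H') (hb : b ∈ H') =>
      mul_mem_iff_of_card hle hH hH' ha hb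
    obtain ⟨σ, hσ', hσ⟩ : ∃ σ ∈ H', σ ∉ H := by
      by_contra hcon
      push Not at hcon
      have h2 : H' ≤ H := hcon
      have h3 := le_antisymm hle h2
      rw [h3, hH'] at hH
      have := Nat.pow_right_injective le_rfl hH
      omega
    have hσσ : σ * σ ∈ H := (key hσ' hσ').2 Iff.rfl
    refine step hPP (σ : L ≃+* L) ?_ ?_ ?_ ?_ ?_
    · intro x hx
      rw [mem_fixedField_iff] at hx ⊢
      intro g hg
      have h4 : σ⁻¹ * (g * σ) ∈ H := by
        have h5 : g * σ ∉ H := by
          rw [key (hle hg) hσ']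
          tauto
        have h6 : σ⁻¹ ∉ H := fun h => hσ (by simpa using H.inv_mem h)
        rw [key (H'.inv_mem hσ') (H'.mul_mem (hle hg) hσ')]
        exact iff_of_false h6 h5
      have h7 := hx _ h4
      have h8 : σ ((σ⁻¹ * (g * σ)) x) = σ x := by rw [h7]
      rw [← AlgEquiv.mul_apply, mul_inv_cancel_left, AlgEquiv.mul_apply] at h8
      exact h8
    · intro x hx
      rw [mem_fixedField_iff] at hx
      exact hx _ hσσ
    · intro x hx
      rw [mem_fixedField_iff] at hx ⊢
      exact fun g hg => hx g (hle hg)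
    · intro x hx hfix
      rw [mem_fixedField_iff] at hx ⊢
      intro g hg
      by_cases hgH : g ∈ H
      · exact hx g hgH
      · have h4 : g * σ ∈ H := (key hg hσ').2 (iff_of_false hgH hσ)
        have h5 := hx _ h4
        rw [AlgEquiv.mul_apply] at h5
        have h6 : σ x = x := hfix
        rwa [h6] at h5
    · intro x hx
      rw [mem_fixedField_iff] at hx
      exact hx σ hσ'

theorem pp_all [IsGalois K L] {m : ℕ} (hm : Module.finrank K L = 2 ^ m)
    (h0 : PP (⊥ : IntermediateField K L)) (M : IntermediateField K L) : PP M := by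
  have hcard : Nat.card (L ≃ₐ[K] L) = 2 ^ m := by
    rw [IsGalois.card_aut_eq_finrank, hm]
  have hdvd : Nat.card M.fixingSubgroup ∣ 2 ^ m := by
    rw [← hcard]
    exact Subgroup.card_subgroup_dvd_card _
  obtain ⟨n, hn, hn'⟩ := (Nat.dvd_prime_pow Nat.prime_two).1 hdvd
  have := pp_fixedField hm h0 (m - n) n M.fixingSubgroup (by omega) hn'
  rwa [IsGalois.fixedField_fixingSubgroup] at this

/-- the property of a number field `F`: an element with even valuations away from 2 which is a
square locally at one dyadic place is a square. -/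
def PropP (F : Type*) [Field F] [NumberField F] : Prop :=
  ∀ v : HeightOneSpectrum (𝓞 F), (2 : 𝓞 F) ∈ v.asIdeal → ∀ z : F, z ≠ 0 → EvenOff2 z →
    LocSq (v.valuation F) z → IsSquare z

theorem two_mem_below (Q : HeightOneSpectrum (𝓞 L)) :
    (2 : 𝓞 K) ∈ (below K Q).asIdeal ↔ (2 : 𝓞 L) ∈ Q.asIdeal := by
  show (2 : 𝓞 K) ∈ Ideal.comap (algebraMap (𝓞 K) (𝓞 L)) Q.asIdeal ↔ _
  rw [Ideal.mem_comap, map_ofNat]

theorem exists_above (v : HeightOneSpectrum (𝓞 K)) :
    ∃ Q : HeightOneSpectrum (𝓞 L), below K Q = v := by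
  have : v.asIdeal.IsMaximal := v.isMaximal
  obtain ⟨P, hP, hPv⟩ := Ideal.exists_maximal_ideal_liesOver_of_isIntegral (S := 𝓞 L) v.asIdeal
  have hne : P ≠ ⊥ := by
    rintro rfl
    have h1 := hPv.over
    rw [Ideal.under_bot] at h1
    exact v.ne_bot h1
  refine ⟨⟨P, hP.isPrime, hne⟩, ?_⟩
  apply HeightOneSpectrum.ext
  exact hPv.over.symm

theorem isSquare_pow {x : ℤᵐ⁰} (h : IsSquare x) (e : ℕ) : IsSquare (x ^ e) := by
  obtain ⟨r, rfl⟩ := h
  exact ⟨r ^ e, mul_pow _ _ _⟩

/-- transfer to a field sitting in the tower -/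
theorem propP_of_pp {F : Type*} [Field F] [NumberField F] [Algebra K F] [Algebra F L]
    [IsScalarTower K F L] (h : PP (IsScalarTower.toAlgHom K F L).fieldRange) : PropP F := by
  intro v hv z hz hze hzl
  obtain ⟨Q, rfl⟩ := exists_above (L := L) v
  obtain ⟨e, he, hval⟩ := exists_valuation_below (K := F) Q
  have hQ : (2 : 𝓞 L) ∈ Q.asIdeal := (two_mem_below Q).1 hv
  obtain ⟨y, ⟨y0, rfl⟩, hy2⟩ := h Q hQ (algebraMap F L z) ⟨z, rfl⟩
    ((map_ne_zero (algebraMap F L)).2 hz) (by
      intro P hP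
      obtain ⟨e', he', hval'⟩ := exists_valuation_below (K := F) P
      rw [← hval']
      exact isSquare_pow (hze _ (fun h => hP ((two_mem_below P).1 h))) e') (by
      intro γ hγ
      have hm : min γ 1 ≠ 0 := by
        rcases min_choice γ 1 with h | h <;> rw [h]
        · exact hγ
        · exact one_ne_zero
      obtain ⟨y, hy⟩ := hzl (min γ 1) hm
      refine ⟨algebraMap F L y, ⟨y, rfl⟩, ?_⟩
      rw [← map_pow, ← map_sub, ← hval]
      calc (below F Q).valuation F (z - y ^ 2) ^ e ≤ (below F Q).valuation F (z - y ^ 2) ^ 1 :=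
            pow_le_pow_right_of_le_one' (hy.le.trans (min_le_right _ _)) (by omega)
        _ < γ := by rw [pow_one]; exact lt_of_lt_of_le hy (min_le_left _ _))
  refine ⟨y0, ?_⟩
  apply (algebraMap F L).injective
  rw [hy2, map_mul]
  show algebraMap F L y0 ^ 2 = _
  ring

theorem valuation_below_of_unramified (Q : HeightOneSpectrum (𝓞 L))
    (h : Algebra.IsUnramifiedAt (𝓞 K) Q.asIdeal) (x : K) :
    (below K Q).valuation K x = Q.valuation L (algebraMap K L x) := by
  have : Q.asIdeal.LiesOver (below K Q).asIdeal := ⟨rfl⟩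
  have h1 : Q.asIdeal.ramificationIdx (𝓞 K) = 1 := Ideal.ramificationIdx_eq_one _ _
  have h2 : (below K Q).asIdeal.ramificationIdx' Q.asIdeal = 1 := by
    rw [Ideal.ramificationIdx'_eq_ramificationIdx _ _ (below K Q).ne_bot, h1]
  have h3 := HeightOneSpectrum.valuation_liesOver L (below K Q) Q x
  rwa [h2, pow_one] at h3

/-- the bottom of the tower -/
theorem pp_bot (hK : PropP K)
    (hunr : ∀ Q : HeightOneSpectrum (𝓞 L), (2 : 𝓞 L) ∉ Q.asIdeal →
      ∀ x : K, (below K Q).valuation K x = Q.valuation L (algebraMap K L x)) :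
    PP (⊥ : IntermediateField K L) := by
  intro P hP z hz hz0 hze hzl
  obtain ⟨z, rfl⟩ := mem_bot.1 hz
  obtain ⟨e, he, hval⟩ := exists_valuation_below (K := K) P
  have hz0' : z ≠ 0 := by
    rintro rfl
    exact hz0 (map_zero _)
  obtain ⟨y, hy⟩ := hK (below K P) ((two_mem_below P).2 hP) z hz0' (by
    intro v hv
    obtain ⟨Q, rfl⟩ := exists_above (L := L) v
    have hQ : (2 : 𝓞 L) ∉ Q.asIdeal := fun h => hv ((two_mem_below Q).2 h)
    rw [hunr Q hQ]
    exact hze Q hQ) (by
    intro γ hγ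
    obtain ⟨y, hy, hlt⟩ := hzl (γ ^ e) (pow_ne_zero _ hγ)
    obtain ⟨y, rfl⟩ := mem_bot.1 hy
    refine ⟨y, ?_⟩
    rw [← map_pow, ← map_sub, ← hval] at hlt
    exact lt_of_pow_lt_pow_left₀ _ zero_le hlt)
  exact ⟨algebraMap K L y, mem_bot.2 ⟨y, rfl⟩, by rw [hy, map_mul]; ring⟩

end Pool.Agent.Work.MP_787500_nt
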