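import Mathlib
import Pool.Agent.Work.MP_787500_nt.H10_Tower
import Pool.Agent.Work.MP_787500_nt.H10_Local
import Pool.Agent.Work.MP_787500_nt.H9_Kummer
import Pool.Agent.Work.MP_787500_nt.H10_CohDefs

/-!
Inertia groups of infinite Galois extensions.
-/

set_option autoImplicit false
set_option linter.unusedSectionVars false

namespace Pool.Agent.Work.MP_787500_nt

open scoped Pointwise

section abstract

variable {B : Type*} [CommRing B] {G : Type*} [Group G] [MulSemiringAction G B]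
variable [TopologicalSpace G] [CompactSpace G] [TotallyDisconnectedSpace G]
variable [IsTopologicalGroup G] [TopologicalSpace B] [DiscreteTopology B] [ContinuousSMul G B]

/-- If `σ₀` is congruent to the identity on the elements fixed by the closed subgroup `H`, then the
coset `H σ₀` contains an element of the inertia group. -/
theorem exists_inertia (H : Subgroup G) (hH : IsClosed (H : Set G)) (Q : Ideal B) [Q.IsPrime]
    (σ₀ : G) (h2 : ∀ x : B, (∀ h ∈ H, h • x = x) → σ₀⁻¹ • x - x ∈ Q) :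
    ∃ h ∈ H, h * σ₀ ∈ Q.inertia G := by
  have : CompactSpace H := isCompact_iff_compactSpace.1 hH.isCompact
  let A := FixedPoints.subalgebra ℤ B H
  have hA : ∀ a : A, ∀ h ∈ H, h • (a : B) = a := fun a h hh => a.2 ⟨h, hh⟩
  have hcomm : SMulCommClass H A B := ⟨fun h a b => by
    rw [Algebra.smul_def, Algebra.smul_def, MulSemiringAction.smul_mul]
    congr 1
    exact a.2 h⟩
  have hinv : Algebra.IsInvariant A B H := ⟨fun b hb => ⟨⟨b, hb⟩, rfl⟩⟩
  have hprime : (σ₀ • Q).IsPrime := inferInstance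
  have hunder : (σ₀ • Q).under A = Q.under A := by
    ext x
    rw [Ideal.under_def, Ideal.mem_comap, Ideal.mem_comap, Ideal.mem_pointwise_smul_iff_inv_smul_mem]
    have := h2 (algebraMap A B x) (hA x)
    constructor
    · intro h
      have h3 := Q.sub_mem h this
      rwa [sub_sub_cancel] at h3
    · intro h
      have h3 := Q.add_mem this h
      rwa [sub_add_cancel] at h3
  obtain ⟨k, hk⟩ := Algebra.IsInvariant.exists_smul_of_under_eq_of_profinite (A := A) (B := B)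
    (G := H) (σ₀ • Q) Q hunder
  have hk' : Q = ((k : G) * σ₀) • Q := by
    rw [mul_smul]
    exact hk
  set σ₁ : G := (k : G) * σ₀ with hσ₁
  have hmem : ∀ x : B, σ₁ • x ∈ Q ↔ x ∈ Q := by
    intro x
    conv_lhs => rw [hk']
    exact Ideal.smul_mem_pointwise_smul_iff
  -- trivial on the invariants
  have htriv : ∀ x : B, (∀ h ∈ H, h • x = x) → σ₁ • x - x ∈ Q := by
    intro x hx
    have h3 : x - σ₀⁻¹ • x ∈ Q := by
      have := Q.neg_mem (h2 x hx)
      rwa [neg_sub] at this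
    have h4 := (hmem _).2 h3
    have h5 : σ₁ • (x - σ₀⁻¹ • x) = σ₁ • x - x := by
      rw [smul_sub, hσ₁, mul_smul (k : G) σ₀ (σ₀⁻¹ • x), smul_inv_smul, hx _ k.2]
    rwa [h5] at h4
  let e0 : B ≃+* B := MulSemiringAction.toRingEquiv G B σ₁
  have he0 : Q = Q.map (e0 : B →+* B) := by
    ext x
    constructor
    · intro h
      have : x = e0 (σ₁⁻¹ • x) := (smul_inv_smul _ _).symm
      rw [this]
      apply Ideal.mem_map_of_mem
      rw [← hmem, smul_inv_smul]
      exact h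
    · intro h
      obtain ⟨y, hy, rfl⟩ := (Ideal.mem_map_iff_of_surjective _ e0.surjective).1 h
      exact (hmem y).2 hy
  let p : Ideal A := Q.under A
  have hover : Q.LiesOver p := ⟨rfl⟩
  let e1 : (B ⧸ Q) ≃+* (B ⧸ Q) := Ideal.quotientEquiv Q Q e0 he0
  have he1 : ∀ x : B, e1 (Ideal.Quotient.mk Q x) = Ideal.Quotient.mk Q (σ₁ • x) := fun x => rfl
  let e2 : (B ⧸ Q) ≃ₐ[A ⧸ p] (B ⧸ Q) := AlgEquiv.ofRingEquiv (f := e1) (by
    intro r
    obtain ⟨a, rfl⟩ := Ideal.Quotient.mk_surjective r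
    show e1 (Ideal.Quotient.mk Q (algebraMap A B a)) = Ideal.Quotient.mk Q (algebraMap A B a)
    rw [he1, Ideal.Quotient.eq]
    exact htriv _ (hA a))
  obtain ⟨τ, hτ⟩ := Ideal.Quotient.stabilizerHom_surjective_of_profinite (A := A) (B := B)
    (G := H) p Q e2
  have hτ' : ∀ x : B, σ₁ • x - ((τ : H) : G) • x ∈ Q := by
    intro x
    have h6 := DFunLike.congr_fun hτ (Ideal.Quotient.mk Q x)
    rw [Ideal.Quotient.stabilizerHom_apply] at h6
    have h7 : Ideal.Quotient.mk Q (((τ : H) : G) • x) = Ideal.Quotient.mk Q (σ₁ • x) := h6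
    exact Ideal.Quotient.eq.1 h7.symm
  have hτQ : ∀ x : B, x ∈ Q → ((τ : H) : G)⁻¹ • x ∈ Q := by
    intro x hx
    have h8 : (τ : H) • Q = Q := τ.2
    have h9 : ((τ : H) : G) • Q = Q := h8
    rw [← Ideal.mem_pointwise_smul_iff_inv_smul_mem, h9]
    exact hx
  refine ⟨((τ : H) : G)⁻¹ * k, H.mul_mem (H.inv_mem (τ : H).2) k.2, ?_⟩
  intro x
  have h10 := hτQ _ (hτ' x)
  rwa [smul_sub, inv_smul_smul, ← mul_smul, hσ₁, ← mul_assoc] at h10

end abstract


section number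

open WithZero IsDedekindDomain NumberField

variable {F : Type*} [Field F] [NumberField F] {Ω : Type*} [Field Ω] [Algebra F Ω] [IsGalois F Ω]

theorem coe_smul_int (σ : Ω ≃ₐ[F] Ω) (x : 𝓞 Ω) :
    algebraMap (𝓞 Ω) Ω (σ • x) = σ (algebraMap (𝓞 Ω) Ω x) := rfl

theorem mem_base_of_fixed {x : Ω} (h : ∀ σ : Ω ≃ₐ[F] Ω, σ x = x) : ∃ a : F, algebraMap F Ω a = x :=
  (InfiniteGalois.mem_range_algebraMap_iff_fixed x).2 h

/-- Quadratic ramification at a place not above 2 is seen by the inertia group. -/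
theorem exists_inertia_of_odd {d : F} {s : Ω} (hs : s ^ 2 = algebraMap F Ω d)
    {v : HeightOneSpectrum (𝓞 F)} (hv : (2 : 𝓞 F) ∉ v.asIdeal)
    (hd : ¬ IsSquare (v.valuation F d)) :
    ∃ Q : Ideal (𝓞 Ω), Q.IsPrime ∧ (2 : 𝓞 Ω) ∉ Q ∧ ∃ σ ∈ Q.inertia (Ω ≃ₐ[F] Ω), σ s = -s := by
  have hd0 : d ≠ 0 := by
    rintro rfl
    exact hd ⟨0, by rw [map_zero, mul_zero]⟩
  have hs0 : s ≠ 0 := by
    rintro rfl
    rw [zero_pow (by norm_num)] at hs
    exact hd0 ((map_eq_zero (algebraMap F Ω)).1 hs.symm)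
  have hsign : ∀ σ : Ω ≃ₐ[F] Ω, σ s = s ∨ σ s = -s := by
    intro σ
    apply sq_eq_sq_iff_eq_or_eq_neg.1
    rw [← map_pow, hs, AlgEquiv.commutes]
  -- the prime above
  have hmax : v.asIdeal.IsMaximal := v.isMaximal
  obtain ⟨Q, hQm, hQv⟩ := Ideal.exists_maximal_ideal_liesOver_of_isIntegral (S := 𝓞 Ω) v.asIdeal
  have hQ : Q.IsPrime := hQm.isPrime
  have hmem : ∀ z : 𝓞 F, algebraMap (𝓞 F) (𝓞 Ω) z ∈ Q ↔ z ∈ v.asIdeal := by
    intro z
    rw [hQv.over, Ideal.under_def, Ideal.mem_comap]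
  have hQ2 : (2 : 𝓞 Ω) ∉ Q := by
    intro h
    apply hv
    rw [← hmem, map_ofNat]
    exact h
  obtain ⟨σ₀, hσ₀⟩ : ∃ σ : Ω ≃ₐ[F] Ω, σ s ≠ s := by
    by_contra hcon
    push Not at hcon
    obtain ⟨a, ha⟩ := mem_base_of_fixed hcon
    have : a ^ 2 = d := by
      apply (algebraMap F Ω).injective
      rw [map_pow, ha, hs]
    apply hd
    rw [← this, map_pow]
    exact ⟨_, pow_two _⟩
  have hσ₀' : σ₀ s = -s := (hsign σ₀).resolve_left hσ₀
  have h2Ω : (2 : Ω) ≠ 0 := by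
    rw [← map_ofNat (algebraMap F Ω) 2]
    exact (map_ne_zero _).2 two_ne_zero
  have hne : ∀ σ : Ω ≃ₐ[F] Ω, ¬ (σ s = s ∧ σ s = -s) := by
    rintro σ ⟨h1, h2⟩
    have : (2 : Ω) * s = 0 := by rw [h1] at h2; linear_combination h2
    exact mul_ne_zero h2Ω hs0 this
  let H : Subgroup (Ω ≃ₐ[F] Ω) := MulAction.stabilizer (Ω ≃ₐ[F] Ω) s
  have hHmem : ∀ σ : Ω ≃ₐ[F] Ω, σ ∈ H ↔ σ s = s := fun σ => Iff.rfl
  have hHopen : IsOpen (H : Set (Ω ≃ₐ[F] Ω)) := stabilizer_isOpen_of_isIntegral s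
  have hHcl : IsClosed (H : Set (Ω ≃ₐ[F] Ω)) := Subgroup.isClosed_of_isOpen H hHopen
  let _ : TopologicalSpace (𝓞 Ω) := ⊥
  have : DiscreteTopology (𝓞 Ω) := ⟨rfl⟩
  have : ContinuousSMul (Ω ≃ₐ[F] Ω) (𝓞 Ω) := by
    rw [continuousSMul_iff_stabilizer_isOpen]
    intro x
    have h1 : IsOpen (MulAction.stabilizer (Ω ≃ₐ[F] Ω) (algebraMap (𝓞 Ω) Ω x) :
      Set (Ω ≃ₐ[F] Ω)) := stabilizer_isOpen_of_isIntegral _
    convert h1 using 1
    ext σ
    simp only [SetLike.mem_coe, MulAction.mem_stabilizer_iff]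
    constructor
    · intro h
      have := congrArg (algebraMap (𝓞 Ω) Ω) h
      exact this
    · intro h
      apply RingOfIntegers.ext
      exact h
  have key : ∀ (σ : Ω ≃ₐ[F] Ω), σ s = -s → ∀ x : 𝓞 Ω, (∀ h ∈ H, h • x = x) → σ • x - x ∈ Q := by
    intro σ hσ x hx
    have hx' : ∀ τ : Ω ≃ₐ[F] Ω, τ s = s → τ (algebraMap (𝓞 Ω) Ω x) = algebraMap (𝓞 Ω) Ω x := by
      intro τ hτ
      have := congrArg (algebraMap (𝓞 Ω) Ω) (hx τ hτ)
      exact this
    set X := algebraMap (𝓞 Ω) Ω x with hX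
    set y := σ X - X with hy
    have hσinv : σ⁻¹ s = -s := by
      have : σ⁻¹ (σ s) = s := by
        rw [← AlgEquiv.mul_apply, inv_mul_cancel]; rfl
      rw [hσ, map_neg] at this
      exact neg_eq_iff_eq_neg.1 this
    have hys : ∀ τ : Ω ≃ₐ[F] Ω, τ (y * s) = y * s := by
      intro τ
      rcases hsign τ with h | h
      · have h1 : τ (σ X) = σ X := by
          have h2 := hx' (σ⁻¹ * (τ * σ)) (by
            rw [AlgEquiv.mul_apply, AlgEquiv.mul_apply, hσ, map_neg, h, map_neg, hσinv, neg_neg])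
          have h3 := congrArg σ h2
          rw [← AlgEquiv.mul_apply, mul_inv_cancel_left, AlgEquiv.mul_apply] at h3
          exact h3
        rw [hy, map_mul, map_sub, h1, hx' τ h, h]
      · have h1 : τ (σ X) = X := by
          rw [← AlgEquiv.mul_apply]
          exact hx' _ (by rw [AlgEquiv.mul_apply, hσ, map_neg, h, neg_neg])
        have h2 : τ X = σ X := by
          have h2 := hx' (σ⁻¹ * τ) (by rw [AlgEquiv.mul_apply, h, map_neg, hσinv, neg_neg])
          have h3 := congrArg σ h2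
          rw [← AlgEquiv.mul_apply, mul_inv_cancel_left] at h3
          exact h3
        rw [hy, map_mul, map_sub, h1, h2, h]
        ring
    obtain ⟨a, ha⟩ := mem_base_of_fixed hys
    have hy2 : y ^ 2 = algebraMap F Ω (a ^ 2 / d) := by
      rw [map_div₀, map_pow, ha, ← hs]
      field_simp
    have hYy : algebraMap (𝓞 Ω) Ω ((σ • x - x) ^ 2) = y ^ 2 := by
      rw [map_pow, map_sub, coe_smul_int]
    have hint : IsIntegral ℤ (a ^ 2 / d) := by
      have h1 : IsIntegral ℤ (algebraMap F Ω (a ^ 2 / d)) := by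
        rw [← hy2, ← hYy]
        exact RingOfIntegers.isIntegral_coe _
      exact (isIntegral_algebraMap_iff (algebraMap F Ω).injective).1 h1
    obtain ⟨z, hz⟩ : ∃ z : 𝓞 F, algebraMap (𝓞 F) F z = a ^ 2 / d := ⟨⟨_, hint⟩, rfl⟩
    have hYz : (σ • x - x) ^ 2 = algebraMap (𝓞 F) (𝓞 Ω) z := by
      apply RingOfIntegers.ext
      show algebraMap (𝓞 Ω) Ω _ = algebraMap (𝓞 Ω) Ω _
      rw [hYy, hy2, ← hz]
      rfl
    have hzv : z ∈ v.asIdeal := by
      by_contra hcon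
      have h1 := (HeightOneSpectrum.valuation_eq_one_iff_notMem (K := F) v).2 hcon
      rw [hz, map_div₀] at h1
      apply hd
      have h2 : v.valuation F d ≠ 0 := (v.valuation F).ne_zero_iff.2 hd0
      have h3 : v.valuation F (a ^ 2) = v.valuation F d := (div_eq_one_iff_eq h2).1 h1
      rw [← h3, map_pow]
      exact ⟨_, pow_two _⟩
    have h5 : (σ • x - x) ^ 2 ∈ Q := by
      rw [hYz, hmem]
      exact hzv
    exact hQ.mem_of_pow_mem _ h5
  have hσinv : σ₀⁻¹ s = -s := by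
    have : σ₀⁻¹ (σ₀ s) = s := by
      rw [← AlgEquiv.mul_apply, inv_mul_cancel]; rfl
    rw [hσ₀', map_neg] at this
    exact neg_eq_iff_eq_neg.1 this
  obtain ⟨h, hh, hin⟩ := exists_inertia H hHcl Q σ₀ (key _ hσinv)
  refine ⟨Q, hQ, hQ2, h * σ₀, hin, ?_⟩
  rw [AlgEquiv.mul_apply, hσ₀', map_neg, (hHmem h).1 hh]

theorem exists_smul_eq (P Q : Ideal (𝓞 Ω)) [P.IsPrime] [Q.IsPrime]
    (h : P.comap (algebraMap (𝓞 F) (𝓞 Ω)) = Q.comap (algebraMap (𝓞 F) (𝓞 Ω))) :
    ∃ g : Ω ≃ₐ[F] Ω, Q = g • P := by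
  let _ : TopologicalSpace (𝓞 Ω) := ⊥
  have : DiscreteTopology (𝓞 Ω) := ⟨rfl⟩
  have : ContinuousSMul (Ω ≃ₐ[F] Ω) (𝓞 Ω) := by
    rw [continuousSMul_iff_stabilizer_isOpen]
    intro x
    have h1 : IsOpen (MulAction.stabilizer (Ω ≃ₐ[F] Ω) (algebraMap (𝓞 Ω) Ω x) :
      Set (Ω ≃ₐ[F] Ω)) := stabilizer_isOpen_of_isIntegral _
    convert h1 using 1
    ext σ
    simp only [SetLike.mem_coe, MulAction.mem_stabilizer_iff]
    constructor
    · intro h
      have := congrArg (algebraMap (𝓞 Ω) Ω) h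
      exact this
    · intro h
      apply RingOfIntegers.ext
      exact h
  have hcoe : ∀ z : 𝓞 F, algebraMap (𝓞 Ω) Ω (algebraMap (𝓞 F) (𝓞 Ω) z) =
      algebraMap F Ω (algebraMap (𝓞 F) F z) := fun z => rfl
  have hcomm : SMulCommClass (Ω ≃ₐ[F] Ω) (𝓞 F) (𝓞 Ω) := ⟨fun g a b => by
    rw [Algebra.smul_def, Algebra.smul_def, MulSemiringAction.smul_mul]
    congr 1
    apply RingOfIntegers.ext
    show algebraMap (𝓞 Ω) Ω _ = algebraMap (𝓞 Ω) Ω _
    rw [coe_smul_int, hcoe, AlgEquiv.commutes]⟩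
  have hinv : Algebra.IsInvariant (𝓞 F) (𝓞 Ω) (Ω ≃ₐ[F] Ω) := ⟨fun b hb => by
    obtain ⟨a, ha⟩ := mem_base_of_fixed (F := F) (x := algebraMap (𝓞 Ω) Ω b) (fun σ => by
      have := congrArg (algebraMap (𝓞 Ω) Ω) (hb σ)
      exact this)
    have hint : IsIntegral ℤ a := by
      have h1 : IsIntegral ℤ (algebraMap F Ω a) := by
        rw [ha]
        exact RingOfIntegers.isIntegral_coe _
      exact (isIntegral_algebraMap_iff (algebraMap F Ω).injective).1 h1
    obtain ⟨z, hz⟩ : ∃ z : 𝓞 F, algebraMap (𝓞 F) F z = a := ⟨⟨_, hint⟩, rfl⟩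
    refine ⟨z, ?_⟩
    apply RingOfIntegers.ext
    show algebraMap (𝓞 Ω) Ω _ = algebraMap (𝓞 Ω) Ω _
    rw [hcoe, hz, ha]⟩
  exact Algebra.IsInvariant.exists_smul_of_under_eq_of_profinite (A := 𝓞 F) (B := 𝓞 Ω)
    (G := Ω ≃ₐ[F] Ω) P Q h

theorem conj_mem_inertia {Q : Ideal (𝓞 Ω)} {g σ : Ω ≃ₐ[F] Ω} (h : σ ∈ (g • Q).inertia (Ω ≃ₐ[F] Ω)) :
    g⁻¹ * σ * g ∈ Q.inertia (Ω ≃ₐ[F] Ω) := by
  intro x
  have h1 : σ • (g • x) - g • x ∈ g • Q := h (g • x)
  rw [Ideal.mem_pointwise_smul_iff_inv_smul_mem, smul_sub, inv_smul_smul, ← mul_smul, ← mul_smul]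
    at h1
  exact h1

theorem eq_one_of_inertia_bot {σ : Ω ≃ₐ[F] Ω} (h : σ ∈ (⊥ : Ideal (𝓞 Ω)).inertia (Ω ≃ₐ[F] Ω)) :
    σ = 1 := by
  have h1 : ∀ x : 𝓞 Ω, σ (algebraMap (𝓞 Ω) Ω x) = algebraMap (𝓞 Ω) Ω x := by
    intro x
    have h2 : σ • x - x = 0 := h x
    have h3 := congrArg (algebraMap (𝓞 Ω) Ω) (sub_eq_zero.1 h2)
    exact h3
  ext x
  have hchar : CharZero Ω := charZero_of_injective_algebraMap (algebraMap F Ω).injective
  have hx : IsAlgebraic ℤ x := by
    have h4 : IsAlgebraic ℚ x := by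
      have : Algebra.IsAlgebraic ℚ Ω := Algebra.IsAlgebraic.trans ℚ F Ω
      exact Algebra.IsAlgebraic.isAlgebraic x
    exact (IsFractionRing.isAlgebraic_iff ℤ ℚ Ω).2 h4
  obtain ⟨y, z, hz, hyz⟩ : ∃ y z : 𝓞 Ω, z ≠ 0 ∧ x * algebraMap (𝓞 Ω) Ω z = algebraMap (𝓞 Ω) Ω y := by
    obtain ⟨m, hm, hint⟩ := hx.exists_integral_multiple
    have hm0 : (m : Ω) ≠ 0 := by exact_mod_cast hm
    refine ⟨⟨m • x, hint⟩, (m : 𝓞 Ω), ?_, ?_⟩
    · intro h0
      apply hm0
      have := congrArg (algebraMap (𝓞 Ω) Ω) h0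
      simpa using this
    · show _ = m • x
      rw [map_intCast, zsmul_eq_mul, mul_comm]
  have hz0 : algebraMap (𝓞 Ω) Ω z ≠ 0 := by
    intro h0
    exact hz (RingOfIntegers.coe_eq_zero_iff.1 h0)
  have h5 := congrArg σ hyz
  rw [map_mul, h1, h1, ← hyz] at h5
  exact mul_right_cancel₀ hz0 h5

end number


section decomp

variable {F : Type*} [Field F] {E : Type*} [Field E] [Algebra F E]

theorem exists_restrict10 (ι : AlgebraicClosure F →ₐ[F] AlgebraicClosure E)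
    (τ : AlgebraicClosure E ≃ₐ[E] AlgebraicClosure E) :
    ∃ σ : AlgebraicClosure F ≃ₐ[F] AlgebraicClosure F, ∀ x, τ (ι x) = ι (σ x) := by
  let _ : Algebra (AlgebraicClosure F) (AlgebraicClosure E) := ι.toRingHom.toAlgebra
  have hmap : ∀ x, algebraMap (AlgebraicClosure F) (AlgebraicClosure E) x = ι x := fun _ => rfl
  have htow : IsScalarTower F (AlgebraicClosure F) (AlgebraicClosure E) := by
    apply IsScalarTower.of_algebraMap_eq
    intro x
    rw [hmap, AlgHom.commutes]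
  refine ⟨(τ.restrictScalars F).restrictNormal (AlgebraicClosure F), fun x => ?_⟩
  have := (τ.restrictScalars F).restrictNormal_commutes (AlgebraicClosure F) x
  rw [hmap, hmap] at this
  exact this.symm

theorem isSquare_of_decomp [CharZero F] [CharZero E] {ι : AlgebraicClosure F →ₐ[F] AlgebraicClosure E}
    {d : F} {s : AlgebraicClosure F} (hs : s ^ 2 = algebraMap F _ d)
    (h : ∀ σ ∈ decomp ι, σ s = s) : IsSquare (algebraMap F E d) := by
  have hfix : ∀ τ : AlgebraicClosure E ≃ₐ[E] AlgebraicClosure E, τ (ι s) = ι s := by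
    intro τ
    obtain ⟨σ, hσ⟩ := exists_restrict10 ι τ
    rw [hσ, h σ ⟨τ, hσ⟩]
  obtain ⟨e, he⟩ := (InfiniteGalois.mem_range_algebraMap_iff_fixed (ι s)).2 hfix
  refine ⟨e, ?_⟩
  apply (algebraMap E (AlgebraicClosure E)).injective
  rw [map_mul, he, ← map_mul, ← pow_two, hs, AlgHom.commutes]
  exact (IsScalarTower.algebraMap_apply F E (AlgebraicClosure E) d).symm

end decomp

section quadratic

open WithZero IsDedekindDomain NumberField

variable {F : Type*} [Field F] [NumberField F]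

/-- No open subgroup of index two contains a dyadic decomposition group and all inertia groups away
from 2. -/
theorem eq_top_of_index_two (hF : PropP F) {w : HeightOneSpectrum (𝓞 F)} (hw : (2 : 𝓞 F) ∈ w.asIdeal)
    (ι : AlgebraicClosure F →ₐ[F] AlgebraicClosure (w.adicCompletion F))
    (N : Subgroup (AlgebraicClosure F ≃ₐ[F] AlgebraicClosure F))
    (hmul : ∀ σ τ, σ * τ ∈ N ↔ (σ ∈ N ↔ τ ∈ N))
    (hopen : IsOpen (N : Set (AlgebraicClosure F ≃ₐ[F] AlgebraicClosure F)))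
    (hin : ∀ Q : Ideal (𝓞 (AlgebraicClosure F)), Q.IsPrime → (2 : 𝓞 (AlgebraicClosure F)) ∉ Q →
      Q.inertia (AlgebraicClosure F ≃ₐ[F] AlgebraicClosure F) ≤ N)
    (hdec : decomp ι ≤ N) : N = ⊤ := by
  obtain ⟨s, hs0, hs1, hs2⟩ := exists_sqrt_of_char (fun σ => σ ∈ N) hmul hopen
  have hsq : ∀ σ : AlgebraicClosure F ≃ₐ[F] AlgebraicClosure F, σ (s ^ 2) = s ^ 2 := by
    intro σ
    by_cases h : σ ∈ N
    · rw [map_pow, hs1 σ h]
    · rw [map_pow, hs2 σ h, neg_sq]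
  obtain ⟨d, hd⟩ := mem_base_of_fixed hsq
  have hd0 : d ≠ 0 := by
    rintro rfl
    rw [map_zero] at hd
    exact hs0 (pow_eq_zero_iff (by norm_num) |>.1 hd.symm)
  have hne : s ≠ -s := by
    intro h
    have h2 : (2 : AlgebraicClosure F) * s = 0 := by linear_combination h
    exact mul_ne_zero two_ne_zero hs0 h2
  have hev : EvenOff2 d := by
    intro v hv
    by_contra hcon
    obtain ⟨Q, hQ, hQ2, σ, hσ, hσs⟩ := exists_inertia_of_odd hd.symm hv hcon
    rw [hs1 σ (hin Q hQ hQ2 hσ)] at hσs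
    exact hne hσs
  have hloc : LocSq (w.valuation F) d := by
    apply locSq_of_completion
    have : CharZero (w.adicCompletion F) :=
      charZero_of_injective_algebraMap (algebraMap F (w.adicCompletion F)).injective
    exact LocSq.of_isSquare (isSquare_of_decomp hd.symm (fun σ hσ => hs1 σ (hdec hσ)))
  obtain ⟨y, hy⟩ := hF w hw d hd0 hev hloc
  rw [eq_top_iff]
  intro σ _
  by_contra hcon
  have h1 := hs2 σ hcon
  have h2 : s ^ 2 = (algebraMap F (AlgebraicClosure F) y) ^ 2 := by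
    rw [← hd, hy, map_mul, pow_two]
  rcases sq_eq_sq_iff_eq_or_eq_neg.1 h2 with h | h
  · rw [h, AlgEquiv.commutes] at h1
    rw [← h] at h1
    exact hne h1
  · have h3 : σ s = s := by rw [h, map_neg, AlgEquiv.commutes]
    rw [h3] at h1
    exact hne h1

/-- A dyadic decomposition group surjects onto each finite 2-group quotient in which the inertia
groups away from 2 are trivial. -/
theorem decomp_surj (hF : PropP F) {w : HeightOneSpectrum (𝓞 F)} (hw : (2 : 𝓞 F) ∈ w.asIdeal)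
    (ι : AlgebraicClosure F →ₐ[F] AlgebraicClosure (w.adicCompletion F))
    (U : Subgroup (AlgebraicClosure F ≃ₐ[F] AlgebraicClosure F)) [U.Normal]
    (hopen : IsOpen (U : Set (AlgebraicClosure F ≃ₐ[F] AlgebraicClosure F)))
    (hpow : ∀ g : AlgebraicClosure F ≃ₐ[F] AlgebraicClosure F, ∃ k : ℕ, g ^ (2 ^ k) ∈ U)
    (hin : ∀ Q : Ideal (𝓞 (AlgebraicClosure F)), Q.IsPrime → (2 : 𝓞 (AlgebraicClosure F)) ∉ Q →
      Q.inertia (AlgebraicClosure F ≃ₐ[F] AlgebraicClosure F) ≤ U)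
    (g : AlgebraicClosure F ≃ₐ[F] AlgebraicClosure F) : ∃ δ ∈ decomp ι, δ⁻¹ * g ∈ U := by
  have hfin : Finite ((AlgebraicClosure F ≃ₐ[F] AlgebraicClosure F) ⧸ U) :=
    Subgroup.quotient_finite_of_isOpen U hopen
  have : Fact (Nat.Prime 2) := ⟨Nat.prime_two⟩
  have hP : IsPGroup 2 ((AlgebraicClosure F ≃ₐ[F] AlgebraicClosure F) ⧸ U) := by
    intro x
    obtain ⟨g, rfl⟩ := QuotientGroup.mk_surjective x
    obtain ⟨k, hk⟩ := hpow g
    exact ⟨k, by rw [← QuotientGroup.mk_pow, QuotientGroup.eq_one_iff]; exact hk⟩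
  obtain ⟨m, hm⟩ := IsPGroup.iff_card.1 hP
  let π := QuotientGroup.mk' U
  let D := (decomp ι).map π
  obtain ⟨n, hnm, hn⟩ := (Nat.dvd_prime_pow Nat.prime_two).1
    (hm ▸ Subgroup.card_subgroup_dvd_card D)
  have hDtop : D = ⊤ := by
    by_contra hD
    have hlt : n < m := by
      rcases lt_or_eq_of_le hnm with h | h
      · exact h
      · exfalso
        apply hD
        rw [← Subgroup.card_eq_iff_eq_top, hn, hm, h]
    obtain ⟨K, hK, hDK⟩ := Sylow.exists_subgroup_card_pow_prime_le (p := 2) (n := n) (m := m - 1)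
      (by rw [hm]; exact pow_dvd_pow 2 (by omega)) D hn (by omega)
    have hidx : K.index = 2 := by
      have h3 := K.card_mul_index
      rw [hm, hK] at h3
      have h4 : 2 ^ m = 2 ^ (m - 1) * 2 := by rw [← pow_succ]; congr 1; omega
      rw [h4] at h3
      exact Nat.eq_of_mul_eq_mul_left (by positivity) h3
    have hUN : U ≤ K.comap π := by
      intro u hu
      rw [Subgroup.mem_comap]
      have : π u = 1 := (QuotientGroup.eq_one_iff u).2 hu
      rw [this]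
      exact K.one_mem
    have hN := eq_top_of_index_two hF hw ι (K.comap π) (fun σ τ => by
        rw [Subgroup.mem_comap, Subgroup.mem_comap, Subgroup.mem_comap, map_mul]
        exact Subgroup.mul_mem_iff_of_index_two hidx)
      (Subgroup.isOpen_mono hUN hopen) (fun Q hQ hQ2 => (hin Q hQ hQ2).trans hUN)
      (fun σ hσ => hDK ⟨σ, hσ, rfl⟩)
    have hKtop : K = ⊤ := by
      rw [eq_top_iff]
      intro x _
      obtain ⟨g, rfl⟩ := QuotientGroup.mk_surjective x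
      have : g ∈ K.comap π := by rw [hN]; trivial
      exact this
    rw [hKtop, Subgroup.index_top] at hidx
    norm_num at hidx
  have hg : π g ∈ D := by rw [hDtop]; trivial
  obtain ⟨δ, hδ, hδg⟩ := hg
  refine ⟨δ, hδ, ?_⟩
  exact QuotientGroup.eq.1 hδg

end quadratic

end Pool.Agent.Work.MP_787500_nt
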