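import Mathlib
import Pool.Agent.Work.MP_787500_nt.H10_Gal

/-!
Vanishing of Selmer groups with complementary local conditions.
-/

set_option autoImplicit false
set_option linter.unusedSectionVars false

namespace Pool.Agent.Work.MP_787500_nt

open IsDedekindDomain NumberField

universe u

variable {F : Type u} [Field F] {n : ℕ}

theorem act_add (M : Matrix (Fin n) (Fin n) ℤ_[2]) (x y : Fin n → ℚ_[2]) :
    act M (x + y) = act M x + act M y := (actLin M).map_add x y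

theorem act_smul (M : Matrix (Fin n) (Fin n) ℤ_[2]) (a : ℚ_[2]) (x : Fin n → ℚ_[2]) :
    act M (a • x) = a • act M x := (actLin M).map_smul a x

theorem act_sub (M : Matrix (Fin n) (Fin n) ℤ_[2]) (x y : Fin n → ℚ_[2]) :
    act M (x - y) = act M x - act M y := (actLin M).map_sub x y

/-- `c` is a continuous 1-cocycle -/
structure IsCocyc (ρ : AbsGal F →* Matrix (Fin n) (Fin n) ℤ_[2]) (c : AbsGal F → Fin n → ℚ_[2]) :
    Prop where
  cont : Continuous c
  mul : ∀ σ τ, c (σ * τ) = c σ + act (ρ σ) (c τ)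

theorem act_one (x : Fin n → ℚ_[2]) : act (1 : Matrix (Fin n) (Fin n) ℤ_[2]) x = x := by
  ext i
  simp only [act]
  rw [Finset.sum_eq_single i]
  · simp
  · intro j _ hj
    rw [Matrix.one_apply_ne hj.symm]
    simp
  · simp

theorem act_mul (M N : Matrix (Fin n) (Fin n) ℤ_[2]) (x : Fin n → ℚ_[2]) :
    act (M * N) x = act M (act N x) := by
  ext i
  simp only [act, Matrix.mul_apply, Finset.mul_sum]
  rw [Finset.sum_comm]
  refine Finset.sum_congr rfl (fun j _ => ?_)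
  rw [PadicInt.coe_sum, Finset.sum_mul]
  exact Finset.sum_congr rfl (fun k _ => by rw [PadicInt.coe_mul]; ring)


theorem IsCocyc.one {ρ : AbsGal F →* Matrix (Fin n) (Fin n) ℤ_[2]} {c : AbsGal F → Fin n → ℚ_[2]}
    (h : IsCocyc ρ c) : c 1 = 0 := by
  have h1 := h.mul 1 1
  rw [mul_one, map_one, act_one] at h1
  exact left_eq_add.1 h1

theorem toZMod_eq_zero_iff (x : ℤ_[2]) : PadicInt.toZMod x = 0 ↔ ‖x‖ < 1 := by
  rw [← RingHom.mem_ker, PadicInt.ker_toZMod, PadicInt.norm_lt_one_iff_dvd,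
    PadicInt.maximalIdeal_eq_span_p, Ideal.mem_span_singleton]

/-- the affine action on vectors modulo 2 -/
noncomputable def affAct (M : Matrix (Fin n) (Fin n) ℤ_[2]) (b : Fin n → ℤ_[2])
    (x : Fin n → ZMod 2) : Fin n → ZMod 2 :=
  fun i => ∑ j, PadicInt.toZMod (M i j) * x j + PadicInt.toZMod (b i)

theorem affAct_mul (M N : Matrix (Fin n) (Fin n) ℤ_[2]) (a b d : Fin n → ℤ_[2])
    (hd : ∀ i, d i = a i + ∑ j, M i j * b j) (x : Fin n → ZMod 2) :
    affAct (M * N) d x = affAct M a (affAct N b x) := by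
  ext i
  simp only [affAct, Matrix.mul_apply, hd, map_add, map_sum, map_mul, mul_add,
    Finset.sum_add_distrib, Finset.mul_sum, Finset.sum_mul]
  rw [Finset.sum_comm]
  have : ∀ j k : Fin n, PadicInt.toZMod (M i j) * (PadicInt.toZMod (N j k) * x k) =
      PadicInt.toZMod (M i j) * PadicInt.toZMod (N j k) * x k := fun j k => by ring
  simp only [this]
  ring

theorem affAct_one (x : Fin n → ZMod 2) :
    affAct (1 : Matrix (Fin n) (Fin n) ℤ_[2]) 0 x = x := by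
  ext i
  simp only [affAct, Pi.zero_apply, map_zero, add_zero]
  rw [Finset.sum_eq_single i]
  · simp
  · intro j _ hj
    rw [Matrix.one_apply_ne hj.symm]
    simp
  · simp

section key

variable [NumberField F]

theorem norm_lt_one (hF : PropP F) {w w' : HeightOneSpectrum (𝓞 F)} (hw : (2 : 𝓞 F) ∈ w.asIdeal)
    (hw' : (2 : 𝓞 F) ∈ w'.asIdeal)
    (ι : AlgebraicClosure F →ₐ[F] AlgebraicClosure (w.adicCompletion F))
    (ι' : AlgebraicClosure F →ₐ[F] AlgebraicClosure (w'.adicCompletion F))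
    {ρ : AbsGal F →* Matrix (Fin n) (Fin n) ℤ_[2]} (hρ : Continuous ρ)
    {c : AbsGal F → Fin n → ℚ_[2]} (hc : IsCocyc ρ c)
    (hun : ∀ Q : Ideal (𝓞 (AlgebraicClosure F)), Q.IsPrime → (2 : 𝓞 (AlgebraicClosure F)) ∉ Q →
      ∀ σ ∈ Q.inertia (AbsGal F), (∀ i j, (2 : ℤ_[2]) ∣ (ρ σ - 1) i j) ∧ ∀ i, ‖c σ i‖ < 1)
    (hres : ∀ σ, ∃ k : ℕ, ∀ i j, (2 : ℤ_[2]) ∣ (ρ (σ ^ (2 ^ k)) - 1) i j)
    {S : Set (Fin n)} (h1 : ∀ σ ∈ decomp ι, ∀ i ∉ S, c σ i = 0)
    (h2 : ∀ σ ∈ decomp ι', ∀ i ∈ S, c σ i = 0) (hb : ∀ σ i, ‖c σ i‖ ≤ 1) :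
    ∀ σ i, ‖c σ i‖ < 1 := by
  let b : AbsGal F → Fin n → ℤ_[2] := fun σ i => ⟨c σ i, hb σ i⟩
  have hbc : ∀ σ i, (b σ i : ℚ_[2]) = c σ i := fun σ i => rfl
  have hbmul : ∀ σ τ i, b (σ * τ) i = b σ i + ∑ j, ρ σ i j * b τ j := by
    intro σ τ i
    apply Subtype.ext
    show (b (σ * τ) i : ℚ_[2]) = ((b σ i + ∑ j, ρ σ i j * b τ j : ℤ_[2]) : ℚ_[2])
    rw [PadicInt.coe_add, PadicInt.coe_sum, hbc, hbc, hc.mul]
    simp only [Pi.add_apply, act, PadicInt.coe_mul]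
    rfl
  have hb1 : b 1 = 0 := by
    funext i
    apply Subtype.ext
    show c 1 i = ((0 : ℤ_[2]) : ℚ_[2])
    rw [hc.one]
    simp
  let act2 : MulAction (AbsGal F) (Fin n → ZMod 2) :=
    { smul := fun g x => affAct (ρ g) (b g) x
      one_smul := fun x => by
        show affAct (ρ 1) (b 1) x = x
        rw [map_one, hb1, affAct_one]
      mul_smul := fun g h x => by
        show affAct (ρ (g * h)) (b (g * h)) x = affAct (ρ g) (b g) (affAct (ρ h) (b h) x)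
        rw [map_mul]
        exact affAct_mul _ _ _ _ _ (hbmul g h) x }
  let φ := MulAction.toPermHom (AbsGal F) (Fin n → ZMod 2)
  have hφ : ∀ g x, φ g x = affAct (ρ g) (b g) x := fun g x => rfl
  have hker : ∀ g, (∀ i j, PadicInt.toZMod (ρ g i j) =
      PadicInt.toZMod ((1 : Matrix (Fin n) (Fin n) ℤ_[2]) i j)) →
      (∀ i, PadicInt.toZMod (b g i) = 0) → g ∈ φ.ker := by
    intro g hg1 hg2
    rw [MonoidHom.mem_ker]
    ext x i
    rw [hφ]
    have := congrFun (affAct_one x) i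
    simp only [affAct, Pi.zero_apply, map_zero, add_zero] at this
    simp only [affAct, hg1, hg2, add_zero]
    rw [this]
    rfl
  have hker2 : ∀ g ∈ φ.ker, ∀ i, PadicInt.toZMod (b g i) = 0 := by
    intro g hg i
    rw [MonoidHom.mem_ker] at hg
    have := congrFun (hφ g 0) i
    rw [hg] at this
    simp only [affAct, Pi.zero_apply, mul_zero, Finset.sum_const_zero, zero_add] at this
    exact this.symm
  have hopen : IsOpen (φ.ker : Set (AbsGal F)) := by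
    apply Subgroup.isOpen_of_mem_nhds (g := 1)
    have h3 : ((⋂ i, ⋂ j, {g : AbsGal F | ‖ρ g i j - (1 : Matrix (Fin n) (Fin n) ℤ_[2]) i j‖ < 1}) ∩
        ⋂ i, {g : AbsGal F | ‖c g i‖ < 1}) ∈ nhds (1 : AbsGal F) := by
      apply IsOpen.mem_nhds
      · apply IsOpen.inter
        · refine isOpen_iInter_of_finite (fun i => isOpen_iInter_of_finite (fun j => ?_))
          have h4 : Continuous (fun g : AbsGal F => ρ g i j) :=
            (continuous_apply j).comp ((continuous_apply i).comp hρ)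
          exact isOpen_lt (continuous_norm.comp (h4.sub continuous_const)) continuous_const
        · refine isOpen_iInter_of_finite (fun i => ?_)
          have h4 : Continuous (fun g : AbsGal F => c g i) := (continuous_apply i).comp hc.cont
          exact isOpen_lt (continuous_norm.comp h4) continuous_const
      · refine ⟨Set.mem_iInter.2 (fun i => Set.mem_iInter.2 (fun j => ?_)),
          Set.mem_iInter.2 (fun i => ?_)⟩
        · show ‖ρ 1 i j - _‖ < 1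
          rw [map_one, sub_self, norm_zero]
          exact one_pos
        · show ‖c 1 i‖ < 1
          rw [hc.one]
          simp
    refine Filter.mem_of_superset h3 ?_
    rintro g ⟨hg1, hg2⟩
    refine hker g (fun i j => ?_) (fun i => ?_)
    · rw [← sub_eq_zero, ← map_sub, toZMod_eq_zero_iff]
      exact Set.mem_iInter.1 (Set.mem_iInter.1 hg1 i) j
    · rw [toZMod_eq_zero_iff]
      exact Set.mem_iInter.1 hg2 i
  have hpow : ∀ g : AbsGal F, ∃ k : ℕ, g ^ (2 ^ k) ∈ φ.ker := by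
    intro g
    obtain ⟨k, hk⟩ := hres g
    refine ⟨k + 1, ?_⟩
    have e : g ^ (2 ^ (k + 1)) = g ^ (2 ^ k) * g ^ (2 ^ k) := by rw [← pow_add, pow_succ]; congr 1; ring
    have hρk : ∀ i j, PadicInt.toZMod (ρ (g ^ (2 ^ k)) i j) =
        PadicInt.toZMod ((1 : Matrix (Fin n) (Fin n) ℤ_[2]) i j) := by
      intro i j
      rw [← sub_eq_zero, ← map_sub, toZMod_eq_zero_iff, PadicInt.norm_lt_one_iff_dvd]
      exact hk i j
    have hφk : ∀ x, φ (g ^ (2 ^ k)) x = x + fun i => PadicInt.toZMod (b (g ^ (2 ^ k)) i) := by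
      intro x
      ext i
      rw [hφ]
      have := congrFun (affAct_one x) i
      simp only [affAct, Pi.zero_apply, map_zero, add_zero] at this
      simp only [affAct, hρk, Pi.add_apply]
      rw [this]
    rw [MonoidHom.mem_ker, e, map_mul]
    ext x i
    rw [Equiv.Perm.mul_apply, hφk, hφk]
    simp only [Pi.add_apply, Equiv.Perm.one_apply, add_assoc]
    rw [CharTwo.add_self_eq_zero, add_zero]
  have hin : ∀ Q : Ideal (𝓞 (AlgebraicClosure F)), Q.IsPrime →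
      (2 : 𝓞 (AlgebraicClosure F)) ∉ Q → Q.inertia (AbsGal F) ≤ φ.ker := by
    intro Q hQ hQ2 σ hσ
    obtain ⟨h3, h4⟩ := hun Q hQ hQ2 σ hσ
    refine hker σ (fun i j => ?_) (fun i => ?_)
    · rw [← sub_eq_zero, ← map_sub, toZMod_eq_zero_iff, PadicInt.norm_lt_one_iff_dvd]
      exact h3 i j
    · rw [toZMod_eq_zero_iff]
      exact h4 i
  intro σ i
  have fin : PadicInt.toZMod (b σ i) = 0 := by
    by_cases hi : i ∈ S
    · obtain ⟨δ, hδ, hu⟩ := decomp_surj hF hw' ι' φ.ker hopen hpow hin σ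
      have h3 := hbmul δ (δ⁻¹ * σ) i
      rw [mul_inv_cancel_left] at h3
      have h4 : b δ i = 0 := by
        apply Subtype.ext
        exact h2 δ hδ i hi
      rw [h3, h4, zero_add, map_sum]
      refine Finset.sum_eq_zero (fun j _ => ?_)
      rw [map_mul, hker2 _ hu j, mul_zero]
    · obtain ⟨δ, hδ, hu⟩ := decomp_surj hF hw ι φ.ker hopen hpow hin σ
      have h3 := hbmul δ (δ⁻¹ * σ) i
      rw [mul_inv_cancel_left] at h3
      have h4 : b δ i = 0 := by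
        apply Subtype.ext
        exact h1 δ hδ i hi
      rw [h3, h4, zero_add, map_sum]
      refine Finset.sum_eq_zero (fun j _ => ?_)
      rw [map_mul, hker2 _ hu j, mul_zero]
  rw [toZMod_eq_zero_iff] at fin
  exact fin

theorem IsCocyc.smul {ρ : AbsGal F →* Matrix (Fin n) (Fin n) ℤ_[2]} {c : AbsGal F → Fin n → ℚ_[2]}
    (h : IsCocyc ρ c) (a : ℚ_[2]) : IsCocyc ρ (a • c) where
  cont := h.cont.const_smul a
  mul := fun σ τ => by rw [Pi.smul_apply, Pi.smul_apply, Pi.smul_apply, h.mul, smul_add, act_smul]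

/-- The normalised cocycles vanishing on the inertia groups at finitely many places, and on the
inertia groups on which `ρ` is trivial. -/
structure Good (ρ : AbsGal F →* Matrix (Fin n) (Fin n) ℤ_[2]) (D D' : Subgroup (AbsGal F))
    (S : Set (Fin n)) (Q : HeightOneSpectrum (𝓞 F) → Ideal (𝓞 (AlgebraicClosure F)))
    (T : Finset (HeightOneSpectrum (𝓞 F))) (c : AbsGal F → Fin n → ℚ_[2]) : Prop where
  coc : IsCocyc ρ c
  z1 : ∀ σ ∈ D, ∀ i ∉ S, c σ i = 0
  z2 : ∀ σ ∈ D', ∀ i ∈ S, c σ i = 0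
  un : ∀ P : Ideal (𝓞 (AlgebraicClosure F)), P.IsPrime → (2 : 𝓞 (AlgebraicClosure F)) ∉ P →
    (∀ σ ∈ P.inertia (AbsGal F), ρ σ = 1) → ∀ σ ∈ P.inertia (AbsGal F), c σ = 0
  ram : ∀ v ∈ T, ∀ σ ∈ (Q v).inertia (AbsGal F), c σ = 0

theorem Good.smul {ρ : AbsGal F →* Matrix (Fin n) (Fin n) ℤ_[2]} {D D' : Subgroup (AbsGal F)}
    {S : Set (Fin n)} {Q : HeightOneSpectrum (𝓞 F) → Ideal (𝓞 (AlgebraicClosure F))}
    {T : Finset (HeightOneSpectrum (𝓞 F))} {c : AbsGal F → Fin n → ℚ_[2]}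
    (h : Good ρ D D' S Q T c) (a : ℚ_[2]) : Good ρ D D' S Q T (a • c) where
  coc := h.coc.smul a
  z1 := fun σ hσ i hi => by rw [Pi.smul_apply, Pi.smul_apply, h.z1 σ hσ i hi, smul_zero]
  z2 := fun σ hσ i hi => by rw [Pi.smul_apply, Pi.smul_apply, h.z2 σ hσ i hi, smul_zero]
  un := fun P hP hP2 h1 σ hσ => by rw [Pi.smul_apply, h.un P hP hP2 h1 σ hσ, smul_zero]
  ram := fun v hv σ hσ => by rw [Pi.smul_apply, h.ram v hv σ hσ, smul_zero]

variable {w w' : HeightOneSpectrum (𝓞 F)}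
    {ι : AlgebraicClosure F →ₐ[F] AlgebraicClosure (w.adicCompletion F)}
    {ι' : AlgebraicClosure F →ₐ[F] AlgebraicClosure (w'.adicCompletion F)}
    {ρ : AbsGal F →* Matrix (Fin n) (Fin n) ℤ_[2]} {S : Set (Fin n)}
    {Q : HeightOneSpectrum (𝓞 F) → Ideal (𝓞 (AlgebraicClosure F))}
    {T : Finset (HeightOneSpectrum (𝓞 F))}

theorem norm_act_sub_le {M : Matrix (Fin n) (Fin n) ℤ_[2]} (hM : ∀ i j, (2 : ℤ_[2]) ∣ (M - 1) i j)
    {x : Fin n → ℚ_[2]} (hx : ∀ i, ‖x i‖ ≤ 1) (i : Fin n) : ‖(act M x - x) i‖ ≤ 1 / 2 := by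
  have e : (act M x - x) i = ∑ j, (((M - 1) i j : ℤ_[2]) : ℚ_[2]) * x j := by
    have h1 := congrFun (act_one x) i
    rw [Pi.sub_apply]
    conv_lhs => rw [← h1]
    simp only [act]
    rw [← Finset.sum_sub_distrib]
    refine Finset.sum_congr rfl (fun j _ => ?_)
    rw [Matrix.sub_apply, PadicInt.coe_sub]
    ring
  rw [e]
  refine IsUltrametricDist.norm_sum_le_of_forall_le_of_nonneg
    (C := 1 / 2) (by norm_num) (fun j _ => ?_)
  obtain ⟨a, ha⟩ := hM i j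
  rw [ha, PadicInt.coe_mul, norm_mul, norm_mul]
  have h2 : ‖((2 : ℤ_[2]) : ℚ_[2])‖ = 1 / 2 := by
    have := Padic.norm_p (p := 2)
    rw [Nat.cast_ofNat] at this
    have e2 : ((2 : ℤ_[2]) : ℚ_[2]) = 2 := rfl
    rw [e2, this]
    norm_num
  rw [h2]
  have h3 : ‖(a : ℚ_[2])‖ ≤ 1 := a.2
  have h4 := hx j
  have h5 : ‖(a : ℚ_[2])‖ * ‖x j‖ ≤ 1 := mul_le_one₀ h3 (norm_nonneg _) h4
  nlinarith [norm_nonneg (x j), norm_nonneg (a : ℚ_[2])]

theorem norm_act_le {M : Matrix (Fin n) (Fin n) ℤ_[2]} {x : Fin n → ℚ_[2]} {C : ℝ} (hC : 0 ≤ C)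
    (hx : ∀ i, ‖x i‖ ≤ C) (i : Fin n) : ‖act M x i‖ ≤ C := by
  refine IsUltrametricDist.norm_sum_le_of_forall_le_of_nonneg hC (fun j _ => ?_)
  rw [norm_mul]
  calc ‖(M i j : ℚ_[2])‖ * ‖x j‖ ≤ 1 * C := by
        exact mul_le_mul (M i j).2 (hx j) (norm_nonneg _) zero_le_one
    _ = C := one_mul C

theorem Good.inertia_lt {D D' : Subgroup (AbsGal F)} (hord : IsOrdinary ρ D D' S)
    (hQ : ∀ v, (Q v).IsPrime ∧
      (Q v).comap (algebraMap (𝓞 F) (𝓞 (AlgebraicClosure F))) = v.asIdeal)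
    (hT : ∀ v ∉ T, (2 : 𝓞 F) ∉ v.asIdeal → ∀ σ ∈ (Q v).inertia (AbsGal F), ρ σ = 1)
    {c : AbsGal F → Fin n → ℚ_[2]} (h : Good ρ D D' S Q T c) (hb : ∀ σ i, ‖c σ i‖ ≤ 1)
    (P : Ideal (𝓞 (AlgebraicClosure F))) (hP : P.IsPrime) (hP2 : (2 : 𝓞 (AlgebraicClosure F)) ∉ P)
    (σ : AbsGal F) (hσ : σ ∈ P.inertia (AbsGal F)) (i : Fin n) : ‖c σ i‖ < 1 := by
  by_cases hbot : P.comap (algebraMap (𝓞 F) (𝓞 (AlgebraicClosure F))) = ⊥
  · have hP0 : P = ⊥ := Ideal.eq_bot_of_comap_eq_bot hbot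
    subst hP0
    rw [eq_one_of_inertia_bot hσ, h.coc.one]
    simp
  · let v : HeightOneSpectrum (𝓞 F) := ⟨P.comap _, hP.comap _, hbot⟩
    have hv2 : (2 : 𝓞 F) ∉ v.asIdeal := by
      intro h2
      apply hP2
      have : algebraMap (𝓞 F) (𝓞 (AlgebraicClosure F)) 2 ∈ P := h2
      rwa [map_ofNat] at this
    have hQv := (hQ v).1
    obtain ⟨g, hg⟩ := exists_smul_eq (F := F) (Q v) P (hQ v).2
    have hconj : ∀ τ ∈ P.inertia (AbsGal F), g⁻¹ * τ * g ∈ (Q v).inertia (AbsGal F) := by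
      intro τ hτ
      apply conj_mem_inertia
      rw [← hg]
      exact hτ
    have hρinv : ∀ g : AbsGal F, ρ g * ρ g⁻¹ = 1 := fun g => by
      rw [← map_mul, mul_inv_cancel, map_one]
    by_cases hvT : v ∈ T
    · set τ := g⁻¹ * σ * g with hτ
      have h0 : c τ = 0 := h.ram v hvT τ (hconj σ hσ)
      have hστ : σ = g * (τ * g⁻¹) := by rw [hτ]; group
      have h1 : c σ = act (ρ g) (act (ρ τ) (c g⁻¹) - c g⁻¹) := by
        have h2 : c g + act (ρ g) (c g⁻¹) = 0 := by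
          rw [← h.coc.mul, mul_inv_cancel, h.coc.one]
        rw [hστ, h.coc.mul, h.coc.mul, h0, zero_add, act_sub, eq_sub_iff_add_eq]
        rw [add_right_comm, h2, zero_add]
      rw [h1]
      refine lt_of_le_of_lt (norm_act_le (C := 1 / 2) (by norm_num) (fun j => ?_) i) (by norm_num)
      exact norm_act_sub_le (hord.unram (Q v) (hQ v).1 (by
        intro h2
        apply hv2
        have h3 : (2 : 𝓞 F) ∈ (Q v).comap (algebraMap (𝓞 F) (𝓞 (AlgebraicClosure F))) := by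
          rw [Ideal.mem_comap, map_ofNat]
          exact h2
        rw [(hQ v).2] at h3
        exact h3) τ (hconj σ hσ)) (hb _) j
    · have htriv : ∀ τ ∈ P.inertia (AbsGal F), ρ τ = 1 := by
        intro τ hτ
        have h1 := hT v hvT hv2 _ (hconj τ hτ)
        have h2 : τ = g * (g⁻¹ * τ * g) * g⁻¹ := by group
        rw [h2, map_mul, map_mul, h1, mul_one, hρinv]
      rw [h.un P hP hP2 htriv σ hσ]
      simp

theorem Good.norm_le_pow (hF : PropP F) (hw : (2 : 𝓞 F) ∈ w.asIdeal) (hw' : (2 : 𝓞 F) ∈ w'.asIdeal)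
    (hord : IsOrdinary ρ (decomp ι) (decomp ι') S)
    (hQ : ∀ v, (Q v).IsPrime ∧
      (Q v).comap (algebraMap (𝓞 F) (𝓞 (AlgebraicClosure F))) = v.asIdeal)
    (hT : ∀ v ∉ T, (2 : 𝓞 F) ∉ v.asIdeal → ∀ σ ∈ (Q v).inertia (AbsGal F), ρ σ = 1)
    (k : ℕ) : ∀ c : AbsGal F → Fin n → ℚ_[2], Good ρ (decomp ι) (decomp ι') S Q T c →
      (∀ σ i, ‖c σ i‖ ≤ 1) → ∀ σ i, ‖c σ i‖ ≤ (1 / 2) ^ k := by
  induction k with
  | zero =>
    intro c _ hb σ i
    simpa using hb σ i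
  | succ k ih =>
    intro c hc hb σ i
    have hlt := norm_lt_one hF hw hw' ι ι' hord.cont hc.coc
      (fun P hP hP2 σ hσ => ⟨hord.unram P hP hP2 σ hσ, hc.inertia_lt hord hQ hT hb P hP hP2 σ hσ⟩)
      hord.resid hc.z1 hc.z2 hb
    have h2n : ‖(2 : ℚ_[2])⁻¹‖ = 2 := by
      rw [norm_inv]
      have := Padic.norm_p (p := 2)
      rw [Nat.cast_ofNat] at this
      rw [this]
      norm_num
    have h3 := ih ((2 : ℚ_[2])⁻¹ • c) (hc.smul _) (fun σ i => by
        rw [Pi.smul_apply, Pi.smul_apply, norm_smul, h2n]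
        have h4 : ‖c σ i‖ ≤ (2 : ℕ) ^ (-1 : ℤ) := by
          rw [Padic.norm_le_pow_iff_norm_lt_pow_add_one]
          simpa using hlt σ i
        have h5 : ((2 : ℕ) : ℝ) ^ (-1 : ℤ) = 1 / 2 := by norm_num
        rw [h5] at h4
        linarith) σ i
    rw [Pi.smul_apply, Pi.smul_apply, norm_smul, h2n] at h3
    rw [pow_succ]
    linarith

theorem Good.eq_zero (hF : PropP F) (hw : (2 : 𝓞 F) ∈ w.asIdeal) (hw' : (2 : 𝓞 F) ∈ w'.asIdeal)
    (hord : IsOrdinary ρ (decomp ι) (decomp ι') S)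
    (hQ : ∀ v, (Q v).IsPrime ∧
      (Q v).comap (algebraMap (𝓞 F) (𝓞 (AlgebraicClosure F))) = v.asIdeal)
    (hT : ∀ v ∉ T, (2 : 𝓞 F) ∉ v.asIdeal → ∀ σ ∈ (Q v).inertia (AbsGal F), ρ σ = 1)
    {c : AbsGal F → Fin n → ℚ_[2]} (h : Good ρ (decomp ι) (decomp ι') S Q T c) : c = 0 := by
  obtain ⟨C, hC⟩ : ∃ C : ℝ, ∀ σ : AbsGal F, ‖c σ‖ ≤ C := by
    obtain ⟨C, hC⟩ := (isCompact_range h.coc.cont).isBounded.exists_norm_le
    exact ⟨C, fun σ => hC _ ⟨σ, rfl⟩⟩
  obtain ⟨m, hm⟩ := pow_unbounded_of_one_lt C (one_lt_two)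
  have h2n : ‖(2 : ℚ_[2]) ^ m‖ = (1 / 2) ^ m := by
    rw [norm_pow]
    have := Padic.norm_p (p := 2)
    rw [Nat.cast_ofNat] at this
    rw [this]
    norm_num
  have hb : ∀ σ i, ‖((2 : ℚ_[2]) ^ m • c) σ i‖ ≤ 1 := by
    intro σ i
    rw [Pi.smul_apply, Pi.smul_apply, norm_smul, h2n]
    have h3 : ‖c σ i‖ ≤ 2 ^ m := (norm_le_pi_norm (c σ) i).trans ((hC σ).trans hm.le)
    calc (1 / 2 : ℝ) ^ m * ‖c σ i‖ ≤ (1 / 2) ^ m * 2 ^ m :=
          mul_le_mul_of_nonneg_left h3 (by positivity)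
      _ = 1 := by rw [← mul_pow]; norm_num
  have hzero : (2 : ℚ_[2]) ^ m • c = 0 := by
    funext σ i
    rw [Pi.zero_apply, Pi.zero_apply, ← norm_le_zero_iff]
    have h3 : ∀ k : ℕ, ‖((2 : ℚ_[2]) ^ m • c) σ i‖ ≤ (1 / 2) ^ k := fun k =>
      Good.norm_le_pow hF hw hw' hord hQ hT k _ (h.smul _) hb σ i
    exact ge_of_tendsto' (tendsto_pow_atTop_nhds_zero_of_lt_one (by norm_num) (by norm_num)) h3
  exact (smul_eq_zero.1 hzero).resolve_left (pow_ne_zero _ two_ne_zero)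

end key

end Pool.Agent.Work.MP_787500_nt
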