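import Mathlib
import Pool.Agent.Work.MP_787500_nt.H67_Defs

/-!
Definitions for the statement on representations that are residually sums of the trivial and the
cyclotomic character, with complementary conditions at two primes.
-/

set_option autoImplicit false

namespace Pool.Agent.Work.MP_787500_nt.OddP.Ord

open IsDedekindDomain NumberField
open scoped Pointwise

universe u

variable {p : ℕ} [Fact p.Prime] {F : Type u} [Field F] {n : ℕ}

/-- The functions `c` on the Galois group vanishing on the subgroup `D` in all coordinates outside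
`S`. -/
def zeroOn (D : Subgroup (AbsGal F)) (S : Set (Fin n)) :
    Submodule ℚ_[p] (AbsGal F → Fin n → ℚ_[p]) where
  carrier := {c | ∀ σ ∈ D, ∀ i ∉ S, c σ i = 0}
  add_mem' := fun ha hb σ hσ i hi => by simp [ha σ hσ i hi, hb σ hσ i hi]
  zero_mem' := fun _ _ _ _ => rfl
  smul_mem' := fun a c hc σ hσ i hi => by simp [hc σ hσ i hi]

/-- The functions `c` whose restriction to the subgroup `D` agrees with a coboundary in all
coordinates outside `S`. -/
noncomputable def locally (ρ : AbsGal F →* Matrix (Fin n) (Fin n) ℤ_[p]) (D : Subgroup (AbsGal F))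
    (S : Set (Fin n)) : Submodule ℚ_[p] (AbsGal F → Fin n → ℚ_[p]) :=
  LinearMap.range (cobLin ρ) ⊔ zeroOn D S

/-- The Selmer space: continuous cocycles that become coboundaries on the inertia groups of all
primes of the ring of algebraic integers not containing `p`, on the decomposition group (the
stabilizer) of `P` become coboundaries in the coordinates outside `S`, and on the decomposition
group of `P'` become coboundaries in the coordinates in `S`. -/
noncomputable def selmer (ρ : AbsGal F →* Matrix (Fin n) (Fin n) ℤ_[p])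
    (P P' : Ideal (𝓞 (AlgebraicClosure F))) (S : Set (Fin n)) :
    Submodule ℚ_[p] (AbsGal F → Fin n → ℚ_[p]) :=
  cocycles ρ ⊓ locally ρ (MulAction.stabilizer (AbsGal F) P) S ⊓
    locally ρ (MulAction.stabilizer (AbsGal F) P') Sᶜ ⊓
    ⨅ (Q : Ideal (𝓞 (AlgebraicClosure F))) (_ : Q.IsPrime) (_ : (p : 𝓞 (AlgebraicClosure F)) ∉ Q),
      locally ρ (Q.inertia (AbsGal F)) ∅

/-- The dimension of the Selmer space modulo coboundaries. -/
noncomputable def selmerDim (ρ : AbsGal F →* Matrix (Fin n) (Fin n) ℤ_[p])
    (P P' : Ideal (𝓞 (AlgebraicClosure F))) (S : Set (Fin n)) : Cardinal :=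
  Module.rank ℚ_[p] (selmer ρ P P' S ⧸
    (LinearMap.range (cobLin ρ)).submoduleOf (selmer ρ P P' S))

/-- `ρ` satisfies `IsResid`, the decomposition group of `P` preserves the span of the coordinate
vectors with index in `S`, and the decomposition group of `P'` preserves the span of the coordinate
vectors with index outside `S`. -/
structure IsOrd (ρ : AbsGal F →* Matrix (Fin n) (Fin n) ℤ_[p])
    (P P' : Ideal (𝓞 (AlgebraicClosure F))) (S : Set (Fin n)) : Prop where
  resid : IsResid ρ
  left : ∀ σ ∈ MulAction.stabilizer (AbsGal F) P, ∀ i ∉ S, ∀ j ∈ S, ρ σ i j = 0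
  right : ∀ σ ∈ MulAction.stabilizer (AbsGal F) P', ∀ i ∈ S, ∀ j ∉ S, ρ σ i j = 0

end Pool.Agent.Work.MP_787500_nt.OddP.Ord
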