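import Mathlib
import Pool.Agent.Work.MP_787500_nt.H67_OrdDefs

/-!
Selmer spaces with arbitrary local conditions at two primes containing `p`: definitions.
-/

set_option autoImplicit false

namespace Pool.Agent.Work.MP_787500_nt.OddP.Loc

open IsDedekindDomain NumberField
open scoped Pointwise

universe u

variable {p : ℕ} [Fact p.Prime] {F : Type u} [Field F] {n : ℕ}

/-- The Selmer space with local conditions `L` and `L'`: continuous cocycles that become coboundaries
on the inertia groups of all primes of the ring of algebraic integers not containing `p`, that on the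
decomposition group (the stabilizer) of `P`, in the coordinates outside `S`, agree with an element of
`L` plus a coboundary, and that on the decomposition group of `P'`, in the coordinates in `S`, agree
with an element of `L'` plus a coboundary. -/
noncomputable def selmer (ρ : AbsGal F →* Matrix (Fin n) (Fin n) ℤ_[p])
    (P P' : Ideal (𝓞 (AlgebraicClosure F))) (S : Set (Fin n))
    (L L' : Submodule ℚ_[p] (AbsGal F → Fin n → ℚ_[p])) :
    Submodule ℚ_[p] (AbsGal F → Fin n → ℚ_[p]) :=
  cocycles ρ ⊓ (L ⊔ Ord.locally ρ (MulAction.stabilizer (AbsGal F) P) S) ⊓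
    (L' ⊔ Ord.locally ρ (MulAction.stabilizer (AbsGal F) P') Sᶜ) ⊓
    ⨅ (Q : Ideal (𝓞 (AlgebraicClosure F))) (_ : Q.IsPrime) (_ : (p : 𝓞 (AlgebraicClosure F)) ∉ Q),
      Ord.locally ρ (Q.inertia (AbsGal F)) ∅

/-- The dimension of `L` modulo `M`, that is, of the quotient of `L` by its intersection with `M`. -/
noncomputable def dimMod (L M : Submodule ℚ_[p] (AbsGal F → Fin n → ℚ_[p])) : Cardinal :=
  Module.rank ℚ_[p] (L ⧸ M.submoduleOf L)

/-- For all local conditions `L` and `L'`, the Selmer space contains the coboundaries and its dimension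
modulo coboundaries is at most the sum of the dimension of `L` modulo the functions that on the
stabilizer of `P`, in the coordinates outside `S`, are coboundaries, of the dimension of `L'` modulo the
functions that on the stabilizer of `P'`, in the coordinates in `S`, are coboundaries, and of the numbers
`n - dim V ^ (I_v)` for `v` in `T`, where `V ^ (I_v)` is the space of vectors fixed by the inertia group
of `Q v`. -/
def SelmerBound [NumberField F] (ρ : AbsGal F →* Matrix (Fin n) (Fin n) ℤ_[p])
    (P P' : Ideal (𝓞 (AlgebraicClosure F))) (S : Set (Fin n))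
    (Q : HeightOneSpectrum (𝓞 F) → Ideal (𝓞 (AlgebraicClosure F)))
    (T : Finset (HeightOneSpectrum (𝓞 F))) : Prop :=
  ∀ L L' : Submodule ℚ_[p] (AbsGal F → Fin n → ℚ_[p]),
    LinearMap.range (cobLin ρ) ≤ selmer ρ P P' S L L' ∧
    dimMod (selmer ρ P P' S L L') (LinearMap.range (cobLin ρ)) ≤
      dimMod L (Ord.locally ρ (MulAction.stabilizer (AbsGal F) P) S) +
        dimMod L' (Ord.locally ρ (MulAction.stabilizer (AbsGal F) P') Sᶜ) +
        ((∑ v ∈ T, (n - Module.finrank ℚ_[p] (inertiaInv ρ (Q v))) : ℕ) : Cardinal)

end Pool.Agent.Work.MP_787500_nt.OddP.Loc
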