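import Mathlib
import Pool.Agent.Work.MP_787500_nt.H67_Coh
import Pool.Agent.Work.MP_787500_nt.H67_OrdDefs

/-!
The dimension of the Selmer space with complementary conditions at two primes above `p`, given the
vanishing for characters modulo `p`.
-/

set_option autoImplicit false
set_option linter.unusedSectionVars false

namespace Pool.Agent.Work.MP_787500_nt.OddP.Ord

open IsDedekindDomain NumberField COH
open scoped Pointwise

universe u

variable {p : ℕ} [Fact p.Prime] {F : Type u} [Field F] {n : ℕ}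

/-- the vanishing of the cocycles for both characters -/
def VV (p : ℕ) [Fact p.Prime] (P : Ideal (𝓞 (AlgebraicClosure F))) : Prop :=
  Vanish p P (1 : AbsGal F →* ZMod p) ∧
    ∀ ω : AbsGal F →* ZMod p, (∀ σ (z : AlgebraicClosure F), z ^ p = 1 →
      σ z = z ^ (ω σ).val) → Vanish p P ω

section key

theorem norm_lt_one {P P' : Ideal (𝓞 (AlgebraicClosure F))} {S : Set (Fin n)}
    (hVP : VV p P) (hVP' : VV p P')
    {ρ : AbsGal F →* Matrix (Fin n) (Fin n) ℤ_[p]} (hρ : IsResid ρ)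
    {c : AbsGal F → Fin n → ℚ_[p]} (hc : IsCocyc ρ c)
    (hun : ∀ Q : Ideal (𝓞 (AlgebraicClosure F)), Q.IsPrime → (p : 𝓞 (AlgebraicClosure F)) ∉ Q →
      ∀ σ ∈ Q.inertia (AbsGal F), ∀ i, ‖c σ i‖ < 1)
    (hP : ∀ σ ∈ MulAction.stabilizer (AbsGal F) P, ∀ i ∉ S, c σ i = 0)
    (hP' : ∀ σ ∈ MulAction.stabilizer (AbsGal F) P', ∀ i ∈ S, c σ i = 0)
    (hb : ∀ σ i, ‖c σ i‖ ≤ 1) :
    ∀ σ i, ‖c σ i‖ < 1 := by
  let b : AbsGal F → Fin n → ℤ_[p] := fun σ i => ⟨c σ i, hb σ i⟩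
  have hbc : ∀ σ i, (b σ i : ℚ_[p]) = c σ i := fun σ i => rfl
  have hbn : ∀ σ i, ‖b σ i‖ = ‖c σ i‖ := fun σ i => rfl
  have hbmul : ∀ σ τ i, b (σ * τ) i = b σ i + ∑ j, ρ σ i j * b τ j := by
    intro σ τ i
    apply Subtype.ext
    show (b (σ * τ) i : ℚ_[p]) = ((b σ i + ∑ j, ρ σ i j * b τ j : ℤ_[p]) : ℚ_[p])
    rw [PadicInt.coe_add, PadicInt.coe_sum, hbc, hbc, hc.mul]
    simp only [Pi.add_apply, actLin_apply, PadicInt.coe_mul]
    rfl
  have hb1 : ∀ i, b 1 i = 0 := by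
    intro i
    apply Subtype.ext
    show c 1 i = ((0 : ℤ_[p]) : ℚ_[p])
    rw [hc.one]
    simp
  -- downward induction on the coordinate
  have key : ∀ m : ℕ, ∀ i : Fin n, n - 1 - (i : ℕ) ≤ m → ∀ σ, PadicInt.toZMod (b σ i) = 0 := by
    intro m
    induction m with
    | zero => ?_
    | succ m ih => ?_
    all_goals
      intro i hi
      have hhigh : ∀ j : Fin n, i < j → ∀ σ, PadicInt.toZMod (b σ j) = 0 := by
        intro j hj σ
        have hij : (i : ℕ) < (j : ℕ) := hj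
        have hjn := j.2
        first
          | exact absurd hi (by omega)
          | exact ih j (by omega) σ
      let χ := diagChar hρ.upper i
      have hχ : ∀ σ, χ σ = PadicInt.toZMod (ρ σ i i) := fun σ => rfl
      let d : AbsGal F → ZMod p := fun σ => PadicInt.toZMod (b σ i)
      have hd : ∀ σ, d σ = PadicInt.toZMod (b σ i) := fun σ => rfl
      have hdmul : ∀ σ τ, d (σ * τ) = d σ + χ σ * d τ := by
        intro σ τ
        rw [hd, hbmul, map_add, map_sum, Finset.sum_eq_single i]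
        · rw [map_mul]
          rfl
        · intro j _ hj
          rw [map_mul]
          rcases lt_or_gt_of_ne hj with h | h
          · rw [(toZMod_eq_zero_iff_dvd _).2 (hρ.upper σ i j h), zero_mul]
          · rw [hhigh j h τ, mul_zero]
        · intro h
          exact absurd (Finset.mem_univ i) h
      have hd1 : d 1 = 0 := by rw [hd, hb1, map_zero]
      let V : Subgroup (AbsGal F) :=
        { carrier := {v | d v = 0}
          one_mem' := hd1
          mul_mem' := by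
            intro v w hv hw
            show d (v * w) = 0
            rw [hdmul, show d v = 0 from hv, show d w = 0 from hw, mul_zero, add_zero]
          inv_mem' := by
            intro v hv
            show d v⁻¹ = 0
            have h3 := hdmul v⁻¹ v
            rw [inv_mul_cancel, hd1, show d v = 0 from hv, mul_zero, add_zero] at h3
            exact h3.symm }
      have hVopen : IsOpen (V : Set (AbsGal F)) := by
        apply Subgroup.isOpen_of_mem_nhds (g := 1)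
        have h4 : Continuous (fun g : AbsGal F => c g i) := (continuous_apply i).comp hc.cont
        have h3 : {g : AbsGal F | ‖c g i‖ < 1} ∈ nhds (1 : AbsGal F) := by
          apply IsOpen.mem_nhds (isOpen_lt (continuous_norm.comp h4) continuous_const)
          show ‖c 1 i‖ < 1
          rw [hc.one]
          simp
        refine Filter.mem_of_superset h3 ?_
        intro g hg
        show d g = 0
        rw [hd, toZMod_eq_zero_iff]
        exact hg
      have hVd : ∀ σ, ∀ v ∈ V, d (σ * v) = d σ := by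
        intro σ v hv
        rw [hdmul, show d v = 0 from hv, mul_zero, add_zero]
      obtain ⟨P₀, ⟨h1, h2⟩, hdP⟩ : ∃ P₀ : Ideal (𝓞 (AlgebraicClosure F)), VV p P₀ ∧
          ∀ σ ∈ MulAction.stabilizer (AbsGal F) P₀, d σ = 0 := by
        by_cases hiS : i ∈ S
        · refine ⟨P', hVP', fun σ hσ => ?_⟩
          have h3 : b σ i = 0 := by
            apply Subtype.ext
            show c σ i = ((0 : ℤ_[p]) : ℚ_[p])
            rw [hP' σ hσ i hiS]
            simp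
          rw [hd, h3, map_zero]
        · refine ⟨P, hVP, fun σ hσ => ?_⟩
          have h3 : b σ i = 0 := by
            apply Subtype.ext
            show c σ i = ((0 : ℤ_[p]) : ℚ_[p])
            rw [hP σ hσ i hiS]
            simp
          rw [hd, h3, map_zero]
      have hdI : ∀ Q : Ideal (𝓞 (AlgebraicClosure F)), Q.IsPrime →
          (p : 𝓞 (AlgebraicClosure F)) ∉ Q → ∀ σ ∈ Q.inertia (AbsGal F), d σ = 0 := by
        intro Q hQ hQp σ hσ
        rw [hd, toZMod_eq_zero_iff]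
        exact hun Q hQ hQp σ hσ i
      rcases hρ.diag i with hdi | hdi
      · have hχ1 : χ = 1 := by
          ext σ
          rw [hχ, MonoidHom.one_apply, ← sub_eq_zero, ← map_one (PadicInt.toZMod (p := p)),
            ← map_sub, toZMod_eq_zero_iff_dvd]
          exact hdi σ
        exact h1 d (fun σ τ => by rw [hdmul, hχ1]) ⟨V, hVopen, hVd⟩ hdP hdI
      · refine h2 χ (fun σ z hz => ?_) d hdmul ⟨V, hVopen, hVd⟩ hdP hdI
        obtain ⟨m, hm, hmz⟩ := hdi σ
        have h3 : χ σ = (m : ZMod p) := by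
          rw [hχ, ← sub_eq_zero, ← map_natCast (PadicInt.toZMod (p := p)), ← map_sub,
            toZMod_eq_zero_iff_dvd]
          exact hm
        rw [hmz z hz, h3, ZMod.val_natCast]
        conv_lhs => rw [← Nat.div_add_mod m p, pow_add, pow_mul, hz, one_pow, one_mul]
  intro σ i
  have h3 := key (n - 1 - (i : ℕ)) i le_rfl σ
  rw [toZMod_eq_zero_iff, hbn] at h3
  exact h3

/-- The normalised cocycles vanishing on the inertia groups at finitely many places, and on the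
inertia groups on which `ρ` is trivial. -/
structure Good (ρ : AbsGal F →* Matrix (Fin n) (Fin n) ℤ_[p])
    (P P' : Ideal (𝓞 (AlgebraicClosure F))) (S : Set (Fin n))
    (Q : HeightOneSpectrum (𝓞 F) → Ideal (𝓞 (AlgebraicClosure F)))
    (T : Finset (HeightOneSpectrum (𝓞 F))) (c : AbsGal F → Fin n → ℚ_[p]) : Prop where
  coc : IsCocyc ρ c
  z1 : ∀ σ ∈ MulAction.stabilizer (AbsGal F) P, ∀ i ∉ S, c σ i = 0
  z2 : ∀ σ ∈ MulAction.stabilizer (AbsGal F) P', ∀ i ∈ S, c σ i = 0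
  un : ∀ P' : Ideal (𝓞 (AlgebraicClosure F)), P'.IsPrime → (p : 𝓞 (AlgebraicClosure F)) ∉ P' →
    (∀ σ ∈ P'.inertia (AbsGal F), ρ σ = 1) → ∀ σ ∈ P'.inertia (AbsGal F), c σ = 0
  ram : ∀ v ∈ T, ∀ σ ∈ (Q v).inertia (AbsGal F), c σ = 0

theorem Good.smul {ρ : AbsGal F →* Matrix (Fin n) (Fin n) ℤ_[p]}
    {P P' : Ideal (𝓞 (AlgebraicClosure F))} {S : Set (Fin n)}
    {Q : HeightOneSpectrum (𝓞 F) → Ideal (𝓞 (AlgebraicClosure F))}
    {T : Finset (HeightOneSpectrum (𝓞 F))} {c : AbsGal F → Fin n → ℚ_[p]}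
    (h : Good ρ P P' S Q T c) (a : ℚ_[p]) : Good ρ P P' S Q T (a • c) where
  coc := h.coc.smul a
  z1 := fun σ hσ i hi => by rw [Pi.smul_apply, Pi.smul_apply, h.z1 σ hσ i hi, smul_zero]
  z2 := fun σ hσ i hi => by rw [Pi.smul_apply, Pi.smul_apply, h.z2 σ hσ i hi, smul_zero]
  un := fun P hP hP2 h1 σ hσ => by rw [Pi.smul_apply, h.un P hP hP2 h1 σ hσ, smul_zero]
  ram := fun v hv σ hσ => by rw [Pi.smul_apply, h.ram v hv σ hσ, smul_zero]

variable [NumberField F]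
  {ρ : AbsGal F →* Matrix (Fin n) (Fin n) ℤ_[p]} {P P' : Ideal (𝓞 (AlgebraicClosure F))}
  {S : Set (Fin n)}
  {Q : HeightOneSpectrum (𝓞 F) → Ideal (𝓞 (AlgebraicClosure F))}
  {T : Finset (HeightOneSpectrum (𝓞 F))}

theorem Good.inertia_lt (hρ : IsResid ρ) (hT : IsRamSet ρ Q T)
    {c : AbsGal F → Fin n → ℚ_[p]} (h : Good ρ P P' S Q T c) (hb : ∀ σ i, ‖c σ i‖ ≤ 1)
    (R : Ideal (𝓞 (AlgebraicClosure F))) (hP : R.IsPrime)
    (hP2 : (p : 𝓞 (AlgebraicClosure F)) ∉ R)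
    (σ : AbsGal F) (hσ : σ ∈ R.inertia (AbsGal F)) (i : Fin n) : ‖c σ i‖ < 1 := by
  have hp1 : (1 : ℝ) < p := by exact_mod_cast (Fact.out : p.Prime).one_lt
  by_cases hbot : R.comap (algebraMap (𝓞 F) (𝓞 (AlgebraicClosure F))) = ⊥
  · have hP0 : R = ⊥ := Ideal.eq_bot_of_comap_eq_bot hbot
    subst hP0
    rw [eq_one_of_inertia_bot hσ, h.coc.one]
    simp
  · let v : HeightOneSpectrum (𝓞 F) := ⟨R.comap _, hP.comap _, hbot⟩
    have hv2 : (p : 𝓞 F) ∉ v.asIdeal := by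
      intro h2
      apply hP2
      have : algebraMap (𝓞 F) (𝓞 (AlgebraicClosure F)) p ∈ R := h2
      rwa [map_natCast] at this
    have hQv := hT.prime v
    obtain ⟨g, hg⟩ := exists_smul_eq (F := F) (Q v) R (hT.above v)
    have hconj : ∀ τ ∈ R.inertia (AbsGal F), g⁻¹ * τ * g ∈ (Q v).inertia (AbsGal F) := by
      intro τ hτ
      apply conj_mem_inertia
      rw [← hg]
      exact hτ
    have hρinv : ∀ g : AbsGal F, ρ g * ρ g⁻¹ = 1 := fun g => by
      rw [← map_mul, mul_inv_cancel, map_one]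
    by_cases hvT : v ∈ T
    · set τ := g⁻¹ * σ * g with hτ
      have h0 : c τ = 0 := h.ram v hvT τ (hconj σ hσ)
      have hστ : σ = g * (τ * g⁻¹) := by rw [hτ]; group
      have h1 : c σ = actLin (ρ g) (actLin (ρ τ) (c g⁻¹) - c g⁻¹) := by
        have h2 : c g + actLin (ρ g) (c g⁻¹) = 0 := by
          rw [← h.coc.mul, mul_inv_cancel, h.coc.one]
        rw [hστ, h.coc.mul, h.coc.mul, h0, zero_add, map_sub, eq_sub_iff_add_eq]
        rw [add_right_comm, h2, zero_add]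
      rw [h1]
      refine lt_of_le_of_lt (norm_act_le (C := (p : ℝ)⁻¹) (by positivity) (fun j => ?_) i)
        (inv_lt_one_of_one_lt₀ hp1)
      exact norm_act_sub_le (hρ.unram (Q v) (hT.prime v) (notMem_above hT hv2) τ (hconj σ hσ))
        (hb _) j
    · have htriv : ∀ τ ∈ R.inertia (AbsGal F), ρ τ = 1 := by
        intro τ hτ
        have h1 := hT.unram v hvT hv2 _ (hconj τ hτ)
        have h2 : τ = g * (g⁻¹ * τ * g) * g⁻¹ := by group
        rw [h2, map_mul, map_mul, h1, mul_one, hρinv]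
      rw [h.un R hP hP2 htriv σ hσ]
      simp

theorem Good.norm_le_pow (hVP : VV p P) (hVP' : VV p P')
    (hρ : IsResid ρ) (hT : IsRamSet ρ Q T)
    (k : ℕ) : ∀ c : AbsGal F → Fin n → ℚ_[p], Good ρ P P' S Q T c →
      (∀ σ i, ‖c σ i‖ ≤ 1) → ∀ σ i, ‖c σ i‖ ≤ ((p : ℝ)⁻¹) ^ k := by
  have hp0 : (0 : ℝ) < p := by exact_mod_cast (Fact.out : p.Prime).pos
  induction k with
  | zero =>
    intro c _ hb σ i
    simpa using hb σ i
  | succ k ih =>
    intro c hc hb σ i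
    have hlt := norm_lt_one hVP hVP' hρ hc.coc
      (fun P hP hP2 σ hσ => hc.inertia_lt hρ hT hb P hP hP2 σ hσ) hc.z1 hc.z2 hb
    have h2n : ‖(p : ℚ_[p])⁻¹‖ = p := by
      rw [norm_inv, Padic.norm_p, inv_inv]
    have h3 := ih ((p : ℚ_[p])⁻¹ • c) (hc.smul _) (fun σ i => by
        rw [Pi.smul_apply, Pi.smul_apply, norm_smul, h2n]
        have h4 : ‖c σ i‖ ≤ (p : ℝ) ^ (-1 : ℤ) := by
          rw [Padic.norm_le_pow_iff_norm_lt_pow_add_one]
          simpa using hlt σ i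
        rw [zpow_neg_one] at h4
        calc (p : ℝ) * ‖c σ i‖ ≤ p * (p : ℝ)⁻¹ := mul_le_mul_of_nonneg_left h4 hp0.le
          _ = 1 := mul_inv_cancel₀ hp0.ne') σ i
    rw [Pi.smul_apply, Pi.smul_apply, norm_smul, h2n] at h3
    rw [pow_succ]
    calc ‖c σ i‖ = (p : ℝ) * ‖c σ i‖ * (p : ℝ)⁻¹ := by field_simp
      _ ≤ ((p : ℝ)⁻¹) ^ k * (p : ℝ)⁻¹ := mul_le_mul_of_nonneg_right h3 (by positivity)

theorem Good.eq_zero (hVP : VV p P) (hVP' : VV p P')
    (hρ : IsResid ρ) (hT : IsRamSet ρ Q T)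
    {c : AbsGal F → Fin n → ℚ_[p]} (h : Good ρ P P' S Q T c) : c = 0 := by
  have hp1 : (1 : ℝ) < p := by exact_mod_cast (Fact.out : p.Prime).one_lt
  obtain ⟨C, hC⟩ : ∃ C : ℝ, ∀ σ : AbsGal F, ‖c σ‖ ≤ C := by
    obtain ⟨C, hC⟩ := (isCompact_range h.coc.cont).isBounded.exists_norm_le
    exact ⟨C, fun σ => hC _ ⟨σ, rfl⟩⟩
  obtain ⟨m, hm⟩ := pow_unbounded_of_one_lt C hp1
  have h2n : ‖(p : ℚ_[p]) ^ m‖ = ((p : ℝ)⁻¹) ^ m := by
    rw [norm_pow, Padic.norm_p]
  have hb : ∀ σ i, ‖((p : ℚ_[p]) ^ m • c) σ i‖ ≤ 1 := by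
    intro σ i
    rw [Pi.smul_apply, Pi.smul_apply, norm_smul, h2n]
    have h3 : ‖c σ i‖ ≤ (p : ℝ) ^ m := (norm_le_pi_norm (c σ) i).trans ((hC σ).trans hm.le)
    calc ((p : ℝ)⁻¹) ^ m * ‖c σ i‖ ≤ ((p : ℝ)⁻¹) ^ m * (p : ℝ) ^ m :=
          mul_le_mul_of_nonneg_left h3 (by positivity)
      _ = 1 := by rw [← mul_pow, inv_mul_cancel₀ (by positivity), one_pow]
  have hzero : (p : ℚ_[p]) ^ m • c = 0 := by
    funext σ i
    rw [Pi.zero_apply, Pi.zero_apply, ← norm_le_zero_iff]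
    have h3 : ∀ k : ℕ, ‖((p : ℚ_[p]) ^ m • c) σ i‖ ≤ ((p : ℝ)⁻¹) ^ k := fun k =>
      Good.norm_le_pow hVP hVP' hρ hT k _ (h.smul _) hb σ i
    exact ge_of_tendsto' (tendsto_pow_atTop_nhds_zero_of_lt_one (by positivity)
      (inv_lt_one_of_one_lt₀ hp1)) h3
  have hpne : (p : ℚ_[p]) ≠ 0 := by
    exact_mod_cast (Fact.out : p.Prime).ne_zero
  exact (smul_eq_zero.1 hzero).resolve_left (pow_ne_zero _ hpne)

end key

section selmer

variable {ρ : AbsGal F →* Matrix (Fin n) (Fin n) ℤ_[p]}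

theorem mem_locally {D : Subgroup (AbsGal F)} {S : Set (Fin n)} {c : AbsGal F → Fin n → ℚ_[p]} :
    c ∈ locally ρ D S ↔ ∃ x : Fin n → ℚ_[p], ∀ σ ∈ D, ∀ i ∉ S,
      c σ i = actLin (ρ σ) x i - x i := by
  rw [locally, Submodule.mem_sup]
  constructor
  · rintro ⟨_, ⟨x, rfl⟩, b, hb, rfl⟩
    refine ⟨x, fun σ hσ i hi => ?_⟩
    rw [Pi.add_apply, Pi.add_apply, hb σ hσ i hi, add_zero, cobLin_apply]
  · rintro ⟨x, hx⟩
    refine ⟨cobLin ρ x, ⟨x, rfl⟩, c - cobLin ρ x, ?_, by abel⟩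
    intro σ hσ i hi
    rw [Pi.sub_apply, Pi.sub_apply, hx σ hσ i hi, cobLin_apply, sub_self]

theorem mem_selmer {P P' : Ideal (𝓞 (AlgebraicClosure F))} {S : Set (Fin n)}
    {c : AbsGal F → Fin n → ℚ_[p]} :
    c ∈ selmer ρ P P' S ↔ IsCocyc ρ c ∧
      (∃ x : Fin n → ℚ_[p], ∀ σ ∈ MulAction.stabilizer (AbsGal F) P, ∀ i ∉ S,
        c σ i = actLin (ρ σ) x i - x i) ∧
      (∃ x : Fin n → ℚ_[p], ∀ σ ∈ MulAction.stabilizer (AbsGal F) P', ∀ i ∈ S,
        c σ i = actLin (ρ σ) x i - x i) ∧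
      ∀ Q : Ideal (𝓞 (AlgebraicClosure F)), Q.IsPrime → (p : 𝓞 (AlgebraicClosure F)) ∉ Q →
        ∃ x : Fin n → ℚ_[p], ∀ σ ∈ Q.inertia (AbsGal F), c σ = actLin (ρ σ) x - x := by
  rw [selmer]
  simp only [Submodule.mem_inf, Submodule.mem_iInf, mem_locally, mem_cocycles, and_assoc,
    Set.mem_compl_iff, not_not, Set.mem_empty_iff_false, not_false_eq_true, forall_true_left,
    funext_iff, Pi.sub_apply]

theorem cobLin_mem_selmer (hρ : Continuous ρ) {P P' : Ideal (𝓞 (AlgebraicClosure F))}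
    {S : Set (Fin n)} (x : Fin n → ℚ_[p]) : cobLin ρ x ∈ selmer ρ P P' S :=
  mem_selmer.2 ⟨cobLin_isCocyc hρ x, ⟨x, fun _ _ _ _ => rfl⟩, ⟨x, fun _ _ _ _ => rfl⟩,
    fun _ _ _ => ⟨x, fun _ _ => rfl⟩⟩

theorem exists_normalised {P P' : Ideal (𝓞 (AlgebraicClosure F))} {S : Set (Fin n)}
    (hρ : IsOrd ρ P P' S) {c : AbsGal F → Fin n → ℚ_[p]} (hc : c ∈ selmer ρ P P' S) :
    ∃ x, c - cobLin ρ x ∈ selmer ρ P P' S ⊓ (zeroOn (MulAction.stabilizer (AbsGal F) P) S ⊓
      zeroOn (MulAction.stabilizer (AbsGal F) P') Sᶜ) := by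
  classical
  obtain ⟨-, ⟨x, hx⟩, ⟨x', hx'⟩, -⟩ := mem_selmer.1 hc
  let y : Fin n → ℚ_[p] := fun i => if i ∈ S then x' i else x i
  refine ⟨y, Submodule.sub_mem _ hc (cobLin_mem_selmer hρ.resid.cont y), ?_, ?_⟩
  · intro σ hσ i hi
    rw [Pi.sub_apply, Pi.sub_apply, hx σ hσ i hi, cobLin_apply]
    have h1 : actLin (ρ σ) y i = actLin (ρ σ) x i := by
      rw [actLin_apply, actLin_apply]
      refine Finset.sum_congr rfl (fun j _ => ?_)
      by_cases hj : j ∈ S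
      · rw [hρ.left σ hσ i hi j hj]
        simp
      · simp [y, hj]
    have h2 : y i = x i := by simp [y, hi]
    rw [h1, h2, sub_self]
  · intro σ hσ i hi
    rw [Set.mem_compl_iff, not_not] at hi
    rw [Pi.sub_apply, Pi.sub_apply, hx' σ hσ i hi, cobLin_apply]
    have h1 : actLin (ρ σ) y i = actLin (ρ σ) x' i := by
      rw [actLin_apply, actLin_apply]
      refine Finset.sum_congr rfl (fun j _ => ?_)
      by_cases hj : j ∈ S
      · simp [y, hj]
      · rw [hρ.right σ hσ i hi j hj]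
        simp
    have h2 : y i = x' i := by simp [y, hi]
    rw [h1, h2, sub_self]

theorem rank_selmer_le [NumberField F] {P P' : Ideal (𝓞 (AlgebraicClosure F))} {S : Set (Fin n)}
    {Q : HeightOneSpectrum (𝓞 F) → Ideal (𝓞 (AlgebraicClosure F))}
    {T : Finset (HeightOneSpectrum (𝓞 F))}
    (hVP : VV p P) (hVP' : VV p P') (hρ : IsOrd ρ P P' S) (hT : IsRamSet ρ Q T) :
    Module.rank ℚ_[p] (selmer ρ P P' S ⧸
        (LinearMap.range (cobLin ρ)).submoduleOf (selmer ρ P P' S)) ≤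
      ((∑ v ∈ T, (n - Module.finrank ℚ_[p] (inertiaInv ρ (Q v))) : ℕ) : Cardinal) := by
  classical
  set Sel := selmer ρ P P' S with hSel
  set Z : Submodule ℚ_[p] (AbsGal F → Fin n → ℚ_[p]) :=
    Sel ⊓ (zeroOn (MulAction.stabilizer (AbsGal F) P) S ⊓
      zeroOn (MulAction.stabilizer (AbsGal F) P') Sᶜ) with hZ
  have hZS : Z ≤ Sel := inf_le_left
  -- the surjection
  let f : Z →ₗ[ℚ_[p]] (Sel ⧸ (LinearMap.range (cobLin ρ)).submoduleOf Sel) :=
    (Submodule.mkQ _).comp (Submodule.inclusion hZS)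
  have hf : Function.Surjective f := by
    intro y
    obtain ⟨⟨c, hc⟩, rfl⟩ := Submodule.mkQ_surjective _ y
    obtain ⟨x, hx⟩ := exists_normalised hρ hc
    refine ⟨⟨c - cobLin ρ x, hx⟩, ?_⟩
    show Submodule.mkQ _ (⟨c - cobLin ρ x, _⟩ : Sel) = Submodule.mkQ _ (⟨c, hc⟩ : Sel)
    rw [← sub_eq_zero, ← map_sub, Submodule.mkQ_apply, Submodule.Quotient.mk_eq_zero]
    show (c - cobLin ρ x) - c ∈ LinearMap.range (cobLin ρ)
    exact ⟨-x, by rw [map_neg]; abel⟩
  refine (LinearMap.rank_le_of_surjective f hf).trans ?_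
  -- the injection
  let r : ∀ v : T, Z →ₗ[ℚ_[p]] ((Q v).inertia (AbsGal F) → Fin n → ℚ_[p]) := fun v =>
    (LinearMap.pi (fun σ : (Q v).inertia (AbsGal F) =>
      LinearMap.proj (φ := fun _ : AbsGal F => Fin n → ℚ_[p]) (σ : AbsGal F))).comp Z.subtype
  have hr : ∀ (v : T) (c : Z), r v c ∈ LinearMap.range (cobRes ρ (Q v)) := by
    intro v c
    obtain ⟨x, hx⟩ := (mem_selmer.1 (hZS c.2)).2.2.2 (Q v) (hT.prime v)
      (notMem_above hT (hT.off v v.2))
    exact ⟨x, funext (fun σ => (hx σ σ.2).symm)⟩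
  let L : Z →ₗ[ℚ_[p]] (∀ v : T, LinearMap.range (cobRes ρ (Q v))) :=
    LinearMap.pi (fun v => LinearMap.codRestrict _ (r v) (hr v))
  have hL : Function.Injective L := by
    rw [← LinearMap.ker_eq_bot, LinearMap.ker_eq_bot']
    intro c hc
    apply Subtype.ext
    obtain ⟨hcoc, -, -, hun⟩ := mem_selmer.1 (hZS c.2)
    have hgood : Good ρ P P' S Q T c.1 := by
      refine ⟨hcoc, c.2.2.1, fun σ hσ i hi => c.2.2.2 σ hσ i (by
        rw [Set.mem_compl_iff, not_not]; exact hi), ?_, ?_⟩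
      · intro R hR hP2 htriv σ hσ
        obtain ⟨x, hx⟩ := hun R hR hP2
        rw [hx σ hσ, htriv σ hσ, act_one, sub_self]
      · intro v hv σ hσ
        have h1 := congrFun hc ⟨v, hv⟩
        have h2 := congrArg Subtype.val h1
        exact congrFun h2 ⟨σ, hσ⟩
    exact Good.eq_zero hVP hVP' hρ.resid hT hgood
  refine (LinearMap.rank_le_of_injective L hL).trans ?_
  rw [← Module.finrank_eq_rank, Module.finrank_pi_fintype]
  apply le_of_eq
  congr 1
  rw [← Finset.sum_coe_sort T (fun v => n - Module.finrank ℚ_[p] (inertiaInv ρ (Q v)))]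
  exact Finset.sum_congr rfl (fun v _ => finrank_range_cobRes (Q v))

end selmer

theorem selmerDim_le [NumberField F] {P P' : Ideal (𝓞 (AlgebraicClosure F))} {S : Set (Fin n)}
    (hVP : VV p P) (hVP' : VV p P')
    (ρ : AbsGal F →* Matrix (Fin n) (Fin n) ℤ_[p]) (hρ : IsOrd ρ P P' S)
    (Q : HeightOneSpectrum (𝓞 F) → Ideal (𝓞 (AlgebraicClosure F)))
    (T : Finset (HeightOneSpectrum (𝓞 F))) (hT : IsRamSet ρ Q T) :
    LinearMap.range (cobLin ρ) ≤ selmer ρ P P' S ∧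
    selmerDim ρ P P' S ≤
      ((∑ v ∈ T, (n - Module.finrank ℚ_[p] (inertiaInv ρ (Q v))) : ℕ) : Cardinal) := by
  refine ⟨?_, rank_selmer_le hVP hVP' hρ hT⟩
  rintro _ ⟨x, rfl⟩
  exact cobLin_mem_selmer hρ.resid.cont x

end Pool.Agent.Work.MP_787500_nt.OddP.Ord
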