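import Mathlib

/-!
A rank inequality: if the kernel of a linear map on `A` lies in `A0`, then the rank of `A` modulo
`C` is at most the rank of the target plus the rank of `A0` modulo `C`.
-/

set_option autoImplicit false

namespace Pool.Agent.Work.MP_787500_nt.Loc

universe u v

theorem rank_quot_le {k : Type*} [Field k] {M T : Type u} [AddCommGroup M] [Module k M]
    [AddCommGroup T] [Module k T] (A A0 C : Submodule k M) (g : A →ₗ[k] T)
    (hg : ∀ c : A, g c = 0 → (c : M) ∈ A0) :
    Module.rank k (A ⧸ C.submoduleOf A) ≤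
      Module.rank k T + Module.rank k (A0 ⧸ C.submoduleOf A0) := by
  set CA := C.submoduleOf A with hCA
  set N : Submodule k (A ⧸ CA) := (LinearMap.ker g).map CA.mkQ with hN
  have h1 : Module.rank k ((A ⧸ CA) ⧸ N) ≤ Module.rank k T := by
    have hle : LinearMap.ker g ≤ LinearMap.ker (N.mkQ.comp CA.mkQ) := by
      intro x hx
      rw [LinearMap.mem_ker, LinearMap.comp_apply, Submodule.mkQ_apply, Submodule.Quotient.mk_eq_zero]
      exact ⟨x, hx, rfl⟩
    let f : (A ⧸ LinearMap.ker g) →ₗ[k] ((A ⧸ CA) ⧸ N) :=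
      (LinearMap.ker g).liftQ (N.mkQ.comp CA.mkQ) hle
    have hf : Function.Surjective f := by
      intro y
      obtain ⟨y1, rfl⟩ := Submodule.mkQ_surjective N y
      obtain ⟨y2, rfl⟩ := Submodule.mkQ_surjective CA y1
      exact ⟨(LinearMap.ker g).mkQ y2, rfl⟩
    refine (LinearMap.rank_le_of_surjective f hf).trans ?_
    rw [(LinearMap.quotKerEquivRange g).rank_eq]
    exact Submodule.rank_le _
  have h2 : Module.rank k N ≤ Module.rank k (A0 ⧸ C.submoduleOf A0) := by
    let ψ : LinearMap.ker g →ₗ[k] N :=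
      (CA.mkQ.restrict (p := LinearMap.ker g) (q := N) (fun x hx => ⟨x, hx, rfl⟩))
    let j : LinearMap.ker g →ₗ[k] A0 :=
      { toFun := fun x => ⟨((x : A) : M), hg x x.2⟩
        map_add' := fun _ _ => rfl
        map_smul' := fun _ _ => rfl }
    let φ : LinearMap.ker g →ₗ[k] (A0 ⧸ C.submoduleOf A0) := (C.submoduleOf A0).mkQ.comp j
    have hψ : Function.Surjective ψ := by
      rintro ⟨y, x, hx, rfl⟩
      exact ⟨⟨x, hx⟩, rfl⟩
    have hker : LinearMap.ker φ ≤ LinearMap.ker ψ := by
      intro x hx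
      rw [LinearMap.mem_ker] at hx ⊢
      apply Subtype.ext
      show CA.mkQ (x : A) = 0
      have h3 : (C.submoduleOf A0).mkQ (j x) = 0 := hx
      rw [Submodule.mkQ_apply, Submodule.Quotient.mk_eq_zero] at h3
      rw [Submodule.mkQ_apply, Submodule.Quotient.mk_eq_zero]
      exact h3
    let f : (LinearMap.ker g ⧸ LinearMap.ker φ) →ₗ[k] N := (LinearMap.ker φ).liftQ ψ hker
    have hf : Function.Surjective f := by
      intro y
      obtain ⟨x, rfl⟩ := hψ y
      exact ⟨(LinearMap.ker φ).mkQ x, rfl⟩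
    refine (LinearMap.rank_le_of_surjective f hf).trans ?_
    rw [(LinearMap.quotKerEquivRange φ).rank_eq]
    exact Submodule.rank_le _
  rw [← Submodule.rank_quotient_add_rank N]
  exact add_le_add h1 h2

theorem rank_map_mkQ {k : Type*} [Field k] {M : Type u} [AddCommGroup M] [Module k M]
    (A C : Submodule k M) :
    Module.rank k (A.map C.mkQ) = Module.rank k (A ⧸ C.submoduleOf A) := by
  let f : A →ₗ[k] (M ⧸ C) := C.mkQ.comp A.subtype
  have hr : LinearMap.range f = A.map C.mkQ := by
    rw [LinearMap.range_comp, Submodule.range_subtype]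
  have hk : LinearMap.ker f = C.submoduleOf A := by
    ext x
    rw [LinearMap.mem_ker]
    show C.mkQ (x : M) = 0 ↔ _
    rw [Submodule.mkQ_apply, Submodule.Quotient.mk_eq_zero]
    rfl
  rw [← hr, ← hk]
  exact (LinearMap.quotKerEquivRange f).rank_eq.symm

end Pool.Agent.Work.MP_787500_nt.Loc
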