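import Mathlib
import Pool.Agent.Work.MP_787500_nt.H67_LocDefs
import Pool.Agent.Work.MP_787500_nt.H67_Ord
import Pool.Agent.Work.MP_787500_nt.H72_RankLem

/-!
The Selmer space with local conditions `L` and `L'` at two primes containing `p`.
-/

set_option autoImplicit false

namespace Pool.Agent.Work.MP_787500_nt.OddP.Loc

open IsDedekindDomain NumberField
open scoped Pointwise

universe u

variable {p : ℕ} [Fact p.Prime] {F : Type u} [Field F] [NumberField F] {n : ℕ}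
variable {ρ : AbsGal F →* Matrix (Fin n) (Fin n) ℤ_[p]} {S : Set (Fin n)}

theorem mkQ_mem {k M : Type*} [Field k] [AddCommGroup M] [Module k M] {L C : Submodule k M} {c : M}
    (h : c ∈ L ⊔ C) : C.mkQ c ∈ L.map C.mkQ := by
  obtain ⟨l, hl, b, hb, rfl⟩ := Submodule.mem_sup.1 h
  refine ⟨l, hl, ?_⟩
  have : C.mkQ b = 0 := by rw [Submodule.mkQ_apply, Submodule.Quotient.mk_eq_zero]; exact hb
  rw [map_add, this, add_zero]

theorem selmer_mono (P P' : Ideal (𝓞 (AlgebraicClosure F)))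
    (L L' : Submodule ℚ_[p] (AbsGal F → Fin n → ℚ_[p])) :
    Ord.selmer ρ P P' S ≤ selmer ρ P P' S L L' := by
  intro c hc
  exact ⟨⟨⟨hc.1.1.1, Submodule.mem_sup_right hc.1.1.2⟩, Submodule.mem_sup_right hc.1.2⟩, hc.2⟩

theorem selmerDim_le {P P' : Ideal (𝓞 (AlgebraicClosure F))}
    (L L' : Submodule ℚ_[p] (AbsGal F → Fin n → ℚ_[p])) :
    dimMod (selmer ρ P P' S L L') (LinearMap.range (cobLin ρ)) ≤
      dimMod L (Ord.locally ρ (MulAction.stabilizer (AbsGal F) P) S) +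
        dimMod L' (Ord.locally ρ (MulAction.stabilizer (AbsGal F) P') Sᶜ) +
        Ord.selmerDim ρ P P' S := by
  classical
  set D := MulAction.stabilizer (AbsGal F) P with hD
  set D' := MulAction.stabilizer (AbsGal F) P' with hD'
  set A := selmer ρ P P' S L L' with hA
  have m1 : ∀ c : A, (Ord.locally ρ D S).mkQ c.1 ∈ L.map (Ord.locally ρ D S).mkQ :=
    fun c => mkQ_mem c.2.1.1.2
  have m2 : ∀ c : A, (Ord.locally ρ D' Sᶜ).mkQ c.1 ∈ L'.map (Ord.locally ρ D' Sᶜ).mkQ :=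
    fun c => mkQ_mem c.2.1.2
  let g1 : A →ₗ[ℚ_[p]] L.map (Ord.locally ρ D S).mkQ :=
    LinearMap.codRestrict _ ((Ord.locally ρ D S).mkQ.comp A.subtype) m1
  let g2 : A →ₗ[ℚ_[p]] L'.map (Ord.locally ρ D' Sᶜ).mkQ :=
    LinearMap.codRestrict _ ((Ord.locally ρ D' Sᶜ).mkQ.comp A.subtype) m2
  have hg : ∀ c : A, (g1.prod g2) c = 0 →
      (c : AbsGal F → Fin n → ℚ_[p]) ∈ Ord.selmer ρ P P' S := by
    intro c hc
    have h1 : (Ord.locally ρ D S).mkQ c.1 = 0 := congrArg Subtype.val (congrArg Prod.fst hc)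
    have h2 : (Ord.locally ρ D' Sᶜ).mkQ c.1 = 0 := congrArg Subtype.val (congrArg Prod.snd hc)
    rw [Submodule.mkQ_apply, Submodule.Quotient.mk_eq_zero] at h1 h2
    exact ⟨⟨⟨c.2.1.1.1, h1⟩, h2⟩, c.2.2⟩
  have key := MP_787500_nt.Loc.rank_quot_le A (Ord.selmer ρ P P' S) (LinearMap.range (cobLin ρ))
    (g1.prod g2) hg
  rw [rank_prod', MP_787500_nt.Loc.rank_map_mkQ L, MP_787500_nt.Loc.rank_map_mkQ L'] at key
  exact key

theorem selmerBound {P P' : Ideal (𝓞 (AlgebraicClosure F))}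
    {Q : HeightOneSpectrum (𝓞 F) → Ideal (𝓞 (AlgebraicClosure F))}
    {T : Finset (HeightOneSpectrum (𝓞 F))}
    (hVP : Ord.VV p P) (hVP' : Ord.VV p P') (hρ : Ord.IsOrd ρ P P' S) (hT : IsRamSet ρ Q T) :
    SelmerBound ρ P P' S Q T := by
  intro L L'
  obtain ⟨h1, h2⟩ := Ord.selmerDim_le hVP hVP' ρ hρ Q T hT
  exact ⟨h1.trans (selmer_mono P P' L L'), (selmerDim_le L L').trans (add_le_add le_rfl h2)⟩

end Pool.Agent.Work.MP_787500_nt.OddP.Loc
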