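import Mathlib
import Pool.Agent.Work.MP_787500_nt.H67_Defs

/-!
The imaginary quadratic fields generated by a square root of `1 - 4 p` satisfy the hypotheses of
`IsBase`.
-/

set_option autoImplicit false

namespace Pool.Agent.Work.MP_787500_nt.OddP

open IsDedekindDomain NumberField

universe u

namespace CL

variable {K : Type u} [Field K] [NumberField K] {p : ℕ} {s : K}

/-! ### embeddings -/

theorem emb_re_im (hp : 0 < p) (hs : s ^ 2 = 1 - 4 * (p : K)) (φ : K →+* ℂ) :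
    (φ s).re = 0 ∧ (φ s).im ^ 2 = 4 * p - 1 := by
  have h := congrArg φ hs
  rw [map_pow, map_sub, map_mul, map_natCast, map_one, map_ofNat] at h
  have hre := congrArg Complex.re h
  have him := congrArg Complex.im h
  simp [pow_two] at hre him
  set x := (φ s).re
  set y := (φ s).im
  have hp' : (1 : ℝ) ≤ p := by exact_mod_cast hp
  have hy : y ≠ 0 := by
    intro hy
    rw [hy] at hre
    nlinarith [sq_nonneg x]
  have hx : x = 0 := by
    have : y * (2 * x) = 0 := by linear_combination him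
    rcases mul_eq_zero.1 this with h | h
    · exact absurd h hy
    · linarith
  refine ⟨hx, ?_⟩
  rw [hx] at hre
  nlinarith

theorem totallyComplex (hp : 0 < p) (hs : s ^ 2 = 1 - 4 * (p : K)) : IsTotallyComplex K := by
  constructor
  intro v
  rw [← InfinitePlace.not_isReal_iff_isComplex]
  intro hv
  rw [InfinitePlace.isReal_iff] at hv
  have h1 := (emb_re_im hp hs v.embedding).2
  have h2 : (starRingEnd ℂ) (v.embedding s) = v.embedding s := by
    have := RingHom.congr_fun hv s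
    simpa [ComplexEmbedding.conjugate_coe_eq] using this
  have h3 : (v.embedding s).im = 0 := Complex.conj_eq_iff_im.1 h2
  rw [h3] at h1
  have hp' : (1 : ℝ) ≤ p := by exact_mod_cast hp
  nlinarith

/-! ### the element `a = (1 + s) / 2` -/

theorem exists_a (hs : s ^ 2 = 1 - 4 * (p : K)) : ∃ a : 𝓞 K, (a : K) = (1 + s) / 2 ∧
    a ^ 2 = a - p := by
  have h1 : ((1 + s) / 2) ^ 2 = (1 + s) / 2 - (p : K) := by
    field_simp
    linear_combination hs
  have h2 : IsIntegral ℤ ((1 + s) / 2) := by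
    refine ⟨Polynomial.X ^ 2 - Polynomial.X + Polynomial.C (p : ℤ), by monicity!, ?_⟩
    simp only [Polynomial.eval₂_add, Polynomial.eval₂_sub, Polynomial.eval₂_pow,
      Polynomial.eval₂_X, Polynomial.eval₂_C]
    rw [h1]
    simp
  obtain ⟨a, ha⟩ : ∃ a : 𝓞 K, algebraMap (𝓞 K) K a = (1 + s) / 2 := ⟨⟨_, h2⟩, rfl⟩
  refine ⟨a, ha, ?_⟩
  apply RingOfIntegers.ext
  show algebraMap (𝓞 K) K _ = algebraMap (𝓞 K) K _
  rw [map_pow, map_sub, map_natCast, ha, h1]

theorem trace_eq (hp : 0 < p) (hdeg : Module.finrank ℚ K = 2) (hs : s ^ 2 = 1 - 4 * (p : K)) {a : 𝓞 K}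
    (ha : (a : K) = (1 + s) / 2) : Algebra.trace ℤ (𝓞 K) a = 1 := by
  have h1 : algebraMap ℚ ℂ (Algebra.trace ℚ K (a : K)) = ∑ φ : K →ₐ[ℚ] ℂ, φ (a : K) :=
    trace_eq_sum_embeddings ℂ
  have h2 := congrArg Complex.re h1
  have h3 : ∀ φ : K →ₐ[ℚ] ℂ, (φ (a : K)).re = 1 / 2 := by
    intro φ
    have := (emb_re_im hp hs (φ : K →+* ℂ)).1
    rw [ha, map_div₀, map_add, map_one, map_ofNat]
    have h4 : (φ s).re = 0 := this
    have : (1 + φ s) / 2 = ((1 / 2 : ℝ) : ℂ) * (1 + φ s) := by push_cast; ring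
    rw [this, Complex.re_ofReal_mul]
    simp [h4]
  rw [Complex.re_sum, Finset.sum_congr rfl (fun φ _ => h3 φ), Finset.sum_const,
    Finset.card_univ, AlgHom.card, hdeg] at h2
  have h5 : (Algebra.trace ℚ K (a : K) : ℝ) = 1 := by
    have : (algebraMap ℚ ℂ (Algebra.trace ℚ K (a : K))).re = (Algebra.trace ℚ K (a : K) : ℝ) := by
      simp
    rw [← this, h2]
    norm_num
  have h6 : Algebra.trace ℚ K (a : K) = 1 := by exact_mod_cast h5
  have h7 := Algebra.coe_trace_int a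
  rw [h6] at h7
  exact_mod_cast h7

theorem norm_eq (hp : 0 < p) (hdeg : Module.finrank ℚ K = 2) (hs : s ^ 2 = 1 - 4 * (p : K)) {a : 𝓞 K}
    (ha : (a : K) = (1 + s) / 2 ∨ (a : K) = (1 - s) / 2) : Ideal.absNorm (Ideal.span {a}) = p := by
  have h1 : algebraMap ℚ ℂ (Algebra.norm ℚ (a : K)) = ∏ φ : K →ₐ[ℚ] ℂ, φ (a : K) :=
    Algebra.norm_eq_prod_embeddings ℚ ℂ (a : K)
  have h2 := congrArg Complex.normSq h1
  have h3 : ∀ φ : K →ₐ[ℚ] ℂ, Complex.normSq (φ (a : K)) = p := by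
    intro φ
    obtain ⟨h4, h5⟩ := (emb_re_im hp hs (φ : K →+* ℂ))
    have h4 : (φ s).re = 0 := h4
    have h5 : (φ s).im ^ 2 = 4 * p - 1 := h5
    rcases ha with ha | ha
    · rw [ha, map_div₀, map_add, map_one, map_ofNat]
      have : (1 + φ s) / 2 = ((1 / 2 : ℝ) : ℂ) * (1 + φ s) := by push_cast; ring
      rw [this, Complex.normSq_mul, Complex.normSq_ofReal, Complex.normSq_apply]
      simp [h4]
      nlinarith
    · rw [ha, map_div₀, map_sub, map_one, map_ofNat]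
      have : (1 - φ s) / 2 = ((1 / 2 : ℝ) : ℂ) * (1 - φ s) := by push_cast; ring
      rw [this, Complex.normSq_mul, Complex.normSq_ofReal, Complex.normSq_apply]
      simp [h4]
      nlinarith
  rw [map_prod, Finset.prod_congr rfl (fun φ _ => h3 φ), Finset.prod_const,
    Finset.card_univ, AlgHom.card, hdeg] at h2
  rw [Ideal.absNorm_span_singleton]
  have h7 := Algebra.coe_norm_int a
  rw [← h7] at h2
  have h8 : ((Algebra.norm ℤ a : ℤ) : ℝ) ^ 2 = (p : ℝ) ^ 2 := by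
    rw [← h2]
    simp [Complex.normSq_apply, pow_two]
  have h9 : (Algebra.norm ℤ a) ^ 2 = (p : ℤ) ^ 2 := by exact_mod_cast h8
  have h10 := Int.natAbs_eq_iff_sq_eq.2 h9
  simpa using h10

/-- a basis indexed by `Fin 2` -/
theorem exists_basis (hdeg : Module.finrank ℚ K = 2) : Nonempty (Module.Basis (Fin 2) ℤ (𝓞 K)) := by
  refine ⟨(RingOfIntegers.basis K).reindex (Fintype.equivFinOfCardEq ?_)⟩
  rw [← Module.finrank_eq_card_basis (RingOfIntegers.basis K), RingOfIntegers.rank, hdeg]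

theorem discr_le (hp : 0 < p) (hdeg : Module.finrank ℚ K = 2) (hs : s ^ 2 = 1 - 4 * (p : K)) :
    |discr K| ≤ 4 * p - 1 := by
  obtain ⟨a, ha, ha2⟩ := exists_a hs
  obtain ⟨b⟩ := exists_basis (K := K) hdeg
  have h1 : Algebra.discr ℤ (b : Fin 2 → 𝓞 K) = discr K := discr_eq_discr K b
  have h2 := Algebra.discr_of_matrix_vecMul (b : Fin 2 → 𝓞 K) (b.toMatrix ![1, a])
  rw [Module.Basis.toMatrix_map_vecMul, h1] at h2
  have t1 : Algebra.trace ℤ (𝓞 K) 1 = 2 := by
    have := Algebra.trace_algebraMap (R := ℤ) (S := 𝓞 K) 1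
    rw [map_one, RingOfIntegers.rank, hdeg] at this
    simpa using this
  have ta := trace_eq hp hdeg hs ha
  have ta2 : Algebra.trace ℤ (𝓞 K) (a * a) = 1 - 2 * p := by
    have h3 : a * a = a - (p : ℤ) • (1 : 𝓞 K) := by
      rw [← pow_two, ha2]; simp
    rw [h3, map_sub, map_smul, t1, ta]
    simp; ring
  have h3 : Algebra.discr ℤ ![1, a] = 1 - 4 * p := by
    rw [Algebra.discr_def, Matrix.det_fin_two]
    simp only [Algebra.traceMatrix_apply, Algebra.traceForm_apply, Matrix.cons_val_zero,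
      Matrix.cons_val_one, one_mul, mul_one, t1, ta, ta2]
    ring
  rw [h3] at h2
  have hp' : (1 : ℤ) ≤ p := by exact_mod_cast hp
  have h4 : (b.toMatrix ![1, a]).det ≠ 0 := by
    intro h0
    rw [h0] at h2
    simp at h2
    omega
  have h5 : 1 ≤ (b.toMatrix ![1, a]).det ^ 2 := by
    have : 0 < (b.toMatrix ![1, a]).det ^ 2 := by positivity
    omega
  have h6 : |(1 - 4 * p : ℤ)| = 4 * p - 1 := by
    rw [abs_of_neg (by omega)]; ring
  rw [h2, abs_mul, abs_of_pos (by omega : 0 < (b.toMatrix ![1, a]).det ^ 2)] at h6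
  nlinarith [abs_nonneg (discr K)]

/-! ### the second generator of the ring of integers -/

theorem exists_omega (hdeg : Module.finrank ℚ K = 2) :
    ∃ ω : 𝓞 K, ∀ x : 𝓞 K, ∃ u v : ℤ, x = u + v * ω := by
  obtain ⟨e⟩ := exists_basis (K := K) hdeg
  set α := e.repr 1 0 with hα
  set β := e.repr 1 1 with hβ
  have hexp : ∀ x : 𝓞 K, x = (e.repr x 0 : 𝓞 K) * e 0 + (e.repr x 1 : 𝓞 K) * e 1 := by
    intro x
    have := e.sum_repr x
    rw [Fin.sum_univ_two, zsmul_eq_mul, zsmul_eq_mul] at this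
    exact this.symm
  have hcop : IsCoprime α β := by
    rw [Int.isCoprime_iff_gcd_eq_one]
    by_contra hne
    set g := Int.gcd α β with hg
    have h1 : (g : ℤ) ∣ α := Int.gcd_dvd_left _ _
    have h2 : (g : ℤ) ∣ β := Int.gcd_dvd_right _ _
    obtain ⟨α', hα'⟩ := h1
    obtain ⟨β', hβ'⟩ := h2
    have h3 : (1 : 𝓞 K) = (g : ℤ) * (α' * e 0 + β' * e 1) := by
      have := hexp 1
      rw [← hα, ← hβ, hα', hβ'] at this
      rw [this]
      push_cast
      ring
    have h4 := congrArg (Algebra.norm ℤ) h3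
    have h5 : Algebra.norm ℤ (((g : ℤ) : 𝓞 K)) = (g : ℤ) ^ 2 := by
      have := Algebra.norm_algebraMap (R := ℤ) (S := 𝓞 K) (g : ℤ)
      rw [RingOfIntegers.rank, hdeg] at this
      simpa using this
    rw [map_one, map_mul, h5] at h4
    have h6 : IsUnit ((g : ℤ) ^ 2) := IsUnit.of_mul_eq_one _ h4.symm
    have h7 : IsUnit (g : ℤ) := (isUnit_pow_iff (by norm_num)).1 h6
    rw [Int.isUnit_iff] at h7
    omega
  obtain ⟨u, v, huv⟩ := hcop
  refine ⟨-(v : 𝓞 K) * e 0 + u * e 1, fun x => ?_⟩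
  refine ⟨e.repr x 0 * u + e.repr x 1 * v, -β * e.repr x 0 + α * e.repr x 1, ?_⟩
  have h1 : (1 : 𝓞 K) = α * e 0 + β * e 1 := hexp 1
  have h2 : (u : 𝓞 K) * α + v * β = 1 := by exact_mod_cast huv
  have hx := hexp x
  push_cast
  linear_combination hx + (-(e.repr x 0 : 𝓞 K) * u - (e.repr x 1 : 𝓞 K) * v) * h1
    - ((e.repr x 0 : 𝓞 K) * e 0 + (e.repr x 1 : 𝓞 K) * e 1) * h2

/-! ### ideals of minimal norm in their class -/

open scoped nonZeroDivisors

theorem not_le_span (hdeg : Module.finrank ℚ K = 2) {C : ClassGroup (𝓞 K)} {I : (Ideal (𝓞 K))⁰}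
    (hI : ClassGroup.mk0 I = C)
    (hmin : ∀ J : (Ideal (𝓞 K))⁰, ClassGroup.mk0 J = C →
      Ideal.absNorm (I : Ideal (𝓞 K)) ≤ Ideal.absNorm (J : Ideal (𝓞 K)))
    (m : ℕ) (hm : 2 ≤ m) : ¬ ((I : Ideal (𝓞 K)) ≤ Ideal.span {(m : 𝓞 K)}) := by
  intro hle
  obtain ⟨J, hJ⟩ := Ideal.dvd_iff_le.2 hle
  have hI0 : (I : Ideal (𝓞 K)) ≠ 0 := nonZeroDivisors.coe_ne_zero I
  have hJ0 : J ≠ 0 := by
    rintro rfl
    rw [mul_zero] at hJ
    exact hI0 hJ
  have hm0 : (m : 𝓞 K) ≠ 0 := by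
    have : m ≠ 0 := by omega
    exact_mod_cast this
  have hJc : ClassGroup.mk0 ⟨J, mem_nonZeroDivisors_of_ne_zero hJ0⟩ = C := by
    rw [← hI, ClassGroup.mk0_eq_mk0_iff]
    refine ⟨(m : 𝓞 K), 1, hm0, one_ne_zero, ?_⟩
    rw [Ideal.span_singleton_one, Ideal.top_mul]
    exact hJ.symm
  have h1 := hmin _ hJc
  have h2 : Ideal.absNorm (I : Ideal (𝓞 K)) = m ^ 2 * Ideal.absNorm J := by
    rw [hJ, map_mul, Ideal.absNorm_span_singleton]
    have := Algebra.norm_algebraMap (R := ℤ) (S := 𝓞 K) (m : ℤ)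
    rw [RingOfIntegers.rank, hdeg] at this
    have h3 : Algebra.norm ℤ (m : 𝓞 K) = (m : ℤ) ^ 2 := by simpa using this
    rw [h3]
    simp [Int.natAbs_pow]
  have h3 : 0 < Ideal.absNorm J := by
    rw [Nat.pos_iff_ne_zero, Ideal.absNorm_ne_zero_iff_mem_nonZeroDivisors]
    exact mem_nonZeroDivisors_of_ne_zero hJ0
  simp only at h1
  rw [h2] at h1
  nlinarith [Nat.mul_le_mul hm hm]

/-- the structure of a primitive ideal -/
theorem exists_data (ω : 𝓞 K) (hω : ∀ x : 𝓞 K, ∃ u v : ℤ, x = u + v * ω) (I : Ideal (𝓞 K))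
    (hI0 : I ≠ 0) (hprim : ∀ m : ℕ, 2 ≤ m → ¬ (I ≤ Ideal.span {(m : 𝓞 K)})) :
    ∃ (n : ℕ) (b : ℕ), 1 ≤ n ∧ n ≤ Ideal.absNorm I ∧ b < n ∧
      ∀ u v : ℤ, ((u : 𝓞 K) + v * ω ∈ I ↔ (n : ℤ) ∣ u - v * b) := by
  -- the ideal meets `ℤ` in `n ℤ`
  let B : AddSubgroup ℤ :=
    { carrier := {z | (z : 𝓞 K) ∈ I}
      add_mem' := fun {x y} hx hy => by
        show ((x + y : ℤ) : 𝓞 K) ∈ I
        push_cast
        exact I.add_mem hx hy
      zero_mem' := by show ((0 : ℤ) : 𝓞 K) ∈ I; simp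
      neg_mem' := fun {x} hx => by
        show ((-x : ℤ) : 𝓞 K) ∈ I
        push_cast
        exact I.neg_mem hx }
  obtain ⟨n₀, hn₀⟩ := Int.subgroup_cyclic B
  have hB : ∀ z : ℤ, (z : 𝓞 K) ∈ I ↔ n₀ ∣ z := by
    intro z
    have h1 : z ∈ B ↔ (z : 𝓞 K) ∈ I := Iff.rfl
    rw [← h1, hn₀, AddSubgroup.mem_closure_singleton]
    constructor
    · rintro ⟨k, rfl⟩
      exact ⟨k, by simp [mul_comm]⟩
    · rintro ⟨k, rfl⟩
      exact ⟨k, by simp [mul_comm]⟩
  have hnorm : (Ideal.absNorm I : ℕ) ≠ 0 := by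
    rw [Ideal.absNorm_ne_zero_iff_mem_nonZeroDivisors]
    exact mem_nonZeroDivisors_of_ne_zero hI0
  have hnI : ((Ideal.absNorm I : ℤ) : 𝓞 K) ∈ I := by
    have := Ideal.absNorm_mem I
    simpa using this
  have hn1 : n₀ ∣ (Ideal.absNorm I : ℤ) := (hB _).1 hnI
  have hn0 : n₀ ≠ 0 := by
    rintro rfl
    rw [zero_dvd_iff] at hn1
    exact hnorm (by exact_mod_cast hn1)
  -- second coordinates
  let A : AddSubgroup ℤ :=
    { carrier := {v | ∃ u : ℤ, (u : 𝓞 K) + v * ω ∈ I}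
      add_mem' := fun {x y} hx hy => by
        obtain ⟨u, hu⟩ := hx
        obtain ⟨u', hu'⟩ := hy
        refine ⟨u + u', ?_⟩
        have := I.add_mem hu hu'
        push_cast
        convert this using 1
        ring
      zero_mem' := ⟨0, by simp⟩
      neg_mem' := fun {x} hx => by
        obtain ⟨u, hu⟩ := hx
        refine ⟨-u, ?_⟩
        have := I.neg_mem hu
        push_cast
        convert this using 1
        ring }
  obtain ⟨c, hc⟩ := Int.subgroup_cyclic A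
  have hA : ∀ v : ℤ, (∃ u : ℤ, (u : 𝓞 K) + v * ω ∈ I) ↔ c ∣ v := by
    intro v
    have h1 : v ∈ A ↔ (∃ u : ℤ, (u : 𝓞 K) + v * ω ∈ I) := Iff.rfl
    rw [← h1, hc, AddSubgroup.mem_closure_singleton]
    constructor
    · rintro ⟨k, rfl⟩
      exact ⟨k, by simp [mul_comm]⟩
    · rintro ⟨k, rfl⟩
      exact ⟨k, by simp [mul_comm]⟩
  obtain ⟨b, hb⟩ := (hA c).2 dvd_rfl
  obtain ⟨q, t, ht⟩ := hω (ω * ω)
  have hcn : c ∣ n₀ := by
    rw [← hA]
    refine ⟨0, ?_⟩
    have := I.mul_mem_right ω ((hB n₀).2 dvd_rfl)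
    simpa using this
  have hcb : c ∣ b := by
    have h1 : c ∣ b + c * t := by
      rw [← hA]
      refine ⟨c * q, ?_⟩
      have := I.mul_mem_right ω hb
      convert this using 1
      push_cast
      linear_combination -(c : 𝓞 K) * ht
    exact (Int.dvd_add_left (dvd_mul_right c t)).1 h1
  have hle : I ≤ Ideal.span {(c : 𝓞 K)} := by
    intro x hx
    obtain ⟨u, v, rfl⟩ := hω x
    obtain ⟨v', rfl⟩ := (hA v).1 ⟨u, hx⟩
    have h1 : ((u - v' * b : ℤ) : 𝓞 K) ∈ I := by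
      have := I.sub_mem hx (I.mul_mem_left (v' : 𝓞 K) hb)
      convert this using 1
      push_cast
      ring
    have h2 : c ∣ u - v' * b := hcn.trans ((hB _).1 h1)
    have h3 : c ∣ u := by
      have := Int.dvd_add h2 (Dvd.dvd.mul_left hcb v')
      simpa using this
    obtain ⟨u', rfl⟩ := h3
    rw [Ideal.mem_span_singleton]
    exact ⟨u' + v' * ω, by push_cast; ring⟩
  have hc1 : c.natAbs = 1 := by
    by_contra hne
    have hc0 : c ≠ 0 := by
      rintro rfl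
      rw [zero_dvd_iff] at hcn
      exact hn0 hcn
    have : 2 ≤ c.natAbs := by
      have := Int.natAbs_ne_zero.2 hc0
      omega
    apply hprim c.natAbs this
    refine hle.trans ?_
    rw [Ideal.span_singleton_le_span_singleton]
    rcases Int.natAbs_eq c with h | h
    · have : (c : 𝓞 K) = (c.natAbs : 𝓞 K) := by
        conv_lhs => rw [h]
        simp
      rw [this]
    · have : (c : 𝓞 K) = -(c.natAbs : 𝓞 K) := by
        conv_lhs => rw [h]
        simp
      rw [this]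
      exact ⟨-1, by ring⟩
  obtain ⟨b₁, hb₁⟩ : ∃ b₁ : ℤ, (b₁ : 𝓞 K) + ω ∈ I := by
    have h1 : c ∣ 1 := by
      rw [← Int.natAbs_dvd_natAbs, hc1]; simp
    obtain ⟨u, hu⟩ := (hA 1).2 h1
    exact ⟨u, by simpa using hu⟩
  have hnpos : 0 < n₀.natAbs := Int.natAbs_pos.2 hn0
  have hnz : ((n₀.natAbs : ℕ) : ℤ) ≠ 0 := by exact_mod_cast hnpos.ne'
  refine ⟨n₀.natAbs, (b₁ % (n₀.natAbs : ℤ)).toNat, hnpos, ?_, ?_, ?_⟩
  · apply Nat.le_of_dvd (Nat.pos_of_ne_zero hnorm)
    rw [← Int.natCast_dvd_natCast, Int.natAbs_dvd]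
    exact hn1
  · have h1 := Int.emod_nonneg b₁ hnz
    have h2 := Int.emod_lt_of_pos b₁ (by omega : (0 : ℤ) < (n₀.natAbs : ℤ))
    omega
  · intro u v
    have h1 : (((b₁ % (n₀.natAbs : ℤ)).toNat : ℕ) : ℤ) = b₁ % (n₀.natAbs : ℤ) :=
      Int.toNat_of_nonneg (Int.emod_nonneg b₁ hnz)
    have h2 : (u : 𝓞 K) + v * ω ∈ I ↔ ((u - v * b₁ : ℤ) : 𝓞 K) ∈ I := by
      have h3 : (u : 𝓞 K) + v * ω = ((u - v * b₁ : ℤ) : 𝓞 K) + v * (b₁ + ω) := by
        push_cast; ring
      rw [h3]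
      exact Ideal.add_mem_iff_left I (I.mul_mem_left _ hb₁)
    rw [h2, hB, h1, Int.natAbs_dvd]
    have h4 : n₀ ∣ b₁ - b₁ % (n₀.natAbs : ℤ) := by
      rw [← Int.natAbs_dvd]
      exact Int.dvd_self_sub_emod
    have h5 : u - v * (b₁ % (n₀.natAbs : ℤ)) = (u - v * b₁) + v * (b₁ - b₁ % (n₀.natAbs : ℤ)) := by
      ring
    rw [h5]
    exact (Int.dvd_add_left (Dvd.dvd.mul_left h4 v)).symm

theorem sum_lt (hp : p.Prime) (hp2 : p ≠ 2) (B : ℕ) (hB : 98596 * B ^ 2 ≤ 40000 * (4 * p - 1)) :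
    ∑ n ∈ (Finset.range (B + 1)).erase 2, n < p := by
  have hp3 : 3 ≤ p := by
    have := hp.two_le
    omega
  have h1 := Finset.sum_range_id_mul_two (B + 1)
  simp only [Nat.add_sub_cancel] at h1
  by_cases h2 : B < 2
  · have h3 : ∑ n ∈ (Finset.range (B + 1)).erase 2, n ≤ ∑ n ∈ Finset.range (B + 1), n :=
      Finset.sum_le_sum_of_subset (Finset.erase_subset _ _)
    have h4 : (B + 1) * B ≤ 2 * 1 := Nat.mul_le_mul (by omega) (by omega)
    omega
  · have h3 := Finset.sum_erase_add (Finset.range (B + 1)) (fun n => n)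
      (by simp; omega : 2 ∈ Finset.range (B + 1))
    have h5 : (B + 1) * B < 2 * p + 4 := by
      zify at hB ⊢
      rw [Nat.cast_sub (by omega)] at hB
      push_cast at hB
      nlinarith [sq_nonneg ((B : ℤ) - 2)]
    omega

theorem class_lt (hp : p.Prime) (hp2 : p ≠ 2) (hdeg : Module.finrank ℚ K = 2)
    (hs : s ^ 2 = 1 - 4 * (p : K)) : classNumber K < p := by
  classical
  obtain ⟨a, ha, ha2⟩ := exists_a hs
  obtain ⟨ω, hω⟩ := exists_omega (K := K) hdeg
  have hcx : IsTotallyComplex K := totallyComplex hp.pos hs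
  have hn1 : InfinitePlace.nrComplexPlaces K = 1 := by
    have := IsTotallyComplex.finrank (K := K)
    omega
  set M : ℝ := (4 / Real.pi) ^ InfinitePlace.nrComplexPlaces K *
    ((Module.finrank ℚ K).factorial / (Module.finrank ℚ K) ^ (Module.finrank ℚ K) *
      √|(discr K : ℝ)|) with hM
  have hMsq : M ^ 2 * Real.pi ^ 2 ≤ 4 * (4 * p - 1) := by
    have h1 : M = 2 / Real.pi * √|(discr K : ℝ)| := by
      rw [hM, hn1, hdeg]
      norm_num [Nat.factorial]
      ring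
    have h2 : |(discr K : ℝ)| ≤ 4 * p - 1 := by
      have := discr_le hp.pos hdeg hs
      exact_mod_cast this
    have hpi := Real.pi_pos
    rw [h1, mul_pow, div_pow, Real.sq_sqrt (abs_nonneg _)]
    field_simp
    linarith
  have hM0 : 0 ≤ M := by positivity
  -- choice of the ideals
  have key : ∀ C : ClassGroup (𝓞 K), ∃ (I : (Ideal (𝓞 K))⁰) (n b : ℕ), ClassGroup.mk0 I = C ∧
      (n : ℝ) ≤ M ∧ n ≠ 2 ∧ b < n ∧
      ∀ u v : ℤ, ((u : 𝓞 K) + v * ω ∈ (I : Ideal (𝓞 K)) ↔ (n : ℤ) ∣ u - v * b) := by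
    intro C
    obtain ⟨I₀, hI₀, hI₀M⟩ := exists_ideal_in_class_of_norm_le C
    have hex : ∃ m : ℕ, ∃ I : (Ideal (𝓞 K))⁰, ClassGroup.mk0 I = C ∧
        Ideal.absNorm (I : Ideal (𝓞 K)) = m := ⟨_, I₀, hI₀, rfl⟩
    obtain ⟨I, hI, hIm⟩ := Nat.find_spec hex
    have hmin : ∀ J : (Ideal (𝓞 K))⁰, ClassGroup.mk0 J = C →
        Ideal.absNorm (I : Ideal (𝓞 K)) ≤ Ideal.absNorm (J : Ideal (𝓞 K)) := by
      intro J hJ
      rw [hIm]
      exact Nat.find_min' hex ⟨J, hJ, rfl⟩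
    obtain ⟨n, b, h1, h2, h3, h4⟩ := exists_data ω hω I (nonZeroDivisors.coe_ne_zero I)
      (not_le_span hdeg hI hmin)
    refine ⟨I, n, b, hI, ?_, ?_, h3, h4⟩
    · have h5 : ((Ideal.absNorm (I : Ideal (𝓞 K)) : ℕ) : ℝ) ≤ M := by
        refine le_trans ?_ hI₀M
        exact_mod_cast hmin I₀ hI₀
      refine le_trans ?_ h5
      exact_mod_cast h2
    · rintro rfl
      obtain ⟨u, v, huv⟩ := hω a
      set z : ℤ := u - v * b with hz
      have h5 : a - z ∈ (I : Ideal (𝓞 K)) := by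
        have h6 := (h4 (u - z) v).2 ⟨0, by rw [hz]; ring⟩
        convert h6 using 1
        rw [huv]
        push_cast
        ring
      have h6 : ((z ^ 2 - z + p : ℤ) : 𝓞 K) ∈ (I : Ideal (𝓞 K)) := by
        have h7 := (I : Ideal (𝓞 K)).mul_mem_right (-(a + z - 1)) h5
        convert h7 using 1
        push_cast
        linear_combination ha2
      have h7 := (h4 (z ^ 2 - z + p) 0).1 (by simpa using h6)
      simp only [zero_mul, sub_zero] at h7
      have h8 : (2 : ℤ) ∣ z ^ 2 - z := by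
        have := Int.even_mul_pred_self z
        rw [show z ^ 2 - z = z * (z - 1) by ring]
        exact this.two_dvd
      have h9 : (2 : ℤ) ∣ p := by
        have := Int.dvd_sub h7 h8
        simpa using this
      have h10 : 2 ∣ p := by exact_mod_cast h9
      exact hp2 ((Nat.prime_dvd_prime_iff_eq Nat.prime_two hp).1 h10).symm
  choose I n b h1 h2 h3 h4 h5 using key
  set B : ℕ := ⌊M⌋₊ with hB
  have hBM : (B : ℝ) ≤ M := Nat.floor_le hM0
  have hBsq : 98596 * B ^ 2 ≤ 40000 * (4 * p - 1) := by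
    have hpi := Real.pi_gt_d2
    have hpp : 1 ≤ p := hp.pos
    have h6 : (B : ℝ) ^ 2 * 9.8596 ≤ 4 * (4 * p - 1) := by
      refine le_trans ?_ hMsq
      have h7 : (B : ℝ) ^ 2 ≤ M ^ 2 := pow_le_pow_left₀ (by positivity) hBM 2
      have h8 : (9.8596 : ℝ) ≤ Real.pi ^ 2 := by nlinarith
      exact mul_le_mul h7 h8 (by norm_num) (by positivity)
    have h9 : (98596 : ℝ) * B ^ 2 ≤ 40000 * (4 * p - 1) := by linarith
    zify
    rw [Nat.cast_sub (by omega)]
    push_cast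
    exact_mod_cast h9
  have hcard : classNumber K ≤ ∑ m ∈ (Finset.range (B + 1)).erase 2, m := by
    let f : ClassGroup (𝓞 K) → (Σ _ : ℕ, ℕ) := fun C => ⟨n C, b C⟩
    have hf : ∀ C, f C ∈ ((Finset.range (B + 1)).erase 2).sigma (fun m => Finset.range m) := by
      intro C
      simp only [Finset.mem_sigma, Finset.mem_erase, Finset.mem_range, f]
      refine ⟨⟨h3 C, ?_⟩, h4 C⟩
      have := Nat.le_floor (h2 C)
      omega
    have hinj : Function.Injective f := by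
      intro C C' hCC
      simp only [f, Sigma.mk.injEq, heq_eq_eq] at hCC
      obtain ⟨e1, e2⟩ := hCC
      rw [← h1 C, ← h1 C']
      congr 1
      apply Subtype.ext
      ext x
      obtain ⟨u, v, rfl⟩ := hω x
      rw [h5 C, h5 C', e1, e2]
    have h6 := Finset.card_le_card_of_injOn (s := Finset.univ) f (fun C _ => hf C)
      (fun x _ y _ hxy => hinj hxy)
    rw [Finset.card_sigma, Finset.card_univ] at h6
    unfold classNumber
    simpa using h6
  exact lt_of_le_of_lt hcard (sum_lt hp hp2 B hBsq)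

theorem one_sub_pow (x : 𝓞 K) (k : ℕ) : ∃ r : 𝓞 K, (1 - x) ^ k = 1 - k * x + x ^ 2 * r := by
  induction k with
  | zero => exact ⟨0, by simp⟩
  | succ k ih =>
    obtain ⟨r, hr⟩ := ih
    refine ⟨k + r * (1 - x), ?_⟩
    rw [pow_succ, hr]
    push_cast
    ring

/-- Gold's condition -/
theorem gold_aux (hp : p.Prime) {a a' : 𝓞 K} (hsum : a + a' = 1) (hprod : a * a' = p)
    (hnt : Ideal.span {a'} ≠ ⊤) (ha' : a' ≠ 0) : a ^ (p - 1) - 1 ∉ Ideal.span {a'} ^ 2 := by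
  intro hmem
  rw [Ideal.span_singleton_pow, Ideal.mem_span_singleton] at hmem
  obtain ⟨r, hr⟩ := one_sub_pow a' (p - 1)
  have h1 : a = 1 - a' := by rw [← hsum]; ring
  rw [h1, hr] at hmem
  have h2 : a' ^ 2 ∣ ((p - 1 : ℕ) : 𝓞 K) * a' := by
    have h3 : a' ^ 2 ∣ a' ^ 2 * r := dvd_mul_right _ _
    have h4 := dvd_sub h3 hmem
    convert h4 using 1
    ring
  have h3 : a' ∣ ((p - 1 : ℕ) : 𝓞 K) := by
    rw [pow_two] at h2
    exact (mul_dvd_mul_iff_right ha').1 h2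
  have h4 : a' ∣ (p : 𝓞 K) := ⟨a, by rw [← hprod]; ring⟩
  have h5 : a' ∣ 1 := by
    have h6 := dvd_sub h4 h3
    rw [Nat.cast_sub hp.one_le] at h6
    simpa using h6
  apply hnt
  rw [Ideal.span_singleton_eq_top]
  exact isUnit_of_dvd_one h5

end CL

theorem isBase_of_sq {p : ℕ} (hp : p.Prime) (hp2 : p ≠ 2) {K : Type u} [Field K] [NumberField K]
    (hdeg : Module.finrank ℚ K = 2) {s : K} (hs : s ^ 2 = 1 - 4 * (p : K)) : IsBase p K := by
  obtain ⟨a, ha, ha2⟩ := CL.exists_a hs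
  have hlt := CL.class_lt hp hp2 hdeg hs
  set a' : 𝓞 K := 1 - a with ha'
  have hprod : a * a' = p := by rw [ha']; linear_combination -ha2
  have hcoe : (a' : K) = (1 - s) / 2 := by
    have : (a' : K) = 1 - (a : K) := by rw [ha']; simp
    rw [this, ha]
    field_simp
    ring
  have hna : Ideal.absNorm (Ideal.span {a}) = p := CL.norm_eq hp.pos hdeg hs (Or.inl ha)
  have hna' : Ideal.absNorm (Ideal.span {a'}) = p := CL.norm_eq hp.pos hdeg hs (Or.inr hcoe)
  have hpr : (Ideal.span {a}).IsPrime := Ideal.isPrime_of_irreducible_absNorm (by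
    rw [hna]; exact hp)
  have hpr' : (Ideal.span {a'}).IsPrime := Ideal.isPrime_of_irreducible_absNorm (by
    rw [hna']; exact hp)
  have hp0 : (p : 𝓞 K) ≠ 0 := by exact_mod_cast hp.ne_zero
  have ha0 : a ≠ 0 := by rintro rfl; apply hp0; rw [← hprod]; ring
  have ha0' : a' ≠ 0 := by intro h0; apply hp0; rw [← hprod, h0]; ring
  refine ⟨hp, hp2, hdeg, CL.totallyComplex hp.pos hs, ?_, ?_⟩
  · intro hdvd
    exact absurd (Nat.le_of_dvd (classNumber_pos K) hdvd) (by omega)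
  · refine ⟨Ideal.span {a}, Ideal.span {a'}, a, a', 1, 1, hpr, hpr', ?_, ?_, ?_, ?_, ?_, ?_, ?_, ?_⟩
    · intro heq
      apply hpr.ne_top
      rw [Ideal.eq_top_iff_one]
      have h1 : a ∈ Ideal.span {a} := Ideal.mem_span_singleton_self a
      have h2 : a' ∈ Ideal.span {a} := by rw [heq]; exact Ideal.mem_span_singleton_self a'
      have := Ideal.add_mem _ h1 h2
      rw [ha'] at this
      simpa using this
    · rw [Ideal.span_singleton_mul_span_singleton, hprod]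
    · intro h; exact hp.one_lt.ne' (Nat.dvd_one.1 h)
    · intro h; exact hp.one_lt.ne' (Nat.dvd_one.1 h)
    · rw [pow_one]
    · rw [pow_one]
    · exact CL.gold_aux hp (by rw [ha']; ring) hprod hpr'.ne_top ha0'
    · exact CL.gold_aux hp (by rw [ha']; ring) (by rw [mul_comm]; exact hprod) hpr.ne_top ha0

end Pool.Agent.Work.MP_787500_nt.OddP
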