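import Mathlib
import Pool.Agent.Work.MP_787500_nt.H10_Tower

/-!
Genus theory for cyclic extensions of prime degree: orders and the action on units.
-/

set_option autoImplicit false
set_option linter.unusedSectionVars false

namespace Pool.Agent.Work.MP_787500_nt.OddP.Gen

open WithZero IsDedekindDomain NumberField

section ord

variable {M : Type*} [Field M] [NumberField M]

/-- the logarithm of the valuation (minus the order) -/
noncomputable def ordU (v : HeightOneSpectrum (𝓞 M)) (x : Mˣ) : ℤ := log (v.valuation M (x : M))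

variable (v : HeightOneSpectrum (𝓞 M))

theorem val_ne (x : Mˣ) : v.valuation M (x : M) ≠ 0 := (v.valuation M).ne_zero_iff.2 x.ne_zero

theorem exp_ordU (x : Mˣ) : exp (ordU v x) = v.valuation M (x : M) := exp_log (val_ne v x)

@[simp] theorem ordU_one : ordU v 1 = 0 := by simp [ordU]

@[simp] theorem ordU_mul (x y : Mˣ) : ordU v (x * y) = ordU v x + ordU v y := by
  rw [ordU, Units.val_mul, map_mul, log_mul (val_ne v x) (val_ne v y)]; rfl

@[simp] theorem ordU_pow (x : Mˣ) (n : ℕ) : ordU v (x ^ n) = n * ordU v x := by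
  rw [ordU, Units.val_pow_eq_pow_val, map_pow, log_pow, nsmul_eq_mul]; rfl

@[simp] theorem ordU_inv (x : Mˣ) : ordU v x⁻¹ = - ordU v x := by
  have h := ordU_mul v x x⁻¹
  rw [mul_inv_cancel, ordU_one] at h
  linarith

@[simp] theorem ordU_div (x y : Mˣ) : ordU v (x / y) = ordU v x - ordU v y := by
  rw [div_eq_mul_inv, ordU_mul, ordU_inv, sub_eq_add_neg]

@[simp] theorem ordU_zpow (x : Mˣ) (n : ℤ) : ordU v (x ^ n) = n * ordU v x := by
  cases n with
  | ofNat n => simp
  | negSucc n => rw [zpow_negSucc, ordU_inv, ordU_pow, Int.negSucc_eq]; push_cast; ring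

theorem ordU_prod {ι : Type*} (s : Finset ι) (f : ι → Mˣ) :
    ordU v (∏ i ∈ s, f i) = ∑ i ∈ s, ordU v (f i) := by
  classical
  induction s using Finset.induction_on with
  | empty => simp
  | insert a s ha ih => rw [Finset.prod_insert ha, Finset.sum_insert ha, ordU_mul, ih]

/-- the units of the ring of integers, described by valuations -/
def EU (M : Type*) [Field M] [NumberField M] : Subgroup Mˣ where
  carrier := {x | ∀ v : HeightOneSpectrum (𝓞 M), ordU v x = 0}
  mul_mem' := fun ha hb v => by rw [ordU_mul, ha v, hb v, add_zero]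
  one_mem' := fun v => ordU_one v
  inv_mem' := fun ha v => by rw [ordU_inv, ha v, neg_zero]

theorem mem_EU {x : Mˣ} : x ∈ EU M ↔ ∀ v : HeightOneSpectrum (𝓞 M), ordU v x = 0 := Iff.rfl

/-- the products of a unit and a `p`-th power -/
def BU (p : ℕ) (M : Type*) [Field M] [NumberField M] : Subgroup Mˣ :=
  EU M ⊔ (powMonoidHom p : Mˣ →* Mˣ).range

theorem mem_BU {p : ℕ} {x : Mˣ} : x ∈ BU p M ↔ ∃ κ ∈ EU M, ∃ μ : Mˣ, x = κ * μ ^ p := by
  rw [BU, Subgroup.mem_sup]
  constructor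
  · rintro ⟨κ, hκ, _, ⟨μ, rfl⟩, rfl⟩
    exact ⟨κ, hκ, μ, rfl⟩
  · rintro ⟨κ, hκ, μ, rfl⟩
    exact ⟨κ, hκ, μ ^ p, ⟨μ, rfl⟩, rfl⟩

theorem pow_mem_BU {p : ℕ} (x : Mˣ) : x ^ p ∈ BU p M :=
  mem_BU.2 ⟨1, one_mem _, x, by rw [one_mul]⟩

theorem mem_of_zpow_mem {G : Type*} [CommGroup G] {B : Subgroup G} {p : ℕ} (hp : p.Prime)
    (hB : ∀ x : G, x ^ p ∈ B) {x : G} {k : ℤ} (hk : ¬ (p : ℤ) ∣ k) (h : x ^ k ∈ B) : x ∈ B := by
  have hcop : IsCoprime (p : ℤ) k := (Nat.prime_iff_prime_int.1 hp).coprime_iff_not_dvd.2 hk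
  obtain ⟨a, b, hab⟩ := hcop
  have : x = (x ^ p) ^ a * (x ^ k) ^ b := by
    rw [← zpow_natCast, ← zpow_mul, ← zpow_mul, ← zpow_add]
    have : (p : ℤ) * a + k * b = 1 := by linarith
    rw [this, zpow_one]
  rw [this]
  exact B.mul_mem (B.zpow_mem (hB x) _) (B.zpow_mem h _)

theorem mem_of_pow_mem {G : Type*} [CommGroup G] {B : Subgroup G} {p : ℕ} (hp : p.Prime)
    (hB : ∀ x : G, x ^ p ∈ B) {x : G} {k : ℕ} (hk : ¬ p ∣ k) (h : x ^ k ∈ B) : x ∈ B :=
  mem_of_zpow_mem hp hB (k := (k : ℤ)) (by rwa [Int.natCast_dvd_natCast]) (by rwa [zpow_natCast])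

theorem EU_of_pow {x : Mˣ} {n : ℕ} (hn : n ≠ 0) (h : x ^ n ∈ EU M) : x ∈ EU M := by
  intro v
  have := h v
  rw [ordU_pow] at this
  rcases mul_eq_zero.1 this with h | h
  · exact absurd (by exact_mod_cast h) hn
  · exact h

end ord

section action

variable {K M : Type*} [Field K] [NumberField K] [Field M] [NumberField M] [Algebra K M]

theorem ordU_smul (g : M ≃ₐ[K] M) (v : HeightOneSpectrum (𝓞 M)) (x : Mˣ) :
    ordU v (g • x) = ordU (conjPrime (g : M ≃+* M) v) x := by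
  rw [ordU, ordU, valuation_conjPrime]
  rfl

theorem smul_mem_EU (g : M ≃ₐ[K] M) {x : Mˣ} (h : x ∈ EU M) : g • x ∈ EU M := by
  intro v
  rw [ordU_smul]
  exact h _

/-- the inclusion of the multiplicative groups -/
noncomputable def emb (K M : Type*) [Field K] [Field M] [Algebra K M] : Kˣ →* Mˣ :=
  Units.map (algebraMap K M : K →* M)

/-- the norm -/
noncomputable def nrm (K M : Type*) [Field K] [Field M] [Algebra K M] : Mˣ →* Kˣ :=
  Units.map (Algebra.norm K : M →* K)

@[simp] theorem coe_emb (a : Kˣ) : ((emb K M a : Mˣ) : M) = algebraMap K M a := rfl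

@[simp] theorem coe_nrm (a : Mˣ) : ((nrm K M a : Kˣ) : K) = Algebra.norm K (a : M) := rfl

theorem smul_emb (g : M ≃ₐ[K] M) (a : Kˣ) : g • emb K M a = emb K M a := by
  ext
  rw [AlgEquiv.smul_units_def]
  show g (algebraMap K M a) = algebraMap K M a
  exact g.commutes _

theorem emb_injective : Function.Injective (emb K M) := by
  intro a b h
  ext
  apply (algebraMap K M).injective
  exact congrArg Units.val h

theorem emb_nrm [IsGalois K M] (x : Mˣ) : emb K M (nrm K M x) = ∏ g : M ≃ₐ[K] M, g • x := by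
  ext
  rw [coe_emb, coe_nrm, Algebra.norm_eq_prod_automorphisms, Units.coe_prod]
  rfl

theorem nrm_smul [IsGalois K M] (g : M ≃ₐ[K] M) (x : Mˣ) : nrm K M (g • x) = nrm K M x := by
  apply emb_injective (K := K) (M := M)
  rw [emb_nrm, emb_nrm]
  refine Fintype.prod_equiv (Equiv.mulRight g) _ _ (fun h => ?_)
  rw [Equiv.coe_mulRight, mul_smul]

theorem ordU_emb (Q : HeightOneSpectrum (𝓞 M)) :
    ∃ e : ℕ, e ≠ 0 ∧ ∀ a : Kˣ, ordU Q (emb K M a) = e * ordU (below K Q) a := by
  obtain ⟨e, he, h⟩ := exists_valuation_below (K := K) Q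
  refine ⟨e, he, fun a => ?_⟩
  rw [ordU, coe_emb, ← h, log_pow, nsmul_eq_mul]
  rfl

theorem below_conj (g : M ≃ₐ[K] M) (Q : HeightOneSpectrum (𝓞 M)) :
    below K (conjPrime (g : M ≃+* M) Q) = below K Q := by
  apply HeightOneSpectrum.ext
  ext x
  show RingOfIntegers.mapRingEquiv (g : M ≃+* M) (algebraMap (𝓞 K) (𝓞 M) x) ∈ Q.asIdeal ↔
    algebraMap (𝓞 K) (𝓞 M) x ∈ Q.asIdeal
  have : RingOfIntegers.mapRingEquiv (g : M ≃+* M) (algebraMap (𝓞 K) (𝓞 M) x) =
      algebraMap (𝓞 K) (𝓞 M) x := by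
    apply RingOfIntegers.ext
    show g (algebraMap K M (algebraMap (𝓞 K) K x)) = algebraMap K M (algebraMap (𝓞 K) K x)
    exact g.commutes _
  rw [this]

theorem nrm_mem_EU [IsGalois K M] {x : Mˣ} (h : x ∈ EU M) : nrm K M x ∈ EU K := by
  have h1 : emb K M (nrm K M x) ∈ EU M := by
    rw [emb_nrm]
    exact Subgroup.prod_mem _ (fun g _ => smul_mem_EU g h)
  intro v
  obtain ⟨Q, rfl⟩ := exists_above (K := K) (L := M) v
  obtain ⟨e, he, hv⟩ := ordU_emb (K := K) Q
  have h2 := hv (nrm K M x)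
  rw [h1 Q] at h2
  rcases mul_eq_zero.1 h2.symm with h | h
  · exact absurd (by exact_mod_cast h) he
  · exact h

theorem nrm_EU_iff [IsGalois K M] {x : Kˣ} (h : emb K M x ∈ EU M) : x ∈ EU K := by
  intro v
  obtain ⟨Q, rfl⟩ := exists_above (K := K) (L := M) v
  obtain ⟨e, he, hv⟩ := ordU_emb (K := K) Q
  have h2 := hv x
  rw [h Q] at h2
  rcases mul_eq_zero.1 h2.symm with h | h
  · exact absurd (by exact_mod_cast h) he
  · exact h

/-- if `σ x / x` is a unit for a generator `σ`, then `g x / x` is a unit for all `g` -/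
theorem smul_div_mem {σ : M ≃ₐ[K] M} (hσ : ∀ g, g ∈ Subgroup.zpowers σ) {x : Mˣ}
    (h : σ • x / x ∈ EU M) (g : M ≃ₐ[K] M) : g • x / x ∈ EU M := by
  let S : Subgroup (M ≃ₐ[K] M) :=
    { carrier := {g | g • x / x ∈ EU M}
      mul_mem' := by
        intro a b ha hb
        have h1 : (a * b) • x / x = (a • (b • x / x)) * (a • x / x) := by
          rw [smul_div', mul_smul]
          simp
        show (a * b) • x / x ∈ EU M
        rw [h1]
        exact mul_mem (smul_mem_EU a hb) ha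
      one_mem' := by
        show (1 : M ≃ₐ[K] M) • x / x ∈ EU M
        rw [one_smul, div_self']
        exact one_mem _
      inv_mem' := by
        intro a ha
        show a⁻¹ • x / x ∈ EU M
        have h1 : a⁻¹ • x / x = (a⁻¹ • (a • x / x))⁻¹ := by
          rw [smul_div', inv_smul_smul, inv_div]
        rw [h1]
        exact inv_mem (smul_mem_EU _ ha) }
  have : Subgroup.zpowers σ ≤ S := by
    rw [Subgroup.zpowers_le]
    exact h
  exact this (hσ g)

theorem emb_nrm_eq [IsGalois K M] {σ : M ≃ₐ[K] M} (hσ : ∀ g, g ∈ Subgroup.zpowers σ) {x : Mˣ}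
    (h : σ • x / x ∈ EU M) : ∃ η ∈ EU M, emb K M (nrm K M x) =
      x ^ Module.finrank K M * η := by
  refine ⟨∏ g : M ≃ₐ[K] M, (g • x / x), Subgroup.prod_mem _ (fun g _ => smul_div_mem hσ h g), ?_⟩
  rw [emb_nrm, ← IsGalois.card_aut_eq_finrank, Nat.card_eq_fintype_card, ← Finset.card_univ,
    ← Finset.prod_const, ← Finset.prod_mul_distrib]
  refine Finset.prod_congr rfl (fun g _ => ?_)
  simp

/-- partial products of the conjugates -/
noncomputable def pprod (σ : M ≃ₐ[K] M) (x : Mˣ) (i : ℕ) : Mˣ := ∏ k ∈ Finset.range i, σ ^ k • x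

theorem pprod_add (σ : M ≃ₐ[K] M) (x : Mˣ) (i j : ℕ) :
    pprod σ x (i + j) = pprod σ x i * σ ^ i • pprod σ x j := by
  rw [pprod, Finset.prod_range_add, pprod, pprod, Finset.smul_prod']
  congr 1
  refine Finset.prod_congr rfl (fun k _ => ?_)
  rw [pow_add, mul_smul]

theorem pprod_card [IsGalois K M] {σ : M ≃ₐ[K] M} (hσ : ∀ g, g ∈ Subgroup.zpowers σ) (x : Mˣ) :
    pprod σ x (orderOf σ) = emb K M (nrm K M x) := by
  classical
  rw [emb_nrm, pprod, ← IsCyclic.image_range_orderOf hσ, Finset.prod_image]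
  intro i hi j hj hij
  exact pow_injOn_Iio_orderOf (by simpa using hi) (by simpa using hj) hij

theorem pprod_mod {σ : M ≃ₐ[K] M} {x : Mˣ} (h : pprod σ x (orderOf σ) = 1) (i : ℕ) :
    pprod σ x (i % orderOf σ) = pprod σ x i := by
  have h1 : ∀ k j, pprod σ x (k * orderOf σ + j) = pprod σ x j := by
    intro k
    induction k with
    | zero => intro j; rw [zero_mul, zero_add]
    | succ k ih =>
      intro j
      rw [show (k + 1) * orderOf σ + j = orderOf σ + (k * orderOf σ + j) by ring, pprod_add, h,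
        one_mul, pow_orderOf_eq_one, one_smul, ih]
  conv_rhs => rw [← Nat.div_add_mod i (orderOf σ), mul_comm]
  rw [h1]

/-- Hilbert 90 -/
theorem hilbert90 [IsGalois K M] {σ : M ≃ₐ[K] M}
    (hσ : ∀ g, g ∈ Subgroup.zpowers σ) {x : Mˣ} (h : nrm K M x = 1) :
    ∃ y : Mˣ, σ • y / y = x := by
  classical
  have hpos : 0 < orderOf σ := orderOf_pos σ
  have h1 : pprod σ x (orderOf σ) = 1 := by rw [pprod_card hσ, h, map_one]
  have hex : ∀ g : M ≃ₐ[K] M, ∃ i : ℕ, σ ^ i = g := by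
    intro g
    obtain ⟨i, hi⟩ := mem_powers_iff_mem_zpowers.2 (hσ g)
    exact ⟨i, hi⟩
  choose i hi using hex
  have hF : ∀ a b : ℕ, σ ^ a = σ ^ b → pprod σ x a = pprod σ x b := by
    intro a b hab
    rw [pow_eq_pow_iff_modEq] at hab
    rw [← pprod_mod h1 a, ← pprod_mod h1 b, hab]
  obtain ⟨β, hβ⟩ := groupCohomology.isMulCoboundary₁_of_isMulCocycle₁_of_aut_to_units
    (fun g : M ≃ₐ[K] M => pprod σ x (i g)) (by
      intro g g'
      show pprod σ x (i (g * g')) = g • pprod σ x (i g') * pprod σ x (i g)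
      rw [hF (i (g * g')) (i g + i g') (by rw [hi, pow_add, hi, hi]), pprod_add, hi, mul_comm])
  refine ⟨β, ?_⟩
  have h2 : σ • β / β = pprod σ x (i σ) := hβ σ
  rw [h2, hF (i σ) 1 (by rw [hi, pow_one]), pprod, Finset.prod_range_one, pow_zero, one_smul]

end action

end Pool.Agent.Work.MP_787500_nt.OddP.Gen
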