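import Mathlib
import Pool.Agent.Work.MP_787500_nt.H67_GenA

/-!
Genus theory for cyclic extensions of prime degree: the main computation.
-/

set_option autoImplicit false
set_option linter.unusedSectionVars false

namespace Pool.Agent.Work.MP_787500_nt.OddP.Gen

open WithZero IsDedekindDomain NumberField

variable {K M : Type*} [Field K] [NumberField K] [Field M] [NumberField M] [Algebra K M]

/-- `x ↦ σ x / x` -/
noncomputable def tau (σ : M ≃ₐ[K] M) : Mˣ →* Mˣ :=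
  MulDistribMulAction.toMonoidHom Mˣ σ / MonoidHom.id Mˣ

@[simp] theorem tau_apply (σ : M ≃ₐ[K] M) (x : Mˣ) : tau σ x = σ • x / x := rfl

theorem tau_emb (σ : M ≃ₐ[K] M) (a : Kˣ) : tau σ (emb K M a) = 1 := by
  rw [tau_apply, smul_emb, div_self']

/-- the units generated by the `σ η / η` and the `p`-th powers -/
noncomputable def AU (p : ℕ) (σ : M ≃ₐ[K] M) : Subgroup Mˣ :=
  (EU M).map (tau σ) ⊔ (EU M).map (powMonoidHom p)

theorem tau_mem_AU {p : ℕ} {σ : M ≃ₐ[K] M} {x : Mˣ} (h : x ∈ EU M) : tau σ x ∈ AU p σ :=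
  Subgroup.mem_sup_left ⟨x, h, rfl⟩

theorem pow_mem_AU {p : ℕ} {σ : M ≃ₐ[K] M} {x : Mˣ} (h : x ∈ EU M) : x ^ p ∈ AU p σ :=
  Subgroup.mem_sup_right ⟨x, h, rfl⟩

theorem mem_of_zpow {G : Type*} [CommGroup G] {B : Subgroup G} {p : ℕ} (hp : p.Prime)
    {x : G} (hB : x ^ p ∈ B) {k : ℤ} (hk : ¬ (p : ℤ) ∣ k) (h : x ^ k ∈ B) : x ∈ B := by
  have hcop : IsCoprime (p : ℤ) k := (Nat.prime_iff_prime_int.1 hp).coprime_iff_not_dvd.2 hk
  obtain ⟨a, b, hab⟩ := hcop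
  have : x = (x ^ p) ^ a * (x ^ k) ^ b := by
    rw [← zpow_natCast, ← zpow_mul, ← zpow_mul, ← zpow_add]
    have : (p : ℤ) * a + k * b = 1 := by linarith
    rw [this, zpow_one]
  rw [this]
  exact B.mul_mem (B.zpow_mem hB _) (B.zpow_mem h _)

theorem mem_of_pow {G : Type*} [CommGroup G] {B : Subgroup G} {p : ℕ} (hp : p.Prime)
    {x : G} (hB : x ^ p ∈ B) {k : ℕ} (hk : ¬ p ∣ k) (h : x ^ k ∈ B) : x ∈ B :=
  mem_of_zpow hp hB (k := (k : ℤ)) (by rwa [Int.natCast_dvd_natCast]) (by rwa [zpow_natCast])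

theorem exists_generator_place (N : Type*) [Field N] [NumberField N]
    (Q : HeightOneSpectrum (𝓞 N)) : ∃ β : Nˣ, ordU Q β = classNumber N ∧
      ∀ Q' : HeightOneSpectrum (𝓞 N), Q' ≠ Q → ordU Q' β = 0 := by
  have hQ0 : Q.asIdeal ≠ 0 := Q.ne_bot
  have hQm := mem_nonZeroDivisors_of_ne_zero hQ0
  obtain ⟨x, hx⟩ : (Q.asIdeal ^ classNumber N).IsPrincipal := by
    rw [← ClassGroup.mk0_eq_one_iff (pow_mem hQm _), ← SubmonoidClass.mk_pow _ hQm, map_pow]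
    exact pow_card_eq_one
  have hx' : Ideal.span {x} = Q.asIdeal ^ classNumber N := hx.symm
  have hx0 : x ≠ 0 := by
    rintro rfl
    rw [Ideal.span_singleton_zero] at hx'
    exact pow_ne_zero _ hQ0 hx'.symm
  have hx0' : algebraMap (𝓞 N) N x ≠ 0 := by
    rwa [Ne, FaithfulSMul.algebraMap_eq_zero_iff]
  have hval : ∀ v : HeightOneSpectrum (𝓞 N), ∀ n : ℕ,
      ordU v (Units.mk0 _ hx0') ≤ -(n : ℤ) ↔ x ∈ v.asIdeal ^ n := by
    intro v n
    rw [← HeightOneSpectrum.intValuation_le_pow_iff_mem,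
      ← HeightOneSpectrum.valuation_of_algebraMap (K := N),
      ← exp_le_exp, exp_ordU, Units.val_mk0]
  have hmem : x ∈ Q.asIdeal ^ classNumber N := by
    rw [← hx']
    exact Ideal.mem_span_singleton_self x
  refine ⟨(Units.mk0 _ hx0')⁻¹, ?_, ?_⟩
  · rw [ordU_inv]
    have h1 := (hval Q (classNumber N)).2 hmem
    have h2 : ¬ (ordU Q (Units.mk0 _ hx0') ≤ -((classNumber N + 1 : ℕ) : ℤ)) := by
      rw [hval]
      intro h
      have h3 : Q.asIdeal ^ classNumber N ≤ Q.asIdeal ^ (classNumber N + 1) := by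
        rw [← hx', Ideal.span_singleton_le_iff_mem]
        exact h
      have h4 := (Ideal.pow_right_strictAnti Q.asIdeal hQ0 Q.isPrime.ne_top)
        (Nat.lt_succ_self (classNumber N))
      exact absurd h3 (not_le_of_gt h4)
    push_cast at h2
    omega
  · intro Q' hQ'
    rw [ordU_inv]
    have h1 := (hval Q' 0).2 (by rw [pow_zero, Ideal.one_eq_top]; trivial)
    have h2 : ¬ (ordU Q' (Units.mk0 _ hx0') ≤ -((1 : ℕ) : ℤ)) := by
      rw [hval, pow_one]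
      intro h
      have h3 : Q.asIdeal ^ classNumber N ≤ Q'.asIdeal := by
        rw [← hx', Ideal.span_singleton_le_iff_mem]
        exact h
      have h4 := Q'.isPrime.le_of_pow_le h3
      apply hQ'
      apply HeightOneSpectrum.ext
      exact (Q.isMaximal.eq_of_le Q'.isPrime.ne_top h4).symm
    push_cast at h1 h2
    omega


theorem ordU_of_dvd [IsGalois K M] {p : ℕ} (hp : p.Prime) {σ : M ≃ₐ[K] M}
    (hdeg : Module.finrank K M = p) {v' : HeightOneSpectrum (𝓞 K)} {γ : Mˣ}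
    (hσγ : tau σ γ ∈ EU M) (hγ : ¬ (p : ℤ) ∣ ordU v' (nrm K M γ))
    (hσ : ∀ g, g ∈ Subgroup.zpowers σ) :
    (∀ Q : HeightOneSpectrum (𝓞 M), below K Q = v' → ∀ a : Kˣ,
      ordU Q (emb K M a) = p * ordU v' a) ∧
    (∀ Q Q' : HeightOneSpectrum (𝓞 M), below K Q = v' → below K Q' = v' → Q = Q') ∧
    (∀ Q : HeightOneSpectrum (𝓞 M), below K Q = v' → Q.asIdeal.inertiaDeg (𝓞 K) = 1) := by
  have inst : IsGaloisGroup (M ≃ₐ[K] M) (𝓞 K) (𝓞 M) := IsGaloisGroup.of_isFractionRing _ _ _ K M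
  have hv'p : v'.asIdeal.IsPrime := v'.isPrime
  have hid := Ideal.ncard_primesOver_mul_ramificationIdxIn_mul_inertiaDegIn v'.asIdeal (𝓞 M)
    (M ≃ₐ[K] M)
  rw [IsGalois.card_aut_eq_finrank, hdeg] at hid
  have key : ∀ Q : HeightOneSpectrum (𝓞 M), below K Q = v' →
      (∀ a : Kˣ, ordU Q (emb K M a) = (v'.asIdeal.ramificationIdxIn (𝓞 M)) * ordU v' a) ∧
      Q.asIdeal.inertiaDeg (𝓞 K) = v'.asIdeal.inertiaDegIn (𝓞 M) ∧
      Q.asIdeal ∈ v'.asIdeal.primesOver (𝓞 M) := by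
    rintro Q rfl
    have hlo : Q.asIdeal.LiesOver (below K Q).asIdeal := ⟨rfl⟩
    have hQp : Q.asIdeal.IsPrime := Q.isPrime
    refine ⟨fun a => ?_, (Ideal.inertiaDegIn_eq_inertiaDeg _ Q.asIdeal (M ≃ₐ[K] M)).symm,
      hQp, hlo⟩
    rw [Ideal.ramificationIdxIn_eq_ramificationIdx _ Q.asIdeal (M ≃ₐ[K] M),
      ← Ideal.ramificationIdx'_eq_ramificationIdx _ _ (below K Q).ne_bot]
    rw [ordU, coe_emb, ← HeightOneSpectrum.valuation_liesOver M (below K Q) Q, log_pow,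
      nsmul_eq_mul]
    rfl
  obtain ⟨η, hη, e⟩ := emb_nrm_eq hσ hσγ
  rw [hdeg] at e
  obtain ⟨Q₀, hQ₀⟩ := exists_above (K := K) (L := M) v'
  have hdvd : p ∣ v'.asIdeal.ramificationIdxIn (𝓞 M) := by
    have h1 := (key Q₀ hQ₀).1 (nrm K M γ)
    rw [e, ordU_mul, ordU_pow, hη, add_zero] at h1
    have h2 : (p : ℤ) ∣ (v'.asIdeal.ramificationIdxIn (𝓞 M) : ℤ) * ordU v' (nrm K M γ) :=
      ⟨_, h1.symm⟩
    rcases (Nat.prime_iff_prime_int.1 hp).dvd_or_dvd h2 with h | h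
    · exact_mod_cast h
    · exact absurd h hγ
  obtain ⟨k, hk⟩ := hdvd
  rw [hk] at hid
  have h3 : (v'.asIdeal.primesOver (𝓞 M)).ncard * k * v'.asIdeal.inertiaDegIn (𝓞 M) = 1 := by
    apply Nat.eq_of_mul_eq_mul_left hp.pos
    rw [mul_one]
    conv_rhs => rw [← hid]
    ring
  have h4 := Nat.eq_one_of_mul_eq_one_left h3
  have h5 := Nat.eq_one_of_mul_eq_one_right h3
  have h6 := Nat.eq_one_of_mul_eq_one_left h5
  have h7 := Nat.eq_one_of_mul_eq_one_right h5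
  refine ⟨fun Q hQ a => ?_, fun Q Q' hQ hQ' => ?_, fun Q hQ => ?_⟩
  · rw [(key Q hQ).1, hk, h6, mul_one]
  · obtain ⟨I, hI⟩ := Set.ncard_eq_one.1 h7
    have h8 := (key Q hQ).2.2
    have h9 := (key Q' hQ').2.2
    rw [hI, Set.mem_singleton_iff] at h8 h9
    exact HeightOneSpectrum.ext (h8.trans h9.symm)
  · rw [(key Q hQ).2.1, h4]


theorem end_pow {A : Type*} [AddCommGroup A] {p : ℕ} (hp : p.Prime) (hp2 : p ≠ 2)
    (s : Module.End ℤ A) (hs : s ^ p = 1) (x : A) :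
    ∃ y : A, ((s - 1) ^ p) x = p • y := by
  have hc : Commute s (-1 : Module.End ℤ A) := (Commute.one_right s).neg_right
  obtain ⟨r, hr⟩ := hc.exists_add_pow_prime_eq hp
  rw [← sub_eq_add_neg, hs, (hp.odd_of_ne_two hp2).neg_one_pow, add_neg_cancel, zero_add] at hr
  refine ⟨(s * (-1) * r) x, ?_⟩
  rw [hr, mul_assoc, mul_assoc, ← nsmul_eq_mul, LinearMap.smul_apply, mul_assoc]


/-- the `p`-th iterate of `tau` is a `p`-th power -/
theorem tau_iterate {p : ℕ} {σ : M ≃ₐ[K] M} (hp : p.Prime) (hp2 : p ≠ 2) (hσp : σ ^ p = 1)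
    (x : Mˣ) : ∃ y : Mˣ, (tau σ)^[p] x = y ^ p := by
  let s : Module.End ℤ (Additive Mˣ) :=
    (MonoidHom.toAdditive (MulDistribMulAction.toMonoidHom Mˣ σ)).toIntLinearMap
  have hs1 : ∀ y : Mˣ, s (Additive.ofMul y) = Additive.ofMul (σ • y) := fun y => rfl
  have hsn : ∀ (n : ℕ) (y : Mˣ), (s ^ n) (Additive.ofMul y) = Additive.ofMul (σ ^ n • y) := by
    intro n
    induction n with
    | zero => intro y; rw [pow_zero, pow_zero, one_smul]; rfl
    | succ n ih => intro y; rw [pow_succ, Module.End.mul_apply, hs1, ih, pow_succ, mul_smul]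
  have hs : s ^ p = 1 := by
    refine LinearMap.ext (fun y => ?_)
    have := hsn p y.toMul
    rw [hσp, one_smul] at this
    exact this
  have hit : ∀ (n : ℕ) (y : Mˣ), ((s - 1) ^ n) (Additive.ofMul y) =
      Additive.ofMul ((tau σ)^[n] y) := by
    intro n
    induction n with
    | zero => intro y; rfl
    | succ n ih =>
      intro y
      rw [pow_succ, Module.End.mul_apply, Function.iterate_succ_apply, ← ih]
      rfl
  obtain ⟨y, hy⟩ := end_pow hp hp2 s hs (Additive.ofMul x)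
  refine ⟨y.toMul, ?_⟩
  rw [hit] at hy
  exact hy

section main

variable [IsGalois K M] {p : ℕ} (hp : p.Prime) {σ : M ≃ₐ[K] M}
  (hσ : ∀ g, g ∈ Subgroup.zpowers σ) (hdeg : Module.finrank K M = p) {H : ℕ} (hH : ¬ p ∣ H)
  (hDK : ∀ n : ℕ, n ≠ 0 → ∀ a : Kˣ, (∀ v : HeightOneSpectrum (𝓞 K), (n : ℤ) ∣ ordU v a) →
    ∃ c : Kˣ, a ^ H = c ^ n)
  (hEK : ∀ a ∈ EU K, a ^ H = 1) {v' : HeightOneSpectrum (𝓞 K)}
  (hunr : ∀ Q : HeightOneSpectrum (𝓞 M), below K Q ≠ v' → ∀ a : Kˣ,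
    ordU Q (emb K M a) = ordU (below K Q) a)

include hp hσ hdeg hunr in
/-- the norm of an element whose ideal is stable -/
theorem dvd_ordU_nrm {γ : Mˣ} (h : tau σ γ ∈ EU M) {v : HeightOneSpectrum (𝓞 K)} (hv : v ≠ v')
    {Q : HeightOneSpectrum (𝓞 M)} (hQ : below K Q = v) :
    ordU v (nrm K M γ) = p * ordU Q γ := by
  obtain ⟨η, hη, e⟩ := emb_nrm_eq hσ h
  rw [hdeg] at e
  have h1 := hunr Q (by rw [hQ]; exact hv) (nrm K M γ)
  rw [e, ordU_mul, hη Q, ordU_pow, add_zero, hQ] at h1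
  exact h1.symm

include hp hσ hdeg hH hDK hEK hunr in
theorem exists_gamma (hε : ∃ ε ∈ EU M, ε ∉ AU p σ) :
    ∃ γ : Mˣ, tau σ γ ∈ EU M ∧ ¬ (p : ℤ) ∣ ordU v' (nrm K M γ) := by
  obtain ⟨ε, hε, hεA⟩ := hε
  have h1 : nrm K M (ε ^ H) = 1 := by
    rw [map_pow]
    exact hEK _ (nrm_mem_EU hε)
  obtain ⟨γ, hγ⟩ := hilbert90 hσ h1
  have hγ' : tau σ γ = ε ^ H := hγ
  have hγE : tau σ γ ∈ EU M := by rw [hγ']; exact pow_mem hε _
  refine ⟨γ, hγE, fun hdvd => ?_⟩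
  obtain ⟨c, hc⟩ := hDK p hp.ne_zero (nrm K M γ) (by
    intro v
    by_cases hv : v = v'
    · rw [hv]; exact hdvd
    · obtain ⟨Q, hQ⟩ := exists_above (K := K) (L := M) v
      rw [dvd_ordU_nrm hp hσ hdeg hunr hγE hv hQ]
      exact Dvd.intro _ rfl)
  obtain ⟨η, hη, e⟩ := emb_nrm_eq hσ hγE
  rw [hdeg] at e
  set κ : Mˣ := γ ^ H / emb K M c with hκ
  have hκp : κ ^ p ∈ EU M := by
    have h2 : emb K M (nrm K M γ) ^ H = emb K M c ^ p := by rw [← map_pow, hc, map_pow]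
    have h3 : κ ^ p = (η ^ H)⁻¹ := by
      rw [hκ, div_pow, ← h2, e, mul_pow, ← pow_mul, ← pow_mul, mul_comm H p, div_eq_mul_inv,
        mul_inv, mul_inv_cancel_left]
    rw [h3]
    exact inv_mem (pow_mem hη _)
  have hκE : κ ∈ EU M := EU_of_pow hp.ne_zero hκp
  have h4 : tau σ κ = ε ^ (H * H) := by
    rw [hκ, map_div, map_pow, hγ', tau_emb, div_one, ← pow_mul]
  have h5 : ε ^ (H * H) ∈ AU p σ := by
    rw [← h4]
    exact tau_mem_AU hκE
  apply hεA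
  refine mem_of_pow hp (pow_mem_AU hε) (k := H * H) ?_ h5
  rw [hp.dvd_mul]
  tauto

include hp hdeg hσ hH hDK hEK hunr in
/-- the key step: nothing new is fixed by the Galois group -/
theorem mem_BU_of_tau {Q₀ : HeightOneSpectrum (𝓞 M)}
    (hram : ∀ a : Kˣ, ordU Q₀ (emb K M a) = p * ordU v' a)
    {θ : Mˣ} (hσθ : tau σ θ ∈ EU M) (hθ : ¬ (p : ℤ) ∣ ordU Q₀ θ)
    {lam : Mˣ} (hl : ∀ Q : HeightOneSpectrum (𝓞 M), (p : ℤ) ∣ ordU Q lam)
    (ht : tau σ lam ∈ BU p M) : lam ∈ BU p M := by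
  have hpz : Prime (p : ℤ) := Nat.prime_iff_prime_int.1 hp
  obtain ⟨κ, hκ, δ, hδ⟩ := mem_BU.1 ht
  -- the norm of `δ`
  have h1 : nrm K M (tau σ lam) = 1 := by
    rw [tau_apply, map_div, nrm_smul, div_self']
  have h2 : nrm K M δ ∈ EU K := by
    apply EU_of_pow hp.ne_zero
    have h3 : nrm K M δ ^ p = (nrm K M κ)⁻¹ := by
      rw [hδ, map_mul, map_pow] at h1
      exact (inv_eq_of_mul_eq_one_right h1).symm
    rw [h3]
    exact inv_mem (nrm_mem_EU hκ)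
  have h4 : nrm K M (δ ^ H) = 1 := by rw [map_pow]; exact hEK _ h2
  obtain ⟨θ', hθ'1⟩ := hilbert90 hσ h4
  have hθ'2 : tau σ θ' = δ ^ H := hθ'1
  set l1 : Mˣ := lam ^ H / θ' ^ p with hl1
  have hl1E : tau σ l1 ∈ EU M := by
    have : tau σ l1 = κ ^ H := by
      rw [hl1, map_div, map_pow, map_pow, hθ'2, hδ, mul_pow, ← pow_mul, ← pow_mul, mul_comm p H,
        mul_div_cancel_right]
    rw [this]
    exact pow_mem hκ _
  have hl1d : ∀ Q : HeightOneSpectrum (𝓞 M), (p : ℤ) ∣ ordU Q l1 := by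
    intro Q
    rw [hl1, ordU_div, ordU_pow, ordU_pow]
    exact dvd_sub (Dvd.dvd.mul_left (hl Q) _) (dvd_mul_right _ _)
  obtain ⟨ell, hell⟩ := hl1d Q₀
  set J : ℤ := ordU Q₀ θ with hJ
  set l2 : Mˣ := l1 ^ J / θ ^ (p * ell) with hl2
  have hl2E : tau σ l2 ∈ EU M := by
    rw [hl2, map_div, map_zpow, map_zpow]
    exact div_mem (zpow_mem hl1E _) (zpow_mem hσθ _)
  have hl20 : ordU Q₀ l2 = 0 := by
    rw [hl2, ordU_div, ordU_zpow, ordU_zpow, hell, ← hJ]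
    ring
  have hl2d : ∀ Q : HeightOneSpectrum (𝓞 M), (p : ℤ) ∣ ordU Q l2 := by
    intro Q
    rw [hl2, ordU_div, ordU_zpow, ordU_zpow]
    refine dvd_sub (Dvd.dvd.mul_left (hl1d Q) _) ?_
    rw [mul_assoc]
    exact dvd_mul_right _ _
  obtain ⟨η, hη, e⟩ := emb_nrm_eq hσ hl2E
  rw [hdeg] at e
  obtain ⟨c, hc⟩ := hDK (p ^ 2) (pow_ne_zero _ hp.ne_zero) (nrm K M l2) (by
    intro v
    by_cases hv : v = v'
    · have h5 := hram (nrm K M l2)
      rw [e, ordU_mul, ordU_pow, hl20, hη, mul_zero, add_zero] at h5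
      have h6 : ordU v' (nrm K M l2) = 0 := by
        rcases mul_eq_zero.1 h5.symm with h | h
        · exact absurd h hpz.ne_zero
        · exact h
      rw [hv, h6]
      exact dvd_zero _
    · obtain ⟨Q, hQ⟩ := exists_above (K := K) (L := M) v
      rw [dvd_ordU_nrm hp hσ hdeg hunr hl2E hv hQ]
      obtain ⟨k, hk⟩ := hl2d Q
      exact ⟨k, by rw [hk]; push_cast; ring⟩)
  have h6 : l2 ^ H / emb K M c ^ p ∈ EU M := by
    apply EU_of_pow hp.ne_zero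
    have h7 : emb K M (nrm K M l2) ^ H = emb K M c ^ (p ^ 2) := by rw [← map_pow, hc, map_pow]
    have h8 : (l2 ^ H / emb K M c ^ p) ^ p = (η ^ H)⁻¹ := by
      rw [div_pow, ← pow_mul (emb K M c), ← pow_two, ← h7, e, mul_pow, ← pow_mul, ← pow_mul,
        mul_comm H p, div_eq_mul_inv, mul_inv, mul_inv_cancel_left]
    rw [h8]
    exact inv_mem (pow_mem hη _)
  have h9 : l2 ^ H ∈ BU p M := by
    refine mem_BU.2 ⟨_, h6, emb K M c, ?_⟩
    rw [div_mul_cancel]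
  have h10 : l2 ∈ BU p M := mem_of_pow hp (pow_mem_BU _) hH h9
  have h11 : l1 ^ J ∈ BU p M := by
    have : l1 ^ J = l2 * (θ ^ ell) ^ p := by
      rw [hl2, ← zpow_natCast (θ ^ ell), ← zpow_mul, mul_comm ell, div_mul_cancel]
    rw [this]
    exact mul_mem h10 (pow_mem_BU _)
  have h12 : l1 ∈ BU p M := mem_of_zpow hp (pow_mem_BU _) hθ h11
  have h13 : lam ^ H ∈ BU p M := by
    have : lam ^ H = l1 * θ' ^ p := by rw [hl1, div_mul_cancel]
    rw [this]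
    exact mul_mem h12 (pow_mem_BU _)
  exact mem_of_pow hp (pow_mem_BU _) hH h13

include hp hdeg hσ hH hDK hEK hunr in
theorem mem_BU_of_dvd (hp2 : p ≠ 2) (hσp : σ ^ p = 1) {Q₀ : HeightOneSpectrum (𝓞 M)}
    (hram : ∀ a : Kˣ, ordU Q₀ (emb K M a) = p * ordU v' a)
    {θ : Mˣ} (hσθ : tau σ θ ∈ EU M) (hθ : ¬ (p : ℤ) ∣ ordU Q₀ θ)
    {lam : Mˣ} (hl : ∀ Q : HeightOneSpectrum (𝓞 M), (p : ℤ) ∣ ordU Q lam) : lam ∈ BU p M := by
  have hd : ∀ n : ℕ, ∀ Q : HeightOneSpectrum (𝓞 M), (p : ℤ) ∣ ordU Q ((tau σ)^[n] lam) := by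
    intro n
    induction n with
    | zero => exact hl
    | succ n ih =>
      intro Q
      rw [Function.iterate_succ_apply', tau_apply, ordU_div, ordU_smul]
      exact dvd_sub (ih _) (ih _)
  have hdown : ∀ n : ℕ, (tau σ)^[n] lam ∈ BU p M → lam ∈ BU p M := by
    intro n
    induction n with
    | zero => exact id
    | succ n ih =>
      intro h
      apply ih
      refine mem_BU_of_tau hp hσ hdeg hH hDK hEK hunr hram hσθ hθ (hd n) ?_
      rwa [Function.iterate_succ_apply'] at h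
  apply hdown p
  obtain ⟨y, hy⟩ := tau_iterate hp hp2 hσp lam
  rw [hy]
  exact pow_mem_BU y

end main

end Pool.Agent.Work.MP_787500_nt.OddP.Gen
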