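import Mathlib

set_option autoImplicit false

namespace Pool.Agent.Work.MP_787500_nt.OddP

open WithZero

namespace LN

theorem end_sum_apply {A : Type*} [AddCommGroup A] (f : ℕ → AddMonoid.End A) (n : ℕ) (a : A) :
    (∑ i ∈ Finset.range n, f i) a = ∑ i ∈ Finset.range n, f i a := by
  induction n with
  | zero => simp
  | succ n ih =>
    rw [Finset.sum_range_succ, Finset.sum_range_succ, ← ih]
    rfl

/-- the binomial identity in an endomorphism ring -/
theorem sum_pow_apply {A : Type*} [AddCommGroup A] (S : AddMonoid.End A) (n : ℕ) (a : A) :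
    ∑ i ∈ Finset.range n, (S ^ i) a =
      ∑ j ∈ Finset.range n, (n.choose (j + 1)) • ((S - 1) ^ j) a := by
  have h := congrArg (Polynomial.aeval (S - 1))
    (Polynomial.geom_sum_X_comp_X_add_one_eq_sum (R := ℤ) n)
  have h1 : (Polynomial.aeval (S - 1)) ((∑ i ∈ Finset.range n, (Polynomial.X : Polynomial ℤ) ^ i).comp
      (Polynomial.X + 1)) = ∑ i ∈ Finset.range n, S ^ i := by
    rw [Polynomial.aeval_comp]
    simp
  have h2 : (Polynomial.aeval (S - 1)) (∑ i ∈ Finset.range n,
      ((n.choose (i + 1) : ℕ) : Polynomial ℤ) * Polynomial.X ^ i) =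
      ∑ i ∈ Finset.range n, ((n.choose (i + 1) : ℕ) : AddMonoid.End A) * (S - 1) ^ i := by
    simp
  have h' : (Polynomial.aeval (S - 1)) ((∑ i ∈ Finset.range n, (Polynomial.X : Polynomial ℤ) ^ i).comp
      (Polynomial.X + 1)) = (Polynomial.aeval (S - 1)) (∑ i ∈ Finset.range n,
      ((n.choose (i + 1) : ℕ) : Polynomial ℤ) * Polynomial.X ^ i) := by
    exact_mod_cast h
  rw [h1, h2] at h'
  have h3 : (∑ i ∈ Finset.range n, S ^ i) a =
      (∑ i ∈ Finset.range n, ((n.choose (i + 1) : ℕ) : AddMonoid.End A) * (S - 1) ^ i) a := by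
    rw [h']
  rw [end_sum_apply, end_sum_apply] at h3
  rw [h3]
  apply Finset.sum_congr rfl
  intro j _
  change ((n.choose (j + 1) : ℕ) : AddMonoid.End A) (((S - 1) ^ j) a) = _
  rw [AddMonoid.End.natCast_apply]

theorem lt_exp_iff (x : ℤᵐ⁰) (a : ℤ) : x < exp (a + 1) ↔ x ≤ exp a := by
  rcases eq_or_ne x 0 with rfl | hx
  · simp
  · rw [← exp_log hx, exp_lt_exp, exp_le_exp]
    omega

theorem lt_one_iff (x : ℤᵐ⁰) : x < 1 ↔ x ≤ exp (-1 : ℤ) := by
  have := lt_exp_iff x (-1)
  rwa [neg_add_cancel, exp_zero] at this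

variable {M : Type*} [Field M] (v : Valuation M ℤᵐ⁰) {p : ℕ} [Fact p.Prime]

/-- the filtration -/
def V (i : ℤ) (x : M) : Prop := v x ≤ exp (-i)

variable {v}

theorem V.add {i : ℤ} {x y : M} (hx : V v i x) (hy : V v i y) : V v i (x + y) :=
  v.map_add_le hx hy

theorem V.sub {i : ℤ} {x y : M} (hx : V v i x) (hy : V v i y) : V v i (x - y) :=
  v.map_sub_le hx hy

theorem V.neg {i : ℤ} {x : M} (hx : V v i x) : V v i (-x) := by
  unfold V at *
  rwa [v.map_neg]

theorem V.sum {ι : Type*} {s : Finset ι} {f : ι → M} {i : ℤ} (h : ∀ j ∈ s, V v i (f j)) :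
    V v i (∑ j ∈ s, f j) :=
  v.map_sum_le h

theorem V.mul {i j : ℤ} {x y : M} (hx : V v i x) (hy : V v j y) : V v (i + j) (x * y) := by
  unfold V at *
  rw [v.map_mul, neg_add, exp_add]
  exact mul_le_mul' hx hy

theorem V.mono {i j : ℤ} {x : M} (hx : V v j x) (h : i ≤ j) : V v i x :=
  le_trans hx (by rw [exp_le_exp]; omega)

theorem V.zero {i : ℤ} : V v i (0 : M) := by
  unfold V
  simp

theorem V.one : V v 0 (1 : M) := by
  unfold V
  simp

theorem V.nat (n : ℕ) : V v 0 (n : M) := by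
  induction n with
  | zero => rw [Nat.cast_zero]; exact V.zero
  | succ n ih => rw [Nat.cast_succ]; exact ih.add V.one

theorem V.int (n : ℤ) : V v 0 (n : M) := by
  rcases Int.eq_nat_or_neg n with ⟨k, rfl | rfl⟩
  · simpa using V.nat k
  · simpa using (V.nat k).neg

theorem V.pow {i : ℤ} {x : M} (hx : V v i x) (n : ℕ) : V v (n * i) (x ^ n) := by
  induction n with
  | zero => simpa using V.one
  | succ n ih =>
    have := ih.mul hx
    rw [pow_succ]
    refine this.mono (le_of_eq ?_)
    push_cast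
    ring

theorem V.mul' {i : ℤ} {x y : M} (hx : V v i x) (hy : V v 0 y) : V v i (x * y) := by
  simpa using hx.mul hy

omit [Fact p.Prime] in
theorem V.dvd (hpv : v (p : M) = exp (-(p : ℤ))) {n : ℤ} (h : (p : ℤ) ∣ n) :
    V v p (n : M) := by
  obtain ⟨k, rfl⟩ := h
  have h1 : V v (p : ℤ) ((p : ℤ) : M) := by
    unfold V
    rw [Int.cast_natCast, hpv]
  have := h1.mul (V.int k)
  rw [Int.cast_mul]
  simpa using this

/-- an integer of positive valuation is divisible by p -/
theorem V.dvd' (hpv : v (p : M) = exp (-(p : ℤ))) {n : ℤ} (h : V v 1 (n : M)) :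
    (p : ℤ) ∣ n := by
  by_contra hn
  have hpp : Prime (p : ℤ) := Nat.prime_iff_prime_int.mp Fact.out
  have hco : IsCoprime (p : ℤ) n := (hpp.coprime_iff_not_dvd).mpr hn
  obtain ⟨a, b, hab⟩ := hco
  have h1 : V v 1 ((p : ℤ) : M) := by
    refine (V.dvd hpv (dvd_refl _)).mono ?_
    have : 1 < p := (Fact.out : p.Prime).one_lt
    omega
  have h2 : V v 1 ((a * p + b * n : ℤ) : M) := by
    push_cast
    refine V.add ?_ ?_
    · rw [mul_comm]
      have := h1.mul' (V.int (v := v) a)
      push_cast at this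
      exact this
    · rw [mul_comm]
      exact h.mul' (V.int b)
  rw [hab, Int.cast_one] at h2
  unfold V at h2
  rw [v.map_one, ← exp_zero, exp_le_exp] at h2
  omega

/-- the value of an integer prime to p is 1 -/
theorem val_int (hpv : v (p : M) = exp (-(p : ℤ))) {n : ℤ} (h : ¬ (p : ℤ) ∣ n) :
    v (n : M) = 1 := by
  refine le_antisymm (by simpa [V] using V.int (v := v) n) ?_
  by_contra hlt
  push Not at hlt
  exact h (V.dvd' hpv ((lt_one_iff _).mp hlt))

section main

variable (hp : p ≠ 2) (σ : M ≃+* M) (hσ : ∀ x, (σ ^ p) x = x) (hv : ∀ x, v (σ x) = v x)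
    (hfix : ∀ x, σ x = x → x ≠ 0 → ∃ n : ℤ, v x = exp ((p : ℤ) * n))
    (hpv : v (p : M) = exp (-(p : ℤ)))
    (hres : ∀ x, v x ≤ 1 → ∃ a : ℤ, v (x - a) < 1)

include hv in
theorem val_pow (k : ℕ) (x : M) : v ((σ ^ k) x) = v x := by
  induction k with
  | zero => simp
  | succ k ih => rw [pow_succ', RingAut.mul_apply, hv, ih]

theorem prod_tele {x : M} (hx : x ≠ 0) (n : ℕ) :
    ∏ i ∈ Finset.range n, (σ ^ i) (σ x / x) = (σ ^ n) x / x := by
  induction n with
  | zero => simp [hx]
  | succ n ih =>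
    have h1 : (σ ^ n) x ≠ 0 := (map_ne_zero_iff _ (σ ^ n).injective).mpr hx
    rw [Finset.prod_range_succ, ih, map_div₀, ← RingAut.mul_apply, ← pow_succ]
    field_simp

omit [Fact p.Prime] in
include hσ in
theorem prod_tele' {x : M} (hx : x ≠ 0) : ∏ i ∈ Finset.range p, (σ ^ i) (σ x / x) = 1 := by
  rw [prod_tele σ hx, hσ, div_self hx]

include hσ hv hpv hres in
/-- (1) -/
theorem tau_le {i : ℤ} {x : M} (hx : V v i x) : V v (i + 1) (σ x - x) := by
  rcases eq_or_ne x 0 with rfl | hx0
  · simpa using V.zero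
  set r := σ x / x with hr
  have hvx : v x ≠ 0 := by simpa using hx0
  have hr1 : v r = 1 := by
    rw [hr, v.map_div, hv, div_self hvx]
  obtain ⟨a, ha⟩ := hres r hr1.le
  have ha' : V v 1 (r - a) := (lt_one_iff _).mp ha
  have h1 : ∀ n : ℕ, V v 1 (∏ i ∈ Finset.range n, (σ ^ i) r - (a : M) ^ n) ∧
      V v 0 (∏ i ∈ Finset.range n, (σ ^ i) r) := by
    intro n
    induction n with
    | zero => simpa using ⟨V.zero, V.one⟩
    | succ n ih =>
      have h2 : V v 0 ((σ ^ n) r) := by
        unfold V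
        rw [val_pow σ hv, hr1]
        simp
      refine ⟨?_, ?_⟩
      · rw [Finset.prod_range_succ]
        have h3 : V v 1 ((σ ^ n) r - a) := by
          have : (σ ^ n) r - a = (σ ^ n) (r - a) := by rw [map_sub, map_intCast]
          rw [this]
          unfold V
          rw [val_pow σ hv]
          exact ha'
        have : (∏ i ∈ Finset.range n, (σ ^ i) r) * (σ ^ n) r - (a : M) ^ (n + 1) =
            (∏ i ∈ Finset.range n, (σ ^ i) r - (a : M) ^ n) * (σ ^ n) r +
              ((σ ^ n) r - a) * (a : M) ^ n := by ring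
        rw [this]
        refine (ih.1.mul' h2).add (h3.mul' ?_)
        simpa using (V.int (v := v) a).pow n
      · rw [Finset.prod_range_succ]
        exact ih.2.mul' h2
  have h4 := (h1 p).1
  rw [hr, prod_tele' σ hσ hx0] at h4
  have h5 : V v 1 (((a ^ p - 1 : ℤ)) : M) := by
    have := h4.neg
    push_cast
    simpa using this
  have h6 := V.dvd' hpv h5
  have h7 : (p : ℤ) ∣ a - 1 := by
    rw [← Int.modEq_iff_dvd] at h6
    have h8 := (ZMod.intCast_eq_intCast_iff _ _ _).mpr h6
    push_cast at h8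
    rw [ZMod.pow_card] at h8
    rw [← Int.modEq_iff_dvd, ← ZMod.intCast_eq_intCast_iff]
    push_cast
    exact h8
  have h8 : V v 1 ((a - 1 : ℤ) : M) := by
    refine (V.dvd hpv h7).mono ?_
    have : 1 < p := (Fact.out : p.Prime).one_lt
    omega
  have h9 : V v 1 (r - 1) := by
    have := ha'.add h8
    push_cast at this
    simpa using this
  have h10 : σ x - x = (r - 1) * x := by
    rw [hr]
    field_simp
  rw [h10, add_comm]
  exact h9.mul hx

include hσ hv hpv hres in
/-- (1') -/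
theorem tau_le' {x : M} (hx : V v p x) : V v (p + 2) (σ x - x) := by
  have hp0 : (p : M) ≠ 0 := by
    intro h
    rw [h, v.map_zero] at hpv
    exact absurd hpv.symm (by simp)
  set y := x / p with hy
  have hxy : x = p * y := by rw [hy]; field_simp
  have hvy : v y ≤ 1 := by
    have h1 : v (p : M) * v y ≤ v (p : M) * 1 := by
      rw [← v.map_mul, ← hxy, mul_one, hpv]
      exact hx
    exact (mul_le_mul_iff_right₀ (by rw [hpv]; simp)).mp h1
  obtain ⟨a, ha⟩ := hres y hvy
  have ha' : V v 1 (y - a) := (lt_one_iff _).mp ha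
  have h1 := tau_le σ hσ hv hpv hres ha'
  have h2 : σ x - x = p * (σ (y - a) - (y - a)) := by
    rw [hxy]
    simp
    ring
  rw [h2]
  have h3 : V v p (p : M) := by
    unfold V
    rw [hpv]
  exact h3.mul h1

omit [Fact p.Prime] in
theorem sum_fixed (x : M) (hx : (σ ^ p) x = x) :
    σ (∑ i ∈ Finset.range p, (σ ^ i) x) = ∑ i ∈ Finset.range p, (σ ^ i) x := by
  rw [map_sum]
  have h1 : ∀ i, σ ((σ ^ i) x) = (σ ^ (i + 1)) x := by
    intro i
    rw [pow_succ', RingAut.mul_apply]
  simp_rw [h1]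
  have h2 := Finset.sum_range_succ (fun i => (σ ^ i) x) p
  have h3 := Finset.sum_range_succ' (fun i => (σ ^ i) x) p
  have h4 : (σ ^ 0) x = x := rfl
  rw [h2, hx, h4] at h3
  exact (add_right_cancel h3).symm

omit [Fact p.Prime] in
theorem prod_fixed (x : M) (hx0 : x ≠ 0) (hx : (σ ^ p) x = x) :
    σ (∏ i ∈ Finset.range p, (σ ^ i) x) = ∏ i ∈ Finset.range p, (σ ^ i) x := by
  rw [map_prod]
  have h1 : ∀ i, σ ((σ ^ i) x) = (σ ^ (i + 1)) x := by
    intro i
    rw [pow_succ', RingAut.mul_apply]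
  simp_rw [h1]
  have h2 := Finset.prod_range_succ (fun i => (σ ^ i) x) p
  have h3 := Finset.prod_range_succ' (fun i => (σ ^ i) x) p
  have h4 : (σ ^ 0) x = x := rfl
  rw [h2, hx, h4] at h3
  exact (mul_right_cancel₀ hx0 h3).symm

/-- the additive endomorphism of σ -/
def SS (σ : M ≃+* M) : AddMonoid.End M := (σ : M →+* M).toAddMonoidHom

theorem SS_pow (n : ℕ) (x : M) : ((SS σ) ^ n) x = (σ ^ n) x := by
  induction n generalizing x with
  | zero => rfl
  | succ n ih =>
    rw [pow_succ, pow_succ, RingAut.mul_apply, ← ih]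
    rfl

include hp hσ hv hfix hpv hres in
/-- (2) -/
theorem not_V_three {x : M} (hx : v x = exp (-1 : ℤ)) : ¬ V v 3 (σ x - x) := by
  intro h3
  have hp3 : 3 ≤ p := by
    have h2 := (Fact.out : p.Prime).two_le
    omega
  have hT : ∀ j : ℕ, V v (j + 3) ((((SS σ) - 1) ^ (j + 1)) x) := by
    intro j
    induction j with
    | zero =>
      rw [zero_add, pow_one, Nat.cast_zero, zero_add]
      exact h3
    | succ j ih =>
      rw [pow_succ']
      have := tau_le σ hσ hv hpv hres ih
      refine V.mono (x := _) this (le_of_eq ?_)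
      push_cast
      ring
  have hsum := sum_pow_apply (SS σ) p x
  simp_rw [SS_pow] at hsum
  set t := ∑ i ∈ Finset.range p, (σ ^ i) x with ht
  have htf : σ t = t := sum_fixed σ x (hσ x)
  have hp5 : V v ((p : ℤ) + 2) (t - (p : M) * x) := by
    have e1 : t - (p : M) * x =
        ∑ j ∈ Finset.range (p - 1), (p.choose (j + 2)) • (((SS σ) - 1) ^ (j + 1)) x := by
      rw [hsum]
      obtain ⟨q, hq⟩ : ∃ q, p = q + 1 := ⟨p - 1, by omega⟩
      have h12 : p - 1 = q := by omega
      rw [h12]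
      have h13 : Finset.range p = Finset.range (q + 1) := by rw [hq]
      rw [h13, Finset.sum_range_succ', zero_add, Nat.choose_one_right, pow_zero, nsmul_eq_mul]
      exact add_sub_cancel_right _ _
    rw [e1]
    refine V.sum ?_
    intro j hj
    rw [Finset.mem_range] at hj
    rw [nsmul_eq_mul]
    rcases Nat.lt_or_ge (j + 2) p with hlt | hge
    · have h5 : V v p ((p.choose (j + 2) : ℕ) : M) := by
        have := V.dvd (v := v) hpv (n := (p.choose (j + 2) : ℕ))
          (by exact_mod_cast (Fact.out : p.Prime).dvd_choose_self (by omega) hlt)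
        exact_mod_cast this
      refine (h5.mul (hT j)).mono ?_
      omega
    · have h6 : j + 2 = p := by omega
      obtain ⟨k, rfl⟩ : ∃ k, j = k + 1 := ⟨j - 1, by omega⟩
      rw [h6, Nat.choose_self, Nat.cast_one, one_mul]
      have h7 := hT k
      have h8 : ((k : ℤ) + 3) = p := by omega
      rw [h8] at h7
      have h9 := tau_le' σ hσ hv hpv hres h7
      rw [pow_succ']
      exact h9
  have h6 : v ((p : M) * x) = exp (-((p : ℤ) + 1)) := by
    rw [v.map_mul, hpv, hx, ← exp_add]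
    congr 1
    ring
  have h7 : v t = exp (-((p : ℤ) + 1)) := by
    have h8 : v (t - (p : M) * x) < v ((p : M) * x) := by
      rw [h6]
      refine lt_of_le_of_lt hp5 ?_
      rw [exp_lt_exp]
      omega
    have h9 := v.map_add_eq_of_lt_left h8
    rw [add_sub_cancel, h6] at h9
    exact h9
  have ht0 : t ≠ 0 := by
    intro h0
    rw [h0, v.map_zero] at h7
    exact absurd h7.symm (by simp)
  obtain ⟨n, hn⟩ := hfix t htf ht0
  rw [h7, exp_inj] at hn
  have h10 : (p : ℤ) ∣ 1 := ⟨-n - 1, by linarith⟩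
  have h11 := Int.le_of_dvd one_pos h10
  omega

include hp hσ hv hfix hpv hres in
theorem val_tau {x : M} (hx : v x = exp (-1 : ℤ)) : v (σ x / x - 1) = exp (-1 : ℤ) := by
  have hx0 : x ≠ 0 := by
    intro h0
    rw [h0, v.map_zero] at hx
    exact absurd hx.symm (by simp)
  have h1 : V v 2 (σ x - x) := tau_le σ hσ hv hpv hres (i := 1) (le_of_eq hx)
  have h2 := not_V_three hp σ hσ hv hfix hpv hres hx
  have h3 : v (σ x - x) = exp (-2 : ℤ) := by
    refine le_antisymm h1 ?_
    unfold V at h2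
    have := (lt_exp_iff (v (σ x - x)) (-3)).not.mpr (by simpa using h2)
    simpa using this
  have h4 : σ x / x - 1 = (σ x - x) / x := by field_simp
  rw [h4, v.map_div, h3, hx, ← exp_sub]
  congr 1

/-- binomial estimate -/
theorem pow_p (hpv : v (p : M) = exp (-(p : ℤ))) {y : M} (hy : V v 2 (y - 1)) :
    V v (p + 2) (y ^ p - 1) := by
  have hp2 := (Fact.out : p.Prime).two_le
  have hz : v (y - 1) ≤ 1 := by
    have := V.mono hy (i := 0) (by norm_num)
    simpa [V] using this
  obtain ⟨r, hr⟩ := exists_add_pow_prime_eq (R := v.integer) (Fact.out : p.Prime) ⟨y - 1, hz⟩ 1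
  have h1 := congrArg (fun a : v.integer => (a : M)) hr
  push_cast at h1
  have hr0 : V v 0 (r : M) := by
    have := r.2
    unfold V
    rw [neg_zero, exp_zero]
    exact this
  rw [sub_add_cancel, one_pow] at h1
  have h2 : y ^ p - 1 = (y - 1) ^ p + (p : M) * (y - 1) * (r : M) := by
    rw [h1]
    ring
  rw [h2]
  have hpp : V v p (p : M) := by
    unfold V
    rw [hpv]
  refine V.add ?_ ?_
  · refine (hy.pow p).mono ?_
    omega
  · exact (hpp.mul hy).mul' hr0

theorem one_mul_one {i : ℤ} (hi : 0 ≤ i) {x y : M} (hx : V v i (x - 1)) (hy : V v i (y - 1)) :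
    V v i (x * y - 1) := by
  have hx0 : V v 0 x := by
    have := (hx.mono hi).add V.one
    simpa using this
  have : x * y - 1 = (y - 1) * x + (x - 1) := by ring
  rw [this]
  exact (hy.mul' hx0).add hx

theorem one_pow_one {i : ℤ} (hi : 0 ≤ i) {x : M} (hx : V v i (x - 1)) (n : ℕ) :
    V v i (x ^ n - 1) := by
  induction n with
  | zero => simpa using V.zero
  | succ n ih => rw [pow_succ]; exact one_mul_one hi ih hx

theorem one_prod_one {ι : Type*} {s : Finset ι} {f : ι → M} {i : ℤ} (hi : 0 ≤ i)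
    (h : ∀ j ∈ s, V v i (f j - 1)) : V v i (∏ j ∈ s, f j - 1) := by
  classical
  induction s using Finset.induction_on with
  | empty => simpa using V.zero
  | insert a s ha ih =>
    rw [Finset.prod_insert ha]
    exact one_mul_one hi (h a (Finset.mem_insert_self _ _))
      (ih fun j hj => h j (Finset.mem_insert_of_mem hj))

/-- the multiplicative endomorphism of σ -/
def SM (σ : M ≃+* M) : AddMonoid.End (Additive Mˣ) :=
  MonoidHom.toAdditive (Units.map ((σ : M →+* M) : M →* M))

theorem SM_pow (n : ℕ) (x : Mˣ) :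
    (((Additive.toMul (((SM σ) ^ n) (Additive.ofMul x))) : Mˣ) : M) = (σ ^ n) (x : M) := by
  induction n with
  | zero => rfl
  | succ n ih =>
    rw [pow_succ', pow_succ', RingAut.mul_apply, ← ih]
    rfl

/-- the iterated quotients -/
def bb (σ : M ≃+* M) (x : Mˣ) (n : ℕ) : Mˣ :=
  Additive.toMul (((SM σ - 1) ^ n) (Additive.ofMul x))

theorem bb_zero (x : Mˣ) : bb σ x 0 = x := rfl

theorem bb_succ (x : Mˣ) (n : ℕ) :
    (bb σ x (n + 1) : M) = σ (bb σ x n : M) / (bb σ x n : M) := by
  have h1 : bb σ x (n + 1) = Additive.toMul ((SM σ - 1) (Additive.ofMul (bb σ x n))) := by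
    unfold bb
    rw [pow_succ']
    rfl
  have h2 : (SM σ - 1) (Additive.ofMul (bb σ x n)) =
      SM σ (Additive.ofMul (bb σ x n)) - Additive.ofMul (bb σ x n) := rfl
  rw [h1, h2, toMul_sub]
  rw [Units.val_div_eq_div_val]
  rfl

theorem norm_eq (x : Mˣ) (n : ℕ) :
    ∏ i ∈ Finset.range n, (σ ^ i) (x : M) =
      ∏ j ∈ Finset.range n, (bb σ x j : M) ^ (n.choose (j + 1)) := by
  have h := congrArg (fun a : Additive Mˣ => ((Additive.toMul a : Mˣ) : M))
    (sum_pow_apply (SM σ) n (Additive.ofMul x))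
  simp only [toMul_sum, Units.coe_prod, SM_pow, toMul_nsmul, Units.val_pow_eq_pow_val] at h
  exact h

include hσ hv hpv hres in
/-- (3) -/
theorem norm_two (x : Mˣ) (hx : V v 2 ((x : M) - 1)) :
    V v (p + 1) (∏ i ∈ Finset.range p, (σ ^ i) (x : M) - 1) := by
  have hb : ∀ j : ℕ, V v (j + 2) ((bb σ x j : M) - 1) := by
    intro j
    induction j with
    | zero => simpa [bb_zero] using hx
    | succ j ih =>
      have h0 : V v 0 ((bb σ x j : M)) := by
        have := (ih.mono (i := 0) (by omega)).add V.one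
        simpa using this
      have h1 : v (bb σ x j : M) = 1 := by
        have h2 := v.map_one_add_of_lt (x := (bb σ x j : M) - 1) (by
          rw [lt_one_iff]
          exact ih.mono (i := 1) (by omega))
        rwa [add_sub_cancel] at h2
      have h3 : (bb σ x (j + 1) : M) - 1 =
          (σ ((bb σ x j : M) - 1) - ((bb σ x j : M) - 1)) / (bb σ x j : M) := by
        have hne : (bb σ x j : M) ≠ 0 := Units.ne_zero _
        rw [bb_succ, map_sub, map_one]
        field_simp
        ring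
      have h4 := tau_le σ hσ hv hpv hres ih
      rw [h3]
      unfold V at h4 ⊢
      rw [v.map_div, h1, div_one]
      refine le_trans h4 (le_of_eq ?_)
      congr 1
  rw [norm_eq]
  refine one_prod_one (by omega) ?_
  intro j hj
  rw [Finset.mem_range] at hj
  rcases Nat.lt_or_ge (j + 1) p with hlt | hge
  · obtain ⟨c, hc⟩ := (Fact.out : p.Prime).dvd_choose_self (k := j + 1) (by omega) hlt
    rw [hc, pow_mul]
    refine one_pow_one (by omega) ?_ c
    refine (pow_p hpv ((hb j).mono (by omega))).mono (by omega)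
  · have h6 : j + 1 = p := by omega
    rw [h6, Nat.choose_self, pow_one]
    exact (hb j).mono (by omega)

/-- (4) -/
theorem one_add_pow {x : M} (hx : V v 1 x) (n : ℕ) : V v 2 ((1 + x) ^ n - 1 - n * x) := by
  induction n with
  | zero => simpa using V.zero
  | succ n ih =>
    have h1 : (1 + x) ^ (n + 1) - 1 - ((n + 1 : ℕ) : M) * x =
        ((1 + x) ^ n - 1 - n * x) * (1 + x) + (x * x) * n := by
      push_cast
      ring
    rw [h1]
    refine (ih.mul' ?_).add ((hx.mul hx).mul' (V.nat n))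
    exact V.one.add (hx.mono (by norm_num))

include hp hσ hv hfix hpv hres in
theorem norm_one (hpi : ∃ π, v π = exp (-1 : ℤ)) {u : M} (hu : V v 1 (u - 1)) :
    V v (p + 1) (∏ i ∈ Finset.range p, (σ ^ i) u - 1) := by
  have hp2 := (Fact.out : p.Prime).two_le
  obtain ⟨π, hπ⟩ := hpi
  have hπ0 : π ≠ 0 := by
    intro h0
    rw [h0, v.map_zero] at hπ
    exact absurd hπ.symm (by simp)
  set e := σ π / π with he
  have hx0 : v (e - 1) = exp (-1 : ℤ) := val_tau hp σ hσ hv hfix hpv hres hπ
  set x := e - 1 with hx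
  have hxne : x ≠ 0 := by
    intro h0
    rw [h0, v.map_zero] at hx0
    exact absurd hx0.symm (by simp)
  have hNe : ∏ i ∈ Finset.range p, (σ ^ i) e = 1 := prod_tele' σ hσ hπ0
  have h1 : v ((u - 1) / x) ≤ 1 := by
    rw [v.map_div, hx0]
    have : v (u - 1) / exp (-1 : ℤ) ≤ exp (-1 : ℤ) / exp (-1 : ℤ) :=
      div_le_div_of_nonneg_right hu zero_le
    rwa [div_self (by simp)] at this
  obtain ⟨a, ha⟩ := hres _ h1
  obtain ⟨n, hn⟩ : ∃ n : ℕ, (p : ℤ) ∣ a - n := by
    refine ⟨(a % p).toNat, ?_⟩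
    have h2 : (0 : ℤ) ≤ a % p := Int.emod_nonneg _ (by omega)
    rw [Int.toNat_of_nonneg h2]
    exact Int.dvd_self_sub_emod
  have h3 : V v 1 ((u - 1) / x - n) := by
    have h4 : V v 1 ((u - 1) / x - a) := (lt_one_iff _).mp ha
    have h5 : V v 1 (((a - n : ℤ)) : M) := (V.dvd hpv hn).mono (by omega)
    have h6 := h4.add h5
    push_cast at h6
    simpa using h6
  have hvx : V v 1 x := le_of_eq hx0
  have h4 : V v 2 (u - e ^ n) := by
    have h5 : u - e ^ n = x * ((u - 1) / x - n) - ((1 + x) ^ n - 1 - n * x) := by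
      have : e = 1 + x := by rw [hx]; ring
      rw [this]
      field_simp
      ring
    rw [h5]
    exact (hvx.mul h3).sub (one_add_pow hvx n)
  have he1 : v e = 1 := by
    have h2 := v.map_one_add_of_lt (x := x) (by rw [hx0, lt_one_iff])
    rwa [hx, add_sub_cancel] at h2
  have hen : v (e ^ n) = 1 := by rw [v.map_pow, he1, one_pow]
  have he0 : e ^ n ≠ 0 := by
    intro h0
    rw [h0, v.map_zero] at hen
    exact absurd hen (by simp)
  have hu1 : v u = 1 := by
    have h2 := v.map_one_add_of_lt (x := u - 1) (by rw [lt_one_iff]; exact hu)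
    rwa [add_sub_cancel] at h2
  have hu0 : u ≠ 0 := by
    intro h0
    rw [h0, v.map_zero] at hu1
    exact absurd hu1 (by simp)
  have h7 := norm_two σ hσ hv hpv hres (Units.mk0 (u / e ^ n) (div_ne_zero hu0 he0)) (by
    rw [Units.val_mk0]
    have h8 : u / e ^ n - 1 = (u - e ^ n) / e ^ n := by field_simp
    rw [h8]
    unfold V at h4 ⊢
    rw [v.map_div, hen, div_one]
    exact h4)
  rw [Units.val_mk0] at h7
  have h9 : ∏ i ∈ Finset.range p, (σ ^ i) (u / e ^ n) = ∏ i ∈ Finset.range p, (σ ^ i) u := by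
    simp_rw [map_div₀, map_pow]
    rw [Finset.prod_div_distrib, Finset.prod_pow, hNe, one_pow, div_one]
  rwa [h9] at h7

include hfix in
theorem fixed_up {y : M} (hy : σ y = y) (h : V v (p + 1) y) : V v (2 * p) y := by
  rcases eq_or_ne y 0 with rfl | hy0
  · exact V.zero
  have hp0 : 0 < p := (Fact.out : p.Prime).pos
  obtain ⟨n, hn⟩ := hfix y hy hy0
  unfold V at h ⊢
  rw [hn, exp_le_exp] at h ⊢
  have h1 : n ≤ -2 := by
    by_contra hlt
    push Not at hlt
    have : (p : ℤ) * (-1) ≤ p * n := mul_le_mul_of_nonneg_left (by omega) (by omega)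
    omega
  have : (p : ℤ) * n ≤ p * (-2) := mul_le_mul_of_nonneg_left h1 (by omega)
  linarith

end main

end LN

theorem local_norm {M : Type*} [Field M] (v : Valuation M ℤᵐ⁰) {p : ℕ} [Fact p.Prime] (hp : p ≠ 2)
    (σ : M ≃+* M) (hσ : ∀ x, (σ ^ p) x = x) (hv : ∀ x, v (σ x) = v x)
    (hfix : ∀ x, σ x = x → x ≠ 0 → ∃ n : ℤ, v x = exp ((p : ℤ) * n))
    (hpv : v (p : M) = exp (-(p : ℤ))) (hpi : ∃ π, v π = exp (-1 : ℤ))
    (hres : ∀ x, v x ≤ 1 → ∃ a : ℤ, v (x - a) < 1) (β : M) (hβ : v β = 1) :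
    v ((∏ i ∈ Finset.range p, (σ ^ i) β) ^ (p - 1) - 1) ≤ exp (-(2 * p : ℤ)) := by
  open LN in
  have hp2 := (Fact.out : p.Prime).two_le
  have hβ0 : β ≠ 0 := by
    intro h0
    rw [h0, v.map_zero] at hβ
    exact absurd hβ (by simp)
  obtain ⟨a, ha⟩ := hres β hβ.le
  have hpa : ¬ (p : ℤ) ∣ a := by
    intro hd
    have h1 : V v 1 (a : M) := (V.dvd hpv hd).mono (by omega)
    have h2 : V v 1 (β - a) := (lt_one_iff _).mp ha
    have h3 := h2.add h1
    rw [sub_add_cancel] at h3
    unfold V at h3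
    rw [hβ, ← exp_zero, exp_le_exp] at h3
    omega
  have hva : v (a : M) = 1 := val_int hpv hpa
  have ha0 : (a : M) ≠ 0 := by
    intro h0
    rw [h0, v.map_zero] at hva
    exact absurd hva (by simp)
  have hu : V v 1 (β / a - 1) := by
    have h8 : β / a - 1 = (β - a) / a := by field_simp
    rw [h8]
    have h2 : V v 1 (β - a) := (lt_one_iff _).mp ha
    unfold V at h2 ⊢
    rw [v.map_div, hva, div_one]
    exact h2
  have h1 := norm_one hp σ hσ hv hfix hpv hres hpi hu
  have hN : ∏ i ∈ Finset.range p, (σ ^ i) β =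
      (a : M) ^ p * ∏ i ∈ Finset.range p, (σ ^ i) (β / a) := by
    simp_rw [map_div₀, map_intCast]
    rw [Finset.prod_div_distrib, Finset.prod_const, Finset.card_range]
    field_simp
  have hfixN : σ ((∏ i ∈ Finset.range p, (σ ^ i) β) ^ (p - 1) - 1) =
      (∏ i ∈ Finset.range p, (σ ^ i) β) ^ (p - 1) - 1 := by
    rw [map_sub, map_pow, map_one, prod_fixed σ β hβ0 (hσ β)]
  refine fixed_up σ hfix hfixN ?_
  rw [hN, mul_pow]
  refine one_mul_one (by omega) ?_ (one_pow_one (by omega) h1 _)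
  have h2 : ((p : ℤ) ^ 2) ∣ (a ^ p) ^ (p - 1) - 1 := by
    have hpp : Prime (p : ℤ) := Nat.prime_iff_prime_int.mp Fact.out
    have hco : IsCoprime a (p : ℤ) := ((hpp.coprime_iff_not_dvd).mpr hpa).symm
    have h3 := Int.ModEq.pow_card_sub_one_eq_one (Fact.out : p.Prime) hco
    have h4 := dvd_sub_pow_of_dvd_sub (Int.modEq_iff_dvd.mp h3.symm) 1
    rw [pow_one, one_pow] at h4
    rw [← pow_mul, mul_comm p, pow_mul]
    exact h4
  obtain ⟨k, hk⟩ := h2
  have h3 : ((a : M) ^ p) ^ (p - 1) - 1 = (p : M) ^ 2 * (k : M) := by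
    have := congrArg (fun z : ℤ => (z : M)) hk
    push_cast at this
    exact this
  rw [h3]
  have h4 : V v p (p : M) := by
    unfold V
    rw [hpv]
  exact ((h4.pow 2).mul' (V.int k)).mono (by push_cast; omega)

end Pool.Agent.Work.MP_787500_nt.OddP
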