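import Mathlib

/-!
Not every unit is of the form `σ(η)/η * θ^p` if the rank of the units is positive and `σ^p = 1`.
-/

set_option autoImplicit false

namespace Pool.Agent.Work.MP_787500_nt.OddP

open NumberField

namespace NIL

theorem nil_pow {A : Type*} [AddCommGroup A] {p : ℕ} (hp : p.Prime) (S : AddMonoid.End A)
    (hS : S ^ p = 1) : ∃ X : AddMonoid.End A, (S - 1) ^ p = (p : AddMonoid.End A) * X := by
  have hc : Commute S (-1 : AddMonoid.End A) := (Commute.one_right S).neg_right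
  obtain ⟨r, hr⟩ := hc.exists_add_pow_prime_eq hp
  rw [hS] at hr
  obtain ⟨e, he⟩ : ∃ e : AddMonoid.End A, 1 + (-1) ^ p = (p : AddMonoid.End A) * e := by
    rcases hp.eq_two_or_odd' with h | h
    · subst h
      refine ⟨1, ?_⟩
      norm_num
    · refine ⟨0, ?_⟩
      rw [h.neg_one_pow]
      simp
  refine ⟨e + S * (-1) * r, ?_⟩
  rw [sub_eq_add_neg, hr, he]
  rw [mul_add, mul_assoc, mul_assoc, mul_assoc]

theorem divisible {A : Type*} [AddCommGroup A] {p : ℕ} (hp : p.Prime) (S : AddMonoid.End A)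
    (hS : S ^ p = 1) (h : ∀ a : A, ∃ b c : A, a = S b - b + p • c) :
    ∀ a : A, ∃ c : A, a = p • c := by
  have h1 : ∀ n : ℕ, ∀ a : A, ∃ b c : A, a = ((S - 1) ^ n) b + p • c := by
    intro n
    induction n with
    | zero => intro a; exact ⟨a, 0, by simp⟩
    | succ n ih =>
      intro a
      obtain ⟨b, c, rfl⟩ := ih a
      obtain ⟨b', c', rfl⟩ := h b
      refine ⟨b', ((S - 1) ^ n) c' + c, ?_⟩
      rw [map_add, map_nsmul, pow_succ, smul_add, ← add_assoc]
      rfl
  obtain ⟨X, hX⟩ := nil_pow hp S hS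
  intro a
  obtain ⟨b, c, hbc⟩ := h1 p a
  refine ⟨X b + c, ?_⟩
  rw [hbc, hX, smul_add]
  congr 1

end NIL

theorem exists_unit_not_mul {M : Type*} [Field M] [NumberField M] {p : ℕ} [Fact p.Prime]
    (σ : M ≃+* M) (hσ : ∀ x, (σ ^ p) x = x) (hr : 0 < Units.rank M) :
    ∃ ε : (𝓞 M)ˣ, ∀ η θ : (𝓞 M)ˣ, algebraMap (𝓞 M) M ε ≠
      σ (algebraMap (𝓞 M) M η) / algebraMap (𝓞 M) M η * algebraMap (𝓞 M) M θ ^ p := by
  have hp : p.Prime := Fact.out
  by_contra hcon
  push Not at hcon
  let s : (𝓞 M)ˣ →* (𝓞 M)ˣ := Units.map (RingOfIntegers.mapRingHom (σ : M →+* M)).toMonoidHom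
  have hs : ∀ u : (𝓞 M)ˣ, algebraMap (𝓞 M) M (s u : 𝓞 M) = σ (algebraMap (𝓞 M) M u) := by
    intro u; rfl
  have hinj : Function.Injective (fun u : (𝓞 M)ˣ => algebraMap (𝓞 M) M (u : 𝓞 M)) := by
    intro u v huv
    exact Units.ext (RingOfIntegers.ext huv)
  let S : AddMonoid.End (Additive (𝓞 M)ˣ) := MonoidHom.toAdditive s
  have hSn : ∀ (n : ℕ) (u : (𝓞 M)ˣ), algebraMap (𝓞 M) M
      ((Additive.toMul ((S ^ n) (Additive.ofMul u)) : (𝓞 M)ˣ) : 𝓞 M) =
      (σ ^ n) (algebraMap (𝓞 M) M u) := by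
    intro n
    induction n with
    | zero => intro u; rfl
    | succ n ih =>
      intro u
      rw [pow_succ, pow_succ]
      have := ih (s u)
      rw [hs] at this
      exact this
  have hS : S ^ p = 1 := by
    refine DFunLike.ext _ _ fun a => ?_
    apply Additive.toMul.injective
    apply hinj
    exact (hSn p (Additive.toMul a)).trans (hσ _)
  have hdiv := NIL.divisible hp S hS (by
    intro a
    obtain ⟨η, θ, h⟩ := hcon (Additive.toMul a)
    refine ⟨Additive.ofMul η, Additive.ofMul θ, ?_⟩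
    apply Additive.toMul.injective
    apply hinj
    simp only
    rw [h]
    change _ = algebraMap (𝓞 M) M (((s η / η * θ ^ p : (𝓞 M)ˣ)) : 𝓞 M)
    rw [Units.val_mul, map_mul, Units.val_pow_eq_pow_val, map_pow]
    congr 1
    rw [div_eq_iff, ← hs]
    · rw [← map_mul, ← Units.val_mul, div_mul_cancel]
    · intro h0
      have := (map_eq_zero_iff _ (RingOfIntegers.coe_injective (K := M))).1 h0
      exact η.ne_zero this)
  -- fundamental units
  let i : Fin (Units.rank M) := ⟨0, hr⟩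
  obtain ⟨c, hc⟩ := hdiv (Additive.ofMul (Units.fundSystem M i))
  have hc' : Units.fundSystem M i = (Additive.toMul c) ^ p := hc
  obtain ⟨⟨ζ, e⟩, he, -⟩ := Units.exist_unique_eq_mul_prod M (Additive.toMul c)
  simp only at he
  have h1 : Units.fundSystem M i = ((1 : Units.torsion M) : (𝓞 M)ˣ) *
      ∏ j, (Units.fundSystem M j) ^ ((Pi.single i 1 : Fin (Units.rank M) → ℤ) j) := by
    rw [Finset.prod_eq_single i]
    · simp
    · intro j _ hj
      simp [Pi.single_eq_of_ne hj]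
    · intro h; exact absurd (Finset.mem_univ _) h
  have h2 : Units.fundSystem M i = ((ζ ^ p : Units.torsion M) : (𝓞 M)ˣ) *
      ∏ j, (Units.fundSystem M j) ^ ((fun j => (p : ℤ) * e j) j) := by
    conv_lhs => rw [hc', he]
    rw [mul_pow]
    congr 1
    rw [← Finset.prod_pow]
    refine Finset.prod_congr rfl fun j _ => ?_
    rw [← zpow_natCast, ← zpow_mul, mul_comm]
  have h3 := (Units.exist_unique_eq_mul_prod M (Units.fundSystem M i)).unique
    (y₁ := (1, Pi.single i 1)) (y₂ := (ζ ^ p, fun j => (p : ℤ) * e j)) h1 h2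
  have h4 := congrFun (congrArg Prod.snd h3) i
  simp only [Pi.single_eq_same] at h4
  have h5 : (p : ℤ) ∣ 1 := ⟨_, h4⟩
  have h6 : p ∣ 1 := by exact_mod_cast h5
  exact hp.one_lt.ne' (Nat.dvd_one.1 h6)

end Pool.Agent.Work.MP_787500_nt.OddP
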