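import Mathlib

/-!
Elements of number fields all of whose valuations are divisible by `n`, and units of imaginary
quadratic fields.
-/

set_option autoImplicit false

namespace Pool.Agent.Work.MP_787500_nt.OddP

open WithZero IsDedekindDomain NumberField

namespace VD

/-- an integer with all valuations divisible by `n` generates the `n`-th power of an ideal -/
theorem exists_ideal_pow {R : Type*} [CommRing R] [IsDedekindDomain R] {n : ℕ} {a : R}
    (ha : a ≠ 0) (h : ∀ v : HeightOneSpectrum R, ∃ j : ℤ, v.intValuation a = exp ((n : ℤ) * j)) :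
    ∃ I : Ideal R, Ideal.span {a} = I ^ n := by
  classical
  have hspan : (Ideal.span {a} : Ideal R) ≠ 0 := by
    rwa [Ne, Ideal.zero_eq_bot, Ideal.span_singleton_eq_bot]
  have h1 : Associates.mk (Ideal.span {a} : Ideal R) ≠ 0 := by
    rwa [Associates.mk_ne_zero]
  obtain ⟨B, hB⟩ := Associates.is_pow_of_dvd_count h1 (k := n) (by
    intro p hp
    obtain ⟨P, rfl⟩ := Associates.mk_surjective p
    have hP : Irreducible P := Associates.irreducible_mk.1 hp
    have hP' : Prime P := hP.prime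
    let v : HeightOneSpectrum R := ⟨P, Ideal.isPrime_of_prime hP', hP'.ne_zero⟩
    obtain ⟨j, hj⟩ := h v
    rw [v.intValuation_if_neg ha, exp_inj] at hj
    have h2 : (n : ℤ) ∣ ((Associates.mk P).count (Associates.mk (Ideal.span {a} : Ideal R)).factors : ℕ) :=
      ⟨-j, by
        have hj' : (-((Associates.mk P).count (Associates.mk (Ideal.span {a} : Ideal R)).factors : ℕ) : ℤ)
          = n * j := hj
        linarith⟩
    exact_mod_cast h2)
  obtain ⟨I, rfl⟩ := Associates.mk_surjective B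
  refine ⟨I, ?_⟩
  rw [← Associates.mk_pow, Associates.mk_eq_mk_iff_associated] at hB
  exact associated_iff_eq.1 hB

end VD

theorem exists_pow_of_valuation {K : Type*} [Field K] [NumberField K] {n : ℕ} (hn : n ≠ 0) {b : K}
    (hb : b ≠ 0) (h : ∀ v : HeightOneSpectrum (𝓞 K), ∃ j : ℤ, v.valuation K b = exp ((n : ℤ) * j)) :
    ∃ (c : K) (u : (𝓞 K)ˣ), c ≠ 0 ∧ b ^ classNumber K = c ^ n * algebraMap (𝓞 K) K u := by
  classical
  obtain ⟨x, y, hy, hxy⟩ := IsFractionRing.div_surjective (A := 𝓞 K) b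
  have hy0 : y ≠ 0 := nonZeroDivisors.ne_zero hy
  have hy0' : algebraMap (𝓞 K) K y ≠ 0 := by
    rw [Ne, map_eq_zero_iff _ (RingOfIntegers.coe_injective (K := K))]
    exact hy0
  have hx0 : x ≠ 0 := by
    rintro rfl
    apply hb
    rw [← hxy, map_zero, zero_div]
  let a : 𝓞 K := x * y ^ (n - 1)
  have ha0 : a ≠ 0 := mul_ne_zero hx0 (pow_ne_zero _ hy0)
  have hab : algebraMap (𝓞 K) K a = b * (algebraMap (𝓞 K) K y) ^ n := by
    have hn' : n = (n - 1) + 1 := by omega
    simp only [a]
    rw [map_mul, map_pow, ← hxy]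
    conv_rhs => rw [hn', pow_succ]
    field_simp
  have hval : ∀ v : HeightOneSpectrum (𝓞 K), ∃ j : ℤ, v.intValuation a = exp ((n : ℤ) * j) := by
    intro v
    obtain ⟨j, hj⟩ := h v
    have h1 : v.valuation K (algebraMap (𝓞 K) K a) = v.intValuation a := v.valuation_of_algebraMap a
    rw [hab, map_mul, map_pow, hj] at h1
    have h2 : v.valuation K (algebraMap (𝓞 K) K y) ≠ 0 := by
      rw [Valuation.ne_zero_iff]; exact hy0'
    obtain ⟨k, hk⟩ : ∃ k : ℤ, v.valuation K (algebraMap (𝓞 K) K y) = exp k :=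
      ⟨log (v.valuation K (algebraMap (𝓞 K) K y)), (exp_log h2).symm⟩
    refine ⟨j + k, ?_⟩
    rw [← h1, hk, ← exp_nsmul, ← exp_add]
    congr 1
    rw [nsmul_eq_mul]
    ring
  obtain ⟨I, hI⟩ := VD.exists_ideal_pow ha0 hval
  have hI0 : I ≠ 0 := by
    rintro rfl
    rw [zero_pow hn, Ideal.zero_eq_bot, Ideal.span_singleton_eq_bot] at hI
    exact ha0 hI
  have hImem : I ∈ nonZeroDivisors (Ideal (𝓞 K)) := mem_nonZeroDivisors_of_ne_zero hI0
  have hprin : (I ^ classNumber K).IsPrincipal := by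
    rw [← ClassGroup.mk0_eq_one_iff (pow_mem hImem _)]
    have h1 : (⟨I ^ classNumber K, pow_mem hImem _⟩ : nonZeroDivisors (Ideal (𝓞 K))) =
        ⟨I, hImem⟩ ^ classNumber K := rfl
    rw [h1, map_pow]
    exact pow_card_eq_one
  obtain ⟨c', hc'⟩ := hprin.principal
  have hc'' : I ^ classNumber K = Ideal.span {c'} := hc'
  have h2 : Ideal.span {a ^ classNumber K} = Ideal.span {c' ^ n} := by
    rw [← Ideal.span_singleton_pow, ← Ideal.span_singleton_pow, hI, ← hc'', ← pow_mul, ← pow_mul,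
      mul_comm]
  obtain ⟨u, hu⟩ := (Ideal.span_singleton_eq_span_singleton.1 h2).symm
  have hc0 : c' ≠ 0 := by
    rintro rfl
    rw [zero_pow hn, zero_mul] at hu
    exact pow_ne_zero _ ha0 hu.symm
  have hc0' : algebraMap (𝓞 K) K c' ≠ 0 := by
    rw [Ne, map_eq_zero_iff _ (RingOfIntegers.coe_injective (K := K))]
    exact hc0
  refine ⟨algebraMap (𝓞 K) K c' / (algebraMap (𝓞 K) K y) ^ classNumber K, u,
    div_ne_zero hc0' (pow_ne_zero _ hy0'), ?_⟩
  have h3 := congrArg (algebraMap (𝓞 K) K) hu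
  rw [map_mul, map_pow, map_pow, hab, mul_pow] at h3
  rw [div_pow, div_mul_eq_mul_div, h3, ← pow_mul, ← pow_mul, mul_comm n, mul_div_assoc, div_self,
    mul_one]
  exact pow_ne_zero _ hy0'

theorem isUnit_of_valuation {K : Type*} [Field K] [NumberField K] {b : K} (hb : b ≠ 0)
    (h : ∀ v : HeightOneSpectrum (𝓞 K), v.valuation K b = 1) :
    ∃ u : (𝓞 K)ˣ, algebraMap (𝓞 K) K u = b := by
  obtain ⟨x, hx⟩ := HeightOneSpectrum.mem_integers_of_valuation_le_one (R := 𝓞 K) K b
    (fun v => (h v).le)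
  obtain ⟨y, hy⟩ := HeightOneSpectrum.mem_integers_of_valuation_le_one (R := 𝓞 K) K b⁻¹
    (fun v => by rw [map_inv₀, h v, inv_one])
  have hxy : x * y = 1 := by
    apply RingOfIntegers.coe_injective
    rw [map_mul, hx, hy, map_one, mul_inv_cancel₀ hb]
  exact ⟨⟨x, y, hxy, by rw [mul_comm]; exact hxy⟩, hx⟩

/-- the units of an imaginary quadratic field have order prime to `p` if `p` is odd and unramified
at some place -/
theorem exists_unit_pow {K : Type*} [Field K] [NumberField K] (hdeg : Module.finrank ℚ K = 2)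
    (hc : IsTotallyComplex K) {p : ℕ} [Fact p.Prime] (hp : p ≠ 2) (v : HeightOneSpectrum (𝓞 K))
    (hv : v.valuation K (p : K) = exp (-1 : ℤ)) :
    ∃ w : ℕ, ¬ p ∣ w ∧ ∀ u : (𝓞 K)ˣ, u ^ w = 1 := by
  classical
  have hpp : p.Prime := Fact.out
  have hrank : Units.rank K = 0 := by
    unfold Units.rank
    have h1 := InfinitePlace.card_add_two_mul_card_eq_rank K
    have h2 := InfinitePlace.card_eq_nrRealPlaces_add_nrComplexPlaces K
    have h3 : InfinitePlace.nrRealPlaces K = 0 := IsTotallyComplex.nrRealPlaces_eq_zero K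
    omega
  refine ⟨Units.torsionOrder K, ?_, ?_⟩
  · intro hdvd
    obtain ⟨ζ, hζ⟩ := exists_prime_orderOf_dvd_card' p (G := Units.torsion K) hdvd
    have hprim : IsPrimitiveRoot (((ζ : Units.torsion K) : (𝓞 K)ˣ) : 𝓞 K) p := by
      have h1 : IsPrimitiveRoot ζ p := by rw [← hζ]; exact IsPrimitiveRoot.orderOf ζ
      have h2 : IsPrimitiveRoot ((ζ : Units.torsion K) : (𝓞 K)ˣ) p :=
        h1.map_of_injective (f := (Units.torsion K).subtype) Subtype.val_injective
      exact h2.map_of_injective (f := Units.coeHom (𝓞 K)) Units.val_injective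
    set z : 𝓞 K := (((ζ : Units.torsion K) : (𝓞 K)ˣ) : 𝓞 K) with hz
    have hp1 : p = (p - 1) + 1 := by have := hpp.one_lt; omega
    have hprod : ∏ k ∈ Finset.range (p - 1), (1 - z ^ (k + 1)) = (p : 𝓞 K) := by
      rw [hp1] at hprim
      rw [hprim.prod_one_sub_pow_eq_order]
      conv_rhs => rw [hp1]
      push_cast
      rfl
    have hvp : v.intValuation (p : 𝓞 K) = exp (-1 : ℤ) := by
      rw [← hv, ← v.valuation_of_algebraMap (K := K)]
      congr 1
    have hlt : ∀ k, v.intValuation (1 - z ^ (k + 1)) ≤ exp (-1 : ℤ) := by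
      intro k
      obtain ⟨r, hr⟩ := exists_add_pow_prime_eq hpp (1 : 𝓞 K) (-z ^ (k + 1))
      have h1 : (1 - z ^ (k + 1)) ^ p = p * ((-z ^ (k + 1)) * r) := by
        rw [sub_eq_add_neg, hr, (hpp.odd_of_ne_two hp).neg_pow, ← pow_mul, mul_comm (k + 1) p,
          pow_mul, hprim.pow_eq_one]
        ring
      have h2 : v.intValuation ((1 - z ^ (k + 1)) ^ p) < 1 := by
        rw [h1, map_mul, hvp]
        refine lt_of_le_of_lt (mul_le_of_le_one_right' (v.intValuation_le_one _)) ?_
        rw [← exp_zero, exp_lt_exp]; norm_num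
      rw [map_pow] at h2
      have h3 : v.intValuation (1 - z ^ (k + 1)) < 1 := by
        by_contra hcon
        push Not at hcon
        exact absurd h2 (not_lt.2 (one_le_pow_of_one_le' hcon p))
      rcases eq_or_ne (v.intValuation (1 - z ^ (k + 1))) 0 with h0 | h0
      · rw [h0]; exact zero_le
      · rw [← exp_log h0] at h3 ⊢
        rw [← exp_zero, exp_lt_exp] at h3
        rw [exp_le_exp]
        omega
    have h4 : v.intValuation (p : 𝓞 K) ≤ exp (-((p - 1 : ℕ) : ℤ)) := by
      rw [← hprod, map_prod]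
      calc ∏ k ∈ Finset.range (p - 1), v.intValuation (1 - z ^ (k + 1)) ≤
          ∏ _k ∈ Finset.range (p - 1), exp (-1 : ℤ) := Finset.prod_le_prod' fun k _ => hlt k
        _ = _ := by
          rw [Finset.prod_const, Finset.card_range, ← exp_nsmul]
          congr 1
          simp
    rw [hvp, exp_le_exp] at h4
    have h5 : 2 ≤ p - 1 := by
      have := hpp.two_le
      omega
    omega
  · intro u
    obtain ⟨⟨ζ, e⟩, he, -⟩ := Units.exist_unique_eq_mul_prod K u
    have h1 : u = ζ := by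
      rw [he]
      have : IsEmpty (Fin (Units.rank K)) := by rw [hrank]; infer_instance
      simp
    rw [h1]
    have h2 : ζ ^ Units.torsionOrder K = 1 := pow_card_eq_one'
    have h3 := congrArg (Subtype.val) h2
    exact h3

end Pool.Agent.Work.MP_787500_nt.OddP
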