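import Mathlib
import Pool.Agent.Work.MP_787500_nt.H67_GenB
import Pool.Agent.Work.MP_787500_nt.H67_LocNorm
import Pool.Agent.Work.MP_787500_nt.H67_ValDiv
import Pool.Agent.Work.MP_787500_nt.H67_Unit

/-!
Genus theory for cyclic extensions of prime degree: no extension of degree `p` of the imaginary
quadratic field that is ramified only at `v'` and split at `v`.
-/

set_option autoImplicit false
set_option linter.unusedSectionVars false

namespace Pool.Agent.Work.MP_787500_nt.OddP.Gen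

open WithZero IsDedekindDomain NumberField

section base

variable {K : Type*} [Field K] [NumberField K]

theorem mem_EU_iff_unit {x : Kˣ} : x ∈ EU K ↔ ∃ u : (𝓞 K)ˣ, algebraMap (𝓞 K) K u = x := by
  constructor
  · intro h
    exact isUnit_of_valuation x.ne_zero (fun v => by rw [← exp_ordU, h v, exp_zero])
  · rintro ⟨u, hu⟩ v
    have h1 : v.valuation K (x : K) ≤ 1 := by
      rw [← hu]
      exact v.valuation_le_one _
    have h2 : v.valuation K ((x⁻¹ : Kˣ) : K) ≤ 1 := by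
      have : ((x⁻¹ : Kˣ) : K) = algebraMap (𝓞 K) K ((u⁻¹ : (𝓞 K)ˣ) : 𝓞 K) := by
        rw [Units.val_inv_eq_inv_val, ← hu]
        refine (eq_inv_of_mul_eq_one_right ?_).symm
        rw [← map_mul, Units.mul_inv, map_one]
      rw [this]
      exact v.valuation_le_one _
    rw [← exp_ordU, ← exp_zero, exp_le_exp] at h1 h2
    rw [ordU_inv] at h2
    omega

theorem exists_exponent (hK2 : Module.finrank ℚ K = 2) (hcx : IsTotallyComplex K) {p : ℕ}
    [Fact p.Prime] (hp2 : p ≠ 2) (hcls : ¬ p ∣ classNumber K) {v' : HeightOneSpectrum (𝓞 K)}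
    (hpv' : v'.valuation K (p : K) = exp (-1 : ℤ)) :
    ∃ H : ℕ, ¬ p ∣ H ∧ (∀ n : ℕ, n ≠ 0 → ∀ a : Kˣ,
      (∀ v : HeightOneSpectrum (𝓞 K), (n : ℤ) ∣ ordU v a) → ∃ c : Kˣ, a ^ H = c ^ n) ∧
      (∀ a ∈ EU K, a ^ H = 1) := by
  have hp : p.Prime := Fact.out
  obtain ⟨w, hw, hw1⟩ := exists_unit_pow hK2 hcx hp2 v' hpv'
  refine ⟨classNumber K * w, ?_, ?_, ?_⟩
  · rw [hp.dvd_mul]
    tauto
  · intro n hn a ha
    obtain ⟨c, u, hc, h⟩ := exists_pow_of_valuation hn (b := (a : K)) a.ne_zero (by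
      intro v
      obtain ⟨j, hj⟩ := ha v
      exact ⟨j, by rw [← exp_ordU, hj]⟩)
    refine ⟨Units.mk0 c hc ^ w, ?_⟩
    ext
    rw [Units.val_pow_eq_pow_val, Units.val_pow_eq_pow_val, Units.val_pow_eq_pow_val,
      Units.val_mk0, pow_mul, h, mul_pow, ← map_pow, ← Units.val_pow_eq_pow_val, hw1]
    simp only [Units.val_one, map_one, mul_one]
    rw [← pow_mul, ← pow_mul, mul_comm]
  · intro a ha
    obtain ⟨u, hu⟩ := mem_EU_iff_unit.1 ha
    ext
    rw [Units.val_pow_eq_pow_val, ← hu, mul_comm, pow_mul, ← map_pow, ← Units.val_pow_eq_pow_val,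
      hw1]
    simp

/-- the elements congruent to one modulo the square of the prime `v` -/
def SU (v : HeightOneSpectrum (𝓞 K)) : Subgroup Kˣ where
  carrier := {x | v.valuation K ((x : K) - 1) ≤ exp (-2 : ℤ)}
  one_mem' := by
    show v.valuation K (((1 : Kˣ) : K) - 1) ≤ exp (-2 : ℤ)
    rw [Units.val_one, sub_self, map_zero]
    exact zero_le
  mul_mem' := by
    intro a b ha hb
    show v.valuation K (((a * b : Kˣ) : K) - 1) ≤ exp (-2 : ℤ)
    have e : ((a * b : Kˣ) : K) - 1 = ((a : K) - 1) * ((b : K) - 1) + (((a : K) - 1) + ((b : K) - 1)) := by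
      rw [Units.val_mul]; ring
    have ha' : v.valuation K ((a : K) - 1) ≤ exp (-2 : ℤ) := ha
    have hb' : v.valuation K ((b : K) - 1) ≤ exp (-2 : ℤ) := hb
    rw [e]
    refine (Valuation.map_add _ _ _).trans (max_le ?_ ((Valuation.map_add _ _ _).trans
      (max_le ha' hb')))
    rw [map_mul]
    calc _ ≤ exp (-2 : ℤ) * 1 := mul_le_mul' ha' (hb'.trans (by rw [← exp_zero, exp_le_exp]; norm_num))
      _ = _ := mul_one _
  inv_mem' := by
    intro a ha
    have ha' : v.valuation K ((a : K) - 1) ≤ exp (-2 : ℤ) := ha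
    show v.valuation K (((a⁻¹ : Kˣ) : K) - 1) ≤ exp (-2 : ℤ)
    have hlt : v.valuation K ((a : K) - 1) < 1 :=
      lt_of_le_of_lt ha' (by rw [← exp_zero, exp_lt_exp]; norm_num)
    have h1 : v.valuation K (a : K) = 1 := by
      have := (v.valuation K).map_one_add_of_lt hlt
      rwa [add_sub_cancel] at this
    have e : ((a⁻¹ : Kˣ) : K) - 1 = -((a : K) - 1) * ((a⁻¹ : Kˣ) : K) := by
      rw [Units.val_inv_eq_inv_val]
      field_simp
      ring
    rw [e, map_mul, Valuation.map_neg, Units.val_inv_eq_inv_val, map_inv₀, h1, inv_one, mul_one]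
    exact ha'

theorem mem_SU {v : HeightOneSpectrum (𝓞 K)} {x : Kˣ} :
    x ∈ SU v ↔ v.valuation K ((x : K) - 1) ≤ exp (-2 : ℤ) := Iff.rfl

theorem pow_mem_SU {p : ℕ} [Fact p.Prime] {v' : HeightOneSpectrum (𝓞 K)}
    (hpv' : v'.valuation K (p : K) = exp (-1 : ℤ))
    (hres' : ∀ x : K, v'.valuation K x ≤ 1 → ∃ a : ℤ, v'.valuation K (x - a) < 1)
    {a : Kˣ} (ha : ordU v' a = 0) : (a ^ (p - 1)) ^ p ∈ SU v' := by
  have hp : p.Prime := Fact.out
  have hint : ∀ n : ℤ, v'.valuation K (n : K) ≤ 1 := by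
    intro n
    have : (n : K) = algebraMap (𝓞 K) K (n : 𝓞 K) := by rw [map_intCast]
    rw [this]
    exact v'.valuation_le_one _
  have hplt : v'.valuation K (p : K) < 1 := by
    rw [hpv', ← exp_zero, exp_lt_exp]; norm_num
  have hva : v'.valuation K (a : K) = 1 := by rw [← exp_ordU, ha, exp_zero]
  obtain ⟨i, hi⟩ := hres' a hva.le
  -- `i` is prime to `p`
  have hpi : ¬ (p : ℤ) ∣ i := by
    rintro ⟨k, rfl⟩
    have h1 : v'.valuation K (((p : ℤ) * k : ℤ) : K) < 1 := by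
      push_cast
      rw [map_mul]
      calc _ ≤ v'.valuation K (p : K) * 1 := mul_le_mul_right (hint k) _
        _ < 1 := by rw [mul_one]; exact hplt
    have h2 : v'.valuation K (a : K) < 1 := by
      have e : (a : K) = ((a : K) - (((p : ℤ) * k : ℤ) : K)) + (((p : ℤ) * k : ℤ) : K) := by ring
      rw [e]
      exact Valuation.map_add_lt _ hi h1
    rw [hva] at h2
    exact lt_irrefl _ h2
  have hi1 : v'.valuation K (((i : K)) ^ (p - 1) - 1) < 1 := by
    have h1 : (p : ℤ) ∣ i ^ (p - 1) - 1 := by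
      have h2 := Int.ModEq.pow_card_sub_one_eq_one hp
        (Int.isCoprime_iff_gcd_eq_one.2 ((Int.isCoprime_iff_gcd_eq_one.1
          (((Nat.prime_iff_prime_int.1 hp).coprime_iff_not_dvd.2 hpi).symm))))
      exact h2.symm.dvd
    obtain ⟨k, hk⟩ := h1
    have h3 : ((i : K)) ^ (p - 1) - 1 = (p : K) * k := by
      have := congrArg (Int.cast : ℤ → K) hk
      push_cast at this
      exact this
    rw [h3, map_mul]
    calc _ ≤ v'.valuation K (p : K) * 1 := mul_le_mul_right (hint k) _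
      _ < 1 := by rw [mul_one]; exact hplt
  set z : K := (a : K) ^ (p - 1) - 1 with hz
  have hzlt : v'.valuation K z < 1 := by
    have e : z = ((a : K) ^ (p - 1) - (i : K) ^ (p - 1)) + ((i : K) ^ (p - 1) - 1) := by
      rw [hz]; ring
    rw [e]
    refine Valuation.map_add_lt _ ?_ hi1
    obtain ⟨q, hq⟩ : ∃ q : K, v'.valuation K q ≤ 1 ∧
        (a : K) ^ (p - 1) - (i : K) ^ (p - 1) = ((a : K) - i) * q := by
      let O := (v'.valuation K).integer
      let a' : O := ⟨a, hva.le⟩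
      let i' : O := ⟨i, hint i⟩
      obtain ⟨q, hq⟩ := sub_dvd_pow_sub_pow a' i' (p - 1)
      exact ⟨q, q.2, congrArg Subtype.val hq⟩
    rw [hq.2, map_mul]
    calc _ ≤ v'.valuation K ((a : K) - i) * 1 := mul_le_mul_right hq.1 _
      _ < 1 := by rw [mul_one]; exact hi
  have hz1 : v'.valuation K z ≤ exp (-1 : ℤ) := by
    by_cases hz0 : z = 0
    · rw [hz0, map_zero]; exact zero_le
    · have h4 := exp_ordU v' (Units.mk0 z hz0)
      rw [Units.val_mk0] at h4
      rw [← h4, ← exp_zero, exp_lt_exp] at hzlt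
      rw [← h4, exp_le_exp]
      omega
  rw [mem_SU]
  let O := (v'.valuation K).integer
  let z' : O := ⟨z, hzlt.le⟩
  obtain ⟨r, hr⟩ := exists_add_pow_prime_eq hp (1 : O) z'
  have hr' : (1 + z) ^ p = 1 ^ p + z ^ p + p * 1 * z * (r : K) := congrArg Subtype.val hr
  have e : (((a ^ (p - 1)) ^ p : Kˣ) : K) - 1 = z ^ p + p * z * (r : K) := by
    have h5 : (((a ^ (p - 1)) ^ p : Kˣ) : K) = (1 + z) ^ p := by
      rw [Units.val_pow_eq_pow_val, Units.val_pow_eq_pow_val, hz]
      ring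
    rw [h5, hr']
    ring
  rw [e]
  refine (Valuation.map_add _ _ _).trans (max_le ?_ ?_)
  · rw [map_pow]
    calc v'.valuation K z ^ p ≤ v'.valuation K z ^ 2 :=
          pow_le_pow_right_of_le_one' hzlt.le hp.two_le
      _ ≤ exp (-1 : ℤ) ^ 2 := pow_le_pow_left' hz1 2
      _ = exp (-2 : ℤ) := by rw [← exp_nsmul]; rfl
  · rw [map_mul, map_mul, hpv']
    calc exp (-1 : ℤ) * v'.valuation K z * v'.valuation K (r : K)
        ≤ exp (-1 : ℤ) * exp (-1 : ℤ) * 1 := mul_le_mul' (mul_le_mul_right hz1 _) r.2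
      _ = exp (-2 : ℤ) := by rw [mul_one, ← exp_add]; rfl

end base

section main

variable {K M : Type*} [Field K] [NumberField K] [Field M] [NumberField M] [Algebra K M]

theorem exists_eps {p : ℕ} [Fact p.Prime] (hp2 : p ≠ 2) (hK2 : Module.finrank ℚ K = 2)
    (hdeg : Module.finrank K M = p) {σ : M ≃ₐ[K] M} (hσp : σ ^ p = 1) :
    ∃ ε ∈ EU M, ε ∉ AU p σ := by
  have hp : p.Prime := Fact.out
  have hrank : 0 < Units.rank M := by
    have h1 := InfinitePlace.card_add_two_mul_card_eq_rank M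
    have h2 : Module.finrank ℚ M = 2 * p := by
      rw [← Module.finrank_mul_finrank ℚ K M, hK2, hdeg]
    have h3 : Fintype.card (InfinitePlace M) =
        InfinitePlace.nrRealPlaces M + InfinitePlace.nrComplexPlaces M :=
      InfinitePlace.card_eq_nrRealPlaces_add_nrComplexPlaces M
    rw [Units.rank, h3]
    have := hp.two_le
    omega
  have hpow : ∀ (n : ℕ) (x : M), ((σ : M ≃+* M) ^ n) x = (σ ^ n) x := by
    intro n
    induction n with
    | zero => intro x; rfl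
    | succ n ih => intro x; rw [pow_succ, pow_succ, RingAut.mul_apply, AlgEquiv.mul_apply, ih]; rfl
  obtain ⟨ε, hε⟩ := exists_unit_not_mul (σ : M ≃+* M) (p := p) (by
    intro x
    rw [hpow, hσp]
    rfl) hrank
  let e : Mˣ := Units.map (algebraMap (𝓞 M) M : 𝓞 M →* M) ε
  refine ⟨e, mem_EU_iff_unit.2 ⟨ε, rfl⟩, fun h => ?_⟩
  rw [AU, Subgroup.mem_sup] at h
  obtain ⟨_, ⟨η, hη, rfl⟩, _, ⟨θ, hθ, rfl⟩, h⟩ := h
  obtain ⟨η', hη'⟩ := mem_EU_iff_unit.1 hη
  obtain ⟨θ', hθ'⟩ := mem_EU_iff_unit.1 hθ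
  apply hε η' θ'
  rw [hη', hθ']
  have h1 := congrArg Units.val h
  rw [Units.val_mul, tau_apply, Units.val_div_eq_div_val, AlgEquiv.smul_units_def] at h1
  exact h1.symm

/-- a prime not dividing a power of the place `Q` -/
theorem exists_beta {p : ℕ} (hp : p.Prime) {Q₁ : HeightOneSpectrum (𝓞 M)}
    (hB : ∀ lam : Mˣ, (∀ Q : HeightOneSpectrum (𝓞 M), (p : ℤ) ∣ ordU Q lam) → lam ∈ BU p M) :
    ∃ (β : Mˣ) (N : ℕ), ¬ p ∣ N ∧ ordU Q₁ β = N ∧
      ∀ Q : HeightOneSpectrum (𝓞 M), Q ≠ Q₁ → ordU Q β = 0 := by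
  have key : ∀ N : ℕ, 0 < N → ∀ β : Mˣ, ordU Q₁ β = N →
      (∀ Q : HeightOneSpectrum (𝓞 M), Q ≠ Q₁ → ordU Q β = 0) →
      ∃ (β : Mˣ) (N : ℕ), ¬ p ∣ N ∧ ordU Q₁ β = N ∧
        ∀ Q : HeightOneSpectrum (𝓞 M), Q ≠ Q₁ → ordU Q β = 0 := by
    intro N
    induction N using Nat.strong_induction_on with
    | _ N ih =>
      intro hN β h1 h2
      by_cases hpN : p ∣ N
      · obtain ⟨N', rfl⟩ := hpN
        obtain ⟨κ, hκ, μ, rfl⟩ := mem_BU.1 (hB β (by
          intro Q
          by_cases hQ : Q = Q₁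
          · rw [hQ, h1]
            push_cast
            exact dvd_mul_right _ _
          · rw [h2 Q hQ]
            exact dvd_zero _))
        have hpz : (p : ℤ) ≠ 0 := by exact_mod_cast hp.ne_zero
        have hN' : 0 < N' := Nat.pos_of_mul_pos_left hN
        refine ih N' ?_ hN' μ ?_ ?_
        · have := hp.two_le
          nlinarith
        · rw [ordU_mul, hκ, ordU_pow, zero_add] at h1
          push_cast at h1
          exact mul_left_cancel₀ hpz h1
        · intro Q hQ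
          have := h2 Q hQ
          rw [ordU_mul, hκ, ordU_pow, zero_add] at this
          rcases mul_eq_zero.1 this with h | h
          · exact absurd h hpz
          · exact h
      · exact ⟨β, N, hpN, h1, h2⟩
  obtain ⟨β, h1, h2⟩ := exists_generator_place M Q₁
  exact key _ (classNumber_pos M) β h1 h2

theorem residue_int {v' : HeightOneSpectrum (𝓞 K)} {Q₀ : HeightOneSpectrum (𝓞 M)}
    (hQ₀ : below K Q₀ = v') (hin : Q₀.asIdeal.inertiaDeg (𝓞 K) = 1)
    (hres' : ∀ x : K, v'.valuation K x ≤ 1 → ∃ a : ℤ, v'.valuation K (x - a) < 1)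
    (y : M) (hy : Q₀.valuation M y ≤ 1) : ∃ a : ℤ, Q₀.valuation M (y - a) < 1 := by
  subst hQ₀
  obtain ⟨b, hb⟩ := Q₀.exists_valuation_sub_lt_of_integer hy 1
  have hlo : Q₀.asIdeal.LiesOver (below K Q₀).asIdeal := ⟨rfl⟩
  have hm1 : (below K Q₀).asIdeal.IsMaximal := (below K Q₀).isMaximal
  have hm2 : Q₀.asIdeal.IsMaximal := Q₀.isMaximal
  obtain ⟨c, hc⟩ : ∃ c : 𝓞 K, b - algebraMap (𝓞 K) (𝓞 M) c ∈ Q₀.asIdeal := by
    have h1 := Ideal.inertiaDeg_eq_of_isMaximal (below K Q₀).asIdeal Q₀.asIdeal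
    rw [hin] at h1
    let _ : Field (𝓞 K ⧸ (below K Q₀).asIdeal) := Ideal.Quotient.field _
    obtain ⟨c, hc⟩ := (finrank_eq_one_iff_of_nonzero' (1 : 𝓞 M ⧸ Q₀.asIdeal) one_ne_zero).1
      h1.symm (Ideal.Quotient.mk _ b)
    obtain ⟨c, rfl⟩ := Ideal.Quotient.mk_surjective c
    refine ⟨c, ?_⟩
    rw [← Ideal.Quotient.eq, ← hc, Algebra.smul_def, mul_one]
    rfl
  obtain ⟨a, ha⟩ := hres' (algebraMap (𝓞 K) K c) ((below K Q₀).valuation_le_one _)
  refine ⟨a, ?_⟩
  have e : y - (a : M) = -(algebraMap (𝓞 M) M b - y) +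
      (algebraMap (𝓞 M) M (b - algebraMap (𝓞 K) (𝓞 M) c) +
        algebraMap K M (algebraMap (𝓞 K) K c - a)) := by
    have h2 : algebraMap (𝓞 M) M (algebraMap (𝓞 K) (𝓞 M) c) =
        algebraMap K M (algebraMap (𝓞 K) K c) := rfl
    rw [map_sub, map_sub, h2, map_intCast]
    ring
  rw [e]
  refine Valuation.map_add_lt _ ?_ (Valuation.map_add_lt _ ?_ ?_)
  · rw [Valuation.map_neg]
    simpa using hb
  · rw [HeightOneSpectrum.valuation_lt_one_iff_mem]
    exact hc
  · obtain ⟨k, hk, hv⟩ := exists_valuation_below (K := K) Q₀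
    rw [← hv]
    exact pow_lt_one₀ zero_le ha hk

/-- There is no Galois extension of degree `p` of the imaginary quadratic field `K` in which all
places except `v'` are unramified and `v` splits completely. -/
theorem no_ext [IsGalois K M] {p : ℕ} [Fact p.Prime] (hp2 : p ≠ 2)
    (hdeg : Module.finrank K M = p) (hK2 : Module.finrank ℚ K = 2) (hcx : IsTotallyComplex K)
    (hcls : ¬ p ∣ classNumber K) {v v' : HeightOneSpectrum (𝓞 K)}
    (hpv' : v'.valuation K (p : K) = exp (-1 : ℤ))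
    (hres' : ∀ x : K, v'.valuation K x ≤ 1 → ∃ a : ℤ, v'.valuation K (x - a) < 1) (hvv : v ≠ v')
    (hunr : ∀ Q : HeightOneSpectrum (𝓞 M), below K Q ≠ v' → ∀ x : K,
      (below K Q).valuation K x = Q.valuation M (algebraMap K M x))
    (hsplit : ∃ Q : HeightOneSpectrum (𝓞 M), below K Q = v ∧
      ∀ σ : M ≃ₐ[K] M, (∀ x, Q.valuation M (σ x) = Q.valuation M x) → σ = 1)
    {a : Kˣ} {m : ℤ} (ha : ordU v a = m)
    (ha' : ∀ u : HeightOneSpectrum (𝓞 K), u ≠ v → ordU u a = 0)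
    (hgold : a ^ (p - 1) ∉ SU v') : False := by
  have hp : p.Prime := Fact.out
  have hpz : Prime (p : ℤ) := Nat.prime_iff_prime_int.1 hp
  have hcard : Nat.card (M ≃ₐ[K] M) = p := by rw [IsGalois.card_aut_eq_finrank, hdeg]
  have hcyc : IsCyclic (M ≃ₐ[K] M) := isCyclic_of_prime_card hcard
  obtain ⟨σ, hσ⟩ := hcyc.exists_generator
  have hord : orderOf σ = p := by rw [orderOf_eq_card_of_forall_mem_zpowers hσ, hcard]
  have hσp : σ ^ p = 1 := by rw [← hord]; exact pow_orderOf_eq_one σ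
  obtain ⟨H, hH, hDK, hEK⟩ := exists_exponent hK2 hcx hp2 hcls hpv'
  have hunr' : ∀ Q : HeightOneSpectrum (𝓞 M), below K Q ≠ v' → ∀ a : Kˣ,
      ordU Q (emb K M a) = ordU (below K Q) a := by
    intro Q hQ a
    rw [ordU, ordU, coe_emb, hunr Q hQ]
  obtain ⟨γ, hσγ, hγ⟩ := exists_gamma hp hσ hdeg hH hDK hEK hunr' (exists_eps hp2 hK2 hdeg hσp)
  obtain ⟨hram, huniq, hinert⟩ := ordU_of_dvd hp hdeg hσγ hγ hσ
  obtain ⟨Q₀, hQ₀⟩ := exists_above (K := K) (L := M) v'
  have hγ0 : ¬ (p : ℤ) ∣ ordU Q₀ γ := by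
    obtain ⟨η, hη, e⟩ := emb_nrm_eq hσ hσγ
    have h1 := hram Q₀ hQ₀ (nrm K M γ)
    rw [e, hdeg, ordU_mul, ordU_pow, hη, add_zero] at h1
    have h2 := mul_left_cancel₀ hpz.ne_zero h1
    rw [h2]
    exact hγ
  have hB : ∀ lam : Mˣ, (∀ Q : HeightOneSpectrum (𝓞 M), (p : ℤ) ∣ ordU Q lam) → lam ∈ BU p M :=
    fun lam hl => mem_BU_of_dvd hp hσ hdeg hH hDK hEK hunr' hp2 hσp (hram Q₀ hQ₀) hσγ hγ0 hl
  obtain ⟨Q₁, hQ₁, htriv⟩ := hsplit
  obtain ⟨β, N, hN, hβ1, hβ2⟩ := exists_beta hp (Q₁ := Q₁) hB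
  -- the norm of `β`
  set x : Kˣ := nrm K M β with hx
  have hxv : ordU v x = N := by
    have h1 := hunr' Q₁ (by rw [hQ₁]; exact hvv) x
    rw [hQ₁, hx, emb_nrm, ordU_prod] at h1
    rw [← h1, Finset.sum_eq_single 1]
    · rw [one_smul, hβ1]
    · intro g _ hg
      rw [ordU_smul]
      apply hβ2
      intro h
      apply hg
      apply htriv
      intro y
      have h2 := valuation_conjPrime (g : M ≃+* M) Q₁ y
      rw [h] at h2
      exact h2.symm
    · intro h
      exact absurd (Finset.mem_univ _) h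
  have hxu : ∀ u : HeightOneSpectrum (𝓞 K), u ≠ v → ordU u x = 0 := by
    intro u hu
    obtain ⟨Q, hQ⟩ := exists_above (K := K) (L := M) u
    obtain ⟨e, he, hv⟩ := ordU_emb (K := K) Q
    have h1 := hv x
    rw [hQ, hx, emb_nrm, ordU_prod, Finset.sum_eq_zero] at h1
    · rcases mul_eq_zero.1 h1.symm with h | h
      · exact absurd (by exact_mod_cast h) he
      · exact h
    · intro g _
      rw [ordU_smul]
      apply hβ2
      intro h
      apply hu
      rw [← hQ₁, ← h, below_conj, hQ]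
  have hxa : x ^ m / a ^ N ∈ EU K := by
    intro u
    rw [ordU_div, ordU_zpow, ordU_pow]
    by_cases hu : u = v
    · rw [hu, hxv, ha]; ring
    · rw [hxu u hu, ha' u hu]; ring
  have hxa' : (x ^ m) ^ H = (a ^ N) ^ H := by
    have := hEK _ hxa
    rw [div_pow, div_eq_one] at this
    exact this
  -- the local condition
  have hpow : ∀ (n : ℕ) (x : M), ((σ : M ≃+* M) ^ n) x = (σ ^ n) x := by
    intro n
    induction n with
    | zero => intro x; rfl
    | succ n ih => intro x; rw [pow_succ, pow_succ, RingAut.mul_apply, AlgEquiv.mul_apply, ih]; rfl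
  have hloc : x ^ (p - 1) ∈ SU v' := by
    have hconj : conjPrime (σ : M ≃+* M) Q₀ = Q₀ :=
      huniq _ _ (by rw [below_conj, hQ₀]) hQ₀
    have hne : Q₀ ≠ Q₁ := by
      rintro rfl
      exact hvv (hQ₁.symm.trans hQ₀)
    have h1 := local_norm (Q₀.valuation M) hp2 (σ : M ≃+* M)
      (by intro y; rw [hpow, hσp]; rfl)
      (by
        intro y
        rw [← valuation_conjPrime, hconj])
      (by
        intro y hy hy0
        obtain ⟨b, hb⟩ : y ∈ Set.range (algebraMap K M) := by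
          refine (IsGalois.mem_range_algebraMap_iff_fixed y).2 (fun g => ?_)
          obtain ⟨i, rfl⟩ := Subgroup.mem_zpowers_iff.1 (hσ g)
          have h2 : σ ∈ MulAction.stabilizer (M ≃ₐ[K] M) y := hy
          exact (MulAction.stabilizer (M ≃ₐ[K] M) y).zpow_mem h2 i
        have hb0 : b ≠ 0 := by
          rintro rfl
          exact hy0 (by rw [← hb, map_zero])
        have h2 := hram Q₀ hQ₀ (Units.mk0 b hb0)
        refine ⟨ordU v' (Units.mk0 b hb0), ?_⟩
        rw [← h2, exp_ordU, coe_emb, Units.val_mk0, hb])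
      (by
        have hp0 : (p : K) ≠ 0 := by exact_mod_cast hp.ne_zero
        have h2 := hram Q₀ hQ₀ (Units.mk0 (p : K) hp0)
        have h3 : ordU v' (Units.mk0 (p : K) hp0) = -1 := by
          rw [ordU, Units.val_mk0, hpv', log_exp]
        have h4 := exp_ordU Q₀ (emb K M (Units.mk0 (p : K) hp0))
        rw [h2, h3, coe_emb, Units.val_mk0, map_natCast] at h4
        rw [← h4]
        congr 1
        ring)
      (by
        obtain ⟨π, hπ⟩ := Q₀.valuation_exists_uniformizer M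
        exact ⟨π, hπ⟩)
      (residue_int hQ₀ (hinert Q₀ hQ₀) hres')
      β (by rw [← exp_ordU, hβ2 Q₀ hne, exp_zero])
    have h2 : ∏ i ∈ Finset.range p, ((σ : M ≃+* M) ^ i) (β : M) = algebraMap K M (x : K) := by
      have h3 := congrArg Units.val (pprod_card hσ β)
      rw [hord, ← hx, coe_emb] at h3
      rw [← h3, pprod, Units.coe_prod]
      exact Finset.prod_congr rfl (fun i _ => hpow i β)
    rw [h2, ← map_pow, ← map_one (algebraMap K M), ← map_sub] at h1
    rw [mem_SU, Units.val_pow_eq_pow_val]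
    by_cases h0 : (x : K) ^ (p - 1) - 1 = 0
    · rw [h0, map_zero]; exact zero_le
    · have h4 := hram Q₀ hQ₀ (Units.mk0 _ h0)
      have h5 := exp_ordU Q₀ (emb K M (Units.mk0 _ h0))
      rw [coe_emb, Units.val_mk0] at h5
      rw [← h5, exp_le_exp, h4] at h1
      have h6 := exp_ordU v' (Units.mk0 _ h0)
      rw [Units.val_mk0] at h6
      rw [← h6, exp_le_exp]
      have hp1 : (0 : ℤ) < p := by exact_mod_cast hp.pos
      by_contra hcon
      push Not at hcon
      nlinarith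
  apply hgold
  refine mem_of_pow hp (pow_mem_SU hpv' hres' (ha' v' hvv.symm)) (k := N * H) ?_ ?_
  · rw [hp.dvd_mul]; tauto
  · have : (a ^ (p - 1)) ^ (N * H) = ((x ^ (p - 1)) ^ m) ^ H := by
      calc (a ^ (p - 1)) ^ (N * H) = ((a ^ N) ^ H) ^ (p - 1) := by
            rw [← pow_mul, ← pow_mul, ← pow_mul]; congr 1; ring
        _ = ((x ^ m) ^ H) ^ (p - 1) := by rw [hxa']
        _ = ((x ^ (p - 1)) ^ m) ^ H := by
            rw [← zpow_natCast x (p - 1), ← zpow_natCast _ (p - 1), ← zpow_natCast _ H,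
              ← zpow_natCast _ H, ← zpow_mul, ← zpow_mul, ← zpow_mul, ← zpow_mul]
            congr 1
            ring
    rw [this]
    exact pow_mem (zpow_mem hloc _) _

end main

end Pool.Agent.Work.MP_787500_nt.OddP.Gen
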