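import Mathlib
import Pool.Agent.Work.MP_787500_nt.H67_Defs
import Pool.Agent.Work.MP_787500_nt.H67_GenC

/-!
The local data at the two places above `p` of a base field.
-/

set_option autoImplicit false

namespace Pool.Agent.Work.MP_787500_nt.OddP

open WithZero IsDedekindDomain NumberField Gen

universe u

/-- the data at two places above `p` -/
structure BD (p : ℕ) (K : Type u) [Field K] [NumberField K] (v v' : HeightOneSpectrum (𝓞 K)) :
    Prop where
  ne : v ≠ v'
  only : ∀ u : HeightOneSpectrum (𝓞 K), (p : 𝓞 K) ∈ u.asIdeal → u = v ∨ u = v'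
  mem : (p : 𝓞 K) ∈ v.asIdeal
  hpv : v.valuation K (p : K) = exp (-1 : ℤ)
  hpv' : v'.valuation K (p : K) = exp (-1 : ℤ)
  hres : ∀ x : K, v.valuation K x ≤ 1 → ∃ a : ℤ, v.valuation K (x - a) < 1
  hres' : ∀ x : K, v'.valuation K x ≤ 1 → ∃ a : ℤ, v'.valuation K (x - a) < 1
  hg : ∃ (a : Kˣ) (m : ℤ), ordU v a = m ∧ (∀ u : HeightOneSpectrum (𝓞 K), u ≠ v → ordU u a = 0) ∧
    ¬ (p : ℤ) ∣ m ∧ a ^ (p - 1) ∉ SU v'
  hg' : ∃ (a : Kˣ) (m : ℤ), ordU v' a = m ∧ (∀ u : HeightOneSpectrum (𝓞 K), u ≠ v' → ordU u a = 0) ∧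
    ¬ (p : ℤ) ∣ m ∧ a ^ (p - 1) ∉ SU v

variable {p : ℕ} {K : Type u} [Field K] [NumberField K]

/-- the residue field of a prime of norm `p` -/
theorem exists_int_of_absNorm (hp : p.Prime) {v : HeightOneSpectrum (𝓞 K)}
    (hN : Ideal.absNorm v.asIdeal = p) (x : K) (hx : v.valuation K x ≤ 1) :
    ∃ a : ℤ, v.valuation K (x - a) < 1 := by
  obtain ⟨b, hb⟩ := v.exists_valuation_sub_lt_of_integer hx 1
  have : Fact p.Prime := ⟨hp⟩
  have hcard : Nat.card (𝓞 K ⧸ v.asIdeal) = p := by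
    rw [← hN, Ideal.absNorm_apply, Submodule.cardQuot_apply]
  have hfin : Finite (𝓞 K ⧸ v.asIdeal) := Nat.finite_of_card_ne_zero (by rw [hcard]; exact hp.ne_zero)
  have _ := Fintype.ofFinite (𝓞 K ⧸ v.asIdeal)
  have hchar : CharP (𝓞 K ⧸ v.asIdeal) p :=
    charP_of_card_eq_prime (by rw [← Nat.card_eq_fintype_card, hcard])
  have hsurj : Function.Surjective (ZMod.castHom (dvd_refl p) (𝓞 K ⧸ v.asIdeal)) := by
    have hinj := (ZMod.castHom (dvd_refl p) (𝓞 K ⧸ v.asIdeal)).injective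
    have hc : Fintype.card (ZMod p) = Fintype.card (𝓞 K ⧸ v.asIdeal) := by
      rw [ZMod.card, ← Nat.card_eq_fintype_card, hcard]
    exact ((Fintype.bijective_iff_injective_and_card _).2 ⟨hinj, hc⟩).2
  obtain ⟨c, hc⟩ := hsurj (Ideal.Quotient.mk _ b)
  refine ⟨(c.val : ℤ), ?_⟩
  have h2 : b - (c.val : 𝓞 K) ∈ v.asIdeal := by
    rw [← Ideal.Quotient.eq, ← hc, map_natCast]
    rw [ZMod.castHom_apply, ZMod.cast_eq_val]
  have e : x - ((c.val : ℤ) : K) = -(algebraMap (𝓞 K) K b - x) +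
      algebraMap (𝓞 K) K (b - (c.val : 𝓞 K)) := by
    rw [map_sub, map_natCast]
    push_cast
    ring
  rw [e]
  refine Valuation.map_add_lt _ ?_ ?_
  · rw [Valuation.map_neg]
    simpa using hb
  · rw [HeightOneSpectrum.valuation_lt_one_iff_mem]
    exact h2

theorem val_eq_exp {v : HeightOneSpectrum (𝓞 K)} {x : 𝓞 K} {n : ℕ} (h1 : x ∈ v.asIdeal ^ n)
    (h2 : x ∉ v.asIdeal ^ (n + 1)) : v.valuation K (algebraMap (𝓞 K) K x) = exp (-(n : ℤ)) := by
  rw [HeightOneSpectrum.valuation_of_algebraMap]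
  have hx : x ≠ 0 := fun h => h2 (by rw [h]; exact zero_mem _)
  have h3 := (HeightOneSpectrum.intValuation_le_pow_iff_mem v x n).2 h1
  have h4 := mt (HeightOneSpectrum.intValuation_le_pow_iff_mem v x (n + 1)).1 h2
  obtain ⟨c, hc⟩ : ∃ c : ℤ, v.intValuation x = exp c :=
    ⟨_, (exp_log (HeightOneSpectrum.intValuation_ne_zero v x hx)).symm⟩
  rw [hc] at h3 h4 ⊢
  rw [exp_le_exp] at h3 h4
  congr 1
  push_cast at h4
  omega

theorem base_aux (hp : p.Prime) (hdeg : Module.finrank ℚ K = 2) {v : HeightOneSpectrum (𝓞 K)}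
    (hv : (p : 𝓞 K) ∈ v.asIdeal) {P P' : Ideal (𝓞 K)} {a a' : 𝓞 K} {m m' : ℕ}
    (hP : P.IsPrime) (hP' : P'.IsPrime) (hne : P ≠ P') (hPP : P * P' = Ideal.span {(p : 𝓞 K)})
    (hm : ¬ p ∣ m) (hm' : ¬ p ∣ m') (ha : Ideal.span {a} = P ^ m) (ha' : Ideal.span {a'} = P' ^ m')
    (hg : a ^ (p - 1) - 1 ∉ P' ^ 2) (hg' : a' ^ (p - 1) - 1 ∉ P ^ 2) (hvP : P ≤ v.asIdeal) :
    ∃ v', BD p K v v' := by
  have hp0 : (p : 𝓞 K) ≠ 0 := by exact_mod_cast hp.ne_zero
  have hbot : P * P' ≠ ⊥ := by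
    rw [hPP, Ne, Ideal.span_singleton_eq_bot]
    exact hp0
  have hPb : P ≠ ⊥ := fun h => hbot (by rw [h, Ideal.bot_mul])
  have hPb' : P' ≠ ⊥ := fun h => hbot (by rw [h, Ideal.mul_bot])
  have hvP' : v.asIdeal = P := ((hP.isMaximal hPb).eq_of_le v.isPrime.ne_top hvP).symm
  subst hvP'
  have hpr : Prime v.asIdeal := Ideal.prime_of_isPrime hPb hP
  have hpr' : Prime P' := Ideal.prime_of_isPrime hPb' hP'
  have hndvd : ¬ v.asIdeal ∣ P' := fun h =>
    hne (associated_iff_eq.1 ((hpr.dvd_prime_iff_associated hpr').1 h))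
  have hndvd' : ¬ P' ∣ v.asIdeal := fun h =>
    hne (associated_iff_eq.1 ((hpr'.dvd_prime_iff_associated hpr).1 h)).symm
  -- norms
  have hN : Ideal.absNorm v.asIdeal * Ideal.absNorm P' = p ^ 2 := by
    rw [← map_mul, hPP, Ideal.absNorm_span_natCast, RingOfIntegers.rank, hdeg]
  have hN1 : Ideal.absNorm v.asIdeal ≠ 1 := fun h => hP.ne_top (Ideal.absNorm_eq_one_iff.1 h)
  have hN1' : Ideal.absNorm P' ≠ 1 := fun h => hP'.ne_top (Ideal.absNorm_eq_one_iff.1 h)
  have hNv : Ideal.absNorm v.asIdeal = p := by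
    obtain ⟨i, hi, h⟩ := (Nat.dvd_prime_pow hp).1 (Dvd.intro _ hN)
    interval_cases i
    · exact absurd (by simpa using h) hN1
    · simpa using h
    · rw [h] at hN
      exact absurd (Nat.eq_of_mul_eq_mul_left (pow_pos hp.pos 2) (hN.trans (mul_one _).symm)) hN1'
  have hNv' : Ideal.absNorm P' = p := by
    rw [hNv, sq] at hN
    exact Nat.eq_of_mul_eq_mul_left hp.pos hN
  let v' : HeightOneSpectrum (𝓞 K) := ⟨P', hP', hPb'⟩
  have hpP : (p : 𝓞 K) ∈ v.asIdeal * P' := by rw [hPP]; exact Ideal.mem_span_singleton_self _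
  have hm0 : m ≠ 0 := fun h => hm (by rw [h]; exact dvd_zero _)
  have hm0' : m' ≠ 0 := fun h => hm' (by rw [h]; exact dvd_zero _)
  have ha0 : a ≠ 0 := by
    rintro rfl
    rw [Ideal.span_singleton_eq_bot.2 rfl] at ha
    exact hPb ((pow_eq_zero_iff hm0).1 ha.symm)
  have ha0' : a' ≠ 0 := by
    rintro rfl
    rw [Ideal.span_singleton_eq_bot.2 rfl] at ha'
    exact hPb' ((pow_eq_zero_iff hm0').1 ha'.symm)
  have hK : ∀ x : 𝓞 K, x ≠ 0 → algebraMap (𝓞 K) K x ≠ 0 := fun x hx h =>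
    hx (RingOfIntegers.coe_eq_zero_iff.1 h)
  have hval : ∀ (x : 𝓞 K) (u : HeightOneSpectrum (𝓞 K)), x ∉ u.asIdeal →
      u.valuation K (algebraMap (𝓞 K) K x) = 1 := by
    intro x u hx
    have := val_eq_exp (K := K) (v := u) (x := x) (n := 0) (by simp) (by simpa using hx)
    simpa using this
  refine ⟨v', ?_⟩
  constructor
  · intro h
    exact hne (congrArg HeightOneSpectrum.asIdeal h)
  · intro u hu
    have h1 : v.asIdeal * P' ≤ u.asIdeal := by
      rw [hPP, Ideal.span_singleton_le_iff_mem]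
      exact hu
    rcases u.isPrime.mul_le.1 h1 with h | h
    · left
      exact HeightOneSpectrum.ext ((hP.isMaximal hPb).eq_of_le u.isPrime.ne_top h).symm
    · right
      exact HeightOneSpectrum.ext ((hP'.isMaximal hPb').eq_of_le u.isPrime.ne_top h).symm
  · exact hv
  · have h1 := val_eq_exp (K := K) (v := v) (x := (p : 𝓞 K)) (n := 1) (by rw [pow_one]; exact hv) (by
      intro h
      have h2 : v.asIdeal ^ 2 ∣ v.asIdeal * P' := by
        rw [Ideal.dvd_iff_le, hPP, Ideal.span_singleton_le_iff_mem]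
        exact h
      rw [sq] at h2
      exact hndvd ((mul_dvd_mul_iff_left hPb).1 h2))
    rw [map_natCast] at h1
    exact h1
  · have h1 := val_eq_exp (K := K) (v := v') (x := (p : 𝓞 K)) (n := 1)
      (by rw [pow_one]; exact Ideal.mul_le_right (I := v.asIdeal) (J := P') hpP) (by
      intro h
      have h2 : P' ^ 2 ∣ P' * v.asIdeal := by
        rw [Ideal.dvd_iff_le, mul_comm, hPP, Ideal.span_singleton_le_iff_mem]
        exact h
      rw [sq] at h2
      exact hndvd' ((mul_dvd_mul_iff_left hPb').1 h2))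
    rw [map_natCast] at h1
    exact h1
  · exact exists_int_of_absNorm hp hNv
  · exact exists_int_of_absNorm (v := v') hp hNv'
  · refine ⟨Units.mk0 _ (hK a ha0), -(m : ℤ), ?_, ?_, ?_, ?_⟩
    · rw [ordU, Units.val_mk0, val_eq_exp (n := m) (by
        rw [← ha]; exact Ideal.mem_span_singleton_self _) (by
        intro h
        have h2 : v.asIdeal ^ (m + 1) ∣ v.asIdeal ^ m := by
          rw [Ideal.dvd_iff_le, ← ha, Ideal.span_singleton_le_iff_mem]
          exact h
        exact absurd ((pow_dvd_pow_iff hPb hpr.not_isUnit).1 h2) (by omega)), log_exp]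
    · intro u hu
      rw [ordU, Units.val_mk0, hval a u, log_one]
      intro h
      have h2 : v.asIdeal ^ m ≤ u.asIdeal := by
        rw [← ha, Ideal.span_singleton_le_iff_mem]
        exact h
      exact hu (HeightOneSpectrum.ext ((hP.isMaximal hPb).eq_of_le u.isPrime.ne_top
        (u.isPrime.le_of_pow_le h2)).symm)
    · rw [dvd_neg]
      exact_mod_cast hm
    · rw [mem_SU, Units.val_pow_eq_pow_val, Units.val_mk0]
      intro h
      apply hg
      rw [← map_pow, ← map_one (algebraMap (𝓞 K) K), ← map_sub,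
        HeightOneSpectrum.valuation_of_algebraMap] at h
      exact (HeightOneSpectrum.intValuation_le_pow_iff_mem v' _ 2).1 h
  · refine ⟨Units.mk0 _ (hK a' ha0'), -(m' : ℤ), ?_, ?_, ?_, ?_⟩
    · rw [ordU, Units.val_mk0, val_eq_exp (n := m') (by
        show a' ∈ P' ^ m'
        rw [← ha']; exact Ideal.mem_span_singleton_self _) (by
        intro h
        have h2 : P' ^ (m' + 1) ∣ P' ^ m' := by
          rw [Ideal.dvd_iff_le, ← ha', Ideal.span_singleton_le_iff_mem]
          exact h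
        exact absurd ((pow_dvd_pow_iff hPb' hpr'.not_isUnit).1 h2) (by omega)), log_exp]
    · intro u hu
      rw [ordU, Units.val_mk0, hval a' u, log_one]
      intro h
      have h2 : P' ^ m' ≤ u.asIdeal := by
        rw [← ha', Ideal.span_singleton_le_iff_mem]
        exact h
      exact hu (HeightOneSpectrum.ext ((hP'.isMaximal hPb').eq_of_le u.isPrime.ne_top
        (u.isPrime.le_of_pow_le h2)).symm)
    · rw [dvd_neg]
      exact_mod_cast hm'
    · rw [mem_SU, Units.val_pow_eq_pow_val, Units.val_mk0]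
      intro h
      apply hg'
      rw [← map_pow, ← map_one (algebraMap (𝓞 K) K), ← map_sub,
        HeightOneSpectrum.valuation_of_algebraMap] at h
      exact (HeightOneSpectrum.intValuation_le_pow_iff_mem v _ 2).1 h

/-- the local data -/
theorem base_data (h : IsBase p K) {v : HeightOneSpectrum (𝓞 K)} (hv : (p : 𝓞 K) ∈ v.asIdeal) :
    ∃ v', BD p K v v' := by
  obtain ⟨P, P', a, a', m, m', hP, hP', hne, hPP, hm, hm', ha, ha', hg, hg'⟩ := h.gold
  have h1 : P * P' ≤ v.asIdeal := by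
    rw [hPP, Ideal.span_singleton_le_iff_mem]
    exact hv
  rcases v.isPrime.mul_le.1 h1 with h2 | h2
  · exact base_aux h.prime h.deg hv hP hP' hne hPP hm hm' ha ha' hg hg' h2
  · exact base_aux h.prime h.deg hv hP' hP hne.symm (by rw [mul_comm]; exact hPP) hm' hm ha' ha
      hg' hg h2

end Pool.Agent.Work.MP_787500_nt.OddP
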