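import Mathlib
import Pool.Agent.Work.MP_787500_nt.H10_Gal

/-!
Decomposition and inertia groups in an infinite Galois extension of a number field and in its
finite layers.
-/

set_option autoImplicit false
set_option linter.unusedSectionVars false

namespace Pool.Agent.Work.MP_787500_nt.OddP

open WithZero IsDedekindDomain NumberField
open scoped Pointwise

namespace DEC

/-- the valuation below, raised to the order of the inertia group -/
theorem val_pow_card_inertia {K M : Type*} [Field K] [NumberField K] [Field M] [NumberField M]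
    [Algebra K M] (G : Type*) [Group G] [Finite G] [MulSemiringAction G M] [IsGaloisGroup G K M]
    (Q : HeightOneSpectrum (𝓞 M)) (x : K) :
    (below K Q).valuation K x ^ Nat.card (Q.asIdeal.inertia G) =
      Q.valuation M (algebraMap K M x) := by
  have : Q.asIdeal.LiesOver (below K Q).asIdeal := ⟨rfl⟩
  have hfin : Finite (𝓞 K ⧸ (below K Q).asIdeal) :=
    Ideal.finiteQuotientOfFreeOfNeBot _ (below K Q).ne_bot
  have hmax : (below K Q).asIdeal.IsMaximal := (below K Q).isMaximal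
  have hfin2 : Finite (below K Q).asIdeal.ResidueField :=
    Finite.of_surjective _ (IsFractionRing.surjective_iff_isField.2
      (Ideal.Quotient.maximal_ideal_iff_isField_quotient _ |>.1 hmax))
  have hperf : PerfectField (below K Q).asIdeal.ResidueField := inferInstance
  rw [Ideal.card_inertia_eq_ramificationIdxIn (below K Q).asIdeal,
    Ideal.ramificationIdxIn_eq_ramificationIdx _ Q.asIdeal G,
    ← Ideal.ramificationIdx'_eq_ramificationIdx _ _ (below K Q).ne_bot]
  exact HeightOneSpectrum.valuation_liesOver M (below K Q) Q x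

/-- primes over the same prime have inertia groups of the same order -/
theorem card_inertia_eq {K M : Type*} [Field K] [NumberField K] [Field M] [NumberField M]
    [Algebra K M] (G : Type*) [Group G] [Finite G] [MulSemiringAction G M] [IsGaloisGroup G K M]
    (Q Q' : HeightOneSpectrum (𝓞 M)) (h : below K Q' = below K Q) :
    Nat.card (Q'.asIdeal.inertia G) = Nat.card (Q.asIdeal.inertia G) := by
  have h1 : Q.asIdeal.LiesOver (below K Q).asIdeal := ⟨rfl⟩
  have h2 : Q'.asIdeal.LiesOver (below K Q).asIdeal := by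
    rw [← h]; exact ⟨rfl⟩
  have hfin : Finite (𝓞 K ⧸ (below K Q).asIdeal) :=
    Ideal.finiteQuotientOfFreeOfNeBot _ (below K Q).ne_bot
  have hmax : (below K Q).asIdeal.IsMaximal := (below K Q).isMaximal
  have hfin2 : Finite (below K Q).asIdeal.ResidueField :=
    Finite.of_surjective _ (IsFractionRing.surjective_iff_isField.2
      (Ideal.Quotient.maximal_ideal_iff_isField_quotient _ |>.1 hmax))
  have hperf : PerfectField (below K Q).asIdeal.ResidueField := inferInstance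
  rw [Ideal.card_inertia_eq_ramificationIdxIn (below K Q).asIdeal,
    Ideal.card_inertia_eq_ramificationIdxIn (below K Q).asIdeal]

section abstract

variable {B : Type*} [CommRing B] {G : Type*} [Group G] [MulSemiringAction G B]
variable [TopologicalSpace G] [CompactSpace G] [TotallyDisconnectedSpace G]
variable [IsTopologicalGroup G] [TopologicalSpace B] [DiscreteTopology B] [ContinuousSMul G B]

/-- If `σ₀` preserves `Q` on the elements fixed by the closed subgroup `H`, then the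
coset `H σ₀` contains an element of the stabilizer of `Q`. -/
theorem exists_stabilizer (H : Subgroup G) (hH : IsClosed (H : Set G)) (Q : Ideal B) [Q.IsPrime]
    (σ₀ : G) (h2 : ∀ x : B, (∀ h ∈ H, h • x = x) → (σ₀⁻¹ • x ∈ Q ↔ x ∈ Q)) :
    ∃ h ∈ H, h * σ₀ ∈ MulAction.stabilizer G Q := by
  have : CompactSpace H := isCompact_iff_compactSpace.1 hH.isCompact
  let A := FixedPoints.subalgebra ℤ B H
  have hA : ∀ a : A, ∀ h ∈ H, h • (a : B) = a := fun a h hh => a.2 ⟨h, hh⟩
  have hcomm : SMulCommClass H A B := ⟨fun h a b => by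
    rw [Algebra.smul_def, Algebra.smul_def, MulSemiringAction.smul_mul]
    congr 1
    exact a.2 h⟩
  have hinv : Algebra.IsInvariant A B H := ⟨fun b hb => ⟨⟨b, hb⟩, rfl⟩⟩
  have hprime : (σ₀ • Q).IsPrime := inferInstance
  have hunder : (σ₀ • Q).under A = Q.under A := by
    ext x
    rw [Ideal.under_def, Ideal.mem_comap, Ideal.mem_comap, Ideal.mem_pointwise_smul_iff_inv_smul_mem]
    exact h2 (algebraMap A B x) (hA x)
  obtain ⟨k, hk⟩ := Algebra.IsInvariant.exists_smul_of_under_eq_of_profinite (A := A) (B := B)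
    (G := H) (σ₀ • Q) Q hunder
  refine ⟨k, k.2, ?_⟩
  rw [MulAction.mem_stabilizer_iff, mul_smul]
  exact hk.symm

end abstract

section lift

variable {K Ω : Type*} [Field K] [NumberField K] [Field Ω] [Algebra K Ω] [IsGalois K Ω]

/-- an integral element fixed by the automorphisms over `M` is in `M` -/
theorem mem_of_fixed (M : IntermediateField K Ω) (x : 𝓞 Ω)
    (hx : ∀ h ∈ M.fixingSubgroup, h • x = x) : ∃ y : 𝓞 M, algebraMap (𝓞 M) (𝓞 Ω) y = x := by
  have h1 : algebraMap (𝓞 Ω) Ω x ∈ IntermediateField.fixedField M.fixingSubgroup := by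
    rintro ⟨h, hh⟩
    have := congrArg (algebraMap (𝓞 Ω) Ω) (hx h hh)
    exact this
  rw [InfiniteGalois.fixedField_fixingSubgroup] at h1
  have hint : IsIntegral ℤ (⟨_, h1⟩ : M) := by
    have h2 : IsIntegral ℤ (algebraMap M Ω ⟨_, h1⟩) := RingOfIntegers.isIntegral_coe x
    exact (isIntegral_algebraMap_iff (algebraMap M Ω).injective).1 h2
  refine ⟨⟨_, hint⟩, ?_⟩
  apply RingOfIntegers.ext
  rfl

/-- the discrete topology makes the action on the integers continuous -/
theorem cont_smul [TopologicalSpace (𝓞 Ω)] [DiscreteTopology (𝓞 Ω)] :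
    ContinuousSMul (Ω ≃ₐ[K] Ω) (𝓞 Ω) := by
  rw [continuousSMul_iff_stabilizer_isOpen]
  intro x
  have h1 : IsOpen (MulAction.stabilizer (Ω ≃ₐ[K] Ω) (algebraMap (𝓞 Ω) Ω x) :
    Set (Ω ≃ₐ[K] Ω)) := stabilizer_isOpen_of_isIntegral _
  convert h1 using 1
  ext σ
  simp only [SetLike.mem_coe, MulAction.mem_stabilizer_iff]
  constructor
  · intro h
    have := congrArg (algebraMap (𝓞 Ω) Ω) h
    exact this
  · intro h
    apply RingOfIntegers.ext
    exact h

/-- lift of an automorphism -/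
theorem exists_lift (M : IntermediateField K Ω) [Normal K M] (τ : M ≃ₐ[K] M) :
    ∃ σ : Ω ≃ₐ[K] Ω, ∀ x : M, σ x = τ x :=
  ⟨τ.liftNormal Ω, fun x => τ.liftNormal_commutes Ω x⟩

theorem inv_lift {M : IntermediateField K Ω} {τ : M ≃ₐ[K] M} {σ : Ω ≃ₐ[K] Ω}
    (h : ∀ x : M, σ x = τ x) (x : M) : σ⁻¹ x = τ⁻¹ x := by
  have h1 := h (τ⁻¹ x)
  rw [← AlgEquiv.mul_apply, mul_inv_cancel, AlgEquiv.one_apply] at h1
  rw [← h1, ← AlgEquiv.mul_apply, inv_mul_cancel, AlgEquiv.one_apply]

theorem smul_lift {M : IntermediateField K Ω} {τ : M ≃ₐ[K] M} {σ : Ω ≃ₐ[K] Ω}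
    (h : ∀ x : M, σ x = τ x) (y : 𝓞 M) :
    σ • algebraMap (𝓞 M) (𝓞 Ω) y = algebraMap (𝓞 M) (𝓞 Ω) (τ • y) := by
  apply RingOfIntegers.ext
  exact h _

theorem lift_inertia (M : IntermediateField K Ω) [Normal K M] (Q : Ideal (𝓞 Ω)) [Q.IsPrime]
    {τ : M ≃ₐ[K] M} (hτ : τ ∈ (Q.comap (algebraMap (𝓞 M) (𝓞 Ω))).inertia (M ≃ₐ[K] M)) :
    ∃ σ ∈ Q.inertia (Ω ≃ₐ[K] Ω), ∀ x : M, σ x = τ x := by
  obtain ⟨σ₀, hσ₀⟩ := exists_lift M τ
  let _ : TopologicalSpace (𝓞 Ω) := ⊥
  have : DiscreteTopology (𝓞 Ω) := ⟨rfl⟩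
  have : ContinuousSMul (Ω ≃ₐ[K] Ω) (𝓞 Ω) := cont_smul
  obtain ⟨h, hh, hin⟩ := exists_inertia (G := Ω ≃ₐ[K] Ω) M.fixingSubgroup
    (InfiniteGalois.fixingSubgroup_isClosed M) Q σ₀ (by
      intro x hx
      obtain ⟨y, rfl⟩ := mem_of_fixed M x hx
      rw [smul_lift (inv_lift hσ₀), ← map_sub]
      exact (Subgroup.inv_mem _ hτ) y)
  refine ⟨h * σ₀, hin, fun x => ?_⟩
  rw [AlgEquiv.mul_apply, hσ₀]
  exact hh ⟨_, (τ x).2⟩

theorem lift_stabilizer (M : IntermediateField K Ω) [Normal K M] (Q : Ideal (𝓞 Ω)) [Q.IsPrime]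
    {τ : M ≃ₐ[K] M}
    (hτ : τ ∈ MulAction.stabilizer (M ≃ₐ[K] M) (Q.comap (algebraMap (𝓞 M) (𝓞 Ω)))) :
    ∃ σ ∈ MulAction.stabilizer (Ω ≃ₐ[K] Ω) Q, ∀ x : M, σ x = τ x := by
  obtain ⟨σ₀, hσ₀⟩ := exists_lift M τ
  let _ : TopologicalSpace (𝓞 Ω) := ⊥
  have : DiscreteTopology (𝓞 Ω) := ⟨rfl⟩
  have : ContinuousSMul (Ω ≃ₐ[K] Ω) (𝓞 Ω) := cont_smul
  obtain ⟨h, hh, hin⟩ := exists_stabilizer (G := Ω ≃ₐ[K] Ω) M.fixingSubgroup
    (InfiniteGalois.fixingSubgroup_isClosed M) Q σ₀ (by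
      intro x hx
      obtain ⟨y, rfl⟩ := mem_of_fixed M x hx
      rw [smul_lift (inv_lift hσ₀), ← Ideal.mem_comap, ← Ideal.mem_comap,
        ← Ideal.mem_pointwise_smul_iff_inv_smul_mem]
      rw [MulAction.mem_stabilizer_iff] at hτ
      rw [hτ])
  refine ⟨h * σ₀, hin, fun x => ?_⟩
  rw [AlgEquiv.mul_apply, hσ₀]
  exact hh ⟨_, (τ x).2⟩

/-- the prime of a finite layer below a prime of `Ω` -/
noncomputable def layer (M : IntermediateField K Ω) [NumberField M] (Q : Ideal (𝓞 Ω)) [Q.IsPrime]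
    (v : HeightOneSpectrum (𝓞 K)) (hv : Q.comap (algebraMap (𝓞 K) (𝓞 Ω)) = v.asIdeal) :
    HeightOneSpectrum (𝓞 M) where
  asIdeal := Q.comap (algebraMap (𝓞 M) (𝓞 Ω))
  isPrime := inferInstance
  ne_bot := by
    intro h
    apply v.ne_bot
    rw [← hv, eq_bot_iff]
    intro x hx
    have h1 : algebraMap (𝓞 K) (𝓞 M) x ∈ Q.comap (algebraMap (𝓞 M) (𝓞 Ω)) := hx
    rw [h, Ideal.mem_bot] at h1
    rw [Ideal.mem_bot]
    exact (FaithfulSMul.algebraMap_injective (𝓞 K) (𝓞 M)) (by rw [h1, map_zero])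

theorem below_layer (M : IntermediateField K Ω) [NumberField M] (Q : Ideal (𝓞 Ω)) [Q.IsPrime]
    (v : HeightOneSpectrum (𝓞 K)) (hv : Q.comap (algebraMap (𝓞 K) (𝓞 Ω)) = v.asIdeal) :
    below K (layer M Q v hv) = v := by
  apply HeightOneSpectrum.ext
  exact hv

end lift

end DEC

section dec

open DEC

variable {K Ω : Type*} [Field K] [NumberField K] [Field Ω] [Algebra K Ω] [IsGalois K Ω]

/-- powers of close elements are close -/
theorem DEC.pow_sub_pow {M : Type*} [Field M] (w : Valuation M ℤᵐ⁰) {x y : M} {C : ℤᵐ⁰} (hC : 1 ≤ C)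
    (hx : w x ≤ C) (hy : w y ≤ C) (n : ℕ) : w (x ^ n - y ^ n) ≤ w (x - y) * C ^ n := by
  induction n with
  | zero => simp
  | succ n ih =>
    have h1 : x ^ (n + 1) - y ^ (n + 1) = x ^ n * (x - y) + (x ^ n - y ^ n) * y := by ring
    rw [h1]
    refine (w.map_add _ _).trans (max_le ?_ ?_)
    · rw [map_mul, map_pow, mul_comm]
      exact mul_le_mul' le_rfl ((pow_le_pow_left₀ zero_le hx n).trans
        (pow_le_pow_right₀ hC (Nat.le_succ n)))
    · rw [map_mul, pow_succ, ← mul_assoc]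
      exact mul_le_mul' ih hy

/-- small numbers -/
theorem DEC.exists_exp_lt (C δ : ℤᵐ⁰) (hδ : δ ≠ 0) : ∃ k : ℕ, C * exp (-(k : ℤ)) < δ := by
  by_cases hC : C = 0
  · exact ⟨0, by rw [hC, zero_mul]; exact zero_lt_iff.2 hδ⟩
  · obtain ⟨c, rfl⟩ : ∃ c : ℤ, C = exp c := ⟨_, (exp_log hC).symm⟩
    obtain ⟨d, rfl⟩ : ∃ d : ℤ, δ = exp d := ⟨_, (exp_log hδ).symm⟩
    refine ⟨(c - d).natAbs + 1, ?_⟩
    rw [← exp_add, exp_lt_exp]
    omega

/-- approximation of the elements fixed by the decomposition group -/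
theorem DEC.approx {K M : Type*} [Field K] [NumberField K] [Field M] [NumberField M] [Algebra K M]
    [IsGalois K M] (w : HeightOneSpectrum (𝓞 M)) (β : M)
    (hβ : ∀ τ ∈ MulAction.stabilizer (M ≃ₐ[K] M) w.asIdeal, τ β = β) (δ : ℤᵐ⁰) (hδ : δ ≠ 0) :
    ∃ z : K, w.valuation M (β - algebraMap K M z) < δ := by
  classical
  have hfd : FiniteDimensional K M := Module.Finite.of_restrictScalars_finite ℚ K M
  let D := MulAction.stabilizer (M ≃ₐ[K] M) w.asIdeal
  let S : Finset (M ≃ₐ[K] M) := Finset.univ.filter (fun g => g ∈ D)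
  let S' : Finset (M ≃ₐ[K] M) := Finset.univ.filter (fun g => g ∉ D)
  have hS0 : (S.card : M) ≠ 0 := by
    have : S.card ≠ 0 := by
      rw [Finset.card_ne_zero]
      exact ⟨1, by simp [S]⟩
    exact_mod_cast this
  -- bound for the conjugates
  let C : ℤᵐ⁰ := Finset.univ.sup (fun g : M ≃ₐ[K] M => w.valuation M (g β))
  have hC : ∀ g : M ≃ₐ[K] M, w.valuation M (g β) ≤ C := fun g =>
    Finset.le_sup (f := fun g : M ≃ₐ[K] M => w.valuation M (g β)) (Finset.mem_univ g)
  obtain ⟨k, hk⟩ := DEC.exists_exp_lt ((w.valuation M (S.card : M))⁻¹ * C) δ hδ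
  -- the auxiliary element
  have hcop : IsCoprime (w.asIdeal ^ k) (∏ g ∈ S', (g⁻¹ • w.asIdeal) ^ k) := by
    apply IsCoprime.prod_right
    intro g hg
    apply IsCoprime.pow
    have h1 : w.asIdeal.IsMaximal := w.isMaximal
    have h2 : (g⁻¹ • w.asIdeal).IsMaximal := by
      have h5 : (g⁻¹ • w.asIdeal).IsPrime := inferInstance
      apply h5.isMaximal
      intro h6
      apply w.ne_bot
      rw [← smul_inv_smul g w.asIdeal, h6]
      exact smul_zero g
    apply Ideal.isCoprime_of_isMaximal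
    intro h3
    have h4 := (Finset.mem_filter.1 hg).2
    apply h4
    rw [MulAction.mem_stabilizer_iff]
    conv_lhs => rw [h3]
    rw [smul_inv_smul]
  obtain ⟨a, ha, u, hu, hau⟩ := Ideal.isCoprime_iff_exists.1 hcop
  have hval : ∀ x : 𝓞 M, x ∈ w.asIdeal ^ k → w.valuation M (algebraMap (𝓞 M) M x) ≤ exp (-(k : ℤ)) := by
    intro x hx
    rw [HeightOneSpectrum.valuation_of_algebraMap]
    exact (HeightOneSpectrum.intValuation_le_pow_iff_mem _ _ _).2 hx
  have h1 : ∀ g ∈ D, w.valuation M (algebraMap (𝓞 M) M (g • u) - 1) ≤ exp (-(k : ℤ)) := by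
    intro g hg
    have e1 : algebraMap (𝓞 M) M (g • u) - 1 = - algebraMap (𝓞 M) M (g • a) := by
      have : u = 1 - a := by rw [← hau]; ring
      rw [this, smul_sub, smul_one, map_sub, map_one]
      ring
    rw [e1, Valuation.map_neg]
    apply hval
    have e2 : w.asIdeal ^ k = g • (w.asIdeal ^ k) := by
      rw [smul_pow', MulAction.mem_stabilizer_iff.1 hg]
    rw [e2]
    exact Ideal.smul_mem_pointwise_smul_iff.2 ha
  have h2 : ∀ g ∉ D, w.valuation M (algebraMap (𝓞 M) M (g • u)) ≤ exp (-(k : ℤ)) := by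
    intro g hg
    apply hval
    have e1 : u ∈ (g⁻¹ • w.asIdeal) ^ k := by
      have hgS : g ∈ S' := Finset.mem_filter.2 ⟨Finset.mem_univ _, hg⟩
      exact Ideal.le_of_dvd (Finset.dvd_prod_of_mem (fun g => (g⁻¹ • w.asIdeal) ^ k) hgS) hu
    rw [← smul_pow'] at e1
    have e2 := Ideal.smul_mem_pointwise_smul_iff (a := g) |>.2 e1
    rwa [smul_inv_smul] at e2
  -- the trace
  set y : M := β * algebraMap (𝓞 M) M u with hy
  obtain ⟨t, ht⟩ : ∃ t : K, algebraMap K M t = ∑ g : M ≃ₐ[K] M, g y := by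
    refine ⟨Algebra.trace K M y, ?_⟩
    exact (trace_eq_sum_automorphisms y)
  refine ⟨t / S.card, ?_⟩
  have e1 : β - algebraMap K M (t / S.card) =
      (S.card : M)⁻¹ * ((S.card : M) * β - ∑ g : M ≃ₐ[K] M, g y) := by
    rw [map_div₀, ht, map_natCast]
    field_simp
  have e2 : (S.card : M) * β - ∑ g : M ≃ₐ[K] M, g y =
      - ∑ g : M ≃ₐ[K] M, (if g ∈ D then g β * (algebraMap (𝓞 M) M (g • u) - 1)
        else g β * algebraMap (𝓞 M) M (g • u)) := by
    have e3 : (S.card : M) * β = ∑ g : M ≃ₐ[K] M, (if g ∈ D then g β else 0) := by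
      rw [← Finset.sum_filter, Finset.sum_congr rfl (fun g hg => hβ g (Finset.mem_filter.1 hg).2),
        Finset.sum_const, nsmul_eq_mul]
    rw [e3, ← Finset.sum_sub_distrib, ← Finset.sum_neg_distrib]
    apply Finset.sum_congr rfl
    intro g _
    have e4 : g y = g β * algebraMap (𝓞 M) M (g • u) := by
      rw [hy, map_mul]; rfl
    rw [e4]
    split_ifs <;> ring
  rw [e1, e2, map_mul, map_inv₀, Valuation.map_neg]
  refine lt_of_le_of_lt ?_ hk
  rw [mul_assoc]
  refine mul_le_mul' le_rfl ?_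
  apply Valuation.map_sum_le
  intro g _
  split_ifs with hg
  · rw [map_mul]
    exact mul_le_mul' (hC g) (h1 g hg)
  · rw [map_mul]
    exact mul_le_mul' (hC g) (h2 g hg)

/-- a root of `b` fixed by the decomposition group: `b` is locally a `p`-th power -/
theorem exists_approx {p : ℕ} (P : Ideal (𝓞 Ω)) [P.IsPrime] (v : HeightOneSpectrum (𝓞 K))
    (hv : P.comap (algebraMap (𝓞 K) (𝓞 Ω)) = v.asIdeal) {b : K} {β : Ω}
    (hβ : β ^ p = algebraMap K Ω b)
    (hfix : ∀ σ ∈ MulAction.stabilizer (Ω ≃ₐ[K] Ω) P, σ β = β) (γ : ℤᵐ⁰) (hγ : γ ≠ 0) :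
    ∃ z : K, v.valuation K (b - z ^ p) < γ := by
  let L : FiniteGaloisIntermediateField K Ω := FiniteGaloisIntermediateField.adjoin K {β}
  let M : IntermediateField K Ω := L.toIntermediateField
  have hfd : FiniteDimensional K M := L.finiteDimensional
  have hgal : IsGalois K M := L.isGalois
  have hnf : NumberField M := NumberField.of_module_finite K M
  have hβM : β ∈ M := FiniteGaloisIntermediateField.subset_adjoin K {β} rfl
  let w : HeightOneSpectrum (𝓞 M) := layer M P v hv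
  have hwv : below K w = v := below_layer M P v hv
  let β' : M := ⟨β, hβM⟩
  have hβ' : β' ^ p = algebraMap K M b := Subtype.ext hβ
  have hDfix : ∀ τ ∈ MulAction.stabilizer (M ≃ₐ[K] M) w.asIdeal, τ β' = β' := by
    intro τ hτ
    obtain ⟨σ, hσ, hσ'⟩ := lift_stabilizer M P hτ
    apply Subtype.ext
    rw [← hσ']
    exact hfix σ hσ
  obtain ⟨e, he, hew⟩ := exists_valuation_below (K := K) w
  rw [hwv] at hew
  set C : ℤᵐ⁰ := max 1 (w.valuation M β') with hC
  have hC1 : 1 ≤ C := le_max_left _ _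
  have hC0 : C ≠ 0 := (lt_of_lt_of_le zero_lt_one hC1).ne'
  have hδ : min 1 (γ ^ e * (C ^ p)⁻¹) ≠ 0 := by
    rcases min_choice 1 (γ ^ e * (C ^ p)⁻¹) with h | h
    · rw [h]; exact one_ne_zero
    · rw [h]
      exact mul_ne_zero (pow_ne_zero _ hγ) (inv_ne_zero (pow_ne_zero _ hC0))
  obtain ⟨z, hz⟩ := approx (K := K) w β' hDfix _ hδ
  refine ⟨z, ?_⟩
  have h1 : w.valuation M (algebraMap K M (b - z ^ p)) < γ ^ e := by
    rw [map_sub, map_pow, ← hβ']
    have hz1 := hz.trans_le (min_le_left _ _)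
    have hz2 := hz.trans_le (min_le_right _ _)
    have h2 : w.valuation M (algebraMap K M z) ≤ C := by
      have h3 : algebraMap K M z = β' - (β' - algebraMap K M z) := by ring
      rw [h3]
      exact (Valuation.map_sub _ _ _).trans (max_le (le_max_right _ _) (hz1.le.trans hC1))
    refine lt_of_le_of_lt (pow_sub_pow (w.valuation M) hC1 (le_max_right _ _) h2 p) ?_
    calc w.valuation M (β' - algebraMap K M z) * C ^ p < γ ^ e * (C ^ p)⁻¹ * C ^ p :=
          mul_lt_mul_of_pos_right hz2 (pow_pos (zero_lt_iff.2 hC0) _)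
      _ = γ ^ e := by
        rw [mul_assoc, inv_mul_cancel₀ (pow_ne_zero _ hC0), mul_one]
  rw [← hew] at h1
  exact lt_of_pow_lt_pow_left₀ e zero_le h1

/-- a root of `b` fixed by the inertia group: the valuation of `b` is divisible by `p` -/
theorem valuation_of_inertia {p : ℕ} (Q : Ideal (𝓞 Ω)) [Q.IsPrime] (v : HeightOneSpectrum (𝓞 K))
    (hv : Q.comap (algebraMap (𝓞 K) (𝓞 Ω)) = v.asIdeal) {b : K} (hb : b ≠ 0) {β : Ω}
    (hβ : β ^ p = algebraMap K Ω b) (hfix : ∀ σ ∈ Q.inertia (Ω ≃ₐ[K] Ω), σ β = β) :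
    ∃ j : ℤ, v.valuation K b = exp ((p : ℤ) * j) := by
  let L : FiniteGaloisIntermediateField K Ω := FiniteGaloisIntermediateField.adjoin K {β}
  let M : IntermediateField K Ω := L.toIntermediateField
  have hfd : FiniteDimensional K M := L.finiteDimensional
  have hgal : IsGalois K M := L.isGalois
  have hnf : NumberField M := NumberField.of_module_finite K M
  have hβM : β ∈ M := FiniteGaloisIntermediateField.subset_adjoin K {β} rfl
  let w : HeightOneSpectrum (𝓞 M) := layer M Q v hv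
  have hwv : below K w = v := below_layer M Q v hv
  let I : Subgroup (M ≃ₐ[K] M) := w.asIdeal.inertia (M ≃ₐ[K] M)
  let β' : M := ⟨β, hβM⟩
  have hβ' : β' ^ p = algebraMap K M b := Subtype.ext hβ
  have hIfix : ∀ τ ∈ I, τ β' = β' := by
    intro τ hτ
    obtain ⟨σ, hσ, hσ'⟩ := lift_inertia M Q hτ
    apply Subtype.ext
    rw [← hσ']
    exact hfix σ hσ
  let E : IntermediateField K M := FixedPoints.intermediateField I
  have hE : IsGaloisGroup I E M := IsGaloisGroup.subgroup (M ≃ₐ[K] M) K M I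
  have hβE : β' ∈ E := fun τ => hIfix τ.1 τ.2
  have hnfE : NumberField E := NumberField.of_module_finite K E
  have hcard : Nat.card (w.asIdeal.inertia I) = Nat.card I := by
    have : w.asIdeal.inertia I = ⊤ := by
      rw [eq_top_iff]
      intro τ _
      exact τ.2
    rw [this]
    exact Nat.card_congr Subgroup.topEquiv.toEquiv
  have e1 := val_pow_card_inertia (K := K) (M ≃ₐ[K] M) w b
  have e2 := val_pow_card_inertia (K := E) I w (⟨β', hβE⟩ : E)
  rw [hwv, ← hβ', map_pow] at e1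
  have e2' : (below E w).valuation E ⟨β', hβE⟩ ^ Nat.card I =
      w.valuation M (algebraMap E M ⟨β', hβE⟩) := by
    rw [← hcard]
    exact e2
  have e3 : w.valuation M β' = (below E w).valuation E ⟨β', hβE⟩ ^ Nat.card I := e2'.symm
  rw [e3, ← pow_mul, mul_comm, pow_mul] at e1
  have hI0 : Nat.card I ≠ 0 := Nat.card_pos.ne'
  have e4 : v.valuation K b = (below E w).valuation E ⟨β', hβE⟩ ^ p :=
    (pow_left_inj₀ zero_le zero_le hI0).1 e1
  have hp0 : (below E w).valuation E ⟨β', hβE⟩ ≠ 0 ∨ p = 0 := by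
    by_contra hcon
    push Not at hcon
    rw [hcon.1, zero_pow hcon.2] at e4
    exact hb ((Valuation.zero_iff _).1 e4)
  rcases hp0 with h0 | h0
  · obtain ⟨j, hj⟩ : ∃ j : ℤ, (below E w).valuation E ⟨β', hβE⟩ = exp j :=
      ⟨_, (exp_log h0).symm⟩
    refine ⟨j, ?_⟩
    rw [e4, hj, ← exp_nsmul]
    congr 1
  · refine ⟨0, ?_⟩
    rw [e4, h0]
    simp

/-- trivial inertia group: the valuations agree -/
theorem DEC.val_eq_of_inertia {K M : Type*} [Field K] [NumberField K] [Field M] [NumberField M]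
    [Algebra K M] [IsGalois K M] (Q : HeightOneSpectrum (𝓞 M))
    (h : ∀ τ ∈ Q.asIdeal.inertia (M ≃ₐ[K] M), τ = 1) (x : K) :
    (below K Q).valuation K x = Q.valuation M (algebraMap K M x) := by
  have hfd : FiniteDimensional K M := Module.Finite.of_restrictScalars_finite ℚ K M
  have h1 := val_pow_card_inertia (K := K) (M ≃ₐ[K] M) Q x
  have h2 : Q.asIdeal.inertia (M ≃ₐ[K] M) = ⊥ := by
    rw [eq_bot_iff]
    intro τ hτ
    exact h τ hτ
  have h3 : Nat.card (Q.asIdeal.inertia (M ≃ₐ[K] M)) = 1 := by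
    rw [h2]; simp
  rwa [h3, pow_one] at h1

/-- an open normal subgroup of index `p` containing the decomposition group of `P` and the inertia
groups of all primes not containing `p` gives a Galois extension of degree `p` of the following
kind. -/
theorem exists_extension {p : ℕ} [Fact p.Prime] (P : Ideal (𝓞 Ω)) [P.IsPrime]
    (v : HeightOneSpectrum (𝓞 K)) (hv : P.comap (algebraMap (𝓞 K) (𝓞 Ω)) = v.asIdeal)
    (N : Subgroup (Ω ≃ₐ[K] Ω)) [N.Normal] (hopen : IsOpen (N : Set (Ω ≃ₐ[K] Ω)))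
    (hidx : N.index = p) (hdec : MulAction.stabilizer (Ω ≃ₐ[K] Ω) P ≤ N)
    (hin : ∀ Q : Ideal (𝓞 Ω), Q.IsPrime → (p : 𝓞 Ω) ∉ Q → Q.inertia (Ω ≃ₐ[K] Ω) ≤ N) :
    ∃ (M : IntermediateField K Ω) (_ : NumberField M) (_ : IsGalois K M),
      Module.finrank K M = p ∧
      (∀ Q : HeightOneSpectrum (𝓞 M), (p : 𝓞 M) ∉ Q.asIdeal → ∀ x : K,
        (below K Q).valuation K x = Q.valuation M (algebraMap K M x)) ∧
      ∃ Q : HeightOneSpectrum (𝓞 M), below K Q = v ∧
        (∀ x : K, (below K Q).valuation K x = Q.valuation M (algebraMap K M x)) ∧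
        (∀ σ : M ≃ₐ[K] M, (∀ x, Q.valuation M (σ x) = Q.valuation M x) → σ = 1) ∧
        (∀ Q' : HeightOneSpectrum (𝓞 M), below K Q' = v → ∀ x : K,
          (below K Q').valuation K x = Q'.valuation M (algebraMap K M x)) := by
  have hclosed : IsClosed (N : Set (Ω ≃ₐ[K] Ω)) := Subgroup.isClosed_of_isOpen N hopen
  let M : IntermediateField K Ω := IntermediateField.fixedField N
  have hM : M.fixingSubgroup = N := InfiniteGalois.fixingSubgroup_fixedField ⟨N, hclosed⟩
  have hfd : FiniteDimensional K M := by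
    rw [← InfiniteGalois.isOpen_iff_finite, hM]
    exact hopen
  have hgal : IsGalois K M := by
    rw [← InfiniteGalois.normal_iff_isGalois, hM]
    infer_instance
  have hnf : NumberField M := NumberField.of_module_finite K M
  have hrank : Module.finrank K M = p := by
    rw [IntermediateField.finrank_eq_fixingSubgroup_index, hM, hidx]
  -- lifted automorphisms in `N` are trivial
  have htriv : ∀ (τ : M ≃ₐ[K] M) (σ : Ω ≃ₐ[K] Ω), σ ∈ N → (∀ x : M, σ x = τ x) → τ = 1 := by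
    intro τ σ hσ h
    ext x
    rw [← h x, AlgEquiv.one_apply]
    rw [← hM] at hσ
    exact hσ x
  have hinert : ∀ Q : HeightOneSpectrum (𝓞 M), (p : 𝓞 M) ∉ Q.asIdeal →
      ∀ τ ∈ Q.asIdeal.inertia (M ≃ₐ[K] M), τ = 1 := by
    intro Q hQ τ hτ
    have hmax : Q.asIdeal.IsMaximal := Q.isMaximal
    have hint : Algebra.IsIntegral (𝓞 M) (𝓞 Ω) := by
      constructor
      intro x
      exact (RingOfIntegers.isIntegral x).tower_top
    obtain ⟨Q', hQm, hQv⟩ := Ideal.exists_maximal_ideal_liesOver_of_isIntegral (S := 𝓞 Ω) Q.asIdeal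
    have hQ' : Q'.IsPrime := hQm.isPrime
    have hQc : Q'.comap (algebraMap (𝓞 M) (𝓞 Ω)) = Q.asIdeal := hQv.over.symm
    obtain ⟨σ, hσ, hσ'⟩ := lift_inertia (τ := τ) M Q' (by rw [hQc]; exact hτ)
    apply htriv τ σ (hin Q' hQ' _ hσ) hσ'
    intro h
    apply hQ
    rw [← hQc, Ideal.mem_comap, map_natCast]
    exact h
  let Q := layer M P v hv
  have hQv : below K Q = v := below_layer M P v hv
  have hstab : ∀ τ ∈ MulAction.stabilizer (M ≃ₐ[K] M) Q.asIdeal, τ = 1 := by
    intro τ hτ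
    obtain ⟨σ, hσ, hσ'⟩ := lift_stabilizer M P hτ
    exact htriv τ σ (hdec hσ) hσ'
  have hinQ : ∀ τ ∈ Q.asIdeal.inertia (M ≃ₐ[K] M), τ = 1 := fun τ hτ =>
    hstab τ (Ideal.inertia_le_stabilizer _ hτ)
  refine ⟨M, hnf, hgal, hrank, fun Q hQ x => val_eq_of_inertia Q (hinert Q hQ) x, Q, hQv,
    fun x => val_eq_of_inertia Q hinQ x, ?_, ?_⟩
  · intro σ hσ
    apply hstab
    rw [MulAction.mem_stabilizer_iff]
    have key : ∀ y : 𝓞 M, σ • y ∈ Q.asIdeal ↔ y ∈ Q.asIdeal := by
      intro y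
      rw [← HeightOneSpectrum.valuation_lt_one_iff_mem (K := M),
        ← HeightOneSpectrum.valuation_lt_one_iff_mem (K := M)]
      change (Q.valuation M) (σ (algebraMap (𝓞 M) M y)) < 1 ↔
        (Q.valuation M) (algebraMap (𝓞 M) M y) < 1
      rw [hσ]
    ext y
    rw [Ideal.mem_pointwise_smul_iff_inv_smul_mem, ← key, smul_inv_smul]
  · intro Q' hQ' x
    apply val_eq_of_inertia Q'
    have h1 := card_inertia_eq (K := K) (M ≃ₐ[K] M) Q Q' (by rw [hQ', hQv])
    have h2 : Q.asIdeal.inertia (M ≃ₐ[K] M) = ⊥ := by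
      rw [eq_bot_iff]
      intro τ hτ
      exact hinQ τ hτ
    have h3 : Nat.card (Q.asIdeal.inertia (M ≃ₐ[K] M)) = 1 := by
      rw [h2]; simp
    rw [h3] at h1
    have h4 : Q'.asIdeal.inertia (M ≃ₐ[K] M) = ⊥ := Subgroup.card_eq_one.1 h1
    intro τ hτ
    rw [h4] at hτ
    exact hτ

end dec

end Pool.Agent.Work.MP_787500_nt.OddP
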