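import Mathlib

/-!
Hilbert 90 for locally constant cocycles of an infinite Galois group.
-/

set_option autoImplicit false

namespace Pool.Agent.Work.MP_787500_nt.OddP

theorem exists_root_of_cocycle {K Ω : Type*} [Field K] [Field Ω] [Algebra K Ω] [IsGalois K Ω]
    (f : (Ω ≃ₐ[K] Ω) → Ω) (hf0 : ∀ σ, f σ ≠ 0) (hf : ∀ σ τ, f (σ * τ) = f σ * σ (f τ))
    (hloc : ∃ V : Subgroup (Ω ≃ₐ[K] Ω), IsOpen (V : Set (Ω ≃ₐ[K] Ω)) ∧
      ∀ σ, ∀ v ∈ V, f (σ * v) = f σ) :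
    ∃ β : Ω, β ≠ 0 ∧ ∀ σ, f σ = σ β / β := by
  classical
  obtain ⟨V, hV, hfV⟩ := hloc
  obtain ⟨E, hE, hEV⟩ := (krullTopology_mem_nhds_one_iff K Ω (V : Set (Ω ≃ₐ[K] Ω))).1
    (hV.mem_nhds V.one_mem)
  let H : Subgroup (Ω ≃ₐ[K] Ω) := E.fixingSubgroup
  let restr : (Ω ≃ₐ[K] Ω) → (E →ₐ[K] Ω) := fun σ => (σ : Ω →ₐ[K] Ω).comp E.val
  have hrestr : ∀ σ τ, restr σ = restr τ → σ⁻¹ * τ ∈ H := by
    intro σ τ h
    rw [IntermediateField.mem_fixingSubgroup_iff]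
    intro x hx
    have h1 := DFunLike.congr_fun h ⟨x, hx⟩
    have h2 : σ x = τ x := h1
    change σ.symm (τ x) = x
    rw [← h2, AlgEquiv.symm_apply_apply]
  have hfix : ∀ σ : Ω ≃ₐ[K] Ω, ∀ h ∈ H, restr (σ * h) = restr σ := by
    intro σ h hh
    ext x
    have := (IntermediateField.mem_fixingSubgroup_iff _ _).1 hh x.1 x.2
    change σ (h x.1) = σ x.1
    rw [this]
  have hout : ∀ σ : Ω ≃ₐ[K] Ω, restr ((σ : (Ω ≃ₐ[K] Ω) ⧸ H).out) = restr σ ∧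
      f ((σ : (Ω ≃ₐ[K] Ω) ⧸ H).out) = f σ := by
    intro σ
    obtain ⟨h, hh⟩ := QuotientGroup.mk_out_eq_mul H σ
    rw [hh]
    exact ⟨hfix σ h.1 h.2, hfV σ h.1 (hEV h.2)⟩
  have hinj : Function.Injective (fun q : (Ω ≃ₐ[K] Ω) ⧸ H => restr q.out) := by
    intro q q' h
    have h1 := hrestr _ _ h
    have h2 := QuotientGroup.eq.2 h1
    simpa using h2
  have hfin : Finite ((Ω ≃ₐ[K] Ω) ⧸ H) := Finite.of_injective _ hinj
  have : Fintype ((Ω ≃ₐ[K] Ω) ⧸ H) := Fintype.ofFinite _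
  -- linear independence
  have hli : LinearIndependent Ω (fun q : (Ω ≃ₐ[K] Ω) ⧸ H =>
      ((restr q.out : E →ₐ[K] Ω) : E → Ω)) := by
    refine LinearIndependent.comp (ι' := (Ω ≃ₐ[K] Ω) ⧸ H)
      (linearIndependent_monoidHom E Ω)
      (fun q => ((restr q.out : E →ₐ[K] Ω) : E →* Ω)) ?_
    intro q q' h
    apply hinj
    ext x
    exact DFunLike.congr_fun h x
  obtain ⟨z, hz⟩ : ∃ z : E, ∑ q : (Ω ≃ₐ[K] Ω) ⧸ H, f q.out * restr q.out z ≠ 0 := by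
    by_contra hcon
    push Not at hcon
    have h1 : ∑ q : (Ω ≃ₐ[K] Ω) ⧸ H, f q.out • ((restr q.out : E →ₐ[K] Ω) : E → Ω) = 0 := by
      funext z
      rw [Finset.sum_apply]
      exact hcon z
    exact hf0 _ (Fintype.linearIndependent_iff.1 hli (fun q => f q.out) h1
      ((1 : Ω ≃ₐ[K] Ω) : (Ω ≃ₐ[K] Ω) ⧸ H))
  refine ⟨(∑ q : (Ω ≃ₐ[K] Ω) ⧸ H, f q.out * restr q.out z)⁻¹, inv_ne_zero hz, ?_⟩
  intro g
  have hg : f g * g (∑ q : (Ω ≃ₐ[K] Ω) ⧸ H, f q.out * restr q.out z) =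
      ∑ q : (Ω ≃ₐ[K] Ω) ⧸ H, f q.out * restr q.out z := by
    rw [map_sum, Finset.mul_sum]
    refine Fintype.sum_bijective (fun q => g • q) (MulAction.bijective g) _ _ ?_
    intro q
    have h1 : g • q = ((g * q.out : Ω ≃ₐ[K] Ω) : (Ω ≃ₐ[K] Ω) ⧸ H) := by
      conv_lhs => rw [← QuotientGroup.out_eq' q]
      rfl
    rw [h1, (hout _).1, (hout _).2, hf, map_mul, mul_assoc]
    rfl
  have hgz : g (∑ q : (Ω ≃ₐ[K] Ω) ⧸ H, f q.out * restr q.out z) ≠ 0 := by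
    rw [map_ne_zero]
    exact hz
  rw [map_inv₀, div_inv_eq_mul, inv_mul_eq_div, eq_div_iff hgz]
  exact hg

end Pool.Agent.Work.MP_787500_nt.OddP
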