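import Mathlib
import Pool.Agent.Work.MP_787500_nt.H67_Base
import Pool.Agent.Work.MP_787500_nt.H67_Decomp
import Pool.Agent.Work.MP_787500_nt.H67_Hilbert

/-!
Homomorphisms and cyclotomic cocycles over a base field that vanish on the decomposition group of
one prime above `p` and the inertia groups away from `p` vanish.
-/

set_option autoImplicit false
set_option linter.unusedSectionVars false

namespace Pool.Agent.Work.MP_787500_nt.OddP

open WithZero IsDedekindDomain NumberField Gen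
open scoped Pointwise

universe u w

variable {p : ℕ} [Fact p.Prime] {K : Type u} [Field K] [NumberField K] {Ω : Type w} [Field Ω]
  [Algebra K Ω] [IsGalois K Ω]

/-- the place of `K` below a prime containing `p` -/
theorem exists_place (P : Ideal (𝓞 Ω)) [P.IsPrime] (hP : (p : 𝓞 Ω) ∈ P) :
    ∃ v : HeightOneSpectrum (𝓞 K), P.comap (algebraMap (𝓞 K) (𝓞 Ω)) = v.asIdeal ∧
      (p : 𝓞 K) ∈ v.asIdeal := by
  have hp : p.Prime := Fact.out
  have h1 : (p : 𝓞 K) ∈ P.comap (algebraMap (𝓞 K) (𝓞 Ω)) := by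
    rw [Ideal.mem_comap, map_natCast]
    exact hP
  refine ⟨⟨P.comap (algebraMap (𝓞 K) (𝓞 Ω)), inferInstance, ?_⟩, rfl, h1⟩
  intro h
  rw [h, Ideal.mem_bot] at h1
  exact hp.ne_zero (by exact_mod_cast h1)

/-- no open normal subgroup of index `p` contains the decomposition group and the inertia groups -/
theorem base_index (hK : IsBase p K) (P : Ideal (𝓞 Ω)) [P.IsPrime] (hP : (p : 𝓞 Ω) ∈ P)
    (N : Subgroup (Ω ≃ₐ[K] Ω)) [N.Normal] (hopen : IsOpen (N : Set (Ω ≃ₐ[K] Ω)))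
    (hidx : N.index = p) (hdec : MulAction.stabilizer (Ω ≃ₐ[K] Ω) P ≤ N)
    (hin : ∀ Q : Ideal (𝓞 Ω), Q.IsPrime → (p : 𝓞 Ω) ∉ Q → Q.inertia (Ω ≃ₐ[K] Ω) ≤ N) : False := by
  obtain ⟨v, hv, hpv⟩ := exists_place (K := K) P hP
  obtain ⟨v', hb⟩ := base_data hK hpv
  obtain ⟨M, hnf, hgal, hrank, hoff, Q, hQ, hQv, hQs, hQ'⟩ :=
    exists_extension P v hv N hopen hidx hdec hin
  obtain ⟨a, m, ha, ha', -, hg⟩ := hb.hg
  refine no_ext (M := M) hK.odd hrank hK.deg hK.cplx hK.cls hb.hpv' hb.hres' hb.ne ?_ ⟨Q, hQ, hQs⟩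
    ha ha' hg
  intro Q₁ hQ₁ x
  by_cases hpQ : (p : 𝓞 M) ∈ Q₁.asIdeal
  · have h1 : (p : 𝓞 K) ∈ (below K Q₁).asIdeal := by
      show (p : 𝓞 K) ∈ Ideal.comap (algebraMap (𝓞 K) (𝓞 M)) Q₁.asIdeal
      rw [Ideal.mem_comap, map_natCast]
      exact hpQ
    rcases hb.only _ h1 with h | h
    · exact hQ' Q₁ h x
    · exact absurd h hQ₁
  · exact hoff Q₁ hpQ x

/-- locally constant homomorphisms to `ZMod p` -/
theorem base_hom (hK : IsBase p K) (P : Ideal (𝓞 Ω)) [P.IsPrime] (hP : (p : 𝓞 Ω) ∈ P)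
    (c : (Ω ≃ₐ[K] Ω) → ZMod p) (hc : ∀ σ τ, c (σ * τ) = c σ + c τ)
    (hD : ∀ σ ∈ MulAction.stabilizer (Ω ≃ₐ[K] Ω) P, c σ = 0)
    (hI : ∀ Q : Ideal (𝓞 Ω), Q.IsPrime → (p : 𝓞 Ω) ∉ Q → ∀ σ ∈ Q.inertia (Ω ≃ₐ[K] Ω), c σ = 0)
    (hV : ∃ V : Subgroup (Ω ≃ₐ[K] Ω), IsOpen (V : Set (Ω ≃ₐ[K] Ω)) ∧
      ∀ σ, ∀ v ∈ V, c (σ * v) = c σ) (σ : Ω ≃ₐ[K] Ω) : c σ = 0 := by
  have hp : p.Prime := Fact.out
  by_contra hσ
  have hc1 : c 1 = 0 := by
    have := hc 1 1
    rw [mul_one] at this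
    simpa using this
  let f : (Ω ≃ₐ[K] Ω) →* Multiplicative (ZMod p) :=
    { toFun := fun σ => Multiplicative.ofAdd (c σ)
      map_one' := by rw [hc1]; rfl
      map_mul' := fun σ τ => by rw [hc]; rfl }
  have hf : ∀ σ, f σ = 1 ↔ c σ = 0 := fun σ => Iff.rfl
  have hrange : f.range = ⊤ := by
    have hcard : Nat.card (Multiplicative (ZMod p)) = p := by
      rw [Nat.card_congr Multiplicative.toAdd, Nat.card_zmod]
    rcases (Nat.dvd_prime hp).1 (hcard ▸ Subgroup.card_subgroup_dvd_card f.range) with h | h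
    · exfalso
      rw [Subgroup.card_eq_one] at h
      have h1 : f σ ∈ f.range := ⟨σ, rfl⟩
      rw [h, Subgroup.mem_bot, hf] at h1
      exact hσ h1
    · have : Finite (Multiplicative (ZMod p)) := Nat.finite_of_card_ne_zero (by
        rw [hcard]; exact hp.ne_zero)
      rw [← Subgroup.card_eq_iff_eq_top, h, hcard]
  have hidx : f.ker.index = p := by
    rw [Subgroup.index_ker, hrange, Nat.card_congr Subgroup.topEquiv.toEquiv,
      Nat.card_congr Multiplicative.toAdd, Nat.card_zmod]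
  have hopen : IsOpen (f.ker : Set (Ω ≃ₐ[K] Ω)) := by
    obtain ⟨V, hV, hV'⟩ := hV
    refine Subgroup.isOpen_mono (H₁ := V) ?_ hV
    intro v hv
    rw [MonoidHom.mem_ker, hf]
    have := hV' 1 v hv
    rwa [one_mul, hc1] at this
  refine base_index hK P hP f.ker hopen hidx ?_ ?_
  · intro τ hτ
    rw [MonoidHom.mem_ker, hf]
    exact hD τ hτ
  · intro Q hQ hQp τ hτ
    rw [MonoidHom.mem_ker, hf]
    exact hI Q hQ hQp τ hτ

/-- the quadratic Gauss sum: the decomposition group acts non-trivially on the roots of unity -/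
theorem exists_ne_root (hp2 : p ≠ 2) (P : Ideal (𝓞 Ω)) [P.IsPrime] {v : HeightOneSpectrum (𝓞 K)}
    (hv : P.comap (algebraMap (𝓞 K) (𝓞 Ω)) = v.asIdeal) (hpv : v.valuation K (p : K) = exp (-1 : ℤ))
    {ζ : Ω} (hζ : IsPrimitiveRoot ζ p) :
    ∃ σ ∈ MulAction.stabilizer (Ω ≃ₐ[K] Ω) P, σ ζ ≠ ζ := by
  have hp : p.Prime := Fact.out
  by_contra hcon
  push Not at hcon
  have hz : ζ ^ p = 1 := hζ.pow_eq_one
  let χ : MulChar (ZMod p) Ω := (quadraticChar (ZMod p)).ringHomComp (Int.castRingHom Ω)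
  let ψ : AddChar (ZMod p) Ω := AddChar.zmodChar p hz
  have hχq : χ.IsQuadratic := (quadraticChar_isQuadratic (ZMod p)).comp _
  have hchar0 : CharZero Ω := charZero_of_injective_algebraMap (algebraMap K Ω).injective
  have hχ1 : χ ≠ 1 := by
    have h1 : quadraticChar (ZMod p) ≠ 1 := quadraticChar_ne_one (by rwa [ZMod.ringChar_zmod_n])
    exact (MulChar.ringHomComp_ne_one_iff (Int.castRingHom Ω).injective_int).2 h1
  have hψ : ψ.IsPrimitive := AddChar.zmodChar_primitive_of_primitive_root p hζ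
  have hsq := gaussSum_sq hχ1 hχq hψ
  rw [ZMod.card] at hsq
  obtain ⟨s, hs, hs1⟩ : ∃ s : ℤ, χ (-1) = (s : Ω) ∧ (s = 1 ∨ s = -1) := by
    refine ⟨quadraticChar (ZMod p) (-1), rfl, ?_⟩
    exact quadraticChar_dichotomy (neg_ne_zero.2 one_ne_zero)
  rw [hs] at hsq
  have hfix : ∀ σ ∈ MulAction.stabilizer (Ω ≃ₐ[K] Ω) P, σ (gaussSum χ ψ) = gaussSum χ ψ := by
    intro σ hσ
    rw [gaussSum, map_sum]
    refine Finset.sum_congr rfl (fun a _ => ?_)
    rw [map_mul]
    have e1 : σ (χ a) = χ a := by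
      show σ (((quadraticChar (ZMod p) a : ℤ)) : Ω) = _
      rw [map_intCast]
      rfl
    have e2 : σ (ψ a) = ψ a := by
      show σ (AddChar.zmodChar p hz a) = AddChar.zmodChar p hz a
      rw [AddChar.zmodChar_apply, map_pow, hcon σ hσ]
    rw [e1, e2]
  have hb : gaussSum χ ψ ^ 2 = algebraMap K Ω ((s : K) * p) := by
    rw [hsq, map_mul, map_intCast, map_natCast]
  have hval : v.valuation K ((s : K) * p) = exp (-1 : ℤ) := by
    rcases hs1 with h | h <;> rw [h] <;> push_cast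
    · rw [one_mul]; exact hpv
    · rw [neg_one_mul, Valuation.map_neg]; exact hpv
  obtain ⟨z, hz⟩ := exists_approx P v hv hb hfix (exp (-1 : ℤ)) exp_ne_zero
  have h1 : v.valuation K (z ^ 2) = exp (-1 : ℤ) := by
    have e : z ^ 2 = (s : K) * p - ((s : K) * p - z ^ 2) := by ring
    rw [e, Valuation.map_sub_eq_of_lt_left, hval]
    rw [hval]
    exact hz
  have hz0 : z ≠ 0 := by
    rintro rfl
    rw [zero_pow (by norm_num), map_zero] at h1
    exact exp_ne_zero h1.symm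
  have h2 := exp_ordU v (Units.mk0 z hz0 ^ 2)
  rw [Units.val_pow_eq_pow_val, Units.val_mk0, h1, exp_inj, ordU_pow] at h2
  push_cast at h2
  omega

/-- an element of the base field with valuations divisible by `p` away from `v'` which is a
`p`-th power modulo `P ^ 2` locally at `v` is a `p`-th power -/
theorem exists_pow_of_local (hK : IsBase p K) {v v' : HeightOneSpectrum (𝓞 K)} (hb : BD p K v v')
    (b z : Kˣ) (hu : ∀ u : HeightOneSpectrum (𝓞 K), u ≠ v' → (p : ℤ) ∣ ordU u b)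
    (hz : b / z ^ p ∈ SU v) : ∃ d : Kˣ, b = d ^ p := by
  have hp : p.Prime := Fact.out
  have hpz : Prime (p : ℤ) := Nat.prime_iff_prime_int.1 hp
  obtain ⟨H, hH, hDK, hEK⟩ := exists_exponent hK.deg hK.cplx hK.odd hK.cls hb.hpv'
  obtain ⟨a, m, ha, ha', hm, hg⟩ := hb.hg'
  have hmain : (p : ℤ) ∣ ordU v' b := by
    set k := ordU v' b with hk
    -- the combination with all valuations divisible by `p`
    obtain ⟨c, hc⟩ := hDK p hp.ne_zero (b ^ m / a ^ k) (by
      intro u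
      rw [ordU_div, ordU_zpow, ordU_zpow]
      by_cases h : u = v'
      · rw [h, ha, ← hk]
        exact ⟨0, by ring⟩
      · rw [ha' u h, mul_zero, sub_zero]
        exact (hu u h).mul_left _)
    by_contra hcon
    apply hg
    set s := b / z ^ p with hs
    have hbs : b = z ^ p * s := by rw [hs, mul_div_cancel]
    have hos : ordU v s = 0 := by
      have h1 : v.valuation K ((s : K) - 1) < 1 :=
        lt_of_le_of_lt (mem_SU.1 hz) (by rw [← exp_zero, exp_lt_exp]; norm_num)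
      have h2 : v.valuation K (s : K) = 1 := by
        have := (v.valuation K).map_one_add_of_lt h1
        rwa [add_sub_cancel] at this
      rw [ordU, h2, log_one]
    -- `a ^ (k * H) = (z ^ (m * H) / c) ^ p * s ^ (m * H)`
    set y : Kˣ := z ^ (m * H) / c with hy
    have e1 : a ^ (k * H) = y ^ p * s ^ (m * H) := by
      have h1 : a ^ (k * H) = b ^ (m * H) / c ^ p := by
        rw [← hc, div_pow, ← zpow_natCast (b ^ m) H, ← zpow_mul, ← zpow_natCast (a ^ k) H, ← zpow_mul]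
        rw [div_div_cancel]
      rw [h1, hbs, mul_zpow, hy, div_pow, ← zpow_natCast z p, ← zpow_mul,
        ← zpow_natCast (z ^ (m * (H : ℤ))) p, ← zpow_mul, mul_comm (p : ℤ), div_mul_eq_mul_div]
    have hoy : ordU v y = 0 := by
      have h1 := congrArg (ordU v) e1
      rw [ordU_zpow, ordU_mul, ordU_pow, ordU_zpow, hos, ha' v hb.ne, mul_zero, mul_zero,
        add_zero] at h1
      rcases mul_eq_zero.1 h1.symm with h | h
      · exact absurd h hpz.ne_zero
      · exact h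
    have h2 : (a ^ (p - 1)) ^ (k * H) ∈ SU v := by
      have e2 : (a ^ (p - 1)) ^ (k * H) = (y ^ (p - 1)) ^ p * (s ^ (m * H)) ^ (p - 1) := by
        rw [← zpow_natCast a (p - 1), ← zpow_mul, mul_comm, zpow_mul, e1, zpow_natCast, mul_pow,
          ← pow_mul, mul_comm p, pow_mul]
      rw [e2]
      exact mul_mem (pow_mem_SU hb.hpv hb.hres hoy) (pow_mem (zpow_mem hz _) _)
    have h3 : ¬ (p : ℤ) ∣ k * H := by
      intro h
      rcases hpz.dvd_or_dvd h with h | h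
      · exact hcon h
      · exact hH (by exact_mod_cast h)
    exact mem_of_zpow hp (pow_mem_SU hb.hpv hb.hres (ha' v hb.ne)) h3 h2
  obtain ⟨c, hc⟩ := hDK p hp.ne_zero b (by
    intro u
    by_cases h : u = v'
    · rw [h]; exact hmain
    · exact hu u h)
  have hcop : IsCoprime (H : ℤ) (p : ℤ) := by
    rw [Nat.isCoprime_iff_coprime]
    exact ((Nat.Prime.coprime_iff_not_dvd hp).2 hH).symm
  obtain ⟨x, y, hxy⟩ := hcop
  refine ⟨c ^ x * b ^ y, ?_⟩
  calc b = b ^ (x * H + y * p) := by rw [hxy, zpow_one]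
    _ = (b ^ H) ^ x * (b ^ y) ^ p := by
        rw [zpow_add, mul_comm x, zpow_mul, zpow_natCast, zpow_mul, zpow_natCast]
    _ = (c ^ x * b ^ y) ^ p := by
        rw [hc, mul_pow, ← zpow_natCast c p, ← zpow_natCast (c ^ x) p, ← zpow_mul, ← zpow_mul,
          mul_comm (p : ℤ)]

/-- locally constant cocycles for the cyclotomic character -/
theorem base_cyc (hK : IsBase p K) (P : Ideal (𝓞 Ω)) [P.IsPrime] (hP : (p : 𝓞 Ω) ∈ P)
    {ζ : Ω} (hζ : IsPrimitiveRoot ζ p) (ω : (Ω ≃ₐ[K] Ω) →* ZMod p)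
    (hω : ∀ σ, σ ζ = ζ ^ (ω σ).val)
    (c : (Ω ≃ₐ[K] Ω) → ZMod p) (hc : ∀ σ τ, c (σ * τ) = c σ + ω σ * c τ)
    (hD : ∀ σ ∈ MulAction.stabilizer (Ω ≃ₐ[K] Ω) P, c σ = 0)
    (hI : ∀ Q : Ideal (𝓞 Ω), Q.IsPrime → (p : 𝓞 Ω) ∉ Q → ∀ σ ∈ Q.inertia (Ω ≃ₐ[K] Ω), c σ = 0)
    (hV : ∃ V : Subgroup (Ω ≃ₐ[K] Ω), IsOpen (V : Set (Ω ≃ₐ[K] Ω)) ∧
      ∀ σ, ∀ v ∈ V, c (σ * v) = c σ) (σ : Ω ≃ₐ[K] Ω) : c σ = 0 := by
  have hp : p.Prime := Fact.out
  have hz : ζ ^ p = 1 := hζ.pow_eq_one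
  obtain ⟨v, hv, hpv⟩ := exists_place (K := K) P hP
  obtain ⟨v', hb⟩ := base_data hK hpv
  -- powers of `ζ`
  have hval : ∀ n : ℕ, ζ ^ (n : ZMod p).val = ζ ^ n := by
    intro n
    rw [ZMod.val_natCast, ← pow_eq_pow_mod n hz]
  have hadd : ∀ x y : ZMod p, ζ ^ (x + y).val = ζ ^ x.val * ζ ^ y.val := by
    intro x y
    rw [← pow_add, ← hval (x.val + y.val)]
    congr 2
    push_cast
    rw [ZMod.natCast_zmod_val, ZMod.natCast_zmod_val]
  have hmul : ∀ x y : ZMod p, ζ ^ (x * y).val = (ζ ^ x.val) ^ y.val := by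
    intro x y
    rw [← pow_mul, ← hval (x.val * y.val)]
    congr 2
    push_cast
    rw [ZMod.natCast_zmod_val, ZMod.natCast_zmod_val]
  have hinj : ∀ x y : ZMod p, ζ ^ x.val = ζ ^ y.val → x = y := by
    intro x y h
    have := hζ.pow_inj (ZMod.val_lt x) (ZMod.val_lt y) h
    exact ZMod.val_injective p this
  have hact : ∀ (σ : Ω ≃ₐ[K] Ω) (x : ZMod p), σ (ζ ^ x.val) = ζ ^ (ω σ * x).val := by
    intro σ x
    rw [map_pow, hω, hmul]
  have hζ0 : ζ ≠ 0 := hζ.ne_zero hp.ne_zero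
  obtain ⟨β, hβ0, hβ⟩ := exists_root_of_cocycle (K := K) (fun σ => ζ ^ (c σ).val)
    (fun σ => pow_ne_zero _ hζ0) (by
      intro σ τ
      show ζ ^ (c (σ * τ)).val = ζ ^ (c σ).val * σ (ζ ^ (c τ).val)
      rw [hact, hc, hadd]) (by
      obtain ⟨V, hV, hV'⟩ := hV
      exact ⟨V, hV, fun σ v hv => by
        show ζ ^ (c (σ * v)).val = ζ ^ (c σ).val
        rw [hV' σ v hv]⟩)
  have hβσ : ∀ σ : Ω ≃ₐ[K] Ω, σ β = ζ ^ (c σ).val * β := by
    intro σ
    have : ζ ^ (c σ).val = σ β / β := hβ σ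
    rw [this, div_mul_cancel₀ _ hβ0]
  -- the `p`-th power of `β` is in `K`
  obtain ⟨b₀, hb₀⟩ : ∃ b₀ : K, algebraMap K Ω b₀ = β ^ p := by
    refine (InfiniteGalois.mem_range_algebraMap_iff_fixed (β ^ p)).2 ?_
    intro σ
    rw [map_pow, hβσ, mul_pow, ← pow_mul, mul_comm (c σ).val, pow_mul, hz, one_pow, one_mul]
  have hb0 : b₀ ≠ 0 := by
    rintro rfl
    rw [map_zero] at hb₀
    exact hβ0 ((pow_eq_zero_iff hp.ne_zero).1 hb₀.symm)
  have hfixD : ∀ σ ∈ MulAction.stabilizer (Ω ≃ₐ[K] Ω) P, σ β = β := by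
    intro σ hσ
    rw [hβσ, hD σ hσ, ZMod.val_zero, pow_zero, one_mul]
  set b : Kˣ := Units.mk0 b₀ hb0 with hbdef
  -- the approximation at `v`
  obtain ⟨z, hz1⟩ := exists_approx P v hv hb₀.symm hfixD (v.valuation K b₀ * exp (-2 : ℤ))
    (mul_ne_zero ((v.valuation K).ne_zero_iff.2 hb0) exp_ne_zero)
  have hlt : v.valuation K b₀ * exp (-2 : ℤ) < v.valuation K b₀ := by
    calc v.valuation K b₀ * exp (-2 : ℤ) < v.valuation K b₀ * 1 := by
          refine mul_lt_mul_of_pos_left ?_ (zero_lt_iff.2 ((v.valuation K).ne_zero_iff.2 hb0))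
          rw [← exp_zero, exp_lt_exp]; norm_num
      _ = _ := mul_one _
  have hzv : v.valuation K (z ^ p) = v.valuation K b₀ := by
    have e : z ^ p = b₀ - (b₀ - z ^ p) := by ring
    rw [e, Valuation.map_sub_eq_of_lt_left]
    exact hz1.trans hlt
  have hz0 : z ≠ 0 := by
    rintro rfl
    rw [zero_pow hp.ne_zero, map_zero] at hzv
    exact (v.valuation K).ne_zero_iff.2 hb0 hzv.symm
  have hSU : b / Units.mk0 z hz0 ^ p ∈ SU v := by
    rw [mem_SU, Units.val_div_eq_div_val, Units.val_pow_eq_pow_val, Units.val_mk0, Units.val_mk0]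
    have e : b₀ / z ^ p - 1 = (b₀ - z ^ p) / z ^ p := by
      field_simp
    rw [e, map_div₀, hzv]
    have hpos : 0 < v.valuation K b₀ := zero_lt_iff.2 ((v.valuation K).ne_zero_iff.2 hb0)
    rw [div_le_iff₀ hpos, mul_comm]
    exact hz1.le
  have hord : ∀ u : HeightOneSpectrum (𝓞 K), u ≠ v' → (p : ℤ) ∣ ordU u b := by
    intro u hu
    by_cases huv : u = v
    · rw [huv]
      have h1 := exp_ordU v b
      rw [hbdef, Units.val_mk0, ← hzv] at h1
      have h2 := exp_ordU v (Units.mk0 z hz0 ^ p)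
      rw [Units.val_pow_eq_pow_val, Units.val_mk0, ← h1, exp_inj, ordU_pow] at h2
      rw [hbdef, ← h2]
      exact dvd_mul_right _ _
    · have hpu : (p : 𝓞 K) ∉ u.asIdeal := by
        intro h
        rcases hb.only u h with h | h
        · exact huv h
        · exact hu h
      have hmax : u.asIdeal.IsMaximal := u.isMaximal
      have hint : Algebra.IsIntegral (𝓞 K) (𝓞 Ω) := by
        constructor
        intro x
        exact (RingOfIntegers.isIntegral x).tower_top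
      obtain ⟨Q, hQm, hQv⟩ := Ideal.exists_maximal_ideal_liesOver_of_isIntegral (S := 𝓞 Ω) u.asIdeal
      have hQ : Q.IsPrime := hQm.isPrime
      have hQc : Q.comap (algebraMap (𝓞 K) (𝓞 Ω)) = u.asIdeal := hQv.over.symm
      have hpQ : (p : 𝓞 Ω) ∉ Q := by
        intro h
        apply hpu
        rw [← hQc, Ideal.mem_comap, map_natCast]
        exact h
      obtain ⟨j, hj⟩ := valuation_of_inertia Q u hQc hb0 hb₀.symm (by
        intro σ hσ
        rw [hβσ, hI Q hQ hpQ σ hσ, ZMod.val_zero, pow_zero, one_mul])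
      rw [ordU, hbdef, Units.val_mk0, hj, log_exp]
      exact dvd_mul_right _ _
  obtain ⟨d, hd⟩ := exists_pow_of_local hK hb b _ hord hSU
  -- `β` is a root of unity times an element of `K`
  have hβd : (β / algebraMap K Ω (d : K)) ^ p = 1 := by
    rw [div_pow, ← map_pow, ← Units.val_pow_eq_pow_val, ← hd, hbdef, Units.val_mk0, hb₀,
      div_self (pow_ne_zero _ hβ0)]
  obtain ⟨i, hi, hi'⟩ := hζ.eq_pow_of_pow_eq_one hβd
  have hd0 : algebraMap K Ω (d : K) ≠ 0 := (map_ne_zero (algebraMap K Ω)).2 d.ne_zero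
  have hβi : β = ζ ^ (i : ZMod p).val * algebraMap K Ω (d : K) := by
    rw [hval, hi', div_mul_cancel₀ _ hd0]
  have hcob : ∀ σ : Ω ≃ₐ[K] Ω, c σ + (i : ZMod p) = ω σ * (i : ZMod p) := by
    intro σ
    apply hinj
    rw [hadd, ← hact]
    have h1 := hβσ σ
    rw [hβi, map_mul, AlgEquiv.commutes, ← mul_assoc] at h1
    exact (mul_right_cancel₀ hd0 h1).symm
  obtain ⟨σ₀, hσ₀, hne⟩ := exists_ne_root hK.odd P hv hb.hpv hζ
  have h2 := hcob σ₀
  rw [hD σ₀ hσ₀, zero_add] at h2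
  have h3 : (i : ZMod p) = 0 := by
    have h4 : (ω σ₀ - 1) * (i : ZMod p) = 0 := by linear_combination -h2
    rcases mul_eq_zero.1 h4 with h | h
    · exfalso
      apply hne
      rw [hω, sub_eq_zero.1 h, ZMod.val_one'' hp.ne_one, pow_one]
    · exact h
  have h5 := hcob σ
  rwa [h3, mul_zero, add_zero] at h5

end Pool.Agent.Work.MP_787500_nt.OddP
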