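import Mathlib

/-!
Group theory for the tower: a Frattini argument and the climbing lemma for cocycles with values in
`ZMod p`.
-/

set_option autoImplicit false

namespace Pool.Agent.Work.MP_787500_nt.OddP

theorem frattini {G : Type*} [Group G] {p : ℕ} [Fact p.Prime] (U : Subgroup G) [U.Normal]
    [Finite (G ⧸ U)] (hpow : ∀ g : G, ∃ k : ℕ, g ^ (p ^ k) ∈ U) (D : Subgroup G)
    (h : ∀ N : Subgroup G, N.Normal → U ≤ N → N.index = p → D ≤ N → False) (g : G) :
    ∃ d ∈ D, d⁻¹ * g ∈ U := by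
  have hp : p.Prime := Fact.out
  have hP : IsPGroup p (G ⧸ U) := by
    intro x
    obtain ⟨g, rfl⟩ := QuotientGroup.mk_surjective x
    obtain ⟨k, hk⟩ := hpow g
    exact ⟨k, by rw [← QuotientGroup.mk_pow, QuotientGroup.eq_one_iff]; exact hk⟩
  obtain ⟨m, hm⟩ := IsPGroup.iff_card.1 hP
  let π := QuotientGroup.mk' U
  let E := D.map π
  obtain ⟨n, hnm, hn⟩ := (Nat.dvd_prime_pow hp).1 (hm ▸ Subgroup.card_subgroup_dvd_card E)
  have hEtop : E = ⊤ := by
    by_contra hE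
    have hlt : n < m := by
      rcases lt_or_eq_of_le hnm with h' | h'
      · exact h'
      · exfalso
        apply hE
        rw [← Subgroup.card_eq_iff_eq_top, hn, hm, h']
    obtain ⟨K, hK, hEK⟩ := Sylow.exists_subgroup_card_pow_prime_le (p := p) (n := n) (m := m - 1)
      (by rw [hm]; exact pow_dvd_pow p (by omega)) E hn (by omega)
    have hidx : K.index = p := by
      have h3 := K.card_mul_index
      rw [hm, hK] at h3
      have h4 : p ^ m = p ^ (m - 1) * p := by rw [← pow_succ]; congr 1; omega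
      rw [h4] at h3
      exact Nat.eq_of_mul_eq_mul_left (pow_pos hp.pos _) h3
    have hKn : K.Normal := by
      apply Subgroup.normal_of_index_eq_minFac_card
      rw [hidx, hm, hp.pow_minFac (by omega)]
    refine h (K.comap π) (hKn.comap π) ?_ ?_ ?_
    · intro u hu
      rw [Subgroup.mem_comap]
      have : π u = 1 := (QuotientGroup.eq_one_iff u).2 hu
      rw [this]
      exact K.one_mem
    · rw [Subgroup.index_comap_of_surjective _ (QuotientGroup.mk'_surjective U), hidx]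
    · exact fun σ hσ => hEK ⟨σ, hσ, rfl⟩
  have hg : π g ∈ E := by rw [hEtop]; trivial
  obtain ⟨δ, hδ, hδg⟩ := hg
  refine ⟨δ, hδ, ?_⟩
  exact QuotientGroup.eq.1 hδg

section climb

variable {G : Type*} [Group G] {p : ℕ} [Fact p.Prime]

/-- Cocycles on `U`, extended by zero, with local conditions. -/
def cocU (U V D : Subgroup G) (I : Set G) (ω : G →* ZMod p) : AddSubgroup (G → ZMod p) where
  carrier := {f | (∀ g ∉ U, f g = 0) ∧ (∀ u ∈ U, ∀ v ∈ U, f (u * v) = f u + ω u * f v) ∧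
    (∀ u ∈ U, u ∈ D → f u = 0) ∧ (∀ u ∈ I, f u = 0) ∧ ∀ g, ∀ v ∈ V, f (g * v) = f g}
  zero_mem' := by
    refine ⟨fun _ _ => rfl, fun u _ v _ => ?_, fun _ _ _ => rfl, fun _ _ => rfl, fun _ _ _ => rfl⟩
    simp
  add_mem' := by
    rintro a b ⟨ha1, ha2, ha3, ha4, ha5⟩ ⟨hb1, hb2, hb3, hb4, hb5⟩
    refine ⟨fun g hg => ?_, fun u hu v hv => ?_, fun u hu hd => ?_, fun u hu => ?_, fun g v hv => ?_⟩
    · simp [ha1 g hg, hb1 g hg]
    · simp only [Pi.add_apply]
      rw [ha2 u hu v hv, hb2 u hu v hv]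
      ring
    · simp [ha3 u hu hd, hb3 u hu hd]
    · simp [ha4 u hu, hb4 u hu]
    · simp [ha5 g v hv, hb5 g v hv]
  neg_mem' := by
    rintro a ⟨ha1, ha2, ha3, ha4, ha5⟩
    refine ⟨fun g hg => ?_, fun u hu v hv => ?_, fun u hu hd => ?_, fun u hu => ?_, fun g v hv => ?_⟩
    · simp [ha1 g hg]
    · simp only [Pi.neg_apply]
      rw [ha2 u hu v hv]
      ring
    · simp [ha3 u hu hd]
    · simp [ha4 u hu]
    · simp [ha5 g v hv]

theorem omega_mul_inv (ω : G →* ZMod p) (g : G) : ω g * ω g⁻¹ = 1 := by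
  rw [← map_mul, mul_inv_cancel, map_one]

theorem omega_conj (ω : G →* ZMod p) (d u : G) : ω (d⁻¹ * u * d) = ω u := by
  rw [map_mul, map_mul]
  have := omega_mul_inv ω d
  calc ω d⁻¹ * ω u * ω d = (ω d * ω d⁻¹) * ω u := by ring
    _ = ω u := by rw [this, one_mul]

/-- the action of `D` -/
def actD (ω : G →* ZMod p) (d : G) (f : G → ZMod p) : G → ZMod p :=
  fun g => ω d * f (d⁻¹ * g * d)

theorem actD_mem (U V D : Subgroup G) [U.Normal] [V.Normal] (I : Set G)
    (hI : ∀ g : G, ∀ x ∈ I, g * x * g⁻¹ ∈ I) (ω : G →* ZMod p) (d : G) (hd : d ∈ D)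
    {f : G → ZMod p} (hf : f ∈ cocU U V D I ω) : actD ω d f ∈ cocU U V D I ω := by
  obtain ⟨h1, h2, h3, h4, h5⟩ := hf
  have hU : ∀ u, u ∈ U → d⁻¹ * u * d ∈ U := fun u hu => by
    have := Subgroup.Normal.conj_mem (inferInstance : U.Normal) u hu d⁻¹
    rwa [inv_inv] at this
  refine ⟨fun g hg => ?_, fun u hu v hv => ?_, fun u hu hd' => ?_, fun u hu => ?_, fun g v hv => ?_⟩
  · unfold actD
    rw [h1, mul_zero]
    intro h
    apply hg
    have := Subgroup.Normal.conj_mem (inferInstance : U.Normal) _ h d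
    simpa [mul_assoc] using this
  · unfold actD
    have e : d⁻¹ * (u * v) * d = (d⁻¹ * u * d) * (d⁻¹ * v * d) := by group
    rw [e, h2 _ (hU u hu) _ (hU v hv), omega_conj]
    ring
  · unfold actD
    rw [h3 _ (hU u hu) (D.mul_mem (D.mul_mem (D.inv_mem hd) hd') hd), mul_zero]
  · unfold actD
    have := hI d⁻¹ u hu
    rw [inv_inv] at this
    rw [h4 _ this, mul_zero]
  · unfold actD
    have e : d⁻¹ * (g * v) * d = (d⁻¹ * g * d) * (d⁻¹ * v * d) := by group
    have hV : d⁻¹ * v * d ∈ V := by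
      have := Subgroup.Normal.conj_mem (inferInstance : V.Normal) v hv d⁻¹
      rwa [inv_inv] at this
    rw [e, h5 _ _ hV]

/-- the action of `D` on the cocycles -/
@[reducible] def mulActD (U V D : Subgroup G) [U.Normal] [V.Normal] (I : Set G)
    (hI : ∀ g : G, ∀ x ∈ I, g * x * g⁻¹ ∈ I) (ω : G →* ZMod p) :
    MulAction D (cocU U V D I ω) where
  smul d f := ⟨actD ω d.1 f.1, actD_mem U V D I hI ω d.1 d.2 f.2⟩
  one_smul f := by
    apply Subtype.ext
    funext g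
    show ω 1 * f.1 ((1 : G)⁻¹ * g * 1) = f.1 g
    simp
  mul_smul a b f := by
    apply Subtype.ext
    funext g
    show ω (a.1 * b.1) * f.1 ((a.1 * b.1)⁻¹ * g * (a.1 * b.1)) =
      ω a.1 * (ω b.1 * f.1 (b.1⁻¹ * (a.1⁻¹ * g * a.1) * b.1))
    rw [map_mul, mul_assoc]
    congr 3
    group

theorem finite_cocU (U V D : Subgroup G) [Finite (G ⧸ V)] (I : Set G) (ω : G →* ZMod p) :
    Finite (cocU U V D I ω) := by
  have : Finite (G ⧸ V → ZMod p) := Pi.finite
  refine Finite.of_injective (β := G ⧸ V → ZMod p) (fun f q => f.1 q.out) ?_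
  intro f f' h
  apply Subtype.ext
  funext g
  have h1 := congrFun h (QuotientGroup.mk g)
  simp only at h1
  have h2 : ((QuotientGroup.mk g : G ⧸ V).out)⁻¹ * g ∈ V := by
    rw [← QuotientGroup.eq]
    exact Quotient.out_eq _
  have h3 : g = (QuotientGroup.mk g : G ⧸ V).out * (((QuotientGroup.mk g : G ⧸ V).out)⁻¹ * g) := by
    group
  rw [h3, f.2.2.2.2.2 _ _ h2, f'.2.2.2.2.2 _ _ h2]
  exact h1

/-- The key lemma: no nonzero cocycles on `U`. -/
theorem cocU_eq_zero (U V D : Subgroup G) [U.Normal] [V.Normal] (hVU : V ≤ U) [Finite (G ⧸ V)]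
    (I : Set G) (hI : ∀ g : G, ∀ x ∈ I, g * x * g⁻¹ ∈ I) (hIU : I ⊆ (U : Set G))
    (hpow : ∀ g : G, ∃ k : ℕ, g ^ (p ^ k) ∈ U) (hDU : ∀ g : G, ∃ d ∈ D, d⁻¹ * g ∈ U)
    (ω : G →* ZMod p)
    (hbase : ∀ c : G → ZMod p, (∀ σ τ, c (σ * τ) = c σ + ω σ * c τ) → (∀ σ ∈ D, c σ = 0) →
      (∀ σ ∈ I, c σ = 0) → (∀ σ, ∀ v ∈ V, c (σ * v) = c σ) → ∀ σ, c σ = 0)
    (f : G → ZMod p) (hf : f ∈ cocU U V D I ω) : f = 0 := by
  classical
  by_contra hne
  let _ := mulActD U V D I hI ω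
  have hfin := finite_cocU U V D I ω
  have hp : p.Prime := Fact.out
  -- the group of permutations
  let R := (MulAction.toPermHom D (cocU U V D I ω)).range
  have hR : IsPGroup p R := by
    rintro ⟨_, d, rfl⟩
    obtain ⟨k, hk⟩ := hpow d.1
    refine ⟨k, ?_⟩
    apply Subtype.ext
    show (MulAction.toPermHom D (cocU U V D I ω) d) ^ p ^ k = 1
    rw [← map_pow]
    apply Equiv.ext
    intro x
    show (d ^ p ^ k) • x = x
    apply Subtype.ext
    funext g
    obtain ⟨e, he⟩ : ∃ e : D, e = d ^ p ^ k := ⟨_, rfl⟩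
    rw [← he]
    have heU : e.1 ∈ U := by
      rw [he]
      exact_mod_cast hk
    show ω e.1 * x.1 (e.1⁻¹ * g * e.1) = x.1 g
    obtain ⟨h1, h2, h3, h4, h5⟩ := x.2
    by_cases hg : g ∈ U
    · rw [h2 _ (U.mul_mem (U.inv_mem heU) hg) _ heU, h2 _ (U.inv_mem heU) _ hg,
        h3 _ heU e.2, h3 _ (U.inv_mem heU) (D.inv_mem e.2), mul_zero, add_zero, zero_add,
        ← mul_assoc, omega_mul_inv, one_mul]
    · rw [h1 g hg, h1, mul_zero]
      intro h
      apply hg
      have := Subgroup.Normal.conj_mem (inferInstance : U.Normal) _ h e.1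
      simpa [mul_assoc] using this
  -- p divides the cardinality
  have hcard : p ∣ Nat.card (cocU U V D I ω) := by
    have h1 : addOrderOf (⟨f, hf⟩ : cocU U V D I ω) = p := by
      apply addOrderOf_eq_prime
      · apply Subtype.ext
        funext g
        show (p • f) g = 0
        rw [Pi.smul_apply, nsmul_eq_mul, ZMod.natCast_self, zero_mul]
      · intro h
        exact hne (congrArg Subtype.val h)
    have h2 := addOrderOf_dvd_natCard (⟨f, hf⟩ : cocU U V D I ω)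
    rwa [h1] at h2
  obtain ⟨x, hx, hx0⟩ := hR.exists_fixed_point_of_prime_dvd_card_of_fixed_point
    (cocU U V D I ω) hcard (a := 0) (by
      rintro ⟨_, d, rfl⟩
      apply Subtype.ext
      funext g
      show ω d.1 * (0 : ZMod p) = 0
      rw [mul_zero])
  have hfix : ∀ d ∈ D, ∀ g, ω d * x.1 (d⁻¹ * g * d) = x.1 g := by
    intro d hd g
    have h1 := hx ⟨_, ⟨d, hd⟩, rfl⟩
    exact congrFun (congrArg Subtype.val h1) g
  obtain ⟨h1, h2, h3, h4, h5⟩ := x.2
  choose δ hδ hδU using hDU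
  -- the extension
  have hone : x.1 1 = 0 := h3 1 U.one_mem D.one_mem
  let c : G → ZMod p := fun g => ω (δ g) * x.1 ((δ g)⁻¹ * g)
  have hc : ∀ d ∈ D, ∀ u ∈ U, c (d * u) = ω d * x.1 u := by
    intro d hd u hu
    show ω (δ (d * u)) * x.1 ((δ (d * u))⁻¹ * (d * u)) = ω d * x.1 u
    obtain ⟨e, he⟩ : ∃ e, e = d⁻¹ * δ (d * u) := ⟨_, rfl⟩
    have he1 : δ (d * u) = d * e := by rw [he]; group
    have heD : e ∈ D := by rw [he]; exact D.mul_mem (D.inv_mem hd) (hδ _)
    have h6 := hδU (d * u)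
    rw [he1] at h6 ⊢
    have e2 : (d * e)⁻¹ * (d * u) = e⁻¹ * u := by group
    rw [e2] at h6 ⊢
    have heU : e⁻¹ ∈ U := by
      have := U.mul_mem h6 (U.inv_mem hu)
      simpa [mul_assoc] using this
    rw [h2 _ heU _ hu, h3 _ heU (D.inv_mem heD), zero_add, map_mul, mul_assoc, ← mul_assoc (ω e),
      omega_mul_inv, one_mul]
  have hdec : ∀ g, ∃ d ∈ D, ∃ u ∈ U, g = d * u := fun g =>
    ⟨δ g, hδ g, (δ g)⁻¹ * g, hδU g, by group⟩
  have hc0 : ∀ σ, c σ = 0 := by
    apply hbase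
    · intro σ τ
      obtain ⟨d, hd, u, hu, rfl⟩ := hdec σ
      obtain ⟨d', hd', u', hu', rfl⟩ := hdec τ
      have e : d * u * (d' * u') = (d * d') * ((d'⁻¹ * u * d') * u') := by group
      have hcu : d'⁻¹ * u * d' ∈ U := by
        have := Subgroup.Normal.conj_mem (inferInstance : U.Normal) u hu d'⁻¹
        rwa [inv_inv] at this
      rw [e, hc _ (D.mul_mem hd hd') _ (U.mul_mem hcu hu'), hc d hd u hu, hc d' hd' u' hu',
        h2 _ hcu _ hu', omega_conj, map_mul, map_mul]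
      have := hfix d' hd' u
      calc ω d * ω d' * (x.1 (d'⁻¹ * u * d') + ω u * x.1 u') =
          ω d * (ω d' * x.1 (d'⁻¹ * u * d')) + ω d * ω u * (ω d' * x.1 u') := by ring
        _ = _ := by rw [this]
    · intro σ hσ
      have := hc σ hσ 1 U.one_mem
      rw [mul_one, hone, mul_zero] at this
      exact this
    · intro σ hσ
      have := hc 1 D.one_mem σ (hIU hσ)
      rw [one_mul, map_one, one_mul, h4 σ hσ] at this
      exact this
    · intro σ v hv
      obtain ⟨d, hd, u, hu, rfl⟩ := hdec σ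
      rw [mul_assoc, hc d hd _ (U.mul_mem hu (hVU hv)), hc d hd u hu, h5 u v hv]
  apply hx0
  apply Subtype.ext
  funext g
  show (0 : ZMod p) = x.1 g
  by_cases hg : g ∈ U
  · have := hc 1 D.one_mem g hg
    rw [one_mul, map_one, one_mul, hc0] at this
    exact this
  · exact (h1 g hg).symm

end climb

theorem climb {G H : Type*} [Group G] [TopologicalSpace G] [IsTopologicalGroup G] [CompactSpace G]
    [Group H] {p : ℕ} [Fact p.Prime] (j : H →* G) (hj : Function.Injective j) (U : Subgroup G)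
    [U.Normal] (hU : IsOpen (U : Set G)) (hUj : U ≤ j.range) (D : Subgroup G) (I : Set G)
    (hI : ∀ g : G, ∀ x ∈ I, g * x * g⁻¹ ∈ I) (hIU : I ⊆ (U : Set G))
    (hpow : ∀ g : G, ∃ k : ℕ, g ^ (p ^ k) ∈ U) (hDU : ∀ g : G, ∃ d ∈ D, d⁻¹ * g ∈ U)
    (ω : G →* ZMod p)
    (hbase : ∀ c : G → ZMod p, (∀ σ τ, c (σ * τ) = c σ + ω σ * c τ) → (∀ σ ∈ D, c σ = 0) →
      (∀ σ ∈ I, c σ = 0) → (∃ V : Subgroup G, IsOpen (V : Set G) ∧
        ∀ σ, ∀ v ∈ V, c (σ * v) = c σ) → ∀ σ, c σ = 0)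
    (c : H → ZMod p) (hc : ∀ σ τ, c (σ * τ) = c σ + ω (j σ) * c τ)
    (hcD : ∀ σ, j σ ∈ D → c σ = 0) (hcI : ∀ σ, j σ ∈ I → c σ = 0)
    (hcV : ∃ V : Subgroup G, IsOpen (V : Set G) ∧ ∀ σ v, j v ∈ V → c (σ * v) = c σ) :
    ∀ σ, c σ = 0 := by
  classical
  obtain ⟨V₀, hV₀, hcV⟩ := hcV
  have hWo : IsOpen ((V₀ ⊓ U : Subgroup G) : Set G) := hV₀.inter hU
  let W : OpenSubgroup G := ⟨V₀ ⊓ U, hWo⟩
  have hWf : Finite (G ⧸ (V₀ ⊓ U)) := Subgroup.quotient_finite_of_isOpen _ hWo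
  have hWfi : (V₀ ⊓ U).FiniteIndex := Subgroup.finiteIndex_of_finite_quotient
  let V := (V₀ ⊓ U).normalCore
  have hVo : IsOpen (V : Set G) := Subgroup.isOpen_of_isClosed_of_finiteIndex _
    ((V₀ ⊓ U).normalCore_isClosed W.isClosed)
  have hVfin : Finite (G ⧸ V) := Subgroup.quotient_finite_of_isOpen _ hVo
  have hVle : V ≤ V₀ ⊓ U := Subgroup.normalCore_le _
  -- the restriction to U
  let f : G → ZMod p := fun g => if h : g ∈ U then c (hUj h).choose else 0
  have hfj : ∀ h : H, j h ∈ U → f (j h) = c h := by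
    intro h hh
    show (if h' : j h ∈ U then c (hUj h').choose else 0) = c h
    rw [dif_pos hh]
    congr 1
    apply hj
    exact (hUj hh).choose_spec
  have hf : f ∈ cocU U V D I ω := by
    refine ⟨fun g hg => ?_, fun u hu v hv => ?_, fun u hu hd => ?_, fun u hu => ?_, fun g v hv => ?_⟩
    · show (if h' : g ∈ U then c (hUj h').choose else 0) = 0
      rw [dif_neg hg]
    · obtain ⟨a, rfl⟩ := hUj hu
      obtain ⟨b, rfl⟩ := hUj hv
      rw [← map_mul, hfj _ (by rw [map_mul]; exact U.mul_mem hu hv), hfj a hu, hfj b hv, hc]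
    · obtain ⟨a, rfl⟩ := hUj hu
      rw [hfj a hu, hcD a hd]
    · obtain ⟨a, rfl⟩ := hUj (hIU hu)
      rw [hfj a (hIU hu), hcI a hu]
    · have hvU : v ∈ U := (hVle hv).2
      have hvV : v ∈ V₀ := (hVle hv).1
      obtain ⟨b, rfl⟩ := hUj hvU
      by_cases hg : g ∈ U
      · obtain ⟨a, rfl⟩ := hUj hg
        rw [← map_mul, hfj _ (by rw [map_mul]; exact U.mul_mem hg hvU), hfj a hg, hcV a b hvV]
      · show (if h' : g * j b ∈ U then c (hUj h').choose else 0) =
          (if h' : g ∈ U then c (hUj h').choose else 0)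
        rw [dif_neg hg, dif_neg]
        intro h
        apply hg
        have := U.mul_mem h (U.inv_mem hvU)
        simpa [mul_assoc] using this
  have hf0 := cocU_eq_zero U V D (hVle.trans inf_le_right) I hI hIU hpow hDU ω
    (fun c h1 h2 h3 h4 => hbase c h1 h2 h3 ⟨V, hVo, h4⟩) f hf
  intro σ
  obtain ⟨d, hd, hdu⟩ := hDU (j σ)
  obtain ⟨b, hb⟩ := hUj hdu
  have h1 : σ = (σ * b⁻¹) * b := by group
  have h2 : j (σ * b⁻¹) = d := by
    rw [map_mul, map_inv, hb]
    group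
  rw [h1, hc, hcD _ (by rw [h2]; exact hd)]
  have h3 : c b = 0 := by
    rw [← hfj b (by rw [hb]; exact hdu), hf0]
    rfl
  rw [h3, mul_zero, add_zero]

end Pool.Agent.Work.MP_787500_nt.OddP
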