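import Mathlib
import Pool.Agent.Work.MP_787500_nt.H10_Tower
import Pool.Agent.Work.MP_787500_nt.H67_BaseB
import Pool.Agent.Work.MP_787500_nt.H67_Climb
import Pool.Agent.Work.MP_787500_nt.H67_Coh

/-!
From the base field to the fields of the tower.
-/

set_option autoImplicit false
set_option linter.unusedSectionVars false

namespace Pool.Agent.Work.MP_787500_nt.OddP

open WithZero IsDedekindDomain NumberField Gen
open scoped Pointwise

universe u

section fix

variable {K L Ω : Type*} [Field K] [NumberField K] [Field L] [NumberField L] [Algebra K L]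
  [IsGalois K L] [Field Ω] [Algebra K Ω] [Algebra L Ω] [IsScalarTower K L Ω] [IsGalois K Ω]

/-- inertia groups away from `p` act trivially on an extension unramified away from `p` -/
theorem fix_of_inertia {p : ℕ} (hunr : ∀ Q : HeightOneSpectrum (𝓞 L), (p : 𝓞 L) ∉ Q.asIdeal →
      Algebra.IsUnramifiedAt (𝓞 K) Q.asIdeal) (Q' : Ideal (𝓞 Ω)) [Q'.IsPrime]
    (hQ' : (p : 𝓞 Ω) ∉ Q') {σ : Ω ≃ₐ[K] Ω} (hσ : σ ∈ Q'.inertia (Ω ≃ₐ[K] Ω)) (x : L) :
    σ (algebraMap L Ω x) = algebraMap L Ω x := by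
  by_cases hbot : Q' = ⊥
  · subst hbot
    rw [eq_one_of_inertia_bot hσ]
    rfl
  · have hintK : Algebra.IsAlgebraic L Ω := Algebra.IsAlgebraic.tower_top (K := K) L
    have hint : Algebra.IsIntegral (𝓞 L) (𝓞 Ω) := by
      constructor
      intro x
      exact (RingOfIntegers.isIntegral x).tower_top
    have hne : Q'.comap (algebraMap (𝓞 L) (𝓞 Ω)) ≠ ⊥ := fun h =>
      hbot (Ideal.eq_bot_of_comap_eq_bot h)
    let Q : HeightOneSpectrum (𝓞 L) := ⟨_, inferInstance, hne⟩
    have hpQ : (p : 𝓞 L) ∉ Q.asIdeal := by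
      intro h
      apply hQ'
      have h1 : algebraMap (𝓞 L) (𝓞 Ω) (p : 𝓞 L) ∈ Q' := h
      rwa [map_natCast] at h1
    let τ : L ≃ₐ[K] L := σ.restrictNormal L
    have hτ : ∀ y : L, algebraMap L Ω (τ y) = σ (algebraMap L Ω y) :=
      σ.restrictNormal_commutes L
    have hτI : τ ∈ Q.asIdeal.inertia (L ≃ₐ[K] L) := by
      intro y
      show algebraMap (𝓞 L) (𝓞 Ω) (τ • y - y) ∈ Q'
      have h1 : σ • algebraMap (𝓞 L) (𝓞 Ω) y - algebraMap (𝓞 L) (𝓞 Ω) y ∈ Q' :=
        hσ (algebraMap (𝓞 L) (𝓞 Ω) y)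
      have h2 : algebraMap (𝓞 L) (𝓞 Ω) (τ • y - y) =
          σ • algebraMap (𝓞 L) (𝓞 Ω) y - algebraMap (𝓞 L) (𝓞 Ω) y := by
        rw [map_sub]
        congr 1
        apply RingOfIntegers.ext
        exact hτ y
      rw [h2]
      exact h1
    have hfd : FiniteDimensional K L := Module.Finite.of_restrictScalars_finite ℚ K L
    have hcard : Nat.card (Q.asIdeal.inertia (L ≃ₐ[K] L)) = 1 := by
      obtain ⟨π, hπ⟩ := (below K Q).valuation_exists_uniformizer K
      have h1 := DEC.val_pow_card_inertia (K := K) (L ≃ₐ[K] L) Q π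
      rw [← valuation_below_of_unramified Q (hunr Q hpQ) π, hπ, ← exp_nsmul, exp_inj] at h1
      simpa using h1
    have h1 : τ = 1 := by
      have h2 := Subgroup.card_eq_one.1 hcard
      rw [h2] at hτI
      exact hτI
    rw [← hτ, h1]
    rfl

end fix

section tower

variable {p : ℕ} [Fact p.Prime] {K F : Type u} [Field K] [NumberField K] [Field F] [NumberField F]
  [Algebra K F]

theorem isGalois_closure : IsGalois K (AlgebraicClosure F) := by
  have h1 : Algebra.IsAlgebraic K F := inferInstance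
  have h2 : Algebra.IsAlgebraic K (AlgebraicClosure F) := Algebra.IsAlgebraic.trans K F _
  have h3 : Algebra.IsSeparable K (AlgebraicClosure F) := inferInstance
  have h4 : IsSepClosure K (AlgebraicClosure F) := ⟨inferInstance, h3⟩
  infer_instance

/-- restriction of scalars -/
noncomputable def jj (K F : Type u) [Field K] [Field F] [Algebra K F] :
    AbsGal F →* (AlgebraicClosure F ≃ₐ[K] AlgebraicClosure F) :=
  AlgEquiv.restrictScalarsHom K

theorem vanish_of_tower (hK : IsBase p K) (hF : InPTower p K F)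
    (P : Ideal (𝓞 (AlgebraicClosure F))) [P.IsPrime] (hP : (p : 𝓞 (AlgebraicClosure F)) ∈ P)
    (ω' : (AlgebraicClosure F ≃ₐ[K] AlgebraicClosure F) →* ZMod p)
    (hω' : ω' = 1 ∨ ∃ ζ : AlgebraicClosure F, IsPrimitiveRoot ζ p ∧ ∀ σ, σ ζ = ζ ^ (ω' σ).val)
    (ω : AbsGal F →* ZMod p) (hω : ∀ σ, ω σ = ω' (jj K F σ)) : Vanish p P ω := by
  have hp : p.Prime := Fact.out
  obtain ⟨L, _, _, _, _, _, hgal, ⟨m, hm⟩, hunr⟩ := hF
  have hG : IsGalois K (AlgebraicClosure F) := isGalois_closure
  let φ : L →ₐ[F] AlgebraicClosure F := IsAlgClosed.lift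
  let _ : Algebra L (AlgebraicClosure F) := φ.toRingHom.toAlgebra
  have hmap : ∀ x : L, algebraMap L (AlgebraicClosure F) x = φ x := fun _ => rfl
  have htow : IsScalarTower F L (AlgebraicClosure F) := by
    apply IsScalarTower.of_algebraMap_eq
    intro x
    rw [hmap, AlgHom.commutes]
  have htow2 : IsScalarTower K L (AlgebraicClosure F) := by
    apply IsScalarTower.of_algebraMap_eq
    intro x
    rw [IsScalarTower.algebraMap_apply K F L, ← IsScalarTower.algebraMap_apply F L,
      ← IsScalarTower.algebraMap_apply K F]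
  have hfd : FiniteDimensional K L := Module.Finite.of_restrictScalars_finite ℚ K L
  let G := AlgebraicClosure F ≃ₐ[K] AlgebraicClosure F
  let U : Subgroup G := (AlgEquiv.restrictNormalHom (F := K) (K₁ := AlgebraicClosure F) L).ker
  have hU : ∀ σ : G, σ ∈ U ↔ ∀ x : L, σ (algebraMap L _ x) = algebraMap L _ x := by
    intro σ
    rw [MonoidHom.mem_ker]
    have h1 : ∀ x : L, algebraMap L (AlgebraicClosure F)
        (AlgEquiv.restrictNormalHom (F := K) (K₁ := AlgebraicClosure F) L σ x) =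
          σ (algebraMap L _ x) := fun x => σ.restrictNormal_commutes L x
    constructor
    · intro h x
      rw [← h1, h]
      rfl
    · intro h
      ext x
      apply (algebraMap L (AlgebraicClosure F)).injective
      rw [h1, h]
      rfl
  have hUopen : IsOpen (U : Set G) := by
    let M : IntermediateField K (AlgebraicClosure F) :=
      (IsScalarTower.toAlgHom K L (AlgebraicClosure F)).fieldRange
    have hM : FiniteDimensional K M := LinearMap.finiteDimensional_range
      (IsScalarTower.toAlgHom K L (AlgebraicClosure F)).toLinearMap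
    refine Subgroup.isOpen_mono (H₁ := M.fixingSubgroup) ?_ M.fixingSubgroup_isOpen
    intro σ hσ
    rw [hU]
    intro x
    exact hσ ⟨algebraMap L _ x, x, rfl⟩
  have hj : Function.Injective (jj K F) := AlgEquiv.restrictScalarsHom_injective K
  have hUj : U ≤ (jj K F).range := by
    intro σ hσ
    rw [hU] at hσ
    refine ⟨AlgEquiv.ofRingEquiv (f := σ.toRingEquiv) ?_, ?_⟩
    · intro x
      have := hσ (algebraMap F L x)
      rw [← IsScalarTower.algebraMap_apply F L] at this
      exact this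
    · ext x
      rfl
  let D : Subgroup G := MulAction.stabilizer G P
  let I : Set G := {σ | ∃ Q : Ideal (𝓞 (AlgebraicClosure F)), Q.IsPrime ∧
    (p : 𝓞 (AlgebraicClosure F)) ∉ Q ∧ σ ∈ Q.inertia G}
  have hI : ∀ g : G, ∀ x ∈ I, g * x * g⁻¹ ∈ I := by
    rintro g x ⟨Q, hQ, hpQ, hx⟩
    refine ⟨g • Q, inferInstance, ?_, ?_⟩
    · intro h
      apply hpQ
      rw [Ideal.mem_pointwise_smul_iff_inv_smul_mem] at h
      have h1 : g⁻¹ • (p : 𝓞 (AlgebraicClosure F)) = p :=
        map_natCast (MulSemiringAction.toRingHom G (𝓞 (AlgebraicClosure F)) g⁻¹) p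
      rwa [h1] at h
    · have h1 : x ∈ (g⁻¹ • (g • Q)).inertia G := by rw [inv_smul_smul]; exact hx
      have h2 := conj_mem_inertia h1
      rwa [inv_inv] at h2
  have hIU : I ⊆ (U : Set G) := by
    rintro x ⟨Q, hQ, hpQ, hx⟩
    rw [SetLike.mem_coe, hU]
    exact fun y => fix_of_inertia hunr Q hpQ hx y
  have hpow : ∀ g : G, ∃ k : ℕ, g ^ (p ^ k) ∈ U := by
    intro g
    refine ⟨m, ?_⟩
    rw [MonoidHom.mem_ker, map_pow, ← hm, ← IsGalois.card_aut_eq_finrank]
    exact pow_card_eq_one'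
  have hfin : Finite (G ⧸ U) := Subgroup.quotient_finite_of_isOpen U hUopen
  have hDU : ∀ g : G, ∃ d ∈ D, d⁻¹ * g ∈ U := by
    intro g
    refine frattini U hpow D ?_ g
    intro N hN hUN hidx hDN
    exact base_index hK P hP N (Subgroup.isOpen_mono hUN hUopen) hidx hDN
      (fun Q hQ hpQ σ hσ => hUN (hIU ⟨Q, hQ, hpQ, hσ⟩))
  intro c hc ⟨V, hV, hcV⟩ hcD hcI
  refine climb (jj K F) hj U hUopen hUj D I hI hIU hpow hDU ω' ?_ c ?_ ?_ ?_ ?_
  · intro c hc hD hI hV σ
    rcases hω' with h | ⟨ζ, hζ, h⟩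
    · refine base_hom hK P hP c ?_ hD (fun Q hQ hpQ σ hσ => hI σ ⟨Q, hQ, hpQ, hσ⟩) hV σ
      intro σ τ
      rw [hc, h, MonoidHom.one_apply, one_mul]
    · exact base_cyc hK P hP hζ ω' h c hc hD (fun Q hQ hpQ σ hσ => hI σ ⟨Q, hQ, hpQ, hσ⟩) hV σ
  · intro σ τ
    rw [hc, hω]
  · intro σ hσ
    exact hcD σ hσ
  · rintro σ ⟨Q, hQ, hpQ, hσ⟩
    exact hcI Q hQ hpQ σ hσ
  · -- transfer of the open subgroup
    obtain ⟨E, hE, hEV⟩ := (krullTopology_mem_nhds_one_iff F (AlgebraicClosure F) _).1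
      (hV.mem_nhds V.one_mem)
    let E' : IntermediateField K (AlgebraicClosure F) := E.restrictScalars K
    have hfdF : FiniteDimensional K F := Module.Finite.of_restrictScalars_finite ℚ K F
    have hE' : FiniteDimensional K E' := by
      have : FiniteDimensional K E := Module.Finite.trans F E
      exact this
    refine ⟨E'.fixingSubgroup, E'.fixingSubgroup_isOpen, ?_⟩
    intro σ v hv
    apply hcV
    apply hEV
    intro x
    exact hv x

end tower

end Pool.Agent.Work.MP_787500_nt.OddP
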