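import Mathlib
import Pool.Agent.Work.MP_787500_nt.H67_Tower
import Pool.Agent.Work.MP_787500_nt.H67_Ord
import Pool.Agent.Work.MP_787500_nt.H67_Class

/-!
The vanishing for both characters over the fields of the tower.
-/

set_option autoImplicit false
set_option linter.unusedSectionVars false

namespace Pool.Agent.Work.MP_787500_nt.OddP

open IsDedekindDomain NumberField
open scoped Pointwise

universe u

variable {p : ℕ} [Fact p.Prime] {K F : Type u} [Field K] [NumberField K] [Field F] [NumberField F]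
  [Algebra K F]

theorem exists_primitive_root : ∃ ζ : AlgebraicClosure F, IsPrimitiveRoot ζ p := by
  have hp : p.Prime := Fact.out
  have : NeZero (p : AlgebraicClosure F) := ⟨by exact_mod_cast hp.ne_zero⟩
  exact HasEnoughRootsOfUnity.exists_primitiveRoot (AlgebraicClosure F) p

theorem vv_of_tower (hK : IsBase p K) (hF : InPTower p K F)
    (P : Ideal (𝓞 (AlgebraicClosure F))) [P.IsPrime] (hP : (p : 𝓞 (AlgebraicClosure F)) ∈ P) :
    Ord.VV p P := by
  have hp : p.Prime := Fact.out
  refine ⟨vanish_of_tower hK hF P hP 1 (Or.inl rfl) 1 (fun σ => rfl), ?_⟩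
  intro ω hω
  obtain ⟨ζ, hζ⟩ := exists_primitive_root (p := p) (F := F)
  have hne : NeZero (p : AlgebraicClosure F) := ⟨by exact_mod_cast hp.ne_zero⟩
  have hne' : NeZero p := ⟨hp.ne_zero⟩
  have hcard : Nat.card (rootsOfUnity p (AlgebraicClosure F)) = p :=
    HasEnoughRootsOfUnity.natCard_rootsOfUnity (AlgebraicClosure F) p
  let ω' : (AlgebraicClosure F ≃ₐ[K] AlgebraicClosure F) →* ZMod p :=
    { toFun := fun σ => ((modularCyclotomicCharacter (AlgebraicClosure F) hcard
        (σ : AlgebraicClosure F ≃+* AlgebraicClosure F) : (ZMod p)ˣ) : ZMod p)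
      map_one' := by
        have h1 : ((1 : AlgebraicClosure F ≃ₐ[K] AlgebraicClosure F) :
          AlgebraicClosure F ≃+* AlgebraicClosure F) = 1 := rfl
        rw [h1, map_one, Units.val_one]
      map_mul' := fun σ τ => by
        have h1 : ((σ * τ : AlgebraicClosure F ≃ₐ[K] AlgebraicClosure F) :
          AlgebraicClosure F ≃+* AlgebraicClosure F) =
          (σ : AlgebraicClosure F ≃+* AlgebraicClosure F) *
          (τ : AlgebraicClosure F ≃+* AlgebraicClosure F) := rfl
        rw [h1, map_mul, Units.val_mul] }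
  have hω' : ∀ σ : AlgebraicClosure F ≃ₐ[K] AlgebraicClosure F, σ ζ = ζ ^ (ω' σ).val := by
    intro σ
    have h1 := modularCyclotomicCharacter.spec (AlgebraicClosure F) hcard
      (σ : AlgebraicClosure F ≃+* AlgebraicClosure F) (t := hζ.toRootsOfUnity.1)
      hζ.toRootsOfUnity.2
    exact h1
  refine vanish_of_tower hK hF P hP ω' (Or.inr ⟨ζ, hζ, hω'⟩) ω ?_
  intro σ
  have h1 := hω σ ζ hζ.pow_eq_one
  have h2 := hω' (jj K F σ)
  have h3 : (jj K F σ) ζ = σ ζ := rfl
  rw [h3, h1] at h2
  exact ZMod.val_injective p (hζ.pow_inj (ZMod.val_lt _) (ZMod.val_lt _) h2)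

end Pool.Agent.Work.MP_787500_nt.OddP
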