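import Mathlib
import Pool.Agent.Work.MP_787500_nt.H10_Tower

/-!
The local-global square property for the field of discriminant -7.
-/

set_option autoImplicit false
set_option linter.unusedSectionVars false

namespace Pool.Agent.Work.MP_787500_nt

open WithZero IsDedekindDomain NumberField

variable {K : Type*} [Field K] [NumberField K] {p : K}

theorem emb_re_im (hp : p ^ 2 - p + 2 = 0) (φ : K →+* ℂ) :
    (φ p).re = 1 / 2 ∧ (φ p).im ^ 2 = 7 / 4 := by
  have h := congrArg φ hp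
  rw [map_add, map_sub, map_pow, map_ofNat, map_zero] at h
  have hre := congrArg Complex.re h
  have him := congrArg Complex.im h
  simp [pow_two] at hre him
  set x := (φ p).re
  set y := (φ p).im
  have hy : y ≠ 0 := by
    intro hy
    rw [hy] at hre
    nlinarith [sq_nonneg (x - 1 / 2)]
  have hx : x = 1 / 2 := by
    have : y * (2 * x - 1) = 0 := by linear_combination him
    rcases mul_eq_zero.1 this with h | h
    · exact absurd h hy
    · linarith
  refine ⟨hx, ?_⟩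
  rw [hx] at hre
  nlinarith

theorem normSq_emb (hp : p ^ 2 - p + 2 = 0) (φ : K →+* ℂ) (a b : ℚ) :
    Complex.normSq (φ ((a : K) + b * p)) = (a : ℝ) ^ 2 + a * b + 2 * b ^ 2 := by
  obtain ⟨h1, h2⟩ := emb_re_im hp φ
  rw [map_add, map_mul, map_ratCast, map_ratCast, Complex.normSq_apply]
  simp only [Complex.add_re, Complex.mul_re, Complex.add_im, Complex.mul_im, Complex.ratCast_re,
    Complex.ratCast_im, h1]
  linear_combination (b : ℝ) ^ 2 * h2

theorem not_rat (hp : p ^ 2 - p + 2 = 0) (a b : ℚ) (h : (a : K) + b * p = 0) : a = 0 ∧ b = 0 := by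
  have φ : K →+* ℂ := Classical.arbitrary _
  have h1 := normSq_emb hp φ a b
  rw [h, map_zero, map_zero] at h1
  have h2 : (a : ℝ) ^ 2 + a * b + 2 * b ^ 2 = 0 := h1.symm
  have hb : (b : ℝ) = 0 := by
    nlinarith [sq_nonneg ((a : ℝ) + b / 2), sq_nonneg (b : ℝ)]
  have ha : (a : ℝ) = 0 := by
    rw [hb] at h2
    nlinarith
  exact ⟨by exact_mod_cast ha, by exact_mod_cast hb⟩

theorem exists_coords (hK : Module.finrank ℚ K = 2) (hp : p ^ 2 - p + 2 = 0) (x : K) :
    ∃ a b : ℚ, x = (a : K) + b * p := by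
  have hli : LinearIndependent ℚ ![(1 : K), p] := by
    rw [LinearIndependent.pair_iff]
    intro s t h
    apply not_rat hp
    rw [← h, Algebra.smul_def, Algebra.smul_def]
    simp
  have hspan := hli.span_eq_top_of_card_eq_finrank (by rw [hK]; rfl)
  have hx : x ∈ Submodule.span ℚ (Set.range ![(1 : K), p]) := by rw [hspan]; trivial
  rw [Matrix.range_cons, Matrix.range_cons, Matrix.range_empty, Set.union_empty,
    Set.singleton_union, Submodule.mem_span_pair] at hx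
  obtain ⟨a, b, h⟩ := hx
  refine ⟨a, b, ?_⟩
  rw [← h, Algebra.smul_def, Algebra.smul_def]
  simp

theorem int_of_isIntegral_rat {q : ℚ} (h : IsIntegral ℤ q) : ∃ n : ℤ, (n : ℚ) = q := by
  obtain ⟨n, hn⟩ := IsIntegrallyClosed.isIntegral_iff.1 h
  exact ⟨n, by simpa using hn⟩

theorem exists_int_coords (hK : Module.finrank ℚ K = 2) (hp : p ^ 2 - p + 2 = 0) {x : K}
    (hx : IsIntegral ℤ x) : ∃ a b : ℤ, x = (a : K) + b * p := by
  obtain ⟨a, b, rfl⟩ := exists_coords hK hp x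
  have φ : K →+* ℂ := Classical.arbitrary _
  obtain ⟨h1, h2⟩ := emb_re_im hp φ
  set x := (a : K) + b * p with hxdef
  have i1 : IsIntegral ℤ (φ x) := map_isIntegral_int φ hx
  have i2 : IsIntegral ℤ ((starRingEnd ℂ) (φ x)) := map_isIntegral_int (starRingEnd ℂ) i1
  have hφx : φ x = ((a : ℝ) + b * (φ p).re : ℝ) + ((b : ℝ) * (φ p).im : ℝ) * Complex.I := by
    rw [hxdef, map_add, map_mul, map_ratCast, map_ratCast]
    apply Complex.ext <;> simp
  have i3 : IsIntegral ℤ ((2 * a + b : ℚ) : ℂ) := by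
    have := i1.add i2
    have e : φ x + (starRingEnd ℂ) (φ x) = ((2 * a + b : ℚ) : ℂ) := by
      rw [Complex.add_conj, hφx, h1]
      simp
      ring
    rwa [e] at this
  have i4 : IsIntegral ℤ ((a ^ 2 + a * b + 2 * b ^ 2 : ℚ) : ℂ) := by
    have := i1.mul i2
    have e : φ x * (starRingEnd ℂ) (φ x) = ((a ^ 2 + a * b + 2 * b ^ 2 : ℚ) : ℂ) := by
      rw [Complex.mul_conj, hxdef, normSq_emb hp]
      push_cast
      ring
    rwa [e] at this
  obtain ⟨t, ht⟩ := int_of_isIntegral_rat (q := 2 * a + b) (by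
    have := (isIntegral_algebraMap_iff (R := ℤ) (A := ℚ) (B := ℂ) (x := 2 * a + b)
      (algebraMap ℚ ℂ).injective).1 (by simpa using i3)
    exact this)
  obtain ⟨n, hn⟩ := int_of_isIntegral_rat (q := a ^ 2 + a * b + 2 * b ^ 2) (by
    have := (isIntegral_algebraMap_iff (R := ℤ) (A := ℚ) (B := ℂ)
      (x := a ^ 2 + a * b + 2 * b ^ 2) (algebraMap ℚ ℂ).injective).1 (by simpa using i4)
    exact this)
  -- 7 b^2 is an integer
  have h7 : (7 : ℚ) * b ^ 2 = ((4 * n - t ^ 2 : ℤ) : ℚ) := by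
    push_cast
    rw [ht, hn]; ring
  have hbi : IsIntegral ℤ (7 * b) := by
    have h8 : IsIntegral ℤ ((7 * b) ^ 2) := by
      rw [show (7 * b) ^ 2 = ((7 * (4 * n - t ^ 2) : ℤ) : ℚ) by push_cast; push_cast at h7; rw [← h7]; ring]
      exact isIntegral_algebraMap (R := ℤ) (x := 7 * (4 * n - t ^ 2))
    exact IsIntegral.of_pow (by norm_num) h8
  obtain ⟨c, hc⟩ := int_of_isIntegral_rat hbi
  have h9 : c ^ 2 = 7 * (4 * n - t ^ 2) := by
    have : (c : ℚ) ^ 2 = 7 * ((4 * n - t ^ 2 : ℤ) : ℚ) := by rw [hc, ← h7]; ring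
    exact_mod_cast this
  have h10 : (7 : ℤ) ∣ c := by
    have h11 : (7 : ℤ) ∣ c ^ 2 := ⟨_, h9⟩
    exact Int.Prime.dvd_pow' (by norm_num) h11
  obtain ⟨d, rfl⟩ := h10
  have hbd : b = d := by
    have : (7 : ℚ) * b = 7 * d := by rw [← hc]; push_cast; ring
    linarith
  have h12 : 7 * d ^ 2 = 4 * n - t ^ 2 := by
    have : 7 * (7 * d ^ 2) = 7 * (4 * n - t ^ 2) := by rw [← h9]; ring
    exact mul_left_cancel₀ (by norm_num) this
  have h13 : (2 : ℤ) ∣ t - d := by
    have h14 : (2 : ℤ) ∣ (t - d) * (t - d) := by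
      refine ⟨2 * n - 3 * d ^ 2 - t * d, ?_⟩
      linear_combination h12
    rcases (Int.prime_two.dvd_mul).1 h14 with h | h <;> exact h
  obtain ⟨e, he⟩ := h13
  refine ⟨e, d, ?_⟩
  have hae : a = e := by
    have h15 : (2 : ℚ) * a = t - d := by rw [ht, hbd]; ring
    have h16 : ((t - d : ℤ) : ℚ) = ((2 * e : ℤ) : ℚ) := by rw [he]
    push_cast at h16
    linarith
  rw [hxdef, hae, hbd]
  push_cast
  ring

/-- the norm form -/
noncomputable def nrm (x : K) : ℝ := Complex.normSq ((Classical.arbitrary (K →+* ℂ)) x)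

theorem nrm_mul (x y : K) : nrm (x * y) = nrm x * nrm y := by
  rw [nrm, map_mul, map_mul]; rfl

theorem nrm_nonneg (x : K) : 0 ≤ nrm x := Complex.normSq_nonneg _

theorem nrm_pos {x : K} (hx : x ≠ 0) : 0 < nrm x :=
  Complex.normSq_pos.2 ((map_ne_zero _).2 hx)

theorem nrm_coords (hp : p ^ 2 - p + 2 = 0) (a b : ℚ) :
    nrm ((a : K) + b * p) = (a : ℝ) ^ 2 + a * b + 2 * b ^ 2 := normSq_emb hp _ a b

theorem exists_nrm_int (hK : Module.finrank ℚ K = 2) (hp : p ^ 2 - p + 2 = 0) (x : 𝓞 K) :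
    ∃ m : ℕ, nrm (algebraMap (𝓞 K) K x) = m := by
  obtain ⟨a, b, h⟩ := exists_int_coords hK hp x.isIntegral_coe
  have h0 : 0 ≤ a ^ 2 + a * b + 2 * b ^ 2 := by nlinarith [sq_nonneg (2 * a + b), sq_nonneg b]
  obtain ⟨m, hm⟩ := Int.eq_ofNat_of_zero_le h0
  refine ⟨m, ?_⟩
  have h1 := nrm_coords hp (K := K) (a : ℚ) (b : ℚ)
  rw [h, show (a : K) + b * p = ((a : ℚ) : K) + ((b : ℚ) : K) * p by push_cast; ring, h1]
  have : ((a ^ 2 + a * b + 2 * b ^ 2 : ℤ) : ℝ) = ((m : ℤ) : ℝ) := by rw [hm]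
  push_cast at this
  push_cast
  exact this

theorem exists_quotient (hK : Module.finrank ℚ K = 2) (hp : p ^ 2 - p + 2 = 0) (P : 𝓞 K)
    (hP : algebraMap (𝓞 K) K P = p) (x y : 𝓞 K) (hy : y ≠ 0) :
    ∃ q : 𝓞 K, nrm (algebraMap (𝓞 K) K (x - q * y)) < nrm (algebraMap (𝓞 K) K y) := by
  have hy' : algebraMap (𝓞 K) K y ≠ 0 := by
    intro h; exact hy (RingOfIntegers.coe_eq_zero_iff.1 h)
  obtain ⟨α, β, h⟩ := exists_coords hK hp (algebraMap (𝓞 K) K x / algebraMap (𝓞 K) K y)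
  set b := round β with hb
  set δ := β - b with hδ
  set a := round (α + δ / 2) with ha
  have hδ1 : |δ| ≤ 1 / 2 := abs_sub_round β
  have hγ1 : |α + δ / 2 - a| ≤ 1 / 2 := abs_sub_round _
  refine ⟨(a : 𝓞 K) + (b : 𝓞 K) * P, ?_⟩
  have e : algebraMap (𝓞 K) K (x - ((a : 𝓞 K) + (b : 𝓞 K) * P) * y) =
      (((α - a : ℚ) : K) + ((δ : ℚ) : K) * p) * algebraMap (𝓞 K) K y := by
    have h2 : algebraMap (𝓞 K) K x = ((α : K) + β * p) * algebraMap (𝓞 K) K y := by
      rw [← h]; field_simp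
    rw [map_sub, map_mul, map_add, map_mul, map_intCast, map_intCast, hP, h2, hδ]
    push_cast
    ring
  rw [e, nrm_mul, nrm_coords hp]
  have h3 : ((α - a : ℚ) : ℝ) ^ 2 + ((α - a : ℚ) : ℝ) * (δ : ℚ) + 2 * ((δ : ℚ) : ℝ) ^ 2 < 1 := by
    have h4 : (α - a) ^ 2 + (α - a) * δ + 2 * δ ^ 2 < 1 := by
      have h5 := abs_le.1 hδ1
      have h6 := abs_le.1 hγ1
      have h7 : δ ^ 2 ≤ (1 / 2) ^ 2 := sq_le_sq' (by linarith [h5.1]) h5.2
      have h8 : (α + δ / 2 - a) ^ 2 ≤ (1 / 2) ^ 2 := sq_le_sq' (by linarith [h6.1]) h6.2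
      nlinarith
    exact_mod_cast h4
  calc _ < 1 * nrm (algebraMap (𝓞 K) K y) := by
        exact mul_lt_mul_of_pos_right h3 (nrm_pos hy')
    _ = _ := one_mul _

theorem isPrincipalIdealRing_int (hK : Module.finrank ℚ K = 2) (hp : p ^ 2 - p + 2 = 0) (P : 𝓞 K)
    (hP : algebraMap (𝓞 K) K P = p) : IsPrincipalIdealRing (𝓞 K) := by
  classical
  refine ⟨fun I => ?_⟩
  by_cases hI : I = ⊥
  · exact ⟨⟨0, by rw [hI]; simp⟩⟩
  obtain ⟨x0, hx0, hx0'⟩ := Submodule.exists_mem_ne_zero_of_ne_bot hI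
  have hex : ∃ m : ℕ, ∃ x ∈ I, x ≠ 0 ∧ nrm (algebraMap (𝓞 K) K x) = m := by
    obtain ⟨m, hm⟩ := exists_nrm_int hK hp x0
    exact ⟨m, x0, hx0, hx0', hm⟩
  obtain ⟨x, hx, hxne, hxm⟩ := Nat.find_spec hex
  refine ⟨⟨x, le_antisymm (fun y hy => ?_) ?_⟩⟩
  · obtain ⟨q, hq⟩ := exists_quotient hK hp P hP y x hxne
    have hr : y - q * x ∈ I := I.sub_mem hy (I.mul_mem_left q hx)
    by_cases h0 : y - q * x = 0
    · rw [sub_eq_zero] at h0
      rw [h0, Submodule.mem_span_singleton]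
      exact ⟨q, rfl⟩
    · exfalso
      obtain ⟨m, hm⟩ := exists_nrm_int hK hp (y - q * x)
      have h1 := Nat.find_min' hex ⟨y - q * x, hr, h0, hm⟩
      rw [hxm, hm] at hq
      have h2 : m < Nat.find hex := by exact_mod_cast hq
      omega
  · rw [Submodule.span_le]
    simpa using hx

/-- a unit of the ring of integers is `1` or `-1` -/
theorem unit_eq (hK : Module.finrank ℚ K = 2) (hp : p ^ 2 - p + 2 = 0) {u : 𝓞 K}
    (hu : nrm (algebraMap (𝓞 K) K u) = 1) : u = 1 ∨ u = -1 := by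
  obtain ⟨a, b, h⟩ := exists_int_coords hK hp u.isIntegral_coe
  have h1 := nrm_coords hp (K := K) (a : ℚ) (b : ℚ)
  rw [show ((a : ℚ) : K) + ((b : ℚ) : K) * p = (a : K) + b * p by push_cast; ring, ← h, hu] at h1
  have h2 : a ^ 2 + a * b + 2 * b ^ 2 = 1 := by
    have : (1 : ℝ) = ((a ^ 2 + a * b + 2 * b ^ 2 : ℤ) : ℝ) := by
      rw [h1]; push_cast; ring
    exact_mod_cast this.symm
  have h3 : (2 * a + b) ^ 2 + 7 * b ^ 2 = 4 := by linear_combination 4 * h2
  have hb : b = 0 := by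
    by_contra hb
    have : 1 ≤ b ^ 2 := by
      have := sq_pos_of_ne_zero hb
      omega
    nlinarith [sq_nonneg (2 * a + b)]
  subst hb
  have h4 : a ^ 2 = 1 := by linear_combination h2
  have h5' : (a - 1) * (a + 1) = 0 := by linear_combination h4
  rcases mul_eq_zero.1 h5' with h5 | h5
  · left
    apply RingOfIntegers.ext
    have h6 : a = 1 := by linarith
    show algebraMap (𝓞 K) K u = _
    rw [h, h6]; simp
  · right
    apply RingOfIntegers.ext
    have h6 : a = -1 := by linarith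
    show algebraMap (𝓞 K) K u = _
    rw [h, h6]; simp

/-- products of a sign, powers of the two primes above 2 and a square -/
def Cls (p z : K) : Prop := ∃ (ε : K) (a b : ℕ) (s : K), (ε = 1 ∨ ε = -1) ∧ s ≠ 0 ∧
  z = ε * p ^ a * (1 - p) ^ b * s ^ 2

theorem Cls.symm {p z : K} (h : Cls p z) : Cls (1 - p) z := by
  obtain ⟨ε, a, b, s, hε, hs, rfl⟩ := h
  exact ⟨ε, b, a, s, hε, hs, by ring⟩

theorem Cls.mul_sq {p z t : K} (h : Cls p z) (ht : t ≠ 0) : Cls p (t ^ 2 * z) := by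
  obtain ⟨ε, a, b, s, hε, hs, rfl⟩ := h
  exact ⟨ε, a, b, s * t, hε, mul_ne_zero hs ht, by ring⟩

theorem Cls.mul_p {p z : K} (h : Cls p z) {δ : K} (hδ : δ = 1 ∨ δ = -1) : Cls p (δ * p * z) := by
  obtain ⟨ε, a, b, s, hε, hs, rfl⟩ := h
  refine ⟨δ * ε, a + 1, b, s, ?_, hs, by ring⟩
  rcases hδ with rfl | rfl <;> rcases hε with rfl | rfl <;> simp

theorem Cls.of_unit {p : K} {δ : K} (hδ : δ = 1 ∨ δ = -1) : Cls p δ :=
  ⟨δ, 0, 0, 1, hδ, one_ne_zero, by ring⟩

theorem nrm_unit (hK : Module.finrank ℚ K = 2) (hp : p ^ 2 - p + 2 = 0) {u : 𝓞 K}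
    (hu : IsUnit u) : nrm (algebraMap (𝓞 K) K u) = 1 := by
  obtain ⟨w, hw⟩ := hu.exists_right_inv
  obtain ⟨m, hm⟩ := exists_nrm_int hK hp u
  obtain ⟨n, hn⟩ := exists_nrm_int hK hp w
  have h1 : nrm (algebraMap (𝓞 K) K u) * nrm (algebraMap (𝓞 K) K w) = 1 := by
    rw [← nrm_mul, ← map_mul, hw, map_one, nrm, map_one, map_one]
  rw [hm, hn] at h1
  have h2 : m * n = 1 := by exact_mod_cast h1
  rw [hm, Nat.eq_one_of_mul_eq_one_right h2]
  simp

theorem isUnit_of_nrm (hK : Module.finrank ℚ K = 2) (hp : p ^ 2 - p + 2 = 0) {u : 𝓞 K}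
    (hu : nrm (algebraMap (𝓞 K) K u) = 1) : IsUnit u := by
  rcases unit_eq hK hp hu with rfl | rfl
  · exact isUnit_one
  · exact isUnit_one.neg

theorem coe_ne_zero' {x : 𝓞 K} (hx : x ≠ 0) : algebraMap (𝓞 K) K x ≠ 0 := by
  intro h; exact hx (RingOfIntegers.coe_eq_zero_iff.1 h)

/-- an irreducible divisor of an element of norm two is this element up to sign -/
theorem eq_of_dvd_norm_two (hK : Module.finrank ℚ K = 2) (hp : p ^ 2 - p + 2 = 0) {q R : 𝓞 K}
    (hq : Irreducible q) (hR : nrm (algebraMap (𝓞 K) K R) = 2) (h : q ∣ R) : q = R ∨ q = -R := by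
  obtain ⟨r, hr⟩ := h
  obtain ⟨m, hm⟩ := exists_nrm_int hK hp q
  obtain ⟨n, hn⟩ := exists_nrm_int hK hp r
  have h1 : m * n = 2 := by
    have : (m : ℝ) * n = 2 := by rw [← hm, ← hn, ← nrm_mul, ← map_mul, ← hr, hR]
    exact_mod_cast this
  have hm1 : m ≠ 1 := by
    rintro rfl
    exact hq.not_isUnit (isUnit_of_nrm hK hp (by rw [hm]; simp))
  have hmd : m ∣ 2 := ⟨n, h1.symm⟩
  have hm2 : m = 2 := by
    have := Nat.le_of_dvd (by norm_num) hmd
    interval_cases m
    · simp at h1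
    · exact absurd rfl hm1
    · rfl
  have hn1 : n = 1 := by rw [hm2] at h1; omega
  have hr1 : nrm (algebraMap (𝓞 K) K r) = 1 := by rw [hn, hn1]; simp
  rcases unit_eq hK hp hr1 with h2 | h2
  · left; rw [hr, h2, mul_one]
  · right; rw [hr, h2]; ring

theorem cls_of_evenOff2_int (hK : Module.finrank ℚ K = 2) (hp : p ^ 2 - p + 2 = 0) (P : 𝓞 K)
    (hP : algebraMap (𝓞 K) K P = p) (m : ℕ) : ∀ x : 𝓞 K, x ≠ 0 →
      nrm (algebraMap (𝓞 K) K x) = m → EvenOff2 (algebraMap (𝓞 K) K x) →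
      Cls p (algebraMap (𝓞 K) K x) := by
  have hPID := isPrincipalIdealRing_int hK hp P hP
  have hPP : P * (1 - P) = 2 := by
    apply RingOfIntegers.ext
    show algebraMap (𝓞 K) K _ = algebraMap (𝓞 K) K _
    rw [map_mul, map_sub, map_one, hP, map_ofNat]
    linear_combination -hp
  have hP' : algebraMap (𝓞 K) K (1 - P) = 1 - p := by rw [map_sub, map_one, hP]
  have hnP : nrm (algebraMap (𝓞 K) K P) = 2 := by
    have := nrm_coords hp (K := K) 0 1
    simp at this
    rw [hP, this]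
  have hnP' : nrm (algebraMap (𝓞 K) K (1 - P)) = 2 := by
    have := nrm_coords hp (K := K) 1 (-1)
    rw [hP', show 1 - p = ((1 : ℚ) : K) + ((-1 : ℚ) : K) * p by push_cast; ring, this]
    push_cast
    norm_num
  induction m using Nat.strong_induction_on with
  | _ m ih =>
  intro x hx hm hev
  by_cases hu : IsUnit x
  · rcases unit_eq hK hp (nrm_unit hK hp hu) with rfl | rfl
    · exact Cls.of_unit (Or.inl (map_one _))
    · exact Cls.of_unit (Or.inr (by rw [map_neg, map_one]))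
  obtain ⟨q, hq, y, hy⟩ := WfDvdMonoid.exists_irreducible_factor hu hx
  have hq0 : q ≠ 0 := hq.ne_zero
  have hy0 : y ≠ 0 := by
    rintro rfl
    exact hx (by rw [hy, mul_zero])
  have hqn : (2 : ℝ) ≤ nrm (algebraMap (𝓞 K) K q) := by
    obtain ⟨n, hn⟩ := exists_nrm_int hK hp q
    have h1 : n ≠ 0 := by
      rintro rfl
      have := nrm_pos (coe_ne_zero' hq0)
      rw [hn] at this
      simp at this
    have h2 : n ≠ 1 := by
      rintro rfl
      exact hq.not_isUnit (isUnit_of_nrm hK hp (by rw [hn]; simp))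
    rw [hn]
    exact_mod_cast (by omega : 2 ≤ n)
  have hlt : ∀ (r z : 𝓞 K), z ≠ 0 → x = r * z → (2 : ℝ) ≤ nrm (algebraMap (𝓞 K) K r) →
      ∃ n : ℕ, n < m ∧ nrm (algebraMap (𝓞 K) K z) = n := by
    intro r z hz hxz hr
    obtain ⟨n, hn⟩ := exists_nrm_int hK hp z
    refine ⟨n, ?_, hn⟩
    have h1 : (m : ℝ) = nrm (algebraMap (𝓞 K) K r) * n := by
      rw [← hm, hxz, map_mul, nrm_mul, hn]
    have h2 : (0 : ℝ) < n := by rw [← hn]; exact nrm_pos (coe_ne_zero' hz)
    have h3 : (n : ℝ) < m := by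
      rw [h1]
      nlinarith
    exact_mod_cast h3
  -- dyadic divisor
  have key : ∀ (R : 𝓞 K), R ∣ 2 → R ≠ 0 → nrm (algebraMap (𝓞 K) K R) = 2 → q ∣ R →
      ∃ (δ : K) (z : 𝓞 K), (δ = 1 ∨ δ = -1) ∧
        algebraMap (𝓞 K) K x = δ * algebraMap (𝓞 K) K R * algebraMap (𝓞 K) K z ∧
        Cls p (algebraMap (𝓞 K) K z) := by
    intro R hR2 hR0 hR hqR
    obtain ⟨n, hn, hn'⟩ := hlt q y hy0 hy hqn
    have hyev : EvenOff2 (algebraMap (𝓞 K) K y) := by
      intro v hv
      have h1 := hev v hv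
      have hqv : q ∉ v.asIdeal := by
        intro h
        obtain ⟨c, hc⟩ := hqR.trans hR2
        exact hv (by rw [hc]; exact v.asIdeal.mul_mem_right c h)
      rw [hy, map_mul, map_mul, (HeightOneSpectrum.valuation_eq_one_iff_notMem v).2 hqv,
        one_mul] at h1
      exact h1
    have hcls := ih n hn y hy0 hn' hyev
    rcases eq_of_dvd_norm_two hK hp hq hR hqR with h | h
    · exact ⟨1, y, Or.inl rfl, by rw [hy, map_mul, h, one_mul], hcls⟩
    · exact ⟨-1, y, Or.inr rfl, by rw [hy, map_mul, h, map_neg]; ring, hcls⟩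
  have hPne : P ≠ 0 := by
    rintro rfl
    rw [zero_mul] at hPP
    exact two_ne_zero hPP.symm
  have hPne' : 1 - P ≠ 0 := by
    intro h
    rw [h, mul_zero] at hPP
    exact two_ne_zero hPP.symm
  by_cases h2 : q ∣ 2
  · rw [← hPP] at h2
    rcases (hq.prime.dvd_mul).1 h2 with h | h
    · obtain ⟨δ, z, hδ, hxz, hcls⟩ := key P ⟨1 - P, hPP.symm⟩ hPne hnP h
      rw [hxz, hP]
      exact hcls.mul_p hδ
    · obtain ⟨δ, z, hδ, hxz, hcls⟩ := key (1 - P) ⟨P, by rw [mul_comm, hPP]⟩ hPne' hnP' h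
      rw [hxz, hP']
      have := (hcls.symm.mul_p hδ).symm
      rwa [sub_sub_cancel] at this
  · -- odd prime
    have hprime : (Ideal.span {q}).IsPrime := (Ideal.span_singleton_prime hq0).2 hq.prime
    let v : HeightOneSpectrum (𝓞 K) := ⟨Ideal.span {q}, hprime, by
      rw [Ne, Ideal.span_singleton_eq_bot]; exact hq0⟩
    have hv2 : (2 : 𝓞 K) ∉ v.asIdeal := fun h => h2 (Ideal.mem_span_singleton.1 h)
    have hsq := hev v hv2
    have hxv : v.valuation K (algebraMap (𝓞 K) K x) < 1 := by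
      rw [HeightOneSpectrum.valuation_lt_one_iff_mem]
      exact Ideal.mem_span_singleton.2 ⟨y, hy⟩
    have hle : v.intValuation x ≤ exp (-((2 : ℕ) : ℤ)) := by
      rw [HeightOneSpectrum.valuation_of_algebraMap] at hxv hsq
      obtain ⟨r, hr⟩ := hsq
      have hr0 : r ≠ 0 := by
        rintro rfl
        rw [mul_zero] at hr
        exact v.intValuation_ne_zero x hx hr
      obtain ⟨n, rfl⟩ : ∃ n : ℤ, r = exp n := ⟨_, (exp_log hr0).symm⟩
      rw [hr, ← exp_add, ← exp_zero, exp_lt_exp] at hxv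
      rw [hr, ← exp_add, exp_le_exp]
      simp only [Nat.cast_ofNat]
      omega
    rw [HeightOneSpectrum.intValuation_le_pow_iff_mem] at hle
    have hle' : x ∈ Ideal.span {q ^ 2} := by
      rw [← Ideal.span_singleton_pow]; exact hle
    obtain ⟨z, hz⟩ := Ideal.mem_span_singleton.1 hle'
    have hz0 : z ≠ 0 := by
      rintro rfl
      exact hx (by rw [hz, mul_zero])
    obtain ⟨n, hn, hn'⟩ := hlt (q ^ 2) z hz0 hz (by
      rw [pow_two, map_mul, nrm_mul]
      nlinarith)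
    have hzev : EvenOff2 (algebraMap (𝓞 K) K z) := by
      refine EvenOff2.of_mul_sq (coe_ne_zero' hq0) ?_
      rw [← map_pow, ← map_mul, mul_comm, ← hz]
      exact hev
    have hcls := ih n hn z hz0 hn' hzev
    have := hcls.mul_sq (coe_ne_zero' hq0)
    rwa [← map_pow, ← map_mul, ← hz] at this

theorem cls_of_evenOff2 (hK : Module.finrank ℚ K = 2) (hp : p ^ 2 - p + 2 = 0) (P : 𝓞 K)
    (hP : algebraMap (𝓞 K) K P = p) {z : K} (hz : z ≠ 0) (hev : EvenOff2 z) : Cls p z := by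
  obtain ⟨x, y, hy, rfl⟩ := IsFractionRing.div_surjective (A := 𝓞 K) z
  have hy0 : y ≠ 0 := nonZeroDivisors.ne_zero hy
  have hy0' := coe_ne_zero' hy0
  have hx0 : x ≠ 0 := by
    rintro rfl
    exact hz (by simp)
  have e : algebraMap (𝓞 K) K (x * y) =
      algebraMap (𝓞 K) K x / algebraMap (𝓞 K) K y * (algebraMap (𝓞 K) K y) ^ 2 := by
    rw [map_mul]; field_simp
  obtain ⟨m, hm⟩ := exists_nrm_int hK hp (x * y)
  have h1 := cls_of_evenOff2_int hK hp P hP m (x * y) (mul_ne_zero hx0 hy0) hm (by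
    rw [e]
    exact hev.mul (EvenOff2.sq _))
  have h2 := h1.mul_sq (inv_ne_zero hy0')
  rw [e] at h2
  have e2 : (algebraMap (𝓞 K) K y)⁻¹ ^ 2 *
      (algebraMap (𝓞 K) K x / algebraMap (𝓞 K) K y * (algebraMap (𝓞 K) K y) ^ 2) =
      algebraMap (𝓞 K) K x / algebraMap (𝓞 K) K y := by
    field_simp
  rwa [e2] at h2

section loc

variable {v : HeightOneSpectrum (𝓞 K)} {P : 𝓞 K}

theorem mem_or_sub_one_mem (hK : Module.finrank ℚ K = 2) (hp : p ^ 2 - p + 2 = 0)
    (hP : algebraMap (𝓞 K) K P = p) (hv : P ∈ v.asIdeal) (x : 𝓞 K) :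
    (∃ c : 𝓞 K, x = P * c) ∨ x - 1 ∈ v.asIdeal := by
  have hPP : P * (1 - P) = 2 := by
    apply RingOfIntegers.ext
    show algebraMap (𝓞 K) K _ = algebraMap (𝓞 K) K _
    rw [map_mul, map_sub, map_one, hP, map_ofNat]
    linear_combination -hp
  obtain ⟨a, b, h⟩ := exists_int_coords hK hp x.isIntegral_coe
  have hx : x = (a : 𝓞 K) + b * P := by
    apply RingOfIntegers.ext
    show algebraMap (𝓞 K) K _ = algebraMap (𝓞 K) K _
    rw [map_add, map_mul, map_intCast, map_intCast, hP, h]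
  rcases Int.even_or_odd a with ⟨c, hc⟩ | ⟨c, hc⟩
  · left
    refine ⟨c * (1 - P) + b, ?_⟩
    rw [hx, hc]
    push_cast
    linear_combination (-(c : 𝓞 K)) * hPP
  · right
    have e : x - 1 = P * (c * (1 - P) + b) := by
      rw [hx, hc]
      push_cast
      linear_combination (-(c : 𝓞 K)) * hPP
    rw [e]
    exact v.asIdeal.mul_mem_right _ hv

theorem one_notMem (v : HeightOneSpectrum (𝓞 K)) : (1 : 𝓞 K) ∉ v.asIdeal := fun h =>
  v.isPrime.ne_top ((Ideal.eq_top_iff_one _).2 h)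

theorem val_p (hK : Module.finrank ℚ K = 2) (hp : p ^ 2 - p + 2 = 0)
    (hP : algebraMap (𝓞 K) K P = p) (hv : P ∈ v.asIdeal) : v.valuation K p = exp (-1) := by
  have hP0 : P ≠ 0 := by
    rintro rfl
    rw [map_zero] at hP
    rw [← hP] at hp
    have : (2 : K) = 0 := by linear_combination hp
    exact two_ne_zero this
  rw [← hP, HeightOneSpectrum.valuation_of_algebraMap]
  apply HeightOneSpectrum.intValuation_singleton v hP0
  apply le_antisymm
  · intro x hx
    rcases mem_or_sub_one_mem hK hp hP hv x with ⟨c, hc⟩ | h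
    · exact Ideal.mem_span_singleton.2 ⟨c, hc⟩
    · exfalso
      have := v.asIdeal.sub_mem hx h
      rw [sub_sub_cancel] at this
      exact one_notMem v this
  · rw [Ideal.span_singleton_le_iff_mem]; exact hv

theorem val_one_sub_p (hP : algebraMap (𝓞 K) K P = p) (hv : P ∈ v.asIdeal) :
    v.valuation K (1 - p) = 1 := by
  rw [show 1 - p = algebraMap (𝓞 K) K (1 - P) by rw [map_sub, map_one, hP],
    HeightOneSpectrum.valuation_eq_one_iff_notMem]
  intro h
  have := v.asIdeal.add_mem h hv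
  rw [sub_add_cancel] at this
  exact one_notMem v this

theorem val_sub_one_lt (hK : Module.finrank ℚ K = 2) (hp : p ^ 2 - p + 2 = 0)
    (hP : algebraMap (𝓞 K) K P = p) (hv : P ∈ v.asIdeal) {y : K} (hy : v.valuation K y = 1) :
    v.valuation K (y - 1) < 1 := by
  obtain ⟨n, ⟨d, hd⟩, hnd⟩ := HeightOneSpectrum.exists_primeCompl_mul_eq_of_integer v y hy.le
  have hd' : d ∉ v.asIdeal := hd
  have hvd : v.valuation K (algebraMap (𝓞 K) K d) = 1 :=
    (HeightOneSpectrum.valuation_eq_one_iff_notMem v).2 hd'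
  have hnd' : y * algebraMap (𝓞 K) K d = algebraMap (𝓞 K) K n := hnd
  have hn' : n ∉ v.asIdeal := by
    rw [← HeightOneSpectrum.valuation_eq_one_iff_notMem (K := K) v, ← hnd', map_mul, hy, hvd,
      mul_one]
  have h1 : ∀ x : 𝓞 K, x ∉ v.asIdeal → x - 1 ∈ v.asIdeal := by
    intro x hx
    rcases mem_or_sub_one_mem hK hp hP hv x with ⟨c, hc⟩ | h
    · exfalso
      apply hx
      rw [hc]
      exact v.asIdeal.mul_mem_right _ hv
    · exact h
  have h2 : n - d ∈ v.asIdeal := by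
    have := v.asIdeal.sub_mem (h1 n hn') (h1 d hd')
    rwa [sub_sub_sub_cancel_right] at this
  have h3 : v.valuation K ((y - 1) * algebraMap (𝓞 K) K d) < 1 := by
    rw [sub_mul, hnd', one_mul, ← map_sub, HeightOneSpectrum.valuation_lt_one_iff_mem]
    exact h2
  rwa [map_mul, hvd, mul_one] at h3

theorem le_exp_of_lt {x : ℤᵐ⁰} {n : ℤ} (h : x < exp n) : x ≤ exp (n - 1) := by
  by_cases hx : x = 0
  · rw [hx]; exact zero_le
  · obtain ⟨m, rfl⟩ : ∃ m : ℤ, x = exp m := ⟨_, (exp_log hx).symm⟩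
    rw [exp_lt_exp] at h
    rw [exp_le_exp]
    omega

theorem val_sq_sub_one (hK : Module.finrank ℚ K = 2) (hp : p ^ 2 - p + 2 = 0)
    (hP : algebraMap (𝓞 K) K P = p) (hv : P ∈ v.asIdeal) {y : K} (hy : v.valuation K y = 1) :
    v.valuation K (y ^ 2 - 1) ≤ exp (-3) := by
  have hvp := val_p hK hp hP hv
  have hvp' := val_one_sub_p (v := v) hP hv
  have hp0 : p ≠ 0 := by
    rintro rfl
    have : (2 : K) = 0 := by linear_combination hp
    exact two_ne_zero this
  set V := v.valuation K with hV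
  set w := (y - 1) / p with hw
  have hVw : V w ≤ 1 := by
    have h1 := le_exp_of_lt (n := 0) (by rw [exp_zero]; exact val_sub_one_lt hK hp hP hv hy)
    rw [hw, map_div₀, hvp, div_le_one₀ (by exact exp_pos)]
    exact h1
  have e : y ^ 2 - 1 = p ^ 2 * (w * (w + (1 - p))) := by
    have h1 : y = 1 + p * w := by rw [hw]; field_simp; ring
    linear_combination (y + 1 + p * w) * h1 + (p * w) * hp
  have hpp : V (p ^ 2) = exp (-2) := by
    rw [map_pow, hvp, ← exp_nsmul]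
    rfl
  have hfin : V (w * (w + (1 - p))) ≤ exp (-1) := by
    rcases lt_or_eq_of_le hVw with h | h
    · rw [map_mul]
      have h1 : V (w + (1 - p)) ≤ 1 := (V.map_add _ _).trans (max_le hVw hvp'.le)
      calc V w * V (w + (1 - p)) ≤ exp (0 - 1) * 1 := mul_le_mul' (le_exp_of_lt (by rwa [exp_zero])) h1
        _ = exp (-1) := by rw [mul_one]; rfl
    · rw [map_mul]
      have h1 : V (w - 1) < 1 := val_sub_one_lt hK hp hP hv h
      have h2 : V (w + (1 - p)) < 1 := by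
        have e2 : w + (1 - p) = (w - 1) + (- p ^ 2) := by linear_combination hp
        rw [e2]
        refine lt_of_le_of_lt (V.map_add _ _) (max_lt h1 ?_)
        rw [Valuation.map_neg, hpp, ← exp_zero, exp_lt_exp]
        norm_num
      calc V w * V (w + (1 - p)) ≤ 1 * exp (0 - 1) := mul_le_mul' hVw (le_exp_of_lt (by rwa [exp_zero]))
        _ = exp (-1) := by rw [one_mul]; rfl
  rw [e, map_mul, hpp]
  calc exp (-2) * V (w * (w + (1 - p))) ≤ exp (-2) * exp (-1) := mul_le_mul' le_rfl hfin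
    _ = exp (-3) := by rw [← exp_add]; rfl

theorem not_locSq_of (hK : Module.finrank ℚ K = 2) (hp : p ^ 2 - p + 2 = 0)
    (hP : algebraMap (𝓞 K) K P = p) (hv : P ∈ v.asIdeal) {s : K} (hs : v.valuation K s = 1)
    (hs' : exp (-2) ≤ v.valuation K (s - 1)) : ¬ LocSq (v.valuation K) s := by
  intro h
  obtain ⟨y, hy⟩ := h (exp (-2)) exp_ne_zero
  have h1 : v.valuation K (y ^ 2) = 1 := by
    have h2 : v.valuation K (s - y ^ 2) < v.valuation K s := by
      rw [hs]
      refine hy.trans ?_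
      rw [← exp_zero, exp_lt_exp]
      norm_num
    have h3 : y ^ 2 = s - (s - y ^ 2) := by ring
    rw [h3, Valuation.map_sub_eq_of_lt_left _ h2, hs]
  have h4 : v.valuation K y = 1 := by
    rw [map_pow] at h1
    exact (pow_eq_one_iff.1 h1).resolve_right (by norm_num)
  have h5 := val_sq_sub_one hK hp hP hv h4
  have h6 : s - 1 = (s - y ^ 2) + (y ^ 2 - 1) := by ring
  have h7 : v.valuation K (s - 1) < exp (-2) := by
    rw [h6]
    refine lt_of_le_of_lt (Valuation.map_add _ _ _) (max_lt hy (lt_of_le_of_lt h5 ?_))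
    rw [exp_lt_exp]
    norm_num
  exact absurd h7 (not_lt.2 hs')

theorem isSquare_of_cls (hK : Module.finrank ℚ K = 2) (hp : p ^ 2 - p + 2 = 0)
    (hP : algebraMap (𝓞 K) K P = p) (hv : P ∈ v.asIdeal) {z : K} (hcls : Cls p z)
    (h : LocSq (v.valuation K) z) : IsSquare z := by
  have hvp := val_p hK hp hP hv
  have hvp' := val_one_sub_p (v := v) hP hv
  have hp0 : p ≠ 0 := by
    intro h0
    rw [h0, map_zero] at hvp
    exact exp_ne_zero hvp.symm
  have hp0' : 1 - p ≠ 0 := by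
    intro h0
    rw [h0, map_zero] at hvp'
    exact zero_ne_one hvp'
  obtain ⟨ε, a, b, s, hε, hs, rfl⟩ := hcls
  have hvε : v.valuation K ε = 1 := by
    rcases hε with rfl | rfl
    · rw [map_one]
    · rw [Valuation.map_neg, map_one]
  have hε0 : ε ≠ 0 := by
    rcases hε with rfl | rfl
    · exact one_ne_zero
    · exact neg_ne_zero.2 one_ne_zero
  rw [LocSq.mul_sq_iff hs] at h
  -- a is even
  have ha : Even a := by
    have h1 : v.valuation K (ε * p ^ a * (1 - p) ^ b) = exp (-(a : ℤ)) := by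
      rw [map_mul, map_mul, map_pow, map_pow, hvε, hvp, hvp', one_pow, mul_one, one_mul,
        ← exp_nsmul]
      congr 1
      simp
    obtain ⟨y, hy⟩ := h (v.valuation K (ε * p ^ a * (1 - p) ^ b)) (by rw [h1]; exact exp_ne_zero)
    have h2 : v.valuation K (y ^ 2) = exp (-(a : ℤ)) := by
      have h3 : y ^ 2 = (ε * p ^ a * (1 - p) ^ b) - ((ε * p ^ a * (1 - p) ^ b) - y ^ 2) := by ring
      rw [h3, Valuation.map_sub_eq_of_lt_left _ hy, h1]
    have hy0 : v.valuation K y ≠ 0 := by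
      intro h0
      rw [map_pow, h0, zero_pow (by norm_num)] at h2
      exact exp_ne_zero h2.symm
    obtain ⟨m, hm⟩ : ∃ m : ℤ, v.valuation K y = exp m := ⟨_, (exp_log hy0).symm⟩
    rw [map_pow, hm, pow_two, ← exp_add, exp_inj] at h2
    rw [Nat.even_iff]
    omega
  obtain ⟨a', rfl⟩ := ha
  have e1 : ∀ t : K, ε * p ^ (a' + a') * t = ε * t * (p ^ a') ^ 2 := by intro t; ring
  rw [e1, LocSq.mul_sq_iff (pow_ne_zero _ hp0)] at h
  have n1 : ¬ LocSq (v.valuation K) (-1 : K) := by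
    apply not_locSq_of hK hp hP hv
    · rw [Valuation.map_neg, map_one]
    · have e2 : (-1 : K) - 1 = -(p * (1 - p)) := by linear_combination -hp
      rw [e2, Valuation.map_neg, map_mul, hvp, hvp', mul_one, exp_le_exp]
      norm_num
  have n2 : ¬ LocSq (v.valuation K) (1 - p) := by
    apply not_locSq_of hK hp hP hv hvp'
    have e2 : (1 - p) - 1 = -p := by ring
    rw [e2, Valuation.map_neg, hvp, exp_le_exp]
    norm_num
  have n3 : ¬ LocSq (v.valuation K) (-(1 - p)) := by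
    apply not_locSq_of hK hp hP hv
    · rw [Valuation.map_neg, hvp']
    · have e2 : -(1 - p) - 1 = p ^ 2 := by linear_combination -hp
      rw [e2, map_pow, hvp, ← exp_nsmul]
      apply le_of_eq
      rfl
  rcases Nat.even_or_odd b with ⟨b', rfl⟩ | ⟨b', rfl⟩
  · have e3 : ε * (1 - p) ^ (b' + b') = ε * ((1 - p) ^ b') ^ 2 := by ring
    rw [e3, LocSq.mul_sq_iff (pow_ne_zero _ hp0')] at h
    rcases hε with rfl | rfl
    · exact ⟨p ^ a' * (1 - p) ^ b' * s, by ring⟩
    · exact absurd h n1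
  · exfalso
    have e3 : ε * (1 - p) ^ (2 * b' + 1) = ε * (1 - p) * ((1 - p) ^ b') ^ 2 := by ring
    rw [e3, LocSq.mul_sq_iff (pow_ne_zero _ hp0')] at h
    rcases hε with rfl | rfl
    · rw [one_mul] at h; exact n2 h
    · rw [neg_one_mul] at h; exact n3 h

end loc

/-- an integral element with the given minimal polynomial -/
theorem exists_int_of_eq (hp : p ^ 2 - p + 2 = 0) : ∃ P : 𝓞 K, algebraMap (𝓞 K) K P = p := by
  have : IsIntegral ℤ p := by
    refine ⟨Polynomial.X ^ 2 - Polynomial.X + 2, ?_, ?_⟩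
    · monicity!
    · simp [Polynomial.eval₂_sub, Polynomial.eval₂_add, Polynomial.eval₂_pow, hp]
  exact ⟨⟨p, this⟩, rfl⟩

theorem propP_base (hK : Module.finrank ℚ K = 2) (hp : p ^ 2 - p + 2 = 0) : PropP K := by
  obtain ⟨P, hP⟩ := exists_int_of_eq hp
  intro v hv z hz hev hloc
  have hcls := cls_of_evenOff2 hK hp P hP hz hev
  have hPP : P * (1 - P) = 2 := by
    apply RingOfIntegers.ext
    show algebraMap (𝓞 K) K _ = algebraMap (𝓞 K) K _
    rw [map_mul, map_sub, map_one, hP, map_ofNat]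
    linear_combination -hp
  rw [← hPP] at hv
  rcases v.isPrime.mem_or_mem hv with h | h
  · exact isSquare_of_cls hK hp hP h hcls hloc
  · refine isSquare_of_cls (p := 1 - p) (P := 1 - P) hK (by linear_combination hp) ?_ h hcls.symm
      hloc
    rw [map_sub, map_one, hP]

end Pool.Agent.Work.MP_787500_nt
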