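import Mathlib

/-!
Parity of valuations of 2-descent classes at places of good reduction away from 2.
-/

namespace Pool.Agent.Work.MP_787500_nt

open WithZero

theorem isSquare_exp_iff (n : ℤ) : IsSquare (exp n : ℤᵐ⁰) ↔ Even n := by
  constructor
  · rintro ⟨r, hr⟩
    have hr0 : r ≠ 0 := by
      rintro rfl
      simp at hr
    obtain ⟨m, rfl⟩ : ∃ m : ℤ, r = exp m := ⟨_, (exp_log hr0).symm⟩
    rw [← exp_add, exp_inj] at hr
    exact ⟨m, hr⟩
  · rintro ⟨m, rfl⟩
    exact ⟨exp m, by rw [← exp_add]⟩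

variable {K : Type*} [Field K] {v : Valuation K ℤᵐ⁰}

theorem exists_exp {x : K} (hx : x ≠ 0) : ∃ m : ℤ, v x = exp m :=
  ⟨_, (exp_log ((v.ne_zero_iff).mpr hx)).symm⟩

theorem ultra {x y : K} {m a b : ℤ} (h : v (x - y) = exp m) (hx : v x = exp a)
    (hy : v y = exp b) : m ≤ max a b ∧ (a ≠ b → m = max a b) := by
  constructor
  · have := v.map_sub x y
    rw [h, hx, hy] at this
    rcases le_max_iff.mp this with h | h
    · exact (exp_le_exp.mp h).trans (le_max_left _ _)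
    · exact (exp_le_exp.mp h).trans (le_max_right _ _)
  · intro hab
    rcases lt_or_gt_of_ne hab with hlt | hlt
    · have h1 : v x < v y := by rw [hx, hy]; exact exp_lt_exp.mpr hlt
      have := Valuation.map_sub_eq_of_lt_left v h1
      rw [v.map_sub_swap, h, hy, exp_inj] at this
      rw [this, max_eq_right hlt.le]
    · have h1 : v y < v x := by rw [hx, hy]; exact exp_lt_exp.mpr hlt
      have := Valuation.map_sub_eq_of_lt_right v h1
      rw [v.map_sub_swap, h, hx, exp_inj] at this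
      rw [this, max_eq_left hlt.le]

theorem even_of_sol {g : ℤᵐ⁰} (hg : g ≠ 0) {e1 e2 e3 d1 d2 d3 X w z1 z2 z3 : K}
    (h12 : v (e1 - e2) = g ^ 2) (h31 : v (e3 - e1) = g ^ 2)
    (hd1 : d1 ≠ 0) (hd2 : d2 ≠ 0) (hd3 : d3 ≠ 0) (hsq : IsSquare (d1 * d2 * d3))
    (h0 : w ≠ 0 ∨ X ≠ 0) (E1 : d1 * z1 ^ 2 = X - e1 * w ^ 2) (E2 : d2 * z2 ^ 2 = X - e2 * w ^ 2)
    (E3 : d3 * z3 ^ 2 = X - e3 * w ^ 2) : IsSquare (v d1) := by
  obtain ⟨G, rfl⟩ : ∃ m : ℤ, g = exp m := ⟨_, (exp_log hg).symm⟩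
  obtain ⟨D1, hD1⟩ := exists_exp (v := v) hd1
  obtain ⟨D2, hD2⟩ := exists_exp (v := v) hd2
  obtain ⟨D3, hD3⟩ := exists_exp (v := v) hd3
  obtain ⟨q, hq⟩ := hsq
  have hq0 : q ≠ 0 := by
    rintro rfl
    have := mul_ne_zero (mul_ne_zero hd1 hd2) hd3
    rw [hq] at this
    exact this (by ring)
  obtain ⟨Q, hQ⟩ := exists_exp (v := v) hq0
  have hsum : D1 + D2 + D3 = Q + Q := by
    have := congrArg v hq
    rw [map_mul, map_mul, map_mul, hD1, hD2, hD3, hQ, ← exp_add, ← exp_add, ← exp_add,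
      exp_inj] at this
    exact this
  rw [hD1, isSquare_exp_iff]
  have hval : ∀ {d z a : K} {D : ℤ}, v d = exp D → d * z ^ 2 = a → a ≠ 0 →
      ∃ Z : ℤ, v a = exp (D + (Z + Z)) := by
    intro d z a D hD h ha
    have hz : z ≠ 0 := by
      rintro rfl
      apply ha
      rw [← h]; ring
    obtain ⟨Z, hZ⟩ := exists_exp (v := v) hz
    refine ⟨Z, ?_⟩
    rw [← h, map_mul, hD, map_pow, hZ, exp_add, exp_add, sq]
  by_cases hw : w = 0
  · have hX : X ≠ 0 := by
      rcases h0 with h | h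
      · exact absurd hw h
      · exact h
    subst hw
    obtain ⟨Z1, hZ1⟩ := hval hD1 E1 (by simpa using hX)
    obtain ⟨Z2, hZ2⟩ := hval hD2 E2 (by simpa using hX)
    obtain ⟨Z3, hZ3⟩ := hval hD3 E3 (by simpa using hX)
    rw [show X - e1 * 0 ^ 2 = X by ring] at hZ1
    rw [show X - e2 * 0 ^ 2 = X by ring] at hZ2
    rw [show X - e3 * 0 ^ 2 = X by ring] at hZ3
    rw [hZ1, exp_inj] at hZ2 hZ3
    rw [Int.even_iff]
    omega
  · obtain ⟨W, hW⟩ := exists_exp (v := v) hw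
    have dif : ∀ {e e' : K}, v (e - e') = (exp G) ^ 2 →
        v ((X - e' * w ^ 2) - (X - e * w ^ 2)) = exp (2 * (G + W)) := by
      intro e e' h
      rw [show (X - e' * w ^ 2) - (X - e * w ^ 2) = (e - e') * w ^ 2 by ring, map_mul, h,
        map_pow, hW, ← exp_nsmul, ← exp_nsmul, ← exp_add]
      congr 1
      simp
      ring
    have d12 := dif h12
    have d31 := dif h31
    set a1 := X - e1 * w ^ 2 with ha1
    set a2 := X - e2 * w ^ 2 with ha2
    set a3 := X - e3 * w ^ 2 with ha3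
    have dne : ∀ {a b : K}, v (a - b) = exp (2 * (G + W)) → a = 0 → v b = exp (2 * (G + W)) := by
      rintro a b h rfl
      rwa [zero_sub, Valuation.map_neg] at h
    have dne' : ∀ {a b : K}, v (a - b) = exp (2 * (G + W)) → b = 0 → v a = exp (2 * (G + W)) := by
      rintro a b h rfl
      rwa [sub_zero] at h
    by_cases h1 : a1 = 0
    · have hb2 := dne' d12 h1
      have hb3 := dne d31 h1
      have n2 : a2 ≠ 0 := by intro h; rw [h, map_zero] at hb2; exact exp_ne_zero hb2.symm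
      have n3 : a3 ≠ 0 := by intro h; rw [h, map_zero] at hb3; exact exp_ne_zero hb3.symm
      obtain ⟨Z2, hZ2⟩ := hval hD2 E2 n2
      obtain ⟨Z3, hZ3⟩ := hval hD3 E3 n3
      rw [hb2, exp_inj] at hZ2
      rw [hb3, exp_inj] at hZ3
      rw [Int.even_iff]
      omega
    · obtain ⟨Z1, hZ1⟩ := hval hD1 E1 h1
      by_cases h2 : a2 = 0
      · have := dne d12 h2
        rw [hZ1, exp_inj] at this
        rw [Int.even_iff]; omega
      · by_cases h3 : a3 = 0
        · have := dne' d31 h3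
          rw [hZ1, exp_inj] at this
          rw [Int.even_iff]; omega
        · obtain ⟨Z2, hZ2⟩ := hval hD2 E2 h2
          obtain ⟨Z3, hZ3⟩ := hval hD3 E3 h3
          obtain ⟨u1, u1'⟩ := ultra d12 hZ2 hZ1
          obtain ⟨u3, u3'⟩ := ultra d31 hZ1 hZ3
          rw [Int.even_iff]
          omega

end Pool.Agent.Work.MP_787500_nt
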