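import Mathlib

/-!
The approximate parallelogram law and finite generation from finiteness of `E(F)/2E(F)`.
-/

set_option autoImplicit false

namespace Pool.Agent.Work.MP_787500_nt

open WeierstrassCurve WeierstrassCurve.Affine Height MvPolynomial

section alg

variable {F : Type*} [Field F] [DecidableEq F] {W : WeierstrassCurve.Affine F}

omit [DecidableEq F] in
theorem addSubMap_eval (x : Fin 3 → F) :
    (fun i ↦ (addSubMap W i).eval x) = ![x 0 ^ 2 - W.b₄ * x 0 * x 2 - W.b₆ * x 1 * x 2 - W.b₈ * x 2 ^ 2,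
      2 * x 1 * x 0 + W.b₂ * x 0 * x 2 + W.b₄ * x 1 * x 2 + W.b₆ * x 2 ^ 2,
      x 1 ^ 2 - 4 * x 0 * x 2] := by
  funext i
  fin_cases i <;> simp [addSubMap]

omit [DecidableEq F] in
theorem negY_of (h1 : W.a₁ = 0) (h3 : W.a₃ = 0) (x y : F) : W.negY x y = -y := by
  simp [negY, h1, h3]

omit [DecidableEq F] in
theorem eqn_of (h1 : W.a₁ = 0) (h3 : W.a₃ = 0) {x y : F} (h : W.Nonsingular x y) :
    y ^ 2 = x ^ 3 + W.a₂ * x ^ 2 + W.a₄ * x + W.a₆ := by
  have := (equation_iff x y).1 h.1
  rw [h1, h3] at this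
  linear_combination this

omit [DecidableEq F] in
theorem nonsing_of (h1 : W.a₁ = 0) (h3 : W.a₃ = 0) {x : F} (h : W.Nonsingular x 0) :
    3 * x ^ 2 + 2 * W.a₂ * x + W.a₄ ≠ 0 := by
  have := ((nonsingular_iff' x 0).1 h).2
  rw [h1, h3] at this
  rcases this with h | h
  · intro h0
    apply h
    linear_combination -h0
  · exact absurd (by ring) h

/-- The double of a point, on the level of `x`-coordinates. -/
theorem exists_smul_double [NeZero (2 : F)] (h1 : W.a₁ = 0) (h3 : W.a₃ = 0) (P : W.Point) :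
    ∃ t : F, t ≠ 0 ∧ (fun i ↦ (addSubMap W i).eval (P.sym2x P)) = t • (P + P).sym2x 0 := by
  have h2 : (2 : F) ≠ 0 := NeZero.ne _
  rw [addSubMap_eval]
  rcases P with _ | ⟨x, y, hxy⟩
  · refine ⟨1, one_ne_zero, ?_⟩
    rw [← Point.zero_def, add_zero, Point.sym2x_zero_zero]
    ext i; fin_cases i <;> simp
  · rw [Point.sym2x_some_some]
    have heq := eqn_of h1 h3 hxy
    by_cases hy : y = 0
    · subst hy
      have hns := nonsing_of h1 h3 hxy
      have h0 : (Point.some x 0 hxy : W.Point) + Point.some x 0 hxy = 0 := by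
        apply Point.add_self_of_Y_eq
        rw [negY_of h1 h3, neg_zero]
      rw [h0, Point.sym2x_zero_zero]
      refine ⟨(3 * x ^ 2 + 2 * W.a₂ * x + W.a₄) ^ 2, pow_ne_zero _ hns, ?_⟩
      ext i
      fin_cases i <;> simp [b₂, b₄, b₆, b₈, h1, h3]
      · linear_combination (8 * x + 4 * W.a₂) * heq
      · linear_combination (-4 : F) * heq
      · ring
    · have hyn : y ≠ W.negY x y := by
        rw [negY_of h1 h3]
        intro hh
        apply hy
        have : (2 : F) * y = 0 := by linear_combination hh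
        exact (mul_eq_zero.1 this).resolve_left h2
      have h2y : (2 : F) * y ≠ 0 := mul_ne_zero h2 hy
      have hs : W.slope x x y y * (2 * y) = 3 * x ^ 2 + 2 * W.a₂ * x + W.a₄ := by
        rw [slope_of_Y_ne rfl hyn, negY_of h1 h3, h1]
        have : y - -y = 2 * y := by ring
        rw [this, div_mul_cancel₀ _ h2y]
        ring
      rw [Point.add_self_of_Y_ne hyn, Point.sym2x_some_zero]
      refine ⟨(2 * y) ^ 2, pow_ne_zero _ h2y, ?_⟩
      ext i
      fin_cases i <;> simp [b₂, b₄, b₆, b₈, h1, h3, addX]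
      · linear_combination (-(W.slope x x y y * (2 * y)) -
          (3 * x ^ 2 + 2 * W.a₂ * x + W.a₄)) * hs + (8 * x + 4 * W.a₂) * heq
      · linear_combination (-4 : F) * heq
      · ring

theorem exists_smul_addSub [NeZero (2 : F)] (h1 : W.a₁ = 0) (h3 : W.a₃ = 0) (P Q : W.Point) :
    ∃ t : F, t ≠ 0 ∧ (fun i ↦ (addSubMap W i).eval (P.sym2x Q)) = t • (P + Q).sym2x (P - Q) := by
  by_cases hPQ : P.xRep = Q.xRep
  · rcases Point.eq_or_eq_neg_of_xRep_eq_xRep hPQ with rfl | rfl
    · rw [sub_self]
      exact exists_smul_double h1 h3 P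
    · obtain ⟨t, ht, h⟩ := exists_smul_double h1 h3 Q
      refine ⟨t, ht, ?_⟩
      rw [Point.sym2x_neg_left, neg_add_cancel, h, Point.sym2x_comm,
        show -Q - Q = -(Q + Q) by abel, Point.sym2x_neg_right]
  · rcases P with _ | ⟨x, y, hxy⟩
    · rcases Q with _ | ⟨x', y', hxy'⟩
      · exact absurd rfl hPQ
      · refine ⟨1, one_ne_zero, ?_⟩
        rw [← Point.zero_def, zero_add, zero_sub, Point.sym2x_neg_right, addSubMap_eval,
          Point.sym2x_zero_some, Point.sym2x_some_some]
        ext i; fin_cases i <;> simp <;> ring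
    · rcases Q with _ | ⟨x', y', hxy'⟩
      · refine ⟨1, one_ne_zero, ?_⟩
        rw [← Point.zero_def, add_zero, sub_zero, addSubMap_eval,
          Point.sym2x_some_zero, Point.sym2x_some_some]
        ext i; fin_cases i <;> simp <;> ring
      · have hx : x ≠ x' := by
          rintro rfl
          exact hPQ (by rw [Point.xRep_some, Point.xRep_some])
        have hd : x - x' ≠ 0 := sub_ne_zero.2 hx
        have e1 := eqn_of h1 h3 hxy
        have e2 := eqn_of h1 h3 hxy'
        have hs1 : W.slope x x' y y' * (x - x') = y - y' := by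
          rw [slope_of_X_ne hx, div_mul_cancel₀ _ hd]
        have hs2 : W.slope x x' y (-y') * (x - x') = y + y' := by
          rw [slope_of_X_ne hx, div_mul_cancel₀ _ hd, sub_neg_eq_add]
        refine ⟨(x - x') ^ 2, pow_ne_zero _ hd, ?_⟩
        rw [sub_eq_add_neg (Point.some x y hxy : W.Point), Point.neg_some, Point.add_of_X_ne hx, Point.add_of_X_ne hx,
          Point.sym2x_some_some, Point.sym2x_some_some, addSubMap_eval]
        simp only [negY_of h1 h3, addX, h1]
        set s1 := W.slope x x' y y' with hs1d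
        set s2 := W.slope x x' y (-y') with hs2d
        -- squares of slopes
        have q1 : s1 ^ 2 * (x - x') ^ 2 = (y - y') ^ 2 := by rw [← mul_pow, hs1]
        have q2 : s2 ^ 2 * (x - x') ^ 2 = (y + y') ^ 2 := by rw [← mul_pow, hs2]
        have q3 : s1 * s2 * (x - x') = x ^ 2 + x * x' + x' ^ 2 + W.a₂ * (x + x') + W.a₄ := by
          apply mul_right_cancel₀ hd
          linear_combination (s2 * (x - x')) * hs1 + (y - y') * hs2 + e1 - e2
        ext i
        fin_cases i <;> simp [b₂, b₄, b₆, b₈, h1, h3]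
        · have q4 : (s1 * s2) ^ 2 * (x - x') ^ 2 =
              (x ^ 2 + x * x' + x' ^ 2 + W.a₂ * (x + x') + W.a₄) ^ 2 := by
            rw [← mul_pow, q3]
          linear_combination (-1 : F) * q4 + (W.a₂ + x + x') * q1 + (W.a₂ + x + x') * q2 +
            2 * (W.a₂ + x + x') * e1 + 2 * (W.a₂ + x + x') * e2
        · linear_combination (-1 : F) * q1 - q2 - 2 * e1 - 2 * e2
        · ring

end alg

section height

variable {F : Type*} [Field F] [DecidableEq F] [AdmissibleAbsValues F] {W : WeierstrassCurve.Affine F}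

/-- The approximate parallelogram law. -/
theorem parallelogram [NeZero (2 : F)] [WeierstrassCurve.IsElliptic W] (h1 : W.a₁ = 0)
    (h3 : W.a₃ = 0) : ∃ C : ℝ, ∀ P Q : W.Point,
      |logHeight (P + Q).xRep + logHeight (P - Q).xRep -
        2 * (logHeight P.xRep + logHeight Q.xRep)| ≤ C := by
  obtain ⟨C1, hC1⟩ := abs_logHeight_sym2_sub_le F
  obtain ⟨C2, hC2⟩ := abs_logHeight_addSubMap_sub_two_mul_logHeight_le W
  refine ⟨C1 + C2 + 2 * C1, fun P Q => ?_⟩
  have key : ∀ P Q : W.Point, |logHeight (P.sym2x Q) - (logHeight P.xRep + logHeight Q.xRep)| ≤ C1 := by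
    intro P Q
    have e : ∀ R : W.Point, ![R.xRep 0, R.xRep 1] = R.xRep := by
      intro R
      ext i; fin_cases i <;> rfl
    have hne : ∀ R : W.Point, ![R.xRep 0, R.xRep 1] ≠ 0 := by
      intro R
      rw [e]
      exact Point.xRep_ne_zero R
    have := hC1 (hne P) (hne Q)
    rw [e, e] at this
    exact this
  have k1 := key P Q
  have k2 := key (P + Q) (P - Q)
  have k3 := hC2 (P.sym2x Q)
  obtain ⟨t, ht, h⟩ := exists_smul_addSub h1 h3 P Q
  rw [h, logHeight_smul_eq_logHeight _ ht] at k3
  rw [abs_le] at *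
  constructor <;> linarith [k1.1, k1.2, k2.1, k2.2, k3.1, k3.2]

end height

section nf

variable {F : Type*} [Field F] [DecidableEq F] [NumberField F] {W : WeierstrassCurve.Affine F}

theorem northcott_points : Northcott (fun P : W.Point => logHeight P.xRep) where
  finite_le B := by
    have hfin : ({![1, 0]} ∪ (fun x : F => ![x, 1]) '' {x : F | logHeight₁ x ≤ B}).Finite :=
      (Set.finite_singleton _).union ((NumberField.finite_setOfPred_logHeight₁_le F B).image _)
    refine Set.Finite.of_finite_fibers (fun P : W.Point => P.xRep) (hfin.subset ?_) ?_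
    · rintro _ ⟨P, hP, rfl⟩
      rcases P with _ | ⟨x, y, hxy⟩
      · left; rfl
      · right
        refine ⟨x, ?_, rfl⟩
        show logHeight₁ x ≤ B
        rw [logHeight₁_eq_logHeight]
        exact hP
    · rintro _ ⟨P, hP, rfl⟩
      refine Set.Finite.subset (Set.toFinite {P, -P}) ?_
      rintro Q ⟨-, hQ⟩
      rcases Point.eq_or_eq_neg_of_xRep_eq_xRep hQ with h | h
      · left; exact h
      · right; exact h

/-- Finite generation from finiteness of the quotient by doubling. -/
theorem fg_of_finiteIndex [WeierstrassCurve.IsElliptic W] (h1 : W.a₁ = 0)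
    (h3 : W.a₃ = 0) (h : (nsmulAddMonoidHom (α := W.Point) 2).range.FiniteIndex) :
    AddGroup.FG W.Point := by
  obtain ⟨C, hC⟩ := parallelogram (W := W) h1 h3
  have := northcott_points (W := W)
  exact AddCommGroup.fg_of_descent' (h := fun P : W.Point => logHeight P.xRep) h
    (fun P => logHeight_nonneg _) hC

end nf

end Pool.Agent.Work.MP_787500_nt
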