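import Mathlib

/-!
For a finitely generated abelian group, the index of the subgroup of doubles.
-/

set_option autoImplicit false

namespace Pool.Agent.Work.MP_787500_nt

/-- doubling -/
abbrev dbl (G : Type*) [AddCommGroup G] : G →+ G := nsmulAddMonoidHom 2

theorem dbl_range_map {G H : Type*} [AddCommGroup G] [AddCommGroup H] (e : G ≃+ H) :
    (dbl G).range.map (e : G →+ H) = (dbl H).range := by
  ext y
  simp only [AddSubgroup.mem_map, AddMonoidHom.mem_range, exists_exists_eq_and]
  constructor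
  · rintro ⟨x, rfl⟩
    exact ⟨e x, by simp⟩
  · rintro ⟨x, rfl⟩
    exact ⟨e.symm x, by simp⟩

theorem index_dbl_congr {G H : Type*} [AddCommGroup G] [AddCommGroup H] (e : G ≃+ H) :
    (dbl G).range.index = (dbl H).range.index := by
  rw [← dbl_range_map e, AddSubgroup.index_map_equiv]

theorem index_dbl_prod (G H : Type*) [AddCommGroup G] [AddCommGroup H] :
    (dbl (G × H)).range.index = (dbl G).range.index * (dbl H).range.index := by
  rw [← AddSubgroup.index_prod]
  congr 1
  ext ⟨x, y⟩
  simp only [AddMonoidHom.mem_range, AddSubgroup.mem_prod]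
  constructor
  · rintro ⟨⟨a, b⟩, h⟩
    simp only [nsmulAddMonoidHom_apply, Prod.smul_mk, Prod.mk.injEq] at h
    exact ⟨⟨a, h.1⟩, ⟨b, h.2⟩⟩
  · rintro ⟨⟨a, ha⟩, ⟨b, hb⟩⟩
    exact ⟨(a, b), Prod.ext ha hb⟩

theorem index_dbl_int_pow (n : ℕ) : (dbl (Fin n → ℤ)).range.index = 2 ^ n := by
  have h : (dbl (Fin n → ℤ)).range = AddSubgroup.pi Set.univ (fun _ : Fin n => (dbl ℤ).range) := by
    ext x
    simp only [AddMonoidHom.mem_range, AddSubgroup.mem_pi, Set.mem_univ, forall_true_left]
    constructor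
    · rintro ⟨a, rfl⟩ i
      exact ⟨a i, rfl⟩
    · intro h
      choose a ha using h
      exact ⟨a, funext ha⟩
  rw [h, AddSubgroup.index_pi, Finset.prod_const, Finset.card_univ, Fintype.card_fin]
  congr 1
  have : (dbl ℤ).range = AddSubgroup.zmultiples 2 := by
    ext x
    simp only [AddMonoidHom.mem_range, AddSubgroup.mem_zmultiples_iff]
    constructor
    · rintro ⟨a, rfl⟩; exact ⟨a, by simp [mul_comm]⟩
    · rintro ⟨a, rfl⟩; exact ⟨a, by simp [mul_comm]⟩
  rw [this, Int.index_zmultiples]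
  rfl

theorem card_ker_congr {G H : Type*} [AddCommGroup G] [AddCommGroup H] (e : G ≃+ H) :
    Nat.card (dbl G).ker = Nat.card (dbl H).ker := by
  refine Nat.card_congr ⟨fun x => ⟨e x.1, ?_⟩, fun x => ⟨e.symm x.1, ?_⟩, ?_, ?_⟩
  · have := x.2
    rw [AddMonoidHom.mem_ker] at this ⊢
    simp only [nsmulAddMonoidHom_apply] at this ⊢
    rw [← map_nsmul, this, map_zero]
  · have := x.2
    rw [AddMonoidHom.mem_ker] at this ⊢
    simp only [nsmulAddMonoidHom_apply] at this ⊢
    rw [← map_nsmul, this, map_zero]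
  · intro x; simp
  · intro x; simp

theorem index_dbl_eq (G : Type*) [AddCommGroup G] [AddGroup.FG G] :
    (dbl G).range.index = 2 ^ Module.finrank ℤ G * Nat.card (dbl G).ker := by
  obtain ⟨n, ι, _, p, hp, e, ⟨f⟩⟩ := AddCommGroup.equiv_free_prod_directSum_zmod G
  have : ∀ i, NeZero (p i ^ e i) := fun i => ⟨pow_ne_zero _ (hp i).ne_zero⟩
  set T := DirectSum ι (fun i => ZMod (p i ^ e i)) with hT
  have hfin : Finite T := Finite.of_equiv _ DFinsupp.equivFunOnFintype.symm
  let g : G ≃+ (Fin n → ℤ) × T :=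
    f.trans (AddEquiv.prodCongr (Finsupp.linearEquivFunOnFinite ℤ ℤ (Fin n)).toAddEquiv
      (AddEquiv.refl T))
  have h1 : (dbl G).range.index = 2 ^ n * Nat.card (dbl T).ker := by
    rw [index_dbl_congr g, index_dbl_prod, index_dbl_int_pow, AddSubgroup.index_range]
  have h2 : Nat.card (dbl G).ker = Nat.card (dbl T).ker := by
    rw [card_ker_congr g]
    refine Nat.card_congr ⟨fun x => ⟨x.1.2, ?_⟩, fun x => ⟨(0, x.1), ?_⟩, ?_, ?_⟩
    · have := x.2
      rw [AddMonoidHom.mem_ker] at this ⊢
      exact congrArg Prod.snd this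
    · have := x.2
      rw [AddMonoidHom.mem_ker] at this ⊢
      refine Prod.ext ?_ this
      simp
    · rintro ⟨⟨a, b⟩, hx⟩
      rw [AddMonoidHom.mem_ker] at hx
      have ha : (2 : ℕ) • a = 0 := congrArg Prod.fst hx
      have : a = 0 := by
        funext i
        have := congrFun ha i
        simpa using this
      simp [this]
    · rintro ⟨b, hb⟩
      rfl
  have h3 : Module.finrank ℤ G = n := by
    have hf : Module.Finite ℤ G := Module.Finite.iff_addGroup_fg.mpr inferInstance
    let φ : G →ₗ[ℤ] (Fin n → ℤ) := (LinearMap.fst ℤ (Fin n → ℤ) T).comp g.toAddMonoidHom.toIntLinearMap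
    have hsurj : Function.Surjective φ := by
      intro y
      exact ⟨g.symm (y, 0), by simp [φ]⟩
    have hk : Module.finrank ℤ (LinearMap.ker φ) = 0 := by
      rw [Module.finrank_eq_zero_iff_isTorsion]
      rintro ⟨x, hx⟩
      obtain ⟨m, hm, hmx⟩ : ∃ m : ℕ, m ≠ 0 ∧ m • (g x).2 = 0 := by
        refine ⟨addOrderOf (g x).2, ?_, addOrderOf_nsmul_eq_zero _⟩
        exact (isOfFinAddOrder_of_finite (g x).2).addOrderOf_pos.ne'
      refine ⟨⟨(m : ℤ), by simpa using hm⟩, ?_⟩
      have : m • x = 0 := by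
        apply g.injective
        rw [map_nsmul, map_zero]
        refine Prod.ext ?_ hmx
        have : (g x).1 = 0 := hx
        show m • (g x).1 = 0
        rw [this, smul_zero]
      apply Subtype.ext
      show ((⟨(m : ℤ), _⟩ : nonZeroDivisors ℤ) : ℤ) • x = 0
      simpa using this
    have := (LinearMap.ker φ).finrank_quotient_add_finrank
    rw [hk, add_zero, (φ.quotKerEquivOfSurjective hsurj).finrank_eq] at this
    rw [← this]
    simp
  rw [h1, h2, h3]

end Pool.Agent.Work.MP_787500_nt
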