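import Mathlib
import Pool.Agent.Work.MP_787500_nt.H10_Defs
import Pool.Agent.Work.MP_787500_nt.H10_Tower
import Pool.Agent.Work.MP_787500_nt.H10_Local
import Pool.Agent.Work.MP_787500_nt.H10_Even
import Pool.Agent.Work.MP_787500_nt.H10_Kappa
import Pool.Agent.Work.MP_787500_nt.H10_MW
import Pool.Agent.Work.MP_787500_nt.H10_Rank

/-!
Two-descent on curves with rational two-torsion over a field with the local-global square property.
-/

set_option autoImplicit false
set_option linter.unusedSectionVars false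

namespace Pool.Agent.Work.MP_787500_nt

open WithZero IsDedekindDomain NumberField WeierstrassCurve WeierstrassCurve.Affine

variable {F : Type*} [Field F] [NumberField F]

/-- a triple which is locally soluble everywhere -/
structure ELS (e1 e2 e3 d1 d2 d3 : F) : Prop where
  h1 : d1 ≠ 0
  h2 : d2 ≠ 0
  h3 : d3 ≠ 0
  sq : IsSquare (d1 * d2 * d3)
  loc : ∀ v : HeightOneSpectrum (𝓞 F), HomSol e1 e2 e3 d1 d2 d3 (v.adicCompletion F)

theorem val_ne_one_finite {x : F} (hx : x ≠ 0) :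
    {v : HeightOneSpectrum (𝓞 F) | v.valuation F x ≠ 1}.Finite := by
  refine ((HeightOneSpectrum.Support.finite (𝓞 F) x).union
    (HeightOneSpectrum.Support.finite (𝓞 F) x⁻¹)).subset ?_
  intro v hv
  by_contra h
  rw [Set.mem_union, not_or] at h
  obtain ⟨h1, h2⟩ := h
  apply hv
  have h3 : v.valuation F x ≤ 1 := not_lt.1 h1
  have h4 : v.valuation F x⁻¹ ≤ 1 := not_lt.1 h2
  have h5 : v.valuation F x * v.valuation F x⁻¹ = 1 := by
    rw [← map_mul, mul_inv_cancel₀ hx, map_one]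
  apply le_antisymm h3
  calc (1 : ℤᵐ⁰) = v.valuation F x * v.valuation F x⁻¹ := h5.symm
    _ ≤ v.valuation F x * 1 := mul_le_mul' le_rfl h4
    _ = v.valuation F x := mul_one _

theorem places_finite {e1 e2 e3 : F} (h12 : e1 ≠ e2) (h23 : e2 ≠ e3) (h31 : e3 ≠ e1) :
    (multPlaces e1 e2 e3 ∪ addPlaces e1 e2 e3).Finite := by
  refine ((val_ne_one_finite (sub_ne_zero.2 h12)).union
    ((val_ne_one_finite (sub_ne_zero.2 h23)).union
      (val_ne_one_finite (sub_ne_zero.2 h31)))).subset ?_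
  intro v hv
  by_contra h
  rw [Set.mem_union, Set.mem_union, not_or, not_or] at h
  obtain ⟨h1, h2, h3⟩ := h
  have g1 : v.valuation F (e1 - e2) = 1 := not_not.1 h1
  have g2 : v.valuation F (e2 - e3) = 1 := not_not.1 h2
  have g3 : v.valuation F (e3 - e1) = 1 := not_not.1 h3
  rcases hv with ⟨-, -, hv⟩ | ⟨-, hv⟩
  · exact hv ⟨by rw [g1, g2], by rw [g2, g3]⟩
  · apply hv
    rw [diffVal, g1, g2, g3, max_self, max_self]
    exact ⟨1, (mul_one 1).symm⟩

/-- the maximum is attained twice -/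
theorem far_cases (e1 e2 e3 : F) (v : HeightOneSpectrum (𝓞 F)) :
    (v.valuation F (e1 - e2) = v.valuation F (e1 - e3) ∧
      v.valuation F (e1 - e2) = diffVal e1 e2 e3 v) ∨
    (v.valuation F (e2 - e3) = v.valuation F (e2 - e1) ∧
      v.valuation F (e2 - e3) = diffVal e1 e2 e3 v) ∨
    (v.valuation F (e3 - e1) = v.valuation F (e3 - e2) ∧
      v.valuation F (e3 - e1) = diffVal e1 e2 e3 v) := by
  have hc : e3 - e1 = -((e2 - e3) + (e1 - e2)) := by ring
  rcases lt_trichotomy (v.valuation F (e1 - e2)) (v.valuation F (e2 - e3)) with h | h | h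
  · right; right
    have h1 : v.valuation F (e3 - e1) = v.valuation F (e2 - e3) := by
      rw [hc, Valuation.map_neg, Valuation.map_add_eq_of_lt_left _ h]
    refine ⟨by rw [h1, Valuation.map_sub_swap], ?_⟩
    rw [diffVal, h1, max_self, max_eq_right h.le]
  · right; left
    have h1 : v.valuation F (e3 - e1) ≤ v.valuation F (e2 - e3) := by
      rw [hc, Valuation.map_neg]
      exact (Valuation.map_add _ _ _).trans (max_le le_rfl h.le)
    refine ⟨by rw [← h, Valuation.map_sub_swap], ?_⟩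
    rw [diffVal, h, max_eq_left h1, max_self]
  · left
    have h1 : v.valuation F (e3 - e1) = v.valuation F (e1 - e2) := by
      rw [hc, Valuation.map_neg, Valuation.map_add_eq_of_lt_right _ h]
    refine ⟨by rw [← h1, Valuation.map_sub_swap], ?_⟩
    rw [diffVal, h1, max_eq_right h.le, max_self]

theorem ELS.rot {e1 e2 e3 d1 d2 d3 : F} (h : ELS e1 e2 e3 d1 d2 d3) : ELS e2 e3 e1 d2 d3 d1 where
  h1 := h.h2
  h2 := h.h3
  h3 := h.h1
  sq := by rw [show d2 * d3 * d1 = d1 * d2 * d3 by ring]; exact h.sq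
  loc v := (h.loc v).rot

theorem ELS.swap {e1 e2 e3 d1 d2 d3 : F} (h : ELS e1 e2 e3 d1 d2 d3) : ELS e1 e3 e2 d1 d3 d2 where
  h1 := h.h1
  h2 := h.h3
  h3 := h.h2
  sq := by rw [show d1 * d3 * d2 = d1 * d2 * d3 by ring]; exact h.sq
  loc v := by
    obtain ⟨X, w, z1, z2, z3, h0, E1, E2, E3⟩ := h.loc v
    exact ⟨X, w, z1, z3, z2, h0, E1, E3, E2⟩

theorem ELS.even {e1 e2 e3 d1 d2 d3 : F} (hs : ELS e1 e2 e3 d1 d2 d3) (h12 : e1 ≠ e2)
    {v : HeightOneSpectrum (𝓞 F)} (heq : v.valuation F (e1 - e2) = v.valuation F (e1 - e3))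
    (hsqr : IsSquare (v.valuation F (e1 - e2))) : IsSquare (v.valuation F d1) := by
  obtain ⟨g, hg⟩ := hsqr
  have hg0 : g ≠ 0 := by
    rintro rfl
    rw [mul_zero] at hg
    exact h12 (sub_eq_zero.1 (((v.valuation F).zero_iff).1 hg))
  set ι := algebraMap F (v.adicCompletion F) with hι
  have hVι : ∀ k, VC v (ι k) = v.valuation F k := VC_algebraMap v
  have hne : ∀ k, k ≠ 0 → ι k ≠ 0 := fun k hk => (map_ne_zero ι).2 hk
  obtain ⟨X, w, z1, z2, z3, h0, E1, E2, E3⟩ := hs.loc v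
  have v12 : VC v (ι e1 - ι e2) = g ^ 2 := by
    rw [← map_sub, hVι, hg, pow_two]
  have v31 : VC v (ι e3 - ι e1) = g ^ 2 := by
    rw [← map_sub, hVι, Valuation.map_sub_swap, ← heq, hg, pow_two]
  have hsq : IsSquare (ι d1 * ι d2 * ι d3) := by
    obtain ⟨q, hq⟩ := hs.sq
    exact ⟨ι q, by rw [← map_mul, ← map_mul, hq, map_mul]⟩
  rw [← hVι]
  exact even_of_sol hg0 v12 v31 (hne _ hs.h1) (hne _ hs.h2) (hne _ hs.h3) hsq h0 E1 E2 E3

theorem VC_two_lt {v : HeightOneSpectrum (𝓞 F)} (hv : (2 : 𝓞 F) ∈ v.asIdeal) :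
    VC v (2 : v.adicCompletion F) < 1 := by
  have h1 : (2 : v.adicCompletion F) = algebraMap F (v.adicCompletion F) 2 := by
    rw [map_ofNat]
  rw [h1, VC_algebraMap, show (2 : F) = algebraMap (𝓞 F) F 2 by rw [map_ofNat],
    HeightOneSpectrum.valuation_lt_one_iff_mem]
  exact hv

theorem completion_two_ne_zero {v : HeightOneSpectrum (𝓞 F)} : (2 : v.adicCompletion F) ≠ 0 := by
  have h1 : (2 : v.adicCompletion F) = algebraMap F (v.adicCompletion F) 2 := by
    rw [map_ofNat]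
  rw [h1, Ne, map_eq_zero]
  exact two_ne_zero

/-- the dyadic condition: `e2` is far from the close pair `e1, e3` -/
theorem ELS.far {e1 e2 e3 d1 d2 d3 : F} (hs : ELS e1 e2 e3 d1 d2 d3) (h23 : e2 ≠ e3)
    {v : HeightOneSpectrum (𝓞 F)} (hv : (2 : 𝓞 F) ∈ v.asIdeal)
    (hfar : v.valuation F (e3 - e1) ≤ v.valuation F (16 * (e3 - e2))) :
    FarClass (VC v) (algebraMap F (v.adicCompletion F) (e3 - e2))
      (algebraMap F (v.adicCompletion F) d2) := by
  set ι := algebraMap F (v.adicCompletion F) with hι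
  have hVι : ∀ k, VC v (ι k) = v.valuation F k := VC_algebraMap v
  have hne : ∀ k, k ≠ 0 → ι k ≠ 0 := fun k hk => (map_ne_zero ι).2 hk
  obtain ⟨X, w, z1, z2, z3, h0, E1, E2, E3⟩ := hs.loc v
  refine farClass_of_sol (c := ι (e3 - e1)) (d1 := ι d1) (d3 := ι d3)
    (B := X - ι e3 * w ^ 2) (w := w) (z1 := z1) (z2 := z2) (z3 := z3)
    completion_two_ne_zero (VC_two_lt hv) (hne _ (sub_ne_zero.2 h23.symm)) (hne _ hs.h2)
    ?_ ?_ ?_ ?_ ?_ ?_
  · obtain ⟨q, hq⟩ := hs.sq
    exact ⟨ι q, by rw [← map_mul, ← map_mul, hq, map_mul]⟩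
  · have e : (16 : v.adicCompletion F) * ι (e3 - e2) = ι (16 * (e3 - e2)) := by
      rw [← map_ofNat ι 16, ← map_mul]
    rw [e, hVι, hVι]
    exact hfar
  · rcases h0 with h | h
    · exact Or.inl h
    · by_cases hw : w = 0
      · right
        rw [hw]
        simpa using h
      · exact Or.inl hw
  · rw [E1, map_sub]; ring
  · rw [E2, map_sub]; ring
  · exact E3

/-- two far classes with the same local status have square product -/
theorem locSq_mul_of_far {v : HeightOneSpectrum (𝓞 F)} {b d d' : F}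
    (hv : (2 : 𝓞 F) ∈ v.asIdeal) (hb : b ≠ 0)
    (h : FarClass (VC v) (algebraMap F (v.adicCompletion F) b)
      (algebraMap F (v.adicCompletion F) d))
    (h' : FarClass (VC v) (algebraMap F (v.adicCompletion F) b)
      (algebraMap F (v.adicCompletion F) d'))
    (hiff : LocSq (v.valuation F) d ↔ LocSq (v.valuation F) d') :
    LocSq (v.valuation F) (d * d') := by
  by_cases hd : LocSq (v.valuation F) d
  · exact hd.mul (hiff.1 hd)
  · have hd2 : ¬ LocSq (v.valuation F) d' := fun h => hd (hiff.2 h)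
    apply locSq_of_completion
    rw [map_mul]
    exact h.locSq_mul (asProp_completion v hv) completion_two_ne_zero (VC_two_lt hv)
      ((map_ne_zero _).2 hb) h' (fun h => hd (locSq_of_completion v h))
      (fun h => hd2 (locSq_of_completion v h))

/-- the type of invariants -/
abbrev Invs (S T : Set (HeightOneSpectrum (𝓞 F))) : Type _ :=
  ((S → Prop) × (T → Prop) × (T → Prop)) × Prop × Prop

/-- the invariants -/
noncomputable def invs (e1 e2 e3 : F) (w w' : HeightOneSpectrum (𝓞 F)) (d2 d3 : F) :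
    Invs (multPlaces e1 e2 e3) (addPlaces e1 e2 e3) :=
  ((fun v => ((v.1.valuation F (e2 - e3) = v.1.valuation F (e2 - e1) ∧
        v.1.valuation F (e2 - e3) = diffVal e1 e2 e3 v.1) ∧ IsSquare (v.1.valuation F d3)) ∨
      (¬ (v.1.valuation F (e2 - e3) = v.1.valuation F (e2 - e1) ∧
        v.1.valuation F (e2 - e3) = diffVal e1 e2 e3 v.1) ∧ IsSquare (v.1.valuation F d2)),
    fun v => IsSquare (v.1.valuation F d2), fun v => IsSquare (v.1.valuation F d3)),
    LocSq (w.valuation F) d2, LocSq (w'.valuation F) d3)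

theorem card_inv {S T : Set (HeightOneSpectrum (𝓞 F))} (hS : S.Finite) (hT : T.Finite) :
    Nat.card (Invs S T) = 2 ^ (S.ncard + 2 * T.ncard + 2) := by
  have : Finite S := hS.to_subtype
  have : Finite T := hT.to_subtype
  have h : Nat.card Prop = 2 := by
    rw [Nat.card_eq_fintype_card]; rfl
  rw [Nat.card_prod, Nat.card_prod, Nat.card_prod, Nat.card_prod, Nat.card_fun, Nat.card_fun, h,
    Nat.card_coe_set_eq, Nat.card_coe_set_eq]
  ring

theorem isSquare_mul_of_iff {x y : ℤᵐ⁰} (hx : x ≠ 0) (hy : y ≠ 0) (h : IsSquare x ↔ IsSquare y) :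
    IsSquare (x * y) := by
  obtain ⟨m, rfl⟩ : ∃ m : ℤ, x = exp m := ⟨_, (exp_log hx).symm⟩
  obtain ⟨n, rfl⟩ : ∃ n : ℤ, y = exp n := ⟨_, (exp_log hy).symm⟩
  rw [isSquare_exp_iff, isSquare_exp_iff] at h
  rw [← exp_add, isSquare_exp_iff, Int.even_add]
  exact h

theorem isSquare_iff_of_mul {x y : ℤᵐ⁰} (hx : x ≠ 0) (hy : y ≠ 0) (h : IsSquare (x * y)) :
    IsSquare x ↔ IsSquare y := by
  obtain ⟨m, rfl⟩ : ∃ m : ℤ, x = exp m := ⟨_, (exp_log hx).symm⟩
  obtain ⟨n, rfl⟩ : ∃ n : ℤ, y = exp n := ⟨_, (exp_log hy).symm⟩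
  rw [← exp_add, isSquare_exp_iff, Int.even_add] at h
  rw [isSquare_exp_iff, isSquare_exp_iff]
  exact h

theorem ELS.even_iff {e1 e2 e3 d1 d2 d3 : F} (hs : ELS e1 e2 e3 d1 d2 d3)
    {v : HeightOneSpectrum (𝓞 F)} (h : IsSquare (v.valuation F d1)) :
    IsSquare (v.valuation F d2) ↔ IsSquare (v.valuation F d3) := by
  have val_ne : ∀ {d : F}, d ≠ 0 → v.valuation F d ≠ 0 :=
    fun hd => ((v.valuation F).ne_zero_iff).2 hd
  apply isSquare_iff_of_mul (val_ne hs.h2) (val_ne hs.h3)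
  obtain ⟨r, hr⟩ := hs.sq
  have h1 : IsSquare (v.valuation F d1 * (v.valuation F d2 * v.valuation F d3)) := by
    rw [← mul_assoc, ← map_mul, ← map_mul, hr, map_mul]
    exact ⟨_, rfl⟩
  exact (isSquare_iff_of_mul (val_ne hs.h1) (mul_ne_zero (val_ne hs.h2) (val_ne hs.h3)) h1).1 h

theorem sel_iff {P A B A' B' : Prop} (h : (P ∧ A ∨ ¬ P ∧ B) ↔ (P ∧ A' ∨ ¬ P ∧ B')) :
    (P → (A ↔ A')) ∧ (¬ P → (B ↔ B')) := by tauto

/-- equal invariants force equal parities at all places not above 2 -/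
theorem parity_of_invs {e1 e2 e3 : F} (h12 : e1 ≠ e2) (h23 : e2 ≠ e3) (h31 : e3 ≠ e1)
    {w w' : HeightOneSpectrum (𝓞 F)} {d1 d2 d3 d1' d2' d3' : F} (hs : ELS e1 e2 e3 d1 d2 d3)
    (hs' : ELS e1 e2 e3 d1' d2' d3')
    (h : invs e1 e2 e3 w w' d2 d3 = invs e1 e2 e3 w w' d2' d3') {v : HeightOneSpectrum (𝓞 F)}
    (hv : (2 : 𝓞 F) ∉ v.asIdeal) :
    (IsSquare (v.valuation F d2) ↔ IsSquare (v.valuation F d2')) ∧
    (IsSquare (v.valuation F d3) ↔ IsSquare (v.valuation F d3')) := by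
  by_cases hadd : v ∈ addPlaces e1 e2 e3
  · have h1 := congrArg (fun x => x.1.2.1 ⟨v, hadd⟩) h
    have h2 := congrArg (fun x => x.1.2.2 ⟨v, hadd⟩) h
    exact ⟨iff_of_eq h1, iff_of_eq h2⟩
  have hsq : IsSquare (diffVal e1 e2 e3 v) := by
    by_contra hcon
    exact hadd ⟨hv, hcon⟩
  by_cases hall : v.valuation F (e1 - e2) = v.valuation F (e2 - e3) ∧
      v.valuation F (e2 - e3) = v.valuation F (e3 - e1)
  · obtain ⟨g1, g2⟩ := hall
    have g3 : diffVal e1 e2 e3 v = v.valuation F (e2 - e3) := by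
      rw [diffVal, g1, ← g2, max_self, max_self]
    rw [g3] at hsq
    have e2s : v.valuation F (e2 - e3) = v.valuation F (e2 - e1) := by
      rw [← g1, Valuation.map_sub_swap]
    have e3s : v.valuation F (e3 - e1) = v.valuation F (e3 - e2) := by
      rw [← g2, Valuation.map_sub_swap]
    have a2 := hs.rot.even h23 e2s hsq
    have a2' := hs'.rot.even h23 e2s hsq
    have a3 := hs.rot.rot.even h31 e3s (by rw [← g2]; exact hsq)
    have a3' := hs'.rot.rot.even h31 e3s (by rw [← g2]; exact hsq)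
    exact ⟨iff_of_true a2 a2', iff_of_true a3 a3'⟩
  · have hmult : v ∈ multPlaces e1 e2 e3 := ⟨hv, hsq, hall⟩
    have h1 := iff_of_eq (congrArg (fun x => x.1.1 ⟨v, hmult⟩) h)
    by_cases hfar : v.valuation F (e2 - e3) = v.valuation F (e2 - e1) ∧
        v.valuation F (e2 - e3) = diffVal e1 e2 e3 v
    · have a2 := hs.rot.even h23 hfar.1 (by rw [hfar.2]; exact hsq)
      have a2' := hs'.rot.even h23 hfar.1 (by rw [hfar.2]; exact hsq)
      exact ⟨iff_of_true a2 a2', (sel_iff h1).1 hfar⟩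
    · have hb : IsSquare (v.valuation F d2) ↔ IsSquare (v.valuation F d2') := (sel_iff h1).2 hfar
      refine ⟨hb, ?_⟩
      rcases far_cases e1 e2 e3 v with hf | hf | hf
      · have a1 := hs.even h12 hf.1 (by rw [hf.2]; exact hsq)
        have a1' := hs'.even h12 hf.1 (by rw [hf.2]; exact hsq)
        rw [← hs.even_iff a1, ← hs'.even_iff a1']
        exact hb
      · exact absurd hf hfar
      · have a3 := hs.rot.rot.even h31 hf.1 (by rw [hf.2]; exact hsq)
        have a3' := hs'.rot.rot.even h31 hf.1 (by rw [hf.2]; exact hsq)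
        exact iff_of_true a3 a3'

theorem isSquare_of_inv_eq (hF : PropP F) {e1 e2 e3 : F} (h23 : e2 ≠ e3)
    {w : HeightOneSpectrum (𝓞 F)} (hw : (2 : 𝓞 F) ∈ w.asIdeal)
    (hfar : w.valuation F (e3 - e1) ≤ w.valuation F (16 * (e3 - e2)))
    {d1 d2 d3 d1' d2' d3' : F} (hs : ELS e1 e2 e3 d1 d2 d3) (hs' : ELS e1 e2 e3 d1' d2' d3')
    (h1 : ∀ v : HeightOneSpectrum (𝓞 F), (2 : 𝓞 F) ∉ v.asIdeal →
      (IsSquare (v.valuation F d2) ↔ IsSquare (v.valuation F d2')))
    (h2 : LocSq (w.valuation F) d2 ↔ LocSq (w.valuation F) d2') :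
    IsSquare (d2 * d2') := by
  have val_ne : ∀ (v : HeightOneSpectrum (𝓞 F)) {d : F}, d ≠ 0 → v.valuation F d ≠ 0 :=
    fun v d hd => ((v.valuation F).ne_zero_iff).2 hd
  refine hF w hw _ (mul_ne_zero hs.h2 hs'.h2) ?_
    (locSq_mul_of_far hw (sub_ne_zero.2 h23.symm) (hs.far h23 hw hfar) (hs'.far h23 hw hfar) h2)
  intro v hv
  rw [map_mul]
  exact isSquare_mul_of_iff (val_ne v hs.h2) (val_ne v hs'.h2) (h1 v hv)

theorem HomSol.map {e1 e2 e3 d1 d2 d3 : F} (h : HomSol e1 e2 e3 d1 d2 d3 F) (E : Type*) [Field E]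
    [Algebra F E] : HomSol e1 e2 e3 d1 d2 d3 E := by
  obtain ⟨X, w, z1, z2, z3, h0, E1, E2, E3⟩ := h
  simp only [Algebra.algebraMap_self, RingHom.id_apply] at E1 E2 E3
  refine ⟨algebraMap F E X, algebraMap F E w, algebraMap F E z1, algebraMap F E z2,
    algebraMap F E z3, ?_, ?_, ?_, ?_⟩
  · rcases h0 with h | h
    · exact Or.inl ((map_ne_zero _).2 h)
    · exact Or.inr ((map_ne_zero _).2 h)
  · rw [← map_pow, ← map_mul, E1, map_sub, map_mul, map_pow]
  · rw [← map_pow, ← map_mul, E2, map_sub, map_mul, map_pow]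
  · rw [← map_pow, ← map_mul, E3, map_sub, map_mul, map_pow]

theorem HomSol.of_isSquare {e1 e2 e3 d1 d2 d3 d1' d2' d3' : F} (h : HomSol e1 e2 e3 d1 d2 d3 F)
    (n1 : d1' ≠ 0) (n2 : d2' ≠ 0) (n3 : d3' ≠ 0) (s1 : IsSquare (d1 * d1'))
    (s2 : IsSquare (d2 * d2')) (s3 : IsSquare (d3 * d3')) :
    HomSol e1 e2 e3 d1' d2' d3' F := by
  obtain ⟨X, w, z1, z2, z3, h0, E1, E2, E3⟩ := h
  simp only [Algebra.algebraMap_self, RingHom.id_apply] at E1 E2 E3
  obtain ⟨u1, hu1⟩ := s1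
  obtain ⟨u2, hu2⟩ := s2
  obtain ⟨u3, hu3⟩ := s3
  have key : ∀ {d d' u z a : F}, d' ≠ 0 → d * d' = u * u → d * z ^ 2 = a →
      d' * (u * z / d') ^ 2 = a := by
    intro d d' u z a hd' hu ha
    rw [← ha]
    field_simp
    linear_combination (-z ^ 2) * hu
  exact ⟨X, w, u1 * z1 / d1', u2 * z2 / d2', u3 * z3 / d3', h0, key n1 hu1 E1, key n2 hu2 E2,
    key n3 hu3 E3⟩

open scoped Classical in
theorem card_ker_dbl_ge {W : WeierstrassCurve.Affine F} {e1 e2 e3 : F} (h : TwoTors W e1 e2 e3)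
    [Finite (dbl W.Point).ker] : 4 ≤ Nat.card (dbl W.Point).ker := by
  have mem : ∀ {P : W.Point}, P + P = 0 → P ∈ (dbl W.Point).ker := by
    intro P hP
    rw [AddMonoidHom.mem_ker, nsmulAddMonoidHom_apply, two_nsmul, hP]
  let f : Fin 4 → (dbl W.Point).ker := ![⟨0, mem (add_zero 0)⟩, ⟨tor h, mem (tor_add_tor h)⟩,
    ⟨tor h.rot, mem (tor_add_tor h.rot)⟩, ⟨tor h.rot.rot, mem (tor_add_tor h.rot.rot)⟩]
  have hf : Function.Injective f := by
    intro i j hij
    have a1 := tor_ne_zero h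
    have a2 := tor_ne_zero h.rot
    have a3 := tor_ne_zero h.rot.rot
    have b1 := tor_ne_rot h
    have b2 := tor_ne_rot h.rot
    have b3 := tor_ne_rot2 h
    fin_cases i <;> fin_cases j <;> simp [f] at hij ⊢ <;>
      first
        | exact a1 hij | exact a1 hij.symm | exact a2 hij | exact a2 hij.symm
        | exact a3 hij | exact a3 hij.symm | exact b1 hij | exact b1 hij.symm
        | exact b2 hij | exact b2 hij.symm | exact b3 hij | exact b3 hij.symm
  have := Nat.card_le_card_of_injective f hf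
  simpa using this

open scoped Classical in
theorem main_count (hF : PropP F) {W : WeierstrassCurve.Affine F} [WeierstrassCurve.IsElliptic W]
    {e1 e2 e3 : F} (h : TwoTors W e1 e2 e3) {w w' : HeightOneSpectrum (𝓞 F)}
    (hw : (2 : 𝓞 F) ∈ w.asIdeal) (hw' : (2 : 𝓞 F) ∈ w'.asIdeal)
    (hfar : w.valuation F (e3 - e1) ≤ w.valuation F (16 * (e3 - e2)))
    (hfar' : w'.valuation F (e2 - e1) ≤ w'.valuation F (16 * (e2 - e3))) :
    AddGroup.FG W.Point ∧ Module.finrank ℤ W.Point ≤ condExp e1 e2 e3 ∧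
    (Module.finrank ℤ W.Point = condExp e1 e2 e3 →
      ∀ d1 d2 d3 : F, ELS e1 e2 e3 d1 d2 d3 → HomSol e1 e2 e3 d1 d2 d3 F) := by
  have fST := places_finite h.h12 h.h23 h.h31
  have fS : (multPlaces e1 e2 e3).Finite := fST.subset Set.subset_union_left
  have fT : (addPlaces e1 e2 e3).Finite := fST.subset Set.subset_union_right
  have hS : Finite (multPlaces e1 e2 e3) := fS.to_subtype
  have hT : Finite (addPlaces e1 e2 e3) := fT.to_subtype
  have key : ∀ {d1 d2 d3 d1' d2' d3' : F}, ELS e1 e2 e3 d1 d2 d3 → ELS e1 e2 e3 d1' d2' d3' →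
      invs e1 e2 e3 w w' d2 d3 = invs e1 e2 e3 w w' d2' d3' →
      IsSquare (d2 * d2') ∧ IsSquare (d3 * d3') := by
    intro d1 d2 d3 d1' d2' d3' hs hs' hinv
    have hp := fun (v : HeightOneSpectrum (𝓞 F)) (hv : (2 : 𝓞 F) ∉ v.asIdeal) =>
      parity_of_invs h.h12 h.h23 h.h31 hs hs' hinv hv
    exact ⟨isSquare_of_inv_eq hF h.h23 hw hfar hs hs' (fun v hv => (hp v hv).1)
        (iff_of_eq (congrArg (fun x => x.2.1) hinv)),
      isSquare_of_inv_eq hF h.h23.symm hw' hfar' hs.swap hs'.swap (fun v hv => (hp v hv).2)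
        (iff_of_eq (congrArg (fun x => x.2.2) hinv))⟩
  -- Kummer classes
  have hk : ∀ P : W.Point, ∃ d : F × F × F, ELS e1 e2 e3 d.1 d.2.1 d.2.2 ∧
      HomSol e1 e2 e3 d.1 d.2.1 d.2.2 F ∧
      KumRel h (show (W⁄F).Point from P) d.1 d.2.1 d.2.2 := by
    intro P
    obtain ⟨d1, d2, d3, n1, n2, n3, hsq, hsol, hrel⟩ := exists_kumRel h (show (W⁄F).Point from P)
    exact ⟨(d1, d2, d3), ⟨n1, n2, n3, hsq, fun v => hsol.map _⟩, hsol, hrel⟩
  choose κ hκ1 hκ2 hκ3 using hk
  let f : W.Point ⧸ (dbl W.Point).range → Invs (multPlaces e1 e2 e3) (addPlaces e1 e2 e3) :=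
    fun q => invs e1 e2 e3 w w' (κ q.out).2.1 (κ q.out).2.2
  have hf : Function.Injective f := by
    intro q q' hq
    have h1 := key (hκ1 q.out) (hκ1 q'.out) hq
    obtain ⟨R, hR⟩ := exists_double_of_kumRel h (hκ3 q.out) (hκ3 q'.out) h1.1 h1.2
    have hR' : q.out - q'.out = (show W.Point from R) + (show W.Point from R) := hR
    rw [← q.out_eq', ← q'.out_eq', QuotientAddGroup.eq]
    refine ⟨-(show W.Point from R), ?_⟩
    rw [nsmulAddMonoidHom_apply, two_nsmul]
    calc -(show W.Point from R) + -(show W.Point from R)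
        = -((show W.Point from R) + (show W.Point from R)) := by abel
      _ = -(q.out - q'.out) := by rw [hR']
      _ = -q.out + q'.out := by abel
  have hfinQ : Finite (W.Point ⧸ (dbl W.Point).range) := Finite.of_injective f hf
  have hidx : (dbl W.Point).range.FiniteIndex := AddSubgroup.finiteIndex_of_finite_quotient
  have hFG : AddGroup.FG W.Point := fg_of_finiteIndex (by rw [h.a1]) (by rw [h.a3]) hidx
  have hcardI : Nat.card (Invs (multPlaces e1 e2 e3) (addPlaces e1 e2 e3)) =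
      2 ^ (condExp e1 e2 e3 + 2) := by
    rw [card_inv fS fT, condExp]
  have hle : (dbl W.Point).range.index ≤ 2 ^ (condExp e1 e2 e3 + 2) := by
    rw [AddSubgroup.index_eq_card, ← hcardI]
    exact Nat.card_le_card_of_injective f hf
  have hker : Finite (dbl W.Point).ker := by
    have h5 := index_dbl_eq W.Point
    have h6 : (dbl W.Point).range.index ≠ 0 := hidx.index_ne_zero
    have h7 : Nat.card (dbl W.Point).ker ≠ 0 := by
      intro h8
      rw [h8, mul_zero] at h5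
      exact h6 h5
    exact Nat.finite_of_card_ne_zero h7
  have h4 : 4 ≤ Nat.card (dbl W.Point).ker := card_ker_dbl_ge h
  have hge : 2 ^ (Module.finrank ℤ W.Point + 2) ≤ (dbl W.Point).range.index := by
    rw [index_dbl_eq, pow_add]
    exact Nat.mul_le_mul le_rfl h4
  refine ⟨hFG, ?_, ?_⟩
  · have h9 := (Nat.pow_le_pow_iff_right (by norm_num : 1 < 2)).1 (hge.trans hle)
    omega
  · intro hrk d1 d2 d3 hs
    have hcard : Nat.card (W.Point ⧸ (dbl W.Point).range) =
        Nat.card (Invs (multPlaces e1 e2 e3) (addPlaces e1 e2 e3)) := by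
      rw [hcardI]
      apply le_antisymm
      · rw [← AddSubgroup.index_eq_card]; exact hle
      · rw [← AddSubgroup.index_eq_card, ← hrk]; exact hge
    have hbij : Function.Bijective f := (Nat.bijective_iff_injective_and_card f).2 ⟨hf, hcard⟩
    obtain ⟨q, hq⟩ := hbij.2 (invs e1 e2 e3 w w' d2 d3)
    obtain ⟨s2, s3⟩ := key (hκ1 q.out) hs hq
    have s1 : IsSquare ((κ q.out).1 * d1) := by
      obtain ⟨a, ha⟩ := (hκ1 q.out).sq
      obtain ⟨b, hb⟩ := hs.sq
      obtain ⟨c, hc⟩ := s2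
      obtain ⟨e, he⟩ := s3
      have n2 := (hκ1 q.out).h2
      have n3 := (hκ1 q.out).h3
      have hc0 : c ≠ 0 := by
        rintro rfl
        exact mul_ne_zero n2 hs.h2 (by rw [hc]; ring)
      have he0 : e ≠ 0 := by
        rintro rfl
        exact mul_ne_zero n3 hs.h3 (by rw [he]; ring)
      refine ⟨a * b / (c * e), ?_⟩
      field_simp
      linear_combination (d1 * d2 * d3) * ha + (a * a) * hb - ((κ q.out).1 * d1 * (e * e)) * hc -
        ((κ q.out).1 * d1 * ((κ q.out).2.1 * d2)) * he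
    exact (hκ2 q.out).of_isSquare hs.h1 hs.h2 hs.h3 s1 s2 s3

end Pool.Agent.Work.MP_787500_nt
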