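import Mathlib
import Pool.Agent.Work.MP_787500_nt.H10_Gen
import Pool.Agent.Work.MP_787500_nt.H10_Base

/-!
Assembly.
-/

set_option autoImplicit false
set_option linter.unusedSectionVars false

namespace Pool.Agent.Work.MP_787500_nt

open WithZero IsDedekindDomain NumberField WeierstrassCurve WeierstrassCurve.Affine

universe u

theorem propP_of_tower {K F : Type u} [Field K] [NumberField K] [Field F] [NumberField F]
    [Algebra K F] (hK : PropP K) (h : InTwoTower K F) : PropP F := by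
  obtain ⟨L, _, _, _, _, _, hgal, ⟨m, hm⟩, hunr⟩ := h
  exact propP_of_pp (pp_all hm (pp_bot hK (fun Q hQ x =>
    valuation_below_of_unramified Q (hunr Q hQ) x)) _)

section

variable {F : Type u} [Field F] [NumberField F]

theorem legendre_twoTors {e1 e2 e3 : F} (h12 : e1 ≠ e2) (h23 : e2 ≠ e3) (h31 : e3 ≠ e1) :
    TwoTors (legendre e1 e2 e3) e1 e2 e3 :=
  ⟨rfl, rfl, rfl, rfl, rfl, h12, h23, h31⟩

theorem legendre_elliptic {e1 e2 e3 : F} (h12 : e1 ≠ e2) (h23 : e2 ≠ e3) (h31 : e3 ≠ e1) :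
    WeierstrassCurve.IsElliptic (legendre e1 e2 e3) := by
  refine ⟨?_⟩
  have : (legendre e1 e2 e3).Δ = 16 * ((e1 - e2) * (e2 - e3) * (e3 - e1)) ^ 2 := by
    simp only [legendre, WeierstrassCurve.Δ, WeierstrassCurve.b₂, WeierstrassCurve.b₄,
      WeierstrassCurve.b₆, WeierstrassCurve.b₈]
    ring
  rw [this, isUnit_iff_ne_zero]
  exact mul_ne_zero (by norm_num) (pow_ne_zero _ (mul_ne_zero (mul_ne_zero (sub_ne_zero.2 h12)
    (sub_ne_zero.2 h23)) (sub_ne_zero.2 h31)))

open scoped Classical in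
/-- the general theorem over a field with the property -/
theorem general (hF : PropP F) {e1 e2 e3 : F} (h12 : e1 ≠ e2) (h23 : e2 ≠ e3) (h31 : e3 ≠ e1)
    {w w' : HeightOneSpectrum (𝓞 F)} (hw : (2 : 𝓞 F) ∈ w.asIdeal) (hw' : (2 : 𝓞 F) ∈ w'.asIdeal)
    (hfar : w.valuation F (e3 - e1) ≤ w.valuation F (16 * (e3 - e2)))
    (hfar' : w'.valuation F (e2 - e1) ≤ w'.valuation F (16 * (e2 - e3))) :
    RankShaBound (legendre e1 e2 e3) (condExp e1 e2 e3) := by
  have h := legendre_twoTors h12 h23 h31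
  have := legendre_elliptic h12 h23 h31
  obtain ⟨hFG, hrk, hsol⟩ := main_count hF h hw hw' hfar hfar'
  refine ⟨hFG, hrk, fun heq c hc hloc ⟨k, hk⟩ => ?_⟩
  refine cobdry_of_two_pow (W := legendre e1 e2 e3)
    (fun c => ∀ v : HeightOneSpectrum (𝓞 F), LocTriv (legendre e1 e2 e3) (v.adicCompletion F) c)
    (fun c n hc v => (hc v).nsmul n) ?_ k c hc hloc hk
  intro c hc hloc h2
  obtain ⟨d1, d2, d3, n1, n2, n3, hsq, hl, hg⟩ := kummer_data h hc h2
  exact hg (hsol heq d1 d2 d3 ⟨n1, n2, n3, hsq, fun v => hl _ (hloc v)⟩)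

open scoped Classical in
theorem finite_of_rank_zero {W : WeierstrassCurve.Affine F} (hFG : AddGroup.FG W.Point)
    (h : Module.finrank ℤ W.Point = 0) : Finite W.Point := by
  have hf : Module.Finite ℤ W.Point := Module.Finite.iff_addGroup_fg.mpr hFG
  exact Module.finite_of_fg_torsion _ (Module.finrank_eq_zero_iff_isTorsion.1 h)

theorem val_unit_of_odd {r : F} (hr : r ^ 2 - r + 2 = 0) {v : HeightOneSpectrum (𝓞 F)}
    (hv : (2 : 𝓞 F) ∉ v.asIdeal) : v.valuation F r = 1 := by
  obtain ⟨R, hR⟩ := exists_int_of_eq hr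
  rw [← hR, HeightOneSpectrum.valuation_eq_one_iff_notMem]
  intro h
  apply hv
  have : R * (1 - R) = 2 := by
    apply RingOfIntegers.ext
    show algebraMap (𝓞 F) F _ = algebraMap (𝓞 F) F _
    rw [map_mul, map_sub, map_one, hR, map_ofNat]
    linear_combination -hr
  rw [← this]
  exact v.asIdeal.mul_mem_right _ h

/-- the places of bad reduction of the CM curves -/
theorem condExp_cm {r D e1 e2 e3 : F} (hr : r ^ 2 - r + 2 = 0) (h12 : e1 - e2 = -(D * (1 - r) ^ 4))
    (h23 : e2 - e3 = D) (h31 : e3 - e1 = -(D * r ^ 4)) :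
    multPlaces e1 e2 e3 = ∅ ∧ addPlaces e1 e2 e3 = oddPlaces D := by
  have hr' : (1 - r) ^ 2 - (1 - r) + 2 = 0 := by linear_combination hr
  have key : ∀ v : HeightOneSpectrum (𝓞 F), (2 : 𝓞 F) ∉ v.asIdeal →
      v.valuation F (e1 - e2) = v.valuation F D ∧ v.valuation F (e2 - e3) = v.valuation F D ∧
      v.valuation F (e3 - e1) = v.valuation F D := by
    intro v hv
    refine ⟨?_, by rw [h23], ?_⟩
    · rw [h12, Valuation.map_neg, map_mul, map_pow, val_unit_of_odd hr' hv, one_pow, mul_one]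
    · rw [h31, Valuation.map_neg, map_mul, map_pow, val_unit_of_odd hr hv, one_pow, mul_one]
  constructor
  · ext v
    simp only [multPlaces, Set.mem_ofPred_eq, Set.mem_empty_iff_false, iff_false]
    rintro ⟨hv, -, h⟩
    obtain ⟨k1, k2, k3⟩ := key v hv
    exact h ⟨by rw [k1, k2], by rw [k2, k3]⟩
  · ext v
    simp only [addPlaces, oddPlaces, Set.mem_ofPred_eq]
    refine and_congr_right (fun hv => not_congr ?_)
    obtain ⟨k1, k2, k3⟩ := key v hv
    rw [diffVal, k1, k2, k3, max_self, max_self]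

end

section

variable {K F : Type u} [Field K] [NumberField K] [Field F] [NumberField F] [Algebra K F]

/-- a dyadic place of `F` at which `p` is not a unit -/
theorem exists_dyadic (hK : Module.finrank ℚ K = 2) {p : K} (hp : p ^ 2 - p + 2 = 0) :
    ∃ w : HeightOneSpectrum (𝓞 F), (2 : 𝓞 F) ∈ w.asIdeal ∧
      w.valuation F (1 - algebraMap K F p) = 1 := by
  obtain ⟨P, hP⟩ := exists_int_of_eq hp
  have hnu : ¬ IsUnit P := by
    intro hu
    have h1 := nrm_unit hK hp hu
    have h2 := nrm_coords hp (K := K) 0 1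
    simp at h2
    rw [hP, h2] at h1
    norm_num at h1
  obtain ⟨M, hM, hPM⟩ := exists_max_ideal_of_mem_nonunits hnu
  have hP0 : P ≠ 0 := by
    rintro rfl
    rw [map_zero] at hP
    rw [← hP] at hp
    have : (2 : K) = 0 := by linear_combination hp
    exact two_ne_zero this
  have hM0 : M ≠ ⊥ := by
    rintro rfl
    exact hP0 (by simpa using hPM)
  obtain ⟨w, hw⟩ := exists_above (L := F) (⟨M, hM.isPrime, hM0⟩ : HeightOneSpectrum (𝓞 K))
  have hmem : ∀ x : 𝓞 K, x ∈ M ↔ algebraMap (𝓞 K) (𝓞 F) x ∈ w.asIdeal := by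
    intro x
    have : M = (below K w).asIdeal := by rw [hw]
    rw [this]
    exact Iff.rfl
  refine ⟨w, ?_, ?_⟩
  · have hPP : P * (1 - P) = 2 := by
      apply RingOfIntegers.ext
      show algebraMap (𝓞 K) K _ = algebraMap (𝓞 K) K _
      rw [map_mul, map_sub, map_one, hP, map_ofNat]
      linear_combination -hp
    have h2 : (2 : 𝓞 K) ∈ M := by
      rw [← hPP]; exact M.mul_mem_right _ hPM
    have := (hmem 2).1 h2
    rwa [map_ofNat] at this
  · have e : 1 - algebraMap K F p = algebraMap (𝓞 F) F (algebraMap (𝓞 K) (𝓞 F) (1 - P)) := by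
      rw [← IsScalarTower.algebraMap_apply (𝓞 K) (𝓞 F) F,
        IsScalarTower.algebraMap_apply (𝓞 K) K F, map_sub, map_one, hP, map_sub, map_one]
    rw [e, HeightOneSpectrum.valuation_eq_one_iff_notMem, ← hmem]
    intro h
    have := M.add_mem h hPM
    rw [sub_add_cancel] at this
    exact hM.ne_top ((Ideal.eq_top_iff_one _).2 this)

open scoped Classical in
/-- the CM curves -/
theorem cm_case (hK : Module.finrank ℚ K = 2) {s : K} (hs : s ^ 2 = -7) (hF : PropP F)
    {D e1 e2 e3 : F} (hD : D ≠ 0) (h1 : e1 = 0)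
    (h2 : e2 = D * (3 * algebraMap K F s + 1) / 2)
    (h3 : e3 = D * (3 * algebraMap K F s - 1) / 2) :
    (e1 ≠ e2 ∧ e2 ≠ e3 ∧ e3 ≠ e1) ∧
    (oddPlaces D).Finite ∧
    AddGroup.FG (legendre e1 e2 e3).Point ∧
    Module.finrank ℤ (legendre e1 e2 e3).Point ≤ 2 * (oddPlaces D).ncard ∧
    (Module.finrank ℤ (legendre e1 e2 e3).Point = 2 * (oddPlaces D).ncard →
      ShaTwoTrivial (legendre e1 e2 e3)) := by
  set p : K := (1 + s) / 2 with hpdef
  have hp : p ^ 2 - p + 2 = 0 := by
    rw [hpdef]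
    linear_combination (1 / 4 : K) * hs
  set r : F := algebraMap K F p with hrdef
  have hr : r ^ 2 - r + 2 = 0 := by
    have := congrArg (algebraMap K F) hp
    rw [map_add, map_sub, map_pow, map_ofNat, map_zero] at this
    exact this
  have hsr : algebraMap K F s = 2 * r - 1 := by
    rw [hrdef, hpdef, map_div₀, map_add, map_one, map_ofNat]
    ring
  have hr4 : r ^ 4 = 2 - 3 * r := by linear_combination (r ^ 2 + r - 1) * hr
  have hr4' : (1 - r) ^ 4 = 3 * r - 1 := by linear_combination (r ^ 2 - 3 * r + 1) * hr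
  have h2' : e2 = D * (1 - r) ^ 4 := by rw [h2, hsr, hr4']; ring
  have h3' : e3 = -(D * r ^ 4) := by rw [h3, hsr, hr4]; ring
  have hr0 : r ≠ 0 := by
    intro h
    rw [h] at hr
    have : (2 : F) = 0 := by linear_combination hr
    exact two_ne_zero this
  have hr1 : 1 - r ≠ 0 := by
    intro h
    have h4 : r = 1 := by linear_combination -h
    rw [h4] at hr
    have : (2 : F) = 0 := by linear_combination hr
    exact two_ne_zero this
  have n12 : e1 ≠ e2 := by
    rw [h1, h2']
    exact (mul_ne_zero hD (pow_ne_zero _ hr1)).symm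
  have e23 : e2 - e3 = D := by
    rw [h2', h3', hr4, hr4']; ring
  have n23 : e2 ≠ e3 := by
    intro h
    rw [h, sub_self] at e23
    exact hD e23.symm
  have n31 : e3 ≠ e1 := by
    rw [h1, h3']
    exact neg_ne_zero.2 (mul_ne_zero hD (pow_ne_zero _ hr0))
  obtain ⟨w, hw, hwr⟩ := exists_dyadic (F := F) hK hp
  obtain ⟨w', hw', hwr'⟩ := exists_dyadic (F := F) hK (p := 1 - p) (by linear_combination hp)
  have hwr'' : w'.valuation F r = 1 := by
    have e : 1 - algebraMap K F (1 - p) = r := by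
      rw [map_sub (algebraMap K F), map_one, sub_sub_cancel]
    rwa [e] at hwr'
  have h16 : (r * (1 - r)) ^ 4 = 16 := by
    have : r * (1 - r) = 2 := by linear_combination -hr
    rw [this]; norm_num
  obtain ⟨bad2, bad3⟩ := condExp_cm (e1 := e1) (e2 := e2) (e3 := e3) hr
    (by rw [h1, h2', zero_sub]) e23 (by rw [h1, h3', sub_zero])
  obtain ⟨g1, g2, g3⟩ := general hF n12 n23 n31 hw hw' (by
      have a1 : e3 - e1 = -(D * r ^ 4) := by rw [h1, h3', sub_zero]
      have a2 : 16 * (e3 - e2) = -(D * r ^ 4) * (1 - r) ^ 4 := by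
        linear_combination (-16 : F) * e23 + D * h16
      rw [a1, a2, map_mul _ (-(D * r ^ 4)), map_pow _ (1 - r), hwr, one_pow, mul_one]) (by
      have a1 : e2 - e1 = D * (1 - r) ^ 4 := by rw [h1, h2', sub_zero]
      have a2 : 16 * (e2 - e3) = D * (1 - r) ^ 4 * r ^ 4 := by
        linear_combination (16 : F) * e23 - D * h16
      rw [a1, a2, map_mul _ (D * (1 - r) ^ 4), map_pow _ r, hwr'', one_pow, mul_one])
  rw [condExp, bad2, bad3, Set.ncard_empty, zero_add] at g2 g3
  refine ⟨⟨n12, n23, n31⟩, ?_, g1, g2, g3⟩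
  rw [← bad3]
  exact (places_finite n12 n23 n31).subset Set.subset_union_right

end

end Pool.Agent.Work.MP_787500_nt
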