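import Mathlib
import Pool.Agent.Work.MP_787500_nt.H10_Kappa

/-!
The Kummer classes are additive; explicit classes.
-/

set_option autoImplicit false
set_option linter.unusedSectionVars false
set_option linter.unusedSimpArgs false

namespace Pool.Agent.Work.MP_787500_nt

open WeierstrassCurve WeierstrassCurve.Affine

variable {K : Type*} [Field K] [CharZero K] {W : WeierstrassCurve.Affine K} {e1 e2 e3 : K}

open scoped Classical in
theorem two_torsion_of_half {Q : (W⁄(AlgebraicClosure K)).Point} {P : (W⁄K).Point}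
    (hQ : Q + Q = incl W P) (σ : AlgebraicClosure K ≃ₐ[K] AlgebraicClosure K) :
    (gact W σ Q - Q) + (gact W σ Q - Q) = 0 := by
  have h1 : gact W σ (Q + Q) = Q + Q := by rw [hQ]; exact gact_incl σ P
  rw [map_add] at h1
  have : gact W σ Q - Q + (gact W σ Q - Q) = (gact W σ Q + gact W σ Q) - (Q + Q) := by abel
  rw [this, h1, sub_self]

open scoped Classical in
theorem KumS.add {h : TwoTors W e1 e2 e3} {Q Q' : (W⁄(AlgebraicClosure K)).Point}
    {s s' : AlgebraicClosure K} {d d' : K} (H : KumS h Q s d) (H' : KumS h Q' s' d')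
    (h2 : ∀ σ, (gact W σ Q - Q) + (gact W σ Q - Q) = 0)
    (h2' : ∀ σ, (gact W σ Q' - Q') + (gact W σ Q' - Q') = 0) :
    KumS h (Q + Q') (s * s') (d * d') := by
  have e : ∀ σ, gact W σ (Q + Q') - (Q + Q') = (gact W σ Q - Q) + (gact W σ Q' - Q') := by
    intro σ; rw [map_add]; abel
  refine ⟨mul_ne_zero H.ne H'.ne, ?_, ?_, ?_⟩
  · rw [map_mul, H.sq, H'.sq, mul_pow]
  · intro σ hσ
    rw [e σ, inA_add_iff _ (h2 σ) (h2' σ)] at hσ
    rw [map_mul]
    by_cases a : inA (h.bc (AlgebraicClosure K)) (gact W σ Q - Q)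
    · rw [H.pos σ a, H'.pos σ (hσ.1 a)]
    · rw [H.neg σ a, H'.neg σ (fun h => a (hσ.2 h))]; ring
  · intro σ hσ
    rw [e σ, inA_add_iff _ (h2 σ) (h2' σ)] at hσ
    rw [map_mul]
    by_cases a : inA (h.bc (AlgebraicClosure K)) (gact W σ Q - Q)
    · by_cases a' : inA (h.bc (AlgebraicClosure K)) (gact W σ Q' - Q')
      · exact absurd (iff_of_true a a') hσ
      · rw [H.pos σ a, H'.neg σ a']; ring
    · by_cases a' : inA (h.bc (AlgebraicClosure K)) (gact W σ Q' - Q')
      · rw [H.neg σ a, H'.pos σ a']; ring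
      · exact absurd (iff_of_false a a') hσ

open scoped Classical in
/-- the relation for the second and third coordinates -/
def Kum2 (h : TwoTors W e1 e2 e3) (P : (W⁄K).Point) (d2 d3 : K) : Prop :=
  ∃ (Q : (W⁄(AlgebraicClosure K)).Point) (s2 s3 : AlgebraicClosure K),
    Q + Q = incl W P ∧ KumS h.rot Q s2 d2 ∧ KumS h.rot.rot Q s3 d3

open scoped Classical in
theorem Kum2.add {h : TwoTors W e1 e2 e3} {P P' : (W⁄K).Point} {d2 d3 d2' d3' : K}
    (H : Kum2 h P d2 d3) (H' : Kum2 h P' d2' d3') : Kum2 h (P + P') (d2 * d2') (d3 * d3') := by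
  obtain ⟨Q, s2, s3, hQ, k2, k3⟩ := H
  obtain ⟨Q', s2', s3', hQ', k2', k3'⟩ := H'
  refine ⟨Q + Q', s2 * s2', s3 * s3', ?_, k2.add k2' (two_torsion_of_half hQ)
    (two_torsion_of_half hQ'), k3.add k3' (two_torsion_of_half hQ) (two_torsion_of_half hQ')⟩
  rw [map_add, ← hQ, ← hQ']
  abel

open scoped Classical in
theorem KumS.isSquare_of_fixed {h : TwoTors W e1 e2 e3} {Q : (W⁄(AlgebraicClosure K)).Point}
    {s : AlgebraicClosure K} {d : K} (H : KumS h Q s d) (hQ : ∀ σ, gact W σ Q = Q) :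
    IsSquare d := by
  have hfix : ∀ σ : AlgebraicClosure K ≃ₐ[K] AlgebraicClosure K, σ s = s := by
    intro σ
    apply H.pos σ
    rw [hQ σ, sub_self]
    exact inA_zero _
  obtain ⟨t, ht⟩ := (InfiniteGalois.mem_range_algebraMap_iff_fixed _).2 hfix
  refine ⟨t, ?_⟩
  apply (algebraMap K (AlgebraicClosure K)).injective
  rw [H.sq, ← ht, map_mul, pow_two]

open scoped Classical in
theorem Kum2.isSquare_of_double {h : TwoTors W e1 e2 e3} {P R : (W⁄K).Point} {d2 d3 : K}
    (H : Kum2 h P d2 d3) (hP : P = R + R) : IsSquare d2 ∧ IsSquare d3 := by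
  obtain ⟨Q, s2, s3, hQ, k2, k3⟩ := H
  have hT : (Q - incl W R) + (Q - incl W R) = 0 := by
    have : (Q - incl W R) + (Q - incl W R) = (Q + Q) - (incl W R + incl W R) := by abel
    rw [this, hQ, hP, map_add, sub_self]
  have hfix : ∀ σ, gact W σ Q = Q := by
    intro σ
    have h1 : gact W σ (Q - incl W R) = Q - incl W R := gact_two_torsion h σ hT
    rw [map_sub, gact_incl] at h1
    exact sub_left_injective h1
  exact ⟨k2.isSquare_of_fixed hfix, k3.isSquare_of_fixed hfix⟩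

open scoped Classical in
/-- the coordinate given by the function `rFun` -/
theorem kumS_rFun {h : TwoTors W e1 e2 e3} {Q : (W⁄(AlgebraicClosure K)).Point}
    {x y : K} {hn : (W⁄K).Nonsingular x y} (hQ : Q + Q = incl W (Point.some x y hn))
    (hx : x ≠ e1) :
    KumS h Q (rFun (algebraMap K (AlgebraicClosure K) e1) (algebraMap K (AlgebraicClosure K) e2)
      (algebraMap K (AlgebraicClosure K) e3) Q) (x - e1) := by
  set r := rFun (algebraMap K (AlgebraicClosure K) e1) (algebraMap K (AlgebraicClosure K) e2)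
      (algebraMap K (AlgebraicClosure K) e3) Q with hr
  have hQ' := hQ
  rw [incl, Point.map_some] at hQ'
  have q1 := rFun_sq (h.bc (AlgebraicClosure K)) hQ'
  have hsq : algebraMap K (AlgebraicClosure K) (x - e1) = r ^ 2 := by
    rw [hr, q1, map_sub]
    rfl
  have hne : r ≠ 0 := by
    intro h0
    rw [h0, zero_pow two_ne_zero, map_eq_zero] at hsq
    exact hx (sub_eq_zero.1 hsq)
  have hQQ : Q + Q ≠ 0 := by
    rw [hQ', Ne]
    exact Point.some_ne_zero _
  have hσ : ∀ σ : AlgebraicClosure K ≃ₐ[K] AlgebraicClosure K, σ r =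
      rFun (algebraMap K (AlgebraicClosure K) e1) (algebraMap K (AlgebraicClosure K) e2)
      (algebraMap K (AlgebraicClosure K) e3) (Q + (gact W σ Q - Q)) := by
    intro σ
    rw [add_sub_cancel]
    exact (map_rFun (K := K) (W := W) (e1 := e1) (e2 := e2) (e3 := e3)
      (σ : AlgebraicClosure K →ₐ[K] AlgebraicClosure K) Q).symm
  refine ⟨hne, hsq, fun σ hA => ?_, fun σ hA => ?_⟩
  · rw [hσ σ, rFun_add_of_inA (h.bc (AlgebraicClosure K)) hQQ hA]
  · rw [hσ σ, rFun_add_of_not_inA (h.bc (AlgebraicClosure K)) hQQ (two_torsion_of_half hQ σ) hA]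

open scoped Classical in
theorem kum2_some (h : TwoTors W e1 e2 e3) {x y : K} (hn : (W⁄K).Nonsingular x y)
    (hx2 : x ≠ e2) (hx3 : x ≠ e3) : Kum2 h (Point.some x y hn) (x - e2) (x - e3) := by
  obtain ⟨Q, hQ⟩ := exists_half (h.bc (AlgebraicClosure K)) (incl W (Point.some x y hn))
  exact ⟨Q, _, _, hQ, kumS_rFun (h := h.rot) hQ hx2, kumS_rFun (h := h.rot.rot) hQ hx3⟩

open scoped Classical in
theorem KumS.mul_third {h : TwoTors W e1 e2 e3} {Q : (W⁄(AlgebraicClosure K)).Point}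
    {s s' : AlgebraicClosure K} {d d' : K} (H : KumS h Q s d) (H' : KumS h.rot Q s' d')
    (h2 : ∀ σ, (gact W σ Q - Q) + (gact W σ Q - Q) = 0) :
    KumS h.rot.rot Q (s * s') (d * d') := by
  refine ⟨mul_ne_zero H.ne H'.ne, ?_, ?_, ?_⟩
  · rw [map_mul, H.sq, H'.sq, mul_pow]
  · intro σ hσ
    rw [map_mul]
    rcases inA_cases (h.bc (AlgebraicClosure K)) (h2 σ) with ⟨g1, g2, g3⟩ | ⟨g1, g2, g3⟩ |
      ⟨g1, g2, g3⟩ | ⟨g1, g2, g3⟩
    · rw [H.pos σ g1, H'.pos σ g2]
    · exact absurd hσ g3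
    · exact absurd hσ g3
    · rw [H.neg σ g1, H'.neg σ g2]; ring
  · intro σ hσ
    rw [map_mul]
    rcases inA_cases (h.bc (AlgebraicClosure K)) (h2 σ) with ⟨g1, g2, g3⟩ | ⟨g1, g2, g3⟩ |
      ⟨g1, g2, g3⟩ | ⟨g1, g2, g3⟩
    · exact absurd g3 hσ
    · rw [H.pos σ g1, H'.neg σ g2]; ring
    · rw [H.neg σ g1, H'.pos σ g2]; ring
    · exact absurd g3 hσ

end Pool.Agent.Work.MP_787500_nt
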