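import Mathlib
import Pool.Agent.Work.MP_787500_nt.H10_Final
import Pool.Agent.Work.MP_787500_nt.H10_Kappa2

/-!
An example of positive rank, and the behaviour of the rank in extensions.
-/

set_option autoImplicit false
set_option linter.unusedSectionVars false

namespace Pool.Agent.Work.MP_787500_nt

open WithZero IsDedekindDomain NumberField WeierstrassCurve WeierstrassCurve.Affine

universe u

/-- infinite descent for two elements independent modulo doubles and two-torsion -/
theorem indep_of_mod_two {G : Type*} [AddCommGroup G] {T1 T2 P Q : G}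
    (htor : ∀ R : G, R + R = 0 → R = 0 ∨ R = T1 ∨ R = T2 ∨ R = T1 + T2)
    (hind : ∀ a b c d : ℤ, (∃ R : G, a • T1 + b • T2 + c • P + d • Q = R + R) →
      Even a ∧ Even b ∧ Even c ∧ Even d) (N : ℕ) :
    ∀ m n : ℤ, m.natAbs + n.natAbs = N → m • P + n • Q = 0 → m = 0 ∧ n = 0 := by
  induction N using Nat.strong_induction_on with
  | _ N ih =>
  intro m n hN h
  obtain ⟨-, -, ⟨m', hm⟩, ⟨n', hn⟩⟩ := hind 0 0 m n ⟨0, by
    rw [zero_smul, zero_smul, add_zero, zero_add, h]⟩
  have h2 : (m' • P + n' • Q) + (m' • P + n' • Q) = 0 := by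
    rw [← h, hm, hn, add_smul, add_smul]; abel
  have no : ∀ a b : ℤ, m' • P + n' • Q = a • T1 + b • T2 → Even a ∧ Even b := by
    intro a b hab
    obtain ⟨h3, h4, -, -⟩ := hind (-a) (-b) m' n' ⟨0, by
      have : -a • T1 + -b • T2 + m' • P + n' • Q = (m' • P + n' • Q) - (a • T1 + b • T2) := by
        rw [neg_smul, neg_smul]; abel
      rw [this, hab, sub_self, add_zero]⟩
    exact ⟨even_neg.1 h3, even_neg.1 h4⟩
  have h0 : m' • P + n' • Q = 0 := by
    rcases htor _ h2 with h3 | h3 | h3 | h3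
    · exact h3
    · have := (no 1 0 (by rw [h3, one_smul, zero_smul, add_zero])).1
      exact absurd this (by decide)
    · have := (no 0 1 (by rw [h3, one_smul, zero_smul, zero_add])).2
      exact absurd this (by decide)
    · have := (no 1 1 (by rw [h3, one_smul, one_smul])).1
      exact absurd this (by decide)
  by_cases hz : m = 0 ∧ n = 0
  · exact hz
  · have hlt : m'.natAbs + n'.natAbs < N := by
      rw [← hN, hm, hn]
      by_contra hcon
      apply hz
      omega
    have := ih _ hlt m' n' rfl h0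
    rw [hm, hn, this.1, this.2]
    simp

theorem nrm_s {K : Type*} [Field K] [NumberField K] {s : K} (hs : s ^ 2 = -7) (a b : ℚ) :
    nrm ((a : K) + b * s) = ((a ^ 2 + 7 * b ^ 2 : ℚ) : ℝ) := by
  have hp : ((1 + s) / 2) ^ 2 - (1 + s) / 2 + 2 = 0 := by linear_combination (1 / 4 : K) * hs
  have := nrm_coords hp (a - b) (2 * b)
  have e : (a : K) + b * s = ((a - b : ℚ) : K) + ((2 * b : ℚ) : K) * ((1 + s) / 2) := by
    push_cast
    ring
  rw [e, this]
  push_cast
  ring

theorem isSquare_nrm {K : Type*} [Field K] [NumberField K] (hK : Module.finrank ℚ K = 2) {s : K}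
    (hs : s ^ 2 = -7) {z : K} (hz : IsSquare z) {n : ℕ} (hn : nrm z = n) : IsSquare n := by
  have hp : ((1 + s) / 2) ^ 2 - (1 + s) / 2 + 2 = 0 := by linear_combination (1 / 4 : K) * hs
  obtain ⟨y, rfl⟩ := hz
  obtain ⟨a, b, hy⟩ := exists_coords hK hp y
  have h1 := nrm_coords hp a b
  rw [← hy] at h1
  rw [nrm_mul, h1] at hn
  have h2 : (a ^ 2 + a * b + 2 * b ^ 2) * (a ^ 2 + a * b + 2 * b ^ 2) = (n : ℚ) := by
    exact_mod_cast hn
  exact Rat.isSquare_natCast_iff.1 ⟨_, h2.symm⟩

theorem not_isSquare_of_zmod {n p : ℕ} (h : ¬ IsSquare ((n : ℕ) : ZMod p)) : ¬ IsSquare n := by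
  rintro ⟨r, hr⟩
  exact h ⟨(r : ZMod p), by rw [hr]; push_cast; rfl⟩

theorem nrm_pow {K : Type*} [Field K] [NumberField K] (x : K) (n : ℕ) : nrm (x ^ n) = nrm x ^ n := by
  rw [nrm, map_pow, map_pow]; rfl

open scoped Classical in
theorem kum2_zero {K : Type*} [Field K] [CharZero K] {W : WeierstrassCurve.Affine K} {e1 e2 e3 : K}
    (h : TwoTors W e1 e2 e3) : Kum2 h (0 : (W⁄K).Point) 1 1 := by
  refine ⟨0, 1, 1, by rw [add_zero, map_zero], ?_, ?_⟩
  · refine ⟨one_ne_zero, by rw [map_one, one_pow], fun σ _ => map_one σ, fun σ hσ => ?_⟩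
    exact absurd (by rw [map_zero, sub_zero]; exact inA_zero _) hσ
  · refine ⟨one_ne_zero, by rw [map_one, one_pow], fun σ _ => map_one σ, fun σ hσ => ?_⟩
    exact absurd (by rw [map_zero, sub_zero]; exact inA_zero _) hσ

open scoped Classical in
theorem Kum2.nsmul {K : Type*} [Field K] [CharZero K] {W : WeierstrassCurve.Affine K} {e1 e2 e3 : K}
    {h : TwoTors W e1 e2 e3} {P : (W⁄K).Point} {d2 d3 : K} (H : Kum2 h P d2 d3) (n : ℕ) :
    Kum2 h (n • P) (d2 ^ n) (d3 ^ n) := by
  induction n with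
  | zero => rw [zero_smul, pow_zero, pow_zero]; exact kum2_zero h
  | succ n ih => rw [add_smul, one_smul, pow_succ, pow_succ]; exact ih.add H

open scoped Classical in
/-- the class of the second two-torsion point -/
theorem kum2_tor {K : Type*} [Field K] [CharZero K] {W : WeierstrassCurve.Affine K} {e1 e2 e3 : K}
    (h : TwoTors W e1 e2 e3) (hn : (W⁄K).Nonsingular e2 0) :
    Kum2 h (Point.some e2 0 hn) ((e2 - e3) * (e2 - e1)) (e2 - e3) := by
  obtain ⟨Q, hQ⟩ := exists_half (h.bc (AlgebraicClosure K)) (incl W (Point.some e2 0 hn))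
  have k3 := kumS_rFun (h := h.rot.rot) hQ h.h23
  have k1 := kumS_rFun (h := h) hQ h.h12.symm
  exact ⟨Q, _, _, hQ, KumS.mul_third (h := h.rot.rot) k3 k1 (two_torsion_of_half hQ), k3⟩

section example1

variable {K : Type u} [Field K] [NumberField K] {s : K}

/-- second and third root of the example -/
def exE2 (s : K) : K := (15 + 13 * s) / 2
/-- third root of the example -/
def exE3 (s : K) : K := 3 + 7 * s

theorem s_ne (hs : s ^ 2 = -7) (a b : ℚ) (h : (a : K) + b * s = 0) : a = 0 ∧ b = 0 := by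
  have h1 := nrm_s hs a b
  rw [h, nrm, map_zero, map_zero] at h1
  have h2 : a ^ 2 + 7 * b ^ 2 = 0 := by exact_mod_cast h1.symm
  have hb : b = 0 := by nlinarith [sq_nonneg a, sq_nonneg b]
  have ha : a = 0 := by
    rw [hb] at h2
    nlinarith
  exact ⟨ha, hb⟩

theorem ex_twoTors (hs : s ^ 2 = -7) : TwoTors (legendre 0 (exE2 s) (exE3 s)) 0 (exE2 s) (exE3 s) := by
  apply legendre_twoTors
  · intro h
    have := s_ne hs (15 / 2) (13 / 2) (by
      have h' : exE2 s = 0 := h.symm
      rw [exE2] at h'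
      push_cast
      linear_combination h')
    norm_num at this
  · intro h
    have := s_ne hs (9 / 2) (-1 / 2) (by
      have h' : exE2 s - exE3 s = 0 := sub_eq_zero.2 h
      rw [exE2, exE3] at h'
      push_cast
      linear_combination h')
    norm_num at this
  · intro h
    have := s_ne hs 3 7 (by
      rw [exE3] at h
      push_cast
      linear_combination h)
    norm_num at this

open scoped Classical in
theorem ex_indep (hK : Module.finrank ℚ K = 2) (hs : s ^ 2 = -7) :
    ∃ P Q : (legendre 0 (exE2 s) (exE3 s)).Point,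
      ∀ m n : ℤ, m • P + n • Q = 0 → m = 0 ∧ n = 0 := by
  have h := ex_twoTors hs
  set W := legendre 0 (exE2 s) (exE3 s) with hW
  have hb : TwoTors (W⁄K) 0 (exE2 s) (exE3 s) := h
  -- the points
  have nP : (W⁄K).Nonsingular (-5 + 3 * s) (-12 + 16 * s) := hb.nonsingular_of_eq (by
    rw [exE2, exE3]
    linear_combination (92 - 42 * s) * hs)
  have nQ : (W⁄K).Nonsingular (7 + 7 * s) (4 * s) := hb.nonsingular_of_eq (by
    rw [exE2, exE3]
    linear_combination (2 : K) * hs)
  have n1 : (W⁄K).Nonsingular 0 0 := hb.nonsingular_of_eq (by ring)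
  have n2 : (W⁄K).Nonsingular (exE2 s) 0 := hb.nonsingular_of_eq (by ring)
  set P : (W⁄K).Point := Point.some _ _ nP with hP
  set Q : (W⁄K).Point := Point.some _ _ nQ with hQ
  set T1 : (W⁄K).Point := Point.some _ _ n1 with hT1
  set T2 : (W⁄K).Point := Point.some _ _ n2 with hT2
  have ne : ∀ (a b : ℚ) (x y : K), x - y = (a : K) + b * s → a ≠ 0 ∨ b ≠ 0 → x ≠ y := by
    intro a b x y hxy hab hh
    rw [hh, sub_self] at hxy
    have := s_ne hs a b hxy.symm
    rcases hab with h | h
    · exact h this.1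
    · exact h this.2
  have kT1 : Kum2 h T1 (0 - exE2 s) (0 - exE3 s) := kum2_some h n1 h.h12 h.h31.symm
  have kT2 : Kum2 h T2 ((exE2 s - exE3 s) * (exE2 s - 0)) (exE2 s - exE3 s) := kum2_tor h n2
  have kP : Kum2 h P (-5 + 3 * s - exE2 s) (-5 + 3 * s - exE3 s) := kum2_some h nP
    (ne (-25 / 2) (-7 / 2) _ _ (by rw [exE2]; push_cast; ring) (by norm_num))
    (ne (-8) (-4) _ _ (by rw [exE3]; push_cast; ring) (by norm_num))
  have kQ : Kum2 h Q (7 + 7 * s - exE2 s) (7 + 7 * s - exE3 s) := kum2_some h nQ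
    (ne (-1 / 2) (1 / 2) _ _ (by rw [exE2]; push_cast; ring) (by norm_num))
    (ne 4 0 _ _ (by rw [exE3]; push_cast; ring) (by norm_num))
  -- norms
  have N : ∀ (a b : ℚ) (x : K) (n : ℕ), x = (a : K) + b * s → a ^ 2 + 7 * b ^ 2 = n →
      nrm x = n := by
    intro a b x n hx hn
    rw [hx, nrm_s hs, hn]
    simp
  have NT1 : nrm (0 - exE2 s) = (352 : ℕ) := N (-15 / 2) (-13 / 2) _ _
    (by rw [exE2]; push_cast; ring) (by norm_num)
  have NT1' : nrm (0 - exE3 s) = (352 : ℕ) := N (-3) (-7) _ _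
    (by rw [exE3]; push_cast; ring) (by norm_num)
  have NT2' : nrm (exE2 s - exE3 s) = (22 : ℕ) := N (9 / 2) (-1 / 2) _ _
    (by rw [exE2, exE3]; push_cast; ring) (by norm_num)
  have NT2 : nrm ((exE2 s - exE3 s) * (exE2 s - 0)) = (7744 : ℕ) := by
    have : nrm (exE2 s - 0) = (352 : ℕ) := N (15 / 2) (13 / 2) _ _
      (by rw [exE2]; push_cast; ring) (by norm_num)
    rw [nrm_mul, NT2', this]
    norm_num
  have NP : nrm (-5 + 3 * s - exE2 s) = (242 : ℕ) := N (-25 / 2) (-7 / 2) _ _
    (by rw [exE2]; push_cast; ring) (by norm_num)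
  have NP' : nrm (-5 + 3 * s - exE3 s) = (176 : ℕ) := N (-8) (-4) _ _
    (by rw [exE3]; push_cast; ring) (by norm_num)
  have NQ : nrm (7 + 7 * s - exE2 s) = (2 : ℕ) := N (-1 / 2) (1 / 2) _ _
    (by rw [exE2]; push_cast; ring) (by norm_num)
  have NQ' : nrm (7 + 7 * s - exE3 s) = (16 : ℕ) := N 4 0 _ _
    (by rw [exE3]; push_cast; ring) (by norm_num)
  have hnat : ∀ a b c d : ℕ, (∃ R : (W⁄K).Point, a • T1 + b • T2 + c • P + d • Q = R + R) →
      a < 2 → b < 2 → c < 2 → d < 2 → a = 0 ∧ b = 0 ∧ c = 0 ∧ d = 0 := by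
    rintro a b c d ⟨R, hR⟩ ha hb hc hd
    have hk := (((kT1.nsmul a).add (kT2.nsmul b)).add (kP.nsmul c)).add (kQ.nsmul d)
    obtain ⟨q2, q3⟩ := hk.isSquare_of_double hR
    have m2 := isSquare_nrm hK hs q2 (n := 352 ^ a * 7744 ^ b * 242 ^ c * 2 ^ d) (by
      simp only [nrm_mul, nrm_pow, NT1, NT2, NP, NQ]
      push_cast
      ring)
    have m3 := isSquare_nrm hK hs q3 (n := 352 ^ a * 22 ^ b * 176 ^ c * 16 ^ d) (by
      simp only [nrm_mul, nrm_pow, NT1', NT2', NP', NQ']
      push_cast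
      ring)
    have no2 : ∀ k : ℕ, ¬ IsSquare ((k : ℕ) : ZMod 3) → ¬ IsSquare k :=
      fun k hk => not_isSquare_of_zmod hk
    have no5 : ∀ k : ℕ, ¬ IsSquare ((k : ℕ) : ZMod 5) → ¬ IsSquare k :=
      fun k hk => not_isSquare_of_zmod hk
    interval_cases a <;> interval_cases b <;> interval_cases c <;> interval_cases d <;>
      first
        | exact ⟨rfl, rfl, rfl, rfl⟩
        | exact absurd m2 (no2 _ (by decide))
        | exact absurd m2 (no5 _ (by decide))
        | exact absurd m3 (no2 _ (by decide))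
        | exact absurd m3 (no5 _ (by decide))
  refine ⟨P, Q, ?_⟩
  intro m n hmn
  refine indep_of_mod_two (T1 := T1) (T2 := T2) (P := P) (Q := Q) ?_ ?_ _ m n rfl hmn
  · intro R hR
    have e1 : tor hb = T1 := rfl
    have e2 : tor hb.rot = T2 := rfl
    rcases two_torsion_cases hb hR with h1 | h1 | h1 | h1
    · exact Or.inl h1
    · exact Or.inr (Or.inl h1)
    · exact Or.inr (Or.inr (Or.inl h1))
    · right; right; right
      rw [h1, ← tor_add_rot hb, e1, e2]
  · intro a b c d ⟨R, hR⟩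
    have red : ∀ (x : ℤ) (S : (W⁄K).Point), x • S = (x % 2).toNat • S + ((x / 2) • S + (x / 2) • S) := by
      intro x S
      have h1 : ((x % 2).toNat : ℤ) = x % 2 := Int.toNat_of_nonneg (Int.emod_nonneg x (by norm_num))
      rw [← natCast_zsmul, h1, ← add_smul, ← add_smul]
      congr 1
      omega
    have := hnat (a % 2).toNat (b % 2).toNat (c % 2).toNat (d % 2).toNat ⟨R - ((a / 2) • T1 +
      (b / 2) • T2 + (c / 2) • P + (d / 2) • Q), by
        rw [red a T1, red b T2, red c P, red d Q] at hR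
        have h2 : ∀ x1 x2 x3 x4 y1 y2 y3 y4 R : (W⁄K).Point,
            (x1 + (y1 + y1)) + (x2 + (y2 + y2)) + (x3 + (y3 + y3)) + (x4 + (y4 + y4)) = R + R →
            x1 + x2 + x3 + x4 = (R - (y1 + y2 + y3 + y4)) + (R - (y1 + y2 + y3 + y4)) := by
          intro x1 x2 x3 x4 y1 y2 y3 y4 R h3
          have : (R - (y1 + y2 + y3 + y4)) + (R - (y1 + y2 + y3 + y4)) =
              (R + R) - (y1 + y2 + y3 + y4 + (y1 + y2 + y3 + y4)) := by abel
          rw [this, ← h3]
          abel
        exact h2 _ _ _ _ _ _ _ _ _ hR⟩ (by omega) (by omega) (by omega) (by omega)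
    refine ⟨?_, ?_, ?_, ?_⟩ <;> rw [Int.even_iff] <;> omega

end example1

section transfer

variable {K F : Type u} [Field K] [NumberField K] [Field F] [NumberField F] [Algebra K F]

theorem legendre_bc (e1 e2 e3 : K) : ((legendre e1 e2 e3)⁄F) =
    legendre (algebraMap K F e1) (algebraMap K F e2) (algebraMap K F e3) := by
  ext <;> simp [legendre]

open scoped Classical in
/-- the rank does not decrease in an extension -/
theorem finrank_le {e1 e2 e3 : K} {f1 f2 f3 : F} (h1 : f1 = algebraMap K F e1)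
    (h2 : f2 = algebraMap K F e2) (h3 : f3 = algebraMap K F e3)
    (hFG : AddGroup.FG (legendre f1 f2 f3).Point) :
    Module.finrank ℤ (legendre e1 e2 e3).Point ≤ Module.finrank ℤ (legendre f1 f2 f3).Point := by
  have e : ((legendre e1 e2 e3)⁄F) = legendre f1 f2 f3 := by
    rw [h1, h2, h3]; exact legendre_bc e1 e2 e3
  rw [← e] at hFG ⊢
  have hf : Module.Finite ℤ ((legendre e1 e2 e3)⁄F).Point :=
    Module.Finite.iff_addGroup_fg.mpr hFG
  let φ : (legendre e1 e2 e3).Point →+ ((legendre e1 e2 e3)⁄F).Point :=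
    Point.map (W' := legendre e1 e2 e3) (Algebra.ofId K F)
  have hφ : Function.Injective φ := Point.map_injective (W' := legendre e1 e2 e3)
    (Algebra.ofId K F)
  exact LinearMap.finrank_le_finrank_of_injective (f := φ.toIntLinearMap) hφ

open scoped Classical in
/-- the rank is at least two if there are two independent points -/
theorem two_le_finrank {W : WeierstrassCurve.Affine F} (hFG : AddGroup.FG W.Point)
    (h : ∃ P Q : W.Point, ∀ m n : ℤ, m • P + n • Q = 0 → m = 0 ∧ n = 0) :
    2 ≤ Module.finrank ℤ W.Point := by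
  obtain ⟨P, Q, hPQ⟩ := h
  have hf : Module.Finite ℤ W.Point := Module.Finite.iff_addGroup_fg.mpr hFG
  have hli : LinearIndependent ℤ ![P, Q] := LinearIndependent.pair_iff.2 hPQ
  have := hli.fintype_card_le_finrank
  simpa using this

end transfer

end Pool.Agent.Work.MP_787500_nt
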