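import Mathlib
import Pool.Agent.Work.MP_787500_nt.H10_Base
import Pool.Agent.Work.MP_787500_nt.H10_Even

/-!
The local-global square property for the field generated by a square root `s` of `-q`, where `q` is
a prime congruent to 7 modulo 16.
-/

set_option autoImplicit false
set_option linter.unusedSectionVars false

namespace Pool.Agent.Work.MP_787500_nt

open WithZero IsDedekindDomain NumberField

namespace Quad

variable {K : Type*} [Field K] [NumberField K] {q : ℕ} {s : K}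

theorem emb_re_im (hs : s ^ 2 = -(q : K)) (hq : 0 < q) (φ : K →+* ℂ) :
    (φ s).re = 0 ∧ (φ s).im ^ 2 = q := by
  have h := congrArg φ hs
  rw [map_pow, map_neg, map_natCast] at h
  have hre := congrArg Complex.re h
  have him := congrArg Complex.im h
  simp [pow_two] at hre him
  set x := (φ s).re
  set y := (φ s).im
  have hq' : (0 : ℝ) < q := by exact_mod_cast hq
  have hy : y ≠ 0 := by
    intro hy
    rw [hy] at hre
    nlinarith [sq_nonneg x]
  have hx : x = 0 := by
    have : y * (2 * x) = 0 := by linear_combination him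
    rcases mul_eq_zero.1 this with h | h
    · exact absurd h hy
    · linarith
  refine ⟨hx, ?_⟩
  rw [hx] at hre
  nlinarith

theorem normSq_emb (hs : s ^ 2 = -(q : K)) (hq : 0 < q) (φ : K →+* ℂ) (a b : ℚ) :
    Complex.normSq (φ ((a : K) + b * s)) = (a : ℝ) ^ 2 + q * b ^ 2 := by
  obtain ⟨h1, h2⟩ := emb_re_im hs hq φ
  rw [map_add, map_mul, map_ratCast, map_ratCast, Complex.normSq_apply]
  simp only [Complex.add_re, Complex.mul_re, Complex.add_im, Complex.mul_im, Complex.ratCast_re,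
    Complex.ratCast_im, h1]
  linear_combination (b : ℝ) ^ 2 * h2

theorem not_rat (hs : s ^ 2 = -(q : K)) (hq : 0 < q) (a b : ℚ) (h : (a : K) + b * s = 0) :
    a = 0 ∧ b = 0 := by
  have φ : K →+* ℂ := Classical.arbitrary _
  have h1 := normSq_emb hs hq φ a b
  rw [h, map_zero, map_zero] at h1
  have h2 : (a : ℝ) ^ 2 + q * b ^ 2 = 0 := h1.symm
  have hq' : (0 : ℝ) < q := by exact_mod_cast hq
  have hb : (b : ℝ) = 0 := by
    have h3 : (q : ℝ) * b ^ 2 = 0 := by
      nlinarith [sq_nonneg (a : ℝ), mul_nonneg hq'.le (sq_nonneg (b : ℝ))]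
    have h4 : (b : ℝ) ^ 2 = 0 := (mul_eq_zero.1 h3).resolve_left hq'.ne'
    exact pow_eq_zero_iff (by norm_num) |>.1 h4
  have ha : (a : ℝ) = 0 := by
    rw [hb] at h2
    nlinarith
  exact ⟨by exact_mod_cast ha, by exact_mod_cast hb⟩

theorem exists_coords (hK : Module.finrank ℚ K = 2) (hs : s ^ 2 = -(q : K)) (hq : 0 < q) (x : K) :
    ∃ a b : ℚ, x = (a : K) + b * s := by
  have hli : LinearIndependent ℚ ![(1 : K), s] := by
    rw [LinearIndependent.pair_iff]
    intro c t h
    apply not_rat hs hq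
    rw [← h, Algebra.smul_def, Algebra.smul_def]
    simp
  have hspan := hli.span_eq_top_of_card_eq_finrank (by rw [hK]; rfl)
  have hx : x ∈ Submodule.span ℚ (Set.range ![(1 : K), s]) := by rw [hspan]; trivial
  rw [Matrix.range_cons, Matrix.range_cons, Matrix.range_empty, Set.union_empty,
    Set.singleton_union, Submodule.mem_span_pair] at hx
  obtain ⟨a, b, h⟩ := hx
  refine ⟨a, b, ?_⟩
  rw [← h, Algebra.smul_def, Algebra.smul_def]
  simp

theorem exists_int_coords (hK : Module.finrank ℚ K = 2) (hs : s ^ 2 = -(q : K)) (hq : q.Prime)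
    (hq4 : q % 4 = 3) {x : K} (hx : IsIntegral ℤ x) :
    ∃ a b : ℤ, 2 * x = (a : K) + b * s ∧ (2 : ℤ) ∣ a - b := by
  obtain ⟨a, b, rfl⟩ := exists_coords hK hs hq.pos x
  have φ : K →+* ℂ := Classical.arbitrary _
  obtain ⟨h1, h2⟩ := emb_re_im hs hq.pos φ
  set x := (a : K) + b * s with hxdef
  have i1 : IsIntegral ℤ (φ x) := map_isIntegral_int φ hx
  have i2 : IsIntegral ℤ ((starRingEnd ℂ) (φ x)) := map_isIntegral_int (starRingEnd ℂ) i1
  have hφx : φ x = ((a : ℝ) + b * (φ s).re : ℝ) + ((b : ℝ) * (φ s).im : ℝ) * Complex.I := by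
    rw [hxdef, map_add, map_mul, map_ratCast, map_ratCast]
    apply Complex.ext <;> simp
  have i3 : IsIntegral ℤ ((2 * a : ℚ) : ℂ) := by
    have := i1.add i2
    have e : φ x + (starRingEnd ℂ) (φ x) = ((2 * a : ℚ) : ℂ) := by
      rw [Complex.add_conj, hφx, h1]
      simp
    rwa [e] at this
  have i4 : IsIntegral ℤ ((a ^ 2 + q * b ^ 2 : ℚ) : ℂ) := by
    have := i1.mul i2
    have e : φ x * (starRingEnd ℂ) (φ x) = ((a ^ 2 + q * b ^ 2 : ℚ) : ℂ) := by
      rw [Complex.mul_conj, hxdef, normSq_emb hs hq.pos]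
      push_cast
      ring
    rwa [e] at this
  obtain ⟨t, ht⟩ := int_of_isIntegral_rat (q := 2 * a) (by
    have := (isIntegral_algebraMap_iff (R := ℤ) (A := ℚ) (B := ℂ) (x := 2 * a)
      (algebraMap ℚ ℂ).injective).1 (by simpa using i3)
    exact this)
  obtain ⟨n, hn⟩ := int_of_isIntegral_rat (q := a ^ 2 + q * b ^ 2) (by
    have := (isIntegral_algebraMap_iff (R := ℤ) (A := ℚ) (B := ℂ)
      (x := a ^ 2 + q * b ^ 2) (algebraMap ℚ ℂ).injective).1 (by simpa using i4)
    exact this)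
  -- q (2 b)^2 is an integer
  have h7 : (q : ℚ) * (2 * b) ^ 2 = ((4 * n - t ^ 2 : ℤ) : ℚ) := by
    push_cast
    rw [ht, hn]; ring
  have hbi : IsIntegral ℤ ((q : ℚ) * (2 * b)) := by
    have h8 : IsIntegral ℤ (((q : ℚ) * (2 * b)) ^ 2) := by
      rw [show ((q : ℚ) * (2 * b)) ^ 2 = ((q * (4 * n - t ^ 2) : ℤ) : ℚ) by
        push_cast; push_cast at h7; rw [← h7]; ring]
      exact isIntegral_algebraMap (R := ℤ) (x := q * (4 * n - t ^ 2))
    exact IsIntegral.of_pow (by norm_num) h8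
  obtain ⟨c, hc⟩ := int_of_isIntegral_rat hbi
  have h9 : c ^ 2 = q * (4 * n - t ^ 2) := by
    have : (c : ℚ) ^ 2 = q * ((4 * n - t ^ 2 : ℤ) : ℚ) := by rw [hc, ← h7]; ring
    exact_mod_cast this
  have h10 : (q : ℤ) ∣ c := by
    have h11 : (q : ℤ) ∣ c ^ 2 := ⟨_, h9⟩
    exact Int.Prime.dvd_pow' hq h11
  obtain ⟨d, rfl⟩ := h10
  have hq0 : (q : ℚ) ≠ 0 := by exact_mod_cast hq.ne_zero
  have hbd : 2 * b = d := by
    have : (q : ℚ) * (2 * b) = q * d := by rw [← hc]; push_cast; ring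
    exact mul_left_cancel₀ hq0 this
  have hq0' : (q : ℤ) ≠ 0 := by exact_mod_cast hq.ne_zero
  have h12 : q * d ^ 2 = 4 * n - t ^ 2 := by
    have : (q : ℤ) * (q * d ^ 2) = q * (4 * n - t ^ 2) := by rw [← h9]; ring
    exact mul_left_cancel₀ hq0' this
  have h13 : (2 : ℤ) ∣ t - d := by
    obtain ⟨k, hk⟩ : ∃ k : ℕ, q = 4 * k + 3 := ⟨q / 4, by omega⟩
    have h14 : (2 : ℤ) ∣ (t - d) * (t - d) := by
      refine ⟨2 * n - (2 * k + 1) * d ^ 2 - t * d, ?_⟩
      rw [hk] at h12
      push_cast at h12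
      linear_combination h12
    rcases (Int.prime_two.dvd_mul).1 h14 with h | h <;> exact h
  refine ⟨t, d, ?_, h13⟩
  have h15 : ((2 * a : ℚ) : K) = ((t : ℚ) : K) := by rw [ht]
  have h16 : ((2 * b : ℚ) : K) = ((d : ℚ) : K) := by rw [hbd]
  push_cast at h15 h16
  rw [hxdef, mul_add, ← mul_assoc, h15, h16]

/-- the conjugation of the quadratic field -/
theorem exists_conj (hK : Module.finrank ℚ K = 2) (hs : s ^ 2 = -(q : K)) (hq : 0 < q) :
    ∃ σ : K ≃+* K, σ s = -s := by
  have : Algebra.IsQuadraticExtension ℚ K := ⟨hK⟩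
  have hG : IsGalois ℚ K := Algebra.IsQuadraticExtension.isGalois ℚ K
  have hcard : Nat.card (K ≃ₐ[ℚ] K) = 2 := by rw [IsGalois.card_aut_eq_finrank, hK]
  have hnt : Nontrivial (K ≃ₐ[ℚ] K) := by
    rw [← Finite.one_lt_card_iff_nontrivial, hcard]
    norm_num
  obtain ⟨σ, hσ⟩ := exists_ne (1 : K ≃ₐ[ℚ] K)
  refine ⟨(σ : K ≃+* K), ?_⟩
  have h1 : (σ s) ^ 2 = s ^ 2 := by
    rw [← map_pow, hs, map_neg, map_natCast]
  rcases sq_eq_sq_iff_eq_or_eq_neg.1 h1 with h | h
  · exfalso
    apply hσ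
    ext x
    obtain ⟨a, b, rfl⟩ := exists_coords hK hs hq x
    rw [map_add, map_mul, map_ratCast, map_ratCast, h]
    rfl
  · exact h

theorem int_coe (n : ℤ) : algebraMap (𝓞 K) K (n : 𝓞 K) = (n : K) := map_intCast _ n

theorem exists_int_s (hs : s ^ 2 = -(q : K)) : ∃ S : 𝓞 K, algebraMap (𝓞 K) K S = s ∧
    S ^ 2 = -(q : 𝓞 K) := by
  have h1 : IsIntegral ℤ s := by
    refine IsIntegral.of_pow (n := 2) (by norm_num) ?_
    rw [hs]
    have := isIntegral_algebraMap (R := ℤ) (A := K) (x := -(q : ℤ))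
    simpa using this
  obtain ⟨S, hS⟩ : ∃ S : 𝓞 K, algebraMap (𝓞 K) K S = s := ⟨⟨s, h1⟩, rfl⟩
  refine ⟨S, hS, ?_⟩
  apply RingOfIntegers.ext
  show algebraMap (𝓞 K) K _ = algebraMap (𝓞 K) K _
  rw [map_pow, map_neg, map_natCast, hS]
  exact hs

/-- existence of a prime above a rational prime -/
theorem exists_place {l : ℕ} (hl : l.Prime) : ∃ v : HeightOneSpectrum (𝓞 K), (l : 𝓞 K) ∈ v.asIdeal := by
  have hne : Ideal.span {(l : 𝓞 K)} ≠ ⊤ := by
    intro h
    rw [Ideal.span_singleton_eq_top] at h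
    obtain ⟨u, hu⟩ := h.exists_right_inv
    have h1 : (l : K) * algebraMap (𝓞 K) K u = 1 := by
      rw [← map_natCast (algebraMap (𝓞 K) K) l, ← map_mul, hu, map_one]
    have hl0 : (l : K) ≠ 0 := by exact_mod_cast hl.ne_zero
    have h2 : algebraMap (𝓞 K) K u = algebraMap ℚ K (1 / l) := by
      rw [map_div₀, map_one, map_natCast]
      field_simp
      rw [mul_comm]
      exact h1
    have h3 : IsIntegral ℤ (algebraMap ℚ K (1 / l)) := by
      rw [← h2]
      exact u.isIntegral_coe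
    have h4 := (isIntegral_algebraMap_iff (R := ℤ) (A := ℚ) (B := K) (x := 1 / l)
      (algebraMap ℚ K).injective).1 h3
    obtain ⟨n, hn⟩ := int_of_isIntegral_rat h4
    have hl0' : (l : ℚ) ≠ 0 := by exact_mod_cast hl.ne_zero
    have h5 : (n : ℚ) * l = 1 := by rw [hn]; field_simp
    have h6 : n * (l : ℤ) = 1 := by exact_mod_cast h5
    have h7 : (l : ℤ) ∣ 1 := ⟨n, by rw [mul_comm]; exact h6.symm⟩
    have h8 : l ∣ 1 := by exact_mod_cast h7
    exact hl.one_lt.ne' (Nat.dvd_one.1 h8)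
  obtain ⟨M, hM, hle⟩ := Ideal.exists_le_maximal _ hne
  have hlM : (l : 𝓞 K) ∈ M := hle (Ideal.mem_span_singleton_self _)
  refine ⟨⟨M, hM.isPrime, ?_⟩, hlM⟩
  rintro rfl
  have : (l : 𝓞 K) = 0 := hlM
  exact hl.ne_zero (by exact_mod_cast this)

section places

variable {v : HeightOneSpectrum (𝓞 K)} {l : ℕ}

theorem dvd_of_mem (hl : l.Prime) (hv : (l : 𝓞 K) ∈ v.asIdeal) {n : ℤ}
    (hn : (n : 𝓞 K) ∈ v.asIdeal) : (l : ℤ) ∣ n := by
  by_contra hcon
  have hcop : IsCoprime (l : ℤ) n :=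
    (Prime.coprime_iff_not_dvd (Nat.prime_iff_prime_int.1 hl)).2 hcon
  obtain ⟨a, b, hab⟩ := hcop
  have h1 : ((a * l + b * n : ℤ) : 𝓞 K) ∈ v.asIdeal := by
    push_cast
    exact v.asIdeal.add_mem (v.asIdeal.mul_mem_left _ hv) (v.asIdeal.mul_mem_left _ hn)
  rw [hab, Int.cast_one] at h1
  exact one_notMem v h1

theorem mem_of_dvd (hv : (l : 𝓞 K) ∈ v.asIdeal) {n : ℤ} (hn : (l : ℤ) ∣ n) :
    (n : 𝓞 K) ∈ v.asIdeal := by
  obtain ⟨k, rfl⟩ := hn
  push_cast
  exact v.asIdeal.mul_mem_right _ hv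

theorem val_int_le_one (n : ℤ) : v.valuation K (n : K) ≤ 1 := by
  rw [← int_coe]; exact v.valuation_le_one _

theorem val_int_eq_one (hl : l.Prime) (hv : (l : 𝓞 K) ∈ v.asIdeal) {n : ℤ} (hn : ¬ (l : ℤ) ∣ n) :
    v.valuation K (n : K) = 1 := by
  rw [← int_coe, HeightOneSpectrum.valuation_eq_one_iff_notMem]
  exact fun h => hn (dvd_of_mem hl hv h)

theorem val_int_lt_one (hv : (l : 𝓞 K) ∈ v.asIdeal) {n : ℤ} (hn : (l : ℤ) ∣ n) :
    v.valuation K (n : K) < 1 := by
  rw [← int_coe, HeightOneSpectrum.valuation_lt_one_iff_mem]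
  exact mem_of_dvd hv hn

end places

section unram

variable {v : HeightOneSpectrum (𝓞 K)} {l : ℕ}

theorem val_int_le_of_dvd {m n : ℤ} (h : m ∣ n) : v.valuation K (n : K) ≤ v.valuation K (m : K) := by
  obtain ⟨k, rfl⟩ := h
  rw [Int.cast_mul, map_mul]
  calc v.valuation K (m : K) * v.valuation K (k : K) ≤ v.valuation K (m : K) * 1 :=
        mul_le_mul' le_rfl (val_int_le_one k)
    _ = _ := mul_one _

theorem val_s_eq_one (hs : s ^ 2 = -(q : K)) (hq : q.Prime) (hl : l.Prime) (hlq : l ≠ q)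
    (hv : (l : 𝓞 K) ∈ v.asIdeal) : v.valuation K s = 1 := by
  have h1 : v.valuation K (s ^ 2) = 1 := by
    rw [hs, Valuation.map_neg]
    have := val_int_eq_one (K := K) hl hv (n := (q : ℤ)) (by
      intro h
      have h2 : l ∣ q := by exact_mod_cast h
      exact hlq ((Nat.prime_dvd_prime_iff_eq hl hq).1 h2))
    simpa using this
  rw [map_pow] at h1
  exact (pow_eq_one_iff.1 h1).resolve_right (by norm_num)

theorem val_prime (hK : Module.finrank ℚ K = 2) (hs : s ^ 2 = -(q : K)) (hq : q.Prime)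
    (hq4 : q % 4 = 3) (hl : l.Prime) (hl2 : l ≠ 2) (hlq : l ≠ q) (hv : (l : 𝓞 K) ∈ v.asIdeal) :
    v.valuation K (l : K) = exp (-1) := by
  have hlt : v.valuation K (l : K) < 1 := by
    have := val_int_lt_one (K := K) hv (n := (l : ℤ)) dvd_rfl
    simpa using this
  have hle : v.valuation K (l : K) ≤ exp (-1) := le_exp_of_lt (n := 0) (by rwa [exp_zero])
  refine le_antisymm hle ?_
  have hV2 : v.valuation K (2 : K) = 1 := by
    have := val_int_eq_one (K := K) hl hv (n := (2 : ℤ)) (by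
      intro h
      have h2 : l ∣ 2 := by exact_mod_cast h
      exact hl2 ((Nat.prime_dvd_prime_iff_eq hl Nat.prime_two).1 h2))
    simpa using this
  have hVs := val_s_eq_one hs hq hl hlq hv
  obtain ⟨S, hS, -⟩ := exists_int_s hs
  obtain ⟨π, hπ⟩ := v.intValuation_exists_uniformizer
  obtain ⟨a, b, hab, -⟩ := exists_int_coords hK hs hq hq4 π.isIntegral_coe
  have h1 : v.valuation K ((a : K) + b * s) = exp (-1) := by
    rw [← hab, map_mul, hV2, one_mul]
    show v.valuation K (algebraMap (𝓞 K) K π) = _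
    rw [HeightOneSpectrum.valuation_of_algebraMap]
    exact hπ
  have hln : ∀ n : ℤ, v.valuation K (n : K) < 1 → (l : ℤ) ∣ n := by
    intro n hn
    rw [← int_coe, HeightOneSpectrum.valuation_lt_one_iff_mem] at hn
    exact dvd_of_mem hl hv hn
  have hint : v.valuation K ((a : K) - b * s) ≤ 1 := by
    have : (a : K) - b * s = algebraMap (𝓞 K) K ((a : 𝓞 K) - b * S) := by
      rw [map_sub, map_mul, int_coe, int_coe, hS]
    rw [this]
    exact v.valuation_le_one _
  rcases lt_or_eq_of_le hint with h | h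
  · have h2 : v.valuation K ((2 * a : ℤ) : K) < 1 := by
      have e : ((2 * a : ℤ) : K) = ((a : K) + b * s) + ((a : K) - b * s) := by push_cast; ring
      rw [e]
      refine lt_of_le_of_lt (Valuation.map_add _ _ _) (max_lt ?_ h)
      rw [h1, ← exp_zero, exp_lt_exp]
      norm_num
    have h3 : v.valuation K ((2 * b : ℤ) : K) < 1 := by
      have e : ((2 * b : ℤ) : K) * s = ((a : K) + b * s) - ((a : K) - b * s) := by push_cast; ring
      have h4 : v.valuation K (((2 * b : ℤ) : K) * s) < 1 := by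
        rw [e]
        refine lt_of_le_of_lt (Valuation.map_sub _ _ _) (max_lt ?_ h)
        rw [h1, ← exp_zero, exp_lt_exp]
        norm_num
      rwa [map_mul, hVs, mul_one] at h4
    have hl' : Prime (l : ℤ) := Nat.prime_iff_prime_int.1 hl
    have hl2' : ¬ (l : ℤ) ∣ 2 := by
      intro h
      have h2 : l ∣ 2 := by exact_mod_cast h
      exact hl2 ((Nat.prime_dvd_prime_iff_eq hl Nat.prime_two).1 h2)
    obtain ⟨a', ha'⟩ := (hl'.dvd_or_dvd (hln _ h2)).resolve_left hl2'
    obtain ⟨b', hb'⟩ := (hl'.dvd_or_dvd (hln _ h3)).resolve_left hl2'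
    rw [← h1, show (a : K) + b * s = (l : K) * algebraMap (𝓞 K) K ((a' : 𝓞 K) + b' * S) by
      rw [map_add, map_mul, int_coe, int_coe, hS, ha', hb']; push_cast; ring, map_mul]
    calc _ ≤ v.valuation K (l : K) * 1 := mul_le_mul' le_rfl (v.valuation_le_one _)
      _ = _ := mul_one _
  · have h2 : v.valuation K ((a ^ 2 + q * b ^ 2 : ℤ) : K) = exp (-1) := by
      have e : ((a ^ 2 + q * b ^ 2 : ℤ) : K) = ((a : K) + b * s) * ((a : K) - b * s) := by
        push_cast
        linear_combination (b : K) ^ 2 * hs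
      rw [e, map_mul, h1, h, mul_one]
    have h3 := hln (a ^ 2 + q * b ^ 2) (by
      rw [h2, ← exp_zero, exp_lt_exp]
      norm_num)
    rw [← h2]
    simpa using val_int_le_of_dvd (K := K) (v := v) h3

theorem exists_W (hK : Module.finrank ℚ K = 2) (hs : s ^ 2 = -(q : K)) (hq : q.Prime)
    (hq8 : q % 8 = 7) : ∃ (W : 𝓞 K) (k : ℤ), 2 * algebraMap (𝓞 K) K W = 1 + s ∧
      W * (1 - W) = 2 * k ∧ ∀ x : 𝓞 K, ∃ a b : ℤ, x = a + b * W := by
  obtain ⟨k, hk⟩ : ∃ k : ℕ, q + 1 = 8 * k := ⟨(q + 1) / 8, by omega⟩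
  have hkK : (q : K) + 1 = 8 * k := by exact_mod_cast hk
  have hw : ((1 + s) / 2) ^ 2 - (1 + s) / 2 + 2 * k = 0 := by
    linear_combination (1 / 4 : K) * hs - (1 / 4 : K) * hkK
  have h1 : IsIntegral ℤ ((1 + s) / 2) := by
    refine ⟨Polynomial.X ^ 2 - Polynomial.X + 2 * (k : Polynomial ℤ), ?_, ?_⟩
    · have : (2 * (k : Polynomial ℤ)) = Polynomial.C (2 * (k : ℤ)) := by simp
      rw [this]
      monicity!
    · simp [Polynomial.eval₂_sub, Polynomial.eval₂_add, Polynomial.eval₂_pow,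
        Polynomial.eval₂_mul, hw]
  obtain ⟨W, hW⟩ : ∃ W : 𝓞 K, algebraMap (𝓞 K) K W = (1 + s) / 2 := ⟨⟨_, h1⟩, rfl⟩
  refine ⟨W, k, by rw [hW]; ring, ?_, ?_⟩
  · apply RingOfIntegers.ext
    show algebraMap (𝓞 K) K _ = algebraMap (𝓞 K) K _
    rw [map_mul, map_sub, map_one, hW, map_mul, map_ofNat, int_coe]
    push_cast
    linear_combination -hw
  · intro x
    obtain ⟨a, b, hab, c, hc⟩ := exists_int_coords hK hs hq (by omega) x.isIntegral_coe
    refine ⟨c, b, ?_⟩
    apply RingOfIntegers.ext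
    show algebraMap (𝓞 K) K _ = algebraMap (𝓞 K) K _
    rw [map_add, map_mul, int_coe, int_coe, hW]
    have hc' : (a : K) - b = 2 * c := by exact_mod_cast congrArg (Int.cast (R := K)) hc
    have h2 : 2 * algebraMap (𝓞 K) K x = 2 * (c + b * ((1 + s) / 2)) := by
      linear_combination hab + hc'
    exact mul_left_cancel₀ two_ne_zero h2

theorem dyadic (hK : Module.finrank ℚ K = 2) (hs : s ^ 2 = -(q : K)) (hq : q.Prime)
    (hq8 : q % 8 = 7) (hv : (2 : 𝓞 K) ∈ v.asIdeal) :
    (∀ x : 𝓞 K, x ∈ v.asIdeal ∨ x - 1 ∈ v.asIdeal) ∧ v.valuation K (2 : K) = exp (-1) := by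
  obtain ⟨W0, k, -, hWk0, hx0⟩ := exists_W hK hs hq hq8
  obtain ⟨W, hWv, hWk, hx⟩ : ∃ W : 𝓞 K, W ∈ v.asIdeal ∧ W * (1 - W) = 2 * k ∧
      ∀ x : 𝓞 K, ∃ a b : ℤ, x = a + b * W := by
    have h1 : W0 * (1 - W0) ∈ v.asIdeal := by
      rw [hWk0]
      exact v.asIdeal.mul_mem_right _ hv
    rcases v.isPrime.mem_or_mem h1 with h | h
    · exact ⟨W0, h, hWk0, hx0⟩
    · refine ⟨1 - W0, h, by rw [← hWk0]; ring, fun x => ?_⟩
      obtain ⟨a, b, rfl⟩ := hx0 x
      exact ⟨a + b, -b, by push_cast; ring⟩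
  have hv' : ((2 : ℕ) : 𝓞 K) ∈ v.asIdeal := by exact_mod_cast hv
  constructor
  · intro x
    obtain ⟨a, b, rfl⟩ := hx x
    rcases Int.even_or_odd' a with ⟨c, hc | hc⟩
    · left
      rw [hc]
      push_cast
      exact v.asIdeal.add_mem (v.asIdeal.mul_mem_right _ hv) (v.asIdeal.mul_mem_left _ hWv)
    · right
      rw [hc]
      push_cast
      rw [show (2 : 𝓞 K) * c + 1 + b * W - 1 = 2 * c + b * W by ring]
      exact v.asIdeal.add_mem (v.asIdeal.mul_mem_right _ hv) (v.asIdeal.mul_mem_left _ hWv)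
  · have hlt : v.valuation K (2 : K) < 1 := by
      have := val_int_lt_one (K := K) hv' (n := (2 : ℤ)) dvd_rfl
      simpa using this
    have hle : v.valuation K (2 : K) ≤ exp (-1) := le_exp_of_lt (n := 0) (by rwa [exp_zero])
    refine le_antisymm hle ?_
    obtain ⟨π, hπ⟩ := v.intValuation_exists_uniformizer
    obtain ⟨a, b, hab⟩ := hx π
    have hπv : π ∈ v.asIdeal := by
      rw [← HeightOneSpectrum.valuation_lt_one_iff_mem (K := K),
        HeightOneSpectrum.valuation_of_algebraMap, hπ, ← exp_zero, exp_lt_exp]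
      norm_num
    have hav : (a : 𝓞 K) ∈ v.asIdeal := by
      have := v.asIdeal.sub_mem hπv (v.asIdeal.mul_mem_left (b : 𝓞 K) hWv)
      rwa [hab, add_sub_cancel_right] at this
    obtain ⟨c, hc⟩ := dvd_of_mem Nat.prime_two hv' hav
    have e : π * (1 - W) = 2 * (c * (1 - W) + b * k) := by
      rw [hab, hc]
      push_cast
      linear_combination (b : 𝓞 K) * hWk
    have h1W : v.valuation K (algebraMap (𝓞 K) K (1 - W)) = 1 := by
      rw [HeightOneSpectrum.valuation_eq_one_iff_notMem]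
      intro h
      have := v.asIdeal.add_mem h hWv
      rw [sub_add_cancel] at this
      exact one_notMem v this
    have h2 : v.valuation K (algebraMap (𝓞 K) K (π * (1 - W))) = exp (-1) := by
      rw [map_mul, map_mul, h1W, mul_one, HeightOneSpectrum.valuation_of_algebraMap, hπ]
    rw [← h2, e, map_mul, map_mul, map_ofNat]
    calc _ ≤ v.valuation K (2 : K) * 1 := mul_le_mul' le_rfl (v.valuation_le_one _)
      _ = _ := mul_one _

end unram

section parity

variable {v : HeightOneSpectrum (𝓞 K)} {l : ℕ}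

theorem not_isSquare_exp_neg_one : ¬ IsSquare (exp (-1) : ℤᵐ⁰) := by
  rw [isSquare_exp_iff]
  decide

theorem IsSquare.of_mul' {x y : ℤᵐ⁰} (hy : y ≠ 0) (h1 : IsSquare (x * y)) (h2 : IsSquare y) :
    IsSquare x := by
  obtain ⟨a, ha⟩ := h1
  obtain ⟨b, hb⟩ := h2
  have hb0 : b ≠ 0 := by
    rintro rfl
    exact hy (by rw [hb, mul_zero])
  refine ⟨a * b⁻¹, ?_⟩
  have : x = x * y * y⁻¹ := by rw [mul_assoc, mul_inv_cancel₀ hy, mul_one]
  rw [this, ha, hb, mul_inv]
  ac_rfl

/-- a squarefree integer multiple of an unramified odd prime has odd valuation -/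
theorem val_squarefree (hK : Module.finrank ℚ K = 2) (hs : s ^ 2 = -(q : K)) (hq : q.Prime)
    (hq4 : q % 4 = 3) (hl : l.Prime) (hl2 : l ≠ 2) (hlq : l ≠ q) (hv : (l : 𝓞 K) ∈ v.asIdeal)
    {a : ℕ} (ha : Squarefree a) (hla : l ∣ a) : v.valuation K (a : K) = exp (-1) := by
  obtain ⟨c, rfl⟩ := hla
  have hc : ¬ l ∣ c := by
    rintro ⟨d, rfl⟩
    exact hl.one_lt.ne' (Nat.isUnit_iff.1 (ha l ⟨d, by ring⟩))
  rw [Nat.cast_mul, map_mul, val_prime hK hs hq hq4 hl hl2 hlq hv]
  have := val_int_eq_one (K := K) hl hv (n := (c : ℤ)) (by exact_mod_cast hc)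
  rw [Int.cast_natCast] at this
  rw [this, mul_one]

/-- the ramified prime -/
theorem ramified (hK : Module.finrank ℚ K = 2) (hs : s ^ 2 = -(q : K)) (hq : q.Prime)
    (hq4 : q % 4 = 3) (hv : (q : 𝓞 K) ∈ v.asIdeal) : v.valuation K s = exp (-1) := by
  obtain ⟨S, hS, hSq⟩ := exists_int_s hs
  have hSv : S ∈ v.asIdeal := by
    have : S ^ 2 ∈ v.asIdeal := by
      rw [hSq]; exact v.asIdeal.neg_mem hv
    exact v.isPrime.mem_of_pow_mem _ this
  have hlt : v.valuation K s < 1 := by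
    rw [← hS, HeightOneSpectrum.valuation_lt_one_iff_mem]
    exact hSv
  have hle : v.valuation K s ≤ exp (-1) := le_exp_of_lt (n := 0) (by rwa [exp_zero])
  refine le_antisymm hle ?_
  have hV2 : v.valuation K (2 : K) = 1 := by
    have := val_int_eq_one (K := K) hq hv (n := (2 : ℤ)) (by
      intro h
      have h2 : q ∣ 2 := by exact_mod_cast h
      have := (Nat.prime_dvd_prime_iff_eq hq Nat.prime_two).1 h2
      rw [this] at hq4
      norm_num at hq4)
    simpa using this
  obtain ⟨π, hπ⟩ := v.intValuation_exists_uniformizer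
  obtain ⟨a, b, hab, -⟩ := exists_int_coords hK hs hq hq4 π.isIntegral_coe
  have h1 : v.valuation K ((a : K) + b * s) = exp (-1) := by
    rw [← hab, map_mul, hV2, one_mul]
    show v.valuation K (algebraMap (𝓞 K) K π) = _
    rw [HeightOneSpectrum.valuation_of_algebraMap]
    exact hπ
  have hVbs : v.valuation K ((b : K) * s) < 1 := by
    rw [map_mul]
    calc _ ≤ 1 * v.valuation K s := mul_le_mul' (val_int_le_one b) le_rfl
      _ < 1 := by rwa [one_mul]
  have hVa : v.valuation K (a : K) < 1 := by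
    have e : (a : K) = ((a : K) + b * s) - b * s := by ring
    rw [e]
    refine lt_of_le_of_lt (Valuation.map_sub _ _ _) (max_lt ?_ hVbs)
    rw [h1, ← exp_zero, exp_lt_exp]
    norm_num
  rw [← int_coe, HeightOneSpectrum.valuation_lt_one_iff_mem] at hVa
  obtain ⟨c, hc⟩ := dvd_of_mem hq hv hVa
  rw [← h1, show (a : K) + b * s = s * algebraMap (𝓞 K) K ((b : 𝓞 K) - c * S) by
    rw [map_sub, map_mul, int_coe, int_coe, hS, hc]
    push_cast
    linear_combination (c : K) * hs, map_mul]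
  calc _ ≤ v.valuation K s * 1 := mul_le_mul' le_rfl (v.valuation_le_one _)
    _ = _ := mul_one _

theorem q_notMem_of_two_mem (hq : q.Prime) (hq4 : q % 4 = 3) (hv : (q : 𝓞 K) ∈ v.asIdeal) :
    (2 : 𝓞 K) ∉ v.asIdeal := by
  intro h
  have := dvd_of_mem (n := 2) hq hv (by exact_mod_cast h)
  have h2 : q ∣ 2 := by exact_mod_cast this
  have := (Nat.prime_dvd_prime_iff_eq hq Nat.prime_two).1 h2
  rw [this] at hq4
  norm_num at hq4

theorem two_notMem (hl : l.Prime) (hl2 : l ≠ 2) (hv : (l : 𝓞 K) ∈ v.asIdeal) :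
    (2 : 𝓞 K) ∉ v.asIdeal := by
  intro h
  have := dvd_of_mem (n := 2) hl hv (by exact_mod_cast h)
  have h2 : l ∣ 2 := by exact_mod_cast this
  exact hl2 ((Nat.prime_dvd_prime_iff_eq hl Nat.prime_two).1 h2)

/-- the only possible squarefree `a` with prime factors 2 and `q` -/
theorem eq_of_primes (hq : q.Prime) {a : ℕ} (ha : Squarefree a)
    (h : ∀ l : ℕ, l.Prime → l ≠ 2 → l ≠ q → ¬ l ∣ a) :
    ∃ b c : ℕ, (b = 1 ∨ b = 2) ∧ (c = 1 ∨ c = q) ∧ a = b * c := by
  have hdvd : a ∣ 2 * q := by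
    by_cases hq2 : q = 2
    · subst hq2
      rw [← Nat.prod_primeFactors_of_squarefree ha]
      have hsub : a.primeFactors ⊆ {2} := by
        intro l hl
        rw [Nat.mem_primeFactors] at hl
        rw [Finset.mem_singleton]
        by_contra hcon
        exact h l hl.1 hcon hcon hl.2.1
      refine (Finset.prod_dvd_prod_of_subset _ _ _ hsub).trans ?_
      rw [Finset.prod_singleton]
      exact Dvd.intro _ rfl
    · rw [← Nat.prod_primeFactors_of_squarefree ha]
      have hsub : a.primeFactors ⊆ {2, q} := by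
        intro l hl
        rw [Nat.mem_primeFactors] at hl
        rw [Finset.mem_insert, Finset.mem_singleton]
        by_contra hcon
        push Not at hcon
        exact h l hl.1 hcon.1 hcon.2 hl.2.1
      refine (Finset.prod_dvd_prod_of_subset _ _ _ hsub).trans ?_
      rw [Finset.prod_pair (Ne.symm hq2)]
  obtain ⟨b, c, hb, hc, rfl⟩ := Nat.dvd_mul.1 hdvd
  exact ⟨b, c, (Nat.dvd_prime Nat.prime_two).1 hb, (Nat.dvd_prime hq).1 hc, rfl⟩

/-- an integer with even valuations off 2 is up to sign and squares equal to `1` or `2` -/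
theorem int_cls (hK : Module.finrank ℚ K = 2) (hs : s ^ 2 = -(q : K)) (hq : q.Prime)
    (hq4 : q % 4 = 3) {M : ℤ} (hM : M ≠ 0) (hev : EvenOff2 (M : K)) :
    ∃ (ε : K) (b : ℕ) (t : K), (ε = 1 ∨ ε = -1) ∧ (b = 1 ∨ b = 2) ∧ t ≠ 0 ∧
      (M : K) = ε * b * t ^ 2 := by
  obtain ⟨a, e, hae, ha⟩ := Nat.sq_mul_squarefree M.natAbs
  have hM0 : M.natAbs ≠ 0 := Int.natAbs_ne_zero.2 hM
  have he0 : e ≠ 0 := by
    rintro rfl
    apply hM0
    rw [← hae]; simp
  have ha0 : a ≠ 0 := by
    rintro rfl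
    apply hM0
    rw [← hae]; simp
  obtain ⟨ε, hε, hMε⟩ : ∃ ε : K, (ε = 1 ∨ ε = -1) ∧ (M : K) = ε * (a * (e : K) ^ 2) := by
    have hcast : ((M.natAbs : ℕ) : K) = a * (e : K) ^ 2 := by
      rw [← hae]; push_cast; ring
    rcases Int.natAbs_eq M with h | h
    · refine ⟨1, Or.inl rfl, ?_⟩
      rw [one_mul, ← hcast, h]
      simp
    · refine ⟨-1, Or.inr rfl, ?_⟩
      rw [← hcast, h]
      simp
  have heK : (e : K) ≠ 0 := by exact_mod_cast he0
  have haK : (a : K) ≠ 0 := by exact_mod_cast ha0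
  have hprimes : ∀ l : ℕ, l.Prime → l ≠ 2 → l ≠ q → ¬ l ∣ a := by
    intro l hl hl2 hlq hla
    obtain ⟨v, hv⟩ := exists_place (K := K) hl
    have h1 := hev v (two_notMem hl hl2 hv)
    have h2 : v.valuation K (M : K) = v.valuation K (a : K) * v.valuation K ((e : K) ^ 2) := by
      rw [hMε, map_mul, map_mul]
      rcases hε with rfl | rfl
      · rw [map_one, one_mul]
      · rw [Valuation.map_neg, map_one, one_mul]
    rw [h2] at h1
    have h3 := IsSquare.of_mul' ((v.valuation K).ne_zero_iff.2 (pow_ne_zero 2 heK)) h1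
      (by rw [map_pow]; exact ⟨_, pow_two _⟩)
    rw [val_squarefree hK hs hq hq4 hl hl2 hlq hv ha hla] at h3
    exact not_isSquare_exp_neg_one h3
  obtain ⟨b, c, hb, hc, rfl⟩ := eq_of_primes hq ha hprimes
  rcases hc with rfl | rfl
  · refine ⟨ε, b, e, hε, hb, heK, ?_⟩
    rw [hMε]
    push_cast
    ring
  · have hs0 : s ≠ 0 := by
      rintro rfl
      have : (c : K) = 0 := by
        have h := hs
        rw [zero_pow (by norm_num)] at h
        rw [← neg_eq_zero]; exact h.symm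
      exact hq.ne_zero (by exact_mod_cast this)
    refine ⟨-ε, b, s * e, ?_, hb, mul_ne_zero hs0 heK, ?_⟩
    · rcases hε with rfl | rfl <;> simp
    · rw [hMε]
      push_cast
      linear_combination (ε * b * (e : K) ^ 2) * hs

end parity

section local2

variable {v : HeightOneSpectrum (𝓞 K)}

theorem sub_one_lt (hres : ∀ x : 𝓞 K, x ∈ v.asIdeal ∨ x - 1 ∈ v.asIdeal) {y : K}
    (hy : v.valuation K y = 1) : v.valuation K (y - 1) < 1 := by
  obtain ⟨n, ⟨d, hd⟩, hnd⟩ := HeightOneSpectrum.exists_primeCompl_mul_eq_of_integer v y hy.le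
  have hd' : d ∉ v.asIdeal := hd
  have hvd : v.valuation K (algebraMap (𝓞 K) K d) = 1 :=
    (HeightOneSpectrum.valuation_eq_one_iff_notMem v).2 hd'
  have hnd' : y * algebraMap (𝓞 K) K d = algebraMap (𝓞 K) K n := hnd
  have hn' : n ∉ v.asIdeal := by
    rw [← HeightOneSpectrum.valuation_eq_one_iff_notMem (K := K) v, ← hnd', map_mul, hy, hvd,
      mul_one]
  have h2 : n - d ∈ v.asIdeal := by
    have := v.asIdeal.sub_mem ((hres n).resolve_left hn') ((hres d).resolve_left hd')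
    rwa [sub_sub_sub_cancel_right] at this
  have h3 : v.valuation K ((y - 1) * algebraMap (𝓞 K) K d) < 1 := by
    rw [sub_mul, hnd', one_mul, ← map_sub, HeightOneSpectrum.valuation_lt_one_iff_mem]
    exact h2
  rwa [map_mul, hvd, mul_one] at h3

theorem sq_sub_one_le (hres : ∀ x : 𝓞 K, x ∈ v.asIdeal ∨ x - 1 ∈ v.asIdeal)
    (h2 : v.valuation K (2 : K) = exp (-1)) {y : K}
    (hy : v.valuation K y = 1) : v.valuation K (y ^ 2 - 1) ≤ exp (-3) := by
  set V := v.valuation K with hV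
  set w := (y - 1) / 2 with hw
  have hVw : V w ≤ 1 := by
    have h1 := le_exp_of_lt (n := 0) (by rw [exp_zero]; exact sub_one_lt hres hy)
    rw [hw, map_div₀, h2, div_le_one₀ (by exact exp_pos)]
    exact h1
  have e : y ^ 2 - 1 = 2 * 2 * (w * (w + 1)) := by
    have h1 : y = 1 + 2 * w := by rw [hw]; field_simp; ring
    rw [h1]; ring
  have hfin : V (w * (w + 1)) ≤ exp (-1) := by
    rcases lt_or_eq_of_le hVw with h | h
    · rw [map_mul]
      have h1 : V (w + 1) ≤ 1 := (V.map_add _ _).trans (max_le hVw (by rw [map_one]))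
      calc V w * V (w + 1) ≤ exp (0 - 1) * 1 := mul_le_mul' (le_exp_of_lt (by rwa [exp_zero])) h1
        _ = exp (-1) := by rw [mul_one]; rfl
    · rw [map_mul]
      have h1 : V (w - 1) < 1 := sub_one_lt hres h
      have h2' : V (w + 1) < 1 := by
        have e2 : w + 1 = (w - 1) + 2 := by ring
        rw [e2]
        refine lt_of_le_of_lt (V.map_add _ _) (max_lt h1 ?_)
        rw [h2, ← exp_zero, exp_lt_exp]
        norm_num
      calc V w * V (w + 1) ≤ 1 * exp (0 - 1) := mul_le_mul' hVw (le_exp_of_lt (by rwa [exp_zero]))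
        _ = exp (-1) := by rw [one_mul]; rfl
  rw [e, map_mul, map_mul, h2]
  calc exp (-1) * exp (-1) * V (w * (w + 1)) ≤ exp (-1) * exp (-1) * exp (-1) :=
        mul_le_mul' le_rfl hfin
    _ = exp (-3) := by rw [← exp_add, ← exp_add]; rfl

/-- a locally square element has even valuation -/
theorem isSquare_of_locSq {z : K} (hz : z ≠ 0) (h : LocSq (v.valuation K) z) :
    IsSquare (v.valuation K z) := by
  have hne := (v.valuation K).ne_zero_iff.2 hz
  obtain ⟨y, hy⟩ := h _ hne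
  refine ⟨v.valuation K y, ?_⟩
  have h3 : y ^ 2 = z - (z - y ^ 2) := by ring
  rw [← pow_two, ← map_pow, h3, Valuation.map_sub_eq_of_lt_left _ hy]

theorem sub_one_le_of_locSq (hres : ∀ x : 𝓞 K, x ∈ v.asIdeal ∨ x - 1 ∈ v.asIdeal)
    (h2 : v.valuation K (2 : K) = exp (-1)) {z : K} (hz : v.valuation K z = 1)
    (h : LocSq (v.valuation K) z) : v.valuation K (z - 1) ≤ exp (-3) := by
  obtain ⟨y, hy⟩ := h (exp (-3)) exp_ne_zero
  have h1 : v.valuation K (y ^ 2) = 1 := by
    have h2 : v.valuation K (z - y ^ 2) < v.valuation K z := by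
      rw [hz]
      refine hy.trans ?_
      rw [← exp_zero, exp_lt_exp]
      norm_num
    have h3 : y ^ 2 = z - (z - y ^ 2) := by ring
    rw [h3, Valuation.map_sub_eq_of_lt_left _ h2, hz]
  have h4 : v.valuation K y = 1 := by
    rw [map_pow] at h1
    exact (pow_eq_one_iff.1 h1).resolve_right (by norm_num)
  have h5 := sq_sub_one_le hres h2 h4
  have h6 : z - 1 = (z - y ^ 2) + (y ^ 2 - 1) := by ring
  rw [h6]
  exact (Valuation.map_add _ _ _).trans (max_le hy.le h5)

theorem eight_dvd (h2v : (2 : 𝓞 K) ∈ v.asIdeal) (h2 : v.valuation K (2 : K) = exp (-1)) {n : ℤ}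
    (hn : v.valuation K (n : K) ≤ exp (-3)) : (8 : ℤ) ∣ n := by
  have h2v' : ((2 : ℕ) : 𝓞 K) ∈ v.asIdeal := by exact_mod_cast h2v
  have step : ∀ (m : ℤ) (k : ℤ), k < 0 → v.valuation K (m : K) ≤ exp k →
      ∃ m' : ℤ, m = 2 * m' ∧ v.valuation K (m' : K) ≤ exp (k + 1) := by
    intro m k hk hm
    have h1 : (m : 𝓞 K) ∈ v.asIdeal := by
      have h0 : v.valuation K (algebraMap (𝓞 K) K (m : 𝓞 K)) < 1 := by
        rw [int_coe]
        refine lt_of_le_of_lt hm ?_
        rw [← exp_zero, exp_lt_exp]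
        exact hk
      exact (HeightOneSpectrum.valuation_lt_one_iff_mem v _).1 h0
    obtain ⟨m', hm'⟩ := dvd_of_mem Nat.prime_two h2v' h1
    refine ⟨m', by simpa using hm', ?_⟩
    rw [hm'] at hm
    push_cast at hm
    rw [map_mul, h2] at hm
    have e : v.valuation K (m' : K) = exp 1 * (exp (-1) * v.valuation K (m' : K)) := by
      rw [← mul_assoc, ← exp_add]
      simp
    rw [e, add_comm, exp_add]
    exact mul_le_mul' le_rfl hm
  obtain ⟨n1, rfl, h1⟩ := step n (-3) (by norm_num) hn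
  obtain ⟨n2, rfl, h2⟩ := step n1 (-3 + 1) (by norm_num) h1
  obtain ⟨n3, rfl, h3⟩ := step n2 (-3 + 1 + 1) (by norm_num) h2
  exact ⟨n3, by ring⟩

/-- Lemma R -/
theorem isSquare_int (hK : Module.finrank ℚ K = 2) (hs : s ^ 2 = -(q : K)) (hq : q.Prime)
    (hq8 : q % 8 = 7) (hv : (2 : 𝓞 K) ∈ v.asIdeal) {M : ℤ} (hM : M ≠ 0)
    (hev : EvenOff2 (M : K)) (h : LocSq (v.valuation K) (M : K)) : IsSquare (M : K) := by
  obtain ⟨hres, h2⟩ := dyadic hK hs hq hq8 hv
  obtain ⟨ε, b, t, hε, hb, ht, hMe⟩ := int_cls hK hs hq (by omega) hM hev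
  rw [hMe] at h ⊢
  rw [LocSq.mul_sq_iff ht] at h
  have hVε : v.valuation K ε = 1 := by
    rcases hε with rfl | rfl
    · rw [map_one]
    · rw [Valuation.map_neg, map_one]
  have hε0 : ε ≠ 0 := by
    rcases hε with rfl | rfl
    · exact one_ne_zero
    · exact neg_ne_zero.2 one_ne_zero
  rcases hb with rfl | rfl
  · rw [Nat.cast_one, mul_one] at h ⊢
    rcases hε with rfl | rfl
    · exact ⟨t, by ring⟩
    · exfalso
      have h3 := sub_one_le_of_locSq hres h2 hVε h
      have e : (-1 : K) - 1 = -2 := by norm_num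
      rw [e, Valuation.map_neg, h2, exp_le_exp] at h3
      norm_num at h3
  · exfalso
    have h3 := isSquare_of_locSq (mul_ne_zero hε0 (by norm_num)) h
    rw [map_mul, hVε, one_mul] at h3
    have h4 : ((2 : ℕ) : K) = 2 := by norm_num
    rw [h4, h2] at h3
    exact not_isSquare_exp_neg_one h3

end local2

section main

variable {v : HeightOneSpectrum (𝓞 K)}

theorem s_ne_zero (hs : s ^ 2 = -(q : K)) (hq : q.Prime) : s ≠ 0 := by
  rintro rfl
  have : (q : K) = 0 := by
    rw [zero_pow (by norm_num)] at hs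
    rw [← neg_eq_zero]; exact hs.symm
  exact hq.ne_zero (by exact_mod_cast this)

theorem xy_ne_zero (hs : s ^ 2 = -(q : K)) (hq : q.Prime) {x y : ℤ} (h : IsCoprime x y) :
    (x : K) + y * s ≠ 0 := by
  intro h0
  obtain ⟨h1, h2⟩ := not_rat hs hq.pos (x : ℚ) (y : ℚ) (by push_cast; exact h0)
  have hx : x = 0 := by exact_mod_cast h1
  have hy : y = 0 := by exact_mod_cast h2
  subst hx hy
  exact not_isCoprime_zero_zero h

/-- normalisation -/
theorem exists_norm_form (hK : Module.finrank ℚ K = 2) (hs : s ^ 2 = -(q : K)) (hq : q.Prime)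
    (hq4 : q % 4 = 3) {z : K} (hz : z ≠ 0) (hev : EvenOff2 z) :
    ∃ (ε : K) (b : ℕ) (x y : ℤ) (t : K), (ε = 1 ∨ ε = -1) ∧ (b = 1 ∨ b = 2) ∧ t ≠ 0 ∧
      IsCoprime x y ∧ z = ε * b * (x + y * s) * t ^ 2 ∧
      ∃ c : ℕ, c ≠ 0 ∧ (x ^ 2 + q * y ^ 2 = c ^ 2 ∨ x ^ 2 + q * y ^ 2 = 2 * (c : ℤ) ^ 2) := by
  obtain ⟨α, β, hαβ⟩ := exists_coords hK hs hq.pos z
  -- clear denominators
  set D : ℕ := α.den * β.den with hD
  have hD0 : (D : K) ≠ 0 := by
    rw [hD]
    exact_mod_cast mul_ne_zero α.den_ne_zero β.den_ne_zero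
  set X : ℤ := α.num * β.den * D with hX
  set Y : ℤ := β.num * α.den * D with hY
  have hα : (α : K) * α.den = α.num := by exact_mod_cast Rat.mul_den_eq_num α
  have hβ : (β : K) * β.den = β.num := by exact_mod_cast Rat.mul_den_eq_num β
  have hXY : (X : K) + Y * s = z * (D : K) ^ 2 := by
    rw [hX, hY, hαβ, hD]
    push_cast
    rw [← hα, ← hβ]
    ring
  have hne : ¬ (X = 0 ∧ Y = 0) := by
    rintro ⟨h1, h2⟩
    rw [h1, h2] at hXY
    have : z * (D : K) ^ 2 = 0 := by rw [← hXY]; simp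
    exact mul_ne_zero hz (pow_ne_zero 2 hD0) this
  have hgpos : 0 < Int.gcd X Y := Int.gcd_pos_iff.2 (by tauto)
  obtain ⟨x, y, hcop, hx, hy⟩ := Int.exists_gcd_one hgpos
  set d := Int.gcd X Y with hd
  obtain ⟨a, e, hae, ha⟩ := Nat.sq_mul_squarefree d
  have he0 : e ≠ 0 := by
    rintro rfl
    rw [← hae] at hgpos; simp at hgpos
  have ha0 : a ≠ 0 := by
    rintro rfl
    rw [← hae] at hgpos; simp at hgpos
  have heK : (e : K) ≠ 0 := by exact_mod_cast he0
  have haK : (a : K) ≠ 0 := by exact_mod_cast ha0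
  have hcop' : IsCoprime x y := Int.isCoprime_iff_gcd_eq_one.2 hcop
  have hz1 : z * (D : K) ^ 2 = a * (x + y * s) * (e : K) ^ 2 := by
    rw [← hXY, hx, hy]
    push_cast
    have : (d : K) = (e : K) ^ 2 * a := by rw [← hae]; push_cast; ring
    rw [this]
    ring
  have hxy0 : (x : K) + y * s ≠ 0 := xy_ne_zero hs hq hcop'
  have hev1 : EvenOff2 ((a : K) * (x + y * s)) := by
    refine EvenOff2.of_mul_sq heK ?_
    rw [← hz1]
    exact hev.mul (EvenOff2.sq _)
  obtain ⟨σ, hσ⟩ := exists_conj hK hs hq.pos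
  have hev2 : EvenOff2 ((a : K) * (x - y * s)) := by
    have h := hev1.conj σ
    rw [map_mul, map_natCast, map_add, map_mul, map_intCast, map_intCast, hσ, mul_neg,
      ← sub_eq_add_neg] at h
    exact h
  obtain ⟨S, hS, -⟩ := exists_int_s hs
  -- primes dividing a
  have haprimes : ∀ l : ℕ, l.Prime → l ≠ 2 → l ≠ q → ¬ l ∣ a := by
    intro l hl hl2 hlq hla
    obtain ⟨v, hv⟩ := exists_place (K := K) hl
    have hv2 := two_notMem hl hl2 hv
    have key : ∀ w : 𝓞 K, EvenOff2 ((a : K) * algebraMap (𝓞 K) K w) → w ∈ v.asIdeal := by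
      intro w hw
      by_contra hcon
      have h1 := hw v hv2
      rw [map_mul, (HeightOneSpectrum.valuation_eq_one_iff_notMem v).2 hcon, mul_one,
        val_squarefree hK hs hq hq4 hl hl2 hlq hv ha hla] at h1
      exact not_isSquare_exp_neg_one h1
    have h1 := key ((x : 𝓞 K) + y * S) (by
      rw [map_add, map_mul, int_coe, int_coe, hS]; exact hev1)
    have h2 := key ((x : 𝓞 K) - y * S) (by
      rw [map_sub, map_mul, int_coe, int_coe, hS]; exact hev2)
    have h3 : ((2 * x : ℤ) : 𝓞 K) ∈ v.asIdeal := by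
      have := v.asIdeal.add_mem h1 h2
      have e : ((2 * x : ℤ) : 𝓞 K) = ((x : 𝓞 K) + y * S) + ((x : 𝓞 K) - y * S) := by
        push_cast; ring
      rw [e]; exact this
    have h4 : ((2 * y : ℤ) : 𝓞 K) ∈ v.asIdeal := by
      have h := v.asIdeal.sub_mem h1 h2
      have e : ((x : 𝓞 K) + y * S) - ((x : 𝓞 K) - y * S) = ((2 * y : ℤ) : 𝓞 K) * S := by
        push_cast; ring
      rw [e] at h
      refine (v.isPrime.mem_or_mem h).resolve_right ?_
      intro hSv
      have := val_s_eq_one hs hq hl hlq hv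
      rw [← hS, HeightOneSpectrum.valuation_eq_one_iff_notMem] at this
      exact this hSv
    have hl' : Prime (l : ℤ) := Nat.prime_iff_prime_int.1 hl
    have hl2' : ¬ (l : ℤ) ∣ 2 := by
      intro h
      have h2 : l ∣ 2 := by exact_mod_cast h
      exact hl2 ((Nat.prime_dvd_prime_iff_eq hl Nat.prime_two).1 h2)
    have h5 := (hl'.dvd_or_dvd (dvd_of_mem hl hv h3)).resolve_left hl2'
    have h6 := (hl'.dvd_or_dvd (dvd_of_mem hl hv h4)).resolve_left hl2'
    exact hl'.not_isUnit (hcop'.isUnit_of_dvd' h5 h6)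
  -- the norm
  have hg0 : (x ^ 2 + q * y ^ 2 : ℤ) ≠ 0 := by
    intro h0
    have h1 : ((x : K) + y * s) * ((x : K) - y * s) = 0 := by
      have : ((x ^ 2 + q * y ^ 2 : ℤ) : K) = 0 := by rw [h0]; simp
      push_cast at this
      linear_combination this - (y : K) ^ 2 * hs
    rcases mul_eq_zero.1 h1 with h | h
    · exact hxy0 h
    · have := xy_ne_zero (K := K) hs hq (x := x) (y := -y) hcop'.neg_right
      push_cast at this
      exact this (by rw [← h]; ring)
  obtain ⟨g, hg⟩ := Int.eq_ofNat_of_zero_le (a := x ^ 2 + q * y ^ 2) (by positivity)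
  have hg0' : g ≠ 0 := by
    rintro rfl
    exact hg0 (by rw [hg]; rfl)
  obtain ⟨r, c, hrc, hr⟩ := Nat.sq_mul_squarefree g
  have hc0 : c ≠ 0 := by
    rintro rfl
    apply hg0'
    rw [← hrc]; simp
  have hr0 : r ≠ 0 := by
    rintro rfl
    apply hg0'
    rw [← hrc]; simp
  have hcK : (c : K) ≠ 0 := by exact_mod_cast hc0
  have hgK : ((a : K) * (x + y * s)) * ((a : K) * (x - y * s)) = r * ((c : K) * a) ^ 2 := by
    have h1 : ((x ^ 2 + q * y ^ 2 : ℤ) : K) = ((g : ℤ) : K) := by rw [hg]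
    rw [← hrc] at h1
    push_cast at h1
    linear_combination (a : K) ^ 2 * h1 - (a : K) ^ 2 * (y : K) ^ 2 * hs
  have hevr : EvenOff2 (r : K) := by
    refine EvenOff2.of_mul_sq (mul_ne_zero hcK haK) ?_
    rw [← hgK]
    exact hev1.mul hev2
  have hrprimes : ∀ l : ℕ, l.Prime → l ≠ 2 → l ≠ q → ¬ l ∣ r := by
    intro l hl hl2 hlq hla
    obtain ⟨v, hv⟩ := exists_place (K := K) hl
    have h1 := hevr v (two_notMem hl hl2 hv)
    rw [val_squarefree hK hs hq hq4 hl hl2 hlq hv hr hla] at h1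
    exact not_isSquare_exp_neg_one h1
  have hqr : ¬ q ∣ r := by
    intro hqr
    have hq' : Prime (q : ℤ) := Nat.prime_iff_prime_int.1 hq
    have h1 : (q : ℤ) ∣ x ^ 2 := by
      have h2 : (q : ℤ) ∣ x ^ 2 + q * y ^ 2 := by
        rw [hg]
        have : q ∣ g := by rw [← hrc]; exact hqr.mul_left _
        exact_mod_cast this
      exact (Int.dvd_add_left (Dvd.intro _ rfl)).1 h2
    have hqx : (q : ℤ) ∣ x := hq'.dvd_of_dvd_pow h1
    have hqy : ¬ (q : ℤ) ∣ y := fun h => hq'.not_isUnit (hcop'.isUnit_of_dvd' hqx h)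
    obtain ⟨v, hv⟩ := exists_place (K := K) hq
    have hVs := ramified hK hs hq hq4 hv
    have hVy := val_int_eq_one (K := K) hq hv hqy
    have hVq : v.valuation K (q : K) = exp (-2) := by
      have : (q : K) = -(s ^ 2) := by rw [hs, neg_neg]
      rw [this, Valuation.map_neg, map_pow, hVs, pow_two, ← exp_add]
      rfl
    have hVx : v.valuation K (x : K) ≤ exp (-2) := by
      have := val_int_le_of_dvd (K := K) (v := v) hqx
      rw [Int.cast_natCast, hVq] at this
      exact this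
    have hVxy : v.valuation K ((x : K) + y * s) = exp (-1) := by
      have h2 : v.valuation K ((y : K) * s) = exp (-1) := by rw [map_mul, hVy, one_mul, hVs]
      rw [Valuation.map_add_eq_of_lt_right, h2]
      rw [h2]
      refine lt_of_le_of_lt hVx ?_
      rw [exp_lt_exp]; norm_num
    have hVa : IsSquare (v.valuation K (a : K)) := by
      by_cases hqa : q ∣ a
      · obtain ⟨a', rfl⟩ := hqa
        have ha' : ¬ q ∣ a' := by
          rintro ⟨d', rfl⟩
          exact hq.one_lt.ne' (Nat.isUnit_iff.1 (ha q ⟨d', by ring⟩))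
        have := val_int_eq_one (K := K) hq hv (n := (a' : ℤ)) (by exact_mod_cast ha')
        rw [Int.cast_natCast] at this
        rw [Nat.cast_mul, map_mul, this, mul_one, hVq, isSquare_exp_iff]
        decide
      · have := val_int_eq_one (K := K) hq hv (n := (a : ℤ)) (by exact_mod_cast hqa)
        rw [Int.cast_natCast] at this
        rw [this]
        exact ⟨1, by rw [mul_one]⟩
    have h3 := hev1 v (q_notMem_of_two_mem hq hq4 hv)
    rw [mul_comm, map_mul] at h3
    have h4 := IsSquare.of_mul' ((v.valuation K).ne_zero_iff.2 haK) h3 hVa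
    rw [hVxy] at h4
    exact not_isSquare_exp_neg_one h4
  obtain ⟨r1, r2, hr1, hr2, rfl⟩ := eq_of_primes hq hr hrprimes
  have hr2' : r2 = 1 := by
    rcases hr2 with h | h
    · exact h
    · exact absurd (by rw [h]; exact Dvd.intro_left _ rfl) hqr
  subst hr2'
  obtain ⟨b, b2, hb, hb2, rfl⟩ := eq_of_primes hq ha haprimes
  have hfin : ∃ c : ℕ, c ≠ 0 ∧
      (x ^ 2 + q * y ^ 2 = c ^ 2 ∨ x ^ 2 + q * y ^ 2 = 2 * (c : ℤ) ^ 2) := by
    refine ⟨c, hc0, ?_⟩
    rw [hg, ← hrc]
    rcases hr1 with rfl | rfl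
    · left; push_cast; ring
    · right; push_cast; ring
  have hzeq : z = (b * b2 : ℕ) * (x + y * s) * ((e : K) / D) ^ 2 := by
    field_simp
    exact hz1
  rcases hb2 with rfl | rfl
  · exact ⟨1, b, x, y, (e : K) / D, Or.inl rfl, hb, div_ne_zero heK hD0, hcop', by
      rw [hzeq]; push_cast; ring, hfin⟩
  · refine ⟨-1, b, x, y, s * ((e : K) / D), Or.inr rfl, hb,
      mul_ne_zero (s_ne_zero hs hq) (div_ne_zero heK hD0), hcop', ?_, hfin⟩
    rw [hzeq]
    push_cast
    linear_combination (b : K) * (x + y * s) * ((e : K) / D) ^ 2 * hs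

end main

section final

theorem sq_mod_sixteen {x y : ℤ} {c : ℤ} (hcop : IsCoprime x y) (hy : Odd y)
    (hc : x ^ 2 + q * y ^ 2 = 2 * c ^ 2) : (16 : ℤ) ∣ y ^ 2 - 1 := by
  set n := y.natAbs with hn
  have hnodd : Odd n := Int.natAbs_odd.2 hy
  have hcy : IsCoprime c y := by
    have h1 : IsCoprime (x ^ 2) y := hcop.pow_left
    have h2 : IsCoprime (x ^ 2 + y * (q * y)) y := h1.add_mul_left_left _
    have h3 : x ^ 2 + y * (q * y) = 2 * c * c := by linear_combination hc
    rw [h3] at h2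
    exact h2.of_mul_left_right
  have g1 : ∀ {a : ℤ}, IsCoprime a y → a.gcd (n : ℤ) = 1 := by
    intro a ha
    rw [Int.isCoprime_iff_gcd_eq_one, Int.gcd_def] at ha
    rw [Int.gcd_def, hn, Int.natAbs_natCast]
    exact ha
  have hny : (n : ℤ) ∣ y := by rw [hn]; exact Int.natAbs_dvd.2 dvd_rfl
  have h1 : jacobiSym (2 * c ^ 2) n = jacobiSym 2 n := by
    rw [jacobiSym.mul_left, jacobiSym.sq_one' (g1 hcy), mul_one]
  have h2 : jacobiSym (2 * c ^ 2) n = 1 := by
    rw [← hc, jacobiSym.mod_left' (a₂ := x ^ 2), jacobiSym.sq_one' (g1 hcop)]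
    refine (Int.emod_emod_of_dvd _ dvd_rfl).symm.trans ?_
    rw [Int.emod_emod_of_dvd _ dvd_rfl]
    refine Int.ModEq.symm ((Int.modEq_iff_dvd).2 ?_)
    obtain ⟨k, hk⟩ := hny
    exact ⟨q * k * y, by linear_combination (q : ℤ) * y * hk⟩
  have h3 : ZMod.χ₈ (n : ZMod 8) = 1 := by rw [← jacobiSym.at_two hnodd, ← h1, h2]
  rw [ZMod.χ₈_nat_eq_if_mod_eight] at h3
  have h4 : n % 8 = 1 ∨ n % 8 = 7 := by
    by_contra hcon
    have h5 : n % 2 ≠ 0 := by
      have := Nat.odd_iff.1 hnodd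
      omega
    rw [if_neg h5, if_neg hcon] at h3
    norm_num at h3
  have h6 : y ^ 2 = (n : ℤ) ^ 2 := by rw [hn, Int.natAbs_sq]
  rw [h6]
  obtain ⟨k, hk⟩ : ∃ k : ℤ, (n : ℤ) = 8 * k + 1 ∨ (n : ℤ) = 8 * k - 1 := by
    rcases h4 with h | h
    · exact ⟨(n / 8 : ℕ), by omega⟩
    · exact ⟨(n / 8 : ℕ) + 1, by omega⟩
  rcases hk with h | h
  · exact ⟨4 * k ^ 2 + k, by rw [h]; ring⟩
  · exact ⟨4 * k ^ 2 - k, by rw [h]; ring⟩

theorem propP (hK : Module.finrank ℚ K = 2) (hs : s ^ 2 = -(q : K)) (hq : q.Prime)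
    (hq16 : q % 16 = 7) : PropP K := by
  intro v hv z hz hev hloc
  obtain ⟨hres, h2⟩ := dyadic hK hs hq (by omega) hv
  obtain ⟨ε, b, x, y, t, hε, hb, ht, hcop, hzeq, c, hc0, hc⟩ :=
    exists_norm_form hK hs hq (by omega) hz hev
  obtain ⟨e0, he0, he0'⟩ : ∃ e0 : ℤ, (e0 : K) = ε ∧ e0 ^ 2 = 1 := by
    rcases hε with h | h
    · exact ⟨1, by rw [h]; simp, by norm_num⟩
    · exact ⟨-1, by rw [h]; simp, by norm_num⟩
  have hε2 : ε ^ 2 = 1 := by rw [← he0]; exact_mod_cast congrArg (Int.cast (R := K)) he0'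
  have hε0 : ε ≠ 0 := by
    intro h
    rw [h] at hε2
    norm_num at hε2
  have hb0 : b ≠ 0 := by rcases hb with h | h <;> omega
  have hbK : (b : K) ≠ 0 := by exact_mod_cast hb0
  have hcK : (c : K) ≠ 0 := by exact_mod_cast hc0
  rcases hc with hc | hc
  · obtain ⟨M, hM0, u, hu, hzM⟩ : ∃ M : ℤ, M ≠ 0 ∧ ∃ u : K, u ≠ 0 ∧ z * M = u ^ 2 := by
      have he00 : e0 ≠ 0 := by
        rintro rfl
        norm_num at he0'
      have hcK2 : (x : K) ^ 2 + q * y ^ 2 = c ^ 2 := by exact_mod_cast congrArg (Int.cast (R := K)) hc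
      by_cases hxc : x + c = 0
      · have hx : x = -c := by linear_combination hxc
        have hy : y = 0 := by
          have h3 : (q : ℤ) * y ^ 2 = 0 := by
            rw [hx] at hc
            linear_combination hc
          have hq0 : (q : ℤ) ≠ 0 := by exact_mod_cast hq.ne_zero
          exact pow_eq_zero_iff (by norm_num) |>.1 ((mul_eq_zero.1 h3).resolve_left hq0)
        have hx0 : x ≠ 0 := by
          rw [hx]
          exact neg_ne_zero.2 (by exact_mod_cast hc0)
        have hxK : (x : K) ≠ 0 := by exact_mod_cast hx0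
        refine ⟨e0 * b * x, mul_ne_zero (mul_ne_zero he00 (by exact_mod_cast hb0)) hx0,
          ε * b * x * t, mul_ne_zero (mul_ne_zero (mul_ne_zero hε0 hbK) hxK) ht, ?_⟩
        rw [hzeq, hy]
        push_cast
        rw [he0]
        ring
      · refine ⟨e0 * b * (2 * (x + c)), mul_ne_zero (mul_ne_zero he00 (by exact_mod_cast hb0))
          (mul_ne_zero (by norm_num) hxc), ε * b * t * (x + y * s + c), ?_, ?_⟩
        · refine mul_ne_zero (mul_ne_zero (mul_ne_zero hε0 hbK) ht) ?_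
          intro h0
          have h3 := not_rat hs hq.pos ((x + c : ℤ) : ℚ) (y : ℚ) (by
            push_cast
            linear_combination h0)
          exact hxc (by exact_mod_cast h3.1)
        · rw [hzeq]
          push_cast
          rw [he0]
          linear_combination (ε ^ 2 * b ^ 2 * t ^ 2) * hcK2 -
            (ε ^ 2 * b ^ 2 * t ^ 2 * y ^ 2) * hs
    have hevM : EvenOff2 (M : K) := by
      refine EvenOff2.of_mul_sq hz ?_
      have e : (M : K) * z ^ 2 = z * u ^ 2 := by rw [← hzM]; ring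
      rw [e]
      exact hev.mul (EvenOff2.sq _)
    have hlocM : LocSq (v.valuation K) (M : K) := by
      refine LocSq.of_mul_right hz ?_ hloc
      apply LocSq.of_isSquare
      exact ⟨u, by rw [mul_comm, hzM]; ring⟩
    obtain ⟨m, hm⟩ := isSquare_int hK hs hq (by omega) hv hM0 hevM hlocM
    have hMK : (M : K) ≠ 0 := by exact_mod_cast hM0
    have hm0 : m ≠ 0 := by
      rintro rfl
      exact hMK (by rw [hm, mul_zero])
    refine ⟨u / m, ?_⟩
    field_simp
    rw [← hzM, hm]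
    ring
  · exfalso
    -- parity
    have hxodd : Odd x := by
      rw [← Int.not_even_iff_odd]
      intro hxe
      obtain ⟨x', hx'⟩ := even_iff_two_dvd.1 hxe
      have h3 : (2 : ℤ) ∣ q * y ^ 2 := ⟨(c : ℤ) ^ 2 - 2 * x' ^ 2, by
        rw [hx'] at hc; linear_combination hc⟩
      have hq2 : ¬ (2 : ℤ) ∣ q := by omega
      have h4 := Int.prime_two.dvd_of_dvd_pow ((Int.prime_two.dvd_or_dvd h3).resolve_left hq2)
      exact Int.prime_two.not_isUnit (hcop.isUnit_of_dvd' ⟨x', hx'⟩ h4)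
    have hyodd : Odd y := by
      rw [← Int.not_even_iff_odd]
      intro hye
      obtain ⟨y', hy'⟩ := even_iff_two_dvd.1 hye
      have h3 : (2 : ℤ) ∣ x ^ 2 := ⟨(c : ℤ) ^ 2 - 2 * q * y' ^ 2, by
        rw [hy'] at hc; linear_combination hc⟩
      exact Int.prime_two.not_isUnit (hcop.isUnit_of_dvd' (Int.prime_two.dvd_of_dvd_pow h3)
        ⟨y', hy'⟩)
    obtain ⟨j, hj⟩ := sq_mod_sixteen (q := q) hcop hyodd hc
    obtain ⟨x1, hx1⟩ := hxodd
    obtain ⟨y1, hy1⟩ := hyodd
    obtain ⟨r, hr⟩ : ∃ r : ℤ, (q : ℤ) = 16 * r + 7 := ⟨(q / 16 : ℕ), by omega⟩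
    obtain ⟨m, hm⟩ : ∃ m : ℤ, (c : ℤ) = 2 * m := by
      have h3 : (2 : ℤ) ∣ (c : ℤ) ^ 2 := by
        refine ⟨x1 ^ 2 + x1 + y1 ^ 2 * q + y1 * q + 4 * r + 2 - (c : ℤ) ^ 2 / 2 + (c : ℤ) ^ 2 / 2, ?_⟩
        have h4 : 2 * (c : ℤ) ^ 2 =
            2 * (2 * (x1 ^ 2 + x1 + y1 ^ 2 * q + y1 * q + 4 * r + 2)) := by
          rw [← hc, hx1, hy1]
          linear_combination hr
        have h5 := mul_left_cancel₀ (two_ne_zero) h4
        linear_combination h5
      exact Int.prime_two.dvd_of_dvd_pow h3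
    have hm0 : m ≠ 0 := by
      rintro rfl
      apply hc0
      have : (c : ℤ) = 0 := by rw [hm]; ring
      exact_mod_cast this
    have hmK : (m : K) ≠ 0 := by exact_mod_cast hm0
    rw [hm] at hc
    have hcK2 : (x : K) ^ 2 + q * y ^ 2 = 8 * m ^ 2 := by
      have : x ^ 2 + q * y ^ 2 = 8 * m ^ 2 := by rw [hc]; ring
      exact_mod_cast congrArg (Int.cast (R := K)) this
    -- the two conjugate integers
    obtain ⟨W, -, hW, -, -⟩ := exists_W hK hs hq (by omega)
    obtain ⟨α, hα⟩ : ∃ α : 𝓞 K, algebraMap (𝓞 K) K α = (x + y * s) / 2 := by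
      refine ⟨((x1 - y1 : ℤ) : 𝓞 K) + y * W, ?_⟩
      rw [map_add, map_mul, int_coe, int_coe, hx1]
      have : (y : K) = 2 * y1 + 1 := by exact_mod_cast congrArg (Int.cast (R := K)) hy1
      push_cast
      linear_combination (1 / 2 : K) * (y : K) * hW + (1 / 2 : K) * this
    obtain ⟨α', hα'⟩ : ∃ α' : 𝓞 K, algebraMap (𝓞 K) K α' = (x - y * s) / 2 := by
      refine ⟨((x1 + y1 + 1 : ℤ) : 𝓞 K) - y * W, ?_⟩
      rw [map_sub, map_mul, int_coe, int_coe, hx1]
      have : (y : K) = 2 * y1 + 1 := by exact_mod_cast congrArg (Int.cast (R := K)) hy1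
      push_cast
      linear_combination (-1 / 2 : K) * (y : K) * hW - (1 / 2 : K) * this
    have hprod : ((x : K) + y * s) / 2 * ((x - y * s) / 2) = 2 * m ^ 2 := by
      linear_combination (1 / 4 : K) * hcK2 - (1 / 4 : K) * (y : K) ^ 2 * hs
    have hVε : v.valuation K ε = 1 := by
      rcases hε with rfl | rfl
      · rw [map_one]
      · rw [Valuation.map_neg, map_one]
    have hVb : b = 2 ∨ IsSquare (v.valuation K (b : K)) := by
      rcases hb with h | h
      · right
        rw [h, Nat.cast_one, map_one]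
        exact ⟨1, by rw [mul_one]⟩
      · left; exact h
    -- the unit one is locally a square up to sign
    obtain ⟨A, A', hA1, hA'1, hAA, hAA', hA⟩ : ∃ A A' : K, v.valuation K A = 1 ∧
        v.valuation K A' ≤ 1 ∧ A + A' = x ∧ A * A' = 2 * m ^ 2 ∧
        LocSq (v.valuation K) (ε * A) := by
      by_cases hαv : α ∈ v.asIdeal
      · have hα'v : α' ∉ v.asIdeal := by
          intro h
          have h3 : (x : 𝓞 K) ∈ v.asIdeal := by
            have h4 := v.asIdeal.add_mem hαv h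
            have h5 : α + α' = x := by
              apply RingOfIntegers.ext
              show algebraMap (𝓞 K) K _ = algebraMap (𝓞 K) K _
              rw [map_add, hα, hα', int_coe]
              ring
            rwa [h5] at h4
          have h6 := dvd_of_mem Nat.prime_two (by exact_mod_cast hv) h3
          omega
        have hV := (HeightOneSpectrum.valuation_eq_one_iff_notMem (K := K) v).2 hα'v
        rw [hα'] at hV
        refine ⟨(x - y * s) / 2, (x + y * s) / 2, hV, ?_, by ring, by rw [mul_comm, hprod], ?_⟩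
        · rw [← hα]; exact v.valuation_le_one _
        set A := ((x : K) - y * s) / 2 with hAdef
        have hA0 : A ≠ 0 := by
          intro h
          rw [h, map_zero] at hV
          exact zero_ne_one hV
        have h3 : LocSq (v.valuation K) (ε * b * A) := by
          have e : z * A ^ 2 = (ε * b * A) * (2 * m * t) ^ 2 := by
            have h4 : z = ε * b * (2 * ((x + y * s) / 2)) * t ^ 2 := by rw [hzeq]; ring
            rw [h4]
            linear_combination (ε * b * 2 * t ^ 2 * A) * hprod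
          rw [← LocSq.mul_sq_iff (s := 2 * m * t)
            (mul_ne_zero (mul_ne_zero two_ne_zero hmK) ht), ← e, LocSq.mul_sq_iff hA0]
          exact hloc
        rcases hb with h | h
        · rwa [h, Nat.cast_one, mul_one] at h3
        · exfalso
          have h4 := isSquare_of_locSq (mul_ne_zero (mul_ne_zero hε0 hbK) hA0) h3
          rw [map_mul, map_mul, hVε, hV, one_mul, mul_one, h, Nat.cast_ofNat, h2] at h4
          exact not_isSquare_exp_neg_one h4
      · have hV := (HeightOneSpectrum.valuation_eq_one_iff_notMem (K := K) v).2 hαv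
        rw [hα] at hV
        refine ⟨(x + y * s) / 2, (x - y * s) / 2, hV, ?_, by ring, hprod, ?_⟩
        · rw [← hα']; exact v.valuation_le_one _
        set A := ((x : K) + y * s) / 2 with hAdef
        have hA0 : A ≠ 0 := by
          intro h
          rw [h, map_zero] at hV
          exact zero_ne_one hV
        have h4 : z = (ε * b * 2 * A) * t ^ 2 := by rw [hzeq, hAdef]; ring
        have h3 : LocSq (v.valuation K) (ε * b * 2 * A) := by
          rw [← LocSq.mul_sq_iff ht, ← h4]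
          exact hloc
        rcases hb with h | h
        · exfalso
          have h4 := isSquare_of_locSq (mul_ne_zero (mul_ne_zero (mul_ne_zero hε0 hbK)
            two_ne_zero) hA0) h3
          rw [map_mul, map_mul, map_mul, hVε, hV, h, Nat.cast_one, map_one, one_mul, one_mul,
            mul_one, h2] at h4
          exact not_isSquare_exp_neg_one h4
        · rw [h, Nat.cast_ofNat] at h3
          have e : ε * 2 * 2 * A = (ε * A) * 2 ^ 2 := by ring
          rwa [e, LocSq.mul_sq_iff two_ne_zero] at h3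
    have hVεA : v.valuation K (ε * A) = 1 := by rw [map_mul, hVε, hA1, one_mul]
    have h3 := sub_one_le_of_locSq hres h2 hVεA hA
    -- pass to integers
    have h4 : v.valuation K ((e0 * x - 1 - 2 * m ^ 2 : ℤ) : K) ≤ exp (-3) := by
      have e : ((e0 * x - 1 - 2 * m ^ 2 : ℤ) : K) = (ε * A - 1) * (ε * A + 1 - ε * x) := by
        push_cast
        rw [he0]
        linear_combination hAA' - ε ^ 2 * A * hAA + (A * A') * hε2
      rw [e, map_mul]
      have h5 : v.valuation K (ε * A + 1 - ε * x) ≤ 1 := by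
        have e2 : ε * A + 1 - ε * x = 1 - ε * A' := by linear_combination ε * hAA
        rw [e2]
        refine (Valuation.map_sub _ _ _).trans (max_le (by rw [map_one]) ?_)
        rw [map_mul, hVε, one_mul]
        exact hA'1
      calc _ ≤ exp (-3) * 1 := mul_le_mul' h3 h5
        _ = exp (-3) := mul_one _
    obtain ⟨k, hk⟩ := eight_dvd hv h2 h4
    have hmm : (4 : ℤ) ∣ m ^ 2 * (m ^ 2 - 1) := by
      rcases Int.even_or_odd' m with ⟨n, hn | hn⟩
      · exact ⟨n ^ 2 * (m ^ 2 - 1), by rw [hn]; ring⟩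
      · exact ⟨m ^ 2 * (n ^ 2 + n), by rw [hn]; ring⟩
    obtain ⟨n, hn⟩ := hmm
    have hX : (e0 * x) ^ 2 = x ^ 2 := by rw [mul_pow, he0', one_mul]
    have hX2 : e0 * x = 1 + 2 * m ^ 2 + 8 * k := by linear_combination hk
    have hy2 : y ^ 2 = 16 * j + 1 := by linear_combination hj
    rw [hX2] at hX
    rw [← hX, hr, hy2] at hc
    have hcontra : (8 : ℤ) = 16 * (-(n + k * (1 + 2 * m ^ 2) + 4 * k ^ 2 + r * (16 * j + 1) + 7 * j)) := by
      linear_combination hc - 4 * hn
    omega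

end final

end Quad

end Pool.Agent.Work.MP_787500_nt
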