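import Mathlib
import Pool.Agent.Work.MP_787500_nt.H10_Final
import Pool.Agent.Work.MP_787500_nt.H10_Quad
import Pool.Agent.Work.MP_787500_nt.H10_Example

/-!
Last lemmas for the statement on the tower.
-/

set_option autoImplicit false
set_option linter.unusedSectionVars false

namespace Pool.Agent.Work.MP_787500_nt

open WithZero IsDedekindDomain NumberField WeierstrassCurve WeierstrassCurve.Affine

universe u

theorem cmCurve_j {F : Type u} [Field F] [NumberField F] {s D : F} (hs : s ^ 2 = -7) (hD : D ≠ 0)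
    [WeierstrassCurve.IsElliptic (cmCurve s D)] : WeierstrassCurve.j (cmCurve s D) = -3375 := by
  have hΔ : (cmCurve s D).Δ = 4096 * D ^ 6 := by
    simp only [cmCurve, legendre, WeierstrassCurve.Δ, WeierstrassCurve.b₂, WeierstrassCurve.b₄,
      WeierstrassCurve.b₆, WeierstrassCurve.b₈]
    linear_combination (81 * D ^ 6 * s ^ 2 - 585 * D ^ 6) * hs
  have hc : (cmCurve s D).c₄ ^ 3 = -3375 * (4096 * D ^ 6) := by
    have h4 : (cmCurve s D).c₄ = -240 * D ^ 2 := by
      simp only [cmCurve, legendre, WeierstrassCurve.c₄, WeierstrassCurve.b₂, WeierstrassCurve.b₄]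
      linear_combination (36 * D ^ 2) * hs
    rw [h4]; ring
  have hne : (cmCurve s D).Δ ≠ 0 := by
    rw [hΔ]
    exact mul_ne_zero (by norm_num) (pow_ne_zero _ hD)
  rw [WeierstrassCurve.j, hc, ← hΔ, ← WeierstrassCurve.coe_Δ', mul_comm, mul_assoc]
  simp [hne]

theorem general_tower {K F : Type u} [Field K] [NumberField K] [Field F] [NumberField F]
    [Algebra K F] {q : ℕ} {s : K} (hK : Module.finrank ℚ K = 2) (hs : s ^ 2 = -(q : K))
    (hq : q.Prime) (hq16 : q % 16 = 7) (hF : InTwoTower K F) : PropP F :=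
  propP_of_tower (Quad.propP hK hs hq hq16) hF

theorem propP_seven {K : Type u} [Field K] [NumberField K] {s : K}
    (hK : Module.finrank ℚ K = 2) (hs : s ^ 2 = -7) : PropP K :=
  Quad.propP (q := 7) hK (by rw [hs]; norm_num) (by norm_num) (by norm_num)

section

variable {K F : Type u} [Field K] [NumberField K] [Field F] [NumberField F] [Algebra K F] {s : K}

open scoped Classical in
/-- the CM curves, restated -/
theorem cm_tower (hK : Module.finrank ℚ K = 2) (hs : s ^ 2 = -7) (hF : InTwoTower K F) {D : F}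
    (hD : D ≠ 0) :
    WeierstrassCurve.IsElliptic (cmCurve (algebraMap K F s) D) ∧
    (oddPlaces D).Finite ∧
    AddGroup.FG (cmCurve (algebraMap K F s) D).Point ∧
    Module.finrank ℤ (cmCurve (algebraMap K F s) D).Point ≤ 2 * (oddPlaces D).ncard ∧
    (Module.finrank ℤ (cmCurve (algebraMap K F s) D).Point = 2 * (oddPlaces D).ncard →
      ShaTwoTrivial (cmCurve (algebraMap K F s) D)) ∧
    (oddPlaces D = ∅ → Finite (cmCurve (algebraMap K F s) D).Point ∧
      ShaTwoTrivial (cmCurve (algebraMap K F s) D)) := by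
  obtain ⟨⟨n1, n2, n3⟩, hfin, hFG, hrk, hsha⟩ := cm_case (F := F) (D := D)
    (e2 := D * (3 * algebraMap K F s + 1) / 2) (e3 := D * (3 * algebraMap K F s - 1) / 2)
    hK hs (propP_of_tower (propP_seven hK hs) hF) hD rfl rfl rfl
  refine ⟨legendre_elliptic n1 n2 n3, hfin, hFG, hrk, hsha, fun h0 => ?_⟩
  have h1 : Module.finrank ℤ (cmCurve (algebraMap K F s) D).Point = 0 := by
    have := hrk
    rw [h0, Set.ncard_empty, mul_zero] at this
    exact Nat.le_zero.1 this
  exact ⟨finite_of_rank_zero hFG h1, hsha (by rw [h0, Set.ncard_empty, mul_zero]; exact h1)⟩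

open scoped Classical in
theorem rank_mono (hK : Module.finrank ℚ K = 2) (hs : s ^ 2 = -7) (hF : InTwoTower K F) {D : K}
    (hD : D ≠ 0) : Module.finrank ℤ (cmCurve s D).Point ≤
      Module.finrank ℤ (cmCurve (algebraMap K F s) (algebraMap K F D)).Point := by
  obtain ⟨-, -, hFG, -, -, -⟩ := cm_tower hK hs hF (D := algebraMap K F D)
    ((map_ne_zero _).2 hD)
  exact finrank_le (e1 := 0) (e2 := D * (3 * s + 1) / 2) (e3 := D * (3 * s - 1) / 2)
      (f1 := 0) (f2 := algebraMap K F D * (3 * algebraMap K F s + 1) / 2)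
      (f3 := algebraMap K F D * (3 * algebraMap K F s - 1) / 2)
      (by rw [map_zero])
      (by rw [map_div₀, map_mul, map_add, map_mul, map_ofNat, map_one, map_ofNat])
      (by rw [map_div₀, map_mul, map_sub, map_mul, map_ofNat, map_one, map_ofNat]) hFG

open scoped Classical in
/-- a maximal rank over the base field persists -/
theorem cm_persist (hK : Module.finrank ℚ K = 2) (hs : s ^ 2 = -7) (hF : InTwoTower K F) {D : K}
    (hD : D ≠ 0) (h : 2 * (oddPlaces (algebraMap K F D)).ncard ≤
      Module.finrank ℤ (cmCurve s D).Point) :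
    Module.finrank ℤ (cmCurve (algebraMap K F s) (algebraMap K F D)).Point =
      2 * (oddPlaces (algebraMap K F D)).ncard ∧
    ShaTwoTrivial (cmCurve (algebraMap K F s) (algebraMap K F D)) := by
  obtain ⟨-, -, hFG, hrk, hsha, -⟩ := cm_tower hK hs hF (D := algebraMap K F D)
    ((map_ne_zero _).2 hD)
  have h1 : Module.finrank ℤ (cmCurve s D).Point ≤
      Module.finrank ℤ (cmCurve (algebraMap K F s) (algebraMap K F D)).Point :=
    finrank_le (e1 := 0) (e2 := D * (3 * s + 1) / 2) (e3 := D * (3 * s - 1) / 2)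
      (f1 := 0) (f2 := algebraMap K F D * (3 * algebraMap K F s + 1) / 2)
      (f3 := algebraMap K F D * (3 * algebraMap K F s - 1) / 2)
      (by rw [map_zero])
      (by rw [map_div₀, map_mul, map_add, map_mul, map_ofNat, map_one, map_ofNat])
      (by rw [map_div₀, map_mul, map_sub, map_mul, map_ofNat, map_one, map_ofNat]) hFG
  have h2 := le_antisymm hrk (h.trans h1)
  exact ⟨h2, hsha h2⟩

end

section example11

variable {K : Type u} [Field K] [NumberField K] {s : K}

theorem oddPlaces_example (hK : Module.finrank ℚ K = 2) (hs : s ^ 2 = -7) :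
    (oddPlaces ((9 - s) / 2)).Subsingleton := by
  obtain ⟨W, k, hW, -, hx⟩ := Quad.exists_W (q := 7) hK (by rw [hs]; norm_num) (by norm_num)
    (by norm_num)
  have hW2 : W * (1 - W) = 2 := by
    apply RingOfIntegers.ext
    show algebraMap (𝓞 K) K _ = algebraMap (𝓞 K) K _
    rw [map_mul, map_sub, map_one, map_ofNat]
    have : algebraMap (𝓞 K) K W = (1 + s) / 2 := by rw [← hW]; ring
    rw [this]
    linear_combination (-1 / 4 : K) * hs
  have hD : algebraMap (𝓞 K) K (5 - W) = (9 - s) / 2 := by
    rw [map_sub, map_ofNat]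
    linear_combination (-1 / 2 : K) * hW
  have key : ∀ v ∈ oddPlaces ((9 - s) / 2 : K), v.asIdeal = Ideal.span {11, 5 - W} := by
    rintro v ⟨hv2, hv⟩
    have h1 : 5 - W ∈ v.asIdeal := by
      by_contra hcon
      apply hv
      rw [← hD, (HeightOneSpectrum.valuation_eq_one_iff_notMem v).2 hcon]
      exact ⟨1, by rw [mul_one]⟩
    have h2 : (11 : 𝓞 K) ∈ v.asIdeal := by
      have h3 : (2 : 𝓞 K) * 11 ∈ v.asIdeal := by
        have h4 := v.asIdeal.mul_mem_right (4 + W) h1
        have h5 : (5 - W) * (4 + W) = 2 * 11 := by linear_combination hW2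
        rwa [h5] at h4
      exact (v.isPrime.mem_or_mem h3).resolve_left hv2
    apply le_antisymm
    · intro x hxv
      obtain ⟨a, b, rfl⟩ := hx x
      have h3 : ((a + 5 * b : ℤ) : 𝓞 K) ∈ v.asIdeal := by
        have := v.asIdeal.add_mem hxv (v.asIdeal.mul_mem_left (b : 𝓞 K) h1)
        have e : ((a + 5 * b : ℤ) : 𝓞 K) = a + b * W + b * (5 - W) := by push_cast; ring
        rw [e]; exact this
      obtain ⟨c, hc⟩ := Quad.dvd_of_mem (l := 11) (by norm_num) (by exact_mod_cast h2) h3
      have e : (a : 𝓞 K) + b * W = c * 11 - b * (5 - W) := by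
        have : ((a + 5 * b : ℤ) : 𝓞 K) = ((11 * c : ℤ) : 𝓞 K) := by rw [hc]; norm_num
        push_cast at this
        linear_combination this
      rw [e]
      refine Ideal.sub_mem _ (Ideal.mul_mem_left _ _ ?_) (Ideal.mul_mem_left _ _ ?_)
      · exact Ideal.subset_span (by simp)
      · exact Ideal.subset_span (by simp)
    · rw [Ideal.span_le]
      intro x hx
      rcases hx with rfl | rfl
      · exact h2
      · exact h1
  intro v hv w hw
  apply HeightOneSpectrum.ext
  rw [key v hv, key w hw]

open scoped Classical in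
theorem rank_example (hK : Module.finrank ℚ K = 2) (hs : s ^ 2 = -7) :
    (9 - s) / 2 ≠ 0 ∧ (oddPlaces ((9 - s) / 2)).ncard = 1 ∧
    Module.finrank ℤ (cmCurve s ((9 - s) / 2)).Point = 2 := by
  have e : cmCurve s ((9 - s) / 2) = legendre 0 (exE2 s) (exE3 s) := by
    rw [cmCurve]
    congr 1
    · rw [exE2]
      linear_combination (-3 / 4 : K) * hs
    · rw [exE3]
      linear_combination (-3 / 4 : K) * hs
  rw [e]
  have h := ex_twoTors (K := K) hs
  have hD : (9 - s) / 2 ≠ 0 := by
    intro h
    have := s_ne hs (9 / 2) (-1 / 2) (by push_cast; linear_combination h)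
    norm_num at this
  obtain ⟨-, -, hFG, hle, -⟩ := cm_case (K := K) (F := K) hK hs (propP_seven hK hs) hD
    (e1 := 0) (e2 := exE2 s) (e3 := exE3 s) rfl
    (by
      rw [exE2, Algebra.algebraMap_self_apply]
      linear_combination (3 / 4 : K) * hs)
    (by
      rw [exE3, Algebra.algebraMap_self_apply]
      linear_combination (3 / 4 : K) * hs)
  have h2 := two_le_finrank hFG (ex_indep hK hs)
  have hsub := oddPlaces_example hK hs
  have : Finite (oddPlaces ((9 - s) / 2)) := hsub.finite
  have h1 : (oddPlaces ((9 - s) / 2)).ncard ≤ 1 := Set.ncard_le_one_iff_subsingleton.2 hsub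
  refine ⟨hD, ?_, ?_⟩ <;> omega

end example11

end Pool.Agent.Work.MP_787500_nt
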