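import Mathlib
import Pool.Agent.Work.MP_787500_nt.H10_Coh

/-!
The bound for the dimension of the Selmer space.
-/

set_option autoImplicit false
set_option linter.unusedSectionVars false

namespace Pool.Agent.Work.MP_787500_nt

open IsDedekindDomain NumberField

universe u

variable {F : Type u} [Field F] [NumberField F] {n : ℕ}
variable {ρ : AbsGal F →* Matrix (Fin n) (Fin n) ℤ_[2]} {S : Set (Fin n)}

theorem cobLin_apply (x : Fin n → ℚ_[2]) (σ : AbsGal F) (i : Fin n) :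
    cobLin ρ x σ i = act (ρ σ) x i - x i := rfl

theorem mem_locally {D : Subgroup (AbsGal F)} {c : AbsGal F → Fin n → ℚ_[2]} :
    c ∈ locally ρ D S ↔ ∃ x : Fin n → ℚ_[2], ∀ σ ∈ D, ∀ i ∉ S, c σ i = act (ρ σ) x i - x i := by
  rw [locally, Submodule.mem_sup]
  constructor
  · rintro ⟨_, ⟨x, rfl⟩, b, hb, rfl⟩
    refine ⟨x, fun σ hσ i hi => ?_⟩
    rw [Pi.add_apply, Pi.add_apply, hb σ hσ i hi, add_zero, cobLin_apply]
  · rintro ⟨x, hx⟩
    refine ⟨cobLin ρ x, ⟨x, rfl⟩, c - cobLin ρ x, ?_, by abel⟩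
    intro σ hσ i hi
    rw [Pi.sub_apply, Pi.sub_apply, hx σ hσ i hi, cobLin_apply, sub_self]

theorem mem_cocycles {c : AbsGal F → Fin n → ℚ_[2]} : c ∈ cocycles ρ ↔ IsCocyc ρ c :=
  ⟨fun h => ⟨h.1, h.2⟩, fun h => ⟨h.1, h.2⟩⟩

theorem mem_selmer {D D' : Subgroup (AbsGal F)} {c : AbsGal F → Fin n → ℚ_[2]} :
    c ∈ selmer ρ D D' S ↔ IsCocyc ρ c ∧
      (∃ x : Fin n → ℚ_[2], ∀ σ ∈ D, ∀ i ∉ S, c σ i = act (ρ σ) x i - x i) ∧
      (∃ x : Fin n → ℚ_[2], ∀ σ ∈ D', ∀ i ∈ S, c σ i = act (ρ σ) x i - x i) ∧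
      ∀ Q : Ideal (𝓞 (AlgebraicClosure F)), Q.IsPrime → (2 : 𝓞 (AlgebraicClosure F)) ∉ Q →
        ∃ x : Fin n → ℚ_[2], ∀ σ ∈ Q.inertia (AbsGal F), c σ = act (ρ σ) x - x := by
  rw [selmer]
  simp only [Submodule.mem_inf, Submodule.mem_iInf, mem_locally, mem_cocycles,
    Set.mem_compl_iff, not_not, and_assoc]
  refine and_congr_right (fun _ => and_congr_right (fun _ => and_congr_right (fun _ => ?_)))
  refine forall_congr' (fun Q => forall_congr' (fun _ => forall_congr' (fun _ => ?_)))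
  constructor
  · rintro ⟨x, hx⟩
    exact ⟨x, fun σ hσ => funext (fun i => hx σ hσ i (Set.notMem_empty i))⟩
  · rintro ⟨x, hx⟩
    exact ⟨x, fun σ hσ i _ => congrFun (hx σ hσ) i⟩

theorem cobLin_isCocyc (hρ : Continuous ρ) (x : Fin n → ℚ_[2]) : IsCocyc ρ (cobLin ρ x) := by
  have hρi : ∀ i j, Continuous (fun σ : AbsGal F => ρ σ i j) := fun i j =>
    (continuous_apply j).comp ((continuous_apply i).comp hρ)
  refine ⟨?_, fun σ τ => ?_⟩
  · refine continuous_pi (fun i => ?_)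
    refine Continuous.sub (f := fun σ : AbsGal F => act (ρ σ) x i) ?_ continuous_const
    refine continuous_finsetSum _ (fun j _ => ?_)
    exact (continuous_subtype_val.comp (hρi i j)).mul continuous_const
  · show act (ρ (σ * τ)) x - x = act (ρ σ) x - x + act (ρ σ) (act (ρ τ) x - x)
    rw [map_mul, act_mul, act_sub]
    abel

theorem cobLin_mem_selmer (hρ : Continuous ρ) {D D' : Subgroup (AbsGal F)} (x : Fin n → ℚ_[2]) :
    cobLin ρ x ∈ selmer ρ D D' S :=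
  mem_selmer.2 ⟨cobLin_isCocyc hρ x, ⟨x, fun _ _ _ _ => rfl⟩, ⟨x, fun _ _ _ _ => rfl⟩,
    fun _ _ _ => ⟨x, fun _ _ => rfl⟩⟩

theorem exists_normalised {D D' : Subgroup (AbsGal F)} (hord : IsOrdinary ρ D D' S)
    {c : AbsGal F → Fin n → ℚ_[2]} (hc : c ∈ selmer ρ D D' S) :
    ∃ x, c - cobLin ρ x ∈ selmer ρ D D' S ⊓ zeroOn D S ⊓ zeroOn D' Sᶜ := by
  classical
  obtain ⟨-, ⟨x1, hx1⟩, ⟨x2, hx2⟩, -⟩ := mem_selmer.1 hc
  let x : Fin n → ℚ_[2] := fun i => if i ∈ S then x2 i else x1 i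
  refine ⟨x, ⟨Submodule.sub_mem _ hc (cobLin_mem_selmer hord.cont x), ?_⟩, ?_⟩
  · intro σ hσ i hi
    rw [Pi.sub_apply, Pi.sub_apply, cobLin_apply, hx1 σ hσ i hi]
    have e1 : x i = x1 i := if_neg hi
    have e2 : act (ρ σ) x i = act (ρ σ) x1 i := by
      refine Finset.sum_congr rfl (fun j _ => ?_)
      by_cases hj : j ∈ S
      · rw [hord.left σ hσ i hi j hj]
        simp
      · rw [show x j = x1 j from if_neg hj]
    rw [e1, e2, sub_self]
  · intro σ hσ i hi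
    have hi' : i ∈ S := not_not.1 hi
    rw [Pi.sub_apply, Pi.sub_apply, cobLin_apply, hx2 σ hσ i hi']
    have e1 : x i = x2 i := if_pos hi'
    have e2 : act (ρ σ) x i = act (ρ σ) x2 i := by
      refine Finset.sum_congr rfl (fun j _ => ?_)
      by_cases hj : j ∈ S
      · rw [show x j = x2 j from if_pos hj]
      · rw [hord.right σ hσ i hi' j hj]
        simp
    rw [e1, e2, sub_self]

/-- the coboundary map on the inertia group -/
noncomputable def cobRes (ρ : AbsGal F →* Matrix (Fin n) (Fin n) ℤ_[2])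
    (Q : Ideal (𝓞 (AlgebraicClosure F))) :
    (Fin n → ℚ_[2]) →ₗ[ℚ_[2]] (Q.inertia (AbsGal F) → Fin n → ℚ_[2]) :=
  LinearMap.pi (fun σ => actLin (ρ σ) - LinearMap.id)

theorem ker_cobRes (Q : Ideal (𝓞 (AlgebraicClosure F))) :
    LinearMap.ker (cobRes ρ Q) = inertiaInv ρ Q := by
  rw [cobRes, LinearMap.ker_pi, inertiaInv]

theorem finrank_range_cobRes (Q : Ideal (𝓞 (AlgebraicClosure F))) :
    Module.finrank ℚ_[2] (LinearMap.range (cobRes ρ Q)) =
      n - Module.finrank ℚ_[2] (inertiaInv ρ Q) := by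
  have h := LinearMap.finrank_range_add_finrank_ker (cobRes ρ Q)
  rw [ker_cobRes, Module.finrank_fin_fun] at h
  omega

variable {w w' : HeightOneSpectrum (𝓞 F)}
    {ι : AlgebraicClosure F →ₐ[F] AlgebraicClosure (w.adicCompletion F)}
    {ι' : AlgebraicClosure F →ₐ[F] AlgebraicClosure (w'.adicCompletion F)}
    {Q : HeightOneSpectrum (𝓞 F) → Ideal (𝓞 (AlgebraicClosure F))}
    {T : Finset (HeightOneSpectrum (𝓞 F))}

theorem rank_selmer_le (hF : PropP F) (hw : (2 : 𝓞 F) ∈ w.asIdeal) (hw' : (2 : 𝓞 F) ∈ w'.asIdeal)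
    (hord : IsOrdinary ρ (decomp ι) (decomp ι') S)
    (hQ : ∀ v, (Q v).IsPrime ∧
      (Q v).comap (algebraMap (𝓞 F) (𝓞 (AlgebraicClosure F))) = v.asIdeal)
    (hT : ∀ v ∉ T, (2 : 𝓞 F) ∉ v.asIdeal → ∀ σ ∈ (Q v).inertia (AbsGal F), ρ σ = 1)
    (hT2 : ∀ v ∈ T, (2 : 𝓞 F) ∉ v.asIdeal) :
    Module.rank ℚ_[2] (selmer ρ (decomp ι) (decomp ι') S ⧸
        (LinearMap.range (cobLin ρ)).submoduleOf (selmer ρ (decomp ι) (decomp ι') S)) ≤
      ((∑ v ∈ T, (n - Module.finrank ℚ_[2] (inertiaInv ρ (Q v))) : ℕ) : Cardinal) := by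
  classical
  set Sel := selmer ρ (decomp ι) (decomp ι') S with hSel
  set Z : Submodule ℚ_[2] (AbsGal F → Fin n → ℚ_[2]) :=
    Sel ⊓ zeroOn (decomp ι) S ⊓ zeroOn (decomp ι') Sᶜ with hZ
  have hZS : Z ≤ Sel := inf_le_left.trans inf_le_left
  -- the surjection
  let f : Z →ₗ[ℚ_[2]] (Sel ⧸ (LinearMap.range (cobLin ρ)).submoduleOf Sel) :=
    (Submodule.mkQ _).comp (Submodule.inclusion hZS)
  have hf : Function.Surjective f := by
    intro y
    obtain ⟨⟨c, hc⟩, rfl⟩ := Submodule.mkQ_surjective _ y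
    obtain ⟨x, hx⟩ := exists_normalised hord hc
    refine ⟨⟨c - cobLin ρ x, hx⟩, ?_⟩
    show Submodule.mkQ _ (⟨c - cobLin ρ x, _⟩ : Sel) = Submodule.mkQ _ (⟨c, hc⟩ : Sel)
    rw [← sub_eq_zero, ← map_sub, Submodule.mkQ_apply, Submodule.Quotient.mk_eq_zero]
    show (c - cobLin ρ x) - c ∈ LinearMap.range (cobLin ρ)
    exact ⟨-x, by rw [map_neg]; abel⟩
  refine (LinearMap.rank_le_of_surjective f hf).trans ?_
  -- the injection
  have h2Q : ∀ v : T, (2 : 𝓞 (AlgebraicClosure F)) ∉ Q v := by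
    intro v h2
    apply hT2 v v.2
    have h3 : (2 : 𝓞 F) ∈ (Q v).comap (algebraMap (𝓞 F) (𝓞 (AlgebraicClosure F))) := by
      rw [Ideal.mem_comap, map_ofNat]
      exact h2
    rw [(hQ v).2] at h3
    exact h3
  let r : ∀ v : T, Z →ₗ[ℚ_[2]] ((Q v).inertia (AbsGal F) → Fin n → ℚ_[2]) := fun v =>
    (LinearMap.pi (fun σ : (Q v).inertia (AbsGal F) =>
      LinearMap.proj (φ := fun _ : AbsGal F => Fin n → ℚ_[2]) (σ : AbsGal F))).comp Z.subtype
  have hr : ∀ (v : T) (c : Z), r v c ∈ LinearMap.range (cobRes ρ (Q v)) := by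
    intro v c
    obtain ⟨x, hx⟩ := (mem_selmer.1 (hZS c.2)).2.2.2 (Q v) (hQ v).1 (h2Q v)
    exact ⟨x, funext (fun σ => (hx σ σ.2).symm)⟩
  let L : Z →ₗ[ℚ_[2]] (∀ v : T, LinearMap.range (cobRes ρ (Q v))) :=
    LinearMap.pi (fun v => LinearMap.codRestrict _ (r v) (hr v))
  have hL : Function.Injective L := by
    rw [← LinearMap.ker_eq_bot, LinearMap.ker_eq_bot']
    intro c hc
    apply Subtype.ext
    obtain ⟨hcoc, -, -, hun⟩ := mem_selmer.1 (hZS c.2)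
    have hgood : Good ρ (decomp ι) (decomp ι') S Q T c.1 := by
      refine ⟨hcoc, c.2.1.2, fun σ hσ i hi => c.2.2 σ hσ i (not_not.2 hi), ?_, ?_⟩
      · intro P hP hP2 htriv σ hσ
        obtain ⟨x, hx⟩ := hun P hP hP2
        rw [hx σ hσ, htriv σ hσ, act_one, sub_self]
      · intro v hv σ hσ
        have h1 := congrFun hc ⟨v, hv⟩
        have h2 := congrArg Subtype.val h1
        exact congrFun h2 ⟨σ, hσ⟩
    exact Good.eq_zero hF hw hw' hord hQ hT hgood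
  refine (LinearMap.rank_le_of_injective L hL).trans ?_
  rw [← Module.finrank_eq_rank, Module.finrank_pi_fintype]
  apply le_of_eq
  congr 1
  rw [← Finset.sum_coe_sort T (fun v => n - Module.finrank ℚ_[2] (inertiaInv ρ (Q v)))]
  exact Finset.sum_congr rfl (fun v _ => finrank_range_cobRes (Q v))

end Pool.Agent.Work.MP_787500_nt
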