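import Mathlib
import Pool.Agent.Work.MP_787500_nt.H10_CohDefs

/-!
Selmer spaces with arbitrary local conditions at two dyadic places: definitions.
-/

set_option autoImplicit false

namespace Pool.Agent.Work.MP_787500_nt.Loc

open IsDedekindDomain NumberField

universe u

variable {F : Type u} [Field F] {n : ℕ}

/-- The Selmer space with local conditions `L` and `L'`: continuous cocycles that become coboundaries
on the inertia groups of all primes of the ring of algebraic integers not containing 2, that on `D`,
in the coordinates outside `S`, agree with an element of `L` plus a coboundary, and that on `D'`, in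
the coordinates in `S`, agree with an element of `L'` plus a coboundary. -/
noncomputable def selmer (ρ : AbsGal F →* Matrix (Fin n) (Fin n) ℤ_[2])
    (D D' : Subgroup (AbsGal F)) (S : Set (Fin n))
    (L L' : Submodule ℚ_[2] (AbsGal F → Fin n → ℚ_[2])) :
    Submodule ℚ_[2] (AbsGal F → Fin n → ℚ_[2]) :=
  cocycles ρ ⊓ (L ⊔ locally ρ D S) ⊓ (L' ⊔ locally ρ D' Sᶜ) ⊓
    ⨅ (Q : Ideal (𝓞 (AlgebraicClosure F))) (_ : Q.IsPrime) (_ : (2 : 𝓞 (AlgebraicClosure F)) ∉ Q),
      locally ρ (Q.inertia (AbsGal F)) ∅

/-- The dimension of `L` modulo `M`, that is, of the quotient of `L` by its intersection with `M`. -/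
noncomputable def dimMod (L M : Submodule ℚ_[2] (AbsGal F → Fin n → ℚ_[2])) : Cardinal :=
  Module.rank ℚ_[2] (L ⧸ M.submoduleOf L)

/-- For all local conditions `L` and `L'`, the dimension of the Selmer space modulo coboundaries is at
most the sum of the dimension of `L` modulo the functions that on `D`, in the coordinates outside
`S`, are coboundaries, of the dimension of `L'` modulo the functions that on `D'`, in the coordinates
in `S`, are coboundaries, and of the numbers `n - dim V ^ (I_v)` for `v` in `T`, where `V ^ (I_v)` is
the space of vectors fixed by the inertia group of `Q v`. -/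
def SelmerBound [NumberField F] (ρ : AbsGal F →* Matrix (Fin n) (Fin n) ℤ_[2])
    (D D' : Subgroup (AbsGal F)) (S : Set (Fin n))
    (Q : HeightOneSpectrum (𝓞 F) → Ideal (𝓞 (AlgebraicClosure F)))
    (T : Finset (HeightOneSpectrum (𝓞 F))) : Prop :=
  ∀ L L' : Submodule ℚ_[2] (AbsGal F → Fin n → ℚ_[2]),
    dimMod (selmer ρ D D' S L L') (LinearMap.range (cobLin ρ)) ≤
      dimMod L (locally ρ D S) + dimMod L' (locally ρ D' Sᶜ) +
        ((∑ v ∈ T, (n - Module.finrank ℚ_[2] (inertiaInv ρ (Q v))) : ℕ) : Cardinal)

end Pool.Agent.Work.MP_787500_nt.Loc
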