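import Mathlib
import Pool.Agent.Work.MP_787500_nt.H72_LocDefs
import Pool.Agent.Work.MP_787500_nt.H72_RankLem
import Pool.Agent.Work.MP_787500_nt.H10_Selmer

/-!
The Selmer space with local conditions `L` and `L'` at two dyadic places.
-/

set_option autoImplicit false

namespace Pool.Agent.Work.MP_787500_nt.Loc

open IsDedekindDomain NumberField

universe u

variable {F : Type u} [Field F] [NumberField F] {n : ℕ}
variable {ρ : AbsGal F →* Matrix (Fin n) (Fin n) ℤ_[2]} {S : Set (Fin n)}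

theorem mkQ_mem {k M : Type*} [Field k] [AddCommGroup M] [Module k M] {L C : Submodule k M} {c : M}
    (h : c ∈ L ⊔ C) : C.mkQ c ∈ L.map C.mkQ := by
  obtain ⟨l, hl, b, hb, rfl⟩ := Submodule.mem_sup.1 h
  refine ⟨l, hl, ?_⟩
  have : C.mkQ b = 0 := by rw [Submodule.mkQ_apply, Submodule.Quotient.mk_eq_zero]; exact hb
  rw [map_add, this, add_zero]

theorem selmerDim_le {D D' : Subgroup (AbsGal F)}
    (L L' : Submodule ℚ_[2] (AbsGal F → Fin n → ℚ_[2])) :
    dimMod (selmer ρ D D' S L L') (LinearMap.range (cobLin ρ)) ≤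
      dimMod L (locally ρ D S) + dimMod L' (locally ρ D' Sᶜ) +
        MP_787500_nt.selmerDim ρ D D' S := by
  classical
  set A := selmer ρ D D' S L L' with hA
  have m1 : ∀ c : A, (locally ρ D S).mkQ c.1 ∈ L.map (locally ρ D S).mkQ :=
    fun c => mkQ_mem c.2.1.1.2
  have m2 : ∀ c : A, (locally ρ D' Sᶜ).mkQ c.1 ∈ L'.map (locally ρ D' Sᶜ).mkQ :=
    fun c => mkQ_mem c.2.1.2
  let g1 : A →ₗ[ℚ_[2]] L.map (locally ρ D S).mkQ :=
    LinearMap.codRestrict _ ((locally ρ D S).mkQ.comp A.subtype) m1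
  let g2 : A →ₗ[ℚ_[2]] L'.map (locally ρ D' Sᶜ).mkQ :=
    LinearMap.codRestrict _ ((locally ρ D' Sᶜ).mkQ.comp A.subtype) m2
  have hg : ∀ c : A, (g1.prod g2) c = 0 →
      (c : AbsGal F → Fin n → ℚ_[2]) ∈ MP_787500_nt.selmer ρ D D' S := by
    intro c hc
    have h1 : (locally ρ D S).mkQ c.1 = 0 := congrArg Subtype.val (congrArg Prod.fst hc)
    have h2 : (locally ρ D' Sᶜ).mkQ c.1 = 0 := congrArg Subtype.val (congrArg Prod.snd hc)
    rw [Submodule.mkQ_apply, Submodule.Quotient.mk_eq_zero] at h1 h2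
    exact ⟨⟨⟨c.2.1.1.1, h1⟩, h2⟩, c.2.2⟩
  have key := rank_quot_le A (MP_787500_nt.selmer ρ D D' S) (LinearMap.range (cobLin ρ))
    (g1.prod g2) hg
  rw [rank_prod', rank_map_mkQ L, rank_map_mkQ L'] at key
  exact key

end Pool.Agent.Work.MP_787500_nt.Loc
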