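import Mathlib
import Pool.Agent.Work.MP_787500_nt.H9_Descent

/-!
# Local conditions at primes
-/

set_option autoImplicit false
set_option linter.unusedSectionVars false
set_option linter.unusedSimpArgs false

namespace Pool.Agent.Work.MP_787500_nt

/-- primitive integral solution modulo `ℓ ^ 2` -/
theorem exists_primitive {ℓ : ℕ} [Fact ℓ.Prime] {e1 e2 e3 d1 d2 d3 : ℤ}
    (h : HomSol (e1 : ℚ) e2 e3 d1 d2 d3 ℚ_[ℓ]) :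
    ∃ X w z1 z2 z3 : ℤ,
      ¬ ((ℓ : ℤ) ∣ w ∧ (ℓ : ℤ) ∣ z1 ∧ (ℓ : ℤ) ∣ z2 ∧ (ℓ : ℤ) ∣ z3) ∧
      (ℓ : ℤ) ^ 2 ∣ d1 * z1 ^ 2 - (X - e1 * w ^ 2) ∧
      (ℓ : ℤ) ^ 2 ∣ d2 * z2 ^ 2 - (X - e2 * w ^ 2) ∧
      (ℓ : ℤ) ^ 2 ∣ d3 * z3 ^ 2 - (X - e3 * w ^ 2) := by
  obtain ⟨X, w, z1, z2, z3, h0, h1, h2, h3⟩ := h
  simp only [map_intCast] at h1 h2 h3
  -- pick the coordinate of largest norm
  have hmax : ∃ u : ℚ_[ℓ], u ≠ 0 ∧ (u = w ∨ u = z1 ∨ u = z2 ∨ u = z3) ∧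
      ‖w‖ ≤ ‖u‖ ∧ ‖z1‖ ≤ ‖u‖ ∧ ‖z2‖ ≤ ‖u‖ ∧ ‖z3‖ ≤ ‖u‖ := by
    have hne : w ≠ 0 ∨ z1 ≠ 0 := by
      by_contra hh
      push Not at hh
      obtain ⟨hw, hz⟩ := hh
      rcases h0 with h0 | h0
      · exact h0 hw
      · apply h0
        rw [hw, hz] at h1
        linear_combination -h1
    obtain ⟨u1, hu1, hu1a, hu1b⟩ : ∃ u, (u = w ∨ u = z1) ∧ ‖w‖ ≤ ‖u‖ ∧ ‖z1‖ ≤ ‖u‖ := by
      rcases le_total ‖w‖ ‖z1‖ with hh | hh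
      · exact ⟨z1, Or.inr rfl, hh, le_refl _⟩
      · exact ⟨w, Or.inl rfl, le_refl _, hh⟩
    obtain ⟨u2, hu2, hu2a, hu2b⟩ : ∃ u, (u = z2 ∨ u = z3) ∧ ‖z2‖ ≤ ‖u‖ ∧ ‖z3‖ ≤ ‖u‖ := by
      rcases le_total ‖z2‖ ‖z3‖ with hh | hh
      · exact ⟨z3, Or.inr rfl, hh, le_refl _⟩
      · exact ⟨z2, Or.inl rfl, le_refl _, hh⟩
    have hu1ne : u1 ≠ 0 := by
      rintro rfl
      rw [norm_zero] at hu1a hu1b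
      rcases hne with hh | hh
      · exact hh (norm_le_zero_iff.1 hu1a)
      · exact hh (norm_le_zero_iff.1 hu1b)
    rcases le_total ‖u1‖ ‖u2‖ with hh | hh
    · refine ⟨u2, ?_, by tauto, hu1a.trans hh, hu1b.trans hh, hu2a, hu2b⟩
      rintro rfl
      rw [norm_zero] at hh
      exact hu1ne (norm_le_zero_iff.1 hh)
    · exact ⟨u1, hu1ne, by tauto, hu1a, hu1b, hu2a.trans hh, hu2b.trans hh⟩
  obtain ⟨u, hu0, hu, hw, hz1, hz2, hz3⟩ := hmax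
  have hdiv : ∀ {v : ℚ_[ℓ]}, ‖v‖ ≤ ‖u‖ → ‖v / u‖ ≤ 1 := by
    intro v hv
    rw [norm_div]
    exact div_le_one_of_le₀ hv (norm_nonneg _)
  -- integral versions
  let W : ℤ_[ℓ] := ⟨w / u, hdiv hw⟩
  let Z1 : ℤ_[ℓ] := ⟨z1 / u, hdiv hz1⟩
  let Z2 : ℤ_[ℓ] := ⟨z2 / u, hdiv hz2⟩
  let Z3 : ℤ_[ℓ] := ⟨z3 / u, hdiv hz3⟩
  have hu2 : u ^ 2 ≠ 0 := pow_ne_zero 2 hu0
  have hX : X / u ^ 2 = ((d1 * Z1 ^ 2 + e1 * W ^ 2 : ℤ_[ℓ]) : ℚ_[ℓ]) := by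
    push_cast
    show X / u ^ 2 = d1 * (z1 / u) ^ 2 + e1 * (w / u) ^ 2
    field_simp
    linear_combination -h1
  set XX : ℤ_[ℓ] := d1 * Z1 ^ 2 + e1 * W ^ 2 with hXX
  have g1 : (d1 : ℤ_[ℓ]) * Z1 ^ 2 = XX - e1 * W ^ 2 := by rw [hXX]; ring
  have g2 : (d2 : ℤ_[ℓ]) * Z2 ^ 2 = XX - e2 * W ^ 2 := by
    apply Subtype.ext
    push_cast
    rw [← hX]
    show (d2 : ℚ_[ℓ]) * (z2 / u) ^ 2 = X / u ^ 2 - e2 * (w / u) ^ 2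
    field_simp
    linear_combination h2
  have g3 : (d3 : ℤ_[ℓ]) * Z3 ^ 2 = XX - e3 * W ^ 2 := by
    apply Subtype.ext
    push_cast
    rw [← hX]
    show (d3 : ℚ_[ℓ]) * (z3 / u) ^ 2 = X / u ^ 2 - e3 * (w / u) ^ 2
    field_simp
    linear_combination h3
  let φ : ℤ_[ℓ] →+* ZMod (ℓ ^ 2) := PadicInt.toZModPow 2
  have hlift : ∀ a : ZMod (ℓ ^ 2), ∃ b : ℤ, (b : ZMod (ℓ ^ 2)) = a := ZMod.intCast_surjective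
  obtain ⟨x, hx⟩ := hlift (φ XX)
  obtain ⟨w', hw'⟩ := hlift (φ W)
  obtain ⟨z1', hz1'⟩ := hlift (φ Z1)
  obtain ⟨z2', hz2'⟩ := hlift (φ Z2)
  obtain ⟨z3', hz3'⟩ := hlift (φ Z3)
  have hdvd : ∀ a : ℤ, ((a : ℤ) : ZMod (ℓ ^ 2)) = 0 → (ℓ : ℤ) ^ 2 ∣ a := by
    intro a ha
    have := (ZMod.intCast_zmod_eq_zero_iff_dvd a (ℓ ^ 2)).1 ha
    exact_mod_cast this
  refine ⟨x, w', z1', z2', z3', ?_, ?_, ?_, ?_⟩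
  · have hl2 : (1 : ℕ) < ℓ := (Fact.out : ℓ.Prime).one_lt
    have hone : ∀ {a : ℤ} {A : ℤ_[ℓ]}, ((a : ℤ) : ZMod (ℓ ^ 2)) = φ A → A = 1 →
        ¬ (ℓ : ℤ) ∣ a := by
      intro a A ha hA hdiv'
      rw [hA, map_one] at ha
      have h5 : (ℓ : ℤ) ^ 2 ∣ a - 1 := by
        apply hdvd
        push_cast
        rw [ha, sub_self]
      have h6 : (ℓ : ℤ) ∣ a - 1 := dvd_trans (dvd_pow_self _ two_ne_zero) h5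
      have h7 : (ℓ : ℤ) ∣ 1 := by
        have := dvd_sub hdiv' h6
        simpa using this
      have h8 : (ℓ : ℤ) ≤ 1 := Int.le_of_dvd one_pos h7
      omega
    rintro ⟨k1, k2, k3, k4⟩
    rcases hu with hu | hu | hu | hu
    · exact hone hw' (Subtype.ext (by show w / u = 1; rw [← hu, div_self hu0])) k1
    · exact hone hz1' (Subtype.ext (by show z1 / u = 1; rw [← hu, div_self hu0])) k2
    · exact hone hz2' (Subtype.ext (by show z2 / u = 1; rw [← hu, div_self hu0])) k3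
    · exact hone hz3' (Subtype.ext (by show z3 / u = 1; rw [← hu, div_self hu0])) k4
  · apply hdvd
    push_cast
    rw [hx, hz1', hw']
    have := congrArg φ g1
    simp only [map_mul, map_sub, map_pow, map_intCast] at this
    rw [this, sub_self]
  · apply hdvd
    push_cast
    rw [hx, hz2', hw']
    have := congrArg φ g2
    simp only [map_mul, map_sub, map_pow, map_intCast] at this
    rw [this, sub_self]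
  · apply hdvd
    push_cast
    rw [hx, hz3', hw']
    have := congrArg φ g3
    simp only [map_mul, map_sub, map_pow, map_intCast] at this
    rw [this, sub_self]

/-- a primitive solution modulo `ℓ ^ 2` -/
structure Prim (ℓ : ℕ) (e1 e2 e3 d1 d2 d3 X w z1 z2 z3 : ℤ) : Prop where
  prim : ¬ ((ℓ : ℤ) ∣ w ∧ (ℓ : ℤ) ∣ z1 ∧ (ℓ : ℤ) ∣ z2 ∧ (ℓ : ℤ) ∣ z3)
  c1 : (ℓ : ℤ) ^ 2 ∣ d1 * z1 ^ 2 - (X - e1 * w ^ 2)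
  c2 : (ℓ : ℤ) ^ 2 ∣ d2 * z2 ^ 2 - (X - e2 * w ^ 2)
  c3 : (ℓ : ℤ) ^ 2 ∣ d3 * z3 ^ 2 - (X - e3 * w ^ 2)

namespace Prim

variable {ℓ : ℕ} [hℓ : Fact ℓ.Prime] {e1 e2 e3 d1 d2 d3 X w z1 z2 z3 : ℤ}

lemma rot (h : Prim ℓ e1 e2 e3 d1 d2 d3 X w z1 z2 z3) :
    Prim ℓ e2 e3 e1 d2 d3 d1 X w z2 z3 z1 where
  prim := fun ⟨a, b, c, d⟩ => h.prim ⟨a, d, b, c⟩
  c1 := h.c2
  c2 := h.c3
  c3 := h.c1

lemma swap (h : Prim ℓ e1 e2 e3 d1 d2 d3 X w z1 z2 z3) :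
    Prim ℓ e2 e1 e3 d2 d1 d3 X w z2 z1 z3 where
  prim := fun ⟨a, b, c, d⟩ => h.prim ⟨a, c, b, d⟩
  c1 := h.c2
  c2 := h.c1
  c3 := h.c3

lemma c12 (h : Prim ℓ e1 e2 e3 d1 d2 d3 X w z1 z2 z3) :
    (ℓ : ℤ) ^ 2 ∣ d1 * z1 ^ 2 - d2 * z2 ^ 2 + (e1 - e2) * w ^ 2 := by
  have := dvd_sub h.c1 h.c2
  have e : d1 * z1 ^ 2 - d2 * z2 ^ 2 + (e1 - e2) * w ^ 2 =
    d1 * z1 ^ 2 - (X - e1 * w ^ 2) - (d2 * z2 ^ 2 - (X - e2 * w ^ 2)) := by ring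
  rw [e]; exact this

end Prim

section aux

variable {ℓ : ℕ} [hℓ : Fact ℓ.Prime]

lemma pZ : Prime (ℓ : ℤ) := Nat.prime_iff_prime_int.1 hℓ.out

lemma dvd_z_of_dvd {d z : ℤ} (hd : ¬ (ℓ : ℤ) ∣ d) (h : (ℓ : ℤ) ∣ d * z ^ 2) : (ℓ : ℤ) ∣ z := by
  rcases (pZ (ℓ := ℓ)).dvd_or_dvd h with h | h
  · exact absurd h hd
  · exact (pZ (ℓ := ℓ)).dvd_of_dvd_pow h

lemma dvd_z_of_sq_dvd {d z : ℤ} (hd : ¬ (ℓ : ℤ) ^ 2 ∣ d) (h : (ℓ : ℤ) ^ 2 ∣ d * z ^ 2) :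
    (ℓ : ℤ) ∣ z := by
  by_contra hz
  apply hd
  have hc : IsCoprime ((ℓ : ℤ) ^ 2) (z ^ 2) := by
    apply IsCoprime.pow
    exact (Prime.coprime_iff_not_dvd (pZ (ℓ := ℓ))).2 hz
  exact hc.dvd_of_dvd_mul_right h

lemma sq_dvd_sq_of_dvd {z : ℤ} (h : (ℓ : ℤ) ∣ z) (a : ℤ) : (ℓ : ℤ) ^ 2 ∣ a * z ^ 2 :=
  Dvd.dvd.mul_left (pow_dvd_pow_of_dvd h 2) a

lemma dvd_third {d1 d2 d3 : ℤ} (hsq : IsSquare (d1 * d2 * d3)) (h1 : (ℓ : ℤ) ∣ d1)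
    (h1' : ¬ (ℓ : ℤ) ^ 2 ∣ d1) (h2 : ¬ (ℓ : ℤ) ∣ d2) : (ℓ : ℤ) ∣ d3 := by
  obtain ⟨t, ht⟩ := hsq
  have hp := pZ (ℓ := ℓ)
  obtain ⟨u, hu⟩ := h1
  have hlt : (ℓ : ℤ) ∣ t * t := by rw [← ht, hu]; exact ⟨u * d2 * d3, by ring⟩
  have hlt' : (ℓ : ℤ) ∣ t := by rcases hp.dvd_or_dvd hlt with h | h <;> exact h
  obtain ⟨t', ht'⟩ := hlt'
  have hne : (ℓ : ℤ) ≠ 0 := hp.ne_zero
  have : u * d2 * d3 = ℓ * (t' * t') := by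
    apply mul_left_cancel₀ hne
    have : (ℓ : ℤ) * u * d2 * d3 = ℓ * t' * (ℓ * t') := by rw [← hu, ht, ht']
    linear_combination this
  have hd : (ℓ : ℤ) ∣ u * d2 * d3 := ⟨_, this⟩
  rcases hp.dvd_or_dvd hd with h | h
  · rcases hp.dvd_or_dvd h with h | h
    · exfalso
      apply h1'
      obtain ⟨v, hv⟩ := h
      exact ⟨v, by rw [hu, hv]; ring⟩
    · exact absurd h h2
  · exact h

lemma not_dvd_third {d1 d2 d3 : ℤ} (hsq : IsSquare (d1 * d2 * d3)) (h1 : (ℓ : ℤ) ∣ d1)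
    (h1' : ¬ (ℓ : ℤ) ^ 2 ∣ d1) (h2 : (ℓ : ℤ) ∣ d2) (h2' : ¬ (ℓ : ℤ) ^ 2 ∣ d2)
    (h3' : ¬ (ℓ : ℤ) ^ 2 ∣ d3) : ¬ (ℓ : ℤ) ∣ d3 := by
  intro h3
  obtain ⟨t, ht⟩ := hsq
  have hp := pZ (ℓ := ℓ)
  have hne : (ℓ : ℤ) ≠ 0 := hp.ne_zero
  obtain ⟨u1, hu1⟩ := h1
  obtain ⟨u2, hu2⟩ := h2
  obtain ⟨u3, hu3⟩ := h3
  have hlt : (ℓ : ℤ) ∣ t * t := by rw [← ht, hu1]; exact ⟨u1 * d2 * d3, by ring⟩
  have hlt' : (ℓ : ℤ) ∣ t := by rcases hp.dvd_or_dvd hlt with h | h <;> exact h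
  obtain ⟨t', ht'⟩ := hlt'
  have e1 : ℓ * (u1 * u2 * u3) = t' * t' := by
    apply mul_left_cancel₀ (pow_ne_zero 2 hne)
    have : (ℓ : ℤ) * u1 * (ℓ * u2) * (ℓ * u3) = ℓ * t' * (ℓ * t') := by
      rw [← hu1, ← hu2, ← hu3, ht, ht']
    linear_combination this
  have hlt2 : (ℓ : ℤ) ∣ t' * t' := ⟨_, e1.symm⟩
  have hlt2' : (ℓ : ℤ) ∣ t' := by rcases hp.dvd_or_dvd hlt2 with h | h <;> exact h
  obtain ⟨t2, ht2⟩ := hlt2'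
  have e2 : u1 * u2 * u3 = ℓ * (t2 * t2) := by
    apply mul_left_cancel₀ hne
    rw [e1, ht2]; ring
  have hd : (ℓ : ℤ) ∣ u1 * u2 * u3 := ⟨_, e2⟩
  rcases hp.dvd_or_dvd hd with h | h
  · rcases hp.dvd_or_dvd h with h | h
    · apply h1'
      obtain ⟨v, hv⟩ := h
      exact ⟨v, by rw [hu1, hv]; ring⟩
    · apply h2'
      obtain ⟨v, hv⟩ := h
      exact ⟨v, by rw [hu2, hv]; ring⟩
  · apply h3'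
    obtain ⟨v, hv⟩ := h
    exact ⟨v, by rw [hu3, hv]; ring⟩

end aux

section places

variable {ℓ : ℕ} [hℓ : Fact ℓ.Prime] {e1 e2 e3 d1 d2 d3 X w z1 z2 z3 : ℤ}

private lemma good_aux (h : Prim ℓ e1 e2 e3 d1 d2 d3 X w z1 z2 z3)
    (he12 : ¬ (ℓ : ℤ) ∣ e1 - e2)
    (hd1 : ¬ (ℓ : ℤ) ^ 2 ∣ d1) (hd2 : ¬ (ℓ : ℤ) ^ 2 ∣ d2)
    (h1 : (ℓ : ℤ) ∣ d1) (h2 : (ℓ : ℤ) ∣ d2) (h3 : ¬ (ℓ : ℤ) ∣ d3) : False := by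
  have hlsq : (ℓ : ℤ) ∣ (ℓ : ℤ) ^ 2 := dvd_pow_self _ two_ne_zero
  have hw : (ℓ : ℤ) ∣ w := by
    apply dvd_z_of_dvd he12
    have a1 := hlsq.trans h.c12
    have a2 : (ℓ : ℤ) ∣ d1 * z1 ^ 2 := Dvd.dvd.mul_right h1 _
    have a3 : (ℓ : ℤ) ∣ d2 * z2 ^ 2 := Dvd.dvd.mul_right h2 _
    have : (e1 - e2) * w ^ 2 = (d1 * z1 ^ 2 - d2 * z2 ^ 2 + (e1 - e2) * w ^ 2) - d1 * z1 ^ 2 +
      d2 * z2 ^ 2 := by ring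
    rw [this]
    exact dvd_add (dvd_sub a1 a2) a3
  have hw2 : ∀ a : ℤ, (ℓ : ℤ) ^ 2 ∣ a * w ^ 2 := sq_dvd_sq_of_dvd hw
  have hz3 : (ℓ : ℤ) ∣ z3 := by
    apply dvd_z_of_dvd h3
    have a1 := hlsq.trans (h.rot.rot.c12)
    have a2 : (ℓ : ℤ) ∣ d1 * z1 ^ 2 := Dvd.dvd.mul_right h1 _
    have a3 := hlsq.trans (hw2 (e3 - e1))
    have : d3 * z3 ^ 2 = (d3 * z3 ^ 2 - d1 * z1 ^ 2 + (e3 - e1) * w ^ 2) + d1 * z1 ^ 2 -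
      (e3 - e1) * w ^ 2 := by ring
    rw [this]
    exact dvd_sub (dvd_add a1 a2) a3
  have hz32 : ∀ a : ℤ, (ℓ : ℤ) ^ 2 ∣ a * z3 ^ 2 := sq_dvd_sq_of_dvd hz3
  have hz1 : (ℓ : ℤ) ∣ z1 := by
    apply dvd_z_of_sq_dvd hd1
    have : d1 * z1 ^ 2 = -(d3 * z3 ^ 2 - d1 * z1 ^ 2 + (e3 - e1) * w ^ 2) + d3 * z3 ^ 2 +
      (e3 - e1) * w ^ 2 := by ring
    rw [this]
    exact dvd_add (dvd_add ((dvd_neg).2 h.rot.rot.c12) (hz32 _)) (hw2 _)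
  have hz2 : (ℓ : ℤ) ∣ z2 := by
    apply dvd_z_of_sq_dvd hd2
    have : d2 * z2 ^ 2 = (d2 * z2 ^ 2 - d3 * z3 ^ 2 + (e2 - e3) * w ^ 2) + d3 * z3 ^ 2 -
      (e2 - e3) * w ^ 2 := by ring
    rw [this]
    exact dvd_sub (dvd_add h.rot.c12 (hz32 _)) (hw2 _)
  exact h.prim ⟨hw, hz1, hz2, hz3⟩

/-- a place where all differences are units -/
theorem good_place (h : Prim ℓ e1 e2 e3 d1 d2 d3 X w z1 z2 z3)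
    (he12 : ¬ (ℓ : ℤ) ∣ e1 - e2) (he23 : ¬ (ℓ : ℤ) ∣ e2 - e3) (he31 : ¬ (ℓ : ℤ) ∣ e3 - e1)
    (hd1 : ¬ (ℓ : ℤ) ^ 2 ∣ d1) (hd2 : ¬ (ℓ : ℤ) ^ 2 ∣ d2) (hd3 : ¬ (ℓ : ℤ) ^ 2 ∣ d3)
    (hsq : IsSquare (d1 * d2 * d3)) : ¬ (ℓ : ℤ) ∣ d1 ∧ ¬ (ℓ : ℤ) ∣ d2 ∧ ¬ (ℓ : ℤ) ∣ d3 := by
  have hsq2 : IsSquare (d2 * d3 * d1) := by convert hsq using 1; ring
  have hsq3 : IsSquare (d3 * d1 * d2) := by convert hsq using 1; ring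
  have n12 : ¬ ((ℓ : ℤ) ∣ d1 ∧ (ℓ : ℤ) ∣ d2) := fun ⟨a, b⟩ =>
    good_aux h he12 hd1 hd2 a b (not_dvd_third hsq a hd1 b hd2 hd3)
  have n23 : ¬ ((ℓ : ℤ) ∣ d2 ∧ (ℓ : ℤ) ∣ d3) := fun ⟨a, b⟩ =>
    good_aux h.rot he23 hd2 hd3 a b (not_dvd_third hsq2 a hd2 b hd3 hd1)
  have n31 : ¬ ((ℓ : ℤ) ∣ d3 ∧ (ℓ : ℤ) ∣ d1) := fun ⟨a, b⟩ =>
    good_aux h.rot.rot he31 hd3 hd1 a b (not_dvd_third hsq3 a hd3 b hd1 hd2)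
  refine ⟨fun k => ?_, fun k => ?_, fun k => ?_⟩
  · exact n31 ⟨dvd_third hsq k hd1 (fun k2 => n12 ⟨k, k2⟩), k⟩
  · exact n12 ⟨dvd_third hsq2 k hd2 (fun k2 => n23 ⟨k, k2⟩), k⟩
  · exact n23 ⟨dvd_third hsq3 k hd3 (fun k2 => n31 ⟨k, k2⟩), k⟩

lemma zmod_ne {a : ℤ} (h : ¬ (ℓ : ℤ) ∣ a) : ((a : ℤ) : ZMod ℓ) ≠ 0 := fun hh =>
  h ((ZMod.intCast_zmod_eq_zero_iff_dvd a ℓ).1 hh)

lemma zmod_eq_zero {a : ℤ} (h : (ℓ : ℤ) ∣ a) : ((a : ℤ) : ZMod ℓ) = 0 :=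
  (ZMod.intCast_zmod_eq_zero_iff_dvd a ℓ).2 h

private lemma mult_aux (h : Prim ℓ e1 e2 e3 d1 d2 d3 X w z1 z2 z3)
    (he31 : ¬ (ℓ : ℤ) ∣ e3 - e1)
    (hd1 : ¬ (ℓ : ℤ) ^ 2 ∣ d1) (hd3 : ¬ (ℓ : ℤ) ^ 2 ∣ d3)
    (h3 : (ℓ : ℤ) ∣ d3) (h1 : (ℓ : ℤ) ∣ d1) (h2 : ¬ (ℓ : ℤ) ∣ d2) : False := by
  have hlsq : (ℓ : ℤ) ∣ (ℓ : ℤ) ^ 2 := dvd_pow_self _ two_ne_zero
  have hw : (ℓ : ℤ) ∣ w := by
    apply dvd_z_of_dvd he31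
    have a1 := hlsq.trans h.rot.rot.c12
    have a2 : (ℓ : ℤ) ∣ d1 * z1 ^ 2 := Dvd.dvd.mul_right h1 _
    have a3 : (ℓ : ℤ) ∣ d3 * z3 ^ 2 := Dvd.dvd.mul_right h3 _
    have : (e3 - e1) * w ^ 2 = (d3 * z3 ^ 2 - d1 * z1 ^ 2 + (e3 - e1) * w ^ 2) + d1 * z1 ^ 2 -
      d3 * z3 ^ 2 := by ring
    rw [this]
    exact dvd_sub (dvd_add a1 a2) a3
  have hw2 : ∀ a : ℤ, (ℓ : ℤ) ^ 2 ∣ a * w ^ 2 := sq_dvd_sq_of_dvd hw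
  have hz2 : (ℓ : ℤ) ∣ z2 := by
    apply dvd_z_of_dvd h2
    have a1 := hlsq.trans (h.c12)
    have a2 : (ℓ : ℤ) ∣ d1 * z1 ^ 2 := Dvd.dvd.mul_right h1 _
    have a3 := hlsq.trans (hw2 (e1 - e2))
    have : d2 * z2 ^ 2 = -(d1 * z1 ^ 2 - d2 * z2 ^ 2 + (e1 - e2) * w ^ 2) + d1 * z1 ^ 2 +
      (e1 - e2) * w ^ 2 := by ring
    rw [this]
    exact dvd_add (dvd_add ((dvd_neg).2 a1) a2) a3
  have hz22 : ∀ a : ℤ, (ℓ : ℤ) ^ 2 ∣ a * z2 ^ 2 := sq_dvd_sq_of_dvd hz2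
  have hz1 : (ℓ : ℤ) ∣ z1 := by
    apply dvd_z_of_sq_dvd hd1
    have : d1 * z1 ^ 2 = (d1 * z1 ^ 2 - d2 * z2 ^ 2 + (e1 - e2) * w ^ 2) + d2 * z2 ^ 2 -
      (e1 - e2) * w ^ 2 := by ring
    rw [this]
    exact dvd_sub (dvd_add h.c12 (hz22 _)) (hw2 _)
  have hz3 : (ℓ : ℤ) ∣ z3 := by
    apply dvd_z_of_sq_dvd hd3
    have : d3 * z3 ^ 2 = -(d2 * z2 ^ 2 - d3 * z3 ^ 2 + (e2 - e3) * w ^ 2) + d2 * z2 ^ 2 +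
      (e2 - e3) * w ^ 2 := by ring
    rw [this]
    exact dvd_add (dvd_add ((dvd_neg).2 h.rot.c12) (hz22 _)) (hw2 _)
  exact h.prim ⟨hw, hz1, hz2, hz3⟩

/-- a place where exactly one difference is divisible, and exactly once -/
theorem mult_place (h : Prim ℓ e1 e2 e3 d1 d2 d3 X w z1 z2 z3)
    (he12 : (ℓ : ℤ) ∣ e1 - e2) (he12' : ¬ (ℓ : ℤ) ^ 2 ∣ e1 - e2) (he31 : ¬ (ℓ : ℤ) ∣ e3 - e1)
    (hd1 : ¬ (ℓ : ℤ) ^ 2 ∣ d1) (hd2 : ¬ (ℓ : ℤ) ^ 2 ∣ d2) (hd3 : ¬ (ℓ : ℤ) ^ 2 ∣ d3)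
    (hsq : IsSquare (d1 * d2 * d3)) :
    ¬ (ℓ : ℤ) ∣ d3 ∧
    (¬ (ℓ : ℤ) ∣ d1 → ¬ (ℓ : ℤ) ∣ d2 ∧ IsSquare ((d3 : ℤ) : ZMod ℓ)) ∧
    ((ℓ : ℤ) ∣ d1 → (ℓ : ℤ) ∣ d2 ∧ IsSquare ((d3 * (e1 - e3) : ℤ) : ZMod ℓ)) := by
  have hlsq : (ℓ : ℤ) ∣ (ℓ : ℤ) ^ 2 := dvd_pow_self _ two_ne_zero
  have he23 : ¬ (ℓ : ℤ) ∣ e3 - e2 := by
    intro hh
    apply he31
    have : e3 - e1 = e3 - e2 - (e1 - e2) := by ring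
    rw [this]; exact dvd_sub hh he12
  have hsq2 : IsSquare (d2 * d3 * d1) := by convert hsq using 1; ring
  have hsq3 : IsSquare (d3 * d1 * d2) := by convert hsq using 1; ring
  have key : ¬ (ℓ : ℤ) ∣ d3 := by
    intro k
    by_cases k1 : (ℓ : ℤ) ∣ d1
    · exact mult_aux h he31 hd1 hd3 k k1 (not_dvd_third hsq3 k hd3 k1 hd1 hd2)
    · exact mult_aux h.swap he23 hd2 hd3 k (dvd_third hsq3 k hd3 k1) k1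
  refine ⟨key, ?_, ?_⟩
  · intro k1
    have k2 : ¬ (ℓ : ℤ) ∣ d2 := fun k2 => k1 (dvd_third hsq2 k2 hd2 key)
    refine ⟨k2, ?_⟩
    have hz1 : ¬ (ℓ : ℤ) ∣ z1 := by
      intro hz1
      have hz12 : ∀ a : ℤ, (ℓ : ℤ) ^ 2 ∣ a * z1 ^ 2 := sq_dvd_sq_of_dvd hz1
      have hz2 : (ℓ : ℤ) ∣ z2 := by
        apply dvd_z_of_dvd k2
        have : d2 * z2 ^ 2 = -(d1 * z1 ^ 2 - d2 * z2 ^ 2 + (e1 - e2) * w ^ 2) + d1 * z1 ^ 2 +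
          (e1 - e2) * w ^ 2 := by ring
        rw [this]
        exact dvd_add (dvd_add ((dvd_neg).2 (hlsq.trans h.c12)) (hlsq.trans (hz12 _)))
          (Dvd.dvd.mul_right he12 _)
      have hz22 : ∀ a : ℤ, (ℓ : ℤ) ^ 2 ∣ a * z2 ^ 2 := sq_dvd_sq_of_dvd hz2
      have hw : (ℓ : ℤ) ∣ w := by
        apply dvd_z_of_sq_dvd he12'
        have : (e1 - e2) * w ^ 2 = (d1 * z1 ^ 2 - d2 * z2 ^ 2 + (e1 - e2) * w ^ 2) -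
          d1 * z1 ^ 2 + d2 * z2 ^ 2 := by ring
        rw [this]
        exact dvd_add (dvd_sub h.c12 (hz12 _)) (hz22 _)
      have hw2 : ∀ a : ℤ, (ℓ : ℤ) ^ 2 ∣ a * w ^ 2 := sq_dvd_sq_of_dvd hw
      have hz3 : (ℓ : ℤ) ∣ z3 := by
        apply dvd_z_of_dvd key
        have : d3 * z3 ^ 2 = (d3 * z3 ^ 2 - d1 * z1 ^ 2 + (e3 - e1) * w ^ 2) + d1 * z1 ^ 2 -
          (e3 - e1) * w ^ 2 := by ring
        rw [this]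
        exact dvd_sub (dvd_add (hlsq.trans h.rot.rot.c12) (hlsq.trans (hz12 _)))
          (hlsq.trans (hw2 _))
      exact h.prim ⟨hw, hz1, hz2, hz3⟩
    -- in `ZMod ℓ`
    have n1 := zmod_ne k1
    have n2 := zmod_ne k2
    have m1 := zmod_ne hz1
    have hc : ((d1 : ℤ) : ZMod ℓ) * (z1 : ZMod ℓ) ^ 2 = (d2 : ZMod ℓ) * (z2 : ZMod ℓ) ^ 2 := by
      have := zmod_eq_zero (hlsq.trans h.c12)
      have he := zmod_eq_zero he12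
      push_cast at this he
      linear_combination this - he * (w : ZMod ℓ) ^ 2
    obtain ⟨t, ht⟩ := hsq
    have ht' : (d1 : ZMod ℓ) * (d2 : ZMod ℓ) * (d3 : ZMod ℓ) = (t : ZMod ℓ) * t := by
      exact_mod_cast congrArg (Int.cast : ℤ → ZMod ℓ) ht
    have hz2ne : (z2 : ZMod ℓ) ≠ 0 := by
      intro hh
      rw [hh] at hc
      have : ((d1 : ℤ) : ZMod ℓ) * (z1 : ZMod ℓ) ^ 2 = 0 := by rw [hc]; ring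
      exact mul_ne_zero n1 (pow_ne_zero 2 m1) this
    refine ⟨(t : ZMod ℓ) * z1 / (d2 * z2), ?_⟩
    field_simp
    have e1' : (d3 : ZMod ℓ) * ((d1 : ZMod ℓ) * d2) = t ^ 2 := by linear_combination ht'
    -- d3 * d2^2 * z2^2 = t^2 * z1^2
    linear_combination (-(d3 : ZMod ℓ) * d2) * hc + (z1 : ZMod ℓ) ^ 2 * e1'
  · intro k1
    have k2 : (ℓ : ℤ) ∣ d2 := by
      by_contra k2
      exact key (dvd_third hsq k1 hd1 k2)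
    refine ⟨k2, ?_⟩
    have hw : ¬ (ℓ : ℤ) ∣ w := by
      intro hw
      have hw2 : ∀ a : ℤ, (ℓ : ℤ) ^ 2 ∣ a * w ^ 2 := sq_dvd_sq_of_dvd hw
      have hz3 : (ℓ : ℤ) ∣ z3 := by
        apply dvd_z_of_dvd key
        have : d3 * z3 ^ 2 = (d3 * z3 ^ 2 - d1 * z1 ^ 2 + (e3 - e1) * w ^ 2) + d1 * z1 ^ 2 -
          (e3 - e1) * w ^ 2 := by ring
        rw [this]
        exact dvd_sub (dvd_add (hlsq.trans h.rot.rot.c12) (Dvd.dvd.mul_right k1 _))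
          (hlsq.trans (hw2 _))
      have hz32 : ∀ a : ℤ, (ℓ : ℤ) ^ 2 ∣ a * z3 ^ 2 := sq_dvd_sq_of_dvd hz3
      have hz1 : (ℓ : ℤ) ∣ z1 := by
        apply dvd_z_of_sq_dvd hd1
        have : d1 * z1 ^ 2 = -(d3 * z3 ^ 2 - d1 * z1 ^ 2 + (e3 - e1) * w ^ 2) + d3 * z3 ^ 2 +
          (e3 - e1) * w ^ 2 := by ring
        rw [this]
        exact dvd_add (dvd_add ((dvd_neg).2 h.rot.rot.c12) (hz32 _)) (hw2 _)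
      have hz2 : (ℓ : ℤ) ∣ z2 := by
        apply dvd_z_of_sq_dvd hd2
        have : d2 * z2 ^ 2 = (d2 * z2 ^ 2 - d3 * z3 ^ 2 + (e2 - e3) * w ^ 2) + d3 * z3 ^ 2 -
          (e2 - e3) * w ^ 2 := by ring
        rw [this]
        exact dvd_sub (dvd_add h.rot.c12 (hz32 _)) (hw2 _)
      exact h.prim ⟨hw, hz1, hz2, hz3⟩
    have mw := zmod_ne hw
    have hc : (d3 : ZMod ℓ) * (z3 : ZMod ℓ) ^ 2 = ((e1 : ZMod ℓ) - e3) * (w : ZMod ℓ) ^ 2 := by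
      have h5 := zmod_eq_zero (hlsq.trans h.rot.rot.c12)
      have h6 := zmod_eq_zero k1
      push_cast at h5 h6
      linear_combination h5 + h6 * (z1 : ZMod ℓ) ^ 2
    refine ⟨(d3 : ZMod ℓ) * z3 / w, ?_⟩
    push_cast
    field_simp
    linear_combination (-(d3 : ZMod ℓ)) * hc

/-- a place where all differences are divisible exactly once (distinct quotients), first case -/
theorem add_place {f1 f2 f3 : ℤ} (h : Prim ℓ (ℓ * f1) (ℓ * f2) (ℓ * f3) d1 d2 d3 X w z1 z2 z3)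
    (hf12 : ¬ (ℓ : ℤ) ∣ f1 - f2)
    (hd1 : ¬ (ℓ : ℤ) ∣ d1) (hd2 : ¬ (ℓ : ℤ) ∣ d2) (hd3 : ¬ (ℓ : ℤ) ∣ d3)
    (hsq : IsSquare (d1 * d2 * d3)) :
    IsSquare ((d1 : ℤ) : ZMod ℓ) ∧ IsSquare ((d2 : ℤ) : ZMod ℓ) ∧
      IsSquare ((d3 : ℤ) : ZMod ℓ) := by
  have hlsq : (ℓ : ℤ) ∣ (ℓ : ℤ) ^ 2 := dvd_pow_self _ two_ne_zero
  have hp := pZ (ℓ := ℓ)
  have hX : ¬ (ℓ : ℤ) ∣ X := by
    intro hX
    have hz : ∀ {d f z : ℤ}, ¬ (ℓ : ℤ) ∣ d →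
        (ℓ : ℤ) ^ 2 ∣ d * z ^ 2 - (X - ℓ * f * w ^ 2) → (ℓ : ℤ) ∣ z := by
      intro d f z hd hc
      apply dvd_z_of_dvd hd
      have : d * z ^ 2 = (d * z ^ 2 - (X - ℓ * f * w ^ 2)) + X - ℓ * (f * w ^ 2) := by ring
      rw [this]
      exact dvd_sub (dvd_add (hlsq.trans hc) hX) (Dvd.intro _ rfl)
    have hz1 := hz hd1 h.c1
    have hz2 := hz hd2 h.c2
    have hz3 := hz hd3 h.c3
    have hw : (ℓ : ℤ) ∣ w := by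
      apply dvd_z_of_dvd hf12
      have h5 : (ℓ : ℤ) ^ 2 ∣ ℓ * ((f1 - f2) * w ^ 2) := by
        have : ℓ * ((f1 - f2) * w ^ 2) = (d1 * z1 ^ 2 - d2 * z2 ^ 2 +
          (ℓ * f1 - ℓ * f2) * w ^ 2) - d1 * z1 ^ 2 + d2 * z2 ^ 2 := by ring
        rw [this]
        exact dvd_add (dvd_sub h.c12 (sq_dvd_sq_of_dvd hz1 _)) (sq_dvd_sq_of_dvd hz2 _)
      rw [pow_two] at h5
      exact Int.dvd_of_mul_dvd_mul_left hp.ne_zero h5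
    exact h.prim ⟨hw, hz1, hz2, hz3⟩
  have nX := zmod_ne hX
  have hcl : ((ℓ : ℕ) : ZMod ℓ) = 0 := ZMod.natCast_self ℓ
  have hc : ∀ {d f z : ℤ}, (ℓ : ℤ) ^ 2 ∣ d * z ^ 2 - (X - ℓ * f * w ^ 2) →
      (d : ZMod ℓ) * (z : ZMod ℓ) ^ 2 = (X : ZMod ℓ) := by
    intro d f z hc
    have h5 := zmod_eq_zero (hlsq.trans hc)
    push_cast at h5
    rw [hcl] at h5
    linear_combination h5
  have c1 := hc h.c1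
  have c2 := hc h.c2
  have c3 := hc h.c3
  obtain ⟨t, ht⟩ := hsq
  have ht' : (d1 : ZMod ℓ) * (d2 : ZMod ℓ) * (d3 : ZMod ℓ) = (t : ZMod ℓ) * t := by
    exact_mod_cast congrArg (Int.cast : ℤ → ZMod ℓ) ht
  have hXsq : (X : ZMod ℓ) = ((t : ZMod ℓ) * z1 * z2 * z3 / X) ^ 2 := by
    rw [div_pow, eq_div_iff (pow_ne_zero 2 nX)]
    have h6 : (X : ZMod ℓ) * X ^ 2 = ((d1 : ZMod ℓ) * z1 ^ 2) * ((d2 : ZMod ℓ) * z2 ^ 2) *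
      ((d3 : ZMod ℓ) * z3 ^ 2) := by rw [c1, c2, c3]; ring
    rw [h6]
    linear_combination ((z1 : ZMod ℓ) * z2 * z3) ^ 2 * ht'
  have fin : ∀ {d z : ℤ}, (d : ZMod ℓ) * (z : ZMod ℓ) ^ 2 = (X : ZMod ℓ) →
      IsSquare ((d : ℤ) : ZMod ℓ) := by
    intro d z hdz
    have hz : (z : ZMod ℓ) ≠ 0 := by
      intro hh
      rw [hh] at hdz
      apply nX
      rw [← hdz]; ring
    refine ⟨(t : ZMod ℓ) * z1 * z2 * z3 / X / z, ?_⟩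
    rw [← pow_two, div_pow, ← hXsq, eq_div_iff (pow_ne_zero 2 hz), hdz]
  exact ⟨fin c1, fin c2, fin c3⟩

/-- a place where all differences are divisible exactly once (distinct quotients), second case -/
theorem add_place' {f1 f2 f3 u2 u3 : ℤ}
    (h : Prim ℓ (ℓ * f1) (ℓ * f2) (ℓ * f3) d1 (ℓ * u2) (ℓ * u3) X w z1 z2 z3)
    (hd1 : ¬ (ℓ : ℤ) ∣ d1) (hu2 : ¬ (ℓ : ℤ) ∣ u2) (hu3 : ¬ (ℓ : ℤ) ∣ u3) :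
    IsSquare ((u2 * (f1 - f2) : ℤ) : ZMod ℓ) ∧ IsSquare ((u3 * (f1 - f3) : ℤ) : ZMod ℓ) := by
  have hlsq : (ℓ : ℤ) ∣ (ℓ : ℤ) ^ 2 := dvd_pow_self _ two_ne_zero
  have hp := pZ (ℓ := ℓ)
  have hX : (ℓ : ℤ) ∣ X := by
    have : X = -(ℓ * u2 * z2 ^ 2 - (X - ℓ * f2 * w ^ 2)) + ℓ * (u2 * z2 ^ 2) +
      ℓ * (f2 * w ^ 2) := by ring
    rw [this]
    exact dvd_add (dvd_add ((dvd_neg).2 (hlsq.trans h.c2)) (Dvd.intro _ rfl)) (Dvd.intro _ rfl)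
  have hz1 : (ℓ : ℤ) ∣ z1 := by
    apply dvd_z_of_dvd hd1
    have : d1 * z1 ^ 2 = (d1 * z1 ^ 2 - (X - ℓ * f1 * w ^ 2)) + X - ℓ * (f1 * w ^ 2) := by ring
    rw [this]
    exact dvd_sub (dvd_add (hlsq.trans h.c1) hX) (Dvd.intro _ rfl)
  have key : ∀ {u f z : ℤ}, (ℓ : ℤ) ^ 2 ∣ d1 * z1 ^ 2 - ℓ * u * z ^ 2 + (ℓ * f1 - ℓ * f) * w ^ 2 →
      (ℓ : ℤ) ∣ u * z ^ 2 - (f1 - f) * w ^ 2 := by
    intro u f z hc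
    have h5 : (ℓ : ℤ) ^ 2 ∣ ℓ * (u * z ^ 2 - (f1 - f) * w ^ 2) := by
      have : ℓ * (u * z ^ 2 - (f1 - f) * w ^ 2) = -(d1 * z1 ^ 2 - ℓ * u * z ^ 2 +
        (ℓ * f1 - ℓ * f) * w ^ 2) + d1 * z1 ^ 2 := by ring
      rw [this]
      exact dvd_add ((dvd_neg).2 hc) (sq_dvd_sq_of_dvd hz1 _)
    rw [pow_two] at h5
    exact Int.dvd_of_mul_dvd_mul_left hp.ne_zero h5
  have k2 := key h.c12
  have h13 : (ℓ : ℤ) ^ 2 ∣ d1 * z1 ^ 2 - ℓ * u3 * z3 ^ 2 + (ℓ * f1 - ℓ * f3) * w ^ 2 := by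
    have : d1 * z1 ^ 2 - ℓ * u3 * z3 ^ 2 + (ℓ * f1 - ℓ * f3) * w ^ 2 =
      -(ℓ * u3 * z3 ^ 2 - d1 * z1 ^ 2 + (ℓ * f3 - ℓ * f1) * w ^ 2) := by ring
    rw [this]; exact (dvd_neg).2 h.rot.rot.c12
  have k3 := key h13
  have hw : ¬ (ℓ : ℤ) ∣ w := by
    intro hw
    have hz2 : (ℓ : ℤ) ∣ z2 := by
      apply dvd_z_of_dvd hu2
      have : u2 * z2 ^ 2 = (u2 * z2 ^ 2 - (f1 - f2) * w ^ 2) + (f1 - f2) * w ^ 2 := by ring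
      rw [this]
      exact dvd_add k2 (hlsq.trans (sq_dvd_sq_of_dvd hw _))
    have hz3 : (ℓ : ℤ) ∣ z3 := by
      apply dvd_z_of_dvd hu3
      have : u3 * z3 ^ 2 = (u3 * z3 ^ 2 - (f1 - f3) * w ^ 2) + (f1 - f3) * w ^ 2 := by ring
      rw [this]
      exact dvd_add k3 (hlsq.trans (sq_dvd_sq_of_dvd hw _))
    exact h.prim ⟨hw, hz1, hz2, hz3⟩
  have mw := zmod_ne hw
  constructor
  · refine ⟨(u2 : ZMod ℓ) * z2 / w, ?_⟩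
    have h5 := zmod_eq_zero k2
    push_cast at h5 ⊢
    field_simp
    linear_combination (-(u2 : ZMod ℓ)) * h5
  · refine ⟨(u3 : ZMod ℓ) * z3 / w, ?_⟩
    have h5 := zmod_eq_zero k3
    push_cast at h5 ⊢
    field_simp
    linear_combination (-(u3 : ZMod ℓ)) * h5

end places

end Pool.Agent.Work.MP_787500_nt
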