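import Mathlib
import Pool.Agent.Work.MP_787500_nt.H9_Local

/-!
# Legendre symbol bookkeeping
-/

set_option autoImplicit false
set_option linter.unusedSectionVars false

namespace Pool.Agent.Work.MP_787500_nt

section leg

variable {ℓ : ℕ} [hℓ : Fact ℓ.Prime]

lemma leg_congr {a b : ℤ} (h : (ℓ : ℤ) ∣ a - b) : legendreSym ℓ a = legendreSym ℓ b := by
  unfold legendreSym
  have : ((a : ℤ) : ZMod ℓ) = ((b : ℤ) : ZMod ℓ) := by
    have h1 := (ZMod.intCast_zmod_eq_zero_iff_dvd (a - b) ℓ).2 h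
    rw [Int.cast_sub, sub_eq_zero] at h1
    exact h1
  rw [this]

lemma leg_sq {a : ℤ} (h : ¬ (ℓ : ℤ) ∣ a) : legendreSym ℓ (a ^ 2) = 1 :=
  legendreSym.sq_one' ℓ (zmod_ne h)

lemma leg_one : legendreSym ℓ 1 = 1 := legendreSym.at_one ℓ

lemma leg_pow (a : ℤ) (k : ℕ) : legendreSym ℓ (a ^ k) = legendreSym ℓ a ^ k := by
  induction k with
  | zero => rw [pow_zero, pow_zero, leg_one]
  | succ k ih => rw [pow_succ, legendreSym.mul, ih, pow_succ]

lemma leg_of_isSquare {a : ℤ} (h : ¬ (ℓ : ℤ) ∣ a) (hs : IsSquare ((a : ℤ) : ZMod ℓ)) :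
    legendreSym ℓ a = 1 := (legendreSym.eq_one_iff ℓ (zmod_ne h)).2 hs

lemma leg_rep {a b p q r : ℤ} (s i j x y z : ℕ) :
    legendreSym ℓ ((-1) ^ s * a ^ i * b ^ j * p ^ x * q ^ y * r ^ z) =
      legendreSym ℓ (-1) ^ s * legendreSym ℓ a ^ i * legendreSym ℓ b ^ j *
      legendreSym ℓ p ^ x * legendreSym ℓ q ^ y * legendreSym ℓ r ^ z := by
  simp only [legendreSym.mul, leg_pow]

lemma even_of_neg_one_pow {k : ℕ} (h : (-1 : ℤ) ^ k = 1) : k % 2 = 0 := by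
  rcases Nat.even_or_odd k with hk | hk
  · exact Nat.even_iff.1 hk
  · rw [hk.neg_one_pow] at h; norm_num at h

lemma odd_of_neg_one_pow {k : ℕ} (h : (-1 : ℤ) ^ k = -1) : k % 2 = 1 := by
  rcases Nat.even_or_odd k with hk | hk
  · rw [hk.neg_one_pow] at h; norm_num at h
  · exact Nat.odd_iff.1 hk

end leg

end Pool.Agent.Work.MP_787500_nt
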