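import Mathlib
import Pool.Agent.Work.MP_787500_nt.H9_Local
import Pool.Agent.Work.MP_787500_nt.H9_Main

/-!
# Square classes of rationals and reduction to squarefree integers
-/

set_option autoImplicit false
set_option linter.unusedSectionVars false
set_option linter.unusedSimpArgs false

namespace Pool.Agent.Work.MP_787500_nt

/-- every nonzero rational is a squarefree integer times a square -/
theorem exists_squarefree_rep (d : ℚ) (hd : d ≠ 0) :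
    ∃ δ : ℤ, Squarefree δ ∧ ∃ s : ℚ, s ≠ 0 ∧ d = δ * s ^ 2 := by
  have hnum : d.num ≠ 0 := Rat.num_ne_zero.2 hd
  have hden : (d.den : ℤ) ≠ 0 := by exact_mod_cast d.den_ne_zero
  obtain ⟨a, b, hab, ha⟩ := Nat.sq_mul_squarefree (d.num * d.den).natAbs
  have hb : b ≠ 0 := by
    rintro rfl
    have : (d.num * d.den).natAbs = 0 := by rw [← hab]; ring
    rw [Int.natAbs_eq_zero] at this
    exact mul_ne_zero hnum hden this
  refine ⟨(d.num * d.den).sign * a, ?_, (b : ℚ) / d.den, ?_, ?_⟩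
  · rw [← Int.squarefree_natAbs, Int.natAbs_mul, Int.natAbs_sign_of_ne_zero
      (mul_ne_zero hnum hden), one_mul]
    simpa using ha
  · have : (d.den : ℚ) ≠ 0 := by exact_mod_cast d.den_ne_zero
    exact div_ne_zero (by exact_mod_cast hb) this
  · have hden' : (d.den : ℚ) ≠ 0 := by exact_mod_cast d.den_ne_zero
    have h2 : (d.num * d.den : ℤ) = (d.num * d.den).sign * ((d.num * d.den).natAbs : ℤ) :=
      (Int.sign_mul_natAbs _).symm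
    have h3 : ((d.num * d.den).natAbs : ℤ) = (b : ℤ) ^ 2 * a := by
      rw [← hab]; push_cast; ring
    rw [h3] at h2
    generalize (d.num * d.den).sign = σ at h2 ⊢
    have h1 : (d.num : ℚ) * (d.den : ℚ) = (σ : ℚ) * ((b : ℚ) ^ 2 * a) := by
      exact_mod_cast congrArg (Int.cast : ℤ → ℚ) h2
    have h4 : d * (d.den : ℚ) = d.num := Rat.mul_den_eq_num d
    rw [← h4] at h1
    push_cast
    rw [div_pow, mul_div_assoc', eq_div_iff (pow_ne_zero 2 hden')]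
    linear_combination h1

lemma not_sq_dvd_of_squarefree {δ : ℤ} (h : Squarefree δ) (ℓ : ℕ) [hℓ : Fact ℓ.Prime] :
    ¬ (ℓ : ℤ) ^ 2 ∣ δ := by
  intro hh
  rw [pow_two] at hh
  have := h _ hh
  exact (Nat.prime_iff_prime_int.1 hℓ.out).not_isUnit this

/-- changing `d_i` by squares does not change solvability -/
lemma HomSol.congr {K : Type*} [Field K] {e1 e2 e3 d1 d2 d3 c1 c2 c3 s1 s2 s3 : K} {F : Type*}
    [Field F] [Algebra K F] (h : HomSol e1 e2 e3 d1 d2 d3 F)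
    (h1 : d1 = c1 * s1 ^ 2) (h2 : d2 = c2 * s2 ^ 2) (h3 : d3 = c3 * s3 ^ 2) :
    HomSol e1 e2 e3 c1 c2 c3 F := by
  obtain ⟨X, w, z1, z2, z3, h0, g1, g2, g3⟩ := h
  refine ⟨X, w, algebraMap K F s1 * z1, algebraMap K F s2 * z2, algebraMap K F s3 * z3, h0,
    ?_, ?_, ?_⟩
  · rw [← g1, h1, map_mul, map_pow]; ring
  · rw [← g2, h2, map_mul, map_pow]; ring
  · rw [← g3, h3, map_mul, map_pow]; ring

/-- the product of the squarefree parts is a square of an integer -/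
lemma isSquare_int {d1 d2 d3 : ℚ} {c1 c2 c3 : ℤ} {s1 s2 s3 : ℚ} (hsq : IsSquare (d1 * d2 * d3))
    (n1 : s1 ≠ 0) (n2 : s2 ≠ 0) (n3 : s3 ≠ 0)
    (h1 : d1 = c1 * s1 ^ 2) (h2 : d2 = c2 * s2 ^ 2) (h3 : d3 = c3 * s3 ^ 2) :
    IsSquare (c1 * c2 * c3) := by
  rw [← Rat.isSquare_intCast_iff]
  obtain ⟨t, ht⟩ := hsq
  refine ⟨t / (s1 * s2 * s3), ?_⟩
  push_cast
  rw [h1, h2, h3] at ht
  field_simp
  linear_combination ht

/-- peel off a prime from a squarefree integer -/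
lemma peel {δ : ℤ} (h : Squarefree δ) {ℓ : ℕ} (hℓ : ℓ.Prime) :
    ∃ (e : ℕ) (δ' : ℤ), e ≤ 1 ∧ δ = (ℓ : ℤ) ^ e * δ' ∧ Squarefree δ' ∧ ¬ (ℓ : ℤ) ∣ δ' ∧
      (e = 1 ↔ (ℓ : ℤ) ∣ δ) ∧
      (∀ q : ℕ, q.Prime → q ≠ ℓ → ((q : ℤ) ∣ δ' ↔ (q : ℤ) ∣ δ)) := by
  by_cases hd : (ℓ : ℤ) ∣ δ
  · obtain ⟨δ', rfl⟩ := hd
    have hpr := Nat.prime_iff_prime_int.1 hℓ
    refine ⟨1, δ', le_rfl, by rw [pow_one], h.squarefree_of_dvd (dvd_mul_left _ _), ?_, ?_, ?_⟩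
    · rintro ⟨t, rfl⟩
      exact hpr.not_isUnit (h _ ⟨t, by ring⟩)
    · simp
    · intro q hq hne
      have hq' := Nat.prime_iff_prime_int.1 hq
      constructor
      · intro hh; exact Dvd.dvd.mul_left hh _
      · intro hh
        rcases hq'.dvd_or_dvd hh with h1 | h1
        · exact absurd ((Nat.prime_dvd_prime_iff_eq hq hℓ).1 (by exact_mod_cast h1)) hne
        · exact h1
  · exact ⟨0, δ, zero_le_one, by simp, h, hd, by simp [hd], fun q _ _ => Iff.rfl⟩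

lemma sign_of_no_prime {δ : ℤ} (h : ∀ ℓ : ℕ, ℓ.Prime → ¬ (ℓ : ℤ) ∣ δ) :
    ∃ s : ℕ, s ≤ 1 ∧ δ = (-1) ^ s := by
  have h1 : δ.natAbs = 1 := by
    by_contra hne
    obtain ⟨ℓ, hℓ, hd⟩ := Nat.exists_prime_and_dvd hne
    exact h ℓ hℓ (Int.natCast_dvd.2 hd)
  rcases Int.natAbs_eq δ with h2 | h2
  · exact ⟨0, by norm_num, by rw [h2, h1]; norm_num⟩
  · exact ⟨1, by norm_num, by rw [h2, h1]; norm_num⟩

/-- squarefree integers supported on five given primes -/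
theorem squarefree_rep5 {δ : ℤ} (hδ : Squarefree δ) {a b p q r : ℕ} (hab : a ≠ b)
    (hap : a ≠ p) (haq : a ≠ q) (har : a ≠ r) (hbp : b ≠ p) (hbq : b ≠ q) (hbr : b ≠ r)
    (hpq : p ≠ q) (hpr : p ≠ r) (hqr : q ≠ r)
    (pa : a.Prime) (pb : b.Prime) (pp : p.Prime) (pq : q.Prime) (pr : r.Prime)
    (hsupp : ∀ ℓ : ℕ, ℓ.Prime → (ℓ : ℤ) ∣ δ → ℓ = a ∨ ℓ = b ∨ ℓ = p ∨ ℓ = q ∨ ℓ = r) :
    ∃ s i j x y z : ℕ, s ≤ 1 ∧ i ≤ 1 ∧ j ≤ 1 ∧ x ≤ 1 ∧ y ≤ 1 ∧ z ≤ 1 ∧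
      (i = 1 ↔ (a : ℤ) ∣ δ) ∧ (j = 1 ↔ (b : ℤ) ∣ δ) ∧ (x = 1 ↔ (p : ℤ) ∣ δ) ∧
      (y = 1 ↔ (q : ℤ) ∣ δ) ∧ (z = 1 ↔ (r : ℤ) ∣ δ) ∧
      δ = (-1) ^ s * a ^ i * b ^ j * p ^ x * q ^ y * r ^ z := by
  obtain ⟨i, δ1, i1, i2, i3, i4, i5, i6⟩ := peel hδ pa
  obtain ⟨j, δ2, j1, j2, j3, j4, j5, j6⟩ := peel i3 pb
  obtain ⟨x, δ3, x1, x2, x3, x4, x5, x6⟩ := peel j3 pp
  obtain ⟨y, δ4, y1, y2, y3, y4, y5, y6⟩ := peel x3 pq
  obtain ⟨z, δ5, z1, z2, z3, z4, z5, z6⟩ := peel y3 pr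
  obtain ⟨s, s1, s2⟩ := sign_of_no_prime (δ := δ5) (by
    intro ℓ hℓ hd
    have h5 : ℓ ≠ r := by rintro rfl; exact z4 hd
    have hd4 := (z6 ℓ hℓ h5).1 hd
    have h4 : ℓ ≠ q := by rintro rfl; exact y4 hd4
    have hd3 := (y6 ℓ hℓ h4).1 hd4
    have h3 : ℓ ≠ p := by rintro rfl; exact x4 hd3
    have hd2 := (x6 ℓ hℓ h3).1 hd3
    have h2 : ℓ ≠ b := by rintro rfl; exact j4 hd2
    have hd1 := (j6 ℓ hℓ h2).1 hd2
    have h1 : ℓ ≠ a := by rintro rfl; exact i4 hd1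
    have hd0 := (i6 ℓ hℓ h1).1 hd1
    rcases hsupp ℓ hℓ hd0 with h | h | h | h | h
    · exact h1 h
    · exact h2 h
    · exact h3 h
    · exact h4 h
    · exact h5 h)
  refine ⟨s, i, j, x, y, z, s1, i1, j1, x1, y1, z1, i5, ?_, ?_, ?_, ?_, ?_⟩
  · rw [j5, i6 b pb hab.symm]
  · rw [x5, j6 p pp hbp.symm, i6 p pp hap.symm]
  · rw [y5, x6 q pq hpq.symm, j6 q pq hbq.symm, i6 q pq haq.symm]
  · rw [z5, y6 r pr hqr.symm, x6 r pr hpr.symm, j6 r pr hbr.symm, i6 r pr har.symm]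
  · rw [i2, j2, x2, y2, z2, s2]; ring

end Pool.Agent.Work.MP_787500_nt
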