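import Mathlib
import Pool.Agent.Work.MP_787500_nt.H9_Local
import Pool.Agent.Work.MP_787500_nt.H9_Rep
import Pool.Agent.Work.MP_787500_nt.H9_Leg
import Pool.Agent.Work.MP_787500_nt.H9_Main

/-!
# A family of curves over the rationals: y^2 = x (x - 6 p) (x - 12 r)
-/

set_option autoImplicit false
set_option linter.unusedSectionVars false
set_option linter.unusedVariables false

namespace Pool.Agent.Work.MP_787500_nt

/-- The parameters: `m` is odd, `p = n^2 - 6 m^2`, `r = n^2 - 12 m^2` and `q = n^2 - 18 m^2` are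
prime numbers. -/
structure ParA (m n : ℤ) (p q r : ℕ) : Prop where
  hm : Odd m
  pp : p.Prime
  pq : q.Prime
  pr : r.Prime
  ep : (p : ℤ) = n ^ 2 - 6 * m ^ 2
  er : (r : ℤ) = n ^ 2 - 12 * m ^ 2
  eq : (q : ℤ) = n ^ 2 - 18 * m ^ 2

namespace ParA

variable {m n : ℤ} {p q r : ℕ}

lemma sq_mod8 {k : ℤ} (hk : Odd k) : k ^ 2 % 8 = 1 := by
  obtain ⟨t, rfl⟩ := hk
  have h1 : Even (t * (t + 1)) := Int.even_mul_succ_self t
  obtain ⟨s, hs⟩ := h1
  have : (2 * t + 1) ^ 2 = 8 * s + 1 := by linear_combination 4 * hs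
  omega

lemma n_odd (h : ParA m n p q r) : Odd n := by
  by_contra hn
  rw [Int.not_odd_iff_even] at hn
  obtain ⟨k, hk⟩ := hn
  have h1 : (2 : ℤ) ∣ (q : ℤ) := ⟨2 * k ^ 2 - 9 * m ^ 2, by rw [h.eq, hk]; ring⟩
  have h2 : (2 : ℤ) ∣ (p : ℤ) := ⟨2 * k ^ 2 - 3 * m ^ 2, by rw [h.ep, hk]; ring⟩
  have h3 : 2 = q := (Nat.prime_dvd_prime_iff_eq Nat.prime_two h.pq).1 (by exact_mod_cast h1)
  have h4 : 2 = p := (Nat.prime_dvd_prime_iff_eq Nat.prime_two h.pp).1 (by exact_mod_cast h2)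
  have h5 : (m ^ 2) = 0 := by
    have e1 := h.ep
    have e2 := h.eq
    rw [← h3] at e2
    rw [← h4] at e1
    push_cast at e1 e2
    linarith
  have h6 := sq_mod8 h.hm
  rw [h5] at h6
  norm_num at h6

lemma p_mod8 (h : ParA m n p q r) : p % 8 = 3 := by
  have h1 := sq_mod8 h.hm
  have h2 := sq_mod8 h.n_odd
  have h3 := h.ep
  omega

lemma r_mod8 (h : ParA m n p q r) : r % 8 = 5 := by
  have h1 := sq_mod8 h.hm
  have h2 := sq_mod8 h.n_odd
  have h3 := h.er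
  omega

lemma q_mod8 (h : ParA m n p q r) : q % 8 = 7 := by
  have h1 := sq_mod8 h.hm
  have h2 := sq_mod8 h.n_odd
  have h3 := h.eq
  omega

lemma m_sq_pos (h : ParA m n p q r) : 1 ≤ m ^ 2 := by
  have h1 := sq_mod8 h.hm
  have : 0 ≤ m ^ 2 := sq_nonneg m
  omega

lemma lt1 (h : ParA m n p q r) : q < r := by
  have h1 := h.m_sq_pos
  have h2 := h.er
  have h3 := h.eq
  have : (q : ℤ) < r := by linarith
  exact_mod_cast this

lemma lt2 (h : ParA m n p q r) : r < p := by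
  have h1 := h.m_sq_pos
  have h2 := h.er
  have h3 := h.ep
  have : (r : ℤ) < p := by linarith
  exact_mod_cast this

lemma n_mod3 (h : ParA m n p q r) : n ^ 2 % 3 = 1 := by
  by_contra hne
  have h0 : (3 : ℤ) ∣ n := by
    by_contra h3
    apply hne
    have : n % 3 = 1 ∨ n % 3 = 2 := by omega
    rcases this with h4 | h4
    · rw [pow_two, Int.mul_emod, h4]; norm_num
    · rw [pow_two, Int.mul_emod, h4]; norm_num
  obtain ⟨k, hk⟩ := h0
  have h1 : (3 : ℤ) ∣ (q : ℤ) := ⟨3 * k ^ 2 - 6 * m ^ 2, by rw [h.eq, hk]; ring⟩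
  have h2 : (3 : ℤ) ∣ (p : ℤ) := ⟨3 * k ^ 2 - 2 * m ^ 2, by rw [h.ep, hk]; ring⟩
  have h3 : 3 = q := (Nat.prime_dvd_prime_iff_eq Nat.prime_three h.pq).1 (by exact_mod_cast h1)
  have h4 : 3 = p := (Nat.prime_dvd_prime_iff_eq Nat.prime_three h.pp).1 (by exact_mod_cast h2)
  have h5 := h.lt1
  have h6 := h.lt2
  omega

lemma p_mod3 (h : ParA m n p q r) : p % 3 = 1 := by
  have h1 := h.n_mod3
  have h3 := h.ep
  omega

lemma q_mod3 (h : ParA m n p q r) : q % 3 = 1 := by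
  have h1 := h.n_mod3
  have h3 := h.eq
  omega

lemma r_mod3 (h : ParA m n p q r) : r % 3 = 1 := by
  have h1 := h.n_mod3
  have h3 := h.er
  omega

lemma q_ge (h : ParA m n p q r) : 7 ≤ q := by
  have := h.q_mod8
  omega

/-- a prime of the form `n^2 - c` with `c = k m^2` does not divide `m` -/
lemma not_dvd_m {ℓ : ℕ} (hℓ : ℓ.Prime) {k : ℤ} (e : (ℓ : ℤ) = n ^ 2 - k * m ^ 2) :
    ¬ (ℓ : ℤ) ∣ m := by
  rintro ⟨t, ht⟩
  have hp := Nat.prime_iff_prime_int.1 hℓ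
  have h1 : (ℓ : ℤ) ∣ n ^ 2 := ⟨1 + k * ℓ * t ^ 2, by
    have : n ^ 2 = ℓ + k * m ^ 2 := by rw [e]; ring
    rw [this, ht]; ring⟩
  obtain ⟨s, hs⟩ := hp.dvd_of_dvd_pow h1
  have h2 : (ℓ : ℤ) * 1 = ℓ * (ℓ * (s ^ 2 - k * t ^ 2)) := by
    rw [hs, ht] at e
    linear_combination e
  have h3 := mul_left_cancel₀ hp.ne_zero h2
  exact hp.not_isUnit (IsUnit.of_mul_eq_one _ h3.symm)

lemma pm (h : ParA m n p q r) : ¬ (p : ℤ) ∣ m := not_dvd_m h.pp h.ep
lemma qm (h : ParA m n p q r) : ¬ (q : ℤ) ∣ m := not_dvd_m h.pq h.eq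
lemma rm (h : ParA m n p q r) : ¬ (r : ℤ) ∣ m := not_dvd_m h.pr h.er

/-- a prime `ℓ ≥ 5` does not divide `c m`, if `ℓ ∤ m` and `c` is `2` or `3` ... -/
lemma not_dvd_small {ℓ : ℕ} (hℓ : ℓ.Prime) (h5 : 5 ≤ ℓ) :
    ¬ (ℓ : ℤ) ∣ 2 ∧ ¬ (ℓ : ℤ) ∣ 3 := by
  constructor
  · intro hh
    have : ℓ ∣ 2 := by exact_mod_cast hh
    have := Nat.le_of_dvd (by norm_num) this
    omega
  · intro hh
    have : ℓ ∣ 3 := by exact_mod_cast hh
    have := Nat.le_of_dvd (by norm_num) this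
    omega

lemma not_dvd_mul {ℓ : ℕ} (hℓ : ℓ.Prime) {a b : ℤ} (ha : ¬ (ℓ : ℤ) ∣ a) (hb : ¬ (ℓ : ℤ) ∣ b) :
    ¬ (ℓ : ℤ) ∣ a * b := by
  intro hh
  rcases (Nat.prime_iff_prime_int.1 hℓ).dvd_or_dvd hh with h | h
  · exact ha h
  · exact hb h

lemma not_dvd_prime {ℓ k : ℕ} (hℓ : ℓ.Prime) (hk : k.Prime) (hne : ℓ ≠ k) :
    ¬ (ℓ : ℤ) ∣ (k : ℤ) := by
  intro hh
  exact hne ((Nat.prime_dvd_prime_iff_eq hℓ hk).1 (by exact_mod_cast hh))

/-- the symbol of three at a prime `ℓ = 1 mod 3` -/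
lemma leg_three {ℓ : ℕ} [Fact ℓ.Prime] (h3 : ℓ % 3 = 1) (h2 : ℓ ≠ 2) :
    legendreSym ℓ 3 = (-1) ^ (ℓ / 2) := by
  haveI : Fact (Nat.Prime 3) := ⟨Nat.prime_three⟩
  have hne : (3 : ℕ) ≠ ℓ := by rintro rfl; norm_num at h3
  have h := legendreSym.quadratic_reciprocity' (p := 3) (q := ℓ) (by norm_num) h2
  have h' : legendreSym 3 (ℓ : ℤ) = 1 := by
    rw [leg_congr (ℓ := 3) (b := 1) (by omega), leg_one]
  rw [h'] at h
  simpa using h

end ParA

section symbols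

variable {m n : ℤ} {p q r : ℕ}

/-- symbols at `p` -/
lemma ParA.leg_p (h : ParA m n p q r) [Fact p.Prime] :
    legendreSym p (-1) = -1 ∧ legendreSym p 2 = -1 ∧ legendreSym p 3 = -1 ∧
      legendreSym p q = 1 ∧ legendreSym p r = -1 := by
  have h8 := h.p_mod8
  have h2 : p ≠ 2 := by omega
  have a1 : legendreSym p (-1) = -1 := by
    rw [legendreSym.at_neg_one h2, ZMod.χ₄_nat_three_mod_four (by omega)]
  have a2 : legendreSym p 2 = -1 := by
    rw [legendreSym.at_two h2, ZMod.χ₈_nat_eq_if_mod_eight]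
    simp [h8]
    omega
  have a3 : legendreSym p 3 = -1 := by
    rw [ParA.leg_three h.p_mod3 h2]
    exact Odd.neg_one_pow (Nat.odd_iff.2 (by omega))
  obtain ⟨n2, n3⟩ := ParA.not_dvd_small h.pp (by have := h.lt1; have := h.lt2; have := h.q_ge; omega)
  refine ⟨a1, a2, a3, ?_, ?_⟩
  · rw [leg_congr (b := -1 * 3 * (2 * m) ^ 2) ⟨1, by rw [h.eq, h.ep]; ring⟩, legendreSym.mul,
      legendreSym.mul, a1, a3, leg_sq (ParA.not_dvd_mul h.pp n2 h.pm)]
    norm_num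
  · rw [leg_congr (b := -1 * 2 * 3 * m ^ 2) ⟨1, by rw [h.er, h.ep]; ring⟩, legendreSym.mul,
      legendreSym.mul, legendreSym.mul, a1, a2, a3, leg_sq h.pm]
    norm_num

/-- symbols at `q` -/
lemma ParA.leg_q (h : ParA m n p q r) [Fact q.Prime] :
    legendreSym q (-1) = -1 ∧ legendreSym q 2 = 1 ∧ legendreSym q 3 = -1 ∧
      legendreSym q p = -1 ∧ legendreSym q r = -1 := by
  have h8 := h.q_mod8
  have h2 : q ≠ 2 := by omega
  have a1 : legendreSym q (-1) = -1 := by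
    rw [legendreSym.at_neg_one h2, ZMod.χ₄_nat_three_mod_four (by omega)]
  have a2 : legendreSym q 2 = 1 := by
    rw [legendreSym.at_two h2, ZMod.χ₈_nat_eq_if_mod_eight]
    simp [h8]
    omega
  have a3 : legendreSym q 3 = -1 := by
    rw [ParA.leg_three h.q_mod3 h2]
    exact Odd.neg_one_pow (Nat.odd_iff.2 (by omega))
  obtain ⟨n2, n3⟩ := ParA.not_dvd_small h.pq (by have := h.q_ge; omega)
  refine ⟨a1, a2, a3, ?_, ?_⟩
  · rw [leg_congr (b := 3 * (2 * m) ^ 2) ⟨1, by rw [h.eq, h.ep]; ring⟩, legendreSym.mul,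
      a3, leg_sq (ParA.not_dvd_mul h.pq n2 h.qm)]
    norm_num
  · rw [leg_congr (b := 2 * 3 * m ^ 2) ⟨1, by rw [h.er, h.eq]; ring⟩, legendreSym.mul,
      legendreSym.mul, a2, a3, leg_sq h.qm]
    norm_num

/-- symbols at `r` -/
lemma ParA.leg_r (h : ParA m n p q r) [Fact r.Prime] :
    legendreSym r (-1) = 1 ∧ legendreSym r 2 = -1 ∧ legendreSym r 3 = 1 ∧
      legendreSym r p = -1 ∧ legendreSym r q = -1 := by
  have h8 := h.r_mod8
  have h2 : r ≠ 2 := by omega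
  have a1 : legendreSym r (-1) = 1 := by
    rw [legendreSym.at_neg_one h2, ZMod.χ₄_nat_one_mod_four (by omega)]
  have a2 : legendreSym r 2 = -1 := by
    rw [legendreSym.at_two h2, ZMod.χ₈_nat_eq_if_mod_eight]
    simp [h8]
    omega
  have a3 : legendreSym r 3 = 1 := by
    rw [ParA.leg_three h.r_mod3 h2]
    exact Even.neg_one_pow (Nat.even_iff.2 (by omega))
  refine ⟨a1, a2, a3, ?_, ?_⟩
  · rw [leg_congr (b := 2 * 3 * m ^ 2) ⟨1, by rw [h.er, h.ep]; ring⟩, legendreSym.mul,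
      legendreSym.mul, a2, a3, leg_sq h.rm]
    norm_num
  · rw [leg_congr (b := -1 * 2 * 3 * m ^ 2) ⟨1, by rw [h.er, h.eq]; ring⟩, legendreSym.mul,
      legendreSym.mul, legendreSym.mul, a1, a2, a3, leg_sq h.rm]
    norm_num

end symbols

end Pool.Agent.Work.MP_787500_nt
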