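import Mathlib
import Pool.Agent.Work.MP_787500_nt.H9_FamA1

/-!
# The curve y^2 = x (x - 6 p) (x - 12 r): local conditions
-/

set_option autoImplicit false
set_option linter.unusedSectionVars false
set_option linter.unusedVariables false
set_option linter.unusedSimpArgs false

namespace Pool.Agent.Work.MP_787500_nt

lemma bit_zero {ℓ : ℕ} {δ : ℤ} {x : ℕ} (hx : x ≤ 1) (hb : x = 1 ↔ (ℓ : ℤ) ∣ δ)
    (h : ¬ (ℓ : ℤ) ∣ δ) : x = 0 := by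
  have : x ≠ 1 := fun hh => h (hb.1 hh)
  omega

/-- parity of the valuations -/
lemma bit_parity {ℓ : ℕ} [Fact ℓ.Prime] {δ1 δ2 δ3 : ℤ} {x1 x2 x3 : ℕ}
    (h1 : x1 ≤ 1) (h2 : x2 ≤ 1) (h3 : x3 ≤ 1)
    (b1 : x1 = 1 ↔ (ℓ : ℤ) ∣ δ1) (b2 : x2 = 1 ↔ (ℓ : ℤ) ∣ δ2) (b3 : x3 = 1 ↔ (ℓ : ℤ) ∣ δ3)
    (n1 : ¬ (ℓ : ℤ) ^ 2 ∣ δ1) (n2 : ¬ (ℓ : ℤ) ^ 2 ∣ δ2) (n3 : ¬ (ℓ : ℤ) ^ 2 ∣ δ3)
    (hsq : IsSquare (δ1 * δ2 * δ3)) : (x1 + x2 + x3) % 2 = 0 := by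
  have hsq2 : IsSquare (δ2 * δ3 * δ1) := by convert hsq using 1; ring
  have hsq3 : IsSquare (δ3 * δ1 * δ2) := by convert hsq using 1; ring
  by_cases c1 : (ℓ : ℤ) ∣ δ1
  · by_cases c2 : (ℓ : ℤ) ∣ δ2
    · have c3 := not_dvd_third hsq c1 n1 c2 n2 n3
      have := b1.2 c1
      have := b2.2 c2
      have := bit_zero h3 b3 c3
      omega
    · have c3 := dvd_third hsq c1 n1 c2
      have := b1.2 c1
      have := b3.2 c3
      have := bit_zero h2 b2 c2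
      omega
  · by_cases c2 : (ℓ : ℤ) ∣ δ2
    · have c3 : (ℓ : ℤ) ∣ δ3 := by
        have hsq' : IsSquare (δ2 * δ1 * δ3) := by convert hsq using 1; ring
        exact dvd_third hsq' c2 n2 c1
      have := b2.2 c2
      have := b3.2 c3
      have := bit_zero h1 b1 c1
      omega
    · have c3 : ¬ (ℓ : ℤ) ∣ δ3 := fun c3 => c1 (by
        have hsq' : IsSquare (δ3 * δ2 * δ1) := by convert hsq using 1; ring
        exact dvd_third hsq' c3 n3 c2)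
      have := bit_zero h1 b1 c1
      have := bit_zero h2 b2 c2
      have := bit_zero h3 b3 c3
      omega

lemma sign_parity {δ1 δ2 δ3 : ℤ} {s1 s2 s3 : ℕ} {u1 u2 u3 : ℤ} (hu1 : 0 < u1) (hu2 : 0 < u2)
    (hu3 : 0 < u3) (e1 : δ1 = (-1) ^ s1 * u1) (e2 : δ2 = (-1) ^ s2 * u2)
    (e3 : δ3 = (-1) ^ s3 * u3) (hsq : IsSquare (δ1 * δ2 * δ3)) : (s1 + s2 + s3) % 2 = 0 := by
  have h0 := hsq.nonneg
  rw [e1, e2, e3] at h0
  have h1 : (-1 : ℤ) ^ s1 * u1 * ((-1) ^ s2 * u2) * ((-1) ^ s3 * u3) =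
      (-1) ^ (s1 + s2 + s3) * (u1 * u2 * u3) := by ring
  rw [h1] at h0
  have hpos : 0 < u1 * u2 * u3 := by positivity
  rcases Nat.even_or_odd (s1 + s2 + s3) with hk | hk
  · exact Nat.even_iff.1 hk
  · rw [hk.neg_one_pow] at h0
    linarith

section places

variable {m n : ℤ} {p q r : ℕ}

lemma place_p (h : ParA m n p q r) [Fact p.Prime] {δ1 δ2 δ3 X w z1 z2 z3 : ℤ}
    (hP : Prim p 0 (6 * p) (12 * r) δ1 δ2 δ3 X w z1 z2 z3)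
    (n1 : ¬ (p : ℤ) ^ 2 ∣ δ1) (n2 : ¬ (p : ℤ) ^ 2 ∣ δ2) (n3 : ¬ (p : ℤ) ^ 2 ∣ δ3)
    (hsq : IsSquare (δ1 * δ2 * δ3)) {s3 a3 b3 x3 y3 z3' x1 x2 : ℕ}
    (h1 : x1 ≤ 1) (h2 : x2 ≤ 1) (h3 : x3 ≤ 1)
    (b1 : x1 = 1 ↔ (p : ℤ) ∣ δ1) (b2 : x2 = 1 ↔ (p : ℤ) ∣ δ2) (bb3 : x3 = 1 ↔ (p : ℤ) ∣ δ3)
    (e3 : δ3 = (-1) ^ s3 * (2 : ℕ) ^ a3 * (3 : ℕ) ^ b3 * p ^ x3 * q ^ y3 * r ^ z3') :
    x3 = 0 ∧ x1 = x2 ∧ (s3 + a3 + b3 + z3' + x1) % 2 = 0 := by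
  have hlt1 := h.lt1
  have hlt2 := h.lt2
  have hq7 := h.q_ge
  obtain ⟨d2, d3⟩ := ParA.not_dvd_small h.pp (by omega)
  have dr := ParA.not_dvd_prime h.pp h.pr (by omega)
  have hne := (Nat.prime_iff_prime_int.1 h.pp).ne_zero
  have m12 : ¬ (p : ℤ) ∣ 12 * r := by
    have := ParA.not_dvd_mul h.pp (ParA.not_dvd_mul h.pp (ParA.not_dvd_mul h.pp d2 d2) d3) dr
    convert this using 2; ring
  have m6 : ¬ (p : ℤ) ∣ 6 := by
    rw [show (6 : ℤ) = 2 * 3 by norm_num]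
    exact ParA.not_dvd_mul h.pp d2 d3
  obtain ⟨k1, k2, k3⟩ := mult_place hP ⟨-6, by ring⟩ (by
    rintro ⟨t, ht⟩
    apply m6
    refine ⟨-t, ?_⟩
    apply mul_left_cancel₀ hne
    linear_combination (-1) * ht) (by rwa [sub_zero]) n1 n2 n3 hsq
  obtain ⟨l1, l2, l3, lq, lr⟩ := h.leg_p
  have hx3 : x3 = 0 := bit_zero h3 bb3 k1
  have hleg : legendreSym p δ3 = (-1) ^ (s3 + a3 + b3 + z3') := by
    rw [e3, leg_rep, hx3]
    push_cast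
    rw [l1, l2, l3, lq, lr, one_pow, pow_zero]
    ring
  refine ⟨hx3, ?_, ?_⟩
  · by_cases c1 : (p : ℤ) ∣ δ1
    · rw [b1.2 c1, b2.2 (k3 c1).1]
    · rw [bit_zero h1 b1 c1, bit_zero h2 b2 (k2 c1).1]
  · by_cases c1 : (p : ℤ) ∣ δ1
    · obtain ⟨-, k5⟩ := k3 c1
      have h5 := leg_of_isSquare (ParA.not_dvd_mul h.pp k1 (by
        intro hh; apply m12; rw [zero_sub, dvd_neg] at hh; exact hh)) k5
      have h6 : legendreSym p (0 - 12 * r) = -1 := by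
        have : (0 - 12 * r : ℤ) = -1 * 2 * 2 * 3 * r := by ring
        rw [this]
        simp only [legendreSym.mul, l1, l2, l3, lr]
        norm_num
      rw [legendreSym.mul, h6, hleg] at h5
      have h7 : (-1 : ℤ) ^ (s3 + a3 + b3 + z3') = -1 := by linarith
      have h8 := odd_of_neg_one_pow h7
      have := b1.2 c1
      omega
    · obtain ⟨-, k5⟩ := k2 c1
      have h5 := leg_of_isSquare k1 k5
      rw [hleg] at h5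
      have := even_of_neg_one_pow h5
      have := bit_zero h1 b1 c1
      omega

lemma place_q (h : ParA m n p q r) [Fact q.Prime] {δ1 δ2 δ3 X w z1 z2 z3 : ℤ}
    (hP : Prim q 0 (6 * p) (12 * r) δ1 δ2 δ3 X w z1 z2 z3)
    (n1 : ¬ (q : ℤ) ^ 2 ∣ δ1) (n2 : ¬ (q : ℤ) ^ 2 ∣ δ2) (n3 : ¬ (q : ℤ) ^ 2 ∣ δ3)
    (hsq : IsSquare (δ1 * δ2 * δ3)) {s1 a1 b1 x1 y1 z1' y2 y3 : ℕ}
    (h1 : y1 ≤ 1) (h2 : y2 ≤ 1) (h3 : y3 ≤ 1)
    (bb1 : y1 = 1 ↔ (q : ℤ) ∣ δ1) (b2 : y2 = 1 ↔ (q : ℤ) ∣ δ2) (b3 : y3 = 1 ↔ (q : ℤ) ∣ δ3)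
    (e1 : δ1 = (-1) ^ s1 * (2 : ℕ) ^ a1 * (3 : ℕ) ^ b1 * p ^ x1 * q ^ y1 * r ^ z1') :
    y1 = 0 ∧ y2 = y3 ∧ (s1 + b1 + x1 + z1') % 2 = 0 := by
  have hlt1 := h.lt1
  have hlt2 := h.lt2
  have hq7 := h.q_ge
  obtain ⟨d2, d3⟩ := ParA.not_dvd_small h.pq (by omega)
  have dp := ParA.not_dvd_prime h.pq h.pp (by omega)
  have hne := (Nat.prime_iff_prime_int.1 h.pq).ne_zero
  have m6 : ¬ (q : ℤ) ∣ 6 := by
    rw [show (6 : ℤ) = 2 * 3 by norm_num]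
    exact ParA.not_dvd_mul h.pq d2 d3
  have hdiff : (6 * p - 12 * r : ℤ) = -6 * q := by rw [h.ep, h.er, h.eq]; ring
  have hsq2 : IsSquare (δ2 * δ3 * δ1) := by convert hsq using 1; ring
  have m6p : ¬ (q : ℤ) ∣ 6 * p := ParA.not_dvd_mul h.pq m6 dp
  obtain ⟨k1, k2, k3⟩ := mult_place hP.rot (by rw [hdiff]; exact ⟨-6, by ring⟩) (by
    rw [hdiff]
    rintro ⟨t, ht⟩
    apply m6
    refine ⟨-t, ?_⟩
    apply mul_left_cancel₀ hne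
    linear_combination (-1) * ht) (by
      intro hh; apply m6p; rw [zero_sub, dvd_neg] at hh; exact hh) n2 n3 n1 hsq2
  obtain ⟨l1, l2, l3, lp, lr⟩ := h.leg_q
  have hy1 : y1 = 0 := bit_zero h1 bb1 k1
  have hleg : legendreSym q δ1 = (-1) ^ (s1 + b1 + x1 + z1') := by
    rw [e1, leg_rep, hy1]
    push_cast
    rw [l1, l2, l3, lp, lr, one_pow, pow_zero]
    ring
  refine ⟨hy1, ?_, ?_⟩
  · by_cases c1 : (q : ℤ) ∣ δ2
    · rw [b2.2 c1, b3.2 (k3 c1).1]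
    · rw [bit_zero h2 b2 c1, bit_zero h3 b3 (k2 c1).1]
  · by_cases c1 : (q : ℤ) ∣ δ2
    · obtain ⟨-, k5⟩ := k3 c1
      have h5 := leg_of_isSquare (ParA.not_dvd_mul h.pq k1 (by rwa [sub_zero])) k5
      have h6 : legendreSym q (6 * p - 0) = 1 := by
        have : (6 * p - 0 : ℤ) = 2 * 3 * p := by ring
        rw [this]
        simp only [legendreSym.mul, l1, l2, l3, lp]
        norm_num
      rw [legendreSym.mul, h6, hleg, mul_one] at h5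
      have h8 := even_of_neg_one_pow h5
      omega
    · obtain ⟨-, k5⟩ := k2 c1
      have h5 := leg_of_isSquare k1 k5
      rw [hleg] at h5
      have := even_of_neg_one_pow h5
      omega

lemma place_r (h : ParA m n p q r) [Fact r.Prime] {δ1 δ2 δ3 X w z1 z2 z3 : ℤ}
    (hP : Prim r 0 (6 * p) (12 * r) δ1 δ2 δ3 X w z1 z2 z3)
    (n1 : ¬ (r : ℤ) ^ 2 ∣ δ1) (n2 : ¬ (r : ℤ) ^ 2 ∣ δ2) (n3 : ¬ (r : ℤ) ^ 2 ∣ δ3)
    (hsq : IsSquare (δ1 * δ2 * δ3)) {s2 a2 b2 x2 y2 z2' z1' z3' : ℕ}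
    (h1 : z1' ≤ 1) (h2 : z2' ≤ 1) (h3 : z3' ≤ 1)
    (bb1 : z1' = 1 ↔ (r : ℤ) ∣ δ1) (bb2 : z2' = 1 ↔ (r : ℤ) ∣ δ2) (bb3 : z3' = 1 ↔ (r : ℤ) ∣ δ3)
    (e2 : δ2 = (-1) ^ s2 * (2 : ℕ) ^ a2 * (3 : ℕ) ^ b2 * p ^ x2 * q ^ y2 * r ^ z2') :
    z2' = 0 ∧ z3' = z1' ∧ (a2 + x2 + y2) % 2 = 0 := by
  have hlt1 := h.lt1
  have hlt2 := h.lt2
  have hq7 := h.q_ge
  obtain ⟨d2, d3⟩ := ParA.not_dvd_small h.pr (by omega)
  have dq := ParA.not_dvd_prime h.pr h.pq (by omega)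
  have hne := (Nat.prime_iff_prime_int.1 h.pr).ne_zero
  have m6 : ¬ (r : ℤ) ∣ 6 := by
    rw [show (6 : ℤ) = 2 * 3 by norm_num]
    exact ParA.not_dvd_mul h.pr d2 d3
  have m12 : ¬ (r : ℤ) ∣ 12 := by
    rw [show (12 : ℤ) = 2 * 2 * 3 by norm_num]
    exact ParA.not_dvd_mul h.pr (ParA.not_dvd_mul h.pr d2 d2) d3
  have hdiff : (6 * p - 12 * r : ℤ) = -6 * q := by rw [h.ep, h.er, h.eq]; ring
  have hdiff' : (12 * r - 6 * p : ℤ) = 6 * q := by rw [h.ep, h.er, h.eq]; ring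
  have hsq3 : IsSquare (δ3 * δ1 * δ2) := by convert hsq using 1; ring
  have m6q : ¬ (r : ℤ) ∣ 6 * q := ParA.not_dvd_mul h.pr m6 dq
  obtain ⟨k1, k2, k3⟩ := mult_place hP.rot.rot (by rw [sub_zero]; exact ⟨12, by ring⟩) (by
    rintro ⟨t, ht⟩
    apply m12
    refine ⟨t, ?_⟩
    apply mul_left_cancel₀ hne
    linear_combination ht) (by
      intro hh; apply m6q; rw [hdiff] at hh
      have : (6 * q : ℤ) = -(-6 * q) := by ring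
      rw [this, dvd_neg]; exact hh) n3 n1 n2 hsq3
  obtain ⟨l1, l2, l3, lp, lq⟩ := h.leg_r
  have hz2 : z2' = 0 := bit_zero h2 bb2 k1
  have hleg : legendreSym r δ2 = (-1) ^ (a2 + x2 + y2) := by
    rw [e2, leg_rep, hz2]
    push_cast
    rw [l1, l2, l3, lp, lq, one_pow, one_pow, pow_zero]
    ring
  refine ⟨hz2, ?_, ?_⟩
  · by_cases c1 : (r : ℤ) ∣ δ3
    · rw [bb3.2 c1, bb1.2 (k3 c1).1]
    · rw [bit_zero h3 bb3 c1, bit_zero h1 bb1 (k2 c1).1]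
  · by_cases c1 : (r : ℤ) ∣ δ3
    · obtain ⟨-, k5⟩ := k3 c1
      have h5 := leg_of_isSquare (ParA.not_dvd_mul h.pr k1 (by rwa [hdiff'])) k5
      have h6 : legendreSym r (12 * r - 6 * p) = 1 := by
        have : (12 * r - 6 * p : ℤ) = 2 * 3 * q := by rw [hdiff']; ring
        rw [this]
        simp only [legendreSym.mul, l1, l2, l3, lq]
        norm_num
      rw [legendreSym.mul, h6, hleg, mul_one] at h5
      have h8 := even_of_neg_one_pow h5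
      omega
    · obtain ⟨-, k5⟩ := k2 c1
      have h5 := leg_of_isSquare k1 k5
      rw [hleg] at h5
      have := even_of_neg_one_pow h5
      omega

end places

end Pool.Agent.Work.MP_787500_nt
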