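import Mathlib
import Pool.Agent.Work.MP_787500_nt.H9_FamA2

/-!
# The curve y^2 = x (x - 6 p) (x - 12 r): the place 3 and the sixteen coverings
-/

set_option autoImplicit false
set_option linter.unusedSectionVars false
set_option linter.unusedVariables false
set_option linter.unusedSimpArgs false

namespace Pool.Agent.Work.MP_787500_nt

variable {m n : ℤ} {p q r : ℕ}

/-- symbols at `3` -/
lemma ParA.leg_3 (h : ParA m n p q r) [Fact (Nat.Prime 3)] :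
    legendreSym 3 (-1) = -1 ∧ legendreSym 3 2 = -1 ∧ legendreSym 3 p = 1 ∧
      legendreSym 3 q = 1 ∧ legendreSym 3 r = 1 := by
  have hp := h.p_mod3
  have hq := h.q_mod3
  have hr := h.r_mod3
  refine ⟨?_, ?_, ?_, ?_, ?_⟩
  · rw [legendreSym.at_neg_one (by norm_num), ZMod.χ₄_nat_three_mod_four (by norm_num)]
  · rw [legendreSym.at_two (by norm_num), ZMod.χ₈_nat_eq_if_mod_eight]
    norm_num
  · rw [leg_congr (ℓ := 3) (b := 1) (by omega), leg_one]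
  · rw [leg_congr (ℓ := 3) (b := 1) (by omega), leg_one]
  · rw [leg_congr (ℓ := 3) (b := 1) (by omega), leg_one]

lemma leg_rep4 {ℓ : ℕ} [Fact ℓ.Prime] {a p q r : ℤ} (s i x y z : ℕ) :
    legendreSym ℓ ((-1) ^ s * a ^ i * p ^ x * q ^ y * r ^ z) =
      legendreSym ℓ (-1) ^ s * legendreSym ℓ a ^ i *
      legendreSym ℓ p ^ x * legendreSym ℓ q ^ y * legendreSym ℓ r ^ z := by
  simp only [legendreSym.mul, leg_pow]

lemma not3_unit (h : ParA m n p q r) (s i x y z : ℕ) :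
    ¬ ((3 : ℕ) : ℤ) ∣ ((-1) ^ s * (2 : ℕ) ^ i * p ^ x * q ^ y * r ^ z : ℤ) := by
  have h3 : Nat.Prime 3 := Nat.prime_three
  have hpr := Nat.prime_iff_prime_int.1 h3
  have hp := h.p_mod3
  have hq := h.q_mod3
  have hr := h.r_mod3
  have np : ¬ ((3 : ℕ) : ℤ) ∣ (p : ℤ) := by omega
  have nq : ¬ ((3 : ℕ) : ℤ) ∣ (q : ℤ) := by omega
  have nr : ¬ ((3 : ℕ) : ℤ) ∣ (r : ℤ) := by omega
  have n1 : ¬ ((3 : ℕ) : ℤ) ∣ (-1 : ℤ) := by omega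
  have n2 : ¬ ((3 : ℕ) : ℤ) ∣ ((2 : ℕ) : ℤ) := by omega
  refine ParA.not_dvd_mul h3 (ParA.not_dvd_mul h3 (ParA.not_dvd_mul h3
    (ParA.not_dvd_mul h3 ?_ ?_) ?_) ?_) ?_
  · exact fun hh => n1 (hpr.dvd_of_dvd_pow hh)
  · exact fun hh => n2 (hpr.dvd_of_dvd_pow hh)
  · exact fun hh => np (hpr.dvd_of_dvd_pow hh)
  · exact fun hh => nq (hpr.dvd_of_dvd_pow hh)
  · exact fun hh => nr (hpr.dvd_of_dvd_pow hh)

lemma leg3_unit (h : ParA m n p q r) [Fact (Nat.Prime 3)] (s i x y z : ℕ) :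
    legendreSym 3 ((-1) ^ s * (2 : ℕ) ^ i * p ^ x * q ^ y * r ^ z : ℤ) = (-1) ^ (s + i) := by
  obtain ⟨l1, l2, lp, lq, lr⟩ := h.leg_3
  rw [leg_rep4]
  push_cast
  rw [l1, l2, lp, lq, lr, one_pow, one_pow, one_pow]
  ring

lemma place_3 (h : ParA m n p q r) [Fact (Nat.Prime 3)] {δ1 δ2 δ3 X w z1 z2 z3 : ℤ}
    (hP : Prim 3 0 (6 * p) (12 * r) δ1 δ2 δ3 X w z1 z2 z3)
    (hsq : IsSquare (δ1 * δ2 * δ3))
    {s1 a1 b1 x1 y1 t1 s2 a2 b2 x2 y2 t2 s3 a3 b3 x3 y3 t3 : ℕ}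
    (hb1 : b1 ≤ 1) (hb2 : b2 ≤ 1) (hb3 : b3 ≤ 1)
    (ps : (s1 + s2 + s3) % 2 = 0) (pa : (a1 + a2 + a3) % 2 = 0) (pb : (b1 + b2 + b3) % 2 = 0)
    (e1 : δ1 = (-1) ^ s1 * (2 : ℕ) ^ a1 * (3 : ℕ) ^ b1 * p ^ x1 * q ^ y1 * r ^ t1)
    (e2 : δ2 = (-1) ^ s2 * (2 : ℕ) ^ a2 * (3 : ℕ) ^ b2 * p ^ x2 * q ^ y2 * r ^ t2)
    (e3 : δ3 = (-1) ^ s3 * (2 : ℕ) ^ a3 * (3 : ℕ) ^ b3 * p ^ x3 * q ^ y3 * r ^ t3) :
    (s1 + a1) % 2 = (b1 + b2) % 2 ∧ (s2 + a2) % 2 = b1 := by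
  have hp := h.p_mod3
  have hq := h.q_mod3
  have hr := h.r_mod3
  have h3 : Nat.Prime 3 := Nat.prime_three
  obtain ⟨l1, l2, lp, lq, lr⟩ := h.leg_3
  set u1 : ℤ := (-1) ^ s1 * (2 : ℕ) ^ a1 * p ^ x1 * q ^ y1 * r ^ t1 with hu1
  set u2 : ℤ := (-1) ^ s2 * (2 : ℕ) ^ a2 * p ^ x2 * q ^ y2 * r ^ t2 with hu2
  set u3 : ℤ := (-1) ^ s3 * (2 : ℕ) ^ a3 * p ^ x3 * q ^ y3 * r ^ t3 with hu3
  have nu1 : ¬ ((3 : ℕ) : ℤ) ∣ u1 := not3_unit h _ _ _ _ _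
  have nu2 : ¬ ((3 : ℕ) : ℤ) ∣ u2 := not3_unit h _ _ _ _ _
  have nu3 : ¬ ((3 : ℕ) : ℤ) ∣ u3 := not3_unit h _ _ _ _ _
  have lu1 : legendreSym 3 u1 = (-1) ^ (s1 + a1) := leg3_unit h _ _ _ _ _
  have lu2 : legendreSym 3 u2 = (-1) ^ (s2 + a2) := leg3_unit h _ _ _ _ _
  have lu3 : legendreSym 3 u3 = (-1) ^ (s3 + a3) := leg3_unit h _ _ _ _ _
  have f1 : δ1 = ((3 : ℕ) : ℤ) ^ b1 * u1 := by rw [e1, hu1]; ring
  have f2 : δ2 = ((3 : ℕ) : ℤ) ^ b2 * u2 := by rw [e2, hu2]; ring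
  have f3 : δ3 = ((3 : ℕ) : ℤ) ^ b3 * u3 := by rw [e3, hu3]; ring
  have hP' : Prim 3 (((3 : ℕ) : ℤ) * 0) (((3 : ℕ) : ℤ) * (2 * p)) (((3 : ℕ) : ℤ) * (4 * r))
      δ1 δ2 δ3 X w z1 z2 z3 := by
    convert hP using 1 <;> push_cast <;> ring
  have c3 : b3 = 0 ∧ b1 = 0 ∧ b2 = 0 ∨ b1 = 0 ∧ b2 = 1 ∧ b3 = 1 ∨ b1 = 1 ∧ b2 = 0 ∧ b3 = 1 ∨
      b1 = 1 ∧ b2 = 1 ∧ b3 = 0 := by omega
  rcases c3 with ⟨c3, c1, c2⟩ | ⟨c1, c2, c3⟩ | ⟨c1, c2, c3⟩ | ⟨c1, c2, c3⟩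
  · subst c1 c2 c3
    rw [pow_zero, one_mul] at f1 f2 f3
    rw [f1, f2, f3] at hP' hsq
    obtain ⟨k1, k2, k3⟩ := add_place hP' (by omega) nu1 nu2 nu3 hsq
    have m1 := leg_of_isSquare nu1 k1
    have m2 := leg_of_isSquare nu2 k2
    rw [lu1] at m1
    rw [lu2] at m2
    have := even_of_neg_one_pow m1
    have := even_of_neg_one_pow m2
    omega
  · subst c1 c2 c3
    rw [pow_zero, one_mul] at f1
    rw [pow_one] at f2 f3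
    rw [f1, f2, f3] at hP'
    obtain ⟨k2, k3⟩ := add_place' hP' nu1 nu2 nu3
    have n2 : ¬ ((3 : ℕ) : ℤ) ∣ (0 - 2 * p : ℤ) := by omega
    have n3 : ¬ ((3 : ℕ) : ℤ) ∣ (0 - 4 * r : ℤ) := by omega
    have g2 : legendreSym 3 (0 - 2 * p : ℤ) = 1 := by
      rw [leg_congr (ℓ := 3) (b := 1) (by omega), leg_one]
    have g3 : legendreSym 3 (0 - 4 * r : ℤ) = -1 := by
      rw [leg_congr (ℓ := 3) (b := -1) (by omega), l1]
    have m2 := leg_of_isSquare (ParA.not_dvd_mul h3 nu2 n2) k2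
    have m3 := leg_of_isSquare (ParA.not_dvd_mul h3 nu3 n3) k3
    rw [legendreSym.mul, lu2, g2, mul_one] at m2
    rw [legendreSym.mul, lu3, g3] at m3
    have := even_of_neg_one_pow m2
    have := odd_of_neg_one_pow (show (-1 : ℤ) ^ (s3 + a3) = -1 by linarith)
    omega
  · subst c1 c2 c3
    rw [pow_zero, one_mul] at f2
    rw [pow_one] at f1 f3
    have hPr := hP'.rot
    rw [f1, f2, f3] at hPr
    obtain ⟨k3, k1⟩ := add_place' hPr nu2 nu3 nu1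
    have n3 : ¬ ((3 : ℕ) : ℤ) ∣ (2 * p - 4 * r : ℤ) := by omega
    have n1 : ¬ ((3 : ℕ) : ℤ) ∣ (2 * p - 0 : ℤ) := by omega
    have g3 : legendreSym 3 (2 * p - 4 * r : ℤ) = 1 := by
      rw [leg_congr (ℓ := 3) (b := 1) (by omega), leg_one]
    have g1 : legendreSym 3 (2 * p - 0 : ℤ) = -1 := by
      rw [leg_congr (ℓ := 3) (b := -1) (by omega), l1]
    have m3 := leg_of_isSquare (ParA.not_dvd_mul h3 nu3 n3) k3
    have m1 := leg_of_isSquare (ParA.not_dvd_mul h3 nu1 n1) k1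
    rw [legendreSym.mul, lu3, g3, mul_one] at m3
    rw [legendreSym.mul, lu1, g1] at m1
    have := even_of_neg_one_pow m3
    have := odd_of_neg_one_pow (show (-1 : ℤ) ^ (s1 + a1) = -1 by linarith)
    omega
  · subst c1 c2 c3
    rw [pow_zero, one_mul] at f3
    rw [pow_one] at f1 f2
    have hPr := hP'.rot.rot
    rw [f1, f2, f3] at hPr
    obtain ⟨k1, k2⟩ := add_place' hPr nu3 nu1 nu2
    have n1 : ¬ ((3 : ℕ) : ℤ) ∣ (4 * r - 0 : ℤ) := by omega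
    have n2 : ¬ ((3 : ℕ) : ℤ) ∣ (4 * r - 2 * p : ℤ) := by omega
    have g1 : legendreSym 3 (4 * r - 0 : ℤ) = 1 := by
      rw [leg_congr (ℓ := 3) (b := 1) (by omega), leg_one]
    have g2 : legendreSym 3 (4 * r - 2 * p : ℤ) = -1 := by
      rw [leg_congr (ℓ := 3) (b := -1) (by omega), l1]
    have m1 := leg_of_isSquare (ParA.not_dvd_mul h3 nu1 n1) k1
    have m2 := leg_of_isSquare (ParA.not_dvd_mul h3 nu2 n2) k2
    rw [legendreSym.mul, lu1, g1, mul_one] at m1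
    rw [legendreSym.mul, lu2, g2] at m2
    have := even_of_neg_one_pow m1
    have := odd_of_neg_one_pow (show (-1 : ℤ) ^ (s2 + a2) = -1 by linarith)
    omega

/-- the sixteen everywhere locally soluble coverings have rational points -/
lemma glob (h : ParA m n p q r) (b1 b2 α β : ℕ) (h1 : b1 ≤ 1) (h2 : b2 ≤ 1) (h3 : α ≤ 1)
    (h4 : β ≤ 1) {δ1 δ2 δ3 : ℤ}
    {s1 a1 g s2 a2 s3 a3 b3 : ℕ}
    (hs1 : s1 = 0) (ha1 : a1 = (b1 + b2) % 2) (hg : g = (b1 + α) % 2)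
    (hs2 : s2 = (b1 + α + β) % 2) (ha2 : a2 = (α + β) % 2)
    (hs3 : s3 = (b1 + α + β) % 2) (ha3 : a3 = (b1 + b2 + α + β) % 2) (hb3 : b3 = (b1 + b2) % 2)
    (e1 : δ1 = (-1) ^ s1 * (2 : ℕ) ^ a1 * (3 : ℕ) ^ b1 * p ^ α * q ^ 0 * r ^ g)
    (e2 : δ2 = (-1) ^ s2 * (2 : ℕ) ^ a2 * (3 : ℕ) ^ b2 * p ^ α * q ^ β * r ^ 0)
    (e3 : δ3 = (-1) ^ s3 * (2 : ℕ) ^ a3 * (3 : ℕ) ^ b3 * p ^ 0 * q ^ β * r ^ g) :
    HomSol (((0 : ℤ)) : ℚ) ((6 * p : ℤ) : ℚ) ((12 * r : ℤ) : ℚ) δ1 δ2 δ3 ℚ := by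
  have ep : (p : ℚ) = n ^ 2 - 6 * m ^ 2 := by exact_mod_cast h.ep
  have er : (r : ℚ) = n ^ 2 - 12 * m ^ 2 := by exact_mod_cast h.er
  have eq : (q : ℚ) = n ^ 2 - 18 * m ^ 2 := by exact_mod_cast h.eq
  obtain ⟨k, hk⟩ := h.n_odd
  obtain ⟨j, hj⟩ := h.hm
  have w1 : (m : ℚ) ≠ 0 := by
    have : m ≠ 0 := by omega
    exact_mod_cast this
  have w2 : (n : ℚ) ≠ 0 := by
    have : n ≠ 0 := by omega
    exact_mod_cast this
  have w3 : (n - 6 * m : ℚ) ≠ 0 := by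
    have : n - 6 * m ≠ 0 := by omega
    exact_mod_cast this
  have w4 : (n - 2 * m : ℚ) ≠ 0 := by
    have : n - 2 * m ≠ 0 := by omega
    exact_mod_cast this
  have w5 : (n - 3 * m : ℚ) ≠ 0 := by
    have : n - 3 * m ≠ 0 := by
      intro hh
      have h5 : n = 3 * m := by omega
      have h6 := h.er
      rw [h5] at h6
      have h7 := h.m_sq_pos
      have h8 : (0 : ℤ) ≤ r := Int.natCast_nonneg r
      have h9 : (3 * m) ^ 2 - 12 * m ^ 2 = - 3 * m ^ 2 := by ring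
      rw [h9] at h6
      linarith
    exact_mod_cast this
  have c1 : b1 = 0 ∨ b1 = 1 := by omega
  have c2 : b2 = 0 ∨ b2 = 1 := by omega
  have c3 : α = 0 ∨ α = 1 := by omega
  have c4 : β = 0 ∨ β = 1 := by omega
  rcases c1 with rfl | rfl <;> rcases c2 with rfl | rfl <;> rcases c3 with rfl | rfl <;>
    rcases c4 with rfl | rfl <;> norm_num at hs1 ha1 hg hs2 ha2 hs3 ha3 hb3 <;>
    subst hs1 ha1 hg hs2 ha2 hs3 ha3 hb3 <;> subst e1 e2 e3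
  · refine ⟨1, 0, 1, 1, 1, Or.inr one_ne_zero, ?_, ?_, ?_⟩ <;>
      simp only [Algebra.algebraMap_self, RingHom.id_apply] <;> push_cast <;> rw [ep, er, eq] <;> ring
  · refine ⟨4*n ^ 2, 1, 2*n, 1, 2, Or.inl one_ne_zero, ?_, ?_, ?_⟩ <;>
      simp only [Algebra.algebraMap_self, RingHom.id_apply] <;> push_cast <;> rw [ep, er, eq] <;> ring
  · refine ⟨4*p*r, n-2*m, 2, n-6*m, 2*(n-3*m), Or.inl w4, ?_, ?_, ?_⟩ <;>
      simp only [Algebra.algebraMap_self, RingHom.id_apply] <;> push_cast <;> rw [ep, er, eq] <;> ring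
  · refine ⟨p*r, m, 1, 1, 1, Or.inl w1, ?_, ?_, ?_⟩ <;>
      simp only [Algebra.algebraMap_self, RingHom.id_apply] <;> push_cast <;> rw [ep, er, eq] <;> ring
  · refine ⟨18*(n-2*m) ^ 2, 1, 3*(n-2*m), 2*(n-3*m), n-6*m, Or.inl one_ne_zero, ?_, ?_, ?_⟩ <;>
      simp only [Algebra.algebraMap_self, RingHom.id_apply] <;> push_cast <;> rw [ep, er, eq] <;> ring
  · refine ⟨72*m ^ 2, 1, 6*m, 1, 2, Or.inl one_ne_zero, ?_, ?_, ?_⟩ <;>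
      simp only [Algebra.algebraMap_self, RingHom.id_apply] <;> push_cast <;> rw [ep, er, eq] <;> ring
  · refine ⟨0, 1, 0, 1, 2, Or.inl one_ne_zero, ?_, ?_, ?_⟩ <;>
      simp only [Algebra.algebraMap_self, RingHom.id_apply] <;> push_cast <;> rw [ep, er, eq] <;> ring
  · refine ⟨18*p*r, n, 3, 2, 1, Or.inl w2, ?_, ?_, ?_⟩ <;>
      simp only [Algebra.algebraMap_self, RingHom.id_apply] <;> push_cast <;> rw [ep, er, eq] <;> ring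
  · refine ⟨6*r, 1, 1, 6*m, 1, Or.inl one_ne_zero, ?_, ?_, ?_⟩ <;>
      simp only [Algebra.algebraMap_self, RingHom.id_apply] <;> push_cast <;> rw [ep, er, eq] <;> ring
  · refine ⟨24*r*(n-3*m) ^ 2, n-6*m, 2*(n-3*m), 3*(n-2*m), 2, Or.inl w3, ?_, ?_, ?_⟩ <;>
      simp only [Algebra.algebraMap_self, RingHom.id_apply] <;> push_cast <;> rw [ep, er, eq] <;> ring
  · refine ⟨24*p, 1, 2, 3, 2*n, Or.inl one_ne_zero, ?_, ?_, ?_⟩ <;>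
      simp only [Algebra.algebraMap_self, RingHom.id_apply] <;> push_cast <;> rw [ep, er, eq] <;> ring
  · refine ⟨6*p, 1, 1, 0, 1, Or.inl one_ne_zero, ?_, ?_, ?_⟩ <;>
      simp only [Algebra.algebraMap_self, RingHom.id_apply] <;> push_cast <;> rw [ep, er, eq] <;> ring
  · refine ⟨3*r, 1, 1, n, 3, Or.inl one_ne_zero, ?_, ?_, ?_⟩ <;>
      simp only [Algebra.algebraMap_self, RingHom.id_apply] <;> push_cast <;> rw [ep, er, eq] <;> ring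
  · refine ⟨12*r, 1, 2, 1, 0, Or.inl one_ne_zero, ?_, ?_, ?_⟩ <;>
      simp only [Algebra.algebraMap_self, RingHom.id_apply] <;> push_cast <;> rw [ep, er, eq] <;> ring
  · refine ⟨12*p, 1, 2, 1, 6*m, Or.inl one_ne_zero, ?_, ?_, ?_⟩ <;>
      simp only [Algebra.algebraMap_self, RingHom.id_apply] <;> push_cast <;> rw [ep, er, eq] <;> ring
  · refine ⟨3*p*(n-6*m) ^ 2, n-3*m, n-6*m, 1, 3*(n-2*m), Or.inl w5, ?_, ?_, ?_⟩ <;>
      simp only [Algebra.algebraMap_self, RingHom.id_apply] <;> push_cast <;> rw [ep, er, eq] <;> ring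

end Pool.Agent.Work.MP_787500_nt
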