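import Mathlib
import Pool.Agent.Work.MP_787500_nt.H9_FamA3

/-!
# The curve y^2 = x (x - 6 p) (x - 12 r): every locally soluble two-covering is soluble
-/

set_option autoImplicit false
set_option linter.unusedSectionVars false
set_option linter.unusedVariables false
set_option linter.unusedSimpArgs false

namespace Pool.Agent.Work.MP_787500_nt

open WeierstrassCurve WeierstrassCurve.Affine

variable {m n : ℤ} {p q r : ℕ}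

lemma exists_prim {ℓ : ℕ} [Fact ℓ.Prime] {e1 e2 e3 d1 d2 d3 : ℤ}
    (h : HomSol (e1 : ℚ) e2 e3 d1 d2 d3 ℚ_[ℓ]) :
    ∃ X w z1 z2 z3 : ℤ, Prim ℓ e1 e2 e3 d1 d2 d3 X w z1 z2 z3 := by
  obtain ⟨X, w, z1, z2, z3, h0, h1, h2, h3⟩ := exists_primitive h
  exact ⟨X, w, z1, z2, z3, h0, h1, h2, h3⟩

lemma bits_solve {s1 s2 s3 a1 a2 a3 b1 b2 b3 x y t : ℕ} (ps : (s1 + s2 + s3) % 2 = 0)
    (pa : (a1 + a2 + a3) % 2 = 0) (pb : (b1 + b2 + b3) % 2 = 0)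
    (P3 : (s3 + a3 + b3 + t + x) % 2 = 0) (Q3 : (s1 + b1 + x + t) % 2 = 0)
    (R3 : (a2 + x + y) % 2 = 0) (T1 : (s1 + a1) % 2 = (b1 + b2) % 2)
    (T2 : (s2 + a2) % 2 = b1 % 2) :
    t % 2 = (b1 + x) % 2 ∧ s1 % 2 = 0 ∧ a1 % 2 = (b1 + b2) % 2 ∧ s2 % 2 = (b1 + x + y) % 2 ∧
      a2 % 2 = (x + y) % 2 ∧ s3 % 2 = (b1 + x + y) % 2 ∧ a3 % 2 = (b1 + b2 + x + y) % 2 ∧
      b3 % 2 = (b1 + b2) % 2 := by
  have k1 : a2 % 2 = (x + y) % 2 := by clear ps pa pb P3 Q3 T1 T2; omega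
  have k2 : s2 % 2 = (b1 + x + y) % 2 := by clear ps pa pb P3 Q3 T1; omega
  have k3 : b3 % 2 = (b1 + b2) % 2 := by clear ps pa P3 Q3 T1 T2 R3; omega
  have k4 : t % 2 = (b1 + x) % 2 := by omega
  have k5 : s1 % 2 = 0 := by clear ps pa pb P3 R3 T1 T2; omega
  have k6 : a1 % 2 = (b1 + b2) % 2 := by clear ps pa pb P3 Q3 R3 T2; omega
  have k7 : s3 % 2 = (b1 + x + y) % 2 := by clear pa pb P3 Q3 R3 T1 T2; omega
  have k8 : a3 % 2 = (b1 + b2 + x + y) % 2 := by clear ps pb P3 Q3 R3 T1 T2; omega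
  exact ⟨k4, k5, k6, k2, k1, k7, k8, k3⟩

/-- the support of the classes -/
lemma famA_supp (h : ParA m n p q r) {δ1 δ2 δ3 : ℤ}
    (sf1 : Squarefree δ1) (sf2 : Squarefree δ2) (sf3 : Squarefree δ3)
    (hsq : IsSquare (δ1 * δ2 * δ3))
    (hloc : ∀ (ℓ : ℕ) [Fact ℓ.Prime], ℓ ≠ 2 →
      HomSol (((0 : ℤ)) : ℚ) ((6 * p : ℤ) : ℚ) ((12 * r : ℤ) : ℚ) δ1 δ2 δ3 ℚ_[ℓ])
    (ℓ : ℕ) (hℓ : ℓ.Prime) (hd : (ℓ : ℤ) ∣ δ1 ∨ (ℓ : ℤ) ∣ δ2 ∨ (ℓ : ℤ) ∣ δ3) :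
    ℓ = 2 ∨ ℓ = 3 ∨ ℓ = p ∨ ℓ = q ∨ ℓ = r := by
  have : Fact ℓ.Prime := ⟨hℓ⟩
  by_contra hcon
  push Not at hcon
  obtain ⟨h2, h3, hp, hq, hr⟩ := hcon
  obtain ⟨X, w, z1, z2, z3, hP⟩ := exists_prim (hloc ℓ h2)
  have hℓ2 := hℓ.two_le
  have d2 : ¬ (ℓ : ℤ) ∣ 2 := fun hh => h2 ((Nat.prime_dvd_prime_iff_eq hℓ Nat.prime_two).1
    (by exact_mod_cast hh))
  have d3 : ¬ (ℓ : ℤ) ∣ 3 := fun hh => h3 ((Nat.prime_dvd_prime_iff_eq hℓ Nat.prime_three).1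
    (by exact_mod_cast hh))
  have dp := ParA.not_dvd_prime hℓ h.pp hp
  have dq := ParA.not_dvd_prime hℓ h.pq hq
  have dr := ParA.not_dvd_prime hℓ h.pr hr
  have m6p : ¬ (ℓ : ℤ) ∣ 6 * p := by
    rw [show (6 : ℤ) = 2 * 3 by norm_num]
    exact ParA.not_dvd_mul hℓ (ParA.not_dvd_mul hℓ d2 d3) dp
  have m6q : ¬ (ℓ : ℤ) ∣ 6 * q := by
    rw [show (6 : ℤ) = 2 * 3 by norm_num]
    exact ParA.not_dvd_mul hℓ (ParA.not_dvd_mul hℓ d2 d3) dq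
  have m12r : ¬ (ℓ : ℤ) ∣ 12 * r := by
    rw [show (12 : ℤ) = 2 * 2 * 3 by norm_num]
    exact ParA.not_dvd_mul hℓ (ParA.not_dvd_mul hℓ (ParA.not_dvd_mul hℓ d2 d2) d3) dr
  have hdiff : (6 * p - 12 * r : ℤ) = -(6 * q) := by rw [h.ep, h.er, h.eq]; ring
  obtain ⟨k1, k2, k3⟩ := good_place hP (by rw [zero_sub, dvd_neg]; exact m6p)
    (by rw [hdiff, dvd_neg]; exact m6q) (by rw [sub_zero]; exact m12r)
    (not_sq_dvd_of_squarefree sf1 ℓ) (not_sq_dvd_of_squarefree sf2 ℓ)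
    (not_sq_dvd_of_squarefree sf3 ℓ) hsq
  rcases hd with hd | hd | hd
  · exact k1 hd
  · exact k2 hd
  · exact k3 hd

/-- the integral version -/
theorem famA_int (h : ParA m n p q r) {δ1 δ2 δ3 : ℤ}
    (sf1 : Squarefree δ1) (sf2 : Squarefree δ2) (sf3 : Squarefree δ3)
    (hsq : IsSquare (δ1 * δ2 * δ3))
    (hloc : ∀ (ℓ : ℕ) [Fact ℓ.Prime], ℓ ≠ 2 →
      HomSol (((0 : ℤ)) : ℚ) ((6 * p : ℤ) : ℚ) ((12 * r : ℤ) : ℚ) δ1 δ2 δ3 ℚ_[ℓ]) :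
    HomSol (((0 : ℤ)) : ℚ) ((6 * p : ℤ) : ℚ) ((12 * r : ℤ) : ℚ) δ1 δ2 δ3 ℚ := by
  have hsupp := famA_supp h sf1 sf2 sf3 hsq hloc
  have hlt1 := h.lt1
  have hlt2 := h.lt2
  have hq7 := h.q_ge
  have f2 : Fact (Nat.Prime 2) := ⟨Nat.prime_two⟩
  have f3 : Fact (Nat.Prime 3) := ⟨Nat.prime_three⟩
  have fp : Fact p.Prime := ⟨h.pp⟩
  have fq : Fact q.Prime := ⟨h.pq⟩
  have fr : Fact r.Prime := ⟨h.pr⟩
  have rep : ∀ {δ : ℤ}, Squarefree δ →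
      (∀ ℓ : ℕ, ℓ.Prime → (ℓ : ℤ) ∣ δ → ℓ = 2 ∨ ℓ = 3 ∨ ℓ = p ∨ ℓ = q ∨ ℓ = r) →
      _ := fun {δ} sf hs => squarefree_rep5 sf (a := 2) (b := 3) (p := p) (q := q) (r := r)
        (by norm_num) (by omega) (by omega) (by omega) (by omega) (by omega) (by omega) (by omega)
        (by omega) (by omega) Nat.prime_two Nat.prime_three h.pp h.pq h.pr hs
  obtain ⟨s1, a1, b1, x1, y1, t1, ls1, la1, lb1, lx1, ly1, lt1, ia1, ib1, ix1, iy1, it1, e1⟩ :=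
    rep sf1 (fun ℓ hℓ hd => hsupp ℓ hℓ (Or.inl hd))
  obtain ⟨s2, a2, b2, x2, y2, t2, ls2, la2, lb2, lx2, ly2, lt2, ia2, ib2, ix2, iy2, it2, e2⟩ :=
    rep sf2 (fun ℓ hℓ hd => hsupp ℓ hℓ (Or.inr (Or.inl hd)))
  obtain ⟨s3, a3, b3, x3, y3, t3, ls3, la3, lb3, lx3, ly3, lt3, ia3, ib3, ix3, iy3, it3, e3⟩ :=
    rep sf3 (fun ℓ hℓ hd => hsupp ℓ hℓ (Or.inr (Or.inr hd)))
  have pa : (a1 + a2 + a3) % 2 = 0 := bit_parity la1 la2 la3 ia1 ia2 ia3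
    (not_sq_dvd_of_squarefree sf1 2) (not_sq_dvd_of_squarefree sf2 2)
    (not_sq_dvd_of_squarefree sf3 2) hsq
  have pb : (b1 + b2 + b3) % 2 = 0 := bit_parity lb1 lb2 lb3 ib1 ib2 ib3
    (not_sq_dvd_of_squarefree sf1 3) (not_sq_dvd_of_squarefree sf2 3)
    (not_sq_dvd_of_squarefree sf3 3) hsq
  have hppos : (0 : ℤ) < p := by omega
  have hqpos : (0 : ℤ) < q := by omega
  have hrpos : (0 : ℤ) < r := by omega
  have upos : ∀ i j x y t : ℕ, (0 : ℤ) < (2 : ℕ) ^ i * (3 : ℕ) ^ j * p ^ x * q ^ y * r ^ t := by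
    intro i j x y t
    positivity
  have ps : (s1 + s2 + s3) % 2 = 0 := sign_parity (upos a1 b1 x1 y1 t1) (upos a2 b2 x2 y2 t2)
    (upos a3 b3 x3 y3 t3) (by rw [e1]; ring) (by rw [e2]; ring) (by rw [e3]; ring) hsq
  obtain ⟨X, w, z1, z2, z3, hP⟩ := exists_prim (hloc p (by omega))
  obtain ⟨P1, P2, P3⟩ := place_p h hP (not_sq_dvd_of_squarefree sf1 p)
    (not_sq_dvd_of_squarefree sf2 p) (not_sq_dvd_of_squarefree sf3 p) hsq lx1 lx2 lx3 ix1 ix2 ix3 e3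
  obtain ⟨X, w, z1, z2, z3, hQ⟩ := exists_prim (hloc q (by omega))
  obtain ⟨Q1, Q2, Q3⟩ := place_q h hQ (not_sq_dvd_of_squarefree sf1 q)
    (not_sq_dvd_of_squarefree sf2 q) (not_sq_dvd_of_squarefree sf3 q) hsq ly1 ly2 ly3 iy1 iy2 iy3 e1
  obtain ⟨X, w, z1, z2, z3, hR⟩ := exists_prim (hloc r (by omega))
  obtain ⟨R1, R2, R3⟩ := place_r h hR (not_sq_dvd_of_squarefree sf1 r)
    (not_sq_dvd_of_squarefree sf2 r) (not_sq_dvd_of_squarefree sf3 r) hsq lt1 lt2 lt3 it1 it2 it3 e2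
  obtain ⟨X, w, z1, z2, z3, hT⟩ := exists_prim (hloc 3 (by norm_num))
  obtain ⟨T1, T2⟩ := place_3 h hT hsq lb1 lb2 lb3 ps pa pb e1 e2 e3
  subst P1 Q1 R1 P2 Q2 R2
  have hb1 : b1 % 2 = b1 := Nat.mod_eq_of_lt (Nat.lt_succ_of_le lb1)
  have key := bits_solve ps pa pb P3 Q3 R3 T1 (T2.trans hb1.symm)
  rw [Nat.mod_eq_of_lt (Nat.lt_succ_of_le lt3), Nat.mod_eq_of_lt (Nat.lt_succ_of_le ls1),
    Nat.mod_eq_of_lt (Nat.lt_succ_of_le la1), Nat.mod_eq_of_lt (Nat.lt_succ_of_le ls2),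
    Nat.mod_eq_of_lt (Nat.lt_succ_of_le la2), Nat.mod_eq_of_lt (Nat.lt_succ_of_le ls3),
    Nat.mod_eq_of_lt (Nat.lt_succ_of_le la3), Nat.mod_eq_of_lt (Nat.lt_succ_of_le lb3)] at key
  obtain ⟨k1, k2, k3, k4, k5, k6, k7, k8⟩ := key
  exact glob h b1 b2 x1 y2 lb1 lb2 lx1 ly2 (g := t3) k2 k3 k1 k4 k5 k6 k7 k8 e1 e2 e3

/-- every two-covering with points over all odd completions has a rational point -/
theorem famA_local_global (h : ParA m n p q r) {d1 d2 d3 : ℚ} (n1 : d1 ≠ 0) (n2 : d2 ≠ 0)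
    (n3 : d3 ≠ 0) (hsq : IsSquare (d1 * d2 * d3))
    (hloc : ∀ (ℓ : ℕ) [Fact ℓ.Prime], ℓ ≠ 2 →
      HomSol (0 : ℚ) (6 * p) (12 * r) d1 d2 d3 ℚ_[ℓ]) :
    HomSol (0 : ℚ) (6 * p) (12 * r) d1 d2 d3 ℚ := by
  obtain ⟨δ1, sf1, s1, hs1, e1⟩ := exists_squarefree_rep d1 n1
  obtain ⟨δ2, sf2, s2, hs2, e2⟩ := exists_squarefree_rep d2 n2
  obtain ⟨δ3, sf3, s3, hs3, e3⟩ := exists_squarefree_rep d3 n3
  have hsq' := isSquare_int hsq hs1 hs2 hs3 e1 e2 e3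
  have hcast : HomSol (((0 : ℤ)) : ℚ) ((6 * p : ℤ) : ℚ) ((12 * r : ℤ) : ℚ) δ1 δ2 δ3 ℚ := by
    apply famA_int h sf1 sf2 sf3 hsq'
    intro ℓ _ hℓ
    have := (hloc ℓ hℓ).congr e1 e2 e3
    push_cast
    exact this
  push_cast at hcast
  apply hcast.congr (s1 := s1⁻¹) (s2 := s2⁻¹) (s3 := s3⁻¹)
  · rw [e1]; field_simp
  · rw [e2]; field_simp
  · rw [e3]; field_simp

open scoped Classical in
/-- local triviality at odd primes implies global triviality for cocycles killed by a power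
of two -/
theorem famA_cobdry (h : ParA m n p q r) {W : WeierstrassCurve.Affine ℚ}
    (hW : TwoTors W 0 (6 * p) (12 * r))
    {c : (AlgebraicClosure ℚ ≃ₐ[ℚ] AlgebraicClosure ℚ) → (W⁄(AlgebraicClosure ℚ)).Point}
    (hc : IsCocycle W c)
    (hloc : ∀ (ℓ : ℕ) [Fact ℓ.Prime], ℓ ≠ 2 → LocTriv W ℚ_[ℓ] c)
    (k : ℕ) (h2 : IsCobdry W (fun σ => (2 ^ k) • c σ)) : IsCobdry W c := by
  refine cobdry_of_two_pow (W := W) (fun c => ∀ (ℓ : ℕ) [Fact ℓ.Prime], ℓ ≠ 2 →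
    LocTriv W ℚ_[ℓ] c) ?_ ?_ k c hc hloc h2
  · intro c n hl ℓ _ hℓ
    exact (hl ℓ hℓ).nsmul n
  · intro c hc hl h2
    obtain ⟨d1, d2, d3, n1, n2, n3, hsq, hF, hK⟩ := kummer_data hW hc h2
    apply hK
    apply famA_local_global h n1 n2 n3 hsq
    intro ℓ _ hℓ
    exact hF ℚ_[ℓ] (hl ℓ hℓ)

end Pool.Agent.Work.MP_787500_nt
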