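import Mathlib
import Pool.Agent.Work.MP_787500_nt.H9_Alg

/-!
# The descent map modulo squares and independence of points
-/

set_option autoImplicit false
set_option linter.unusedSectionVars false

namespace Pool.Agent.Work.MP_787500_nt

open WeierstrassCurve WeierstrassCurve.Affine

section kappa

variable {F : Type*} [Field F] [DecidableEq F] [NeZero (2 : F)]
variable {W : WeierstrassCurve.Affine F} {e1 e2 e3 : F}

/-- if two affine points have nonzero sum, the product of the three values of `x - e1` is a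
square -/
lemma kappa_add (h : TwoTors W e1 e2 e3) {x1 y1 x2 y2 : F} (h1 : W.Nonsingular x1 y1)
    (h2 : W.Nonsingular x2 y2) {X Y : F} {hn : W.Nonsingular X Y}
    (hadd : (Point.some x1 y1 h1 : W.Point) + Point.some x2 y2 h2 = Point.some X Y hn) :
    IsSquare ((x1 - e1) * (x2 - e1) * (X - e1)) := by
  have q1 := h.eq_of_nonsingular h1
  have q2 := h.eq_of_nonsingular h2
  by_cases hx : x1 = x2
  · -- doubling
    subst hx
    have hyy : y1 = y2 ∨ y1 = -y2 := by
      apply sq_eq_sq_iff_eq_or_eq_neg.1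
      rw [q1, q2]
    rcases hyy with rfl | hyy
    · have hs := rFun_sq h hadd
      refine ⟨(x1 - e1) * rFun e1 e2 e3 (Point.some x1 y1 h1 : W.Point), ?_⟩
      rw [← hs]; ring
    · exfalso
      have : (Point.some x1 y1 h1 : W.Point) + Point.some x1 y2 h2 = 0 := by
        apply Point.add_of_Y_eq rfl
        rw [h.negY_eq]; exact hyy
      rw [this] at hadd
      exact (Point.some_ne_zero hn) hadd.symm
  · have hxy : ¬(x1 = x2 ∧ y1 = W.negY x2 y2) := fun hh => hx hh.1
    rw [Point.add_some hxy] at hadd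
    simp only [Point.some.injEq] at hadd
    obtain ⟨hX, -⟩ := hadd
    have hx' : x1 - x2 ≠ 0 := sub_ne_zero.2 hx
    have hsl : W.slope x1 x2 y1 y2 = (y1 - y2) / (x1 - x2) := slope_of_X_ne hx
    have hX' : X = ((y1 - y2) / (x1 - x2)) ^ 2 + (e1 + e2 + e3) - x1 - x2 := by
      rw [← hX, addX, hsl, h.a1, h.a2]; ring
    refine ⟨y1 + (y1 - y2) / (x1 - x2) * (e1 - x1), ?_⟩
    rw [hX']
    have key : (x1 - e1) * (x2 - e1) * ((y1 - y2) ^ 2 +
      (x1 - x2) ^ 2 * (e2 + e3 - x1 - x2)) = (y1 * (x1 - x2) + (y1 - y2) * (e1 - x1)) ^ 2 := by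
      linear_combination (-(x1 - x2) * (x1 - e1)) * q2 + ((x1 - x2) * (x2 - e1)) * q1
    field_simp
    linear_combination key

/-- if the sum of two affine points is twice a point `Q` and `(e1, 0)` is not twice a point, then
the product of the two values of `x - e1` is a square -/
lemma kappa_half (h : TwoTors W e1 e2 e3) {x1 y1 x2 y2 : F} (h1 : W.Nonsingular x1 y1)
    (h2 : W.Nonsingular x2 y2) {Q : W.Point}
    (hQ : (Point.some x1 y1 h1 : W.Point) + Point.some x2 y2 h2 = Q + Q)
    (hT : ∀ P : W.Point, P + P ≠ tor h) :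
    IsSquare ((x1 - e1) * (x2 - e1)) := by
  rcases hcase : (Q + Q : W.Point) with _ | ⟨X, Y, hn⟩
  · rw [hcase] at hQ
    have hneg : (Point.some x1 y1 h1 : W.Point) = - Point.some x2 y2 h2 :=
      eq_neg_of_add_eq_zero_left hQ
    rw [Point.neg_some] at hneg
    simp only [Point.some.injEq] at hneg
    rw [hneg.1]
    exact ⟨x2 - e1, rfl⟩
  · rw [hcase] at hQ
    obtain ⟨t, ht⟩ := kappa_add h h1 h2 hQ
    have hs := rFun_sq h hcase
    have hX : X - e1 ≠ 0 := by
      intro h0
      apply hT Q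
      rw [hcase, tor]
      have hXe : X = e1 := sub_eq_zero.1 h0
      have heq := h.eq_of_nonsingular hn
      rw [hXe, sub_self, zero_mul, zero_mul] at heq
      simp only [Point.some.injEq]
      exact ⟨hXe, pow_eq_zero_iff two_ne_zero |>.1 heq⟩
    set s := rFun e1 e2 e3 Q with hsd
    have hs0 : s ≠ 0 := by
      intro h0
      rw [h0] at hs
      apply hX
      rw [← hs]; ring
    refine ⟨t / s, ?_⟩
    rw [← hs] at ht
    field_simp
    linear_combination ht

/-- a point that is twice a point has square `x - e1` -/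
lemma isSquare_of_half (h : TwoTors W e1 e2 e3) {x y : F} (h1 : W.Nonsingular x y) {Q : W.Point}
    (hQ : (Point.some x y h1 : W.Point) = Q + Q) : IsSquare (x - e1) := by
  have := rFun_sq h hQ.symm
  exact ⟨rFun e1 e2 e3 Q, by rw [← this]; ring⟩

end kappa

section indep

variable {G : Type*} [AddCommGroup G]

/-- independence from independence modulo two -/
lemma indep_of_mod_two {R1 R2 : G}
    (H : ∀ (i j : ℕ) (T : G), i ≤ 1 → j ≤ 1 → T + T = 0 → (∃ Q, i • R1 + j • R2 + T = Q + Q) →
      i = 0 ∧ j = 0 ∧ T = 0) :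
    ∀ (k : ℕ) (a b : ℤ) (T : G), a.natAbs + b.natAbs ≤ k → T + T = 0 →
      a • R1 + b • R2 + T = 0 → a = 0 ∧ b = 0 := by
  intro k
  induction k using Nat.strong_induction_on with
  | _ k ih =>
    intro a b T hk hT h0
    by_cases hab : a = 0 ∧ b = 0
    · exact hab
    exfalso
    obtain ⟨a', i, hi, ha⟩ : ∃ (a' : ℤ) (i : ℕ), i ≤ 1 ∧ a = 2 * a' + i := by
      refine ⟨a / 2, (a % 2).toNat, by omega, by omega⟩
    obtain ⟨b', j, hj, hb⟩ : ∃ (b' : ℤ) (j : ℕ), j ≤ 1 ∧ b = 2 * b' + j := by
      refine ⟨b / 2, (b % 2).toNat, by omega, by omega⟩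
    have hdec : (i • R1 + j • R2 + T) + ((a' • R1 + b' • R2) + (a' • R1 + b' • R2)) = 0 := by
      rw [← h0, ha, hb, add_smul, add_smul, two_mul, two_mul, add_smul, add_smul,
        natCast_zsmul, natCast_zsmul]
      abel
    obtain ⟨hi0, hj0, hT0⟩ := H i j T hi hj hT ⟨-(a' • R1 + b' • R2), by
      rw [← neg_add]; exact eq_neg_of_add_eq_zero_left hdec⟩
    subst hi0 hj0 hT0
    rw [zero_smul, zero_smul, add_zero, add_zero, zero_add] at hdec
    have hle : a'.natAbs + b'.natAbs < k := by omega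
    have := ih (a'.natAbs + b'.natAbs) hle a' b' (-(a' • R1 + b' • R2)) le_rfl (by
      rw [← neg_add, hdec, neg_zero]) (by abel)
    apply hab
    omega

/-- two points independent modulo two and torsion give rank at least two -/
lemma two_le_rank {R1 R2 : G}
    (H : ∀ (i j : ℕ) (T : G), i ≤ 1 → j ≤ 1 → T + T = 0 → (∃ Q, i • R1 + j • R2 + T = Q + Q) →
      i = 0 ∧ j = 0 ∧ T = 0) : 2 ≤ Module.rank ℤ G := by
  have hli : LinearIndependent ℤ ![R1, R2] := by
    rw [LinearIndependent.pair_iff]
    intro a b hab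
    exact indep_of_mod_two H _ a b 0 le_rfl (by rw [add_zero]) (by rw [add_zero]; exact hab)
  have := hli.cardinal_lift_le_rank
  simpa using this

end indep

end Pool.Agent.Work.MP_787500_nt
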