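import Mathlib
import Pool.Agent.Work.MP_787500_nt.H9_FamA1
import Pool.Agent.Work.MP_787500_nt.H9_Rank

/-!
# The curve y^2 = x (x - 6 p) (x - 12 r) has rank at least two
-/

set_option autoImplicit false
set_option linter.unusedSectionVars false
set_option linter.unusedVariables false

namespace Pool.Agent.Work.MP_787500_nt

open WeierstrassCurve WeierstrassCurve.Affine

/-- `ℓ u` is not a square times ... if the prime `ℓ` does not divide `u` -/
lemma not_isSquare_mul {ℓ : ℕ} (hℓ : ℓ.Prime) {u : ℤ} (hu : ¬ (ℓ : ℤ) ∣ u) {x s : ℚ} (hs : s ≠ 0)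
    (hx : x = ((ℓ : ℤ) * u : ℤ) * s ^ 2) : ¬ IsSquare x := by
  rintro ⟨t, ht⟩
  have h1 : IsSquare (((ℓ : ℤ) * u : ℤ) : ℚ) := by
    refine ⟨t / s, ?_⟩
    rw [hx] at ht
    field_simp
    linear_combination ht
  rw [Rat.isSquare_intCast_iff] at h1
  obtain ⟨v, hv⟩ := h1
  have hp := Nat.prime_iff_prime_int.1 hℓ
  have h2 : (ℓ : ℤ) ∣ v * v := ⟨u, hv.symm⟩
  have h3 : (ℓ : ℤ) ∣ v := by rcases hp.dvd_or_dvd h2 with h | h <;> exact h
  obtain ⟨w, rfl⟩ := h3
  apply hu
  refine ⟨w * w, ?_⟩
  apply mul_left_cancel₀ hp.ne_zero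
  linear_combination hv

lemma not_isSquare_neg {x : ℚ} (h : x < 0) : ¬ IsSquare x := fun hh => absurd hh.nonneg (not_le.2 h)

lemma exists_add_tor {W : WeierstrassCurve.Affine ℚ} {e1 e2 e3 : ℚ} (h : TwoTors W e1 e2 e3)
    {x y : ℚ} (hxy : W.Nonsingular x y) (hx : x ≠ e1) {X' : ℚ}
    (hX' : (X' - e1) * (x - e1) = (e1 - e2) * (e1 - e3)) :
    ∃ (Y : ℚ) (hn : W.Nonsingular X' Y),
      (Point.some x y hxy : W.Point) + tor h = .some X' Y hn := by
  obtain ⟨X, Y, hn, h1, h2, -⟩ := some_add_tor h hxy hx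
  have hne : x - e1 ≠ 0 := sub_ne_zero.2 hx
  have : X = X' := by
    have h3 : (X - e1) * (x - e1) = (X' - e1) * (x - e1) := by rw [h2, hX']
    have h4 := mul_right_cancel₀ hne h3
    linear_combination h4
  subst this
  exact ⟨Y, hn, h1⟩

variable {m n : ℤ} {p q r : ℕ}

theorem famA_rank (h : ParA m n p q r) {W : WeierstrassCurve.Affine ℚ}
    (hW : TwoTors W 0 (6 * p) (12 * r)) : 2 ≤ Module.rank ℤ W.Point := by
  have hlt1 := h.lt1
  have hlt2 := h.lt2
  have hq7 := h.q_ge
  have ep : (p : ℚ) = n ^ 2 - 6 * m ^ 2 := by exact_mod_cast h.ep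
  have er : (r : ℚ) = n ^ 2 - 12 * m ^ 2 := by exact_mod_cast h.er
  have eq : (q : ℚ) = n ^ 2 - 18 * m ^ 2 := by exact_mod_cast h.eq
  have p0 : (0 : ℚ) < p := by exact_mod_cast h.pp.pos
  have q0 : (0 : ℚ) < q := by exact_mod_cast h.pq.pos
  have r0 : (0 : ℚ) < r := by exact_mod_cast h.pr.pos
  obtain ⟨k, hk⟩ := h.n_odd
  obtain ⟨j, hj⟩ := h.hm
  have m0 : (m : ℚ) ≠ 0 := by
    have : m ≠ 0 := by omega
    exact_mod_cast this
  have n0 : (n : ℚ) ≠ 0 := by
    have : n ≠ 0 := by omega
    exact_mod_cast this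
  have m2 : (0 : ℚ) < m ^ 2 := by positivity
  have n2 : (0 : ℚ) < n ^ 2 := by positivity
  obtain ⟨dp2, dp3⟩ := ParA.not_dvd_small h.pp (by omega)
  obtain ⟨dr2, dr3⟩ := ParA.not_dvd_small h.pr (by omega)
  have dpr := ParA.not_dvd_prime h.pp h.pr (by omega)
  have drp := ParA.not_dvd_prime h.pr h.pp (by omega)
  have dp6 : ¬ (p : ℤ) ∣ 6 := by
    rw [show (6 : ℤ) = 2 * 3 by norm_num]; exact ParA.not_dvd_mul h.pp dp2 dp3
  have dr6 : ¬ (r : ℤ) ∣ 6 := by
    rw [show (6 : ℤ) = 2 * 3 by norm_num]; exact ParA.not_dvd_mul h.pr dr2 dr3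
  -- the torsion points are not divisible
  have hT1 : ∀ P : W.Point, P + P ≠ tor hW := by
    intro P hP
    have := isSquare_of_half hW.rot (hW.nonsingular_of_eq (x := 0) (y := 0) (by ring))
      (Q := P) hP.symm
    exact not_isSquare_neg (by linarith) this
  have hT2 : ∀ P : W.Point, P + P ≠ tor hW.rot := by
    intro P hP
    have := isSquare_of_half hW (hW.rot.nonsingular_of_eq (x := 6 * p) (y := 0) (by ring))
      (Q := P) hP.symm
    exact not_isSquare_mul h.pp dp6 (s := 1) one_ne_zero (by push_cast; ring) this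
  have hT3 : ∀ P : W.Point, P + P ≠ tor hW.rot.rot := by
    intro P hP
    have := isSquare_of_half hW (hW.rot.rot.nonsingular_of_eq (x := 12 * r) (y := 0) (by ring))
      (Q := P) hP.symm
    exact not_isSquare_mul h.pr dr3 (s := 2) two_ne_zero (by push_cast; ring) this
  -- the two points
  have hR1 : W.Nonsingular (p * r / m ^ 2 : ℚ) (p * q * r / m ^ 3) := by
    apply hW.nonsingular_of_eq
    field_simp
    rw [ep, er, eq]; ring
  have hR2 : W.Nonsingular (24 * p : ℚ) (72 * p * n) := by
    apply hW.nonsingular_of_eq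
    rw [ep, er]; ring
  obtain ⟨Y1, n1, a1⟩ := exists_add_tor hW hR1 (X' := 72 * m ^ 2) (by positivity)
    (by field_simp; ring)
  obtain ⟨Y2, n2', a2⟩ := exists_add_tor hW.rot hR1 (X' := 6 * r) (by
    intro hh
    field_simp at hh
    have h1 : (q : ℚ) = 0 := by
      rw [eq]; rw [er] at hh; linear_combination hh
    exact q0.ne' h1)
    (by field_simp; rw [ep, er]; ring)
  obtain ⟨Y3, n3, a3⟩ := exists_add_tor hW.rot.rot hR1 (X' := 12 * p) (by
    intro hh
    field_simp at hh
    have h1 : (q : ℚ) = 0 := by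
      rw [eq]; rw [ep] at hh; linear_combination hh
    exact q0.ne' h1)
    (by field_simp; rw [ep, er]; ring)
  obtain ⟨Z1, k1, b1⟩ := exists_add_tor hW hR2 (X' := 3 * r) (by positivity)
    (by ring)
  obtain ⟨Z2, k2, b2⟩ := exists_add_tor hW.rot hR2 (X' := 4 * n ^ 2) (by
    intro hh; linarith)
    (by rw [ep, er]; ring)
  obtain ⟨Z3, k3, b3⟩ := exists_add_tor hW.rot.rot hR2 (X' := 18 * p * r / n ^ 2) (by
    intro hh
    have : (n : ℚ) ^ 2 = 0 := by rw [ep, er] at hh; linarith
    exact n2.ne' this)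
    (by field_simp; rw [ep, er]; ring)
  apply two_le_rank (R1 := .some _ _ hR1) (R2 := .some _ _ hR2)
  rintro i j T hi hj hT ⟨Q, hQ⟩
  have ci : i = 0 ∨ i = 1 := by omega
  have cj : j = 0 ∨ j = 1 := by omega
  rcases ci with rfl | rfl <;> rcases cj with rfl | rfl
  · rw [zero_nsmul, zero_nsmul, zero_add, zero_add] at hQ
    rcases two_torsion_cases hW hT with rfl | rfl | rfl | rfl
    · exact ⟨rfl, rfl, rfl⟩
    · exact absurd hQ.symm (hT1 Q)
    · exact absurd hQ.symm (hT2 Q)
    · exact absurd hQ.symm (hT3 Q)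
  · exfalso
    rw [zero_nsmul, one_nsmul, zero_add] at hQ
    rcases two_torsion_cases hW hT with rfl | rfl | rfl | rfl
    · rw [add_zero] at hQ
      have := isSquare_of_half hW _ hQ
      exact not_isSquare_mul h.pp dp6 (s := 2) two_ne_zero (by push_cast; ring) this
    · rw [b1] at hQ
      have := isSquare_of_half hW.rot _ hQ
      exact not_isSquare_neg (by rw [ep, er]; linarith) this
    · rw [b2] at hQ
      have := isSquare_of_half hW.rot.rot _ hQ
      exact not_isSquare_neg (by rw [eq] at q0; rw [er]; linarith) this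
    · rw [b3] at hQ
      have := isSquare_of_half hW _ hQ
      exact not_isSquare_mul h.pp (u := 2 * r) (ParA.not_dvd_mul h.pp dp2 dpr) (s := 3 / n)
        (by positivity) (by push_cast; field_simp; ring) this
  · exfalso
    rw [one_nsmul, zero_nsmul, add_zero] at hQ
    rcases two_torsion_cases hW hT with rfl | rfl | rfl | rfl
    · rw [add_zero] at hQ
      have := isSquare_of_half hW _ hQ
      exact not_isSquare_mul h.pp dpr (s := 1 / m) (by positivity)
        (by push_cast; field_simp; ring) this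
    · rw [a1] at hQ
      have := isSquare_of_half hW.rot _ hQ
      exact not_isSquare_neg (by rw [eq] at q0; rw [ep]; linarith) this
    · rw [a2] at hQ
      have := isSquare_of_half hW.rot.rot _ hQ
      exact not_isSquare_neg (by linarith) this
    · rw [a3] at hQ
      have := isSquare_of_half hW _ hQ
      exact not_isSquare_mul h.pp dp3 (s := 2) two_ne_zero (by push_cast; ring) this
  · exfalso
    rw [one_nsmul, one_nsmul] at hQ
    rcases two_torsion_cases hW hT with rfl | rfl | rfl | rfl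
    · rw [add_zero] at hQ
      have := kappa_half hW _ _ hQ hT1
      exact not_isSquare_mul h.pr dr6 (s := 2 * p / m) (by positivity)
        (by push_cast; field_simp; ring) this
    · rw [add_right_comm, a1] at hQ
      have := kappa_half hW.rot _ _ hQ hT2
      refine not_isSquare_neg ?_ this
      apply mul_neg_of_neg_of_pos
      · rw [eq] at q0; rw [ep]; linarith
      · linarith
    · rw [add_right_comm, a2] at hQ
      have := kappa_half hW.rot.rot _ _ hQ hT3
      refine not_isSquare_neg ?_ this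
      apply mul_neg_of_neg_of_pos
      · linarith
      · rw [ep, er]; linarith
    · rw [add_right_comm, a3] at hQ
      have := kappa_half hW _ _ hQ hT1
      exact not_isSquare_mul Nat.prime_two (u := 1) (by norm_num) (s := 12 * p)
        (by positivity) (by push_cast; ring) this

end Pool.Agent.Work.MP_787500_nt
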