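import Mathlib
import Pool.Agent.Work.MP_787500_nt.H9_FamA4
import Pool.Agent.Work.MP_787500_nt.H9_FamA5
import Pool.Agent.Work.MP_787500_nt.H10_Kappa
import Pool.Agent.Work.MP_787500_nt.H10_MW
import Pool.Agent.Work.MP_787500_nt.H10_Rank
import Pool.Agent.Work.MP_787500_nt.H10_Gen

/-!
# The curve y^2 = x (x - 6 p) (x - 12 r) has rank exactly two
-/

set_option autoImplicit false
set_option linter.unusedSectionVars false
set_option linter.unusedVariables false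
set_option linter.unusedSimpArgs false

namespace Pool.Agent.Work.MP_787500_nt

open WeierstrassCurve WeierstrassCurve.Affine

variable {m n : ℤ} {p q r : ℕ}

/-- the classes are determined by four bits -/
theorem famA_bits (h : ParA m n p q r) {δ1 δ2 δ3 : ℤ}
    (sf1 : Squarefree δ1) (sf2 : Squarefree δ2) (sf3 : Squarefree δ3)
    (hsq : IsSquare (δ1 * δ2 * δ3))
    (hloc : ∀ (ℓ : ℕ) [Fact ℓ.Prime], ℓ ≠ 2 →
      HomSol (((0 : ℤ)) : ℚ) ((6 * p : ℤ) : ℚ) ((12 * r : ℤ) : ℚ) δ1 δ2 δ3 ℚ_[ℓ]) :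
    ∃ b1 b2 x y : ℕ, b1 ≤ 1 ∧ b2 ≤ 1 ∧ x ≤ 1 ∧ y ≤ 1 ∧
      δ1 = (-1) ^ 0 * (2 : ℕ) ^ ((b1 + b2) % 2) * (3 : ℕ) ^ b1 * p ^ x * q ^ 0 *
        r ^ ((b1 + x) % 2) ∧
      δ2 = (-1) ^ ((b1 + x + y) % 2) * (2 : ℕ) ^ ((x + y) % 2) * (3 : ℕ) ^ b2 * p ^ x * q ^ y *
        r ^ 0 ∧
      δ3 = (-1) ^ ((b1 + x + y) % 2) * (2 : ℕ) ^ ((b1 + b2 + x + y) % 2) *
        (3 : ℕ) ^ ((b1 + b2) % 2) * p ^ 0 * q ^ y * r ^ ((b1 + x) % 2) := by
  have hsupp := famA_supp h sf1 sf2 sf3 hsq hloc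
  have hlt1 := h.lt1
  have hlt2 := h.lt2
  have hq7 := h.q_ge
  have f2 : Fact (Nat.Prime 2) := ⟨Nat.prime_two⟩
  have f3 : Fact (Nat.Prime 3) := ⟨Nat.prime_three⟩
  have fp : Fact p.Prime := ⟨h.pp⟩
  have fq : Fact q.Prime := ⟨h.pq⟩
  have fr : Fact r.Prime := ⟨h.pr⟩
  have rep : ∀ {δ : ℤ}, Squarefree δ →
      (∀ ℓ : ℕ, ℓ.Prime → (ℓ : ℤ) ∣ δ → ℓ = 2 ∨ ℓ = 3 ∨ ℓ = p ∨ ℓ = q ∨ ℓ = r) →
      _ := fun {δ} sf hs => squarefree_rep5 sf (a := 2) (b := 3) (p := p) (q := q) (r := r)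
        (by norm_num) (by omega) (by omega) (by omega) (by omega) (by omega) (by omega) (by omega)
        (by omega) (by omega) Nat.prime_two Nat.prime_three h.pp h.pq h.pr hs
  obtain ⟨s1, a1, b1, x1, y1, t1, ls1, la1, lb1, lx1, ly1, lt1, ia1, ib1, ix1, iy1, it1, e1⟩ :=
    rep sf1 (fun ℓ hℓ hd => hsupp ℓ hℓ (Or.inl hd))
  obtain ⟨s2, a2, b2, x2, y2, t2, ls2, la2, lb2, lx2, ly2, lt2, ia2, ib2, ix2, iy2, it2, e2⟩ :=
    rep sf2 (fun ℓ hℓ hd => hsupp ℓ hℓ (Or.inr (Or.inl hd)))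
  obtain ⟨s3, a3, b3, x3, y3, t3, ls3, la3, lb3, lx3, ly3, lt3, ia3, ib3, ix3, iy3, it3, e3⟩ :=
    rep sf3 (fun ℓ hℓ hd => hsupp ℓ hℓ (Or.inr (Or.inr hd)))
  have pa : (a1 + a2 + a3) % 2 = 0 := bit_parity la1 la2 la3 ia1 ia2 ia3
    (not_sq_dvd_of_squarefree sf1 2) (not_sq_dvd_of_squarefree sf2 2)
    (not_sq_dvd_of_squarefree sf3 2) hsq
  have pb : (b1 + b2 + b3) % 2 = 0 := bit_parity lb1 lb2 lb3 ib1 ib2 ib3
    (not_sq_dvd_of_squarefree sf1 3) (not_sq_dvd_of_squarefree sf2 3)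
    (not_sq_dvd_of_squarefree sf3 3) hsq
  have hppos : (0 : ℤ) < p := by omega
  have hqpos : (0 : ℤ) < q := by omega
  have hrpos : (0 : ℤ) < r := by omega
  have upos : ∀ i j x y t : ℕ, (0 : ℤ) < (2 : ℕ) ^ i * (3 : ℕ) ^ j * p ^ x * q ^ y * r ^ t := by
    intro i j x y t
    positivity
  have ps : (s1 + s2 + s3) % 2 = 0 := sign_parity (upos a1 b1 x1 y1 t1) (upos a2 b2 x2 y2 t2)
    (upos a3 b3 x3 y3 t3) (by rw [e1]; ring) (by rw [e2]; ring) (by rw [e3]; ring) hsq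
  obtain ⟨X, w, z1, z2, z3, hP⟩ := exists_prim (hloc p (by omega))
  obtain ⟨P1, P2, P3⟩ := place_p h hP (not_sq_dvd_of_squarefree sf1 p)
    (not_sq_dvd_of_squarefree sf2 p) (not_sq_dvd_of_squarefree sf3 p) hsq lx1 lx2 lx3 ix1 ix2 ix3 e3
  obtain ⟨X, w, z1, z2, z3, hQ⟩ := exists_prim (hloc q (by omega))
  obtain ⟨Q1, Q2, Q3⟩ := place_q h hQ (not_sq_dvd_of_squarefree sf1 q)
    (not_sq_dvd_of_squarefree sf2 q) (not_sq_dvd_of_squarefree sf3 q) hsq ly1 ly2 ly3 iy1 iy2 iy3 e1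
  obtain ⟨X, w, z1, z2, z3, hR⟩ := exists_prim (hloc r (by omega))
  obtain ⟨R1, R2, R3⟩ := place_r h hR (not_sq_dvd_of_squarefree sf1 r)
    (not_sq_dvd_of_squarefree sf2 r) (not_sq_dvd_of_squarefree sf3 r) hsq lt1 lt2 lt3 it1 it2 it3 e2
  obtain ⟨X, w, z1, z2, z3, hT⟩ := exists_prim (hloc 3 (by norm_num))
  obtain ⟨T1, T2⟩ := place_3 h hT hsq lb1 lb2 lb3 ps pa pb e1 e2 e3
  subst P1 Q1 R1 P2 Q2 R2
  have hb1 : b1 % 2 = b1 := Nat.mod_eq_of_lt (Nat.lt_succ_of_le lb1)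
  have key := bits_solve ps pa pb P3 Q3 R3 T1 (T2.trans hb1.symm)
  rw [Nat.mod_eq_of_lt (Nat.lt_succ_of_le lt3), Nat.mod_eq_of_lt (Nat.lt_succ_of_le ls1),
    Nat.mod_eq_of_lt (Nat.lt_succ_of_le la1), Nat.mod_eq_of_lt (Nat.lt_succ_of_le ls2),
    Nat.mod_eq_of_lt (Nat.lt_succ_of_le la2), Nat.mod_eq_of_lt (Nat.lt_succ_of_le ls3),
    Nat.mod_eq_of_lt (Nat.lt_succ_of_le la3), Nat.mod_eq_of_lt (Nat.lt_succ_of_le lb3)] at key
  obtain ⟨k1, k2, k3, k4, k5, k6, k7, k8⟩ := key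
  subst k2 k3 k1 k4 k5 k6 k7 k8
  exact ⟨b1, b2, x1, y2, lb1, lb2, lx1, ly2, e1, e2, e3⟩


/-- the classes of `d2` and `d3` modulo squares are determined by four bits -/
theorem famA_bits_rat (h : ParA m n p q r) {d1 d2 d3 : ℚ} (n1 : d1 ≠ 0) (n2 : d2 ≠ 0)
    (n3 : d3 ≠ 0) (hsq : IsSquare (d1 * d2 * d3))
    (hsol : HomSol (0 : ℚ) (6 * p) (12 * r) d1 d2 d3 ℚ) :
    ∃ B : Fin 2 × Fin 2 × Fin 2 × Fin 2, ∃ s2 s3 : ℚ, s2 ≠ 0 ∧ s3 ≠ 0 ∧
      d2 = ((-1 : ℤ) ^ ((B.1.val + B.2.2.1.val + B.2.2.2.val) % 2) *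
        (2 : ℕ) ^ ((B.2.2.1.val + B.2.2.2.val) % 2) * (3 : ℕ) ^ B.2.1.val * p ^ B.2.2.1.val *
        q ^ B.2.2.2.val * r ^ 0 : ℤ) * s2 ^ 2 ∧
      d3 = ((-1 : ℤ) ^ ((B.1.val + B.2.2.1.val + B.2.2.2.val) % 2) *
        (2 : ℕ) ^ ((B.1.val + B.2.1.val + B.2.2.1.val + B.2.2.2.val) % 2) *
        (3 : ℕ) ^ ((B.1.val + B.2.1.val) % 2) * p ^ 0 *
        q ^ B.2.2.2.val * r ^ ((B.1.val + B.2.2.1.val) % 2) : ℤ) * s3 ^ 2 := by
  obtain ⟨δ1, sf1, s1, hs1, e1⟩ := exists_squarefree_rep d1 n1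
  obtain ⟨δ2, sf2, s2, hs2, e2⟩ := exists_squarefree_rep d2 n2
  obtain ⟨δ3, sf3, s3, hs3, e3⟩ := exists_squarefree_rep d3 n3
  have hsq' := isSquare_int hsq hs1 hs2 hs3 e1 e2 e3
  obtain ⟨b1, b2, x, y, l1, l2, lx, ly, f1, f2, f3⟩ := famA_bits h sf1 sf2 sf3 hsq' (by
    intro ℓ _ hℓ
    have := (hsol.map ℚ_[ℓ]).congr e1 e2 e3
    push_cast
    exact this)
  refine ⟨(⟨b1, by omega⟩, ⟨b2, by omega⟩, ⟨x, by omega⟩, ⟨y, by omega⟩), s2, s3, hs2, hs3, ?_, ?_⟩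
  · rw [e2, f2]
  · rw [e3, f3]

open scoped Classical in
/-- a bound for the rank from a finite list of representatives of the Kummer classes -/
theorem rank_bound {F : Type*} [Field F] [NumberField F] {W : WeierstrassCurve.Affine F}
    [WeierstrassCurve.IsElliptic W] {e1 e2 e3 : F} (h : TwoTors W e1 e2 e3) {ι : Type} [Finite ι]
    (R : ι → F × F) (hR0 : ∀ i, (R i).1 ≠ 0 ∧ (R i).2 ≠ 0)
    (H : ∀ d1 d2 d3 : F, d1 ≠ 0 → d2 ≠ 0 → d3 ≠ 0 → IsSquare (d1 * d2 * d3) →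
      HomSol e1 e2 e3 d1 d2 d3 F → ∃ i, IsSquare (d2 * (R i).1) ∧ IsSquare (d3 * (R i).2)) :
    AddGroup.FG W.Point ∧ 2 ^ (Module.finrank ℤ W.Point + 2) ≤ Nat.card ι := by
  have hk : ∀ P : W.Point, ∃ d : F × F × F, ∃ i : ι,
      (IsSquare (d.2.1 * (R i).1) ∧ IsSquare (d.2.2 * (R i).2)) ∧
      KumRel h (show (W⁄F).Point from P) d.1 d.2.1 d.2.2 := by
    intro P
    obtain ⟨d1, d2, d3, n1, n2, n3, hsq, hsol, hrel⟩ := exists_kumRel h (show (W⁄F).Point from P)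
    obtain ⟨i, hi⟩ := H d1 d2 d3 n1 n2 n3 hsq hsol
    exact ⟨(d1, d2, d3), i, hi, hrel⟩
  choose κ β hβ hκ using hk
  have sqm : ∀ {a b c : F}, c ≠ 0 → IsSquare (a * c) → IsSquare (b * c) → IsSquare (a * b) := by
    rintro a b c hc ⟨u, hu⟩ ⟨v, hv⟩
    refine ⟨u * v / c, ?_⟩
    field_simp
    linear_combination (b * c) * hu + (u * u) * hv
  have key : ∀ P P' : W.Point, β P = β P' → IsSquare ((κ P).2.1 * (κ P').2.1) ∧
      IsSquare ((κ P).2.2 * (κ P').2.2) := by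
    intro P P' hPP
    have f := hβ P
    have g := hβ P'
    rw [← hPP] at g
    exact ⟨sqm (hR0 (β P)).1 f.1 g.1, sqm (hR0 (β P)).2 f.2 g.2⟩
  let f : W.Point ⧸ (dbl W.Point).range → ι := fun q => β q.out
  have hf : Function.Injective f := by
    intro q q' hq
    have h1 := key q.out q'.out hq
    obtain ⟨R, hR⟩ := exists_double_of_kumRel h (hκ q.out) (hκ q'.out) h1.1 h1.2
    have hR' : q.out - q'.out = (show W.Point from R) + (show W.Point from R) := hR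
    rw [← q.out_eq', ← q'.out_eq', QuotientAddGroup.eq]
    refine ⟨-(show W.Point from R), ?_⟩
    rw [nsmulAddMonoidHom_apply, two_nsmul]
    calc -(show W.Point from R) + -(show W.Point from R)
        = -((show W.Point from R) + (show W.Point from R)) := by abel
      _ = -(q.out - q'.out) := by rw [hR']
      _ = -q.out + q'.out := by abel
  have hfinQ : Finite (W.Point ⧸ (dbl W.Point).range) := Finite.of_injective f hf
  have hidx : (dbl W.Point).range.FiniteIndex := AddSubgroup.finiteIndex_of_finite_quotient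
  have hFG : AddGroup.FG W.Point := fg_of_finiteIndex (by rw [h.a1]) (by rw [h.a3]) hidx
  have hle : (dbl W.Point).range.index ≤ Nat.card ι := by
    rw [AddSubgroup.index_eq_card]
    exact Nat.card_le_card_of_injective f hf
  have hker : Finite (dbl W.Point).ker := by
    have h5 := index_dbl_eq W.Point
    have h6 : (dbl W.Point).range.index ≠ 0 := hidx.index_ne_zero
    have h7 : Nat.card (dbl W.Point).ker ≠ 0 := by
      intro h8
      rw [h8, mul_zero] at h5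
      exact h6 h5
    exact Nat.finite_of_card_ne_zero h7
  have h4 : 4 ≤ Nat.card (dbl W.Point).ker := card_ker_dbl_ge h
  have hge : 2 ^ (Module.finrank ℤ W.Point + 2) ≤ (dbl W.Point).range.index := by
    rw [index_dbl_eq, pow_add]
    exact Nat.mul_le_mul le_rfl h4
  exact ⟨hFG, hge.trans hle⟩

/-- a bound for the rank from a finite list of representatives of the Kummer classes -/
theorem rank_bound' {F : Type*} [Field F] [NumberField F] [inst : DecidableEq F]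
    {W : WeierstrassCurve.Affine F}
    [WeierstrassCurve.IsElliptic W] {e1 e2 e3 : F} (h : TwoTors W e1 e2 e3) {ι : Type} [Finite ι]
    (R : ι → F × F) (hR0 : ∀ i, (R i).1 ≠ 0 ∧ (R i).2 ≠ 0)
    (H : ∀ d1 d2 d3 : F, d1 ≠ 0 → d2 ≠ 0 → d3 ≠ 0 → IsSquare (d1 * d2 * d3) →
      HomSol e1 e2 e3 d1 d2 d3 F → ∃ i, IsSquare (d2 * (R i).1) ∧ IsSquare (d3 * (R i).2)) :
    AddGroup.FG W.Point ∧ 2 ^ (Module.finrank ℤ W.Point + 2) ≤ Nat.card ι := by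
  obtain rfl : inst = fun a b => Classical.propDecidable (a = b) := Subsingleton.elim _ _
  exact rank_bound h R hR0 H

/-- the classes of `d2` and `d3` -/
noncomputable def famR (p q r : ℕ) (B : Fin 2 × Fin 2 × Fin 2 × Fin 2) : ℚ × ℚ :=
  ((((-1 : ℤ) ^ ((B.1.val + B.2.2.1.val + B.2.2.2.val) % 2) *
        (2 : ℕ) ^ ((B.2.2.1.val + B.2.2.2.val) % 2) * (3 : ℕ) ^ B.2.1.val * p ^ B.2.2.1.val *
        q ^ B.2.2.2.val * r ^ 0 : ℤ) : ℚ),
    (((-1 : ℤ) ^ ((B.1.val + B.2.2.1.val + B.2.2.2.val) % 2) *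
        (2 : ℕ) ^ ((B.1.val + B.2.1.val + B.2.2.1.val + B.2.2.2.val) % 2) *
        (3 : ℕ) ^ ((B.1.val + B.2.1.val) % 2) * p ^ 0 *
        q ^ B.2.2.2.val * r ^ ((B.1.val + B.2.2.1.val) % 2) : ℤ) : ℚ))

theorem famA_bound (h : ParA m n p q r) {W : WeierstrassCurve.Affine ℚ}
    (hW : TwoTors W 0 (6 * p) (12 * r)) (hΔ : W.Δ ≠ 0) :
    AddGroup.FG W.Point ∧ 2 ^ (Module.finrank ℤ W.Point + 2) ≤ 16 := by
  have hell : WeierstrassCurve.IsElliptic W := ⟨isUnit_iff_ne_zero.2 hΔ⟩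
  have hp0 : (p : ℤ) ≠ 0 := by have := h.pp.pos; omega
  have hq0 : (q : ℤ) ≠ 0 := by have := h.pq.pos; omega
  have hr0 : (r : ℤ) ≠ 0 := by have := h.pr.pos; omega
  have := rank_bound' hW (famR p q r) (by
    intro B
    constructor
    · simp only [famR]
      rw [Int.cast_ne_zero]
      have : ((-1 : ℤ) ^ ((B.1.val + B.2.2.1.val + B.2.2.2.val) % 2)) ≠ 0 := by
        apply pow_ne_zero; norm_num
      positivity
    · simp only [famR]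
      rw [Int.cast_ne_zero]
      have : ((-1 : ℤ) ^ ((B.1.val + B.2.2.1.val + B.2.2.2.val) % 2)) ≠ 0 := by
        apply pow_ne_zero; norm_num
      positivity) (by
    intro d1 d2 d3 n1 n2 n3 hsq hsol
    obtain ⟨B, s2, s3, hs2, hs3, f2, f3⟩ := famA_bits_rat h n1 n2 n3 hsq hsol
    refine ⟨B, ?_, ?_⟩
    · rw [f2]
      exact ⟨(famR p q r B).1 * s2, by simp only [famR]; ring⟩
    · rw [f3]
      exact ⟨(famR p q r B).2 * s3, by simp only [famR]; ring⟩)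
  rw [show Nat.card (Fin 2 × Fin 2 × Fin 2 × Fin 2) = 16 by simp [Nat.card_prod]] at this
  exact this

theorem famA_finrank (h : ParA m n p q r) {W : WeierstrassCurve.Affine ℚ}
    (hW : TwoTors W 0 (6 * p) (12 * r)) (hΔ : W.Δ ≠ 0) :
    AddGroup.FG W.Point ∧ Module.finrank ℤ W.Point = 2 := by
  obtain ⟨hFG', hle'⟩ := famA_bound h hW hΔ
  refine ⟨hFG', ?_⟩
  have h9 := (Nat.pow_le_pow_iff_right (by norm_num : 1 < 2)).1
    (hle'.trans (by norm_num : 16 ≤ 2 ^ (2 + 2)))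
  have hrk := famA_rank h hW
  have hmf : Module.Finite ℤ W.Point := Module.Finite.iff_addGroup_fg.mpr hFG'
  have h10 : 2 ≤ Module.finrank ℤ W.Point := by
    have := Module.finrank_eq_rank ℤ W.Point
    rw [← this] at hrk
    exact_mod_cast hrk
  omega

end Pool.Agent.Work.MP_787500_nt
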